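import Mathlib
import Pool.Agent.R701.UG.Rel

/-!
# The Mahler measure of decomposable polynomials
-/

set_option autoImplicit false

open Polynomial Pool.Agent.R701.UG

namespace Pool.Agent.Zk21.Dec

/-! ### The real inequality -/

lemma gold_pos : 0 < Real.goldenRatio := Real.goldenRatio_pos

lemma key_ineq {s : ℝ} (h0 : 0 < s) (h1 : s < 1) :
    Real.log (1 - s) + (Real.goldenRatio - 1) * Real.log s ≤
      -((2 * Real.goldenRatio - 1) * Real.log Real.goldenRatio) := by
  set φ := Real.goldenRatio with hφ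
  have hφ1 : 1 < φ := Real.one_lt_goldenRatio
  have hφ0 : 0 < φ := by linarith
  have hsq : φ ^ 2 = φ + 1 := Real.goldenRatio_sq
  have a1 : Real.log s = Real.log (s * φ ^ 2) - 2 * Real.log φ := by
    rw [Real.log_mul h0.ne' (by positivity), Real.log_pow]; push_cast; ring
  have a2 : Real.log (1 - s) = Real.log ((1 - s) * φ) - Real.log φ := by
    rw [Real.log_mul (by linarith) hφ0.ne']; ring
  have b1 : Real.log (s * φ ^ 2) ≤ s * φ ^ 2 - 1 := Real.log_le_sub_one_of_pos (by positivity)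
  have b2 : Real.log ((1 - s) * φ) ≤ (1 - s) * φ - 1 :=
    Real.log_le_sub_one_of_pos (mul_pos (by linarith) hφ0)
  have c1 : (φ - 1) * Real.log (s * φ ^ 2) ≤ (φ - 1) * (s * φ ^ 2 - 1) :=
    mul_le_mul_of_nonneg_left b1 (by linarith)
  have e1 : (φ - 1) * (s * φ ^ 2 - 1) + ((1 - s) * φ - 1) = 0 := by
    have h3 : φ ^ 3 = 2 * φ + 1 := by
      calc φ ^ 3 = φ * φ ^ 2 := by ring
        _ = φ * (φ + 1) := by rw [hsq]
        _ = φ ^ 2 + φ := by ring
        _ = _ := by rw [hsq]; ring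
    have : (φ - 1) * (s * φ ^ 2 - 1) + ((1 - s) * φ - 1) = s * φ ^ 3 - s * φ ^ 2 - s * φ := by ring
    rw [this, h3, hsq]; ring
  rw [a1, a2]
  nlinarith

lemma log_up_lo {up lo w : ℝ} (hu : 0 < up) (hl : 0 < lo) (hw : 0 < w) (h : w ≤ up ^ 2 - lo ^ 2) :
    Real.log w ≤ 2 * Real.goldenRatio * Real.log up - 2 * (Real.goldenRatio - 1) * Real.log lo -
      (2 * Real.goldenRatio - 1) * Real.log Real.goldenRatio := by
  have hs0 : 0 < (lo / up) ^ 2 := by positivity
  have hs1 : (lo / up) ^ 2 < 1 := by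
    rw [div_pow, div_lt_one (by positivity)]
    linarith
  have h1 : up ^ 2 - lo ^ 2 = up ^ 2 * (1 - (lo / up) ^ 2) := by field_simp
  have h2 : Real.log w ≤ 2 * Real.log up + Real.log (1 - (lo / up) ^ 2) := by
    refine (Real.log_le_log hw h).trans (le_of_eq ?_)
    rw [h1, Real.log_mul (by positivity) (by linarith), Real.log_pow]
    push_cast; ring
  have h3 := key_ineq hs0 hs1
  have h4 : Real.log ((lo / up) ^ 2) = 2 * (Real.log lo - Real.log up) := by
    rw [Real.log_pow, Real.log_div hl.ne' hu.ne']; push_cast; ring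
  rw [h4] at h3
  nlinarith

/-! ### Coefficients of the conjugate reciprocal polynomial -/

lemma natDegree_pl (R : Multiset ℂ) : (pl R).natDegree = R.card := by
  unfold pl
  exact natDegree_multiset_prod_X_sub_C_eq_card R

lemma pr_eq (R : Multiset ℂ) : pr R = ((pl R).reverse).map (starRingEnd ℂ) := by
  unfold pr pl
  rw [Pool.Agent.H338R2.reverse_prod, Polynomial.map_multiset_prod, Multiset.map_map]
  congr 1
  apply Multiset.map_congr rfl
  intro a _
  simp

lemma pr_coeff (R : Multiset ℂ) {i : ℕ} (hi : i ≤ R.card) :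
    (pr R).coeff i = starRingEnd ℂ ((pl R).coeff (R.card - i)) := by
  rw [pr_eq, coeff_map, coeff_reverse, natDegree_pl, revAt_le hi]

/-! ### Integrality -/

lemma one_le_prod {g : ℤ[X]} (hg : ∀ x : ℚ, aeval x g ≠ 0) {A B : ℤ} (hAB : A ≠ 0 ∨ B ≠ 0) :
    1 ≤ ‖((g.leadingCoeff : ℤ) : ℂ)‖ *
      ((g.map (Int.castRingHom ℂ)).roots.map (fun β => ‖(A : ℂ) + B * β‖)).prod := by
  have hinj : Function.Injective (Int.castRingHom ℂ) := (Int.castRingHom ℂ).injective_int
  have hg0 : g ≠ 0 := by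
    rintro rfl
    exact hg 0 (map_zero _)
  have hlc : 1 ≤ ‖((g.leadingCoeff : ℤ) : ℂ)‖ := by
    rw [Complex.norm_intCast]
    exact_mod_cast Int.one_le_abs (leadingCoeff_ne_zero.mpr hg0)
  by_cases hB : B = 0
  · have hA : A ≠ 0 := by
      rcases hAB with h | h
      · exact h
      · exact absurd hB h
    subst hB
    simp only [Int.cast_zero, zero_mul, add_zero]
    apply one_le_mul_of_one_le_of_one_le hlc
    rw [Multiset.map_const', Multiset.prod_replicate]
    apply one_le_pow₀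
    rw [Complex.norm_intCast]
    exact_mod_cast Int.one_le_abs hA
  · set N : ℤ := (g.scaleRoots B).eval (-A) with hN
    have hBc : (B : ℂ) ≠ 0 := by exact_mod_cast hB
    have h1 : (N : ℂ) = (B : ℂ) ^ g.natDegree * eval₂ (Int.castRingHom ℂ) (-(A : ℂ) / B) g := by
      have h2 := scaleRoots_eval₂_mul (p := g) (Int.castRingHom ℂ) (-(A : ℂ) / B) B
      have h3 : (Int.castRingHom ℂ) B * (-(A : ℂ) / B) = ((-A : ℤ) : ℂ) := by
        rw [eq_intCast]; push_cast; field_simp
      rw [h3] at h2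
      rw [eq_intCast] at h2
      rw [← h2, hN]
      have h4 := Polynomial.eval₂_hom (p := g.scaleRoots B) (Int.castRingHom ℂ) (-A)
      rw [eq_intCast] at h4
      rw [h4, eq_intCast]
    have hN0 : N ≠ 0 := by
      intro h
      rw [h, Int.cast_zero] at h1
      have h2 : eval₂ (Int.castRingHom ℂ) (-(A : ℂ) / B) g = 0 := by
        rcases mul_eq_zero.mp h1.symm with h3 | h3
        · exact absurd h3 (pow_ne_zero _ hBc)
        · exact h3
      apply hg (-(A : ℚ) / B)
      have h3 : ((aeval (-(A : ℚ) / B) g : ℚ) : ℂ) = 0 := by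
        have h4 : ((aeval (-(A : ℚ) / B) g : ℚ) : ℂ) = (algebraMap ℚ ℂ) (aeval (-(A : ℚ) / B) g) := rfl
        rw [h4, ← Polynomial.aeval_algebraMap_apply, Polynomial.aeval_def]
        have h5 : (algebraMap ℚ ℂ) (-(A : ℚ) / B) = -(A : ℂ) / B := by simp
        rw [h5]
        exact h2
      exact_mod_cast h3
    have h2 : eval₂ (Int.castRingHom ℂ) (-(A : ℂ) / B) g =
        ((g.leadingCoeff : ℤ) : ℂ) * ((g.map (Int.castRingHom ℂ)).roots.map (fun β => -(A : ℂ) / B - β)).prod := by
      rw [← Polynomial.eval_map, (IsAlgClosed.splits (g.map (Int.castRingHom ℂ))).eval_eq_prod_roots,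
        leadingCoeff_map_of_injective hinj, eq_intCast]
    have hcard : (g.map (Int.castRingHom ℂ)).roots.card = g.natDegree := by
      rw [← natDegree_map_eq_of_injective hinj g]
      exact ((IsAlgClosed.splits (g.map (Int.castRingHom ℂ))).natDegree_eq_card_roots).symm
    have h3 : ‖(N : ℂ)‖ = ‖((g.leadingCoeff : ℤ) : ℂ)‖ *
        ((g.map (Int.castRingHom ℂ)).roots.map (fun β => ‖(A : ℂ) + B * β‖)).prod := by
      rw [h1, h2, norm_mul, norm_mul, mul_left_comm]
      congr 1
      have h4 : ∀ S : Multiset ℂ, ‖(B : ℂ) ^ S.card‖ * ‖(S.map (fun β => -(A : ℂ) / B - β)).prod‖ =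
          (S.map (fun β => ‖(A : ℂ) + B * β‖)).prod := by
        intro S
        induction S using Multiset.induction_on with
        | empty => simp
        | cons β S ih =>
          rw [Multiset.card_cons, Multiset.map_cons, Multiset.prod_cons, Multiset.map_cons,
            Multiset.prod_cons, ← ih, pow_succ, norm_mul, norm_mul]
          have h5 : (A : ℂ) + B * β = -(B * (-(A : ℂ) / B - β)) := by field_simp; ring
          rw [h5, norm_neg, norm_mul]
          ring
      rw [← hcard]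
      exact h4 _
    rw [← h3, Complex.norm_intCast]
    exact_mod_cast Int.one_le_abs hN0

/-! ### One fibre -/

lemma up_pos (R : Multiset ℂ) : 0 < up R := lt_of_lt_of_le one_pos (one_le_up R)

/-- the polynomial `u - β v` -/
noncomputable def fb (u v : ℤ[X]) (β : ℂ) : ℂ[X] :=
  u.map (Int.castRingHom ℂ) - C β * v.map (Int.castRingHom ℂ)

lemma fb_coeff (u v : ℤ[X]) (β : ℂ) (i : ℕ) :
    (fb u v β).coeff i = ((u.coeff i : ℤ) : ℂ) - β * ((v.coeff i : ℤ) : ℂ) := by
  unfold fb
  rw [coeff_sub, coeff_C_mul, coeff_map, coeff_map]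
  rfl

/-- the data of the polynomial `u - β v` -/
lemma fibre {u v : ℤ[X]} {β : ℂ} (hd : v.natDegree < u.natDegree)
    (hβ : ((u.coeff 0 : ℤ) : ℂ) - β * ((v.coeff 0 : ℤ) : ℂ) ≠ 0) :
    ∃ R : Multiset ℂ, fb u v β = C ((u.leadingCoeff : ℤ) : ℂ) * pl R ∧
      R.card = u.natDegree ∧ (∀ a ∈ R, a ≠ 0) ∧
      (fb u v β).mahlerMeasure = ‖((u.leadingCoeff : ℤ) : ℂ)‖ * up R ∧
      up R * lo R = ‖((u.coeff 0 : ℤ) : ℂ) - β * ((v.coeff 0 : ℤ) : ℂ)‖ /
        ‖((u.leadingCoeff : ℤ) : ℂ)‖ := by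
  have hinj : Function.Injective (Int.castRingHom ℂ) := (Int.castRingHom ℂ).injective_int
  set H := u.map (Int.castRingHom ℂ) with hH
  have hnH : H.natDegree = u.natDegree := natDegree_map_eq_of_injective hinj u
  have hlH : H.leadingCoeff = ((u.leadingCoeff : ℤ) : ℂ) := by
    rw [hH, leadingCoeff_map_of_injective hinj]; rfl
  have hu0 : u ≠ 0 := by
    rintro rfl
    simp at hd
  set P := fb u v β with hP
  have hdeg : (C β * v.map (Int.castRingHom ℂ) : ℂ[X]).degree < H.degree := by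
    have h1 : (C β * v.map (Int.castRingHom ℂ) : ℂ[X]).natDegree < H.natDegree := by
      rw [hnH]
      refine lt_of_le_of_lt (natDegree_C_mul_le _ _) ?_
      rw [natDegree_map_eq_of_injective hinj v]
      exact hd
    exact degree_lt_degree h1
  have hPdef : P = H - C β * v.map (Int.castRingHom ℂ) := rfl
  have hlP : P.leadingCoeff = ((u.leadingCoeff : ℤ) : ℂ) := by
    rw [hPdef, leadingCoeff_sub_of_degree_lt hdeg, hlH]
  have hnP : P.natDegree = u.natDegree := by
    rw [hPdef, natDegree_eq_of_degree_eq (degree_sub_eq_left_of_degree_lt hdeg), hnH]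
  have hb : ((u.leadingCoeff : ℤ) : ℂ) ≠ 0 := by
    exact_mod_cast leadingCoeff_ne_zero.mpr hu0
  have hP0 : P.coeff 0 = ((u.coeff 0 : ℤ) : ℂ) - β * ((v.coeff 0 : ℤ) : ℂ) := fb_coeff u v β 0
  have e1 : P = C ((u.leadingCoeff : ℤ) : ℂ) * pl P.roots := by
    rw [← hlP]
    exact (IsAlgClosed.splits P).eq_prod_roots
  have hpl0 : (pl P.roots).coeff 0 * ((u.leadingCoeff : ℤ) : ℂ) =
      ((u.coeff 0 : ℤ) : ℂ) - β * ((v.coeff 0 : ℤ) : ℂ) := by
    rw [← hP0]
    conv_rhs => rw [e1]
    rw [coeff_C_mul]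
    ring
  refine ⟨P.roots, e1, ?_, ?_, ?_, ?_⟩
  · rw [← hnP]
    exact ((IsAlgClosed.splits P).natDegree_eq_card_roots).symm
  · intro a ha h0
    rw [h0] at ha
    have h1 := (mem_roots'.mp ha).2
    rw [IsRoot.def, ← coeff_zero_eq_eval_zero, hP0] at h1
    exact hβ h1
  · rw [mahlerMeasure_eq_leadingCoeff_mul_prod_roots, hlP]
    rfl
  · have h1 : ‖(pl P.roots).coeff 0‖ = up P.roots * lo P.roots := by
      rw [up_mul_lo]
      have : ∀ R : Multiset ℂ, ‖(pl R).coeff 0‖ = (R.map (fun a => ‖a‖)).prod := by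
        intro R
        induction R using Multiset.induction_on with
        | empty => simp [pl]
        | cons a R ih =>
          rw [pl] at ih ⊢
          rw [Multiset.map_cons, Multiset.prod_cons, Polynomial.mul_coeff_zero, norm_mul, ih,
            Multiset.map_cons, Multiset.prod_cons]
          simp
      exact this _
    rw [← h1, ← hpl0, norm_mul, mul_div_assoc, div_self (norm_ne_zero_iff.mpr hb), mul_one]

/-- the inequality for one fibre -/
lemma fibre_ineq {u v : ℤ[X]} {β : ℂ} {j : ℕ} (hd : v.natDegree < u.natDegree) (hj0 : 0 < j)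
    (hjd : j + v.natDegree < u.natDegree)
    (hmin : ∀ i, 0 < i → i < j →
      u.leadingCoeff * u.coeff i - u.coeff 0 * u.coeff (u.natDegree - i) = 0 ∧
      v.coeff 0 * u.coeff (u.natDegree - i) - u.leadingCoeff * v.coeff i = 0)
    (hβ : ((u.coeff 0 : ℤ) : ℂ) - β * ((v.coeff 0 : ℤ) : ℂ) ≠ 0)
    (hw : ((u.leadingCoeff * u.coeff j - u.coeff 0 * u.coeff (u.natDegree - j) : ℤ) : ℂ) +
      ((v.coeff 0 * u.coeff (u.natDegree - j) - u.leadingCoeff * v.coeff j : ℤ) : ℂ) * β ≠ 0) :
    Real.log ‖((u.leadingCoeff * u.coeff j - u.coeff 0 * u.coeff (u.natDegree - j) : ℤ) : ℂ) +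
      ((v.coeff 0 * u.coeff (u.natDegree - j) - u.leadingCoeff * v.coeff j : ℤ) : ℂ) * β‖ ≤
      2 * (2 * Real.goldenRatio - 1) * Real.log (fb u v β).mahlerMeasure -
      2 * (Real.goldenRatio - 1) * Real.log ‖((u.coeff 0 : ℤ) : ℂ) - β * ((v.coeff 0 : ℤ) : ℂ)‖ -
      (2 * Real.goldenRatio - 2) * Real.log ‖((u.leadingCoeff : ℤ) : ℂ)‖ -
      (2 * Real.goldenRatio - 1) * Real.log Real.goldenRatio := by
  obtain ⟨R, hR1, hR2, hR3, hR4, hR5⟩ := fibre hd hβ
  set d := u.natDegree with hdd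
  have hu0 : u ≠ 0 := by
    rintro rfl
    simp at hdd
    omega
  have hbZ : u.leadingCoeff ≠ 0 := leadingCoeff_ne_zero.mpr hu0
  set b : ℂ := ((u.leadingCoeff : ℤ) : ℂ) with hb
  have hb0 : b ≠ 0 := by
    rw [hb]; exact_mod_cast hbZ
  have hbn : 0 < ‖b‖ := norm_pos_iff.mpr hb0
  have hbconj : starRingEnd ℂ b = b := by rw [hb]; exact map_intCast (starRingEnd ℂ) _
  -- coefficients
  have hco : ∀ i, b * (pl R).coeff i = ((u.coeff i : ℤ) : ℂ) - β * ((v.coeff i : ℤ) : ℂ) := by
    intro i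
    rw [← coeff_C_mul, ← hR1, fb_coeff]
  set c := (pl R).coeff 0 with hc
  have hpr : ∀ i, 0 < i → i + v.natDegree < d → b * (pr R).coeff i = ((u.coeff (d - i) : ℤ) : ℂ) := by
    intro i hi hid
    rw [pr_coeff R (by omega), hR2]
    have h1 := congrArg (starRingEnd ℂ) (hco (d - i))
    have h2 : v.coeff (d - i) = 0 := coeff_eq_zero_of_natDegree_lt (by omega)
    rw [h2, Int.cast_zero, mul_zero, sub_zero, map_mul, hbconj, map_intCast] at h1
    exact h1
  have hpr0 : (pr R).coeff 0 = 1 := by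
    rw [pr_coeff R (by omega), Nat.sub_zero]
    have h1 : (pl R).coeff R.card = 1 := by
      have h2 : (pl R).Monic := monic_multiset_prod_of_monic _ _ fun a _ => monic_X_sub_C a
      rw [← natDegree_pl R]
      exact h2
    rw [h1, map_one]
  set w := pl R - C c * pr R with hwdef
  have hwi : ∀ i, 0 < i → i + v.natDegree < d → b ^ 2 * w.coeff i =
      ((u.leadingCoeff * u.coeff i - u.coeff 0 * u.coeff (d - i) : ℤ) : ℂ) +
      ((v.coeff 0 * u.coeff (d - i) - u.leadingCoeff * v.coeff i : ℤ) : ℂ) * β := by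
    intro i hi hid
    have e1 : b ^ 2 * w.coeff i = b * (b * (pl R).coeff i) - (b * c) * (b * (pr R).coeff i) := by
      rw [hwdef, coeff_sub, coeff_C_mul]; ring
    rw [e1, hpr i hi hid, hco i, hc, hco 0, hb]
    push_cast
    ring
  have hlt : ∀ i < j, w.coeff i = 0 := by
    intro i hij
    rcases Nat.eq_zero_or_pos i with h0 | h0
    · subst h0
      rw [hwdef, coeff_sub, coeff_C_mul, hpr0, mul_one, sub_self]
    · have h1 := hwi i h0 (by omega)
      obtain ⟨h2, h3⟩ := hmin i h0 hij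
      rw [h2, h3] at h1
      simp only [Int.cast_zero, zero_mul, add_zero] at h1
      rcases mul_eq_zero.mp h1 with h4 | h4
      · exact absurd h4 (pow_ne_zero _ hb0)
      · exact h4
  set t : ℂ := ((u.leadingCoeff * u.coeff j - u.coeff 0 * u.coeff (d - j) : ℤ) : ℂ) +
      ((v.coeff 0 * u.coeff (d - j) - u.leadingCoeff * v.coeff j : ℤ) : ℂ) * β with ht
  have hwj : b ^ 2 * w.coeff j = t := hwi j hj0 hjd
  have hwne : w.coeff j ≠ 0 := by
    intro h0
    rw [h0, mul_zero] at hwj
    exact hw hwj.symm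
  have hmain := rel_ineq R hR3 w c rfl rfl j hwne hlt
  have hnw : ‖w.coeff j‖ = ‖t‖ / ‖b‖ ^ 2 := by
    rw [← hwj, norm_mul, norm_pow]
    field_simp
  have hup := up_pos R
  have hprod : 0 < up R * lo R := by
    rw [hR5]
    exact div_pos (norm_pos_iff.mpr hβ) hbn
  have hlo : 0 < lo R := (pos_iff_pos_of_mul_pos hprod).mp hup
  have h1 := log_up_lo hup hlo (norm_pos_iff.mpr hwne) hmain
  rw [hnw, Real.log_div (norm_ne_zero_iff.mpr hw) (by positivity), Real.log_pow] at h1
  have h2 : Real.log (fb u v β).mahlerMeasure = Real.log ‖b‖ + Real.log (up R) := by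
    rw [hR4, Real.log_mul hbn.ne' hup.ne']
  have h3 : Real.log (up R) + Real.log (lo R) =
      Real.log ‖((u.coeff 0 : ℤ) : ℂ) - β * ((v.coeff 0 : ℤ) : ℂ)‖ - Real.log ‖b‖ := by
    rw [← Real.log_mul hup.ne' hlo.ne', hR5, Real.log_div (norm_ne_zero_iff.mpr hβ) hbn.ne']
  rw [h2]
  push_cast at h1
  have e1 : Real.log (lo R) =
      Real.log ‖((u.coeff 0 : ℤ) : ℂ) - β * ((v.coeff 0 : ℤ) : ℂ)‖ - Real.log ‖b‖ - Real.log (up R) := by
    linarith
  rw [e1] at h1
  nlinarith

lemma log_prod_map {S : Multiset ℂ} {F : ℂ → ℝ} (hF : ∀ β ∈ S, 0 < F β) :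
    Real.log (S.map F).prod = (S.map (fun β => Real.log (F β))).sum := by
  induction S using Multiset.induction_on with
  | empty => simp
  | cons β S ih =>
    have h1 : 0 < (S.map F).prod := by
      apply Multiset.prod_pos
      intro x hx
      obtain ⟨a, ha, rfl⟩ := Multiset.mem_map.1 hx
      exact hF a (Multiset.mem_cons_of_mem ha)
    rw [Multiset.map_cons, Multiset.prod_cons, Multiset.map_cons, Multiset.sum_cons,
      Real.log_mul (hF β (Multiset.mem_cons_self _ _)).ne' h1.ne',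
      ih fun a ha => hF a (Multiset.mem_cons_of_mem ha)]

lemma sum_lin (S : Multiset ℂ) (F1 F2 : ℂ → ℝ) (a b c d : ℝ) :
    (S.map (fun β => a * F1 β - b * F2 β - c - d)).sum =
      a * (S.map F1).sum - b * (S.map F2).sum - S.card * (c + d) := by
  induction S using Multiset.induction_on with
  | empty => simp
  | cons β S ih =>
    simp only [Multiset.map_cons, Multiset.sum_cons, Multiset.card_cons, ih]
    push_cast
    ring

/-- the polynomial `v ^ k g(u / v)`, `k = deg g` -/
noncomputable def hcomp (g u v : ℤ[X]) : ℤ[X] :=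
  ∑ i ∈ Finset.range (g.natDegree + 1), C (g.coeff i) * u ^ i * v ^ (g.natDegree - i)

lemma hcomp_map (g u v : ℤ[X]) : (hcomp g u v).map (Int.castRingHom ℂ) =
    C ((g.leadingCoeff : ℤ) : ℂ) * ((g.map (Int.castRingHom ℂ)).roots.map (fun β => fb u v β)).prod := by
  have hinj : Function.Injective (Int.castRingHom ℂ) := (Int.castRingHom ℂ).injective_int
  set U := u.map (Int.castRingHom ℂ) with hU
  set V := v.map (Int.castRingHom ℂ) with hV
  set G := g.map (Int.castRingHom ℂ) with hG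
  have hn : G.natDegree = g.natDegree := natDegree_map_eq_of_injective hinj g
  have hl : G.leadingCoeff = ((g.leadingCoeff : ℤ) : ℂ) := by
    rw [hG, leadingCoeff_map_of_injective hinj]; rfl
  -- homogenization of a product of linear factors
  have key : ∀ S : Multiset ℂ, ∑ i ∈ Finset.range (S.card + 1),
      C (((S.map (fun β => (X - C β : ℂ[X]))).prod).coeff i) * U ^ i * V ^ (S.card - i) =
      (S.map (fun β => U - C β * V)).prod := by
    intro S
    induction S using Multiset.induction_on with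
    | empty => simp
    | cons β S ih =>
      rw [Multiset.map_cons, Multiset.prod_cons, Multiset.map_cons, Multiset.prod_cons, ← ih,
        Multiset.card_cons]
      set Q := (S.map (fun β => (X - C β : ℂ[X]))).prod with hQ
      have hQn : Q.natDegree = S.card := natDegree_multiset_prod_X_sub_C_eq_card S
      have hQc : Q.coeff (S.card + 1) = 0 := coeff_eq_zero_of_natDegree_lt (by omega)
      have hc : ∀ i, ((X - C β) * Q).coeff i = (if i = 0 then 0 else Q.coeff (i - 1)) - β * Q.coeff i := by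
        intro i
        rw [sub_mul, coeff_sub, coeff_C_mul]
        rcases i with _ | i
        · simp
        · simp
      have h1 : ∑ i ∈ Finset.range (S.card + 1 + 1), C (((X - C β) * Q).coeff i) * U ^ i * V ^ (S.card + 1 - i) =
          ∑ i ∈ Finset.range (S.card + 1 + 1), C (if i = 0 then 0 else Q.coeff (i - 1)) * U ^ i * V ^ (S.card + 1 - i) -
          C β * ∑ i ∈ Finset.range (S.card + 1 + 1), C (Q.coeff i) * U ^ i * V ^ (S.card + 1 - i) := by
        rw [Finset.mul_sum, ← Finset.sum_sub_distrib]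
        refine Finset.sum_congr rfl fun i _ => ?_
        rw [hc, C_sub, C_mul]
        ring
      have h2 : ∑ i ∈ Finset.range (S.card + 1 + 1), C (if i = 0 then 0 else Q.coeff (i - 1)) * U ^ i * V ^ (S.card + 1 - i) =
          U * ∑ i ∈ Finset.range (S.card + 1), C (Q.coeff i) * U ^ i * V ^ (S.card - i) := by
        rw [Finset.sum_range_succ', if_pos rfl, C_0, zero_mul, zero_mul, add_zero, Finset.mul_sum]
        refine Finset.sum_congr rfl fun i _ => ?_
        rw [if_neg (Nat.succ_ne_zero i), Nat.add_sub_cancel, Nat.add_sub_add_right, pow_succ]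
        ring
      have h3 : ∑ i ∈ Finset.range (S.card + 1 + 1), C (Q.coeff i) * U ^ i * V ^ (S.card + 1 - i) =
          V * ∑ i ∈ Finset.range (S.card + 1), C (Q.coeff i) * U ^ i * V ^ (S.card - i) := by
        rw [Finset.sum_range_succ, hQc, C_0, zero_mul, zero_mul, add_zero, Finset.mul_sum]
        refine Finset.sum_congr rfl fun i hi => ?_
        rw [Finset.mem_range] at hi
        have : S.card + 1 - i = (S.card - i) + 1 := by omega
        rw [this, pow_succ]
        ring
      rw [h1, h2, h3]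
      ring
  have hcard : G.roots.card = g.natDegree := by
    rw [← hn]
    exact ((IsAlgClosed.splits G).natDegree_eq_card_roots).symm
  have h1 := (IsAlgClosed.splits G).eq_prod_roots
  have h2 := key G.roots
  rw [hcard] at h2
  have h3 : (G.roots.map (fun β => fb u v β)).prod = (G.roots.map (fun β => U - C β * V)).prod := rfl
  rw [h3, ← h2, Finset.mul_sum]
  unfold hcomp
  rw [Polynomial.map_sum]
  refine Finset.sum_congr rfl fun i _ => ?_
  have h4 : ((g.coeff i : ℤ) : ℂ) = ((g.leadingCoeff : ℤ) : ℂ) *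
      ((G.roots.map (fun β => (X - C β : ℂ[X]))).prod).coeff i := by
    have h5 := congrArg (fun P : ℂ[X] => P.coeff i) h1
    simp only [coeff_C_mul] at h5
    rw [← hl, ← h5, hG, coeff_map]
    rfl
  rw [Polynomial.map_mul, Polynomial.map_mul, Polynomial.map_pow, Polynomial.map_pow, Polynomial.map_C,
    eq_intCast, h4, C_mul]
  ring

/-- the Mahler measure of homogeneous compositions -/
theorem main_dec {g u v : ℤ[X]} (hg : ∀ x : ℚ, aeval x g ≠ 0) (hd : v.natDegree < u.natDegree)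
    (h00 : u.coeff 0 ≠ 0 ∨ v.coeff 0 ≠ 0)
    (hh : ∃ j, 0 < j ∧ j + v.natDegree < u.natDegree ∧
      (u.leadingCoeff * u.coeff j ≠ u.coeff 0 * u.coeff (u.natDegree - j) ∨
        u.leadingCoeff * v.coeff j ≠ v.coeff 0 * u.coeff (u.natDegree - j))) :
    (g.natDegree : ℝ) / 2 * Real.log Real.goldenRatio ≤
      Real.log ((hcomp g u v).map (Int.castRingHom ℂ)).mahlerMeasure := by
  classical
  have hinj : Function.Injective (Int.castRingHom ℂ) := (Int.castRingHom ℂ).injective_int
  have hg0 : g ≠ 0 := by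
    rintro rfl
    exact hg 0 (map_zero _)
  set j := Nat.find hh with hj
  obtain ⟨hj0, hjd, hjne⟩ := Nat.find_spec hh
  have hmin : ∀ i, 0 < i → i < j →
      u.leadingCoeff * u.coeff i - u.coeff 0 * u.coeff (u.natDegree - i) = 0 ∧
      v.coeff 0 * u.coeff (u.natDegree - i) - u.leadingCoeff * v.coeff i = 0 := by
    intro i hi hij
    have h1 := Nat.find_min hh hij
    by_contra hcon
    apply h1
    refine ⟨hi, by omega, ?_⟩
    by_contra h2
    push Not at h2
    apply hcon
    constructor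
    · rw [h2.1, sub_self]
    · rw [h2.2, sub_self]
  set A : ℤ := u.leadingCoeff * u.coeff j - u.coeff 0 * u.coeff (u.natDegree - j) with hA
  set B : ℤ := v.coeff 0 * u.coeff (u.natDegree - j) - u.leadingCoeff * v.coeff j with hB
  have hu0 : u ≠ 0 := by
    rintro rfl
    simp at hd
  have hbZ : u.leadingCoeff ≠ 0 := leadingCoeff_ne_zero.mpr hu0
  have hAB : A ≠ 0 ∨ B ≠ 0 := by
    rcases hjne with h1 | h1
    · left; exact sub_ne_zero.mpr h1
    · right; exact sub_ne_zero.mpr h1.symm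
  set S := (g.map (Int.castRingHom ℂ)).roots with hS
  have hcard : S.card = g.natDegree := by
    rw [← natDegree_map_eq_of_injective hinj g]
    exact ((IsAlgClosed.splits (g.map (Int.castRingHom ℂ))).natDegree_eq_card_roots).symm
  -- no rational zeros
  have hrat : ∀ β ∈ S, ∀ a b : ℤ, (a ≠ 0 ∨ b ≠ 0) → (a : ℂ) + b * β ≠ 0 := by
    intro β hβ a b hab h0
    by_cases hb : b = 0
    · subst hb
      rw [Int.cast_zero, zero_mul, add_zero] at h0
      have : a = 0 := by exact_mod_cast h0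
      tauto
    · have hbc : (b : ℂ) ≠ 0 := by exact_mod_cast hb
      have e : β = -(a : ℂ) / b := by
        field_simp
        linear_combination h0
      apply hg (-(a : ℚ) / b)
      have h3 : ((aeval (-(a : ℚ) / b) g : ℚ) : ℂ) = 0 := by
        have h4 : ((aeval (-(a : ℚ) / b) g : ℚ) : ℂ) = (algebraMap ℚ ℂ) (aeval (-(a : ℚ) / b) g) := rfl
        rw [h4, ← Polynomial.aeval_algebraMap_apply, Polynomial.aeval_def]
        have h5 : (algebraMap ℚ ℂ) (-(a : ℚ) / b) = β := by rw [e]; simp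
        rw [h5]
        have h6 := (mem_roots'.mp hβ).2
        rw [IsRoot.def, Polynomial.eval_map] at h6
        exact h6
      exact_mod_cast h3
  have hv : ∀ β ∈ S, (A : ℂ) + B * β ≠ 0 := fun β hβ => hrat β hβ A B hAB
  have hAB0 : u.coeff 0 ≠ 0 ∨ -(v.coeff 0) ≠ 0 := by
    rcases h00 with h | h
    · exact Or.inl h
    · exact Or.inr (neg_ne_zero.mpr h)
  have e0 : ∀ β : ℂ, ((u.coeff 0 : ℤ) : ℂ) + ((-(v.coeff 0) : ℤ) : ℂ) * β =
      ((u.coeff 0 : ℤ) : ℂ) - β * ((v.coeff 0 : ℤ) : ℂ) := by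
    intro β
    push_cast
    ring
  have hγ : ∀ β ∈ S, ((u.coeff 0 : ℤ) : ℂ) - β * ((v.coeff 0 : ℤ) : ℂ) ≠ 0 := by
    intro β hβ
    have := hrat β hβ (u.coeff 0) (-(v.coeff 0)) hAB0
    rwa [e0] at this
  have hfib : ∀ β ∈ S, Real.log ‖(A : ℂ) + B * β‖ ≤
      2 * (2 * Real.goldenRatio - 1) * Real.log (fb u v β).mahlerMeasure -
      2 * (Real.goldenRatio - 1) * Real.log ‖((u.coeff 0 : ℤ) : ℂ) - β * ((v.coeff 0 : ℤ) : ℂ)‖ -
      (2 * Real.goldenRatio - 2) * Real.log ‖((u.leadingCoeff : ℤ) : ℂ)‖ -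
      (2 * Real.goldenRatio - 1) * Real.log Real.goldenRatio := fun β hβ =>
    fibre_ineq hd hj0 hjd hmin (hγ β hβ) (hv β hβ)
  -- the measure of the composition
  have hMpos : ∀ β ∈ S, 0 < (fb u v β).mahlerMeasure := by
    intro β hβ
    apply mahlerMeasure_pos_of_ne_zero
    intro h0
    have h1 := fb_coeff u v β 0
    rw [h0, coeff_zero] at h1
    exact hγ β hβ h1.symm
  have hM : ((hcomp g u v).map (Int.castRingHom ℂ)).mahlerMeasure = ‖((g.leadingCoeff : ℤ) : ℂ)‖ *
      (S.map (fun β => (fb u v β).mahlerMeasure)).prod := by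
    rw [hcomp_map, mahlerMeasure_mul, mahlerMeasure_const, prod_mahlerMeasure_eq_mahlerMeasure_prod,
      Multiset.map_map]
    rfl
  have hla : 0 < ‖((g.leadingCoeff : ℤ) : ℂ)‖ := by
    rw [norm_pos_iff]
    exact_mod_cast leadingCoeff_ne_zero.mpr hg0
  have hla0 : 0 ≤ Real.log ‖((g.leadingCoeff : ℤ) : ℂ)‖ := by
    apply Real.log_nonneg
    rw [Complex.norm_intCast]
    exact_mod_cast Int.one_le_abs (leadingCoeff_ne_zero.mpr hg0)
  have hlb0 : 0 ≤ Real.log ‖((u.leadingCoeff : ℤ) : ℂ)‖ := by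
    apply Real.log_nonneg
    rw [Complex.norm_intCast]
    exact_mod_cast Int.one_le_abs hbZ
  have hprodpos : 0 < (S.map (fun β => (fb u v β).mahlerMeasure)).prod := by
    apply Multiset.prod_pos
    intro x hx
    obtain ⟨a, ha, rfl⟩ := Multiset.mem_map.1 hx
    exact hMpos a ha
  have hlogM : Real.log ((hcomp g u v).map (Int.castRingHom ℂ)).mahlerMeasure =
      Real.log ‖((g.leadingCoeff : ℤ) : ℂ)‖ +
      (S.map (fun β => Real.log (fb u v β).mahlerMeasure)).sum := by
    rw [hM, Real.log_mul hla.ne' hprodpos.ne', log_prod_map hMpos]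
  -- norms
  have hn1 : 0 ≤ Real.log ‖((g.leadingCoeff : ℤ) : ℂ)‖ + (S.map (fun β => Real.log ‖(A : ℂ) + B * β‖)).sum := by
    have h1 := one_le_prod hg hAB
    rw [← log_prod_map (fun β hβ => norm_pos_iff.mpr (hv β hβ)), ← Real.log_mul hla.ne']
    · exact Real.log_nonneg h1
    · have : 0 < (S.map (fun β => ‖(A : ℂ) + B * β‖)).prod := by
        apply Multiset.prod_pos
        intro x hx
        obtain ⟨a, ha, rfl⟩ := Multiset.mem_map.1 hx
        exact norm_pos_iff.mpr (hv a ha)
      exact this.ne'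
  have hn2 : 0 ≤ Real.log ‖((g.leadingCoeff : ℤ) : ℂ)‖ +
      (S.map (fun β => Real.log ‖((u.coeff 0 : ℤ) : ℂ) - β * ((v.coeff 0 : ℤ) : ℂ)‖)).sum := by
    have h1 := one_le_prod hg hAB0
    simp only [e0] at h1
    rw [← log_prod_map (fun β hβ => norm_pos_iff.mpr (hγ β hβ)), ← Real.log_mul hla.ne']
    · exact Real.log_nonneg h1
    · have : 0 < (S.map (fun β => ‖((u.coeff 0 : ℤ) : ℂ) - β * ((v.coeff 0 : ℤ) : ℂ)‖)).prod := by
        apply Multiset.prod_pos
        intro x hx
        obtain ⟨a, ha, rfl⟩ := Multiset.mem_map.1 hx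
        exact norm_pos_iff.mpr (hγ a ha)
      exact this.ne'
  have hsum := Multiset.sum_map_le_sum_map _ _ hfib
  rw [sum_lin, hcard] at hsum
  rw [hlogM]
  set s1 := (S.map (fun β => Real.log (fb u v β).mahlerMeasure)).sum
  set s2 := (S.map (fun β => Real.log ‖((u.coeff 0 : ℤ) : ℂ) - β * ((v.coeff 0 : ℤ) : ℂ)‖)).sum
  set s3 := (S.map (fun β => Real.log ‖(A : ℂ) + B * β‖)).sum
  have hφ1 : 1 < Real.goldenRatio := Real.one_lt_goldenRatio
  set φ := Real.goldenRatio
  set la := Real.log ‖((g.leadingCoeff : ℤ) : ℂ)‖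
  set lb := Real.log ‖((u.leadingCoeff : ℤ) : ℂ)‖
  have hk0 : (0:ℝ) ≤ g.natDegree := Nat.cast_nonneg _
  have t1 : 0 ≤ (φ - 1) * (la + s2) := mul_nonneg (by linarith) hn2
  have t2 : 0 ≤ (g.natDegree : ℝ) * ((2 * φ - 2) * lb) :=
    mul_nonneg hk0 (mul_nonneg (by linarith) hlb0)
  have t3 : 0 < 2 * φ - 1 := by linarith
  have t4 : (2 * φ - 1) * (g.natDegree * Real.log φ) ≤ (2 * φ - 1) * (2 * (la + s1)) := by
    have t5 : 0 ≤ (2 * φ - 1) * la := mul_nonneg t3.le hla0
    nlinarith
  have t6 := le_of_mul_le_mul_left t4 t3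
  linarith

end Pool.Agent.Zk21.Dec
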