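import Mathlib
import Pool.Agent.Zk21.Dec

/-!
# Decomposable polynomials: compositions over the rationals, Laurent polynomials
-/

set_option autoImplicit false

open Polynomial

namespace Pool.Agent.Zk21.Dec

lemma hcomp_one (g h : ℤ[X]) : hcomp g h 1 = g.comp h := by
  unfold hcomp
  rw [comp_eq_sum_left, sum_over_range]
  · simp
  · simp

/-- an integer polynomial that is a composition of rational polynomials is one of integer
polynomials -/
lemma int_decomp {f : ℤ[X]} {g h : ℚ[X]} (hf : f.map (Int.castRingHom ℚ) = g.comp h)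
    (hh : 0 < h.natDegree) :
    ∃ (G H : ℤ[X]) (c b : ℚ), c ≠ 0 ∧ h = C c * H.map (Int.castRingHom ℚ) + C b ∧
      G.map (Int.castRingHom ℚ) = g.comp (C c * X + C b) ∧ H.coeff 0 = 0 ∧ f = G.comp H := by
  classical
  have hinjQ : Function.Injective (Int.castRingHom ℚ) := (Int.castRingHom ℚ).injective_int
  -- the primitive integral version of `h - h(0)`
  obtain ⟨N0, hN0m, hN0⟩ := IsLocalization.integerNormalization_spec (nonZeroDivisors ℤ)
    (h - C (h.coeff 0))
  set P := IsLocalization.integerNormalization (nonZeroDivisors ℤ) (h - C (h.coeff 0)) with hP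
  have hN0' : N0 ≠ 0 := nonZeroDivisors.ne_zero hN0m
  have hPmap : P.map (Int.castRingHom ℚ) = C (N0 : ℚ) * (h - C (h.coeff 0)) := by
    have h1 := hN0
    rw [Algebra.smul_def] at h1
    exact h1
  have hne : h - C (h.coeff 0) ≠ 0 := by
    intro h0
    have h1 : h = C (h.coeff 0) := sub_eq_zero.mp h0
    rw [h1, natDegree_C] at hh
    exact lt_irrefl _ hh
  have hP0 : P ≠ 0 := by
    intro h0
    rw [h0, Polynomial.map_zero] at hPmap
    have := mul_eq_zero.mp hPmap.symm
    rcases this with h1 | h1
    · rw [C_eq_zero] at h1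
      exact hN0' (by exact_mod_cast h1)
    · exact hne h1
  set H := P.primPart with hH
  have hcont : P = C P.content * H := P.eq_C_content_mul_primPart
  have hcont0 : P.content ≠ 0 := by
    rwa [Ne, content_eq_zero_iff]
  have hHprim : H.IsPrimitive := isPrimitive_primPart P
  have hH0 : H.coeff 0 = 0 := by
    have h1 := congrArg (fun Q : ℚ[X] => Q.coeff 0) hPmap
    simp only [coeff_map, coeff_C_mul, coeff_sub, coeff_C_zero, sub_self, mul_zero] at h1
    have h2 : P.coeff 0 = 0 := hinjQ (by rw [h1, map_zero])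
    have h3 := congrArg (fun Q : ℤ[X] => Q.coeff 0) hcont
    simp only [coeff_C_mul] at h3
    rw [h2] at h3
    rcases mul_eq_zero.mp h3.symm with h4 | h4
    · exact absurd h4 hcont0
    · exact h4
  set c : ℚ := (P.content : ℚ) / (N0 : ℚ) with hc
  have hN0Q : (N0 : ℚ) ≠ 0 := by exact_mod_cast hN0'
  have hcQ : (P.content : ℚ) ≠ 0 := by exact_mod_cast hcont0
  have hc0 : c ≠ 0 := div_ne_zero hcQ hN0Q
  have hhc : h = C c * H.map (Int.castRingHom ℚ) + C (h.coeff 0) := by
    have h1 : P.map (Int.castRingHom ℚ) = C (P.content : ℚ) * H.map (Int.castRingHom ℚ) := by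
      conv_lhs => rw [hcont]
      rw [Polynomial.map_mul, map_C]
      rfl
    have h2 : C (N0 : ℚ) * (h - C (h.coeff 0)) = C (N0 : ℚ) * (C c * H.map (Int.castRingHom ℚ)) := by
      rw [← hPmap, h1, ← mul_assoc, ← C_mul, hc, mul_div_cancel₀ _ hN0Q]
    have h3 := mul_left_cancel₀ (by rwa [Ne, C_eq_zero]) h2
    rw [← h3]
    ring
  set b := h.coeff 0 with hb
  set g1 := g.comp (C c * X + C b) with hg1
  have hg1f : g1.comp (H.map (Int.castRingHom ℚ)) = f.map (Int.castRingHom ℚ) := by
    rw [hg1, comp_assoc, hf]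
    congr 1
    rw [add_comp, mul_comp, C_comp, X_comp, C_comp]
    exact hhc.symm
  -- integrality
  have hex : ∃ N : ℕ, 0 < N ∧ ∃ G : ℤ[X], G.map (Int.castRingHom ℚ) = C (N : ℚ) * g1 := by
    obtain ⟨N1, hN1m, hN1⟩ := IsLocalization.integerNormalization_spec (nonZeroDivisors ℤ) g1
    have hN1' : N1 ≠ 0 := nonZeroDivisors.ne_zero hN1m
    rw [Algebra.smul_def] at hN1
    refine ⟨N1.natAbs, Int.natAbs_pos.mpr hN1', ?_⟩
    rcases Int.natAbs_eq N1 with h1 | h1
    · refine ⟨IsLocalization.integerNormalization (nonZeroDivisors ℤ) g1, ?_⟩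
      have h2 : ((N1.natAbs : ℕ) : ℚ) = (N1 : ℚ) := by
        have h3 := congrArg (Int.cast : ℤ → ℚ) h1
        rw [Int.cast_natCast] at h3
        exact h3.symm
      rw [h2]
      exact hN1
    · refine ⟨-IsLocalization.integerNormalization (nonZeroDivisors ℤ) g1, ?_⟩
      have h2 : ((N1.natAbs : ℕ) : ℚ) = -(N1 : ℚ) := by
        have h3 := congrArg (Int.cast : ℤ → ℚ) h1
        rw [Int.cast_neg, Int.cast_natCast] at h3
        rw [h3, neg_neg]
      rw [h2, Polynomial.map_neg, C_neg, neg_mul]
      exact congrArg Neg.neg hN1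
  set N := Nat.find hex with hN
  obtain ⟨hNpos, G, hG⟩ := Nat.find_spec hex
  have hN1 : N = 1 := by
    by_contra hcon
    obtain ⟨p, hp, hpN⟩ := Nat.exists_prime_and_dvd hcon
    have : Fact p.Prime := ⟨hp⟩
    obtain ⟨N', hN'⟩ := hpN
    have h1 : G.comp H = C (N : ℤ) * f := by
      apply map_injective (Int.castRingHom ℚ) hinjQ
      rw [Polynomial.map_comp, hG, mul_comp, C_comp, hg1f, Polynomial.map_mul, map_C]
      congr 2
    have h2 := congrArg (Polynomial.map (Int.castRingHom (ZMod p))) h1
    rw [Polynomial.map_comp, Polynomial.map_mul, map_C] at h2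
    have h3 : (Int.castRingHom (ZMod p)) (N : ℤ) = 0 := by
      rw [hN']
      simp
    rw [h3, C_0, zero_mul, comp_eq_zero_iff] at h2
    have h4 : G.map (Int.castRingHom (ZMod p)) = 0 := by
      rcases h2 with h2 | h2
      · exact h2
      · exfalso
        have h5 : (H.map (Int.castRingHom (ZMod p))).coeff 0 = 0 := by
          rw [coeff_map, hH0, map_zero]
        have h6 : H.map (Int.castRingHom (ZMod p)) = 0 := by
          rw [h2.2, h5, C_0]
        have h7 : C (p : ℤ) ∣ H := by
          rw [C_dvd_iff_dvd_coeff]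
          intro i
          have h8 := congrArg (fun Q : (ZMod p)[X] => Q.coeff i) h6
          simp only [coeff_map, coeff_zero] at h8
          rw [eq_intCast, ZMod.intCast_zmod_eq_zero_iff_dvd] at h8
          exact h8
        have h8 := hHprim _ h7
        rw [Int.isUnit_iff] at h8
        have := hp.two_le
        omega
    have h5 : C (p : ℤ) ∣ G := by
      rw [C_dvd_iff_dvd_coeff]
      intro i
      have h8 := congrArg (fun Q : (ZMod p)[X] => Q.coeff i) h4
      simp only [coeff_map, coeff_zero] at h8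
      rw [eq_intCast, ZMod.intCast_zmod_eq_zero_iff_dvd] at h8
      exact h8
    obtain ⟨G', hG'⟩ := h5
    have hN'pos : 0 < N' := by
      rcases Nat.eq_zero_or_pos N' with h6 | h6
      · rw [h6, mul_zero] at hN'
        rw [← hN, hN'] at hNpos
        exact absurd hNpos (lt_irrefl _)
      · exact h6
    have hlt : N' < N := by
      rw [hN']
      have := hp.two_le
      nlinarith
    apply Nat.find_min hex hlt
    refine ⟨hN'pos, G', ?_⟩
    have hpQ : (p : ℚ) ≠ 0 := by exact_mod_cast hp.ne_zero
    have h6 : C (p : ℚ) * G'.map (Int.castRingHom ℚ) = C (p : ℚ) * (C (N' : ℚ) * g1) := by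
      have h7 := hG
      rw [hG', Polynomial.map_mul, map_C, ← hN, hN'] at h7
      rw [← mul_assoc, ← C_mul]
      have h8 : (Int.castRingHom ℚ) (p : ℤ) = (p : ℚ) := by simp
      rw [h8] at h7
      rw [h7]
      push_cast
      rfl
    exact mul_left_cancel₀ (by rwa [Ne, C_eq_zero]) h6
  rw [← hN, hN1] at hG
  have hG1 : G.map (Int.castRingHom ℚ) = g1 := by
    rw [hG]
    simp
  refine ⟨G, H, c, b, hc0, hhc, hG1, hH0, ?_⟩
  apply map_injective (Int.castRingHom ℚ) hinjQ
  rw [Polynomial.map_comp, hG1, hg1f]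

/-- irreducible polynomials that are compositions of rational polynomials -/
theorem irr_dec {f : ℤ[X]} (hirr : Irreducible f) {g h : ℚ[X]}
    (hf : f.map (Int.castRingHom ℚ) = g.comp h) (hg : 2 ≤ g.natDegree) :
    (∃ F : ℤ[X], f = expand ℤ h.natDegree F) ∨
      Real.goldenRatio ^ ((g.natDegree : ℝ) / 2) ≤ (f.map (Int.castRingHom ℂ)).mahlerMeasure := by
  classical
  have hinjQ : Function.Injective (Int.castRingHom ℚ) := (Int.castRingHom ℚ).injective_int
  have hinjC : Function.Injective (Int.castRingHom ℂ) := (Int.castRingHom ℂ).injective_int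
  rcases Nat.eq_zero_or_pos h.natDegree with hh | hh
  · -- `h` constant
    left
    have h1 : h = C (h.coeff 0) := eq_C_of_natDegree_eq_zero hh
    rw [h1, comp_C] at hf
    have h2 : f.natDegree = 0 := by
      rw [← natDegree_map_eq_of_injective hinjQ f, hf, natDegree_C]
    refine ⟨C (f.coeff 0), ?_⟩
    rw [expand_C]
    exact eq_C_of_natDegree_eq_zero h2
  obtain ⟨G, H, c, b, hc, hhH, hGg, hH0, hfGH⟩ := int_decomp hf hh
  have hHn : H.natDegree = h.natDegree := by
    rw [← natDegree_map_eq_of_injective hinjQ H]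
    conv_rhs => rw [hhH]
    rw [natDegree_add_C, natDegree_C_mul hc]
  have hGn : G.natDegree = g.natDegree := by
    rw [← natDegree_map_eq_of_injective hinjQ G, hGg, natDegree_comp, natDegree_linear hc, mul_one]
  by_cases hmid : ∃ j, 0 < j ∧ j < H.natDegree ∧ H.coeff j ≠ 0
  · right
    have hf0 : f ≠ 0 := hirr.ne_zero
    have hfn : f.natDegree = g.natDegree * h.natDegree := by
      rw [← natDegree_map_eq_of_injective hinjQ f, hf, natDegree_comp]
    have hfn0 : f.natDegree ≠ 0 := by
      rw [hfn]
      positivity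
    have hfprim : f.IsPrimitive := hirr.isPrimitive hfn0
    have hfQ : Irreducible (f.map (Int.castRingHom ℚ)) :=
      (IsPrimitive.Int.irreducible_iff_irreducible_map_cast hfprim).mp hirr
    have hroot : ∀ x : ℚ, aeval x G ≠ 0 := by
      intro x hx
      have h1 : (G.map (Int.castRingHom ℚ)).IsRoot x := by
        rw [IsRoot.def, eval_map]
        exact hx
      obtain ⟨q, hq⟩ := dvd_iff_isRoot.mpr h1
      have h2 : f.map (Int.castRingHom ℚ) =
          (H.map (Int.castRingHom ℚ) - C x) * q.comp (H.map (Int.castRingHom ℚ)) := by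
        rw [hfGH, Polynomial.map_comp, hq, mul_comp, sub_comp, X_comp, C_comp]
      rcases hfQ.isUnit_or_isUnit h2 with h3 | h3
      · have h4 := natDegree_eq_zero_of_isUnit h3
        rw [natDegree_sub_C, natDegree_map_eq_of_injective hinjQ, hHn] at h4
        omega
      · have h4 := natDegree_eq_zero_of_isUnit h3
        rw [natDegree_comp, natDegree_map_eq_of_injective hinjQ, hHn] at h4
        have h5 : q.natDegree = 0 := by
          rcases Nat.mul_eq_zero.mp h4 with h5 | h5
          · exact h5
          · omega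
        have h6 := congrArg Polynomial.natDegree hq
        have hq0 : q ≠ 0 := by
          rintro rfl
          rw [mul_zero] at hq
          rw [hfGH, Polynomial.map_comp, hq, zero_comp] at hfQ
          exact not_irreducible_zero hfQ
        rw [natDegree_mul (X_sub_C_ne_zero x) hq0, natDegree_X_sub_C, h5,
          natDegree_map_eq_of_injective hinjQ, hGn] at h6
        omega
    obtain ⟨j, hj0, hjd, hjne⟩ := hmid
    -- the reflected index
    have hmain := main_dec (g := G) (u := H) (v := 1) hroot (by rw [natDegree_one]; omega)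
      (Or.inr (by simp)) ⟨H.natDegree - j, by omega, by rw [natDegree_one]; omega, Or.inr (by
        have e1 : H.natDegree - (H.natDegree - j) = j := by omega
        have e2 : (1 : ℤ[X]).coeff (H.natDegree - j) = 0 := by
          rw [coeff_one, if_neg (by omega)]
        rw [e1, e2, mul_zero, coeff_one, if_pos rfl, one_mul]
        exact hjne.symm)⟩
    rw [hcomp_one, ← hfGH, hGn] at hmain
    have hMpos : 0 < (f.map (Int.castRingHom ℂ)).mahlerMeasure :=
      mahlerMeasure_pos_of_ne_zero ((Polynomial.map_ne_zero_iff hinjC).mpr hf0)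
    rw [← Real.log_le_log_iff (Real.rpow_pos_of_pos gold_pos _) hMpos, Real.log_rpow gold_pos]
    exact hmain
  · left
    push Not at hmid
    have hHd : H = C H.leadingCoeff * X ^ H.natDegree := by
      ext i
      rw [coeff_C_mul, coeff_X_pow]
      by_cases h1 : i = H.natDegree
      · rw [if_pos h1, h1, mul_one]
        rfl
      · rw [if_neg h1, mul_zero]
        rcases Nat.lt_or_gt_of_ne h1 with h2 | h2
        · rcases Nat.eq_zero_or_pos i with h3 | h3
          · rw [h3, hH0]
          · exact hmid i h3 h2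
        · exact coeff_eq_zero_of_natDegree_lt h2
    refine ⟨G.comp (C H.leadingCoeff * X), ?_⟩
    rw [expand_eq_comp_X_pow, comp_assoc, mul_comp, C_comp, X_comp, ← hHn, ← hHd]
    exact hfGH

/-- multiplicativity bound when the leading coefficient or the constant term of `u` is large -/
lemma big_coeff {g u : ℤ[X]} {e : ℕ} (hg0 : g ≠ 0) (he : 0 < e) (hd : e < u.natDegree)
    (hb : 2 ≤ |u.leadingCoeff| ∨ 2 ≤ |u.coeff 0|) :
    (2 : ℝ) ^ g.natDegree ≤ ((hcomp g u (X ^ e)).map (Int.castRingHom ℂ)).mahlerMeasure := by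
  have hl : (1 : ℝ) ≤ |(g.leadingCoeff : ℝ)| := by
    have h1 : g.leadingCoeff ≠ 0 := leadingCoeff_ne_zero.mpr hg0
    have h2 := Int.one_le_abs h1
    exact_mod_cast h2
  have hbound : ∀ (i : ℕ) (b : ℤ), (hcomp g u (X ^ e)).coeff i = g.leadingCoeff * b ^ g.natDegree →
      2 ≤ |b| → ((hcomp g u (X ^ e)).natDegree.choose i : ℝ) = 1 →
      (2 : ℝ) ^ g.natDegree ≤ ((hcomp g u (X ^ e)).map (Int.castRingHom ℂ)).mahlerMeasure := by
    intro i b hi hb2 hch
    have h1 := norm_coeff_le_choose_mul_mahlerMeasure i ((hcomp g u (X ^ e)).map (Int.castRingHom ℂ))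
    rw [natDegree_map_eq_of_injective (Int.castRingHom ℂ).injective_int, hch, one_mul, coeff_map, hi]
      at h1
    refine le_trans ?_ h1
    have h2 : ‖(Int.castRingHom ℂ) (g.leadingCoeff * b ^ g.natDegree)‖ =
        |(g.leadingCoeff : ℝ)| * |(b : ℝ)| ^ g.natDegree := by
      rw [eq_intCast, Complex.norm_intCast]
      push_cast
      rw [abs_mul, abs_pow]
    rw [h2]
    have h3 : (2 : ℝ) ≤ |(b : ℝ)| := by exact_mod_cast hb2
    have h4 : (2 : ℝ) ^ g.natDegree ≤ |(b : ℝ)| ^ g.natDegree := pow_le_pow_left₀ (by norm_num) h3 _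
    have h5 : (0 : ℝ) ≤ |(b : ℝ)| ^ g.natDegree := by positivity
    nlinarith
  have hdeg : ∀ i ∈ Finset.range (g.natDegree + 1),
      (C (g.coeff i) * u ^ i * (X ^ e) ^ (g.natDegree - i)).natDegree ≤
        i * u.natDegree + e * (g.natDegree - i) := by
    intro i _
    refine le_trans natDegree_mul_le ?_
    refine add_le_add ?_ ?_
    · refine le_trans (natDegree_C_mul_le _ _) (le_trans natDegree_pow_le le_rfl)
    · rw [← pow_mul, natDegree_X_pow]
  rcases hb with hb | hb
  · have hn : (hcomp g u (X ^ e)).natDegree ≤ g.natDegree * u.natDegree := by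
      refine natDegree_sum_le_of_forall_le _ _ fun i hi => ?_
      refine le_trans (hdeg i hi) ?_
      rw [Finset.mem_range] at hi
      have h1 : e * (g.natDegree - i) ≤ u.natDegree * (g.natDegree - i) :=
        Nat.mul_le_mul_right _ hd.le
      have h2 : g.natDegree * u.natDegree = i * u.natDegree + u.natDegree * (g.natDegree - i) := by
        rw [mul_comm i, ← mul_add, Nat.add_sub_cancel' (by omega), mul_comm]
      omega
    have hc : (hcomp g u (X ^ e)).coeff (g.natDegree * u.natDegree) =
        g.leadingCoeff * u.leadingCoeff ^ g.natDegree := by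
      unfold hcomp
      rw [finsetSum_coeff, Finset.sum_range_succ, Finset.sum_eq_zero, zero_add, Nat.sub_self, pow_zero,
        mul_one, coeff_C_mul]
      · congr 1
        exact coeff_pow_mul_natDegree u g.natDegree
      · intro i hi
        rw [Finset.mem_range] at hi
        apply coeff_eq_zero_of_natDegree_lt
        refine lt_of_le_of_lt (hdeg i (Finset.mem_range.mpr (by omega))) ?_
        have h1 : e * (g.natDegree - i) < u.natDegree * (g.natDegree - i) :=
          Nat.mul_lt_mul_of_pos_right hd (by omega)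
        have h2 : g.natDegree * u.natDegree = i * u.natDegree + u.natDegree * (g.natDegree - i) := by
          rw [mul_comm i, ← mul_add, Nat.add_sub_cancel' (by omega), mul_comm]
        omega
    have hn2 : (hcomp g u (X ^ e)).natDegree = g.natDegree * u.natDegree := by
      refine le_antisymm hn (le_natDegree_of_ne_zero ?_)
      rw [hc]
      refine mul_ne_zero (leadingCoeff_ne_zero.mpr hg0) (pow_ne_zero _ ?_)
      rintro h0
      rw [h0] at hb
      norm_num at hb
    exact hbound _ _ hc hb (by rw [hn2, Nat.choose_self]; norm_num)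
  · have hc : (hcomp g u (X ^ e)).coeff 0 = g.leadingCoeff * u.coeff 0 ^ g.natDegree := by
      unfold hcomp
      rw [finsetSum_coeff, Finset.sum_range_succ, Finset.sum_eq_zero, zero_add, Nat.sub_self, pow_zero,
        mul_one, coeff_C_mul]
      · congr 1
        rw [coeff_zero_eq_eval_zero, coeff_zero_eq_eval_zero, eval_pow]
      · intro i hi
        rw [Finset.mem_range] at hi
        rw [coeff_zero_eq_eval_zero, eval_mul, eval_pow, eval_pow, eval_X, zero_pow he.ne',
          zero_pow (by omega), mul_zero]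
    exact hbound _ _ hc hb (by rw [Nat.choose_zero_right]; norm_num)

/-- the product is not zero -/
lemma hcomp_ne_zero {g u v : ℤ[X]} (hg : ∀ x : ℚ, aeval x g ≠ 0) (hd : v.natDegree < u.natDegree) :
    hcomp g u v ≠ 0 := by
  have hg0 : g ≠ 0 := by
    rintro rfl
    exact hg 0 (map_zero _)
  intro hz
  have h1 := hcomp_map g u v
  rw [hz, Polynomial.map_zero] at h1
  have h2 := mul_eq_zero.mp h1.symm
  rcases h2 with h2 | h2
  · rw [C_eq_zero, Int.cast_eq_zero, leadingCoeff_eq_zero] at h2
    exact hg0 h2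
  · rw [Multiset.prod_eq_zero_iff, Multiset.mem_map] at h2
    obtain ⟨β, _, hβ⟩ := h2
    have h3 := congrArg (fun Q : ℂ[X] => Q.coeff u.natDegree) hβ
    simp only [fb_coeff, coeff_zero] at h3
    rw [coeff_eq_zero_of_natDegree_lt hd] at h3
    have hu0 : u ≠ 0 := by
      rintro rfl
      simp at hd
    have h4 : ((u.coeff u.natDegree : ℤ) : ℂ) = 0 := by simpa using h3
    have h5 : u.coeff u.natDegree = 0 := by exact_mod_cast h4
    exact (leadingCoeff_ne_zero.mpr hu0) h5

/-- the general bound, without logarithms -/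
theorem main_dec_pow {g u v : ℤ[X]} (hg : ∀ x : ℚ, aeval x g ≠ 0) (hd : v.natDegree < u.natDegree)
    (h00 : u.coeff 0 ≠ 0 ∨ v.coeff 0 ≠ 0)
    (hh : ∃ j, 0 < j ∧ j + v.natDegree < u.natDegree ∧
      (u.leadingCoeff * u.coeff j ≠ u.coeff 0 * u.coeff (u.natDegree - j) ∨
        u.leadingCoeff * v.coeff j ≠ v.coeff 0 * u.coeff (u.natDegree - j))) :
    Real.goldenRatio ^ ((g.natDegree : ℝ) / 2) ≤
      ((hcomp g u v).map (Int.castRingHom ℂ)).mahlerMeasure := by
  have hinjC : Function.Injective (Int.castRingHom ℂ) := (Int.castRingHom ℂ).injective_int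
  have hMpos : 0 < ((hcomp g u v).map (Int.castRingHom ℂ)).mahlerMeasure :=
    mahlerMeasure_pos_of_ne_zero ((Polynomial.map_ne_zero_iff hinjC).mpr (hcomp_ne_zero hg hd))
  rw [← Real.log_le_log_iff (Real.rpow_pos_of_pos gold_pos _) hMpos, Real.log_rpow gold_pos]
  exact main_dec hg hd h00 hh

/-- compositions `g ∘ h` with a Laurent polynomial `h = u / X ^ e` -/
theorem laurent_dec {g u : ℤ[X]} {e : ℕ} (hg : ∀ x : ℚ, aeval x g ≠ 0) (he : 0 < e)
    (hu : u.coeff 0 ≠ 0) (hd : 2 * e ≤ u.natDegree)
    (hs : 2 * e = u.natDegree → ∀ ε c : ℤ, ε ^ 2 = 1 → u.reverse ≠ C ε * u + C c * X ^ e) :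
    Real.goldenRatio ^ ((g.natDegree : ℝ) / 2) ≤
      ((hcomp g u (X ^ e)).map (Int.castRingHom ℂ)).mahlerMeasure := by
  have hinjC : Function.Injective (Int.castRingHom ℂ) := (Int.castRingHom ℂ).injective_int
  have hg0 : g ≠ 0 := by
    rintro rfl
    exact hg 0 (map_zero _)
  have hu0 : u ≠ 0 := by
    rintro rfl
    simp at hu
  have hl0 : u.leadingCoeff ≠ 0 := leadingCoeff_ne_zero.mpr hu0
  have hgold : Real.goldenRatio ^ ((g.natDegree : ℝ) / 2) ≤ (2 : ℝ) ^ g.natDegree := by
    have h1 : Real.goldenRatio ≤ 2 := Real.goldenRatio_lt_two.le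
    have h2 : (2 : ℝ) ^ g.natDegree = (2 : ℝ) ^ (g.natDegree : ℝ) := (Real.rpow_natCast _ _).symm
    rw [h2]
    refine le_trans (Real.rpow_le_rpow gold_pos.le h1 (by positivity)) ?_
    refine Real.rpow_le_rpow_of_exponent_le (by norm_num) ?_
    have : (0 : ℝ) ≤ g.natDegree := Nat.cast_nonneg _
    linarith
  by_cases hb : 2 ≤ |u.leadingCoeff| ∨ 2 ≤ |u.coeff 0|
  · exact le_trans hgold (big_coeff hg0 he (by omega) hb)
  push Not at hb
  have hl1 : u.leadingCoeff ^ 2 = 1 := by
    have h1 := Int.one_le_abs hl0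
    have h2 : |u.leadingCoeff| = 1 := by omega
    rw [← sq_abs, h2, one_pow]
  have hu1 : u.coeff 0 ^ 2 = 1 := by
    have h1 := Int.one_le_abs hu
    have h2 : |u.coeff 0| = 1 := by omega
    rw [← sq_abs, h2, one_pow]
  have hM : (g.natDegree : ℝ) / 2 * Real.log Real.goldenRatio ≤
      Real.log ((hcomp g u (X ^ e)).map (Int.castRingHom ℂ)).mahlerMeasure →
      Real.goldenRatio ^ ((g.natDegree : ℝ) / 2) ≤
        ((hcomp g u (X ^ e)).map (Int.castRingHom ℂ)).mahlerMeasure := by
    intro hmain
    by_cases hz : hcomp g u (X ^ e) = 0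
    · -- impossible: all factors are nonzero
      exfalso
      have h1 := hcomp_map g u (X ^ e)
      rw [hz, Polynomial.map_zero] at h1
      have h2 := mul_eq_zero.mp h1.symm
      rcases h2 with h2 | h2
      · rw [C_eq_zero, Int.cast_eq_zero, leadingCoeff_eq_zero] at h2
        exact hg0 h2
      · rw [Multiset.prod_eq_zero_iff, Multiset.mem_map] at h2
        obtain ⟨β, _, hβ⟩ := h2
        have h3 := congrArg (fun Q : ℂ[X] => Q.coeff 0) hβ
        simp only [fb_coeff, coeff_zero] at h3
        rw [coeff_X_pow, if_neg he.ne] at h3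
        apply hu
        have h4 : ((u.coeff 0 : ℤ) : ℂ) = 0 := by simpa using h3
        exact_mod_cast h4
    · have hMpos : 0 < ((hcomp g u (X ^ e)).map (Int.castRingHom ℂ)).mahlerMeasure :=
        mahlerMeasure_pos_of_ne_zero ((Polynomial.map_ne_zero_iff hinjC).mpr hz)
      rw [← Real.log_le_log_iff (Real.rpow_pos_of_pos gold_pos _) hMpos, Real.log_rpow gold_pos]
      exact hmain
  have hvn : (X ^ e : ℤ[X]).natDegree = e := natDegree_X_pow e
  have hv0 : (X ^ e : ℤ[X]).coeff 0 = 0 := by rw [coeff_X_pow, if_neg he.ne]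
  apply hM
  rcases Nat.lt_or_ge (2 * e) u.natDegree with h2e | h2e
  · refine main_dec hg (by rw [hvn]; omega) (Or.inl hu) ⟨e, he, by rw [hvn]; omega, Or.inr ?_⟩
    rw [hv0, zero_mul, coeff_X_pow, if_pos rfl, mul_one]
    exact hl0
  · have h2e' : 2 * e = u.natDegree := le_antisymm hd h2e
    by_cases hex : ∃ j, 0 < j ∧ j < e ∧ u.leadingCoeff * u.coeff j ≠ u.coeff 0 * u.coeff (u.natDegree - j)
    · obtain ⟨j, hj0, hje, hj⟩ := hex
      exact main_dec hg (by rw [hvn]; omega) (Or.inl hu) ⟨j, hj0, by rw [hvn]; omega, Or.inl hj⟩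
    · push Not at hex
      exfalso
      apply hs h2e' (u.leadingCoeff * u.coeff 0)
        (u.coeff e - u.leadingCoeff * u.coeff 0 * u.coeff e) (by rw [mul_pow, hl1, hu1, one_mul])
      ext i
      rw [coeff_add, coeff_C_mul, coeff_C_mul, coeff_X_pow, coeff_reverse]
      rcases Nat.lt_or_ge u.natDegree i with hi | hi
      · rw [revAt_eq_self_of_lt hi, coeff_eq_zero_of_natDegree_lt hi, if_neg (by omega)]
        ring
      · rw [revAt_le hi]
        rcases Nat.lt_trichotomy i e with h1 | h1 | h1
        · rw [if_neg (by omega)]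
          rcases Nat.eq_zero_or_pos i with h2 | h2
          · subst h2
            rw [Nat.sub_zero]
            have h3 : u.coeff u.natDegree = u.leadingCoeff := rfl
            rw [h3]
            linear_combination (-u.leadingCoeff) * hu1
          · have h3 := hex i h2 h1
            linear_combination (-u.coeff (u.natDegree - i)) * hu1 + (-u.coeff 0) * h3
        · rw [if_pos h1, h1]
          have h3 : u.natDegree - e = e := by omega
          rw [h3]
          ring
        · rw [if_neg (by omega)]
          rcases Nat.lt_or_ge i u.natDegree with h2 | h2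
          · have h3 := hex (u.natDegree - i) (by omega) (by omega)
            have h4 : u.natDegree - (u.natDegree - i) = i := by omega
            rw [h4] at h3
            linear_combination (-u.coeff (u.natDegree - i)) * hl1 + u.leadingCoeff * h3
          · have h3 : i = u.natDegree := le_antisymm hi h2
            subst h3
            rw [Nat.sub_self]
            have h4 : u.coeff u.natDegree = u.leadingCoeff := rfl
            rw [h4]
            linear_combination (-u.coeff 0) * hl1

end Pool.Agent.Zk21.Dec
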