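import Mathlib
import Pool.Agent.R328.PH

/-!
# The logarithmic derivative of a polynomial on the unit circle
-/

set_option autoImplicit false

open Polynomial Metric Real

namespace Pool.Agent.Zk21.Smt

open Pool.Agent.R328

/-- the product of the factors `1 - w X` -/
noncomputable def FA (S : Multiset ℂ) : ℂ[X] := (S.map (fun w => 1 - C w * X)).prod

/-- the numerator of `∑ 1 / (1 - w X)` -/
noncomputable def FB (S : Multiset ℂ) : ℂ[X] := C (S.card : ℂ) * FA S - X * derivative (FA S)

/-- the sum of the `1 / (1 - w x)` -/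
noncomputable def FS (S : Multiset ℂ) (x : ℂ) : ℂ := (S.map (fun w => (1 - w * x)⁻¹)).sum

lemma FA_cons (w : ℂ) (S : Multiset ℂ) : FA (w ::ₘ S) = (1 - C w * X) * FA S := by
  unfold FA
  rw [Multiset.map_cons, Multiset.prod_cons]

lemma FB_cons (w : ℂ) (S : Multiset ℂ) : FB (w ::ₘ S) = (1 - C w * X) * FB S + FA S := by
  unfold FB
  rw [FA_cons, Multiset.card_cons, derivative_mul]
  simp only [derivative_sub, derivative_one, derivative_mul, derivative_C, derivative_X, zero_mul,
    mul_one, zero_add, zero_sub]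
  push_cast
  rw [C_add, C_1]
  ring

lemma FA_eval (S : Multiset ℂ) (x : ℂ) : (FA S).eval x = (S.map (fun w => 1 - w * x)).prod := by
  unfold FA
  rw [eval_multiset_prod, Multiset.map_map]
  congr 1
  apply Multiset.map_congr rfl
  intro w _
  simp

lemma FA_eval_zero (S : Multiset ℂ) : (FA S).eval 0 = 1 := by
  rw [FA_eval]
  simp

lemma FB_eval_zero (S : Multiset ℂ) : (FB S).eval 0 = (S.card : ℂ) := by
  unfold FB
  rw [eval_sub, eval_mul, eval_mul, eval_X, zero_mul, sub_zero, FA_eval_zero, mul_one, eval_C]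

lemma FB_eval (S : Multiset ℂ) {x : ℂ} (hx : (FA S).eval x ≠ 0) :
    (FB S).eval x = (FA S).eval x * FS S x := by
  induction S using Multiset.induction_on with
  | empty =>
    unfold FB FS FA
    simp
  | cons w S ih =>
    rw [FA_cons, eval_mul] at hx
    have h1 := left_ne_zero_of_mul hx
    have h2 := right_ne_zero_of_mul hx
    have h3 : (1 - C w * X : ℂ[X]).eval x = 1 - w * x := by simp
    rw [h3] at h1
    rw [FB_cons, FA_cons, eval_add, eval_mul, eval_mul, ih h2, h3]
    unfold FS
    rw [Multiset.map_cons, Multiset.sum_cons]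
    field_simp
    ring

lemma re_inv {z : ℂ} (hz : ‖z‖ ≤ 1) (hz1 : z ≠ 1) : 1 / 2 ≤ ((1 - z)⁻¹).re := by
  have h0 : 0 < Complex.normSq (1 - z) := Complex.normSq_pos.mpr (sub_ne_zero.mpr hz1.symm)
  rw [Complex.inv_re, div_le_div_iff₀ (by norm_num) h0, Complex.normSq_apply]
  simp only [Complex.sub_re, Complex.one_re, Complex.sub_im, Complex.one_im, zero_sub]
  have h1 : z.re * z.re + z.im * z.im ≤ 1 := by
    have h2 : Complex.normSq z ≤ 1 := by
      rw [Complex.normSq_eq_norm_sq]
      exact pow_le_one₀ (norm_nonneg _) hz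
    rwa [Complex.normSq_apply] at h2
  nlinarith

lemma FS_re {S : Multiset ℂ} (hS : ∀ w ∈ S, ‖w‖ ≤ 1) {x : ℂ} (hx : ‖x‖ ≤ 1)
    (hx1 : (FA S).eval x ≠ 0) : 0 ≤ (FS S x).re := by
  induction S using Multiset.induction_on with
  | empty => simp [FS]
  | cons w S ih =>
    rw [FA_cons, eval_mul] at hx1
    have h1 := left_ne_zero_of_mul hx1
    have h2 := right_ne_zero_of_mul hx1
    have h3 : (1 - C w * X : ℂ[X]).eval x = 1 - w * x := by simp
    rw [h3] at h1
    unfold FS
    rw [Multiset.map_cons, Multiset.sum_cons, Complex.add_re]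
    have h4 := ih (fun w hw => hS w (Multiset.mem_cons_of_mem hw)) h2
    have h5 : ‖w * x‖ ≤ 1 := by
      rw [norm_mul]
      exact mul_le_one₀ (hS w (Multiset.mem_cons_self w S)) (norm_nonneg _) hx
    have h6 := re_inv h5 (fun h => h1 (by rw [h, sub_self]))
    unfold FS at h4
    linarith

/-- a polynomial without zeros in the open unit disc -/
lemma avg_log_zero_free {P : ℂ[X]} (hP : ∀ x : ℂ, ‖x‖ < 1 → P.eval x ≠ 0) :
    circleAverage (fun x => log ‖P.eval x‖) 0 1 = log ‖P.eval 0‖ := by
  have hP0 : P ≠ 0 := by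
    rintro rfl
    exact hP 0 (by simp) (by simp)
  have h1 : circleAverage (fun x => log ‖P.eval x‖) 0 1 = P.logMahlerMeasure := rfl
  rw [h1, logMahlerMeasure_eq_log_MahlerMeasure, mahlerMeasure_eq_leadingCoeff_mul_prod_roots]
  congr 1
  have h2 := (IsAlgClosed.splits P).eval_eq_prod_roots 0
  rw [h2, norm_mul]
  congr 1
  have h3 : ∀ T : Multiset ℂ, (∀ a ∈ T, 1 ≤ ‖a‖) →
      (T.map (fun a => max 1 ‖a‖)).prod = ‖(T.map (fun a => 0 - a)).prod‖ := by
    intro T hT
    induction T using Multiset.induction_on with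
    | empty => simp
    | cons a T ih =>
      rw [Multiset.map_cons, Multiset.prod_cons, Multiset.map_cons, Multiset.prod_cons, norm_mul,
        ih (fun b hb => hT b (Multiset.mem_cons_of_mem hb)),
        max_eq_right (hT a (Multiset.mem_cons_self a T))]
      simp
  apply h3
  intro a ha
  by_contra hcon
  push Not at hcon
  exact hP a hcon ((mem_roots hP0).mp ha)

lemma FA_ne {S : Multiset ℂ} (hS : ∀ w ∈ S, ‖w‖ ≤ 1) {x : ℂ} (hx : ‖x‖ < 1) : (FA S).eval x ≠ 0 := by
  rw [FA_eval]
  intro h
  rw [Multiset.prod_eq_zero_iff, Multiset.mem_map] at h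
  obtain ⟨w, hw, h1⟩ := h
  have h2 : w * x = 1 := (sub_eq_zero.mp h1).symm
  have h3 : ‖w * x‖ < 1 := by
    rw [norm_mul]
    have := hS w hw
    have := norm_nonneg x
    nlinarith [norm_nonneg w]
  rw [h2, norm_one] at h3
  exact lt_irrefl _ h3

lemma FA_ne_zero (S : Multiset ℂ) : FA S ≠ 0 := by
  intro h
  have := FA_eval_zero S
  rw [h] at this
  simp at this

lemma log_int (P : ℂ[X]) : CircleIntegrable (fun x => log ‖P.eval x‖) 0 1 := by
  apply MeromorphicOn.circleIntegrable_log_norm
  intro z _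
  exact (P.differentiable.analyticAt z).meromorphicAt

lemma posLog_ratio_int (P Q : ℂ[X]) : CircleIntegrable (fun x => log⁺ ‖P.eval x / Q.eval x‖) 0 1 := by
  apply MeromorphicOn.circleIntegrable_posLog_norm
  intro z _
  exact (P.differentiable.analyticAt z).meromorphicAt.div (Q.differentiable.analyticAt z).meromorphicAt

lemma posLog_int (P : ℂ[X]) : CircleIntegrable (fun x => log⁺ ‖P.eval x‖) 0 1 := by
  apply MeromorphicOn.circleIntegrable_posLog_norm
  intro z _
  exact (P.differentiable.analyticAt z).meromorphicAt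

lemma roots_countable {P : ℂ[X]} (hP : P ≠ 0) : ({x | P.eval x = 0} : Set ℂ).Countable := by
  have := (Polynomial.finite_setOfPred_isRoot hP).countable
  exact this

/-- the mean of `log⁺` of a sum of functions `1 / (1 - w x)` -/
lemma avg_FS {S : Multiset ℂ} (hS : ∀ w ∈ S, ‖w‖ ≤ 1) {d : ℝ} (hd : 0 < d) :
    circleAverage (fun x => log⁺ ‖(FB S).eval x / (C (d : ℂ) * FA S).eval x‖) 0 1 ≤
      log ((d + S.card) / d) := by
  have hdC : (d : ℂ) ≠ 0 := by exact_mod_cast hd.ne'
  set Q : ℂ[X] := C (d : ℂ) * FA S + FB S with hQ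
  have hQne : ∀ x : ℂ, ‖x‖ < 1 → Q.eval x ≠ 0 := by
    intro x hx h0
    have h1 := FA_ne hS hx
    rw [hQ, eval_add, eval_mul, eval_C, FB_eval S h1] at h0
    have h2 : (FA S).eval x * (d + FS S x) = 0 := by linear_combination h0
    rcases mul_eq_zero.mp h2 with h3 | h3
    · exact h1 h3
    · have h4 := congrArg Complex.re h3
      rw [Complex.add_re, Complex.ofReal_re, Complex.zero_re] at h4
      have h5 := FS_re hS hx.le h1
      linarith
  have hQ0 : Q ≠ 0 := by
    intro h
    have := hQne 0 (by simp)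
    rw [h] at this
    simp at this
  have hA0 := FA_ne_zero S
  have h1 := avg_log_zero_free hQne
  have h2 := avg_log_zero_free (P := FA S) (fun x hx => FA_ne hS hx)
  rw [FA_eval_zero, norm_one, log_one] at h2
  have hQe : ‖Q.eval 0‖ = d + S.card := by
    rw [hQ, eval_add, eval_mul, eval_C, FA_eval_zero, FB_eval_zero, mul_one]
    have : ((d : ℂ) + (S.card : ℂ)) = ((d + S.card : ℝ) : ℂ) := by push_cast; rfl
    rw [this, Complex.norm_real, Real.norm_eq_abs, abs_of_nonneg (by positivity)]
  rw [hQe] at h1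
  have h3 : circleAverage (fun x => log⁺ ‖(FB S).eval x / (C (d : ℂ) * FA S).eval x‖) 0 1 ≤
      circleAverage ((fun x => log ‖Q.eval x‖) - ((fun x => log ‖(FA S).eval x‖) + fun _ => log d)) 0 1 := by
    apply circleAverage_mono_off (posLog_ratio_int _ _)
      ((log_int Q).sub ((log_int _).add (circleIntegrable_const _ _ _)))
      ((roots_countable hA0).union (roots_countable hQ0))
    intro x hx hx2
    rw [Set.mem_union, not_or] at hx2
    have hxA : (FA S).eval x ≠ 0 := hx2.1
    have hxQ : Q.eval x ≠ 0 := hx2.2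
    have hx1 : ‖x‖ ≤ 1 := by
      rw [mem_sphere_zero_iff_norm] at hx
      exact hx.le
    have hre := FS_re hS hx1 hxA
    have e1 : (FB S).eval x / (C (d : ℂ) * FA S).eval x = FS S x / d := by
      rw [eval_mul, eval_C, FB_eval S hxA]
      field_simp
    have e2 : Q.eval x = (FA S).eval x * (d * (1 + FS S x / d)) := by
      rw [hQ, eval_add, eval_mul, eval_C, FB_eval S hxA]
      field_simp
    have e3 : 1 + FS S x / d ≠ 0 := by
      intro h0
      apply hxQ
      rw [e2, h0, mul_zero, mul_zero]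
    rw [e1]
    simp only [Pi.sub_apply, Pi.add_apply]
    rw [e2, norm_mul, norm_mul, log_mul (norm_ne_zero_iff.mpr hxA)
      (mul_ne_zero (norm_ne_zero_iff.mpr hdC) (norm_ne_zero_iff.mpr e3)),
      log_mul (norm_ne_zero_iff.mpr hdC) (norm_ne_zero_iff.mpr e3), Complex.norm_real, Real.norm_eq_abs,
      abs_of_pos hd]
    have hre2 : 0 ≤ (FS S x / (d:ℂ)).re := by
      have : FS S x / (d:ℂ) = ((d⁻¹ : ℝ) : ℂ) * FS S x := by push_cast; field_simp
      rw [this, Complex.re_ofReal_mul]
      positivity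
    set z := FS S x / (d:ℂ) with hz
    have h4 : ‖z‖ ≤ ‖1 + z‖ := by
      rw [← sq_le_sq₀ (norm_nonneg _) (norm_nonneg _), ← Complex.normSq_eq_norm_sq,
        ← Complex.normSq_eq_norm_sq, Complex.normSq_apply, Complex.normSq_apply]
      simp only [Complex.add_re, Complex.one_re, Complex.add_im, Complex.one_im, zero_add]
      nlinarith
    have h5 : 1 ≤ ‖1 + z‖ := by
      have h6 := Complex.abs_re_le_norm (1 + z)
      rw [Complex.add_re, Complex.one_re, abs_of_nonneg (by linarith)] at h6
      linarith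
    have h6 : log⁺ ‖z‖ ≤ log ‖1 + z‖ := by
      rw [← posLog_eq_log (by rwa [abs_of_nonneg (norm_nonneg _)])]
      exact posLog_le_posLog (norm_nonneg _) h4
    linarith
  refine h3.trans ?_
  rw [circleAverage_sub (log_int Q) ((log_int _).add (circleIntegrable_const _ _ _)),
    circleAverage_add (log_int _) (circleIntegrable_const _ _ _), circleAverage_const, h1, h2,
    log_div (by positivity) hd.ne']
  linarith

end Pool.Agent.Zk21.Smt
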