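import Mathlib
import Pool.Agent.Zk21.SmtA

/-!
# A second main theorem for the pencil of the polynomials `u - β X ^ e`
-/

set_option autoImplicit false

open Polynomial Metric Real

namespace Pool.Agent.Zk21.Smt

open Pool.Agent.R328

/-- the polynomial `X P' - e P` -/
noncomputable def WW (e : ℕ) (P : ℂ[X]) : ℂ[X] := X * derivative P - C (e : ℂ) * P

/-- the mean of `log⁺ |P|` -/
noncomputable def mp (P : ℂ[X]) : ℝ := circleAverage (fun x => log⁺ ‖P.eval x‖) 0 1

lemma mp_nonneg (P : ℂ[X]) : 0 ≤ mp P := circleAverage_nonneg_of_nonneg fun _ _ => posLog_nonneg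

open Classical in
/-- conjugates of the zeros in the closed disc -/
noncomputable def Sin (P : ℂ[X]) : Multiset ℂ :=
  (P.roots.filter (fun y => ‖y‖ ≤ 1)).map (starRingEnd ℂ)

open Classical in
/-- inverses of the other zeros -/
noncomputable def Sout (P : ℂ[X]) : Multiset ℂ :=
  (P.roots.filter (fun y => ¬ ‖y‖ ≤ 1)).map (fun y => y⁻¹)

lemma Sin_le {P : ℂ[X]} : ∀ w ∈ Sin P, ‖w‖ ≤ 1 := by
  intro w hw
  unfold Sin at hw
  rw [Multiset.mem_map] at hw
  obtain ⟨y, hy, rfl⟩ := hw
  rw [Multiset.mem_filter] at hy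
  rw [RCLike.norm_conj]
  exact hy.2

lemma Sout_le {P : ℂ[X]} : ∀ w ∈ Sout P, ‖w‖ ≤ 1 := by
  intro w hw
  unfold Sout at hw
  rw [Multiset.mem_map] at hw
  obtain ⟨y, hy, rfl⟩ := hw
  rw [Multiset.mem_filter] at hy
  rw [norm_inv]
  exact inv_le_one_of_one_le₀ (not_le.mp hy.2).le

lemma card_in_out (P : ℂ[X]) : (Sin P).card + (Sout P).card = P.natDegree := by
  classical
  unfold Sin Sout
  rw [Multiset.card_map, Multiset.card_map, ← Multiset.card_add, Multiset.filter_add_not,
    (IsAlgClosed.splits P).natDegree_eq_card_roots]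

lemma sum_in {P : ℂ[X]} {x : ℂ} (hx : ‖x‖ = 1) :
    starRingEnd ℂ ((((P.roots.filter (fun y => ‖y‖ ≤ 1))).map (fun y => x / (x - y))).sum) =
      FS (Sin P) x := by
  classical
  unfold FS Sin
  rw [map_multiset_sum, Multiset.map_map, Multiset.map_map]
  congr 1
  apply Multiset.map_congr (by congr)
  intro y _
  simp only [Function.comp_apply]
  have hx0 : x ≠ 0 := by
    intro h
    rw [h, norm_zero] at hx
    norm_num at hx
  have h1 : starRingEnd ℂ x = x⁻¹ := by
    rw [Complex.inv_def, Complex.normSq_eq_norm_sq, hx]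
    simp
  rw [map_div₀, map_sub, h1]
  by_cases h2 : starRingEnd ℂ y * x = 1
  · have h3 : starRingEnd ℂ y = x⁻¹ := eq_inv_of_mul_eq_one_left h2
    rw [h3]
    simp [hx0]
  · have h3 : 1 - starRingEnd ℂ y * x ≠ 0 := sub_ne_zero.mpr (Ne.symm h2)
    have h4 : x⁻¹ - starRingEnd ℂ y ≠ 0 := by
      intro h5
      apply h3
      have : 1 - starRingEnd ℂ y * x = x * (x⁻¹ - starRingEnd ℂ y) := by
        field_simp
      rw [this, h5, mul_zero]
    rw [div_eq_iff h4, inv_mul_eq_div, eq_div_iff h3]
    field_simp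

lemma sum_out {P : ℂ[X]} {x : ℂ} (hPx : P.eval x ≠ 0) (hP : P ≠ 0) :
    (((P.roots.filter (fun y => ¬ ‖y‖ ≤ 1))).map (fun y => x / (x - y))).sum =
      ((Sout P).card : ℂ) - FS (Sout P) x := by
  classical
  unfold FS Sout
  rw [Multiset.map_map, Multiset.card_map]
  have key : ∀ T : Multiset ℂ, (∀ y ∈ T, y ≠ 0 ∧ x ≠ y) → (T.map (fun y => x / (x - y))).sum =
      (T.card : ℂ) - (T.map ((fun w => (1 - w * x)⁻¹) ∘ fun y => y⁻¹)).sum := by
    intro T hT
    induction T using Multiset.induction_on with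
    | empty => simp
    | cons a T ih =>
      rw [Multiset.map_cons, Multiset.sum_cons, ih (fun b hb => hT b (Multiset.mem_cons_of_mem hb)),
        Multiset.map_cons, Multiset.sum_cons, Multiset.card_cons]
      obtain ⟨ha0, hax⟩ := hT a (Multiset.mem_cons_self a T)
      have h1 : x - a ≠ 0 := sub_ne_zero.mpr hax
      have h2 : a - x ≠ 0 := sub_ne_zero.mpr (Ne.symm hax)
      have h3 : 1 - a⁻¹ * x ≠ 0 := by
        intro h4
        apply h2
        have : a - x = a * (1 - a⁻¹ * x) := by field_simp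
        rw [this, h4, mul_zero]
      have h4 : x / (x - a) = 1 - (1 - a⁻¹ * x)⁻¹ := by
        have h5 : 1 - a⁻¹ * x = (a - x) / a := by field_simp
        rw [h5, inv_div]
        have h6 : x - a = -(a - x) := by ring
        rw [h6, div_neg, eq_sub_iff_add_eq]
        field_simp
        ring
      simp only [Function.comp_apply]
      rw [h4]
      push_cast
      ring
  have := key (P.roots.filter (fun y => ¬ ‖y‖ ≤ 1)) (by
    intro y hy
    rw [Multiset.mem_filter] at hy
    constructor
    · rintro rfl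
      simp at hy
    · rintro rfl
      exact hPx ((mem_roots hP).mp hy.1))
  rw [← this]

lemma WW_eval {P : ℂ[X]} {x : ℂ} (hPx : P.eval x ≠ 0) (e : ℕ) :
    (WW e P).eval x / P.eval x = (P.roots.map (fun y => x / (x - y))).sum - e := by
  unfold WW
  rw [eval_sub, eval_mul, eval_mul, eval_X, eval_C, sub_div, mul_div_assoc,
    (IsAlgClosed.splits P).eval_derivative_div_eval_of_ne_zero hPx, mul_div_assoc, div_self hPx, mul_one,
    ← Multiset.sum_map_mul_left]
  congr 2
  apply Multiset.map_congr rfl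
  intro y _
  rw [mul_one_div]

lemma WW_bound {P : ℂ[X]} (hP : P ≠ 0) {x : ℂ} (hx : ‖x‖ = 1) (hPx : P.eval x ≠ 0) (e : ℕ) :
    ‖(WW e P).eval x / P.eval x‖ ≤ ‖FS (Sin P) x‖ + ‖FS (Sout P) x‖ + ((Sout P).card + e) := by
  classical
  rw [WW_eval hPx]
  have h1 : (P.roots.map (fun y => x / (x - y))).sum =
      ((P.roots.filter (fun y => ‖y‖ ≤ 1)).map (fun y => x / (x - y))).sum +
      ((P.roots.filter (fun y => ¬ ‖y‖ ≤ 1)).map (fun y => x / (x - y))).sum := by
    rw [← Multiset.sum_add, ← Multiset.map_add, Multiset.filter_add_not]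
  rw [h1, sum_out hPx hP]
  have h2 : ‖((P.roots.filter (fun y => ‖y‖ ≤ 1)).map (fun y => x / (x - y))).sum‖ =
      ‖FS (Sin P) x‖ := by
    rw [← sum_in hx, RCLike.norm_conj]
  have h3 : ((P.roots.filter (fun y => ‖y‖ ≤ 1)).map (fun y => x / (x - y))).sum +
      (((Sout P).card : ℂ) - FS (Sout P) x) - (e : ℂ) =
      ((P.roots.filter (fun y => ‖y‖ ≤ 1)).map (fun y => x / (x - y))).sum +
      (- FS (Sout P) x) + (((Sout P).card : ℂ) + (-(e : ℂ))) := by ring
  rw [h3]
  refine (norm_add₃_le).trans ?_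
  rw [h2, norm_neg]
  have h4 : ‖((Sout P).card : ℂ) + (-(e : ℂ))‖ ≤ (Sout P).card + e := by
    refine (norm_add_le _ _).trans ?_
    rw [norm_neg, Complex.norm_natCast, Complex.norm_natCast]
  linarith

/-- the logarithmic derivative on the unit circle -/
lemma avg_WW {P : ℂ[X]} {d e : ℕ} (hd : P.natDegree = d) (hd0 : 0 < d) (he : e ≤ d) :
    circleAverage (fun x => log⁺ ‖(WW e P).eval x / (C (d : ℂ) * P).eval x‖) 0 1 ≤ 5 * log 2 := by
  have hP : P ≠ 0 := by
    rintro rfl
    rw [natDegree_zero] at hd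
    omega
  have hdR : (0:ℝ) < d := by exact_mod_cast hd0
  have hdC : (d : ℂ) ≠ 0 := by exact_mod_cast hd0.ne'
  have hcard := card_in_out P
  rw [hd] at hcard
  have h1 := avg_FS (Sin_le (P := P)) hdR
  have h2 := avg_FS (Sout_le (P := P)) hdR
  have hlog : ∀ m : ℕ, m ≤ d → log ((d + m : ℝ) / d) ≤ log 2 := by
    intro m hm
    have hmR : (m : ℝ) ≤ d := by exact_mod_cast hm
    apply log_le_log (by positivity)
    rw [div_le_iff₀ hdR]
    linarith
  have h3 : circleAverage (fun x => log⁺ ‖(WW e P).eval x / (C (d : ℂ) * P).eval x‖) 0 1 ≤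
      circleAverage (((fun x => log⁺ ‖(FB (Sin P)).eval x / (C ((d:ℝ) : ℂ) * FA (Sin P)).eval x‖) +
        (fun x => log⁺ ‖(FB (Sout P)).eval x / (C ((d:ℝ) : ℂ) * FA (Sout P)).eval x‖)) +
        fun _ => 3 * log 2) 0 1 := by
    apply circleAverage_mono_off (posLog_ratio_int _ _)
      (((posLog_ratio_int _ _).add (posLog_ratio_int _ _)).add (circleIntegrable_const _ _ _))
      (((roots_countable hP).union (roots_countable (FA_ne_zero (Sin P)))).union
        (roots_countable (FA_ne_zero (Sout P))))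
    intro x hx hx2
    rw [Set.mem_union, Set.mem_union, not_or, not_or] at hx2
    have hxP : P.eval x ≠ 0 := hx2.1.1
    have hx1 : (FA (Sin P)).eval x ≠ 0 := hx2.1.2
    have hx3 : (FA (Sout P)).eval x ≠ 0 := hx2.2
    rw [mem_sphere_zero_iff_norm] at hx
    have e1 : ∀ S : Multiset ℂ, (FA S).eval x ≠ 0 →
        ‖(FB S).eval x / (C ((d:ℝ) : ℂ) * FA S).eval x‖ = ‖FS S x‖ / d := by
      intro S hS
      rw [eval_mul, eval_C, FB_eval S hS]
      have : (FA S).eval x * FS S x / (((d:ℝ):ℂ) * (FA S).eval x) = FS S x / ((d:ℝ):ℂ) := by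
        field_simp
      rw [this, norm_div, Complex.norm_real, Real.norm_eq_abs, abs_of_pos hdR]
    have e2 : ‖(WW e P).eval x / (C (d : ℂ) * P).eval x‖ = ‖(WW e P).eval x / P.eval x‖ / d := by
      rw [eval_mul, eval_C, norm_div, norm_div, norm_mul, Complex.norm_natCast]
      have := norm_ne_zero_iff.mpr hxP
      field_simp
    simp only [Pi.add_apply]
    rw [e1 _ hx1, e1 _ hx3, e2]
    have h4 := WW_bound hP hx hxP e
    have h5 : ‖(WW e P).eval x / P.eval x‖ / d ≤
        (‖FS (Sin P) x‖ / d + ‖FS (Sout P) x‖ / d) + ((Sout P).card + e) / d := by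
      rw [← add_div, ← add_div]
      exact div_le_div_of_nonneg_right h4 hdR.le
    have h6 : (((Sout P).card : ℝ) + e) / d ≤ 2 := by
      rw [div_le_iff₀ hdR]
      have g1 : ((Sout P).card : ℝ) ≤ d := by
        have : (Sout P).card ≤ d := by omega
        exact_mod_cast this
      have g2 : (e : ℝ) ≤ d := by exact_mod_cast he
      linarith
    have h7 : log⁺ (‖(WW e P).eval x / P.eval x‖ / d) ≤
        log⁺ ((‖FS (Sin P) x‖ / d + ‖FS (Sout P) x‖ / d) + ((Sout P).card + e) / d) :=
      posLog_le_posLog (by positivity) h5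
    have h8 := posLog_add (x := ‖FS (Sin P) x‖ / d + ‖FS (Sout P) x‖ / d)
      (y := (((Sout P).card : ℝ) + e) / d)
    have h9 := posLog_add (x := ‖FS (Sin P) x‖ / d) (y := ‖FS (Sout P) x‖ / d)
    have h10 : log⁺ ((((Sout P).card : ℝ) + e) / d) ≤ log 2 := by
      have h11 := posLog_le_posLog (by positivity : (0:ℝ) ≤ (((Sout P).card : ℝ) + e) / d) h6
      rw [posLog_eq_log (x := 2) (by norm_num)] at h11
      exact h11
    linarith
  refine h3.trans ?_
  rw [circleAverage_add ((posLog_ratio_int _ _).add (posLog_ratio_int _ _)) (circleIntegrable_const _ _ _),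
    circleAverage_add (posLog_ratio_int _ _) (posLog_ratio_int _ _), circleAverage_const]
  have h11 := hlog _ (show (Sin P).card ≤ d by omega)
  have h12 := hlog _ (show (Sout P).card ≤ d by omega)
  linarith

/-- the pointwise inequality -/
lemma pw {p q v A B δ : ℝ} (hp : 0 < p) (hq : 0 < q) (hv : 0 < v) (hA0 : 0 ≤ A) (hB0 : 0 ≤ B)
    (hA : v = A * p) (hk : v * δ ≤ p * q * (A + B)) (hδ : 1 / 2 ≤ δ) :
    log⁺ q ≤ log p + log q - log v + 2 * log⁺ A + log⁺ B + 2 * log 2 := by
  have hA1 : 0 < A := by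
    rcases hA0.lt_or_eq with h | h
    · exact h
    · rw [← h, zero_mul] at hA
      linarith
  have hlA : 0 ≤ log⁺ A := posLog_nonneg
  have hlB : 0 ≤ log⁺ B := posLog_nonneg
  have hl2 : 0 < log 2 := log_pos (by norm_num)
  rcases le_or_gt 1 q with h1 | h1
  · rw [posLog_eq_log (by rwa [abs_of_pos hq]), hA, log_mul hA1.ne' hp.ne']
    have : log A ≤ log⁺ A := le_max_right _ _
    linarith
  · have h2 : log⁺ q = 0 := by
      rw [posLog_eq_zero_iff, abs_of_pos hq]
      exact h1.le
    rw [h2]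
    have h3 : log (v * δ) ≤ log (p * q * (A + B)) := log_le_log (by positivity) hk
    rw [log_mul hv.ne' (by linarith), log_mul (by positivity) (by positivity),
      log_mul hp.ne' hq.ne'] at h3
    have h4 : log (1 / 2) ≤ log δ := log_le_log (by norm_num) hδ
    rw [one_div, log_inv] at h4
    have h5 : log (A + B) ≤ log⁺ (A + B) := le_max_right _ _
    have h6 := posLog_add (x := A) (y := B)
    linarith

/-- the second main theorem for a pencil -/
theorem smt {P Q : ℂ[X]} {δ : ℂ} {d e : ℕ} (hdP : P.natDegree = d) (hdQ : Q.natDegree = d)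
    (hd0 : 0 < d) (he : e ≤ d) (hPQ : P = Q + C δ * X ^ e) (hδ : 1 / 2 ≤ ‖δ‖)
    (hW : (d : ℝ) / 2 ≤ (WW e P).mahlerMeasure) :
    mp Q ≤ log P.mahlerMeasure + log Q.mahlerMeasure + 18 * log 2 := by
  have hP : P ≠ 0 := by
    rintro rfl
    rw [natDegree_zero] at hdP
    omega
  have hQ : Q ≠ 0 := by
    rintro rfl
    rw [natDegree_zero] at hdQ
    omega
  have hdR : (0:ℝ) < d := by exact_mod_cast hd0
  have hdC : (d : ℂ) ≠ 0 := by exact_mod_cast hd0.ne'
  have hWeq : WW e P = WW e Q := by
    unfold WW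
    rw [hPQ, derivative_add, derivative_mul, derivative_C, derivative_X_pow]
    rcases Nat.eq_zero_or_pos e with h | h
    · subst h
      simp
    · have : (X : ℂ[X]) ^ e = X * X ^ (e - 1) := by
        rw [← pow_succ']
        congr 1
        omega
      rw [this]
      ring
  have hW0 : WW e P ≠ 0 := by
    intro h
    rw [h, mahlerMeasure_zero] at hW
    have : (0:ℝ) < d / 2 := by positivity
    linarith
  have hWint := log_int (WW e P)
  have h1 := avg_WW hdP hd0 he
  have h2 := avg_WW hdQ hd0 he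
  have h3 : mp Q ≤ circleAverage ((((fun x => log ‖P.eval x‖) + fun x => log ‖Q.eval x‖) -
      (fun x => log ‖(WW e P).eval x‖)) + (((2:ℝ) • (fun x => log⁺ ‖(WW e P).eval x / (C (d : ℂ) * P).eval x‖) +
      (fun x => log⁺ ‖(WW e Q).eval x / (C (d : ℂ) * Q).eval x‖)) + fun _ => 2 * log 2 + log d)) 0 1 := by
    unfold mp
    apply circleAverage_mono_off (posLog_int Q)
      ((((log_int P).add (log_int Q)).sub hWint).add
        ((((posLog_ratio_int _ _).const_smul).add (posLog_ratio_int _ _)).add (circleIntegrable_const _ _ _)))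
      (((roots_countable hP).union (roots_countable hQ)).union (roots_countable hW0))
    intro x hx hx2
    rw [Set.mem_union, Set.mem_union, not_or, not_or] at hx2
    have hxP : P.eval x ≠ 0 := hx2.1.1
    have hxQ : Q.eval x ≠ 0 := hx2.1.2
    have hxW : (WW e P).eval x ≠ 0 := hx2.2
    rw [mem_sphere_zero_iff_norm] at hx
    simp only [Pi.add_apply, Pi.sub_apply, Pi.smul_apply, smul_eq_mul]
    have hv : 0 < ‖(WW e P).eval x‖ / d := div_pos (norm_pos_iff.mpr hxW) hdR
    have hpn := norm_pos_iff.mpr hxP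
    have hqn := norm_pos_iff.mpr hxQ
    have key := pw (p := ‖P.eval x‖) (q := ‖Q.eval x‖) (v := ‖(WW e P).eval x‖ / d)
      (A := ‖(WW e P).eval x / (C (d : ℂ) * P).eval x‖)
      (B := ‖(WW e Q).eval x / (C (d : ℂ) * Q).eval x‖) (δ := ‖δ‖) hpn hqn hv
      (norm_nonneg _) (norm_nonneg _) (by
        rw [norm_div, eval_mul, eval_C, norm_mul, Complex.norm_natCast]
        field_simp) (by
        have e1 : (WW e P).eval x / (C (d : ℂ) * P).eval x - (WW e Q).eval x / (C (d : ℂ) * Q).eval x =
            - ((WW e P).eval x / d * δ * x ^ e) / (P.eval x * Q.eval x) := by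
          rw [← hWeq]
          have e2 : P.eval x = Q.eval x + δ * x ^ e := by
            conv_lhs => rw [hPQ]
            simp
          rw [eval_mul, eval_mul, eval_C, div_sub_div _ _ (mul_ne_zero hdC hxP) (mul_ne_zero hdC hxQ),
            div_eq_div_iff (mul_ne_zero (mul_ne_zero hdC hxP) (mul_ne_zero hdC hxQ)) (mul_ne_zero hxP hxQ)]
          have e3 : (WW e P).eval x / d * δ * x ^ e * (d * P.eval x * (d * Q.eval x)) =
            (WW e P).eval x * δ * x ^ e * (d * P.eval x * Q.eval x) := by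
            field_simp
          rw [neg_mul, e3]
          have e4 : δ * x ^ e = P.eval x - Q.eval x := by rw [e2]; ring
          linear_combination ((WW e P).eval x * (d * P.eval x * Q.eval x)) * e4
        have e5 := congrArg norm e1
        rw [norm_div, norm_neg, norm_mul, norm_mul, norm_div, norm_mul, norm_pow, hx, one_pow, mul_one,
          Complex.norm_natCast] at e5
        have e6 := norm_sub_le ((WW e P).eval x / (C (d : ℂ) * P).eval x)
          ((WW e Q).eval x / (C (d : ℂ) * Q).eval x)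
        rw [e5, div_le_iff₀ (by positivity)] at e6
        linarith) hδ
    rw [log_div (norm_ne_zero_iff.mpr hxW) hdR.ne'] at key
    linarith
  rw [circleAverage_add (((log_int P).add (log_int Q)).sub hWint)
      ((((posLog_ratio_int _ _).const_smul).add (posLog_ratio_int _ _)).add (circleIntegrable_const _ _ _)),
    circleAverage_sub ((log_int P).add (log_int Q)) hWint, circleAverage_add (log_int P) (log_int Q),
    circleAverage_add (((posLog_ratio_int _ _).const_smul).add (posLog_ratio_int _ _))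
      (circleIntegrable_const _ _ _),
    circleAverage_add ((posLog_ratio_int _ _).const_smul) (posLog_ratio_int _ _),
    circleAverage_smul, circleAverage_const] at h3
  have e1 : circleAverage (fun x => log ‖P.eval x‖) 0 1 = log P.mahlerMeasure := by
    rw [← logMahlerMeasure_eq_log_MahlerMeasure]; rfl
  have e2 : circleAverage (fun x => log ‖Q.eval x‖) 0 1 = log Q.mahlerMeasure := by
    rw [← logMahlerMeasure_eq_log_MahlerMeasure]; rfl
  have e3 : circleAverage (fun x => log ‖(WW e P).eval x‖) 0 1 = log (WW e P).mahlerMeasure := by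
    rw [← logMahlerMeasure_eq_log_MahlerMeasure]; rfl
  rw [e1, e2, e3, smul_eq_mul] at h3
  have h4 : log ((d : ℝ) / 2) ≤ log (WW e P).mahlerMeasure := log_le_log (by positivity) hW
  rw [log_div hdR.ne' (by norm_num)] at h4
  linarith

end Pool.Agent.Zk21.Smt
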