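import Mathlib
import Pool.Agent.Zk21.SmtB
import Pool.Agent.Zk21.DecB

/-!
# Compositions with a Laurent polynomial: the mean of `log⁺ |f|`
-/

set_option autoImplicit false

open Polynomial Metric Real

namespace Pool.Agent.Zk21.Smt

open Pool.Agent.R328 Pool.Agent.Zk21.Dec

/-- integer resultants -/
lemma one_le_prod_eval {g q : ℤ[X]} (hl : |g.leadingCoeff| = 1)
    (h : ∀ β ∈ (g.map (Int.castRingHom ℂ)).roots, (q.map (Int.castRingHom ℂ)).eval β ≠ 0) :
    1 ≤ ((g.map (Int.castRingHom ℂ)).roots.map (fun β => ‖(q.map (Int.castRingHom ℂ)).eval β‖)).prod := by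
  have hinj : Function.Injective (Int.castRingHom ℂ) := (Int.castRingHom ℂ).injective_int
  set G := g.map (Int.castRingHom ℂ) with hG
  set Q := q.map (Int.castRingHom ℂ) with hQ
  have hlG : ‖G.leadingCoeff‖ = 1 := by
    rw [hG, leadingCoeff_map_of_injective hinj, eq_intCast, Complex.norm_intCast]
    exact_mod_cast hl
  have h1 := resultant_eq_prod_eval G Q Q.natDegree le_rfl (IsAlgClosed.splits G)
  have h2 : resultant G Q G.natDegree Q.natDegree =
      ((resultant g q G.natDegree Q.natDegree : ℤ) : ℂ) := by
    rw [hG, hQ, resultant_map_map]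
    rfl
  rw [h2] at h1
  have h3 : ∀ S : Multiset ℂ, ‖(S.map Q.eval).prod‖ = (S.map (fun β => ‖Q.eval β‖)).prod := by
    intro S
    induction S using Multiset.induction_on with
    | empty => simp
    | cons a S ih => simp [ih]
  have h4 := congrArg norm h1
  rw [norm_mul, norm_pow, hlG, one_pow, one_mul, h3, Complex.norm_intCast] at h4
  rw [← h4]
  have h5 : resultant g q G.natDegree Q.natDegree ≠ 0 := by
    intro h0
    rw [h0] at h4
    simp only [Int.cast_zero, abs_zero] at h4
    have h6 := h4.symm
    rw [Multiset.prod_eq_zero_iff, Multiset.mem_map] at h6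
    obtain ⟨β, hβ, h7⟩ := h6
    exact h β hβ (norm_eq_zero.mp h7)
  exact_mod_cast Int.one_le_abs h5

/-- two conjugates at distance at least one -/
lemma exists_far {g : ℤ[X]} (hg : Irreducible g) (hl : |g.leadingCoeff| = 1) (hk : 2 ≤ g.natDegree) :
    ∃ β₁ ∈ (g.map (Int.castRingHom ℂ)).roots, ∃ β₂ ∈ (g.map (Int.castRingHom ℂ)).roots,
      1 ≤ ‖β₁ - β₂‖ := by
  classical
  have hinj : Function.Injective (Int.castRingHom ℂ) := (Int.castRingHom ℂ).injective_int
  set G := g.map (Int.castRingHom ℂ) with hG
  by_contra hcon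
  push Not at hcon
  have hcard : G.roots.card = g.natDegree := by
    rw [← natDegree_map_eq_of_injective hinj g]
    exact ((IsAlgClosed.splits G).natDegree_eq_card_roots).symm
  have hgQ : Irreducible (g.map (Int.castRingHom ℚ)) := by
    have hprim : g.IsPrimitive := hg.isPrimitive (by omega)
    exact (IsPrimitive.Int.irreducible_iff_irreducible_map_cast hprim).mp hg
  have hsep : (g.map (Int.castRingHom ℚ)).Separable := hgQ.separable
  have hsepC : G.Separable := by
    have h1 := hsep.map (f := algebraMap ℚ ℂ)
    have h2 : (g.map (Int.castRingHom ℚ)).map (algebraMap ℚ ℂ) = G := by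
      rw [Polynomial.map_map, hG]
      congr 1
    rwa [h2] at h1
  have hlG : ‖G.leadingCoeff‖ = 1 := by
    rw [hG, leadingCoeff_map_of_injective hinj, eq_intCast, Complex.norm_intCast]
    exact_mod_cast hl
  have hdG : G.derivative = (derivative g).map (Int.castRingHom ℂ) := by
    rw [hG, derivative_map]
  have hG0 : G ≠ 0 := by
    intro h0
    rw [h0] at hlG
    simp at hlG
  have hne : ∀ β ∈ G.roots, ((derivative g).map (Int.castRingHom ℂ)).eval β ≠ 0 := by
    intro β hβ h0
    rw [← hdG] at h0
    obtain ⟨a, b, hab⟩ := hsepC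
    have h1 := congrArg (Polynomial.eval β) hab
    rw [eval_add, eval_mul, eval_mul, h0, mul_zero, add_zero, (mem_roots hG0).mp hβ, mul_zero,
      eval_one] at h1
    exact zero_ne_one h1
  have h1 := one_le_prod_eval hl hne
  have h2 : ∀ β ∈ G.roots, ‖((derivative g).map (Int.castRingHom ℂ)).eval β‖ < 1 := by
    intro β hβ
    rw [← hdG, (IsAlgClosed.splits G).eval_derivative, norm_mul, hlG, one_mul]
    have h3 : (G.roots.map fun a => ((G.roots.erase a).map (β - ·)).prod).sum =
        ((G.roots.erase β).map (β - ·)).prod := by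
      conv_lhs => rw [← Multiset.cons_erase hβ]
      rw [Multiset.map_cons, Multiset.sum_cons, Multiset.cons_erase hβ]
      have h4 : ((G.roots.erase β).map fun a => ((G.roots.erase a).map (β - ·)).prod).sum = 0 := by
        apply Multiset.sum_eq_zero
        intro y hy
        rw [Multiset.mem_map] at hy
        obtain ⟨a, ha, rfl⟩ := hy
        rw [Multiset.prod_eq_zero_iff, Multiset.mem_map]
        refine ⟨β, ?_, sub_self β⟩
        have hnd := nodup_roots hsepC
        have hab : β ≠ a := by
          rintro rfl
          exact (hnd.notMem_erase) ha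
        exact (Multiset.mem_erase_of_ne hab).mpr hβ
      rw [h4, add_zero]
    rw [h3]
    have h5 : ∀ T : Multiset ℂ, (∀ b ∈ T, ‖β - b‖ < 1) → 0 < T.card → ‖(T.map (β - ·)).prod‖ < 1 := by
      intro T hT hcT
      induction T using Multiset.induction_on with
      | empty => simp at hcT
      | cons a T ih =>
        rw [Multiset.map_cons, Multiset.prod_cons, norm_mul]
        have ha := hT a (Multiset.mem_cons_self a T)
        rcases Nat.eq_zero_or_pos T.card with h6 | h6
        · rw [Multiset.card_eq_zero] at h6
          rw [h6]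
          simpa using ha
        · have h7 := ih (fun b hb => hT b (Multiset.mem_cons_of_mem hb)) h6
          nlinarith [norm_nonneg (β - a), norm_nonneg ((T.map (β - ·)).prod)]
    apply h5
    · intro b hb
      exact hcon β hβ b (Multiset.mem_of_mem_erase hb)
    · rw [Multiset.card_erase_of_mem hβ, hcard]
      simp only [Nat.pred_eq_sub_one]
      omega
  have h3 : ∀ S : Multiset ℂ, (∀ β ∈ S, ‖((derivative g).map (Int.castRingHom ℂ)).eval β‖ < 1) →
      0 < S.card → (S.map (fun β => ‖((derivative g).map (Int.castRingHom ℂ)).eval β‖)).prod < 1 := by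
    intro S hS hc
    induction S using Multiset.induction_on with
    | empty => simp at hc
    | cons a S ih =>
      rw [Multiset.map_cons, Multiset.prod_cons]
      have ha := hS a (Multiset.mem_cons_self a S)
      rcases Nat.eq_zero_or_pos S.card with h6 | h6
      · rw [Multiset.card_eq_zero] at h6
        rw [h6]
        simpa using ha
      · have h7 := ih (fun b hb => hS b (Multiset.mem_cons_of_mem hb)) h6
        have h8 : 0 ≤ (S.map (fun β => ‖((derivative g).map (Int.castRingHom ℂ)).eval β‖)).prod := by
          apply Multiset.prod_nonneg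
          intro y hy
          rw [Multiset.mem_map] at hy
          obtain ⟨b, _, rfl⟩ := hy
          exact norm_nonneg _
        nlinarith [norm_nonneg (((derivative g).map (Int.castRingHom ℂ)).eval a)]
  have h4 := h3 G.roots h2 (by omega)
  linarith

section

variable {u : ℤ[X]} {e : ℕ}

lemma fb_natDegree {u v : ℤ[X]} (hd : v.natDegree < u.natDegree) (β : ℂ) :
    (fb u v β).natDegree = u.natDegree ∧ (fb u v β).leadingCoeff = ((u.leadingCoeff : ℤ) : ℂ) := by
  have hinj : Function.Injective (Int.castRingHom ℂ) := (Int.castRingHom ℂ).injective_int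
  have hu0 : u ≠ 0 := by
    rintro rfl
    simp at hd
  have h1 : (fb u v β).coeff u.natDegree = ((u.leadingCoeff : ℤ) : ℂ) := by
    rw [fb_coeff, coeff_eq_zero_of_natDegree_lt hd]
    simp
  have h2 : (fb u v β).natDegree ≤ u.natDegree := by
    rw [natDegree_le_iff_coeff_eq_zero]
    intro i hi
    rw [fb_coeff, coeff_eq_zero_of_natDegree_lt hi, coeff_eq_zero_of_natDegree_lt (hd.trans hi)]
    simp
  have h3 : (fb u v β).natDegree = u.natDegree := by
    apply natDegree_eq_of_le_of_coeff_ne_zero h2
    rw [h1]
    exact_mod_cast leadingCoeff_ne_zero.mpr hu0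
  refine ⟨h3, ?_⟩
  rw [leadingCoeff, h3, h1]

lemma fb_ne_zero {u v : ℤ[X]} (hd : v.natDegree < u.natDegree) (β : ℂ) : fb u v β ≠ 0 := by
  intro h
  have h1 := (fb_natDegree hd β).1
  rw [h, natDegree_zero] at h1
  omega

lemma hcomp_mul {a b u v : ℤ[X]} (ha : a ≠ 0) (hb : b ≠ 0) :
    hcomp (a * b) u v = hcomp a u v * hcomp b u v := by
  have hinj : Function.Injective (Int.castRingHom ℂ) := (Int.castRingHom ℂ).injective_int
  apply map_injective _ hinj
  rw [Polynomial.map_mul, hcomp_map, hcomp_map, hcomp_map, Polynomial.map_mul, roots_mul,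
    leadingCoeff_mul, Multiset.map_add, Multiset.prod_add]
  · push_cast
    rw [C_mul]
    ring
  · rw [← Polynomial.map_mul]
    exact (Polynomial.map_ne_zero_iff hinj).mpr (mul_ne_zero ha hb)

lemma prod_fb_natDegree {u v : ℤ[X]} (hd : v.natDegree < u.natDegree) (S : Multiset ℂ) :
    ((S.map (fun β => fb u v β)).prod).natDegree = S.card * u.natDegree ∧
    ((S.map (fun β => fb u v β)).prod).leadingCoeff = ((u.leadingCoeff : ℤ) : ℂ) ^ S.card ∧
    (S.map (fun β => fb u v β)).prod ≠ 0 := by
  induction S using Multiset.induction_on with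
  | empty => simp
  | cons β S ih =>
    obtain ⟨h1, h2, h3⟩ := ih
    rw [Multiset.map_cons, Multiset.prod_cons, Multiset.card_cons]
    refine ⟨?_, ?_, mul_ne_zero (fb_ne_zero hd β) h3⟩
    · rw [natDegree_mul (fb_ne_zero hd β) h3, h1, (fb_natDegree hd β).1]
      ring
    · rw [leadingCoeff_mul, h2, (fb_natDegree hd β).2]
      ring

lemma card_roots_map (g : ℤ[X]) : (g.map (Int.castRingHom ℂ)).roots.card = g.natDegree := by
  have hinj : Function.Injective (Int.castRingHom ℂ) := (Int.castRingHom ℂ).injective_int
  rw [← natDegree_map_eq_of_injective hinj g]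
  exact ((IsAlgClosed.splits _).natDegree_eq_card_roots).symm

lemma hcomp_natDegree {g u v : ℤ[X]} (hg : g ≠ 0) (hd : v.natDegree < u.natDegree) :
    (hcomp g u v).natDegree = g.natDegree * u.natDegree := by
  have hinj : Function.Injective (Int.castRingHom ℂ) := (Int.castRingHom ℂ).injective_int
  have h1 := hcomp_map g u v
  have h2 := congrArg Polynomial.natDegree h1
  rw [natDegree_map_eq_of_injective hinj, natDegree_C_mul, (prod_fb_natDegree hd _).1,
    card_roots_map] at h2
  · exact h2
  · exact_mod_cast leadingCoeff_ne_zero.mpr hg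

lemma hcomp_leadingCoeff {g u v : ℤ[X]} (hd : v.natDegree < u.natDegree) :
    (hcomp g u v).leadingCoeff = g.leadingCoeff * u.leadingCoeff ^ g.natDegree := by
  have hinj : Function.Injective (Int.castRingHom ℂ) := (Int.castRingHom ℂ).injective_int
  have h1 := hcomp_map g u v
  have h2 := congrArg Polynomial.leadingCoeff h1
  rw [leadingCoeff_map_of_injective hinj, leadingCoeff_mul, leadingCoeff_C,
    (prod_fb_natDegree hd _).2.1, card_roots_map, eq_intCast] at h2
  exact_mod_cast h2

lemma irr_of_hcomp {g u v : ℤ[X]} (hd : v.natDegree < u.natDegree) (hk : 0 < g.natDegree)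
    (h : Irreducible (hcomp g u v)) : Irreducible g := by
  have hg0 : g ≠ 0 := by
    rintro rfl
    simp at hk
  constructor
  · intro hu
    have := natDegree_eq_zero_of_isUnit hu
    omega
  · intro a b hab
    have ha : a ≠ 0 := by
      rintro rfl
      rw [zero_mul] at hab
      exact hg0 hab
    have hb : b ≠ 0 := by
      rintro rfl
      rw [mul_zero] at hab
      exact hg0 hab
    have key : ∀ a : ℤ[X], a ≠ 0 → IsUnit (hcomp a u v) → IsUnit a := by
      intro a ha hu
      have h1 := natDegree_eq_zero_of_isUnit hu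
      rw [hcomp_natDegree ha hd] at h1
      have h2 : a.natDegree = 0 := by
        rcases Nat.mul_eq_zero.mp h1 with h3 | h3
        · exact h3
        · omega
      obtain ⟨c, hc⟩ : ∃ c : ℤ, a = C c := ⟨a.coeff 0, eq_C_of_natDegree_eq_zero h2⟩
      have h3 : hcomp a u v = C c := by
        unfold hcomp
        rw [h2, hc]
        simp
      rw [h3] at hu
      rw [hc]
      exact hu
    rw [hab, hcomp_mul ha hb] at h
    rcases h.isUnit_or_isUnit rfl with h1 | h1
    · exact Or.inl (key a ha h1)
    · exact Or.inr (key b hb h1)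

end

end Pool.Agent.Zk21.Smt
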