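import Mathlib
import Pool.Agent.Zk21.SmtC

/-!
# Lehmer's problem for compositions: a bound in terms of the degree of the outer polynomial
-/

set_option autoImplicit false

open Polynomial Metric Real

namespace Pool.Agent.Zk21.Smt

open Pool.Agent.R328 Pool.Agent.Zk21.Dec Pool.Agent.H388SL

/-- the pencil member -/
noncomputable def Pb (u : ℤ[X]) (e : ℕ) (β : ℂ) : ℂ[X] := fb u (X ^ e) β

lemma Xe_natDegree (e : ℕ) : (X ^ e : ℤ[X]).natDegree = e := natDegree_X_pow e

lemma Pb_sub (u : ℤ[X]) (e : ℕ) (β γ : ℂ) : Pb u e β = Pb u e γ + C (γ - β) * X ^ e := by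
  unfold Pb fb
  rw [Polynomial.map_pow, map_X, C_sub]
  ring

lemma WW_Pb (u : ℤ[X]) (e : ℕ) (β : ℂ) :
    WW e (Pb u e β) = (X * derivative u - C (e : ℤ) * u).map (Int.castRingHom ℂ) := by
  unfold WW Pb fb
  rw [Polynomial.map_sub, Polynomial.map_mul, Polynomial.map_mul, map_X, map_C, ← derivative_map,
    Polynomial.map_pow, map_X, derivative_sub, derivative_mul, derivative_C, derivative_X_pow]
  have h1 : (Int.castRingHom ℂ) (e : ℤ) = (e : ℂ) := by simp
  rw [h1]
  rcases Nat.eq_zero_or_pos e with h | h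
  · subst h
    simp
  · have : (X : ℂ[X]) ^ e = X * X ^ (e - 1) := by
      rw [← pow_succ']
      congr 1
      omega
    rw [this]
    ring

lemma WW_measure {u : ℤ[X]} {e : ℕ} (he : e < u.natDegree) (h0 : e = 0 ∨ u.coeff 0 ≠ 0) (β : ℂ) :
    (u.natDegree : ℝ) / 2 ≤ (WW e (Pb u e β)).mahlerMeasure := by
  have hinj : Function.Injective (Int.castRingHom ℂ) := (Int.castRingHom ℂ).injective_int
  have hu0 : u ≠ 0 := by
    rintro rfl
    simp at he
  rw [WW_Pb]
  set w : ℤ[X] := X * derivative u - C (e : ℤ) * u with hw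
  have hc : ∀ i, w.coeff i = ((i : ℤ) - e) * u.coeff i := by
    intro i
    rw [hw, coeff_sub, coeff_C_mul]
    rcases i with _ | i
    · simp
    · rw [coeff_X_mul, coeff_derivative]
      push_cast
      ring
  have hdeg : w.natDegree = u.natDegree := by
    apply natDegree_eq_of_le_of_coeff_ne_zero
    · rw [natDegree_le_iff_coeff_eq_zero]
      intro i hi
      rw [hc, coeff_eq_zero_of_natDegree_lt hi, mul_zero]
    · rw [hc]
      apply mul_ne_zero
      · omega
      · exact leadingCoeff_ne_zero.mpr hu0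
  have hlc : (1 : ℝ) ≤ |(u.leadingCoeff : ℝ)| := by
    exact_mod_cast Int.one_le_abs (leadingCoeff_ne_zero.mpr hu0)
  rcases le_or_gt (2 * e) u.natDegree with h1 | h1
  · have h2 := leadingCoeff_le_mahlerMeasure (w.map (Int.castRingHom ℂ))
    rw [leadingCoeff_map_of_injective hinj, leadingCoeff, hdeg, hc, eq_intCast, Complex.norm_intCast] at h2
    refine le_trans ?_ h2
    push_cast
    rw [abs_mul]
    have h3 : (u.natDegree : ℝ) / 2 ≤ |(u.natDegree : ℝ) - e| := by
      have h4 : (2 * e : ℝ) ≤ u.natDegree := by exact_mod_cast h1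
      have h5 := le_abs_self ((u.natDegree : ℝ) - e)
      linarith
    have h6 : |(u.coeff u.natDegree : ℝ)| = |(u.leadingCoeff : ℝ)| := rfl
    rw [h6]
    have h7 : (0:ℝ) ≤ u.natDegree := Nat.cast_nonneg _
    nlinarith [abs_nonneg ((u.natDegree : ℝ) - e)]
  · have hu : u.coeff 0 ≠ 0 := by
      rcases h0 with h2 | h2
      · subst h2
        omega
      · exact h2
    have h2 := norm_coeff_le_choose_mul_mahlerMeasure 0 (w.map (Int.castRingHom ℂ))
    rw [Nat.choose_zero_right, Nat.cast_one, one_mul, coeff_map, hc, eq_intCast, Complex.norm_intCast] at h2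
    refine le_trans ?_ h2
    push_cast
    rw [abs_mul]
    have h3 : (u.natDegree : ℝ) / 2 ≤ |(0:ℝ) - e| := by
      have h4 : (u.natDegree : ℝ) ≤ 2 * e := by exact_mod_cast h1.le
      rw [zero_sub, abs_neg, abs_of_nonneg (Nat.cast_nonneg _)]
      linarith
    have h5 : (1 : ℝ) ≤ |(u.coeff 0 : ℝ)| := by exact_mod_cast Int.one_le_abs hu
    have h7 : (0:ℝ) ≤ u.natDegree := Nat.cast_nonneg _
    nlinarith [abs_nonneg ((0:ℝ) - e)]

/-- the mean of `log⁺` for two members of the pencil -/
lemma mp_Pb {u : ℤ[X]} {e : ℕ} (he : e < u.natDegree) (h0 : e = 0 ∨ u.coeff 0 ≠ 0) {β γ : ℂ}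
    (hβ : 1 / 2 ≤ ‖β - γ‖) :
    mp (Pb u e β) ≤ log (Pb u e γ).mahlerMeasure + log (Pb u e β).mahlerMeasure + 18 * log 2 := by
  have hd : (X ^ e : ℤ[X]).natDegree < u.natDegree := by rwa [Xe_natDegree]
  exact smt (P := Pb u e γ) (Q := Pb u e β) (δ := β - γ) (fb_natDegree hd γ).1 (fb_natDegree hd β).1
    (by omega) he.le (Pb_sub u e γ β) hβ (WW_measure he h0 γ)

lemma Pb_measure {u : ℤ[X]} {e : ℕ} (he : e < u.natDegree) (β : ℂ) :
    1 ≤ (Pb u e β).mahlerMeasure := by
  have hd : (X ^ e : ℤ[X]).natDegree < u.natDegree := by rwa [Xe_natDegree]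
  have hu0 : u ≠ 0 := by
    rintro rfl
    simp at he
  have h1 := leadingCoeff_le_mahlerMeasure (Pb u e β)
  refine le_trans ?_ h1
  have h2 : (Pb u e β).leadingCoeff = ((u.leadingCoeff : ℤ) : ℂ) := (fb_natDegree hd β).2
  rw [h2, Complex.norm_intCast]
  exact_mod_cast Int.one_le_abs (leadingCoeff_ne_zero.mpr hu0)

/-- a real logarithm of a product -/
lemma log_prod_map' {S : Multiset ℂ} {F : ℂ → ℝ} (hF : ∀ β ∈ S, 1 ≤ F β) :
    log ((S.map F).prod) = (S.map (fun β => log (F β))).sum ∧ 1 ≤ (S.map F).prod := by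
  induction S using Multiset.induction_on with
  | empty => simp
  | cons a S ih =>
    obtain ⟨h1, h2⟩ := ih (fun b hb => hF b (Multiset.mem_cons_of_mem hb))
    have h3 := hF a (Multiset.mem_cons_self a S)
    rw [Multiset.map_cons, Multiset.prod_cons, Multiset.map_cons, Multiset.sum_cons,
      log_mul (by linarith) (by linarith), h1]
    exact ⟨rfl, one_le_mul_of_one_le_of_one_le h3 h2⟩

lemma mp_mul_le {P Q : ℂ[X]} : mp (P * Q) ≤ mp P + mp Q := by
  unfold mp
  rw [← circleAverage_add (posLog_int P) (posLog_int Q)]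
  apply circleAverage_mono (posLog_int _) ((posLog_int P).add (posLog_int Q))
  intro x _
  simp only [Pi.add_apply]
  rw [eval_mul, norm_mul]
  exact posLog_mul

lemma mp_prod_le (S : Multiset ℂ) (F : ℂ → ℂ[X]) :
    mp (S.map F).prod ≤ (S.map (fun β => mp (F β))).sum := by
  induction S using Multiset.induction_on with
  | empty =>
    simp only [Multiset.map_zero, Multiset.prod_zero, Multiset.sum_zero]
    unfold mp
    simp only [eval_one, norm_one, posLog_one]
    rw [circleAverage_const]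
  | cons a S ih =>
    rw [Multiset.map_cons, Multiset.prod_cons, Multiset.map_cons, Multiset.sum_cons]
    exact (mp_mul_le).trans (by linarith)

/-- the mean of `log⁺ |f|` for a composition of small Mahler measure -/
lemma mp_hcomp {g u : ℤ[X]} {e : ℕ} (he : e < u.natDegree) (h0 : e = 0 ∨ u.coeff 0 ≠ 0)
    (hk : 2 ≤ g.natDegree) (hirr : Irreducible (hcomp g u (X ^ e)))
    (hM : ((hcomp g u (X ^ e)).map (Int.castRingHom ℂ)).mahlerMeasure < 2) :
    mp ((hcomp g u (X ^ e)).map (Int.castRingHom ℂ)) ≤ 20 * log 2 * g.natDegree := by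
  have hinj : Function.Injective (Int.castRingHom ℂ) := (Int.castRingHom ℂ).injective_int
  have hd : (X ^ e : ℤ[X]).natDegree < u.natDegree := by rwa [Xe_natDegree]
  have hu0 : u ≠ 0 := by
    rintro rfl
    simp at he
  set f := hcomp g u (X ^ e) with hf
  have hgirr : Irreducible g := irr_of_hcomp hd (by omega) hirr
  have hg0 : g ≠ 0 := hgirr.ne_zero
  have hlog2 : 0 < log 2 := log_pos (by norm_num)
  -- the leading coefficient of `g`
  have hlf : |f.leadingCoeff| = 1 := by
    have h1 : 1 ≤ |f.leadingCoeff| := Int.one_le_abs (leadingCoeff_ne_zero.mpr hirr.ne_zero)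
    have h2 := leadingCoeff_le_mahlerMeasure (f.map (Int.castRingHom ℂ))
    rw [leadingCoeff_map_of_injective hinj, eq_intCast, Complex.norm_intCast] at h2
    by_contra hne
    have h3 : 2 ≤ |f.leadingCoeff| := by omega
    have h4 : (2:ℝ) ≤ |(f.leadingCoeff : ℝ)| := by exact_mod_cast h3
    linarith
  rw [hf, hcomp_leadingCoeff hd, abs_mul, abs_pow] at hlf
  have hlg : |g.leadingCoeff| = 1 :=
    Int.eq_one_of_dvd_one (abs_nonneg _) (Dvd.intro _ hlf)
  -- the sum of the measures
  have hprod := hcomp_map g u (X ^ e)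
  have hMf : (f.map (Int.castRingHom ℂ)).mahlerMeasure =
      ((g.map (Int.castRingHom ℂ)).roots.map (fun β => (Pb u e β).mahlerMeasure)).prod := by
    rw [hf, hprod, mahlerMeasure_mul, mahlerMeasure_const, Complex.norm_intCast,
      prod_mahlerMeasure_eq_mahlerMeasure_prod, Multiset.map_map]
    have : |(g.leadingCoeff : ℝ)| = 1 := by exact_mod_cast hlg
    rw [this, one_mul]
    rfl
  set G := (g.map (Int.castRingHom ℂ)).roots with hG
  obtain ⟨hlogM, _⟩ := log_prod_map' (S := G) (F := fun β => (Pb u e β).mahlerMeasure)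
    (fun β _ => Pb_measure he β)
  rw [← hMf] at hlogM
  have hMpos : 0 < (f.map (Int.castRingHom ℂ)).mahlerMeasure :=
    mahlerMeasure_pos_of_ne_zero ((Polynomial.map_ne_zero_iff hinj).mpr hirr.ne_zero)
  have hlogle : (G.map (fun β => log (Pb u e β).mahlerMeasure)).sum ≤ log 2 := by
    rw [← hlogM]
    exact log_le_log hMpos hM.le
  have hVnn : ∀ β ∈ G, 0 ≤ log (Pb u e β).mahlerMeasure := fun β _ => log_nonneg (Pb_measure he β)
  have hVle : ∀ β ∈ G, log (Pb u e β).mahlerMeasure ≤ log 2 := by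
    intro β hβ
    refine le_trans ?_ hlogle
    apply Multiset.single_le_sum
    · intro y hy
      rw [Multiset.mem_map] at hy
      obtain ⟨b, hb, rfl⟩ := hy
      exact hVnn b hb
    · exact Multiset.mem_map_of_mem _ hβ
  obtain ⟨β₁, hβ₁, β₂, hβ₂, h12⟩ := exists_far hgirr hlg hk
  have hmp : ∀ β ∈ G, mp (Pb u e β) ≤ log (Pb u e β).mahlerMeasure + 19 * log 2 := by
    intro β hβ
    rcases le_or_gt (1 / 2) ‖β - β₁‖ with h1 | h1
    · have h2 := mp_Pb he h0 h1
      have h3 := hVle β₁ hβ₁
      linarith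
    · have h4 : 1 / 2 ≤ ‖β - β₂‖ := by
        have h5 : ‖β₁ - β₂‖ ≤ ‖β - β₁‖ + ‖β - β₂‖ := by
          have : β₁ - β₂ = -(β - β₁) + (β - β₂) := by ring
          rw [this]
          refine (norm_add_le _ _).trans ?_
          rw [norm_neg]
        linarith
      have h2 := mp_Pb he h0 h4
      have h3 := hVle β₂ hβ₂
      linarith
  have hsum : ∀ S : Multiset ℂ, (∀ β ∈ S, β ∈ G) → (S.map (fun β => mp (Pb u e β))).sum ≤
      (S.map (fun β => log (Pb u e β).mahlerMeasure)).sum + S.card * (19 * log 2) := by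
    intro S hS
    induction S using Multiset.induction_on with
    | empty => simp
    | cons a S ih =>
      rw [Multiset.map_cons, Multiset.sum_cons, Multiset.map_cons, Multiset.sum_cons, Multiset.card_cons]
      have h1 := ih (fun b hb => hS b (Multiset.mem_cons_of_mem hb))
      have h2 := hmp a (hS a (Multiset.mem_cons_self a S))
      push_cast
      linarith
  have hcard : G.card = g.natDegree := card_roots_map g
  have h1 := hsum G (fun β hβ => hβ)
  have h2 := mp_prod_le G (fun β => Pb u e β)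
  have h3 : mp (f.map (Int.castRingHom ℂ)) ≤ mp (G.map (fun β => Pb u e β)).prod := by
    rw [hf, hprod]
    refine (mp_mul_le).trans ?_
    have h4 : mp (C ((g.leadingCoeff : ℤ) : ℂ)) = 0 := by
      unfold mp
      have h5 : |(g.leadingCoeff : ℝ)| = 1 := by exact_mod_cast hlg
      simp only [eval_C, Complex.norm_intCast, h5, posLog_one]
      exact circleAverage_const _ _ _
    rw [h4, zero_add]
    exact le_refl _
  rw [hcard] at h1
  have hk1 : (1:ℝ) ≤ g.natDegree := by exact_mod_cast (by omega : 1 ≤ g.natDegree)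
  nlinarith

/-- **Lehmer's problem for compositions.** -/
theorem main_smt : ∃ c : ℝ, 0 < c ∧ ∀ (g u : ℤ[X]) (e : ℕ), 2 ≤ g.natDegree → e < u.natDegree →
    Irreducible (hcomp g u (X ^ e)) →
    1 < ((hcomp g u (X ^ e)).map (Int.castRingHom ℂ)).mahlerMeasure →
    c / (g.natDegree : ℝ) ^ 3 ≤ log ((hcomp g u (X ^ e)).map (Int.castRingHom ℂ)).mahlerMeasure := by
  obtain ⟨c1, hc1, hc⟩ := pair_main
  have hlog2 : 0 < log 2 := log_pos (by norm_num)
  set c := min (c1 / (21 : ℝ) ^ 3) (log 2) with hcdef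
  have hc0 : 0 < c := lt_min (by positivity) hlog2
  refine ⟨c, hc0, ?_⟩
  intro g u e hk he hirr hM
  have hinj : Function.Injective (Int.castRingHom ℂ) := (Int.castRingHom ℂ).injective_int
  have hd : (X ^ e : ℤ[X]).natDegree < u.natDegree := by rwa [Xe_natDegree]
  set f := hcomp g u (X ^ e) with hf
  have hk1 : (1:ℝ) ≤ g.natDegree := by exact_mod_cast (by omega : 1 ≤ g.natDegree)
  have hk3 : (1:ℝ) ≤ (g.natDegree : ℝ) ^ 3 := one_le_pow₀ hk1
  rcases le_or_gt 2 (f.map (Int.castRingHom ℂ)).mahlerMeasure with hbig | hbig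
  · have h1 : c ≤ log 2 := min_le_right _ _
    have h2 := log_le_log (by norm_num) hbig
    have h3 : c / (g.natDegree : ℝ) ^ 3 ≤ c := div_le_self hc0.le hk3
    linarith
  have hg0 : g ≠ 0 := by
    rintro rfl
    simp at hk
  have hu0 : u ≠ 0 := by
    rintro rfl
    simp at he
  have h0 : e = 0 ∨ u.coeff 0 ≠ 0 := by
    by_contra hcon
    push Not at hcon
    obtain ⟨he0, hu⟩ := hcon
    have hX : X ∣ f := by
      rw [X_dvd_iff, hf]
      unfold hcomp
      rw [finsetSum_coeff]
      apply Finset.sum_eq_zero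
      intro i hi
      rw [Finset.mem_range] at hi
      rw [coeff_zero_eq_eval_zero, eval_mul, eval_mul, eval_pow, eval_pow, eval_pow, eval_X,
        ← coeff_zero_eq_eval_zero u, hu]
      rcases Nat.eq_zero_or_pos i with h1 | h1
      · subst h1
        rw [zero_pow he0, zero_pow (by omega : g.natDegree - 0 ≠ 0)]
        ring
      · rw [zero_pow (by omega : i ≠ 0)]
        ring
    obtain ⟨q, hq⟩ := hX
    have h1 : IsUnit q := by
      rcases hirr.isUnit_or_isUnit hq with h | h
      · exact absurd h not_isUnit_X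
      · exact h
    have h2 := natDegree_eq_zero_of_isUnit h1
    have h3 := congrArg Polynomial.natDegree hq
    rw [natDegree_mul X_ne_zero h1.ne_zero, natDegree_X, h2, hf, hcomp_natDegree hg0 hd] at h3
    have : 2 * 1 ≤ g.natDegree * u.natDegree := Nat.mul_le_mul hk (by omega)
    omega
  have hmp := mp_hcomp he h0 hk hirr hbig
  rw [← hf] at hmp
  have hfn : f.natDegree ≠ 0 := by
    rw [hf, hcomp_natDegree hg0 hd]
    have : 2 * 1 ≤ g.natDegree * u.natDegree := Nat.mul_le_mul hk (by omega)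
    omega
  have hndvd : ¬ f ∣ (1 : ℤ[X]) := by
    intro h
    exact hirr.not_isUnit (isUnit_of_dvd_one h)
  have h1 := hc f 1 1 one_pos hirr hndvd hM
  have h2 : circleAverage (PM f 1 1) 0 1 = mp (f.map (Int.castRingHom ℂ)) := by
    unfold mp
    congr 1
    ext z
    unfold PM
    rw [posLog_eq_log_max_one (norm_nonneg _), pow_one, map_one, norm_one, max_comm,
      Polynomial.aeval_def, Polynomial.eval_map]
    rfl
  rw [h2, natDegree_one] at h1
  have hmp0 := mp_nonneg (f.map (Int.castRingHom ℂ))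
  simp only [Nat.cast_zero, zero_div, add_zero, one_mul, Nat.cast_one, div_one] at h1
  refine le_trans ?_ h1
  have hl21 : log 2 ≤ 1 := by
    have := Real.log_two_lt_d9
    linarith
  have h3 : 1 + mp (f.map (Int.castRingHom ℂ)) ≤ 21 * g.natDegree := by nlinarith
  have h4 : c1 / (21 * (g.natDegree : ℝ)) ^ 3 ≤ c1 / (1 + mp (f.map (Int.castRingHom ℂ))) ^ 3 := by
    apply div_le_div_of_nonneg_left hc1.le (by positivity)
    exact pow_le_pow_left₀ (by positivity) h3 3
  refine le_trans ?_ h4
  rw [mul_pow, ← div_div]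
  exact div_le_div_of_nonneg_right (min_le_left _ _) (by positivity)

end Pool.Agent.Zk21.Smt
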