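import Mathlib
import Pool.Agent.H388SL.Energy

/-!
# A positive definite kernel on the disc folded along the real axis
-/

set_option autoImplicit false

open Complex Finset

namespace Pool.Agent.Zk21.Un

open Pool.Agent.H388SL

/-- the folded kernel -/
noncomputable def kap (r : ℝ) (z w : ℂ) : ℝ :=
  - Real.log ‖1 - (r : ℂ) * (z * starRingEnd ℂ w)‖ - Real.log ‖1 - (r : ℂ) * (z * w)‖

lemma sub_le_conj {z w : ℂ} (hz : ‖z‖ ≤ 1) (hw : ‖w‖ ≤ 1) :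
    ‖z - w‖ ≤ ‖1 - z * starRingEnd ℂ w‖ := by
  have h := aux_sq z w
  have h1 : 0 ≤ (1 - ‖z‖ ^ 2) * (1 - ‖w‖ ^ 2) := by
    apply mul_nonneg <;> nlinarith [norm_nonneg z, norm_nonneg w]
  exact le_of_sq_le_sq (by linarith) (norm_nonneg _)

lemma one_sub_pos {r : ℝ} (hr0 : 0 ≤ r) (_hr1 : r < 1) {u : ℂ} (hu : ‖u‖ ≤ 1) :
    1 - r ≤ ‖1 - (r : ℂ) * u‖ := by
  have h1 : ‖(r : ℂ) * u‖ ≤ r := by
    rw [norm_mul, Complex.norm_real, Real.norm_of_nonneg hr0]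
    nlinarith [norm_nonneg u]
  have h2 := norm_sub_norm_le (1 : ℂ) ((r : ℂ) * u)
  rw [norm_one] at h2
  linarith

lemma mul_le1 {z w : ℂ} (hz : ‖z‖ ≤ 1) (hw : ‖w‖ ≤ 1) : ‖z * w‖ ≤ 1 := by
  rw [norm_mul]
  exact mul_le_one₀ hz (norm_nonneg _) hw

lemma mul_conj_le1 {z w : ℂ} (hz : ‖z‖ ≤ 1) (hw : ‖w‖ ≤ 1) : ‖z * starRingEnd ℂ w‖ ≤ 1 := by
  rw [norm_mul, RCLike.norm_conj]
  exact mul_le_one₀ hz (norm_nonneg _) hw

/-- the diagonal bound -/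
lemma kap_le {r : ℝ} (hr0 : 0 ≤ r) (hr1 : r < 1) {z w : ℂ} (hz : ‖z‖ ≤ 1) (hw : ‖w‖ ≤ 1) :
    kap r z w ≤ 2 * Real.log (1 / (1 - r)) := by
  unfold kap
  have h1 := Real.log_le_log (by linarith) (one_sub_pos hr0 hr1 (mul_conj_le1 hz hw))
  have h2 := Real.log_le_log (by linarith) (one_sub_pos hr0 hr1 (mul_le1 hz hw))
  rw [one_div, Real.log_inv]
  linarith

/-- the basic inequality -/
lemma pair_bound {r : ℝ} (hr0 : 0 ≤ r) (hr1 : r < 1) {z w : ℂ} (hz : ‖z‖ ≤ 1) (hw : ‖w‖ ≤ 1)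
    (hz0 : z ≠ 0) (hw0 : w ≠ 0) (hne : z + z⁻¹ ≠ w + w⁻¹) :
    Real.log ‖(z + z⁻¹) - (w + w⁻¹)‖ ≤
      - kap r z w + 2 * Real.log (2 / (1 + r)) - Real.log ‖z‖ - Real.log ‖w‖ := by
  have e1 : (z + z⁻¹) - (w + w⁻¹) = (z - w) * (z * w - 1) / (z * w) := by
    field_simp
    ring
  have h0 : (z + z⁻¹) - (w + w⁻¹) ≠ 0 := sub_ne_zero.mpr hne
  have hzw : z - w ≠ 0 := by
    intro h
    apply h0
    rw [e1, h, zero_mul, zero_div]
  have hzw1 : z * w - 1 ≠ 0 := by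
    intro h
    apply h0
    rw [e1, h, mul_zero, zero_div]
  rw [e1, norm_div, norm_mul, norm_mul, Real.log_div
    (mul_ne_zero (norm_ne_zero_iff.mpr hzw) (norm_ne_zero_iff.mpr hzw1))
    (mul_ne_zero (norm_ne_zero_iff.mpr hz0) (norm_ne_zero_iff.mpr hw0)),
    Real.log_mul (norm_ne_zero_iff.mpr hzw) (norm_ne_zero_iff.mpr hzw1),
    Real.log_mul (norm_ne_zero_iff.mpr hz0) (norm_ne_zero_iff.mpr hw0)]
  have hc : (0:ℝ) < 2 / (1 + r) := by positivity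
  have h1 : Real.log ‖z - w‖ ≤ Real.log (2 / (1 + r)) +
      Real.log ‖1 - (r : ℂ) * (z * starRingEnd ℂ w)‖ := by
    have g1 := one_sub_pos hr0 hr1 (mul_conj_le1 hz hw)
    rw [← Real.log_mul hc.ne' (by linarith)]
    apply Real.log_le_log (norm_pos_iff.mpr hzw)
    exact (sub_le_conj hz hw).trans (one_sub_le hr0 hr1 _ (mul_conj_le1 hz hw))
  have h2 : Real.log ‖z * w - 1‖ ≤ Real.log (2 / (1 + r)) +
      Real.log ‖1 - (r : ℂ) * (z * w)‖ := by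
    have g1 := one_sub_pos hr0 hr1 (mul_le1 hz hw)
    rw [← Real.log_mul hc.ne' (by linarith)]
    apply Real.log_le_log (norm_pos_iff.mpr hzw1)
    rw [norm_sub_rev]
    exact one_sub_le hr0 hr1 _ (mul_le1 hz hw)
  unfold kap
  linarith

lemma kap_hasSum {r : ℝ} (hr0 : 0 ≤ r) (hr1 : r < 1) {z w : ℂ} (hz : ‖z‖ ≤ 1) (hw : ‖w‖ ≤ 1) :
    HasSum (fun m : ℕ => 2 * r ^ m / m * (z ^ m).re * (w ^ m).re) (kap r z w) := by
  have key : ∀ u : ℂ, ‖u‖ ≤ 1 → HasSum (fun m : ℕ => (((r : ℂ) * u) ^ m / m).re)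
      (- Real.log ‖1 - (r : ℂ) * u‖) := by
    intro u hu
    have hlt : ‖(r : ℂ) * u‖ < 1 := by
      rw [norm_mul, Complex.norm_real, Real.norm_of_nonneg hr0]
      nlinarith [norm_nonneg u]
    have h := Complex.hasSum_re (Complex.hasSum_taylorSeries_neg_log hlt)
    rw [Complex.neg_re, Complex.log_re] at h
    exact h
  have h1 := (key _ (mul_conj_le1 hz hw)).add (key _ (mul_le1 hz hw))
  unfold kap
  rw [sub_eq_add_neg]
  convert h1 using 1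
  ext m
  have e : ∀ u : ℂ, (((r : ℂ) * u) ^ m / m).re = r ^ m / m * (u ^ m).re := by
    intro u
    have : ((r : ℂ) * u) ^ m / m = ((r ^ m / m : ℝ) : ℂ) * u ^ m := by
      push_cast
      ring
    rw [this, Complex.re_ofReal_mul]
  rw [e, e, mul_pow, mul_pow, ← map_pow, Complex.mul_re, Complex.mul_re, Complex.conj_re,
    Complex.conj_im]
  ring

/-- the Cauchy-Schwarz inequality for the kernel and its pull back under the `p`-th power -/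
lemma energy_cs {ι κ : Type*} (s : Finset ι) (t : Finset κ) (z : ι → ℂ) (w : κ → ℂ)
    (hz : ∀ i ∈ s, ‖z i‖ ≤ 1) (hw : ∀ l ∈ t, ‖w l‖ ≤ 1) {ρ : ℝ} (h0 : 0 < ρ) (h1 : ρ < 1)
    {p : ℕ} (hp : 0 < p) {σ : ℝ} (hσ : 0 < σ) :
    - 2 * ∑ i ∈ s, ∑ l ∈ t, kap (ρ ^ p) (z i ^ p) (w l) ≤
      p / σ * ∑ i ∈ s, ∑ j ∈ s, kap ρ (z i) (z j) +
        σ * ∑ l ∈ t, ∑ m ∈ t, kap (ρ ^ p) (w l) (w m) := by
  have hp0 : (0:ℝ) ≤ ρ ^ p := by positivity
  have hp1 : ρ ^ p < 1 := pow_lt_one₀ h0.le h1 hp.ne'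
  have hpR : (p : ℝ) ≠ 0 := by exact_mod_cast hp.ne'
  set A : ℕ → ℝ := fun n => ∑ i ∈ s, (z i ^ n).re with hA
  set B : ℕ → ℝ := fun n => ∑ l ∈ t, (w l ^ n).re with hB
  have hzp : ∀ i ∈ s, ‖z i ^ p‖ ≤ 1 := by
    intro i hi
    rw [norm_pow]
    exact pow_le_one₀ (norm_nonneg _) (hz i hi)
  have F1 : HasSum (fun m : ℕ => 2 * (ρ ^ p) ^ m / m * A (p * m) * B m)
      (∑ i ∈ s, ∑ l ∈ t, kap (ρ ^ p) (z i ^ p) (w l)) := by
    have h := hasSum_sum (s := s) fun i hi => hasSum_sum (s := t) fun l hl =>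
      kap_hasSum hp0 hp1 (hzp i hi) (hw l hl)
    convert h using 1
    ext m
    rw [hA, hB]
    simp only
    rw [mul_assoc, Finset.sum_mul_sum, Finset.mul_sum]
    refine Finset.sum_congr rfl fun i _ => ?_
    rw [Finset.mul_sum]
    refine Finset.sum_congr rfl fun l _ => ?_
    rw [← pow_mul]
    ring_nf
  have F2 : HasSum (fun m : ℕ => 2 * ρ ^ m / m * A m ^ 2)
      (∑ i ∈ s, ∑ j ∈ s, kap ρ (z i) (z j)) := by
    have h := hasSum_sum (s := s) fun i hi => hasSum_sum (s := s) fun j hj =>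
      kap_hasSum h0.le h1 (hz i hi) (hz j hj)
    convert h using 1
    ext m
    rw [hA]
    simp only
    rw [sq, Finset.sum_mul_sum, Finset.mul_sum]
    refine Finset.sum_congr rfl fun i _ => ?_
    rw [Finset.mul_sum]
    refine Finset.sum_congr rfl fun l _ => ?_
    ring
  have F3 : HasSum (fun m : ℕ => 2 * (ρ ^ p) ^ m / m * B m ^ 2)
      (∑ l ∈ t, ∑ m ∈ t, kap (ρ ^ p) (w l) (w m)) := by
    have h := hasSum_sum (s := t) fun i hi => hasSum_sum (s := t) fun j hj =>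
      kap_hasSum hp0 hp1 (hw i hi) (hw j hj)
    convert h using 1
    ext m
    rw [hB]
    simp only
    rw [sq, Finset.sum_mul_sum, Finset.mul_sum]
    refine Finset.sum_congr rfl fun i _ => ?_
    rw [Finset.mul_sum]
    refine Finset.sum_congr rfl fun l _ => ?_
    ring
  -- the subseries
  have hnn : ∀ m : ℕ, 0 ≤ 2 * ρ ^ m / m * A m ^ 2 := by
    intro m
    positivity
  have hinj : Function.Injective (fun m : ℕ => p * m) := by
    intro a b hab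
    exact Nat.eq_of_mul_eq_mul_left hp hab
  have hsum : Summable (fun m : ℕ => 2 * ρ ^ (p * m) / ((p * m : ℕ) : ℝ) * A (p * m) ^ 2) :=
    F2.summable.comp_injective hinj
  have hle : (∑' m : ℕ, 2 * ρ ^ (p * m) / ((p * m : ℕ) : ℝ) * A (p * m) ^ 2) ≤
      ∑ i ∈ s, ∑ j ∈ s, kap ρ (z i) (z j) := by
    have h := tsum_comp_le_tsum_of_inj F2.summable hnn hinj
    rw [F2.tsum_eq] at h
    exact h
  have F4 : HasSum (fun m : ℕ => p / σ * (2 * ρ ^ (p * m) / ((p * m : ℕ) : ℝ) * A (p * m) ^ 2) +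
      σ * (2 * (ρ ^ p) ^ m / m * B m ^ 2))
      (p / σ * (∑' m : ℕ, 2 * ρ ^ (p * m) / ((p * m : ℕ) : ℝ) * A (p * m) ^ 2) +
        σ * ∑ l ∈ t, ∑ m ∈ t, kap (ρ ^ p) (w l) (w m)) :=
    (hsum.hasSum.mul_left _).add (F3.mul_left _)
  have F5 := F1.mul_left (-2 : ℝ)
  have h6 : - 2 * ∑ i ∈ s, ∑ l ∈ t, kap (ρ ^ p) (z i ^ p) (w l) ≤
      p / σ * (∑' m : ℕ, 2 * ρ ^ (p * m) / ((p * m : ℕ) : ℝ) * A (p * m) ^ 2) +
        σ * ∑ l ∈ t, ∑ m ∈ t, kap (ρ ^ p) (w l) (w m) := by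
    refine hasSum_le ?_ F5 F4
    intro m
    rcases Nat.eq_zero_or_pos m with hm | hm
    · subst hm
      simp
    have hmR : (0:ℝ) < m := by exact_mod_cast hm
    have e1 : p / σ * (2 * ρ ^ (p * m) / ((p * m : ℕ) : ℝ) * A (p * m) ^ 2) =
        2 * (ρ ^ p) ^ m / m * (A (p * m) ^ 2 / σ) := by
      rw [← pow_mul]
      push_cast
      field_simp
    rw [e1]
    have e2 : -2 * (2 * (ρ ^ p) ^ m / m * A (p * m) * B m) =
        2 * (ρ ^ p) ^ m / m * (-2 * (A (p * m) * B m)) := by ring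
    have e3 : σ * (2 * (ρ ^ p) ^ m / m * B m ^ 2) = 2 * (ρ ^ p) ^ m / m * (σ * B m ^ 2) := by ring
    rw [e2, e3, ← mul_add]
    apply mul_le_mul_of_nonneg_left _ (by positivity)
    have h7 : 0 ≤ (A (p * m) + σ * B m) ^ 2 / σ := by positivity
    have e4 : (A (p * m) + σ * B m) ^ 2 / σ = A (p * m) ^ 2 / σ + 2 * (A (p * m) * B m) + σ * B m ^ 2 := by
      field_simp
      ring
    rw [e4] at h7
    linarith
  have hpσ : 0 ≤ (p : ℝ) / σ := by positivity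
  have h8 := mul_le_mul_of_nonneg_left hle hpσ
  linarith

end Pool.Agent.Zk21.Un
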