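import Mathlib
import Pool.Agent.Zk21.UnA
import Pool.Agent.Zk21.SmtA

/-!
# Fibres of a polynomial in `x + 1 / x`
-/

set_option autoImplicit false

open Polynomial Metric Real

namespace Pool.Agent.Zk21.Un

open Pool.Agent.R328 Pool.Agent.Zk21.Smt

/-- averaging over the circle -/
lemma avg_poly {ι ι' : Type*} (s : Finset ι) (s' : Finset ι') (w w' K : ℝ) (Q : ι → ℂ[X])
    (Q' : ι' → ℂ[X]) (hQ : ∀ i ∈ s, Q i ≠ 0) (hQ' : ∀ i ∈ s', Q' i ≠ 0)
    (h : ∀ ξ : ℂ, ‖ξ‖ = 1 → (∀ i ∈ s, (Q i).eval ξ ≠ 0) → (∀ i ∈ s', (Q' i).eval ξ ≠ 0) →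
      w * ∑ i ∈ s, log ‖(Q i).eval ξ‖ + w' * ∑ i ∈ s', log ‖(Q' i).eval ξ‖ ≤ K) :
    w * ∑ i ∈ s, log (Q i).mahlerMeasure + w' * ∑ i ∈ s', log (Q' i).mahlerMeasure ≤ K := by
  have hZ : (⋃ i ∈ s, {x : ℂ | (Q i).eval x = 0}).Countable :=
    Set.Countable.biUnion (Finset.countable_toSet s) fun i hi => roots_countable (hQ i hi)
  have hZ' : (⋃ i ∈ s', {x : ℂ | (Q' i).eval x = 0}).Countable :=
    Set.Countable.biUnion (Finset.countable_toSet s') fun i hi => roots_countable (hQ' i hi)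
  have hI : CircleIntegrable (∑ i ∈ s, fun x => log ‖(Q i).eval x‖) 0 1 :=
    CircleIntegrable.sum _ fun i _ => log_int (Q i)
  have hI' : CircleIntegrable (∑ i ∈ s', fun x => log ‖(Q' i).eval x‖) 0 1 :=
    CircleIntegrable.sum _ fun i _ => log_int (Q' i)
  have h1 : circleAverage (w • (∑ i ∈ s, fun x => log ‖(Q i).eval x‖) +
      w' • (∑ i ∈ s', fun x => log ‖(Q' i).eval x‖)) 0 1 ≤
      circleAverage (fun _ => K) 0 1 := by
    apply circleAverage_mono_off ((hI.const_smul).add (hI'.const_smul)) (circleIntegrable_const _ _ _)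
      (hZ.union hZ')
    intro x hx hx2
    rw [Set.mem_union, not_or] at hx2
    obtain ⟨h2, h3⟩ := hx2
    simp only [Set.mem_iUnion, Set.mem_ofPred_eq, not_exists] at h2 h3
    rw [mem_sphere_zero_iff_norm] at hx
    have h4 := h x hx h2 h3
    simp only [Pi.add_apply, Pi.smul_apply, Finset.sum_apply, smul_eq_mul]
    exact h4
  rw [circleAverage_add (hI.const_smul) (hI'.const_smul), circleAverage_smul, circleAverage_smul,
    circleAverage_sum fun i _ => log_int (Q i), circleAverage_sum fun i _ => log_int (Q' i),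
    circleAverage_const, smul_eq_mul, smul_eq_mul] at h1
  have e : ∀ P : ℂ[X], circleAverage (fun x => log ‖P.eval x‖) 0 1 = log P.mahlerMeasure := by
    intro P
    rw [← logMahlerMeasure_eq_log_MahlerMeasure]; rfl
  simp_rw [e] at h1
  exact h1

lemma exists_fold (Y : ℂ) : ∃ z : ℂ, (z ≠ 0 ∧ ‖z‖ ≤ 1) ∧ z + z⁻¹ = Y := by
  have h1 : (X ^ 2 - C Y * X + 1 : ℂ[X]).degree ≠ 0 := by
    have : (X ^ 2 - C Y * X + 1 : ℂ[X]).degree = 2 := by compute_degree!
    rw [this]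
    decide
  obtain ⟨z, hz⟩ := IsAlgClosed.exists_root (X ^ 2 - C Y * X + 1 : ℂ[X]) h1
  have h2 : z ^ 2 - Y * z + 1 = 0 := by simpa [IsRoot] using hz
  have h3 : z ≠ 0 := by
    rintro rfl
    norm_num at h2
  have h4 : z + z⁻¹ = Y := by
    field_simp
    linear_combination h2
  rcases le_or_gt ‖z‖ 1 with h5 | h5
  · exact ⟨z, ⟨h3, h5⟩, h4⟩
  · refine ⟨z⁻¹, ⟨inv_ne_zero h3, ?_⟩, ?_⟩
    · rw [norm_inv]
      exact inv_le_one_of_one_le₀ h5.le
    · rw [inv_inv, add_comm]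
      exact h4

lemma exists_enum {n : ℕ} (S : Multiset ℂ) (hS : S.card = n) :
    ∃ y : Fin n → ℂ, Finset.univ.val.map y = S := by
  subst hS
  refine ⟨fun i => S.toList.get (i.cast (by simp)), ?_⟩
  rw [Fin.univ_val_map]
  have : List.ofFn (fun i : Fin S.card => S.toList.get (i.cast (by simp))) = S.toList := by
    apply List.ext_get
    · simp
    · intro n h1 h2
      simp
  rw [this, Multiset.coe_toList]

lemma norm_eval_enum (A : ℂ[X]) (hA : ‖A.leadingCoeff‖ = 1) :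
    ∃ y : Fin A.natDegree → ℂ, ∀ x, ‖A.eval x‖ = ∏ l, ‖x - y l‖ := by
  obtain ⟨y, hy⟩ := exists_enum A.roots ((IsAlgClosed.splits A).natDegree_eq_card_roots).symm
  refine ⟨y, fun x => ?_⟩
  rw [(IsAlgClosed.splits A).eval_eq_prod_roots x, norm_mul, hA, one_mul, ← hy, Multiset.map_map]
  have : (Multiset.map ((fun a => x - a) ∘ y) Finset.univ.val).prod = ∏ l, (x - y l) := rfl
  rw [this, norm_prod]

section fibre

variable (H : ℂ[X])

lemma exists_fib (hH : ‖H.leadingCoeff‖ = 1) (hd : 0 < H.natDegree) (t : ℂ) :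
    ∃ z : Fin H.natDegree → ℂ, (∀ l, z l ≠ 0 ∧ ‖z l‖ ≤ 1) ∧
      ∀ x, ‖H.eval x - t‖ = ∏ l, ‖x - (z l + (z l)⁻¹)‖ := by
  have h1 : (H - C t).natDegree = H.natDegree := natDegree_sub_C
  have h2 : ‖(H - C t).leadingCoeff‖ = 1 := by
    rw [leadingCoeff_sub_of_degree_lt, hH]
    exact degree_C_le.trans_lt (natDegree_pos_iff_degree_pos.mp hd)
  obtain ⟨y, hy⟩ := norm_eval_enum (H - C t) h2
  choose z hz using fun l : Fin H.natDegree => exists_fold (y (l.cast h1.symm))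
  refine ⟨z, fun l => (hz l).1, fun x => ?_⟩
  have h3 := hy x
  rw [eval_sub, eval_C] at h3
  rw [h3]
  simp_rw [fun l => (hz l).2]
  exact (Fintype.prod_equiv (finCongr h1.symm) _ _ (fun l => rfl)).symm

/-- the points of the closed disc over the fibre of `t` -/
noncomputable def fib (t : ℂ) : Fin H.natDegree → ℂ :=
  Classical.epsilon fun z : Fin H.natDegree → ℂ => (∀ l, z l ≠ 0 ∧ ‖z l‖ ≤ 1) ∧
      ∀ x, ‖H.eval x - t‖ = ∏ l, ‖x - (z l + (z l)⁻¹)‖

variable {H}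

lemma fib_spec (hH : ‖H.leadingCoeff‖ = 1) (hd : 0 < H.natDegree) (t : ℂ) :
    (∀ l, fib H t l ≠ 0 ∧ ‖fib H t l‖ ≤ 1) ∧
      ∀ x, ‖H.eval x - t‖ = ∏ l, ‖x - (fib H t l + (fib H t l)⁻¹)‖ :=
  Classical.epsilon_spec (exists_fib H hH hd t)

variable (H)

/-- the point of the fibre -/
noncomputable def pt (t : ℂ) (l : Fin H.natDegree) : ℂ := fib H t l + (fib H t l)⁻¹

/-- the height of the fibre -/
noncomputable def VV (t : ℂ) : ℝ := ∑ l, - log ‖fib H t l‖

variable {H}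

lemma eval_pt (hH : ‖H.leadingCoeff‖ = 1) (hd : 0 < H.natDegree) (t : ℂ) (l : Fin H.natDegree) :
    H.eval (pt H t l) = t := by
  have h1 := (fib_spec hH hd t).2 (pt H t l)
  rw [Finset.prod_eq_zero (Finset.mem_univ l) (by simp [pt])] at h1
  exact sub_eq_zero.mp (norm_eq_zero.mp h1)

lemma VV_nonneg (hH : ‖H.leadingCoeff‖ = 1) (hd : 0 < H.natDegree) (t : ℂ) : 0 ≤ VV H t := by
  unfold VV
  apply Finset.sum_nonneg
  intro l _
  have h1 := ((fib_spec hH hd t).1 l)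
  have h2 := log_nonpos (norm_nonneg _) h1.2
  linarith

lemma log_eval_sub (hH : ‖H.leadingCoeff‖ = 1) (hd : 0 < H.natDegree) {t x : ℂ}
    (hx : H.eval x - t ≠ 0) : log ‖H.eval x - t‖ = ∑ l, log ‖x - pt H t l‖ := by
  have h1 := (fib_spec hH hd t).2 x
  have h2 : ‖H.eval x - t‖ ≠ 0 := norm_ne_zero_iff.mpr hx
  rw [h1] at h2
  rw [h1, log_prod]
  · rfl
  · intro l _
    exact (Finset.prod_ne_zero_iff.mp h2) l (Finset.mem_univ l)

lemma fold_sub {x z : ℂ} (hx : x ≠ 0) (hz : z ≠ 0) :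
    (x + x⁻¹) - (z + z⁻¹) = (x - z) * (x - z⁻¹) / x := by
  field_simp
  ring

lemma h_analytic (H : ℂ[X]) (t : ℂ) {x : ℂ} (hx : x ≠ 0) :
    AnalyticAt ℂ (fun x => H.eval (x + x⁻¹) - t) x := by
  have h1 : AnalyticAt ℂ (fun x : ℂ => x + x⁻¹) x := analyticAt_id.add (analyticAt_inv hx)
  have h2 : AnalyticAt ℂ (fun x : ℂ => H.eval x) ((fun x : ℂ => x + x⁻¹) x) :=
    H.differentiable.analyticAt _
  exact (AnalyticAt.fun_comp (g := fun x : ℂ => H.eval x) (f := fun x : ℂ => x + x⁻¹) h2 h1).sub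
    analyticAt_const

lemma sphere_ne_zero {x : ℂ} (hx : x ∈ sphere (0:ℂ) |(1:ℝ)|) : x ≠ 0 := by
  rw [abs_one, mem_sphere_zero_iff_norm] at hx
  rintro rfl
  simp at hx

lemma h_int (H : ℂ[X]) (t : ℂ) :
    CircleIntegrable (fun x => log ‖H.eval (x + x⁻¹) - t‖) 0 1 := by
  apply MeromorphicOn.circleIntegrable_log_norm
  intro z hz
  exact (h_analytic H t (sphere_ne_zero hz)).meromorphicAt

lemma h_max_int (H : ℂ[X]) (t : ℂ) {c : ℝ} (hc : 0 < c) :
    CircleIntegrable (fun x => log (max ‖H.eval (x + x⁻¹) - t‖ c)) 0 1 := by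
  apply ContinuousOn.circleIntegrable'
  intro x hx
  have h1 : ContinuousAt (fun x => H.eval (x + x⁻¹) - t) x :=
    (h_analytic H t (sphere_ne_zero hx)).continuousAt
  have h2 : ContinuousAt (fun x => max ‖H.eval (x + x⁻¹) - t‖ c) x := h1.norm.max continuousAt_const
  exact (h2.log (ne_of_gt (lt_of_lt_of_le hc (le_max_right _ _)))).continuousWithinAt

/-- the zero set on the circle is countable -/
lemma h_zeros (hH : ‖H.leadingCoeff‖ = 1) (hd : 0 < H.natDegree) (t : ℂ) :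
    ({x | x ≠ 0 ∧ H.eval (x + x⁻¹) - t = 0} : Set ℂ).Countable := by
  apply Set.Countable.mono (s₂ := Set.range (fib H t) ∪ Set.range (fun l => (fib H t l)⁻¹))
  · intro x hx
    obtain ⟨hx0, hx1⟩ := hx
    have h1 := (fib_spec hH hd t).2 (x + x⁻¹)
    rw [hx1, norm_zero, eq_comm, Finset.prod_eq_zero_iff] at h1
    obtain ⟨l, _, h2⟩ := h1
    have h3 := norm_eq_zero.mp h2
    rw [fold_sub hx0 ((fib_spec hH hd t).1 l).1, div_eq_zero_iff] at h3
    rcases h3 with h3 | h3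
    · rcases mul_eq_zero.mp h3 with h4 | h4
      · exact Or.inl ⟨l, (sub_eq_zero.mp h4).symm⟩
      · exact Or.inr ⟨l, (sub_eq_zero.mp h4).symm⟩
    · exact absurd h3 hx0
  · exact (Set.countable_range _).union (Set.countable_range _)

lemma VV_eq (hH : ‖H.leadingCoeff‖ = 1) (hd : 0 < H.natDegree) (t : ℂ) :
    circleAverage (fun x => log ‖H.eval (x + x⁻¹) - t‖) 0 1 = VV H t := by
  have hX : ∀ a : ℂ, (X - C a : ℂ[X]) ≠ 0 := fun a => X_sub_C_ne_zero a
  have e : ∀ P : ℂ[X], circleAverage (fun x => log ‖P.eval x‖) 0 1 = log P.mahlerMeasure := by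
    intro P
    rw [← logMahlerMeasure_eq_log_MahlerMeasure]; rfl
  have hI : ∀ l, CircleIntegrable ((fun x => log ‖(X - C (fib H t l) : ℂ[X]).eval x‖) +
      fun x => log ‖(X - C ((fib H t l)⁻¹) : ℂ[X]).eval x‖) 0 1 :=
    fun l => (log_int _).add (log_int _)
  have key : circleAverage (fun x => log ‖H.eval (x + x⁻¹) - t‖) 0 1 =
      circleAverage (∑ l, ((fun x => log ‖(X - C (fib H t l) : ℂ[X]).eval x‖) +
      fun x => log ‖(X - C ((fib H t l)⁻¹) : ℂ[X]).eval x‖)) 0 1 := by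
    have hpt : ∀ x ∈ sphere (0:ℂ) 1, x ∉ ({x | x ≠ 0 ∧ H.eval (x + x⁻¹) - t = 0} : Set ℂ) →
        log ‖H.eval (x + x⁻¹) - t‖ =
        (∑ l, ((fun x => log ‖(X - C (fib H t l) : ℂ[X]).eval x‖) +
          fun x => log ‖(X - C ((fib H t l)⁻¹) : ℂ[X]).eval x‖)) x := by
      intro x hx hx2
      have hx0 : x ≠ 0 := sphere_ne_zero (by rwa [abs_one])
      rw [mem_sphere_zero_iff_norm] at hx
      have hx3 : H.eval (x + x⁻¹) - t ≠ 0 := by
        intro h
        exact hx2 ⟨hx0, h⟩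
      rw [log_eval_sub hH hd hx3, Finset.sum_apply]
      refine Finset.sum_congr rfl fun l _ => ?_
      have h4 : (x + x⁻¹) - pt H t l ≠ 0 := by
        intro h5
        apply hx3
        have h6 : x + x⁻¹ = pt H t l := sub_eq_zero.mp h5
        rw [h6, eval_pt hH hd, sub_self]
      have h5 : (x + x⁻¹) - pt H t l = (x - fib H t l) * (x - (fib H t l)⁻¹) / x :=
        fold_sub hx0 ((fib_spec hH hd t).1 l).1
      rw [h5] at h4
      have h6 : x - fib H t l ≠ 0 := by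
        intro h7
        apply h4
        rw [h7, zero_mul, zero_div]
      have h7 : x - (fib H t l)⁻¹ ≠ 0 := by
        intro h7
        apply h4
        rw [h7, mul_zero, zero_div]
      rw [h5, norm_div, hx, div_one, norm_mul, log_mul (norm_ne_zero_iff.mpr h6)
        (norm_ne_zero_iff.mpr h7)]
      simp
    apply le_antisymm
    · apply circleAverage_mono_off (h_int H t) (CircleIntegrable.sum _ fun l _ => hI l)
        (h_zeros hH hd t)
      intro x hx hx2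
      exact (hpt x hx hx2).le
    · apply circleAverage_mono_off (CircleIntegrable.sum _ fun l _ => hI l) (h_int H t)
        (h_zeros hH hd t)
      intro x hx hx2
      exact (hpt x hx hx2).ge
  rw [key, circleAverage_sum fun l _ => hI l]
  unfold VV
  refine Finset.sum_congr rfl fun l _ => ?_
  rw [circleAverage_add (log_int _) (log_int _), e, e, mahlerMeasure_X_sub_C, mahlerMeasure_X_sub_C]
  have h1 := ((fib_spec hH hd t).1 l)
  have h2 : 1 ≤ ‖(fib H t l)⁻¹‖ := by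
    rw [norm_inv]
    exact (one_le_inv₀ (norm_pos_iff.mpr h1.1)).mpr h1.2
  rw [max_eq_left h1.2, max_eq_right h2, log_one, zero_add, norm_inv, log_inv]

end fibre

end Pool.Agent.Zk21.Un
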