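import Mathlib
import Pool.Agent.Zk21.UnB

/-!
# Polygons and the energy of fibres
-/

set_option autoImplicit false

open Polynomial Metric Real

namespace Pool.Agent.Zk21.Un

open Pool.Agent.R328 Pool.Agent.Zk21.Smt

/-- the vertices of the regular polygon -/
noncomputable def ZN (N : ℕ) : Finset ℂ := nthRootsFinset N (1 : ℂ)

lemma ZN_card {N : ℕ} (hN : 0 < N) : (ZN N).card = N :=
  (Complex.isPrimitiveRoot_exp N hN.ne').card_nthRootsFinset

lemma ZN_norm {N : ℕ} (hN : 0 < N) {ζ : ℂ} (h : ζ ∈ ZN N) : ‖ζ‖ = 1 := by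
  have h1 : ζ ^ N = 1 := (mem_nthRootsFinset hN (1:ℂ)).mp h
  exact Complex.norm_eq_one_of_pow_eq_one h1 hN.ne'

lemma ZN_prod {N : ℕ} (hN : 0 < N) (x y : ℂ) : x ^ N - y ^ N = ∏ ζ ∈ ZN N, (x - ζ * y) :=
  (Complex.isPrimitiveRoot_exp N hN.ne').pow_sub_pow_eq_prod_sub_mul x y hN

lemma ZN_erase {N : ℕ} (hN : 0 < N) {ζ : ℂ} (h : ζ ∈ ZN N) :
    ∏ ζ' ∈ (ZN N).erase ζ, ‖ζ - ζ'‖ = N := by
  have h1 := X_pow_sub_one_eq_prod hN (Complex.isPrimitiveRoot_exp N hN.ne')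
  have h2 : ‖(derivative (X ^ N - 1 : ℂ[X])).eval ζ‖ =
      ‖(derivative (∏ ζ ∈ nthRootsFinset N (1 : ℂ), (X - C ζ))).eval ζ‖ := by rw [h1]
  have h3 : ∏ ζ ∈ nthRootsFinset N (1 : ℂ), (X - C ζ) =
      (Multiset.map (fun a => X - C a) (ZN N).val).prod := rfl
  have hz : ζ ^ N = 1 := (mem_nthRootsFinset hN (1:ℂ)).mp h
  rw [h3, eval_multiset_prod_X_sub_C_derivative (Finset.mem_val.mpr h)] at h2
  have h4 : (Multiset.map (fun a => ζ - a) ((ZN N).val.erase ζ)).prod =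
      ∏ ζ' ∈ (ZN N).erase ζ, (ζ - ζ') := by
    rw [← Finset.erase_val]; rfl
  rw [h4, norm_prod] at h2
  rw [← h2, derivative_sub, derivative_one, sub_zero, derivative_X_pow, eval_mul, eval_C, eval_pow,
    eval_X, norm_mul, norm_pow, ZN_norm hN h, one_pow, mul_one, Complex.norm_natCast]

/-- the self energy of the polygon -/
lemma ZN_energy {N : ℕ} (hN : 0 < N) {c : ℝ} (hc : 0 < c) :
    (N : ℝ) * ((N - 1) * log c) ≤
      ∑ ζ ∈ ZN N, ∑ ζ' ∈ (ZN N).erase ζ, log (c * ‖ζ - ζ'‖) := by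
  have h1 : ∀ ζ ∈ ZN N, ((N : ℝ) - 1) * log c ≤ ∑ ζ' ∈ (ZN N).erase ζ, log (c * ‖ζ - ζ'‖) := by
    intro ζ hζ
    have h2 : ∑ ζ' ∈ (ZN N).erase ζ, log (c * ‖ζ - ζ'‖) =
        ∑ ζ' ∈ (ZN N).erase ζ, (log c + log ‖ζ - ζ'‖) := by
      refine Finset.sum_congr rfl fun ζ' hζ' => ?_
      rw [log_mul hc.ne']
      exact norm_ne_zero_iff.mpr (sub_ne_zero.mpr (Finset.ne_of_mem_erase hζ').symm)
    rw [h2, Finset.sum_add_distrib, Finset.sum_const, Finset.card_erase_of_mem hζ, ZN_card hN,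
      nsmul_eq_mul, Nat.cast_sub hN, Nat.cast_one, ← log_prod, ZN_erase hN hζ]
    · have : 0 ≤ log (N : ℝ) := log_nonneg (by exact_mod_cast hN)
      linarith
    · intro ζ' hζ'
      exact norm_ne_zero_iff.mpr (sub_ne_zero.mpr (Finset.ne_of_mem_erase hζ').symm)
  have h3 := Finset.sum_le_sum h1
  rw [Finset.sum_const, ZN_card hN, nsmul_eq_mul] at h3
  exact h3

lemma log_pow_sub_pow {N : ℕ} (hN : 0 < N) {w c : ℂ} (hc : c ≠ 0) (h : ∀ ζ ∈ ZN N, w - ζ * c ≠ 0) :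
    ∑ ζ ∈ ZN N, log ‖w - ζ * c‖ ≤ N * log (max ‖w‖ ‖c‖) + log 2 := by
  have hm : 0 < max ‖w‖ ‖c‖ := lt_of_lt_of_le (norm_pos_iff.mpr hc) (le_max_right _ _)
  rw [← log_prod, ← norm_prod, ← ZN_prod hN, ← log_pow, ← log_mul (by positivity) (by norm_num)]
  · apply log_le_log
    · rw [ZN_prod hN, norm_pos_iff]
      exact Finset.prod_ne_zero_iff.mpr h
    · refine (norm_sub_le _ _).trans ?_
      rw [norm_pow, norm_pow, mul_two]
      apply add_le_add
      · exact pow_le_pow_left₀ (norm_nonneg _) (le_max_left _ _) _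
      · exact pow_le_pow_left₀ (norm_nonneg _) (le_max_right _ _) _
  · intro ζ hζ
    exact norm_ne_zero_iff.mpr (h ζ hζ)

/-- the mean of `log max (|h - β|, c)` -/
noncomputable def LL (H : ℂ[X]) (β : ℂ) (c : ℝ) : ℝ :=
  circleAverage (fun x => log (max ‖H.eval (x + x⁻¹) - β‖ c)) 0 1

lemma VV_poly {H : ℂ[X]} (hH : ‖H.leadingCoeff‖ = 1) (hd : 0 < H.natDegree) {N : ℕ} (hN : 0 < N)
    (β : ℂ) {c : ℂ} (hc : c ≠ 0) :
    ∑ ζ ∈ ZN N, VV H (β + ζ * c) ≤ N * LL H β ‖c‖ + log 2 := by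
  have hc' : 0 < ‖c‖ := norm_pos_iff.mpr hc
  have h1 : ∑ ζ ∈ ZN N, VV H (β + ζ * c) =
      circleAverage (∑ ζ ∈ ZN N, fun x => log ‖H.eval (x + x⁻¹) - (β + ζ * c)‖) 0 1 := by
    rw [circleAverage_sum fun ζ _ => h_int H _]
    exact Finset.sum_congr rfl fun ζ _ => (VV_eq hH hd _).symm
  have h2 : circleAverage (∑ ζ ∈ ZN N, fun x => log ‖H.eval (x + x⁻¹) - (β + ζ * c)‖) 0 1 ≤
      circleAverage (((N : ℝ) • fun x => log (max ‖H.eval (x + x⁻¹) - β‖ ‖c‖)) + fun _ => log 2) 0 1 := by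
    apply circleAverage_mono_off (CircleIntegrable.sum _ fun ζ _ => h_int H _)
      (((h_max_int H β hc').const_smul).add (circleIntegrable_const _ _ _))
      (Z := ⋃ ζ ∈ ZN N, {x | x ≠ 0 ∧ H.eval (x + x⁻¹) - (β + ζ * c) = 0})
      (Set.Countable.biUnion (Finset.countable_toSet _) fun ζ _ => h_zeros hH hd _)
    intro x hx hx2
    simp only [Set.mem_iUnion, Set.mem_ofPred_eq, not_exists] at hx2
    have hx0 : x ≠ 0 := sphere_ne_zero (by rwa [abs_one])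
    rw [Finset.sum_apply]
    simp only [Pi.add_apply, Pi.smul_apply, smul_eq_mul]
    have h3 := log_pow_sub_pow hN (w := H.eval (x + x⁻¹) - β) hc (by
      intro ζ hζ h0
      apply hx2 ζ hζ
      refine ⟨hx0, ?_⟩
      rw [← h0]
      ring)
    refine le_trans (le_of_eq ?_) h3
    refine Finset.sum_congr rfl fun ζ _ => ?_
    rw [sub_sub]
  rw [h1]
  refine h2.trans (le_of_eq ?_)
  rw [circleAverage_add ((h_max_int H β hc').const_smul) (circleIntegrable_const _ _ _),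
    circleAverage_smul, circleAverage_const, smul_eq_mul]
  rfl

section blocks

variable {H : ℂ[X]}

/-- the estimate for a block -/
lemma block (hH : ‖H.leadingCoeff‖ = 1) (hd : 0 < H.natDegree) (p : ℕ) {r : ℝ} (hr0 : 0 ≤ r)
    (hr1 : r < 1) (t τ : ℂ)
    (hne : ∀ l, H.eval (fib H t l ^ p + (fib H t l ^ p)⁻¹) - τ ≠ 0) :
    ∑ l, log ‖H.eval (fib H t l ^ p + (fib H t l ^ p)⁻¹) - τ‖ ≤
      - (∑ l, ∑ m, kap r (fib H t l ^ p) (fib H τ m)) +
        2 * (H.natDegree : ℝ) ^ 2 * log (2 / (1 + r)) + p * H.natDegree * VV H t +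
        H.natDegree * VV H τ := by
  have key : ∀ l m, log ‖fib H t l ^ p + (fib H t l ^ p)⁻¹ - pt H τ m‖ ≤
      - kap r (fib H t l ^ p) (fib H τ m) + 2 * log (2 / (1 + r)) + p * (- log ‖fib H t l‖) +
        (- log ‖fib H τ m‖) := by
    intro l m
    obtain ⟨h1, h2⟩ := (fib_spec hH hd t).1 l
    obtain ⟨h3, h4⟩ := (fib_spec hH hd τ).1 m
    have h5 : ‖fib H t l ^ p‖ ≤ 1 := by
      rw [norm_pow]
      exact pow_le_one₀ (norm_nonneg _) h2
    have h6 : fib H t l ^ p + (fib H t l ^ p)⁻¹ ≠ fib H τ m + (fib H τ m)⁻¹ := by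
      intro h7
      apply hne l
      rw [h7]
      have := eval_pt hH hd τ m
      unfold pt at this
      rw [this, sub_self]
    have h7 := pair_bound hr0 hr1 h5 h4 (pow_ne_zero _ h1) h3 h6
    rw [norm_pow, log_pow] at h7
    unfold pt
    linarith
  have h1 : ∑ l, log ‖H.eval (fib H t l ^ p + (fib H t l ^ p)⁻¹) - τ‖ =
      ∑ l, ∑ m, log ‖fib H t l ^ p + (fib H t l ^ p)⁻¹ - pt H τ m‖ :=
    Finset.sum_congr rfl fun l _ => log_eval_sub hH hd (hne l)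
  rw [h1]
  refine (Finset.sum_le_sum fun l _ => Finset.sum_le_sum fun m _ => key l m).trans (le_of_eq ?_)
  simp only [Finset.sum_add_distrib, Finset.sum_neg_distrib, Finset.sum_const, Finset.card_univ,
    Fintype.card_fin, nsmul_eq_mul, VV, ← Finset.mul_sum]
  ring

lemma block_one (hH : ‖H.leadingCoeff‖ = 1) (hd : 0 < H.natDegree) {r : ℝ} (hr0 : 0 ≤ r)
    (hr1 : r < 1) {t τ : ℂ} (hne : t ≠ τ) :
    ∑ l, ∑ m, kap r (fib H t l) (fib H τ m) ≤ - (H.natDegree * log ‖t - τ‖) +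
        2 * (H.natDegree : ℝ) ^ 2 * log (2 / (1 + r)) + H.natDegree * VV H t +
        H.natDegree * VV H τ := by
  have h0 : ∀ l, H.eval (fib H t l ^ 1 + (fib H t l ^ 1)⁻¹) - τ = t - τ := by
    intro l
    rw [pow_one]
    have := eval_pt hH hd t l
    unfold pt at this
    rw [this]
  have h1 := block hH hd 1 hr0 hr1 t τ (by
    intro l
    rw [h0]
    exact sub_ne_zero.mpr hne)
  simp only [h0, Finset.sum_const, Finset.card_univ, Fintype.card_fin, nsmul_eq_mul] at h1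
  simp only [pow_one, Nat.cast_one, one_mul] at h1
  linarith

lemma block_diag (hH : ‖H.leadingCoeff‖ = 1) (hd : 0 < H.natDegree) {r : ℝ} (hr0 : 0 ≤ r)
    (hr1 : r < 1) (t τ : ℂ) :
    ∑ l, ∑ m, kap r (fib H t l) (fib H τ m) ≤
        2 * (H.natDegree : ℝ) ^ 2 * log (1 / (1 - r)) := by
  refine (Finset.sum_le_sum fun l _ => Finset.sum_le_sum fun m _ =>
    kap_le hr0 hr1 ((fib_spec hH hd t).1 l).2 ((fib_spec hH hd τ).1 m).2).trans (le_of_eq ?_)
  simp only [Finset.sum_const, Finset.card_univ, Fintype.card_fin, nsmul_eq_mul]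
  ring

/-- the self energy of a union of fibres -/
lemma self_energy (hH : ‖H.leadingCoeff‖ = 1) (hd : 0 < H.natDegree) {r : ℝ} (hr0 : 0 ≤ r)
    (hr1 : r < 1) {ι : Type*} [DecidableEq ι] (T : Finset ι) (t : ι → ℂ)
    (ht : ∀ a ∈ T, ∀ b ∈ T, a ≠ b → t a ≠ t b) :
    ∑ a ∈ T, ∑ b ∈ T, ∑ l, ∑ m, kap r (fib H (t a) l) (fib H (t b) m) ≤
      - (H.natDegree * ∑ a ∈ T, ∑ b ∈ T.erase a, log ‖t a - t b‖) +
        2 * (H.natDegree : ℝ) ^ 2 * log (2 / (1 + r)) * (T.card : ℝ) ^ 2 +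
        2 * H.natDegree * T.card * (∑ a ∈ T, VV H (t a)) +
        T.card * (2 * (H.natDegree : ℝ) ^ 2 * log (1 / (1 - r))) := by
  have hlog : 0 ≤ log (2 / (1 + r)) := by
    apply log_nonneg
    rw [le_div_iff₀ (by linarith)]
    linarith
  have h1 : ∀ a ∈ T, ∑ b ∈ T, ∑ l, ∑ m, kap r (fib H (t a) l) (fib H (t b) m) ≤
      - (H.natDegree * ∑ b ∈ T.erase a, log ‖t a - t b‖) +
      T.card * (2 * (H.natDegree : ℝ) ^ 2 * log (2 / (1 + r)) + H.natDegree * VV H (t a)) +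
      H.natDegree * (∑ b ∈ T, VV H (t b)) + 2 * (H.natDegree : ℝ) ^ 2 * log (1 / (1 - r)) := by
    intro a ha
    rw [← Finset.add_sum_erase T _ ha]
    have g1 := block_diag hH hd hr0 hr1 (t a) (t a)
    have g2 : ∑ b ∈ T.erase a, ∑ l, ∑ m, kap r (fib H (t a) l) (fib H (t b) m) ≤
        ∑ b ∈ T.erase a, (- (H.natDegree * log ‖t a - t b‖) +
        2 * (H.natDegree : ℝ) ^ 2 * log (2 / (1 + r)) + H.natDegree * VV H (t a) +
        H.natDegree * VV H (t b)) := by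
      apply Finset.sum_le_sum
      intro b hb
      exact block_one hH hd hr0 hr1 (ht a ha b (Finset.mem_of_mem_erase hb)
        (Finset.ne_of_mem_erase hb).symm)
    have g3 : ∑ b ∈ T.erase a, (- (H.natDegree * log ‖t a - t b‖) +
        2 * (H.natDegree : ℝ) ^ 2 * log (2 / (1 + r)) + H.natDegree * VV H (t a) +
        H.natDegree * VV H (t b)) =
        - (H.natDegree * ∑ b ∈ T.erase a, log ‖t a - t b‖) +
        ((T.erase a).card : ℝ) * (2 * (H.natDegree : ℝ) ^ 2 * log (2 / (1 + r)) +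
          H.natDegree * VV H (t a)) + H.natDegree * (∑ b ∈ T.erase a, VV H (t b)) := by
      simp only [Finset.sum_add_distrib, Finset.sum_neg_distrib, Finset.sum_const, nsmul_eq_mul,
        ← Finset.mul_sum]
      ring
    have g4 : ((T.erase a).card : ℝ) ≤ T.card := by
      exact_mod_cast Finset.card_le_card (Finset.erase_subset a T)
    have g5 : 0 ≤ 2 * (H.natDegree : ℝ) ^ 2 * log (2 / (1 + r)) + H.natDegree * VV H (t a) := by
      have := VV_nonneg hH hd (t a)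
      positivity
    have g6 : ∑ b ∈ T.erase a, VV H (t b) ≤ ∑ b ∈ T, VV H (t b) :=
      Finset.sum_le_sum_of_subset_of_nonneg (Finset.erase_subset a T)
        fun b _ _ => VV_nonneg hH hd (t b)
    have g7 := mul_le_mul_of_nonneg_right g4 g5
    have g8 := mul_le_mul_of_nonneg_left g6 (Nat.cast_nonneg (α := ℝ) H.natDegree)
    linarith
  refine (Finset.sum_le_sum h1).trans (le_of_eq ?_)
  simp only [Finset.sum_add_distrib, Finset.sum_neg_distrib, Finset.sum_const, nsmul_eq_mul,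
    ← Finset.mul_sum]
  ring

end blocks

end Pool.Agent.Zk21.Un
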