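import Mathlib
import Pool.Agent.Zk21.UnC

/-!
# The energy inequality for the pull back under the `p`-th power
-/

set_option autoImplicit false

open Polynomial Metric Real

namespace Pool.Agent.Zk21.Un

open Pool.Agent.R328 Pool.Agent.Zk21.Smt

section dickson

variable {R : Type*} [CommRing R] [Nontrivial R]

lemma dickson_le (n : ℕ) : (dickson 1 (1 : R) n).natDegree ≤ n := by
  induction n using Nat.strong_induction_on with
  | _ n ih =>
    rcases n with _ | _ | n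
    · rw [dickson_zero]
      have : (3 - ((1 : ℕ) : R[X])) = C (2 : R) := by
        push_cast
        rw [show (C (2 : R)) = 2 from rfl]
        ring
      rw [this, natDegree_C]
    · rw [zero_add, dickson_one]
      exact natDegree_X_le
    · rw [dickson_add_two]
      refine (natDegree_sub_le _ _).trans (max_le ?_ ?_)
      · refine natDegree_mul_le.trans ?_
        have h1 := ih (n + 1) (by omega)
        have h2 : (X : R[X]).natDegree ≤ 1 := natDegree_X_le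
        omega
      · refine (natDegree_C_mul_le _ _).trans ?_
        have h1 := ih n (by omega)
        omega

lemma dickson_monic {n : ℕ} (hn : 0 < n) :
    (dickson 1 (1 : R) n).Monic ∧ (dickson 1 (1 : R) n).natDegree = n := by
  induction n using Nat.strong_induction_on with
  | _ n ih =>
    rcases n with _ | _ | n
    · omega
    · rw [zero_add, dickson_one]
      exact ⟨monic_X, natDegree_X⟩
    · obtain ⟨h1, h2⟩ := ih (n + 1) (by omega) (by omega)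
      have h3 : (X * dickson 1 (1 : R) (n + 1)).Monic := monic_X.mul h1
      have h4 : (X * dickson 1 (1 : R) (n + 1)).natDegree = n + 2 := by
        rw [monic_X.natDegree_mul h1, natDegree_X, h2]
        ring
      have h5 : (C (1 : R) * dickson 1 (1 : R) n).natDegree < n + 2 := by
        refine lt_of_le_of_lt (natDegree_C_mul_le _ _) ?_
        have := dickson_le (R := R) n
        omega
      rw [dickson_add_two]
      constructor
      · apply h3.sub_of_left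
        apply degree_lt_degree
        rw [h4]
        exact h5
      · rw [natDegree_sub_eq_left_of_natDegree_lt, h4]
        rw [h4]
        exact h5

end dickson

lemma dickson_fold {z : ℂ} (hz : z ≠ 0) (p : ℕ) :
    (dickson 1 (1 : ℂ) p).eval (z + z⁻¹) = z ^ p + (z ^ p)⁻¹ := by
  rw [dickson_one_one_eval_add_inv z z⁻¹ (mul_inv_cancel₀ hz), inv_pow]

section

variable {H : ℂ[X]}

/-- the value at the `p`-th power -/
noncomputable def av (H : ℂ[X]) (p : ℕ) (t : ℂ) (l : Fin H.natDegree) : ℂ :=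
  H.eval (fib H t l ^ p + (fib H t l ^ p)⁻¹)

lemma av_eq (hH : ‖H.leadingCoeff‖ = 1) (hd : 0 < H.natDegree) (p : ℕ) (t : ℂ)
    (l : Fin H.natDegree) :
    av H p t l = (H.comp (dickson 1 (1 : ℂ) p)).eval (pt H t l) := by
  unfold av pt
  rw [eval_comp, dickson_fold ((fib_spec hH hd t).1 l).1]

lemma exists_R (hH : ‖H.leadingCoeff‖ = 1) (hd : 0 < H.natDegree) {p : ℕ} (hp : 0 < p) (τ : ℂ) :
    ∃ R : ℂ[X], R ≠ 0 ∧ ∀ t, ‖R.eval t‖ = ∏ l, ‖av H p t l - τ‖ := by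
  obtain ⟨hm, hdeg⟩ := dickson_monic (R := ℂ) hp
  have h1 : (H.comp (dickson 1 (1 : ℂ) p)).natDegree = H.natDegree * p := by
    rw [natDegree_comp, hdeg]
  have h2 : ‖(H.comp (dickson 1 (1 : ℂ) p)).leadingCoeff‖ = 1 := by
    rw [leadingCoeff_comp (by omega), hm.leadingCoeff, one_pow, mul_one, hH]
  have h3 : ‖(H.comp (dickson 1 (1 : ℂ) p) - C τ).leadingCoeff‖ = 1 := by
    rw [leadingCoeff_sub_of_degree_lt, h2]
    apply degree_C_le.trans_lt
    apply natDegree_pos_iff_degree_pos.mp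
    rw [h1]
    positivity
  obtain ⟨y, hy⟩ := norm_eval_enum _ h3
  refine ⟨∏ j, (C (H.eval (y j)) - X), ?_, ?_⟩
  · rw [Finset.prod_ne_zero_iff]
    intro j _ h
    have := congrArg (fun P : ℂ[X] => P.coeff 1) h
    simp at this
  · intro t
    rw [eval_prod, norm_prod]
    have h4 : ∀ j, ‖(C (H.eval (y j)) - X).eval t‖ = ∏ l, ‖y j - pt H t l‖ := by
      intro j
      rw [eval_sub, eval_C, eval_X, (fib_spec hH hd t).2 (y j)]
      rfl
    simp_rw [h4]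
    rw [Finset.prod_comm]
    refine Finset.prod_congr rfl fun l _ => ?_
    have h5 := hy (pt H t l)
    rw [eval_sub, eval_C, ← av_eq hH hd] at h5
    rw [h5]
    refine Finset.prod_congr rfl fun j _ => ?_
    rw [norm_sub_rev]

/-- the final bound with all error terms -/
noncomputable def RR (q s p e k n L Λ lc a1 a2 d1 d2 : ℝ) : ℝ :=
  q * (e * k * n ^ 2 * lc + 2 * e ^ 2 * a1 * (k * n) ^ 2 + 2 * e * (k * n) * (n * L + k * log 2) +
    k * n * (2 * e ^ 2 * d1)) +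
  s * (2 * e ^ 2 * a2 * n ^ 2 + 2 * e * n * (n * Λ + log 2) + n * (2 * e ^ 2 * d2)) +
  2 * (k * n * n * (2 * e ^ 2 * a2) + p * e * n * (n * L + k * log 2) + e * (k * n) * (n * Λ + log 2))

lemma erase_split (B Z : Finset ℂ) (F : ℂ × ℂ → ℝ) {β ζ : ℂ} (hβ : β ∈ B) (hζ : ζ ∈ Z) :
    ∑ b ∈ (B ×ˢ Z).erase (β, ζ), F b =
      ∑ ζ' ∈ Z.erase ζ, F (β, ζ') + ∑ β' ∈ B.erase β, ∑ ζ' ∈ Z, F (β', ζ') := by
  have h1 := Finset.add_sum_erase (B ×ˢ Z) F (Finset.mem_product.mpr ⟨hβ, hζ⟩ : (β, ζ) ∈ B ×ˢ Z)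
  rw [Finset.sum_product] at h1
  have h2 := Finset.add_sum_erase B (fun β' => ∑ ζ' ∈ Z, F (β', ζ')) hβ
  have h3 := Finset.add_sum_erase Z (fun ζ' => F (β, ζ')) hζ
  linarith

/-- the main inequality for a fixed position of the polygons -/
lemma star (hH : ‖H.leadingCoeff‖ = 1) (hd : 0 < H.natDegree) {p : ℕ} (hp : 0 < p)
    (B : Finset ℂ) (b : ℂ) {c : ℝ} (hc0 : 0 < c) (hc1 : c ≤ 1) {s : ℝ} (hs : 0 < s) {N : ℕ}
    (hN : 0 < N) {ρ : ℝ} (hρ0 : 0 < ρ) (hρ1 : ρ < 1) {ξ ξ' : ℂ} (hξ : ‖ξ‖ = 1) (hξ' : ‖ξ'‖ = 1)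
    (hg1 : ∀ β ∈ B, ∀ β' ∈ B.erase β, ∀ ζ ∈ ZN N, ∀ ζ' ∈ ZN N,
      (β - β') + (c * (ζ - ζ')) * ξ ≠ 0)
    (hg2 : ∀ β ∈ B, ∀ ζ ∈ ZN N, ∀ ζ' ∈ ZN N, ∀ l, av H p (β + ζ * (c * ξ)) l - (b + ζ' * ξ') ≠ 0) :
    2 * (∑ x ∈ B ×ˢ ZN N, ∑ ζ' ∈ ZN N, ∑ l, log ‖av H p (x.1 + x.2 * (c * ξ)) l - (b + ζ' * ξ')‖) +
      p / s * H.natDegree * (∑ β ∈ B, ∑ β' ∈ B.erase β, ∑ ζ ∈ ZN N, ∑ ζ' ∈ ZN N,
        log ‖(β - β') + (c * (ζ - ζ')) * ξ‖) ≤
    RR (p / s) s p H.natDegree B.card N (∑ β ∈ B, LL H β c) (LL H b 1) (log (1 / c))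
      (log (2 / (1 + ρ))) (log (2 / (1 + ρ ^ p))) (log (1 / (1 - ρ))) (log (1 / (1 - ρ ^ p))) := by
  classical
  have hξ0 : ξ ≠ 0 := by
    rintro rfl
    simp at hξ
  have hξ'0 : ξ' ≠ 0 := by
    rintro rfl
    simp at hξ'
  have hcC : (c : ℂ) ≠ 0 := by exact_mod_cast hc0.ne'
  have hcξ : (c : ℂ) * ξ ≠ 0 := mul_ne_zero hcC hξ0
  have hcξn : ‖(c : ℂ) * ξ‖ = c := by
    rw [norm_mul, hξ, mul_one, Complex.norm_real, Real.norm_of_nonneg hc0.le]
  have hp0 : (0:ℝ) ≤ ρ ^ p := by positivity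
  have hp1 : ρ ^ p < 1 := pow_lt_one₀ hρ0.le hρ1 hp.ne'
  set Z := ZN N with hZ
  have hZc : (Z.card : ℝ) = N := by rw [hZ, ZN_card hN]
  set t : ℂ × ℂ → ℂ := fun x => x.1 + x.2 * (c * ξ) with ht
  set τ : ℂ → ℂ := fun ζ' => b + ζ' * ξ' with hτ
  set T := B ×ˢ Z with hT
  have hTc : (T.card : ℝ) = B.card * N := by
    rw [hT, Finset.card_product, Nat.cast_mul, hZc]
  set e : ℝ := (H.natDegree : ℝ) with he
  set VT := ∑ x ∈ T, VV H (t x) with hVT
  set VZ := ∑ ζ' ∈ Z, VV H (τ ζ') with hVZ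
  -- heights
  have hVT1 : VT ≤ N * (∑ β ∈ B, LL H β c) + B.card * log 2 := by
    rw [hVT, hT, Finset.sum_product]
    have h1 : ∀ β ∈ B, ∑ ζ ∈ Z, VV H (t (β, ζ)) ≤ N * LL H β c + log 2 := by
      intro β _
      have h2 := VV_poly hH hd hN β hcξ
      rw [hcξn] at h2
      exact h2
    refine (Finset.sum_le_sum h1).trans (le_of_eq ?_)
    rw [Finset.sum_add_distrib, Finset.sum_const, nsmul_eq_mul, ← Finset.mul_sum]
  have hVZ1 : VZ ≤ N * LL H b 1 + log 2 := by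
    have h2 := VV_poly hH hd hN b hξ'0
    rw [hξ'] at h2
    exact h2
  -- the blocks
  have hblock : ∀ x ∈ T, ∀ ζ' ∈ Z, ∑ l, log ‖av H p (t x) l - τ ζ'‖ ≤
      - (∑ l, ∑ m, kap (ρ ^ p) (fib H (t x) l ^ p) (fib H (τ ζ') m)) +
        2 * e ^ 2 * log (2 / (1 + ρ ^ p)) + p * e * VV H (t x) + e * VV H (τ ζ') := by
    intro x hx ζ' hζ'
    obtain ⟨hx1, hx2⟩ := Finset.mem_product.mp hx
    exact block hH hd p hp0 hp1 (t x) (τ ζ') (fun l => hg2 x.1 hx1 x.2 hx2 ζ' hζ' l)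
  set K1 := ∑ x ∈ T, ∑ ζ' ∈ Z, ∑ l, ∑ m, kap (ρ ^ p) (fib H (t x) l ^ p) (fib H (τ ζ') m) with hK1
  have h1 : ∑ x ∈ T, ∑ ζ' ∈ Z, ∑ l, log ‖av H p (t x) l - τ ζ'‖ ≤
      - K1 + B.card * N * N * (2 * e ^ 2 * log (2 / (1 + ρ ^ p))) + p * e * N * VT +
        e * (B.card * N) * VZ := by
    refine (Finset.sum_le_sum fun x hx => Finset.sum_le_sum fun ζ' hζ' => hblock x hx ζ' hζ').trans
      (le_of_eq ?_)
    simp only [Finset.sum_add_distrib, Finset.sum_neg_distrib, Finset.sum_const, nsmul_eq_mul,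
      ← Finset.mul_sum, hZc, hTc]
    ring
  -- the Cauchy-Schwarz inequality
  set EX := ∑ x ∈ T, ∑ y ∈ T, ∑ l, ∑ m, kap ρ (fib H (t x) l) (fib H (t y) m) with hEX
  set EY := ∑ x ∈ Z, ∑ y ∈ Z, ∑ l, ∑ m, kap (ρ ^ p) (fib H (τ x) l) (fib H (τ y) m) with hEY
  have h2 : -2 * K1 ≤ p / s * EX + s * EY := by
    have h3 := energy_cs (T ×ˢ (Finset.univ : Finset (Fin H.natDegree)))
      (Z ×ˢ (Finset.univ : Finset (Fin H.natDegree))) (fun x => fib H (t x.1) x.2)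
      (fun x => fib H (τ x.1) x.2) (fun x _ => ((fib_spec hH hd (t x.1)).1 x.2).2)
      (fun x _ => ((fib_spec hH hd (τ x.1)).1 x.2).2) hρ0 hρ1 hp hs
    have e1 : ∑ x ∈ T ×ˢ (Finset.univ : Finset (Fin H.natDegree)),
        ∑ y ∈ Z ×ˢ (Finset.univ : Finset (Fin H.natDegree)),
        kap (ρ ^ p) (fib H (t x.1) x.2 ^ p) (fib H (τ y.1) y.2) = K1 := by
      rw [Finset.sum_product]
      refine Finset.sum_congr rfl fun x _ => ?_
      simp_rw [Finset.sum_product]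
      rw [Finset.sum_comm]
    have e2 : ∑ x ∈ T ×ˢ (Finset.univ : Finset (Fin H.natDegree)),
        ∑ y ∈ T ×ˢ (Finset.univ : Finset (Fin H.natDegree)),
        kap ρ (fib H (t x.1) x.2) (fib H (t y.1) y.2) = EX := by
      rw [Finset.sum_product]
      refine Finset.sum_congr rfl fun x _ => ?_
      simp_rw [Finset.sum_product]
      rw [Finset.sum_comm]
    have e3 : ∑ x ∈ Z ×ˢ (Finset.univ : Finset (Fin H.natDegree)),
        ∑ y ∈ Z ×ˢ (Finset.univ : Finset (Fin H.natDegree)),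
        kap (ρ ^ p) (fib H (τ x.1) x.2) (fib H (τ y.1) y.2) = EY := by
      rw [Finset.sum_product]
      refine Finset.sum_congr rfl fun x _ => ?_
      simp_rw [Finset.sum_product]
      rw [Finset.sum_comm]
    rw [e1, e2, e3] at h3
    exact h3
  -- self energies
  have hdiff : ∀ x y : ℂ × ℂ, t x - t y = (x.1 - y.1) + (c * (x.2 - y.2)) * ξ := by
    intro x y
    rw [ht]
    ring
  have htinj : ∀ x ∈ T, ∀ y ∈ T, x ≠ y → t x ≠ t y := by
    intro x hx y hy hxy h0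
    obtain ⟨hx1, hx2⟩ := Finset.mem_product.mp hx
    obtain ⟨hy1, hy2⟩ := Finset.mem_product.mp hy
    have h3 : (x.1 - y.1) + (c * (x.2 - y.2)) * ξ = 0 := by
      rw [← hdiff, h0, sub_self]
    by_cases h4 : y.1 = x.1
    · rw [h4, sub_self, zero_add] at h3
      have h5 : x.2 - y.2 ≠ 0 := by
        intro h6
        exact hxy (Prod.ext h4.symm (sub_eq_zero.mp h6))
      exact mul_ne_zero (mul_ne_zero hcC h5) hξ0 h3
    · exact hg1 x.1 hx1 y.1 (Finset.mem_erase.mpr ⟨h4, hy1⟩) x.2 hx2 y.2 hy2 h3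
  have hX1 := self_energy hH hd hρ0.le hρ1 T t htinj
  have hτinj : ∀ x ∈ Z, ∀ y ∈ Z, x ≠ y → τ x ≠ τ y := by
    intro x _ y _ hxy h0
    apply hxy
    have : x * ξ' = y * ξ' := by
      have h3 : b + x * ξ' = b + y * ξ' := h0
      exact add_left_cancel h3
    exact mul_right_cancel₀ hξ'0 this
  have hY1 := self_energy hH hd hp0 hp1 Z τ hτinj
  rw [hTc] at hX1
  rw [hZc] at hY1
  set CR := ∑ β ∈ B, ∑ β' ∈ B.erase β, ∑ ζ ∈ Z, ∑ ζ' ∈ Z, log ‖(β - β') + (c * (ζ - ζ')) * ξ‖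
    with hCR
  have hXs : - (B.card * (N:ℝ) ^ 2 * log (1 / c)) + CR ≤ ∑ x ∈ T, ∑ y ∈ T.erase x, log ‖t x - t y‖ := by
    have e1 : ∑ x ∈ T, ∑ y ∈ T.erase x, log ‖t x - t y‖ =
        ∑ β ∈ B, ∑ ζ ∈ Z, (∑ ζ' ∈ Z.erase ζ, log ‖t (β, ζ) - t (β, ζ')‖ +
          ∑ β' ∈ B.erase β, ∑ ζ' ∈ Z, log ‖t (β, ζ) - t (β', ζ')‖) := by
      rw [hT, Finset.sum_product]
      refine Finset.sum_congr rfl fun β hβ => Finset.sum_congr rfl fun ζ hζ => ?_
      exact erase_split B Z (fun y => log ‖t (β, ζ) - t y‖) hβ hζ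
    have e2 : ∑ β ∈ B, ∑ ζ ∈ Z, ∑ β' ∈ B.erase β, ∑ ζ' ∈ Z, log ‖t (β, ζ) - t (β', ζ')‖ = CR := by
      rw [hCR]
      refine Finset.sum_congr rfl fun β _ => ?_
      rw [Finset.sum_comm]
      refine Finset.sum_congr rfl fun β' _ => Finset.sum_congr rfl fun ζ _ =>
        Finset.sum_congr rfl fun ζ' _ => ?_
      rw [hdiff]
    have e3 : ∀ β ∈ B, - ((N:ℝ) ^ 2 * log (1 / c)) ≤
        ∑ ζ ∈ Z, ∑ ζ' ∈ Z.erase ζ, log ‖t (β, ζ) - t (β, ζ')‖ := by
      intro β _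
      have h4 := ZN_energy hN hc0
      have h5 : ∑ ζ ∈ Z, ∑ ζ' ∈ Z.erase ζ, log ‖t (β, ζ) - t (β, ζ')‖ =
          ∑ ζ ∈ Z, ∑ ζ' ∈ Z.erase ζ, log (c * ‖ζ - ζ'‖) := by
        refine Finset.sum_congr rfl fun ζ _ => Finset.sum_congr rfl fun ζ' _ => ?_
        rw [hdiff]
        simp only [sub_self, zero_add]
        rw [norm_mul, norm_mul, hξ, mul_one, Complex.norm_real, Real.norm_of_nonneg hc0.le]
      rw [h5]
      refine le_trans ?_ h4
      rw [one_div, log_inv]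
      have h6 : log c ≤ 0 := log_nonpos hc0.le hc1
      have h7 : (0:ℝ) ≤ N := Nat.cast_nonneg N
      nlinarith
    have e4 := Finset.sum_le_sum e3
    rw [Finset.sum_const, nsmul_eq_mul] at e4
    rw [e1]
    simp_rw [Finset.sum_add_distrib]
    rw [e2]
    linarith
  have hYs : 0 ≤ ∑ x ∈ Z, ∑ y ∈ Z.erase x, log ‖τ x - τ y‖ := by
    have h4 := ZN_energy hN (c := 1) one_pos
    rw [log_one, mul_zero, mul_zero] at h4
    refine h4.trans (le_of_eq ?_)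
    refine Finset.sum_congr rfl fun ζ _ => Finset.sum_congr rfl fun ζ' _ => ?_
    have : τ ζ - τ ζ' = (ζ - ζ') * ξ' := by
      rw [hτ]
      ring
    rw [this, norm_mul, hξ', mul_one, one_mul]
  -- conclusion
  have hq : 0 ≤ (p : ℝ) / s := by positivity
  have he0 : 0 ≤ e := Nat.cast_nonneg _
  have hk0 : (0:ℝ) ≤ B.card := Nat.cast_nonneg _
  have hn0 : (0:ℝ) ≤ N := Nat.cast_nonneg _
  have hEXle : EX ≤ - (e * CR) + (e * B.card * N ^ 2 * log (1 / c) +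
      2 * e ^ 2 * log (2 / (1 + ρ)) * (B.card * N) ^ 2 +
      2 * e * (B.card * N) * (N * (∑ β ∈ B, LL H β c) + B.card * log 2) +
      B.card * N * (2 * e ^ 2 * log (1 / (1 - ρ)))) := by
    have g1 := mul_le_mul_of_nonneg_left hXs he0
    have g2 := mul_le_mul_of_nonneg_left hVT1 (by positivity : 0 ≤ 2 * e * (B.card * N))
    linarith
  have hEYle : EY ≤ 2 * e ^ 2 * log (2 / (1 + ρ ^ p)) * N ^ 2 + 2 * e * N * (N * LL H b 1 + log 2) +
      N * (2 * e ^ 2 * log (1 / (1 - ρ ^ p))) := by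
    have g1 := mul_le_mul_of_nonneg_left hYs he0
    have g2 := mul_le_mul_of_nonneg_left hVZ1 (by positivity : 0 ≤ 2 * e * N)
    linarith
  have g3 := mul_le_mul_of_nonneg_left hEXle hq
  have g4 := mul_le_mul_of_nonneg_left hEYle hs.le
  have g5 := mul_le_mul_of_nonneg_left hVT1 (by positivity : 0 ≤ p * e * N)
  have g6 := mul_le_mul_of_nonneg_left hVZ1 (by positivity : 0 ≤ e * (B.card * N))
  unfold RR
  linarith

end

end Pool.Agent.Zk21.Un
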