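import Mathlib
import Pool.Agent.Zk21.UnD

/-!
# The energy inequality: averaging and passage to the limit
-/

set_option autoImplicit false

open Polynomial Metric Real

namespace Pool.Agent.Zk21.Un

open Pool.Agent.R328 Pool.Agent.Zk21.Smt

lemma log_coeff_zero_le {Q : ℂ[X]} (h : Q.eval 0 ≠ 0) : log ‖Q.eval 0‖ ≤ log Q.mahlerMeasure := by
  apply log_le_log (norm_pos_iff.mpr h)
  have h1 := norm_coeff_le_choose_mul_mahlerMeasure 0 Q
  rw [Nat.choose_zero_right, Nat.cast_one, one_mul, coeff_zero_eq_eval_zero] at h1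
  exact h1

section

variable {H : ℂ[X]}

lemma step_one (hH : ‖H.leadingCoeff‖ = 1) (hd : 0 < H.natDegree) {p : ℕ} (hp : 0 < p)
    (B : Finset ℂ) (b : ℂ) {c : ℝ} (hc0 : 0 < c) (hc1 : c ≤ 1) {s : ℝ} (hs : 0 < s) {N : ℕ}
    (hN : 0 < N) {ρ : ℝ} (hρ0 : 0 < ρ) (hρ1 : ρ < 1) {ξ' : ℂ} (hξ' : ‖ξ'‖ = 1)
    (hg : ∀ β ∈ B, ∀ ζ' ∈ ZN N, ∀ l, av H p β l - (b + ζ' * ξ') ≠ 0)
    (hB : 0 ≤ ∑ β ∈ B, ∑ β' ∈ B.erase β, log ‖β - β'‖) :
    2 * N * (∑ β ∈ B, ∑ ζ' ∈ ZN N, ∑ l, log ‖av H p β l - (b + ζ' * ξ')‖) ≤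
    RR (p / s) s p H.natDegree B.card N (∑ β ∈ B, LL H β c) (LL H b 1) (log (1 / c))
      (log (2 / (1 + ρ))) (log (2 / (1 + ρ ^ p))) (log (1 / (1 - ρ))) (log (1 / (1 - ρ ^ p))) := by
  classical
  choose R hR0 hR using fun τ : ℂ => exists_R hH hd hp τ
  have hcC : (c : ℂ) ≠ 0 := by exact_mod_cast hc0.ne'
  set Z := ZN N with hZ
  have hZc : (Z.card : ℝ) = N := by rw [hZ, ZN_card hN]
  set RHS := RR (p / s) s p H.natDegree B.card N (∑ β ∈ B, LL H β c) (LL H b 1) (log (1 / c))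
      (log (2 / (1 + ρ))) (log (2 / (1 + ρ ^ p))) (log (1 / (1 - ρ))) (log (1 / (1 - ρ ^ p)))
    with hRHS
  set Q : (ℂ × ℂ) × ℂ → ℂ[X] := fun y => (R (b + y.2 * ξ')).comp (C y.1.1 + C (y.1.2 * c) * X) with hQ
  set Q' : (Σ _ : ℂ, ℂ) × (ℂ × ℂ) → ℂ[X] := fun y => C (y.1.1 - y.1.2) + C (c * (y.2.1 - y.2.2)) * X
    with hQ'
  set S1 : Finset ((ℂ × ℂ) × ℂ) := (B ×ˢ Z) ×ˢ Z with hS1
  set S2 : Finset ((Σ _ : ℂ, ℂ) × (ℂ × ℂ)) := (B.sigma fun β => B.erase β) ×ˢ (Z ×ˢ Z) with hS2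
  have hQev : ∀ y ξ, ‖(Q y).eval ξ‖ = ∏ l, ‖av H p (y.1.1 + y.1.2 * (c * ξ)) l - (b + y.2 * ξ')‖ := by
    intro y ξ
    rw [hQ]
    simp only [eval_comp, eval_add, eval_mul, eval_C, eval_X]
    rw [hR]
    refine Finset.prod_congr rfl fun l _ => ?_
    rw [mul_assoc]
  have hQ'ev : ∀ y ξ, (Q' y).eval ξ = (y.1.1 - y.1.2) + (c * (y.2.1 - y.2.2)) * ξ := by
    intro y ξ
    rw [hQ']
    simp only [eval_add, eval_mul, eval_C, eval_X]
  have hQ0 : ∀ y ∈ S1, (Q y).eval 0 ≠ 0 := by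
    intro y hy
    obtain ⟨h1, h2⟩ := Finset.mem_product.mp hy
    obtain ⟨h3, h4⟩ := Finset.mem_product.mp h1
    rw [← norm_ne_zero_iff, hQev, Finset.prod_ne_zero_iff]
    intro l _
    rw [mul_zero, mul_zero, add_zero, norm_ne_zero_iff]
    exact hg _ h3 _ h2 l
  have hQ'0 : ∀ y ∈ S2, (Q' y).eval 0 ≠ 0 := by
    intro y hy
    obtain ⟨h1, h2⟩ := Finset.mem_product.mp hy
    obtain ⟨h3, h4⟩ := Finset.mem_sigma.mp h1
    rw [hQ'ev, mul_zero, add_zero]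
    exact sub_ne_zero.mpr (Finset.ne_of_mem_erase h4).symm
  have key := avg_poly S1 S2 2 (p / s * H.natDegree) RHS Q Q'
    (fun y hy h0 => hQ0 y hy (by rw [h0, eval_zero]))
    (fun y hy h0 => hQ'0 y hy (by rw [h0, eval_zero])) (by
      intro ξ hξ h1 h2
      have hg1 : ∀ β ∈ B, ∀ β' ∈ B.erase β, ∀ ζ ∈ ZN N, ∀ ζ' ∈ ZN N,
          (β - β') + (c * (ζ - ζ')) * ξ ≠ 0 := by
        intro β hβ β' hβ' ζ hζ ζ' hζ'
        have h3 := h2 (⟨β, β'⟩, (ζ, ζ')) (Finset.mem_product.mpr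
          ⟨Finset.mem_sigma.mpr ⟨hβ, hβ'⟩, Finset.mem_product.mpr ⟨hζ, hζ'⟩⟩)
        rw [hQ'ev] at h3
        exact h3
      have hg2 : ∀ β ∈ B, ∀ ζ ∈ ZN N, ∀ ζ' ∈ ZN N, ∀ l,
          av H p (β + ζ * (c * ξ)) l - (b + ζ' * ξ') ≠ 0 := by
        intro β hβ ζ hζ ζ' hζ' l
        have h3 := h1 ((β, ζ), ζ') (Finset.mem_product.mpr
          ⟨Finset.mem_product.mpr ⟨hβ, hζ⟩, hζ'⟩)
        rw [← norm_ne_zero_iff, hQev, Finset.prod_ne_zero_iff] at h3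
        exact norm_ne_zero_iff.mp (h3 l (Finset.mem_univ l))
      have h3 := star hH hd hp B b hc0 hc1 hs hN hρ0 hρ1 hξ hξ' hg1 hg2
      refine le_trans (le_of_eq ?_) h3
      congr 1
      · congr 1
        rw [hS1, Finset.sum_product]
        refine Finset.sum_congr rfl fun x hx => Finset.sum_congr rfl fun ζ' hζ' => ?_
        obtain ⟨hx1, hx2⟩ := Finset.mem_product.mp hx
        rw [hQev, log_prod]
        intro l _
        exact norm_ne_zero_iff.mpr (hg2 x.1 hx1 x.2 hx2 ζ' hζ' l)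
      · congr 1
        rw [hS2, Finset.sum_product, Finset.sum_sigma]
        refine Finset.sum_congr rfl fun β _ => Finset.sum_congr rfl fun β' _ => ?_
        rw [Finset.sum_product]
        refine Finset.sum_congr rfl fun ζ _ => Finset.sum_congr rfl fun ζ' _ => ?_
        rw [hQ'ev])
  have hA1 : N * (∑ β ∈ B, ∑ ζ' ∈ Z, ∑ l, log ‖av H p β l - (b + ζ' * ξ')‖) ≤
      ∑ y ∈ S1, log (Q y).mahlerMeasure := by
    have h1 : ∑ y ∈ S1, log ‖(Q y).eval 0‖ ≤ ∑ y ∈ S1, log (Q y).mahlerMeasure :=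
      Finset.sum_le_sum fun y hy => log_coeff_zero_le (hQ0 y hy)
    refine le_trans (le_of_eq ?_) h1
    rw [hS1, Finset.sum_product, Finset.sum_product, Finset.mul_sum]
    refine Finset.sum_congr rfl fun β hβ => ?_
    have h2 : ∀ ζ ∈ Z, ∑ ζ' ∈ Z, log ‖(Q ((β, ζ), ζ')).eval 0‖ =
        ∑ ζ' ∈ Z, ∑ l, log ‖av H p β l - (b + ζ' * ξ')‖ := by
      intro ζ hζ
      refine Finset.sum_congr rfl fun ζ' hζ' => ?_
      rw [hQev, log_prod]
      · simp only [mul_zero, add_zero]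
      · intro l _
        simp only [mul_zero, add_zero]
        exact norm_ne_zero_iff.mpr (hg β hβ ζ' hζ' l)
    rw [Finset.sum_congr rfl h2, Finset.sum_const, nsmul_eq_mul, hZc]
  have hA2 : 0 ≤ ∑ y ∈ S2, log (Q' y).mahlerMeasure := by
    have h1 : ∑ y ∈ S2, log ‖(Q' y).eval 0‖ ≤ ∑ y ∈ S2, log (Q' y).mahlerMeasure :=
      Finset.sum_le_sum fun y hy => log_coeff_zero_le (hQ'0 y hy)
    refine le_trans ?_ h1
    rw [hS2, Finset.sum_product, Finset.sum_sigma]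
    have h2 : ∀ β ∈ B, ∀ β' ∈ B.erase β,
        ∑ y ∈ Z ×ˢ Z, log ‖(Q' ((⟨β, β'⟩ : Σ _ : ℂ, ℂ), y)).eval 0‖ =
        (Z ×ˢ Z).card * log ‖β - β'‖ := by
      intro β _ β' _
      rw [← nsmul_eq_mul, ← Finset.sum_const]
      refine Finset.sum_congr rfl fun y _ => ?_
      rw [hQ'ev, mul_zero, add_zero]
    rw [Finset.sum_congr rfl fun β hβ => Finset.sum_congr rfl fun β' hβ' => h2 β hβ β' hβ']
    simp_rw [← Finset.mul_sum]
    exact mul_nonneg (Nat.cast_nonneg _) hB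
  have h4 : 0 ≤ p / s * (H.natDegree : ℝ) * ∑ y ∈ S2, log (Q' y).mahlerMeasure := by positivity
  linarith

/-- averaging over the second polygon -/
lemma step_two (hH : ‖H.leadingCoeff‖ = 1) (hd : 0 < H.natDegree) {p : ℕ} (hp : 0 < p)
    (B : Finset ℂ) (b : ℂ) {c : ℝ} (hc0 : 0 < c) (hc1 : c ≤ 1) {s : ℝ} (hs : 0 < s) {N : ℕ}
    (hN : 0 < N) {ρ : ℝ} (hρ0 : 0 < ρ) (hρ1 : ρ < 1)
    (hB : 0 ≤ ∑ β ∈ B, ∑ β' ∈ B.erase β, log ‖β - β'‖) :
    2 * N ^ 2 * (∑ β ∈ B, ∑ l, log⁺ ‖av H p β l - b‖) ≤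
    RR (p / s) s p H.natDegree B.card N (∑ β ∈ B, LL H β c) (LL H b 1) (log (1 / c))
      (log (2 / (1 + ρ))) (log (2 / (1 + ρ ^ p))) (log (1 / (1 - ρ))) (log (1 / (1 - ρ ^ p))) := by
  classical
  set Z := ZN N with hZ
  have hZc : (Z.card : ℝ) = N := by rw [hZ, ZN_card hN]
  have hZn : ∀ ζ ∈ Z, ζ ≠ 0 := by
    intro ζ hζ h0
    have := ZN_norm hN hζ
    rw [h0] at this
    simp at this
  set RHS := RR (p / s) s p H.natDegree B.card N (∑ β ∈ B, LL H β c) (LL H b 1) (log (1 / c))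
      (log (2 / (1 + ρ))) (log (2 / (1 + ρ ^ p))) (log (1 / (1 - ρ))) (log (1 / (1 - ρ ^ p)))
    with hRHS
  set Q : (ℂ × ℂ) × Fin H.natDegree → ℂ[X] :=
    fun y => C (-y.1.2) * X + C (av H p y.1.1 y.2 - b) with hQ
  set S1 : Finset ((ℂ × ℂ) × Fin H.natDegree) := (B ×ˢ Z) ×ˢ Finset.univ with hS1
  have hQev : ∀ y ξ, (Q y).eval ξ = av H p y.1.1 y.2 - (b + y.1.2 * ξ) := by
    intro y ξ
    rw [hQ]
    simp only [eval_add, eval_mul, eval_C, eval_X]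
    ring
  have hQ0 : ∀ y ∈ S1, Q y ≠ 0 := by
    intro y hy h0
    obtain ⟨h1, h2⟩ := Finset.mem_product.mp hy
    obtain ⟨h3, h4⟩ := Finset.mem_product.mp h1
    have h5 := congrArg (fun P : ℂ[X] => P.coeff 1) h0
    rw [hQ] at h5
    simp only [coeff_add, coeff_C_mul, coeff_X_one, mul_one, coeff_C_succ, add_zero, coeff_zero,
      neg_eq_zero] at h5
    exact hZn _ h4 h5
  have key := avg_poly S1 (∅ : Finset ℕ) (2 * N) 0 RHS Q (fun _ => 1) hQ0 (by simp) (by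
      intro ξ hξ h1 _
      have hg : ∀ β ∈ B, ∀ ζ' ∈ ZN N, ∀ l, av H p β l - (b + ζ' * ξ) ≠ 0 := by
        intro β hβ ζ' hζ' l
        have h3 := h1 ((β, ζ'), l) (Finset.mem_product.mpr
          ⟨Finset.mem_product.mpr ⟨hβ, hζ'⟩, Finset.mem_univ l⟩)
        rw [hQev] at h3
        exact h3
      have h3 := step_one hH hd hp B b hc0 hc1 hs hN hρ0 hρ1 hξ hg hB
      rw [zero_mul, add_zero]
      refine le_trans (le_of_eq ?_) h3
      congr 1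
      rw [hS1, Finset.sum_product, Finset.sum_product]
      refine Finset.sum_congr rfl fun β _ => Finset.sum_congr rfl fun ζ _ =>
        Finset.sum_congr rfl fun l _ => ?_
      rw [hQev])
  rw [zero_mul, add_zero] at key
  refine le_trans (le_of_eq ?_) key
  have h1 : ∑ y ∈ S1, log (Q y).mahlerMeasure =
      N * (∑ β ∈ B, ∑ l, log⁺ ‖av H p β l - b‖) := by
    rw [hS1, Finset.sum_product, Finset.sum_product, Finset.mul_sum]
    refine Finset.sum_congr rfl fun β _ => ?_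
    rw [← hZc, ← nsmul_eq_mul, ← Finset.sum_const]
    refine Finset.sum_congr rfl fun ζ hζ => Finset.sum_congr rfl fun l _ => ?_
    rw [← logMahlerMeasure_eq_log_MahlerMeasure]
    have h2 : -ζ ≠ 0 := neg_ne_zero.mpr (hZn ζ hζ)
    have h3 := logMahlerMeasure_C_mul_X_add_C h2 (av H p β l - b)
    rw [hQ]
    simp only
    rw [h3, norm_neg, ZN_norm hN hζ, log_one, zero_add, norm_mul, norm_inv, norm_neg, ZN_norm hN hζ,
      inv_one, one_mul]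
  rw [h1]
  ring

lemma le_of_forall_div {x A B' : ℝ} (h : ∀ N : ℕ, 0 < N → x ≤ A + B' / N) : x ≤ A := by
  have h1 : Filter.Tendsto (fun N : ℕ => A + B' / N) Filter.atTop (nhds (A + 0)) :=
    tendsto_const_nhds.add (tendsto_const_div_atTop_nhds_zero_nat B')
  rw [add_zero] at h1
  exact ge_of_tendsto h1 (Filter.eventually_atTop.mpr ⟨1, fun N hN => h N hN⟩)

/-- **The energy inequality** for the pull back of a polynomial map under the `p`-th power -/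
theorem energy_pull (hH : ‖H.leadingCoeff‖ = 1) (hd : 0 < H.natDegree) {p : ℕ} (hp : 0 < p)
    (B : Finset ℂ) (b : ℂ) {c : ℝ} (hc0 : 0 < c) (hc1 : c ≤ 1) {s : ℝ} (hs : 0 < s)
    (hB : 0 ≤ ∑ β ∈ B, ∑ β' ∈ B.erase β, log ‖β - β'‖) :
    2 * (∑ β ∈ B, ∑ l, log⁺ ‖av H p β l - b‖) ≤
      p / s * (H.natDegree * B.card * log (1 / c) +
        2 * H.natDegree * B.card * (∑ β ∈ B, LL H β c)) +
      s * (2 * H.natDegree * LL H b 1) + 2 * p * H.natDegree * (∑ β ∈ B, LL H β c) +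
      2 * H.natDegree * B.card * LL H b 1 := by
  set e : ℝ := (H.natDegree : ℝ) with he
  set k : ℝ := (B.card : ℝ) with hk
  set L := ∑ β ∈ B, LL H β c with hL
  set Λ := LL H b 1 with hΛ
  set q : ℝ := p / s with hq
  set M := q * (e * k * log (1 / c) + 2 * e * k * L) + s * (2 * e * Λ) + 2 * p * e * L + 2 * e * k * Λ
    with hM
  -- the limit `N → ∞`
  have h1 : ∀ ρ : ℝ, 0 < ρ → ρ < 1 → 2 * (∑ β ∈ B, ∑ l, log⁺ ‖av H p β l - b‖) ≤
      M + (q * (2 * e ^ 2 * log (2 / (1 + ρ)) * k ^ 2) + s * (2 * e ^ 2 * log (2 / (1 + ρ ^ p))) +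
        2 * (k * (2 * e ^ 2 * log (2 / (1 + ρ ^ p))))) := by
    intro ρ hρ0 hρ1
    apply le_of_forall_div (B' := q * (2 * e * k * (k * log 2) + k * (2 * e ^ 2 * log (1 / (1 - ρ)))) +
      s * (2 * e * log 2 + 2 * e ^ 2 * log (1 / (1 - ρ ^ p))) +
      2 * (p * e * (k * log 2) + e * k * log 2))
    intro N hN
    have h2 : 2 * N ^ 2 * (∑ β ∈ B, ∑ l, log⁺ ‖av H p β l - b‖) ≤ RR q s p e k N L Λ (log (1 / c))
      (log (2 / (1 + ρ))) (log (2 / (1 + ρ ^ p))) (log (1 / (1 - ρ))) (log (1 / (1 - ρ ^ p))) :=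
      step_two hH hd hp B b hc0 hc1 hs hN hρ0 hρ1 hB
    have hNR : (0:ℝ) < N := by exact_mod_cast hN
    have h3 : 0 < (N:ℝ) ^ 2 := by positivity
    rw [← mul_le_mul_iff_right₀ h3]
    refine le_trans (le_of_eq (by ring)) (h2.trans (le_of_eq ?_))
    unfold RR
    rw [hM]
    generalize log (2 / (1 + ρ)) = a1
    generalize log (2 / (1 + ρ ^ p)) = a2
    generalize log (1 / (1 - ρ)) = d1
    generalize log (1 / (1 - ρ ^ p)) = d2
    generalize log (1 / c) = lc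
    field_simp
    ring
  -- the limit `ρ → 1`
  have hlim : Filter.Tendsto (fun ρ : ℝ => M + (q * (2 * e ^ 2 * log (2 / (1 + ρ)) * k ^ 2) +
      s * (2 * e ^ 2 * log (2 / (1 + ρ ^ p))) + 2 * (k * (2 * e ^ 2 * log (2 / (1 + ρ ^ p))))))
      (nhdsWithin 1 (Set.Iio 1)) (nhds (M + (q * (2 * e ^ 2 * log (2 / (1 + 1)) * k ^ 2) +
      s * (2 * e ^ 2 * log (2 / (1 + 1 ^ p))) + 2 * (k * (2 * e ^ 2 * log (2 / (1 + 1 ^ p))))))) := by
    have hc : ContinuousAt (fun ρ : ℝ => M + (q * (2 * e ^ 2 * log (2 / (1 + ρ)) * k ^ 2) +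
      s * (2 * e ^ 2 * log (2 / (1 + ρ ^ p))) + 2 * (k * (2 * e ^ 2 * log (2 / (1 + ρ ^ p)))))) 1 := by
      have g1 : ContinuousAt (fun ρ : ℝ => log (2 / (1 + ρ))) 1 := by
        apply ContinuousAt.log
        · apply ContinuousAt.div continuousAt_const (by fun_prop) (by norm_num)
        · norm_num
      have g2 : ContinuousAt (fun ρ : ℝ => log (2 / (1 + ρ ^ p))) 1 := by
        apply ContinuousAt.log
        · apply ContinuousAt.div continuousAt_const (by fun_prop)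
          rw [one_pow]
          norm_num
        · rw [one_pow]
          norm_num
      fun_prop
    exact hc.tendsto.mono_left nhdsWithin_le_nhds
  have h4 : M + (q * (2 * e ^ 2 * log (2 / (1 + 1)) * k ^ 2) +
      s * (2 * e ^ 2 * log (2 / (1 + 1 ^ p))) + 2 * (k * (2 * e ^ 2 * log (2 / (1 + 1 ^ p))))) = M := by
    rw [one_pow]
    norm_num
  rw [h4] at hlim
  refine ge_of_tendsto hlim ?_
  have h5 : ∀ᶠ ρ in nhdsWithin (1:ℝ) (Set.Iio 1), ρ ∈ Set.Ioo (0:ℝ) 1 := by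
    apply Ioo_mem_nhdsLT
    norm_num
  exact h5.mono fun ρ hρ => h1 ρ hρ.1 hρ.2

end

end Pool.Agent.Zk21.Un
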