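import Mathlib
import Pool.Agent.Zk21.UnE
import Pool.Agent.Zk21.SmtD

/-!
# The mean of the truncated logarithms
-/

set_option autoImplicit false

open Polynomial Metric Real

namespace Pool.Agent.Zk21.Un

open Pool.Agent.R328 Pool.Agent.Zk21.Smt Pool.Agent.Zk21.Dec

lemma posLog_half {a b : ℝ} (ha : 0 ≤ a) (hb : 0 ≤ b) :
    log⁺ (a + b + 1 / 2) ≤ log⁺ (4 * a) + log⁺ (4 * b) := by
  have h1 : 0 ≤ log⁺ (4 * a) := posLog_nonneg
  have h2 : 0 ≤ log⁺ (4 * b) := posLog_nonneg
  rcases le_total a b with h | h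
  · rcases le_or_gt b (1 / 4) with h3 | h3
    · have : log⁺ (a + b + 1 / 2) = 0 := by
        rw [posLog_eq_zero_iff, abs_of_nonneg (by linarith)]
        linarith
      linarith
    · have := posLog_le_posLog (x := a + b + 1 / 2) (y := 4 * b) (by linarith) (by linarith)
      linarith
  · rcases le_or_gt a (1 / 4) with h3 | h3
    · have : log⁺ (a + b + 1 / 2) = 0 := by
        rw [posLog_eq_zero_iff, abs_of_nonneg (by linarith)]
        linarith
      linarith
    · have := posLog_le_posLog (x := a + b + 1 / 2) (y := 4 * a) (by linarith) (by linarith)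
      linarith

/-- the logarithmic derivative on the unit circle, large values -/
lemma avg_WW_small {P : ℂ[X]} {d e : ℕ} (hd : P.natDegree = d) (hd0 : 0 < d) (he : e ≤ d) {Λ : ℝ}
    (hΛ : 4 ≤ Λ) :
    circleAverage (fun x => log⁺ ‖(WW e P).eval x / (C ((Λ * d : ℝ) : ℂ) * P).eval x‖) 0 1 ≤
      8 / Λ := by
  have hP : P ≠ 0 := by
    rintro rfl
    rw [natDegree_zero] at hd
    omega
  have hΛ0 : 0 < Λ := by linarith
  have hdR : (0:ℝ) < d := by exact_mod_cast hd0
  have hD : 0 < Λ * d / 4 := by positivity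
  have hΛd : 0 < Λ * d := by positivity
  have hcard := card_in_out P
  rw [hd] at hcard
  have h1 := avg_FS (Sin_le (P := P)) hD
  have h2 := avg_FS (Sout_le (P := P)) hD
  have hlog : ∀ m : ℕ, m ≤ d → log ((Λ * d / 4 + m : ℝ) / (Λ * d / 4)) ≤ 4 / Λ := by
    intro m hm
    have hmR : (m : ℝ) ≤ d := by exact_mod_cast hm
    have g1 : (Λ * d / 4 + m : ℝ) / (Λ * d / 4) = 1 + m / (Λ * d / 4) := by
      field_simp
    rw [g1]
    have g2 := log_le_sub_one_of_pos (x := 1 + m / (Λ * d / 4)) (by positivity)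
    have g3 : (m : ℝ) / (Λ * d / 4) ≤ 4 / Λ := by
      rw [div_le_div_iff₀ hD hΛ0]
      nlinarith
    linarith
  have h3 : circleAverage (fun x => log⁺ ‖(WW e P).eval x / (C ((Λ * d : ℝ) : ℂ) * P).eval x‖) 0 1 ≤
      circleAverage ((fun x => log⁺ ‖(FB (Sin P)).eval x / (C ((Λ * d / 4:ℝ) : ℂ) * FA (Sin P)).eval x‖) +
        (fun x => log⁺ ‖(FB (Sout P)).eval x / (C ((Λ * d / 4:ℝ) : ℂ) * FA (Sout P)).eval x‖)) 0 1 := by
    apply circleAverage_mono_off (posLog_ratio_int _ _)
      ((posLog_ratio_int _ _).add (posLog_ratio_int _ _))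
      (((roots_countable hP).union (roots_countable (FA_ne_zero (Sin P)))).union
        (roots_countable (FA_ne_zero (Sout P))))
    intro x hx hx2
    rw [Set.mem_union, Set.mem_union, not_or, not_or] at hx2
    have hxP : P.eval x ≠ 0 := hx2.1.1
    have hx1 : (FA (Sin P)).eval x ≠ 0 := hx2.1.2
    have hx3 : (FA (Sout P)).eval x ≠ 0 := hx2.2
    rw [mem_sphere_zero_iff_norm] at hx
    have e1 : ∀ S : Multiset ℂ, (FA S).eval x ≠ 0 →
        ‖(FB S).eval x / (C ((Λ * d / 4:ℝ) : ℂ) * FA S).eval x‖ = 4 * (‖FS S x‖ / (Λ * d)) := by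
      intro S hS
      rw [eval_mul, eval_C, FB_eval S hS]
      have hDC : ((Λ * d / 4:ℝ):ℂ) ≠ 0 := by exact_mod_cast hD.ne'
      have : (FA S).eval x * FS S x / (((Λ * d / 4:ℝ):ℂ) * (FA S).eval x) =
          FS S x / ((Λ * d / 4:ℝ):ℂ) := by
        field_simp
      rw [this, norm_div, Complex.norm_real, Real.norm_eq_abs, abs_of_pos hD]
      field_simp
    have e2 : ‖(WW e P).eval x / (C ((Λ * d : ℝ) : ℂ) * P).eval x‖ =
        ‖(WW e P).eval x / P.eval x‖ / (Λ * d) := by
      rw [eval_mul, eval_C, norm_div, norm_div, norm_mul, Complex.norm_real, Real.norm_eq_abs,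
        abs_of_pos hΛd]
      have := norm_ne_zero_iff.mpr hxP
      field_simp
    simp only [Pi.add_apply]
    rw [e1 _ hx1, e1 _ hx3, e2]
    have h4 := WW_bound hP hx hxP e
    have h6 : (((Sout P).card : ℝ) + e) / (Λ * d) ≤ 1 / 2 := by
      rw [div_le_iff₀ hΛd]
      have g1 : ((Sout P).card : ℝ) ≤ d := by
        have : (Sout P).card ≤ d := by omega
        exact_mod_cast this
      have g2 : (e : ℝ) ≤ d := by exact_mod_cast he
      nlinarith
    have h5 : ‖(WW e P).eval x / P.eval x‖ / (Λ * d) ≤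
        ‖FS (Sin P) x‖ / (Λ * d) + ‖FS (Sout P) x‖ / (Λ * d) + 1 / 2 := by
      have h7 := div_le_div_of_nonneg_right h4 hΛd.le
      rw [add_div, add_div] at h7
      linarith
    refine (posLog_le_posLog (by positivity) h5).trans ?_
    exact posLog_half (by positivity) (by positivity)
  refine h3.trans ?_
  rw [circleAverage_add (posLog_ratio_int _ _) (posLog_ratio_int _ _)]
  have h11 := hlog _ (show (Sin P).card ≤ d by omega)
  have h12 := hlog _ (show (Sout P).card ≤ d by omega)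
  have h13 : 8 / Λ = 4 / Λ + 4 / Λ := by ring
  linarith

section

variable {u : ℤ[X]} {e : ℕ} {H : ℂ[X]}

/-- on the circle the polynomials of the pencil are the values of `h - β` -/
lemma norm_Pb (hHu : ∀ x : ℂ, x ≠ 0 → x ^ e * H.eval (x + x⁻¹) = (u.map (Int.castRingHom ℂ)).eval x)
    (β : ℂ) {x : ℂ} (hx : ‖x‖ = 1) : ‖H.eval (x + x⁻¹) - β‖ = ‖(Pb u e β).eval x‖ := by
  have hx0 : x ≠ 0 := by
    rintro rfl
    simp at hx
  have h1 : (Pb u e β).eval x = x ^ e * (H.eval (x + x⁻¹) - β) := by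
    unfold Pb fb
    rw [eval_sub, eval_mul, eval_C, ← hHu x hx0, Polynomial.map_pow, map_X, eval_pow, eval_X]
    ring
  rw [h1, norm_mul, norm_pow, hx, one_pow, one_mul]

lemma LL_one (hHu : ∀ x : ℂ, x ≠ 0 → x ^ e * H.eval (x + x⁻¹) = (u.map (Int.castRingHom ℂ)).eval x)
    (β : ℂ) : LL H β 1 = mp (Pb u e β) := by
  unfold LL mp
  apply circleAverage_congr_sphere
  intro x hx
  rw [abs_one, mem_sphere_zero_iff_norm] at hx
  simp only
  rw [norm_Pb hHu β hx, posLog_eq_log_max_one (norm_nonneg _), max_comm]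

lemma LL_int (hHu : ∀ x : ℂ, x ≠ 0 → x ^ e * H.eval (x + x⁻¹) = (u.map (Int.castRingHom ℂ)).eval x)
    (β : ℂ) (c : ℝ) :
    LL H β c = circleAverage (fun x => log (max ‖(Pb u e β).eval x‖ c)) 0 1 := by
  unfold LL
  apply circleAverage_congr_sphere
  intro x hx
  rw [abs_one, mem_sphere_zero_iff_norm] at hx
  simp only
  rw [norm_Pb hHu β hx]

lemma max_int (P : ℂ[X]) {c : ℝ} (hc : 0 < c) :
    CircleIntegrable (fun x => log (max ‖P.eval x‖ c)) 0 1 := by
  apply ContinuousOn.circleIntegrable'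
  intro x _
  have h1 : ContinuousAt (fun x => P.eval x) x := P.continuous.continuousAt
  have h2 : ContinuousAt (fun x => max ‖P.eval x‖ c) x := h1.norm.max continuousAt_const
  exact (h2.log (ne_of_gt (lt_of_lt_of_le hc (le_max_right _ _)))).continuousWithinAt

lemma log_mahler (P : ℂ[X]) :
    circleAverage (fun x => log ‖P.eval x‖) 0 1 = log P.mahlerMeasure := by
  rw [← logMahlerMeasure_eq_log_MahlerMeasure]; rfl

/-- the sum of the truncated means -/
lemma LL_sum (he : 0 < e) (hd : u.natDegree = 2 * e) (hu0 : u.coeff 0 ≠ 0)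
    (hHu : ∀ x : ℂ, x ≠ 0 → x ^ e * H.eval (x + x⁻¹) = (u.map (Int.castRingHom ℂ)).eval x)
    (B : Finset ℂ) {c : ℝ} (hc0 : 0 < c) (hc1 : c ≤ 1) {Λ : ℝ} (hΛ : 4 ≤ Λ) {M : ℝ}
    (hM : ∀ w : ℂ, ((B.filter fun β => ‖w - β‖ < c).card : ℝ) ≤ M) {b : ℂ} {m₀ : ℝ}
    (hb : mp (Pb u e b) ≤ m₀) :
    ∑ β ∈ B, LL H β c ≤ ∑ β ∈ B, log (Pb u e β).mahlerMeasure + M * (log Λ + (6 * log 2 + m₀)) +
      B.card * (8 / Λ) := by
  classical
  have hM0 : 0 ≤ M := le_trans (Nat.cast_nonneg _) (hM 0)
  have heu : e < u.natDegree := by omega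
  have hde : (X ^ e : ℤ[X]).natDegree < u.natDegree := by rwa [natDegree_X_pow]
  set d := u.natDegree with hdd
  have hd0 : 0 < d := by omega
  have hdR : (0:ℝ) < d := by exact_mod_cast hd0
  have hΛ0 : 0 < Λ := by linarith
  have hPd : ∀ β, (Pb u e β).natDegree = d := fun β => (fb_natDegree hde β).1
  have hP0 : ∀ β, Pb u e β ≠ 0 := fun β => fb_ne_zero hde β
  set W := WW e (Pb u e b) with hW
  have hWβ : ∀ β, WW e (Pb u e β) = W := by
    intro β
    rw [hW, WW_Pb, WW_Pb]
  have hWm : (d : ℝ) / 2 ≤ W.mahlerMeasure := WW_measure heu (Or.inr hu0) b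
  have hW0 : W ≠ 0 := by
    intro h
    rw [h, mahlerMeasure_zero] at hWm
    linarith [half_pos hdR]
  have hI1 : ∀ β, CircleIntegrable ((fun x => log ‖(Pb u e β).eval x‖) +
      fun x => log⁺ ‖W.eval x / (C ((Λ * d : ℝ) : ℂ) * Pb u e β).eval x‖) 0 1 :=
    fun β => (log_int _).add (posLog_ratio_int _ _)
  have hI2 : CircleIntegrable (((fun x => log⁺ ‖W.eval x / (C (d : ℂ) * Pb u e b).eval x‖) +
      (fun x => log⁺ ‖(Pb u e b).eval x‖)) - (fun x => log ‖W.eval x‖) +
      fun _ => log Λ + log d) 0 1 :=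
    (((posLog_ratio_int _ _).add (posLog_int _)).sub (log_int _)).add (circleIntegrable_const _ _ _)
  have hmain : ∑ β ∈ B, LL H β c ≤ circleAverage
      ((∑ β ∈ B, ((fun x => log ‖(Pb u e β).eval x‖) +
      fun x => log⁺ ‖W.eval x / (C ((Λ * d : ℝ) : ℂ) * Pb u e β).eval x‖)) +
      M • (((fun x => log⁺ ‖W.eval x / (C (d : ℂ) * Pb u e b).eval x‖) +
      (fun x => log⁺ ‖(Pb u e b).eval x‖)) - (fun x => log ‖W.eval x‖) +
      fun _ => log Λ + log d)) 0 1 := by
    have e1 : ∑ β ∈ B, LL H β c =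
        circleAverage (∑ β ∈ B, fun x => log (max ‖(Pb u e β).eval x‖ c)) 0 1 := by
      rw [circleAverage_sum fun β _ => max_int _ hc0]
      exact Finset.sum_congr rfl fun β _ => LL_int hHu β c
    rw [e1]
    apply circleAverage_mono_off (CircleIntegrable.sum _ fun β _ => max_int _ hc0)
      ((CircleIntegrable.sum _ fun β _ => hI1 β).add hI2.const_smul)
      (Z := ((⋃ β ∈ B, {x | (Pb u e β).eval x = 0}) ∪ {x | (Pb u e b).eval x = 0}) ∪
        {x | W.eval x = 0})
      (((Set.Countable.biUnion (Finset.countable_toSet _) fun β _ => roots_countable (hP0 β)).union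
        (roots_countable (hP0 b))).union (roots_countable hW0))
    intro x hx hx2
    rw [Set.mem_union, Set.mem_union, not_or, not_or] at hx2
    obtain ⟨⟨h1, h2⟩, h3⟩ := hx2
    simp only [Set.mem_iUnion, Set.mem_ofPred_eq, not_exists] at h1 h2 h3
    rw [mem_sphere_zero_iff_norm] at hx
    have hx0 : x ≠ 0 := by
      rintro rfl
      simp at hx
    simp only [Pi.add_apply, Pi.sub_apply, Pi.smul_apply, Finset.sum_apply, smul_eq_mul]
    have hWn : 0 < ‖W.eval x‖ := norm_pos_iff.mpr h3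
    have hbn : 0 < ‖(Pb u e b).eval x‖ := norm_pos_iff.mpr h2
    -- the last bracket
    set K := log⁺ ‖W.eval x / (C (d : ℂ) * Pb u e b).eval x‖ + log⁺ ‖(Pb u e b).eval x‖ -
      log ‖W.eval x‖ + (log Λ + log d) with hK
    have hKw : log⁺ (‖W.eval x‖ / d) ≤ log⁺ ‖W.eval x / (C (d : ℂ) * Pb u e b).eval x‖ +
        log⁺ ‖(Pb u e b).eval x‖ := by
      have g1 : ‖W.eval x‖ / d = ‖W.eval x / (C (d : ℂ) * Pb u e b).eval x‖ *
          ‖(Pb u e b).eval x‖ := by
        rw [eval_mul, eval_C, norm_div, norm_mul, Complex.norm_natCast]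
        field_simp
      rw [g1]
      exact posLog_mul
    have hK1 : log Λ + (log d - log ‖W.eval x‖) ≤ K := by
      have : 0 ≤ log⁺ ‖W.eval x / (C (d : ℂ) * Pb u e b).eval x‖ := posLog_nonneg
      have : 0 ≤ log⁺ ‖(Pb u e b).eval x‖ := posLog_nonneg
      rw [hK]
      linarith
    have hK0 : 0 ≤ K := by
      have g1 : log (‖W.eval x‖ / d) ≤ log⁺ (‖W.eval x‖ / d) := le_max_right _ _
      rw [log_div hWn.ne' hdR.ne'] at g1
      have g2 : 0 ≤ log Λ := log_nonneg (by linarith)
      rw [hK]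
      linarith
    have hpt : ∀ β ∈ B, log (max ‖(Pb u e β).eval x‖ c) ≤
        (log ‖(Pb u e β).eval x‖ + log⁺ ‖W.eval x / (C ((Λ * d : ℝ) : ℂ) * Pb u e β).eval x‖) +
        (if ‖(Pb u e β).eval x‖ < c then K else 0) := by
      intro β hβ
      have hβn : 0 < ‖(Pb u e β).eval x‖ := norm_pos_iff.mpr (h1 β hβ)
      split_ifs with h4
      · rw [max_eq_right h4.le]
        have g1 : log c ≤ 0 := log_nonpos hc0.le hc1
        have g2 : ‖W.eval x / (C ((Λ * d : ℝ) : ℂ) * Pb u e β).eval x‖ =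
            ‖W.eval x‖ / (Λ * d * ‖(Pb u e β).eval x‖) := by
          rw [eval_mul, eval_C, norm_div, norm_mul, Complex.norm_real, Real.norm_eq_abs,
            abs_of_pos (by positivity)]
        have g3 : log (‖W.eval x‖ / (Λ * d * ‖(Pb u e β).eval x‖)) ≤
            log⁺ (‖W.eval x‖ / (Λ * d * ‖(Pb u e β).eval x‖)) := le_max_right _ _
        rw [log_div hWn.ne' (by positivity), log_mul (by positivity) hβn.ne',
          log_mul hΛ0.ne' hdR.ne'] at g3
        rw [g2]
        linarith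
      · rw [max_eq_left (not_lt.mp h4)]
        have : 0 ≤ log⁺ ‖W.eval x / (C ((Λ * d : ℝ) : ℂ) * Pb u e β).eval x‖ := posLog_nonneg
        linarith
    refine (Finset.sum_le_sum hpt).trans ?_
    rw [Finset.sum_add_distrib]
    have g5 : ∑ β ∈ B, (if ‖(Pb u e β).eval x‖ < c then K else 0) ≤ M * K := by
      rw [← Finset.sum_filter, Finset.sum_const, nsmul_eq_mul]
      apply mul_le_mul_of_nonneg_right _ hK0
      have g6 := hM (H.eval (x + x⁻¹))
      have g7 : B.filter (fun β => ‖(Pb u e β).eval x‖ < c) =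
          B.filter (fun β => ‖H.eval (x + x⁻¹) - β‖ < c) := by
        apply Finset.filter_congr
        intro β _
        rw [norm_Pb hHu β hx]
      rw [g7]
      exact g6
    linarith
  refine hmain.trans ?_
  rw [circleAverage_add (CircleIntegrable.sum _ fun β _ => hI1 β) hI2.const_smul,
    circleAverage_smul, circleAverage_sum fun β _ => hI1 β,
    circleAverage_add (((posLog_ratio_int _ _).add (posLog_int _)).sub (log_int _))
      (circleIntegrable_const _ _ _),
    circleAverage_sub ((posLog_ratio_int _ _).add (posLog_int _)) (log_int _),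
    circleAverage_add (posLog_ratio_int _ _) (posLog_int _), circleAverage_const, log_mahler,
    smul_eq_mul]
  have k1 : ∑ β ∈ B, circleAverage ((fun x => log ‖(Pb u e β).eval x‖) +
      fun x => log⁺ ‖W.eval x / (C ((Λ * d : ℝ) : ℂ) * Pb u e β).eval x‖) 0 1 ≤
      ∑ β ∈ B, (log (Pb u e β).mahlerMeasure + 8 / Λ) := by
    apply Finset.sum_le_sum
    intro β _
    rw [circleAverage_add (log_int _) (posLog_ratio_int _ _), log_mahler]
    have g1 := avg_WW_small (hPd β) hd0 (by omega : e ≤ d) hΛ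
    rw [hWβ] at g1
    linarith
  rw [Finset.sum_add_distrib, Finset.sum_const, nsmul_eq_mul] at k1
  have k2 := avg_WW (hPd b) hd0 (by omega : e ≤ d)
  have k3 : circleAverage (fun x => log⁺ ‖(Pb u e b).eval x‖) 0 1 ≤ m₀ := hb
  have k4 : log d - log 2 ≤ log W.mahlerMeasure := by
    rw [← log_div hdR.ne' (by norm_num)]
    exact log_le_log (by positivity) hWm
  have k5 : M * (circleAverage (fun x => log⁺ ‖W.eval x / (C (d : ℂ) * Pb u e b).eval x‖) 0 1 +
      circleAverage (fun x => log⁺ ‖(Pb u e b).eval x‖) 0 1 - log W.mahlerMeasure + (log Λ + log d)) ≤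
      M * (log Λ + (6 * log 2 + m₀)) := by
    apply mul_le_mul_of_nonneg_left _ hM0
    linarith
  linarith

/-- the distance between two elements is controlled by the means -/
lemma dist_le (β β' : ℂ) : log⁺ ‖β - β'‖ ≤ log 2 + mp (Pb u e β) + mp (Pb u e β') := by
  have h1 : log⁺ ‖β - β'‖ = circleAverage (fun _ => log⁺ ‖β - β'‖) 0 1 := by
    rw [circleAverage_const]
  have h2 : log 2 + mp (Pb u e β) + mp (Pb u e β') =
      circleAverage (((fun _ => log 2) + (fun x => log⁺ ‖(Pb u e β).eval x‖)) +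
        (fun x => log⁺ ‖(Pb u e β').eval x‖)) 0 1 := by
    rw [circleAverage_add ((circleIntegrable_const _ _ _).add (posLog_int _)) (posLog_int _),
      circleAverage_add (circleIntegrable_const _ _ _) (posLog_int _), circleAverage_const]
    rfl
  rw [h1, h2]
  apply circleAverage_mono (circleIntegrable_const _ _ _)
    (((circleIntegrable_const _ _ _).add (posLog_int _)).add (posLog_int _))
  intro x hx
  rw [abs_one, mem_sphere_zero_iff_norm] at hx
  simp only [Pi.add_apply]
  have h3 : ‖β - β'‖ = ‖(Pb u e β').eval x + (-(Pb u e β).eval x)‖ := by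
    have : (Pb u e β').eval x + (-(Pb u e β).eval x) = (β - β') * x ^ e := by
      rw [Pb_sub u e β' β]
      simp
    rw [this, norm_mul, norm_pow, hx, one_pow, mul_one]
  rw [h3]
  have h4 : ‖(Pb u e β').eval x + (-(Pb u e β).eval x)‖ ≤ ‖(Pb u e β').eval x‖ + ‖(Pb u e β).eval x‖ := by
    refine (norm_add_le _ _).trans ?_
    rw [norm_neg]
  have h5 := posLog_le_posLog (norm_nonneg _) h4
  have h6 := posLog_add (x := ‖(Pb u e β').eval x‖) (y := ‖(Pb u e β).eval x‖)
  linarith

end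

/-- few points in a small disc -/
lemma few_points (B : Finset ℂ) {c : ℝ} (hc0 : 0 < c) (hc1 : 2 * c < 1) {a : ℂ → ℝ}
    (ha : ∀ β ∈ B, 0 ≤ a β) (hpair : ∀ β ∈ B, ∀ β' ∈ B, log⁺ ‖β - β'‖ ≤ a β + a β')
    (hB : 0 ≤ ∑ β ∈ B, ∑ β' ∈ B.erase β, log ‖β - β'‖) (w : ℂ) :
    ((B.filter fun β => ‖w - β‖ < c).card : ℝ) * (((B.filter fun β => ‖w - β‖ < c).card : ℝ) - 1) *
      log (1 / (2 * c)) ≤ 2 * B.card * ∑ β ∈ B, a β := by
  classical
  set S := B.filter fun β => ‖w - β‖ < c with hS
  have hSB : S ⊆ B := Finset.filter_subset _ _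
  have hl : 0 < log (1 / (2 * c)) := by
    apply log_pos
    rw [lt_div_iff₀ (by positivity)]
    linarith
  set ℓ := log (1 / (2 * c)) with hℓ
  have hcard : ∀ β ∈ B, ∑ β' ∈ B.erase β, (a β + a β') ≤ B.card * a β + ∑ β' ∈ B, a β' := by
    intro β hβ
    rw [Finset.sum_add_distrib, Finset.sum_const, nsmul_eq_mul]
    have g1 : ((B.erase β).card : ℝ) ≤ B.card := by
      exact_mod_cast Finset.card_le_card (Finset.erase_subset _ _)
    have g2 := mul_le_mul_of_nonneg_right g1 (ha β hβ)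
    have g3 : ∑ β' ∈ B.erase β, a β' ≤ ∑ β' ∈ B, a β' :=
      Finset.sum_le_sum_of_subset_of_nonneg (Finset.erase_subset _ _) fun x hx _ => ha x hx
    linarith
  have h1 : ∀ β ∈ B, ∑ β' ∈ B.erase β, log ‖β - β'‖ ≤
      (B.card * a β + ∑ β' ∈ B, a β') - (if β ∈ S then ((S.card : ℝ) - 1) * ℓ else 0) := by
    intro β hβ
    have hc := hcard β hβ
    split_ifs with h2
    · have h3 : ∀ β' ∈ B.erase β, log ‖β - β'‖ ≤ (a β + a β') - (if β' ∈ S then ℓ else 0) := by
        intro β' hβ'
        have hβ'B := Finset.mem_of_mem_erase hβ'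
        have hne : β - β' ≠ 0 := sub_ne_zero.mpr (Finset.ne_of_mem_erase hβ').symm
        split_ifs with h4
        · have g1 : ‖β - β'‖ ≤ 2 * c := by
            have g2 := (Finset.mem_filter.mp h2).2
            have g3 := (Finset.mem_filter.mp h4).2
            have g4 : β - β' = -(w - β) + (w - β') := by ring
            rw [g4]
            refine (norm_add_le _ _).trans ?_
            rw [norm_neg]
            linarith
          have g5 := log_le_log (norm_pos_iff.mpr hne) g1
          have g6 := ha β hβ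
          have g7 := ha β' hβ'B
          rw [hℓ, one_div, log_inv]
          linarith
        · have g1 : log ‖β - β'‖ ≤ log⁺ ‖β - β'‖ := le_max_right _ _
          have g2 := hpair β hβ β' hβ'B
          linarith
      refine (Finset.sum_le_sum h3).trans ?_
      rw [Finset.sum_sub_distrib, ← Finset.sum_filter, Finset.sum_const, nsmul_eq_mul]
      have g5 : (B.erase β).filter (fun x => x ∈ S) = S.erase β := by
        ext x
        simp only [Finset.mem_filter, Finset.mem_erase]
        constructor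
        · rintro ⟨⟨g6, _⟩, g7⟩
          exact ⟨g6, g7⟩
        · rintro ⟨g6, g7⟩
          exact ⟨⟨g6, hSB g7⟩, g7⟩
      rw [g5, Finset.card_erase_of_mem h2, Nat.cast_sub (Finset.card_pos.mpr ⟨β, h2⟩), Nat.cast_one]
      linarith
    · rw [sub_zero]
      refine le_trans (Finset.sum_le_sum fun β' hβ' => ?_) hc
      have g1 : log ‖β - β'‖ ≤ log⁺ ‖β - β'‖ := le_max_right _ _
      exact g1.trans (hpair β hβ β' (Finset.mem_of_mem_erase hβ'))
  have h2 := hB.trans (Finset.sum_le_sum h1)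
  rw [Finset.sum_sub_distrib, Finset.sum_add_distrib, ← Finset.mul_sum, Finset.sum_const, nsmul_eq_mul,
    ← Finset.sum_filter, Finset.sum_const, nsmul_eq_mul] at h2
  have h3 : B.filter (fun x => x ∈ S) = S := by
    ext x
    simp only [Finset.mem_filter]
    exact ⟨fun h => h.2, fun h => ⟨hSB h, h⟩⟩
  rw [h3] at h2
  linarith

end Pool.Agent.Zk21.Un
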