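import Mathlib
import Pool.Agent.Zk21.UnD

/-!
# Congruences in the fibres
-/

set_option autoImplicit false

open Polynomial Real

namespace Pool.Agent.Zk21.Un

lemma frob_H (H : ℤ[X]) (p : ℕ) [Fact p.Prime] :
    ∃ E : ℤ[X], H.comp (dickson 1 (1 : ℤ) p) = H ^ p + C (p : ℤ) * E := by
  have h : C (p : ℤ) ∣ H.comp (dickson 1 (1 : ℤ) p) - H ^ p := by
    rw [C_dvd_iff_dvd_coeff]
    intro i
    rw [← CharP.intCast_eq_zero_iff (ZMod p) p]
    have h1 : (H.comp (dickson 1 (1 : ℤ) p) - H ^ p).map (Int.castRingHom (ZMod p)) = 0 := by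
      rw [Polynomial.map_sub, Polynomial.map_comp, map_dickson, Polynomial.map_pow, map_one,
        dickson_one_one_zmod_p, ← ZMod.expand_card (H.map (Int.castRingHom (ZMod p))),
        expand_eq_comp_X_pow, sub_self]
    have h2 := congrArg (fun P => P.coeff i) h1
    simp only [coeff_map, coeff_zero] at h2
    exact h2
  obtain ⟨E, hE⟩ := h
  exact ⟨E, by rw [← hE]; ring⟩

section galois

variable {K : Type*} [Field K] [Algebra ℚ K] [IsGalois ℚ K] [FiniteDimensional ℚ K]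

lemma one_le_of_fixed {x : K} (hx : IsIntegral ℤ x) (h0 : x ≠ 0) (hf : ∀ σ : K ≃ₐ[ℚ] K, σ x = x)
    (φ : K →+* ℂ) : 1 ≤ ‖φ x‖ := by
  obtain ⟨r, hr⟩ := (IsGalois.mem_range_algebraMap_iff_fixed x).mpr hf
  have h1 : IsIntegral ℤ r := by
    rw [← hr] at hx
    exact (isIntegral_algebraMap_iff (algebraMap ℚ K).injective).mp hx
  obtain ⟨z, hz⟩ := IsIntegrallyClosed.isIntegral_iff.mp h1
  have h2 : φ x = (z : ℂ) := by
    rw [← hr, ← hz]
    simp
  rw [h2, Complex.norm_intCast]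
  have h3 : z ≠ 0 := by
    rintro rfl
    apply h0
    rw [← hr, ← hz]
    simp
  exact_mod_cast Int.one_le_abs h3

theorem pairs_bound [DecidableEq K] {G : ℚ[X]} (hG : Irreducible G) (R : Finset K)
    (hR : ∀ X, X ∈ R ↔ aeval X G = 0) (hint : ∀ X ∈ R, IsIntegral ℤ X) (H E A : ℤ[X]) {p : ℕ}
    (hp : p.Prime) (hE : A = H ^ p + C (p : ℤ) * E) (φ : K →+* ℂ) (b : ℂ)
    (hne : ∃ X ∈ R, ∃ X' ∈ R, aeval X H = aeval X' H ∧ aeval X A ≠ aeval X' A) :
    (R.card : ℝ) * log (p / 2) ≤ 2 * ∑ X ∈ R, log⁺ ‖φ (aeval X A) - b‖ := by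
  classical
  have hpR : (0:ℝ) < p := by exact_mod_cast hp.pos
  set N : K → Finset K := fun X => R.filter fun X' => aeval X H = aeval X' H ∧ aeval X A ≠ aeval X' A
    with hN
  set P : Finset (K × K) := (R ×ˢ R).filter fun x => aeval x.1 H = aeval x.2 H ∧
    aeval x.1 A ≠ aeval x.2 A with hP
  have hσR : ∀ (σ : K ≃ₐ[ℚ] K) {X : K}, X ∈ R → σ X ∈ R := by
    intro σ X hX
    rw [hR] at hX ⊢
    have h1 := aeval_algHom_apply σ.toAlgHom X G
    have h2 : aeval (σ X) G = σ (aeval X G) := h1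
    rw [h2, hX, map_zero]
  have hσa : ∀ (σ : K ≃ₐ[ℚ] K) (X : K) (F : ℤ[X]), aeval (σ X) F = σ (aeval X F) := by
    intro σ X F
    exact aeval_algHom_apply (σ.toAlgHom.restrictScalars ℤ) X F
  have hNc : ∀ X ∈ R, ∀ Y ∈ R, (N X).card ≤ (N Y).card := by
    intro X hX Y hY
    have hXalg : IsAlgebraic ℚ X := Algebra.IsAlgebraic.isAlgebraic X
    have hmin : minpoly ℚ X = G * C (G.leadingCoeff)⁻¹ :=
      (minpoly.eq_of_irreducible hG ((hR X).mp hX)).symm
    obtain ⟨σ, hσ⟩ := minpoly.exists_algEquiv_of_root' (K := ℚ) (L := K) (x := Y) (y := X) hXalg (by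
      rw [hmin, map_mul, (hR Y).mp hY, zero_mul])
    apply Finset.card_le_card_of_injOn σ
    · intro Z hZ
      rw [hN] at hZ ⊢
      simp only [Finset.coe_filter, Set.mem_ofPred_eq] at hZ ⊢
      obtain ⟨h1, h2, h3⟩ := hZ
      refine ⟨hσR σ h1, ?_, ?_⟩
      · rw [← hσ, hσa, hσa, h2]
      · rw [← hσ, hσa, hσa]
        intro h4
        exact h3 (σ.injective h4)
    · exact σ.injective.injOn
  obtain ⟨X₀, hX₀, X₁, hX₁, hXH, hXA⟩ := hne
  set q := (N X₀).card with hq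
  have hqc : ∀ X ∈ R, (N X).card = q := fun X hX =>
    le_antisymm (hNc X hX X₀ hX₀) (hNc X₀ hX₀ X hX)
  have hq0 : 0 < q := Finset.card_pos.mpr ⟨X₁, Finset.mem_filter.mpr ⟨hX₁, hXH, hXA⟩⟩
  have hsum : ∀ F : K → K → ℝ, ∑ x ∈ P, F x.1 x.2 = ∑ X ∈ R, ∑ X' ∈ N X, F X X' := by
    intro F
    rw [hP, Finset.sum_filter, Finset.sum_product]
    refine Finset.sum_congr rfl fun X _ => ?_
    rw [hN, Finset.sum_filter]
  -- the product
  set Q0 := ∏ x ∈ P, (aeval x.1 E - aeval x.2 E) with hQ0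
  have haE : ∀ x ∈ P, aeval x.1 A - aeval x.2 A = (p : K) * (aeval x.1 E - aeval x.2 E) := by
    intro x hx
    obtain ⟨_, h1, _⟩ := Finset.mem_filter.mp hx
    rw [hE]
    have h2 : ∀ X : K, aeval X (C (p : ℤ)) = (p : K) := by
      intro X
      rw [aeval_C]
      simp
    rw [map_add, map_mul, map_pow, h2, map_add, map_mul, map_pow, h2, h1]
    ring
  have hE0 : ∀ x ∈ P, aeval x.1 E - aeval x.2 E ≠ 0 := by
    intro x hx h0
    have h1 := haE x hx
    rw [h0, mul_zero] at h1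
    exact (Finset.mem_filter.mp hx).2.2 (sub_eq_zero.mp h1)
  have hQ00 : Q0 ≠ 0 := Finset.prod_ne_zero_iff.mpr hE0
  have hQ0int : IsIntegral ℤ Q0 := by
    apply IsIntegral.prod
    intro x hx
    obtain ⟨h1, h2⟩ := Finset.mem_product.mp (Finset.mem_filter.mp hx).1
    have key : ∀ X ∈ R, IsIntegral ℤ (aeval X E) := by
      intro X hX
      exact adjoin_le_integralClosure (hint X hX) (aeval_mem_adjoin_singleton ℤ X)
    exact (key _ h1).sub (key _ h2)
  have hQ0fix : ∀ σ : K ≃ₐ[ℚ] K, σ Q0 = Q0 := by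
    intro σ
    rw [hQ0, map_prod]
    have hmem : ∀ (σ : K ≃ₐ[ℚ] K) (x : K × K), x ∈ P → (σ x.1, σ x.2) ∈ P := by
      intro σ x hx
      obtain ⟨h1, h2, h3⟩ := Finset.mem_filter.mp hx
      obtain ⟨h4, h5⟩ := Finset.mem_product.mp h1
      refine Finset.mem_filter.mpr ⟨Finset.mem_product.mpr ⟨hσR σ h4, hσR σ h5⟩, ?_, ?_⟩
      · rw [hσa, hσa, h2]
      · rw [hσa, hσa]
        intro h6
        exact h3 (σ.injective h6)
    refine Finset.prod_nbij' (fun x => (σ x.1, σ x.2)) (fun x => (σ.symm x.1, σ.symm x.2))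
      (fun x hx => hmem σ x hx) (fun x hx => hmem σ.symm x hx) (by simp) (by simp) ?_
    intro x _
    rw [map_sub, hσa, hσa]
  have h1 := one_le_of_fixed hQ0int hQ00 hQ0fix φ
  rw [hQ0, map_prod, norm_prod] at h1
  have h2 : 0 ≤ ∑ x ∈ P, log ‖φ (aeval x.1 E - aeval x.2 E)‖ := by
    rw [← log_prod]
    · exact log_nonneg h1
    · intro x hx
      exact norm_ne_zero_iff.mpr ((map_ne_zero φ).mpr (hE0 x hx))
  have h3 : ∀ x ∈ P, log p + log ‖φ (aeval x.1 E - aeval x.2 E)‖ ≤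
      log 2 + log⁺ ‖φ (aeval x.1 A) - b‖ + log⁺ ‖φ (aeval x.2 A) - b‖ := by
    intro x hx
    have g1 := hE0 x hx
    have g2 : ‖φ (aeval x.1 E - aeval x.2 E)‖ ≠ 0 := norm_ne_zero_iff.mpr ((map_ne_zero φ).mpr g1)
    rw [← log_mul hpR.ne' g2]
    have g3 : (p : ℝ) * ‖φ (aeval x.1 E - aeval x.2 E)‖ =
        ‖(φ (aeval x.1 A) - b) + (-(φ (aeval x.2 A) - b))‖ := by
      have g4 : (φ (aeval x.1 A) - b) + (-(φ (aeval x.2 A) - b)) = φ (aeval x.1 A - aeval x.2 A) := by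
        rw [map_sub]
        ring
      rw [g4, haE x hx, map_mul, norm_mul, map_natCast, Complex.norm_natCast]
    rw [g3]
    have g5 : log ‖(φ (aeval x.1 A) - b) + (-(φ (aeval x.2 A) - b))‖ ≤
        log⁺ ‖(φ (aeval x.1 A) - b) + (-(φ (aeval x.2 A) - b))‖ := le_max_right _ _
    have g6 := posLog_le_posLog (norm_nonneg _) (norm_add_le (φ (aeval x.1 A) - b)
      (-(φ (aeval x.2 A) - b)))
    have g7 := posLog_add (x := ‖φ (aeval x.1 A) - b‖) (y := ‖-(φ (aeval x.2 A) - b)‖)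
    rw [norm_neg] at g7 g6
    linarith
  have h4 := Finset.sum_le_sum h3
  rw [Finset.sum_add_distrib, Finset.sum_add_distrib, Finset.sum_add_distrib, Finset.sum_const,
    Finset.sum_const, nsmul_eq_mul, nsmul_eq_mul] at h4
  have h5 : ∑ x ∈ P, log⁺ ‖φ (aeval x.1 A) - b‖ = q * ∑ X ∈ R, log⁺ ‖φ (aeval X A) - b‖ := by
    rw [hsum fun X _ => log⁺ ‖φ (aeval X A) - b‖, Finset.mul_sum]
    refine Finset.sum_congr rfl fun X hX => ?_
    rw [Finset.sum_const, nsmul_eq_mul, hqc X hX]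
  have h6 : ∑ x ∈ P, log⁺ ‖φ (aeval x.2 A) - b‖ = ∑ x ∈ P, log⁺ ‖φ (aeval x.1 A) - b‖ := by
    have hmem : ∀ x : K × K, x ∈ P → x.swap ∈ P := by
      intro x hx
      obtain ⟨h1, h2, h3⟩ := Finset.mem_filter.mp hx
      obtain ⟨h4, h5⟩ := Finset.mem_product.mp h1
      exact Finset.mem_filter.mpr ⟨Finset.mem_product.mpr ⟨h5, h4⟩, h2.symm, h3.symm⟩
    exact Finset.sum_nbij' Prod.swap Prod.swap (fun x hx => hmem x hx) (fun x hx => hmem x hx)
      (by simp) (by simp) (by simp)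
  have h7 : (P.card : ℝ) = q * R.card := by
    have g1 := hsum fun _ _ => 1
    simp only [Finset.sum_const, nsmul_eq_mul, mul_one] at g1
    rw [g1, Finset.sum_congr rfl fun X hX => by rw [hqc X hX], Finset.sum_const, nsmul_eq_mul]
    ring
  rw [h6, h5, h7] at h4
  have hqR : (0:ℝ) < q := by exact_mod_cast hq0
  rw [log_div hpR.ne' (by norm_num)]
  have h8 : (q : ℝ) * (R.card * (log p - log 2)) ≤ q * (2 * ∑ X ∈ R, log⁺ ‖φ (aeval X A) - b‖) := by
    linarith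
  exact le_of_mul_le_mul_left h8 hqR

end galois

end Pool.Agent.Zk21.Un
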