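import Mathlib
import Pool.Agent.Zk21.UnE
import Pool.Agent.Zk21.UnG
import Pool.Agent.Zk21.SmtD

/-!
# The lower bound from congruences, and the special polynomials
-/

set_option autoImplicit false

open Polynomial Real

namespace Pool.Agent.Zk21.Un

open Pool.Agent.R328 Pool.Agent.Zk21.Smt Pool.Agent.Zk21.Dec

lemma castC_inj : Function.Injective (Int.castRingHom ℂ) := (Int.castRingHom ℂ).injective_int

lemma norm_lc_map {H : ℤ[X]} (h : |H.leadingCoeff| = 1) :
    ‖(H.map (Int.castRingHom ℂ)).leadingCoeff‖ = 1 := by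
  rw [leadingCoeff_map_of_injective castC_inj, eq_intCast, Complex.norm_intCast]
  exact_mod_cast h

/-- distinct roots -/
lemma card_toFinset_roots {G : ℤ[X]} (hG : Irreducible G) (hd : 0 < G.natDegree) :
    (G.map (Int.castRingHom ℂ)).roots.toFinset.card = G.natDegree := by
  have hgQ : Irreducible (G.map (Int.castRingHom ℚ)) := by
    have hprim : G.IsPrimitive := hG.isPrimitive (by omega)
    exact (IsPrimitive.Int.irreducible_iff_irreducible_map_cast hprim).mp hG
  have hsepC : (G.map (Int.castRingHom ℂ)).Separable := by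
    have h1 := hgQ.separable.map (f := algebraMap ℚ ℂ)
    have h2 : (G.map (Int.castRingHom ℚ)).map (algebraMap ℚ ℂ) = G.map (Int.castRingHom ℂ) := by
      rw [Polynomial.map_map]
      congr 1
    rwa [h2] at h1
  rw [Multiset.toFinset_card_of_nodup (nodup_roots hsepC), card_roots_map]

lemma exists_splitting {F : Type} [Field F] (f : F[X]) :
    ∃ (K : Type) (_ : Field K) (_ : Algebra F K), IsSplittingField F K f :=
  ⟨f.SplittingField, inferInstance, inferInstance, inferInstance⟩

section generic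

variable {K : Type*} [Field K] [Algebra ℚ K] [IsGalois ℚ K] [FiniteDimensional ℚ K]

lemma pairs_complex_aux {G : ℤ[X]} (hirr : Irreducible G) (hGd0 : 0 < G.natDegree)
    (hGl : |G.leadingCoeff| = 1)
    (hsplit : ((G.map (Int.castRingHom ℚ)).map (algebraMap ℚ K)).Splits)
    (φ : K →ₐ[ℚ] ℂ) (H : ℤ[X]) {p : ℕ} (hp : p.Prime) (b : ℂ)
    (hne : ∃ X X' : ℂ, (G.map (Int.castRingHom ℂ)).eval X = 0 ∧
      (G.map (Int.castRingHom ℂ)).eval X' = 0 ∧
      (H.map (Int.castRingHom ℂ)).eval X = (H.map (Int.castRingHom ℂ)).eval X' ∧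
      ((H.map (Int.castRingHom ℂ)).comp (dickson 1 (1 : ℂ) p)).eval X ≠
        ((H.map (Int.castRingHom ℂ)).comp (dickson 1 (1 : ℂ) p)).eval X') :
    (G.natDegree : ℝ) * log (p / 2) ≤
      2 * ∑ Y ∈ (G.map (Int.castRingHom ℂ)).roots.toFinset,
        log⁺ ‖((H.map (Int.castRingHom ℂ)).comp (dickson 1 (1 : ℂ) p)).eval Y - b‖ := by
  classical
  have _inst : Fact p.Prime := ⟨hp⟩
  set HC := H.map (Int.castRingHom ℂ) with hHC
  set GQ := G.map (Int.castRingHom ℚ) with hGQ
  have hgQ : Irreducible GQ := by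
    have hprim : G.IsPrimitive := hirr.isPrimitive (by omega)
    exact (IsPrimitive.Int.irreducible_iff_irreducible_map_cast hprim).mp hirr
  set R : Finset K := (GQ.aroots K).toFinset with hR
  have hRmem : ∀ X : K, X ∈ R ↔ aeval X GQ = 0 := by
    intro X
    rw [hR, Multiset.mem_toFinset, mem_aroots]
    exact ⟨fun h => h.2, fun h => ⟨hgQ.ne_zero, h⟩⟩
  have haG : ∀ X : K, aeval X GQ = aeval X G := by
    intro X
    rw [hGQ]
    exact aeval_map_algebraMap ℚ X G
  have hint : ∀ X ∈ R, IsIntegral ℤ X := by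
    intro X hX
    rw [hRmem, haG] at hX
    refine ⟨C G.leadingCoeff * G, ?_, ?_⟩
    · rw [Monic, leadingCoeff_mul, leadingCoeff_C]
      have := abs_mul_abs_self G.leadingCoeff
      rw [hGl] at this
      linarith
    · have : eval₂ (algebraMap ℤ K) X (C G.leadingCoeff * G) = aeval X (C G.leadingCoeff * G) := rfl
      rw [this, map_mul, hX, mul_zero]
  obtain ⟨E, hE⟩ := frob_H H p
  set A := H.comp (dickson 1 (1 : ℤ) p) with hA
  have hAC : A.map (Int.castRingHom ℂ) = HC.comp (dickson 1 (1 : ℂ) p) := by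
    rw [hA, Polynomial.map_comp, map_dickson, map_one]
  have hφ : ∀ (X : K) (F : ℤ[X]), φ (aeval X F) = (F.map (Int.castRingHom ℂ)).eval (φ X) := by
    intro X F
    have h1 := aeval_algHom_apply (φ.restrictScalars ℤ) X F
    rw [aeval_def, eval₂_eq_eval_map] at h1
    exact h1.symm
  have himg : φ '' GQ.rootSet K = GQ.rootSet ℂ := Splits.image_rootSet hsplit φ
  set RC := (G.map (Int.castRingHom ℂ)).roots.toFinset with hRC
  have hGC0 : G.map (Int.castRingHom ℂ) ≠ 0 := (Polynomial.map_ne_zero_iff castC_inj).mpr hirr.ne_zero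
  have hRCmem : ∀ Y : ℂ, Y ∈ RC ↔ (G.map (Int.castRingHom ℂ)).eval Y = 0 := by
    intro Y
    rw [hRC, Multiset.mem_toFinset, mem_roots hGC0]
    rfl
  have haGC : ∀ Y : ℂ, aeval Y GQ = (G.map (Int.castRingHom ℂ)).eval Y := by
    intro Y
    have h1 : aeval Y GQ = aeval Y G := aeval_map_algebraMap ℚ Y G
    rw [h1, aeval_def, eval₂_eq_eval_map]
    rfl
  have hRimg : R.image φ = RC := by
    ext Y
    rw [Finset.mem_image, hRCmem]
    constructor
    · rintro ⟨X, hX, rfl⟩
      rw [hRmem, haG] at hX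
      rw [← hφ, hX, map_zero]
    · intro hY
      have h1 : Y ∈ GQ.rootSet ℂ := by
        rw [mem_rootSet]
        exact ⟨hgQ.ne_zero, by rw [haGC, hY]⟩
      rw [← himg] at h1
      obtain ⟨X, hX, hXY⟩ := h1
      rw [mem_rootSet] at hX
      exact ⟨X, (hRmem X).mpr hX.2, hXY⟩
  have hφinj : Function.Injective φ := φ.toRingHom.injective
  have hRcard : R.card = RC.card := by
    rw [← hRimg, Finset.card_image_of_injective _ hφinj]
  have hRCcard : RC.card = G.natDegree := card_toFinset_roots hirr hGd0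
  obtain ⟨Y, Y', hY, hY', hYH, hYA⟩ := hne
  rw [← hRCmem, ← hRimg, Finset.mem_image] at hY hY'
  obtain ⟨X, hX, rfl⟩ := hY
  obtain ⟨X', hX', rfl⟩ := hY'
  have key : (R.card : ℝ) * log (p / 2) ≤ 2 * ∑ X ∈ R, log⁺ ‖φ (aeval X A) - b‖ :=
    pairs_bound hgQ R hRmem hint H E A hp hE φ.toRingHom b ⟨X, hX, X', hX', by
      apply hφinj
      rw [hφ, hφ]
      exact hYH, by
      intro h
      apply hYA
      rw [← hAC, ← hφ, ← hφ, h]⟩
  have hsum1 : ∑ X ∈ R, log⁺ ‖φ (aeval X A) - b‖ =
      ∑ Y ∈ RC, log⁺ ‖(HC.comp (dickson 1 (1 : ℂ) p)).eval Y - b‖ := by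
    rw [← hRimg, Finset.sum_image hφinj.injOn]
    refine Finset.sum_congr rfl fun X _ => ?_
    rw [← hAC, ← hφ]
  rw [hsum1, hRcard, hRCcard] at key
  exact key

end generic

theorem pairs_complex {g H : ℤ[X]} (hirr : Irreducible (g.comp H)) (hlH : |H.leadingCoeff| = 1)
    (hlg : |g.leadingCoeff| = 1) (hk : 0 < g.natDegree) (he : 0 < H.natDegree) {p : ℕ}
    (hp : p.Prime) (b : ℂ)
    (hne : ∃ X X' : ℂ, ((g.comp H).map (Int.castRingHom ℂ)).eval X = 0 ∧
      ((g.comp H).map (Int.castRingHom ℂ)).eval X' = 0 ∧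
      (H.map (Int.castRingHom ℂ)).eval X = (H.map (Int.castRingHom ℂ)).eval X' ∧
      ((H.map (Int.castRingHom ℂ)).comp (dickson 1 (1 : ℂ) p)).eval X ≠
        ((H.map (Int.castRingHom ℂ)).comp (dickson 1 (1 : ℂ) p)).eval X') :
    (H.natDegree * g.natDegree : ℝ) * log (p / 2) ≤
      2 * ∑ β ∈ (g.map (Int.castRingHom ℂ)).roots.toFinset,
        ∑ l, log⁺ ‖av (H.map (Int.castRingHom ℂ)) p β l - b‖ := by
  classical
  set G := g.comp H with hGdef
  have hGd : G.natDegree = g.natDegree * H.natDegree := natDegree_comp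
  have hGd0 : 0 < G.natDegree := by
    rw [hGd]
    positivity
  have hGl : |G.leadingCoeff| = 1 := by
    rw [hGdef, leadingCoeff_comp (by omega), abs_mul, hlg, abs_pow, hlH, one_pow, mul_one]
  set HC := H.map (Int.castRingHom ℂ) with hHC
  have hgQ : Irreducible (G.map (Int.castRingHom ℚ)) := by
    have hprim : G.IsPrimitive := hirr.isPrimitive (by omega)
    exact (IsPrimitive.Int.irreducible_iff_irreducible_map_cast hprim).mp hirr
  obtain ⟨K, _, _, _⟩ := exists_splitting (G.map (Int.castRingHom ℚ))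
  have _i1 : IsGalois ℚ K :=
    IsGalois.of_separable_splitting_field (p := G.map (Int.castRingHom ℚ)) hgQ.separable
  have _i2 : FiniteDimensional ℚ K := IsSplittingField.finiteDimensional K (G.map (Int.castRingHom ℚ))
  have key := pairs_complex_aux (K := K) hirr hGd0 hGl
    (IsSplittingField.splits K (G.map (Int.castRingHom ℚ))) (IsAlgClosed.lift) H hp b hne
  set RC := (G.map (Int.castRingHom ℂ)).roots.toFinset with hRC
  have hGC0 : G.map (Int.castRingHom ℂ) ≠ 0 := (Polynomial.map_ne_zero_iff castC_inj).mpr hirr.ne_zero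
  have hRCmem : ∀ Y : ℂ, Y ∈ RC ↔ (G.map (Int.castRingHom ℂ)).eval Y = 0 := by
    intro Y
    rw [hRC, Multiset.mem_toFinset, mem_roots hGC0]
    rfl
  have hRCcard : RC.card = G.natDegree := card_toFinset_roots hirr hGd0
  -- the fibres
  set B := (g.map (Int.castRingHom ℂ)).roots.toFinset with hB
  have hg : Irreducible g := by
    constructor
    · intro hu
      have := natDegree_eq_zero_of_isUnit hu
      omega
    · intro a c hac
      have ha0 : a ≠ 0 := by
        rintro rfl
        rw [hac, zero_mul, natDegree_zero] at hk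
        omega
      have hc0 : c ≠ 0 := by
        rintro rfl
        rw [hac, mul_zero, natDegree_zero] at hk
        omega
      have h1 : G = a.comp H * c.comp H := by
        rw [hGdef, hac, mul_comp]
      have key : ∀ a : ℤ[X], a ≠ 0 → IsUnit (a.comp H) → IsUnit a := by
        intro a ha hu
        have h2 := natDegree_eq_zero_of_isUnit hu
        rw [natDegree_comp] at h2
        have h3 : a.natDegree = 0 := by
          rcases Nat.mul_eq_zero.mp h2 with h4 | h4
          · exact h4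
          · omega
        rw [eq_C_of_natDegree_eq_zero h3, C_comp] at hu
        rw [eq_C_of_natDegree_eq_zero h3]
        exact hu
      rcases hirr.isUnit_or_isUnit h1 with h2 | h2
      · exact Or.inl (key a ha0 h2)
      · exact Or.inr (key c hc0 h2)
  have hBcard : B.card = g.natDegree := card_toFinset_roots hg hk
  have hHCn : ‖HC.leadingCoeff‖ = 1 := norm_lc_map hlH
  have hHCd : HC.natDegree = H.natDegree := natDegree_map_eq_of_injective castC_inj H
  have hHCd0 : 0 < HC.natDegree := by omega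
  have hgC0 : g.map (Int.castRingHom ℂ) ≠ 0 := (Polynomial.map_ne_zero_iff castC_inj).mpr hg.ne_zero
  have hBmem : ∀ β : ℂ, β ∈ B ↔ (g.map (Int.castRingHom ℂ)).eval β = 0 := by
    intro Y
    rw [hB, Multiset.mem_toFinset, mem_roots hgC0]
    rfl
  have hGC : G.map (Int.castRingHom ℂ) = (g.map (Int.castRingHom ℂ)).comp HC := by
    rw [hGdef, Polynomial.map_comp]
  set S : Finset (ℂ × Fin HC.natDegree) := B ×ˢ Finset.univ with hS
  have hmaps : Set.MapsTo (fun x : ℂ × Fin HC.natDegree => pt HC x.1 x.2) (S : Set _) (RC : Set ℂ) := by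
    intro x hx
    obtain ⟨h1, _⟩ := Finset.mem_product.mp hx
    rw [Finset.mem_coe, hRCmem, hGC, eval_comp, eval_pt hHCn hHCd0]
    exact (hBmem _).mp h1
  have hsurj : Set.SurjOn (fun x : ℂ × Fin HC.natDegree => pt HC x.1 x.2) (S : Set _) (RC : Set ℂ) := by
    intro Y hY
    rw [Finset.mem_coe, hRCmem, hGC, eval_comp] at hY
    have h1 := (fib_spec hHCn hHCd0 (HC.eval Y)).2 Y
    rw [sub_self, norm_zero, eq_comm, Finset.prod_eq_zero_iff] at h1
    obtain ⟨l, _, h2⟩ := h1
    refine ⟨(HC.eval Y, l), ?_, ?_⟩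
    · rw [Finset.mem_coe]
      exact Finset.mem_product.mpr ⟨(hBmem _).mpr hY, Finset.mem_univ l⟩
    · exact (sub_eq_zero.mp (norm_eq_zero.mp h2)).symm
  have hScard : S.card = RC.card := by
    rw [hS, Finset.card_product, Finset.card_univ, Fintype.card_fin, hBcard, hRCcard, hGd, hHCd]
  have hinj : Set.InjOn (fun x : ℂ × Fin HC.natDegree => pt HC x.1 x.2) (S : Set _) :=
    Finset.injOn_of_surjOn_of_card_le _ hmaps hsurj hScard.le
  have hsum2 : ∑ Y ∈ RC, log⁺ ‖(HC.comp (dickson 1 (1 : ℂ) p)).eval Y - b‖ =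
      ∑ β ∈ B, ∑ l, log⁺ ‖av HC p β l - b‖ := by
    rw [← Finset.sum_product']
    symm
    refine Finset.sum_bij (fun x _ => pt HC x.1 x.2) (fun x hx => hmaps hx)
      (fun x hx y hy hxy => hinj hx hy hxy) (fun Y hY => ?_) (fun x hx => ?_)
    · obtain ⟨x, hx, hxY⟩ := hsurj hY
      exact ⟨x, hx, hxY⟩
    · rw [av_eq hHCn hHCd0]
  rw [hsum2, hGd] at key
  push_cast at key
  rw [mul_comm (H.natDegree : ℝ)]
  exact key

lemma coeff_pow_first {u : ℂ[X]} {j : ℕ} (hj : 0 < j) (h : ∀ i, 0 < i → i < j → u.coeff i = 0)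
    (n : ℕ) : (u ^ n).coeff j = n * u.coeff 0 ^ (n - 1) * u.coeff j := by
  have h1 : X ^ j ∣ u - C (u.coeff 0) := by
    rw [X_pow_dvd_iff]
    intro d hd
    rw [coeff_sub, coeff_C]
    split_ifs with h2
    · rw [h2, sub_self]
    · rw [h d (Nat.pos_of_ne_zero h2) hd, sub_zero]
  obtain ⟨v, hv⟩ := h1
  have hu : u = C (u.coeff 0) + X ^ j * v := by rw [← hv]; ring
  have hvj : v.coeff 0 = u.coeff j := by
    have h2 := congrArg (fun P : ℂ[X] => P.coeff j) hv
    simp only [coeff_sub, coeff_C_of_ne_zero hj.ne', sub_zero] at h2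
    rw [h2, coeff_X_pow_mul', if_pos le_rfl, Nat.sub_self]
  obtain ⟨k, hk⟩ := powAddExpansion (C (u.coeff 0)) (X ^ j * v) n
  have h3 : u ^ n = C (u.coeff 0 ^ n) + C (n * u.coeff 0 ^ (n - 1)) * (X ^ j * v) +
      X ^ (2 * j) * (k * v ^ 2) := by
    conv_lhs => rw [hu]
    rw [hk, C_mul, C_pow, C_pow]
    have : (C (n : ℂ) : ℂ[X]) = (n : ℂ[X]) := by simp
    rw [this]
    ring
  rw [h3, coeff_add, coeff_add, coeff_C_of_ne_zero hj.ne', coeff_C_mul, coeff_X_pow_mul',
    if_pos le_rfl, Nat.sub_self, coeff_X_pow_mul', if_neg (by omega), hvj]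
  ring

/-- if the values at the `p`-th powers are functions of the fibre, then the polynomial is special -/
lemma special_contra {HC gC uC : ℂ[X]} {e k p : ℕ} (hp : 1 < p) (hpk : p < k) (he : 0 < e)
    (hH : ‖HC.leadingCoeff‖ = 1) (hHd : HC.natDegree = e)
    (hB : gC.roots.toFinset.card = k)
    (RC : Finset ℂ) (hRC : ∀ Y ∈ RC, HC.eval Y ∈ gC.roots.toFinset)
    (hRC' : ∀ Y, HC.eval Y ∈ gC.roots.toFinset → Y ∈ RC) (hRCc : RC.card = k * e)
    (hconst : ∀ Y ∈ RC, ∀ Y' ∈ RC, HC.eval Y = HC.eval Y' →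
      (HC.comp (dickson 1 (1 : ℂ) p)).eval Y = (HC.comp (dickson 1 (1 : ℂ) p)).eval Y')
    (hHu : ∀ x : ℂ, x ≠ 0 → x ^ e * HC.eval (x + x⁻¹) = uC.eval x)
    (hu0 : uC.coeff 0 ≠ 0) {j : ℕ} (hj : 0 < j) (hje : j < e) (huj : uC.coeff j ≠ 0) : False := by
  classical
  have hd : 0 < HC.natDegree := by omega
  set B := gC.roots.toFinset with hBdef
  set A := HC.comp (dickson 1 (1 : ℂ) p) with hA
  obtain ⟨hm, hdeg⟩ := dickson_monic (R := ℂ) (show 0 < p by omega)
  have hAd : A.natDegree = e * p := by rw [hA, natDegree_comp, hdeg, hHd]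
  let l₀ : Fin HC.natDegree := ⟨0, hd⟩
  set BP := Lagrange.interpolate B id (fun β => A.eval (pt HC β l₀)) with hBP
  have hBPd : BP.natDegree < k := by
    by_cases h0 : BP = 0
    · rw [h0, natDegree_zero]
      omega
    · rw [natDegree_lt_iff_degree_lt h0, ← hB]
      exact Lagrange.degree_interpolate_lt _ (Set.injOn_id _)
  have hBPe : ∀ β ∈ B, BP.eval β = A.eval (pt HC β l₀) := by
    intro β hβ
    exact Lagrange.eval_interpolate_at_node _ (Set.injOn_id _) hβ
  have hQ : A - BP.comp HC = 0 := by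
    apply eq_zero_of_natDegree_lt_card_of_eval_eq_zero' (A - BP.comp HC) RC
    · intro Y hY
      have h0 : eval Y (BP.comp HC) = A.eval (pt HC (HC.eval Y) l₀) := by
        rw [eval_comp, hBPe _ (hRC Y hY)]
      rw [eval_sub, h0]
      have h1 : HC.eval (pt HC (HC.eval Y) l₀) = HC.eval Y := eval_pt hH hd _ _
      have h2 : pt HC (HC.eval Y) l₀ ∈ RC := hRC' _ (by rw [h1]; exact hRC Y hY)
      rw [hconst Y hY _ h2 h1.symm, sub_self]
    · rw [hRCc]
      refine lt_of_le_of_lt (natDegree_sub_le _ _) (max_lt ?_ ?_)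
      · rw [hAd, mul_comm k e]
        exact Nat.mul_lt_mul_of_pos_left hpk he
      · rw [natDegree_comp, hHd]
        exact Nat.mul_lt_mul_of_pos_right hBPd he
  have hAB : A = BP.comp HC := sub_eq_zero.mp hQ
  have hBPp : BP.natDegree = p := by
    have h1 := congrArg Polynomial.natDegree hAB
    rw [hAd, natDegree_comp, hHd, mul_comm] at h1
    exact (Nat.eq_of_mul_eq_mul_right he h1).symm
  have hbp : BP.coeff p ≠ 0 := by
    rw [← hBPp]
    apply leadingCoeff_ne_zero.mpr
    intro h0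
    rw [h0, natDegree_zero] at hBPp
    omega
  -- the polynomial identity
  have hid : expand ℂ p uC = ∑ l ∈ Finset.range (p + 1), C (BP.coeff l) * uC ^ l * X ^ (e * (p - l)) := by
    apply eq_of_infinite_eval_eq
    apply Set.Infinite.mono (s := {x : ℂ | x ≠ 0})
    · intro x hx
      have hx0 : x ≠ 0 := hx
      show eval x (expand ℂ p uC) = eval x _
      rw [expand_eval, eval_finsetSum]
      have h1 := hHu (x ^ p) (pow_ne_zero p hx0)
      have h2 : HC.eval (x ^ p + (x ^ p)⁻¹) = A.eval (x + x⁻¹) := by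
        rw [hA, eval_comp, dickson_fold hx0]
      rw [← h1, h2, hAB, eval_comp, eval_eq_sum_range, hBPp, Finset.mul_sum]
      refine Finset.sum_congr rfl fun l hl => ?_
      rw [Finset.mem_range] at hl
      rw [eval_mul, eval_mul, eval_C, eval_pow, eval_pow, eval_X, ← hHu x hx0, mul_pow, ← pow_mul,
        ← pow_mul]
      have h3 : x ^ (p * e) = x ^ (e * l) * x ^ (e * (p - l)) := by
        rw [← pow_add, ← mul_add, mul_comm p e]
        congr 2
        omega
      rw [h3]
      ring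
    · exact Set.Infinite.mono (s := Set.range (fun n : ℕ => ((n : ℂ) + 1))) (by
        rintro _ ⟨n, rfl⟩
        exact Nat.cast_add_one_ne_zero n) (Set.infinite_range_of_injective (by
          intro a b hab
          simpa using hab))
  -- the first non-zero coefficient
  have hex : ∃ j, 0 < j ∧ j < e ∧ uC.coeff j ≠ 0 := ⟨j, hj, hje, huj⟩
  set i := Nat.find hex with hi
  obtain ⟨hi0, hie, hiu⟩ := Nat.find_spec hex
  have himin : ∀ i', 0 < i' → i' < i → uC.coeff i' = 0 := by
    intro i' h1 h2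
    by_contra h3
    exact Nat.find_min hex h2 ⟨h1, by omega, h3⟩
  have hco := congrArg (fun P : ℂ[X] => P.coeff i) hid
  simp only [finsetSum_coeff] at hco
  rw [coeff_expand (by omega), Finset.sum_range_succ] at hco
  have hleft : (if p ∣ i then uC.coeff (i / p) else 0) = 0 := by
    split_ifs with h1
    · apply himin
      · exact Nat.div_pos (Nat.le_of_dvd hi0 h1) (by omega)
      · exact Nat.div_lt_self hi0 hp
    · rfl
  rw [hleft] at hco
  have hzero : ∑ x ∈ Finset.range p, (C (BP.coeff x) * uC ^ x * X ^ (e * (p - x))).coeff i = 0 := by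
    apply Finset.sum_eq_zero
    intro x hx
    rw [Finset.mem_range] at hx
    rw [coeff_mul_X_pow', if_neg]
    have : e * 1 ≤ e * (p - x) := Nat.mul_le_mul_left e (by omega)
    omega
  rw [hzero, zero_add, Nat.sub_self, mul_zero, pow_zero, mul_one, coeff_C_mul,
    coeff_pow_first hi0 himin] at hco
  have hp0 : (p : ℂ) ≠ 0 := by exact_mod_cast (by omega : p ≠ 0)
  exact mul_ne_zero hbp (mul_ne_zero (mul_ne_zero hp0 (pow_ne_zero _ hu0)) hiu) hco.symm

end Pool.Agent.Zk21.Un
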