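import Mathlib
import Pool.Agent.Zk21.UnF
import Pool.Agent.Zk21.UnH

/-!
# The symmetric case for outer polynomials of large degree
-/

set_option autoImplicit false

open Polynomial Metric Real

namespace Pool.Agent.Zk21.Un

open Pool.Agent.R328 Pool.Agent.Zk21.Smt Pool.Agent.Zk21.Dec

lemma sum_toFinset {S : Multiset ℂ} (hS : S.Nodup) (F : ℂ → ℝ) :
    ∑ β ∈ S.toFinset, F β = (S.map F).sum := by
  classical
  show (S.toFinset.val.map F).sum = _
  rw [Multiset.toFinset_val, hS.dedup]

lemma nodup_of_irr {g : ℤ[X]} (hg : Irreducible g) (hk : 0 < g.natDegree) :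
    (g.map (Int.castRingHom ℂ)).roots.Nodup := by
  classical
  rw [← Multiset.toFinset_card_eq_card_iff_nodup, card_toFinset_roots hg hk, card_roots_map]

/-- the discriminant -/
lemma disc_nonneg {g : ℤ[X]} (hg : Irreducible g) (hl : |g.leadingCoeff| = 1) (hk : 0 < g.natDegree) :
    0 ≤ ∑ β ∈ (g.map (Int.castRingHom ℂ)).roots.toFinset,
      ∑ β' ∈ ((g.map (Int.castRingHom ℂ)).roots.toFinset).erase β, log ‖β - β'‖ := by
  classical
  set G := g.map (Int.castRingHom ℂ) with hG
  have hnd : G.roots.Nodup := nodup_of_irr hg hk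
  have hlG : ‖G.leadingCoeff‖ = 1 := norm_lc_map hl
  have hder : ∀ β ∈ G.roots, ‖((derivative g).map (Int.castRingHom ℂ)).eval β‖ =
      ∏ β' ∈ G.roots.toFinset.erase β, ‖β - β'‖ := by
    intro β hβ
    have hdG : G.derivative = (derivative g).map (Int.castRingHom ℂ) := by
      rw [hG, derivative_map]
    rw [← hdG, (IsAlgClosed.splits G).eval_derivative, norm_mul, hlG, one_mul]
    have h3 : (G.roots.map fun a => ((G.roots.erase a).map (β - ·)).prod).sum =
        ((G.roots.erase β).map (β - ·)).prod := by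
      conv_lhs => rw [← Multiset.cons_erase hβ]
      rw [Multiset.map_cons, Multiset.sum_cons, Multiset.cons_erase hβ]
      have h4 : ((G.roots.erase β).map fun a => ((G.roots.erase a).map (β - ·)).prod).sum = 0 := by
        apply Multiset.sum_eq_zero
        intro y hy
        rw [Multiset.mem_map] at hy
        obtain ⟨a, ha, rfl⟩ := hy
        rw [Multiset.prod_eq_zero_iff, Multiset.mem_map]
        refine ⟨β, ?_, sub_self β⟩
        have hab : β ≠ a := by
          rintro rfl
          exact (hnd.notMem_erase) ha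
        exact (Multiset.mem_erase_of_ne hab).mpr hβ
      rw [h4, add_zero]
    rw [h3]
    have h5 : ((G.roots.erase β).map (β - ·)).prod = ∏ β' ∈ G.roots.toFinset.erase β, (β - β') := by
      have h6 : (G.roots.toFinset.erase β).val = G.roots.erase β := by
        rw [Finset.erase_val, Multiset.toFinset_val, hnd.dedup]
      rw [← h6]
      rfl
    rw [h5, norm_prod]
  have hne : ∀ β ∈ G.roots, ((derivative g).map (Int.castRingHom ℂ)).eval β ≠ 0 := by
    intro β hβ
    rw [← norm_ne_zero_iff, hder β hβ, Finset.prod_ne_zero_iff]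
    intro β' hβ'
    exact norm_ne_zero_iff.mpr (sub_ne_zero.mpr (Finset.ne_of_mem_erase hβ').symm)
  have h1 := one_le_prod_eval hl hne
  rw [← hG] at h1
  have h2 : ∑ β ∈ G.roots.toFinset, ∑ β' ∈ G.roots.toFinset.erase β, log ‖β - β'‖ =
      log ((G.roots.map fun β => ‖((derivative g).map (Int.castRingHom ℂ)).eval β‖).prod) := by
    have h3 : (G.roots.map fun β => ‖((derivative g).map (Int.castRingHom ℂ)).eval β‖).prod =
        ∏ β ∈ G.roots.toFinset, ‖((derivative g).map (Int.castRingHom ℂ)).eval β‖ := by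
      show _ = (G.roots.toFinset.val.map _).prod
      rw [Multiset.toFinset_val, hnd.dedup]
    rw [h3, log_prod]
    · refine Finset.sum_congr rfl fun β hβ => ?_
      rw [hder β (Multiset.mem_toFinset.mp hβ), log_prod]
      intro β' hβ'
      exact norm_ne_zero_iff.mpr (sub_ne_zero.mpr (Finset.ne_of_mem_erase hβ').symm)
    · intro β hβ
      exact norm_ne_zero_iff.mpr (hne β (Multiset.mem_toFinset.mp hβ))
  rw [h2]
  exact log_nonneg h1

/-- evaluation of a homogeneous composition -/
lemma hcomp_eval (g u v : ℤ[X]) {x : ℂ} (hv : (v.map (Int.castRingHom ℂ)).eval x ≠ 0) :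
    ((hcomp g u v).map (Int.castRingHom ℂ)).eval x =
      (v.map (Int.castRingHom ℂ)).eval x ^ g.natDegree *
      (g.map (Int.castRingHom ℂ)).eval
        ((u.map (Int.castRingHom ℂ)).eval x / (v.map (Int.castRingHom ℂ)).eval x) := by
  have h1 : (g.map (Int.castRingHom ℂ)).natDegree = g.natDegree :=
    natDegree_map_eq_of_injective castC_inj g
  rw [eval_eq_sum_range (p := g.map (Int.castRingHom ℂ)), h1, Finset.mul_sum]
  unfold hcomp
  rw [Polynomial.map_sum, eval_finsetSum]
  refine Finset.sum_congr rfl fun i hi => ?_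
  rw [Finset.mem_range] at hi
  simp only [Polynomial.map_mul, Polynomial.map_pow, map_C, eval_mul, eval_pow, eval_C, coeff_map]
  set a := (u.map (Int.castRingHom ℂ)).eval x
  set b := (v.map (Int.castRingHom ℂ)).eval x
  have h2 : b ^ g.natDegree = b ^ (g.natDegree - i) * b ^ i := by
    rw [← pow_add]
    congr 1
    omega
  rw [h2, div_pow]
  field_simp

lemma eq_of_eval {P Q : ℤ[X]} (h : ∀ x : ℂ, x ≠ 0 → x ^ 2 + 1 ≠ 0 →
    (P.map (Int.castRingHom ℂ)).eval x = (Q.map (Int.castRingHom ℂ)).eval x) : P = Q := by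
  apply map_injective _ castC_inj
  apply eq_of_infinite_eval_eq
  apply Set.Infinite.mono (s := Set.range (fun n : ℕ => ((n : ℂ) + 1)))
  · rintro _ ⟨n, rfl⟩
    apply h
    · exact Nat.cast_add_one_ne_zero n
    · have : ((n : ℂ) + 1) ^ 2 + 1 = (((n + 1) ^ 2 + 1 : ℕ) : ℂ) := by push_cast; ring
      rw [this]
      exact_mod_cast (by positivity : ((n + 1) ^ 2 + 1 : ℕ) ≠ 0)
  · exact Set.infinite_range_of_injective (by
      intro a b hab
      simpa using hab)

/-- the composition in the trace variable -/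
lemma hcomp_trace {g H u : ℤ[X]} {e : ℕ} (hHd : H.natDegree = e)
    (hHu : ∀ x : ℂ, x ≠ 0 → x ^ e * (H.map (Int.castRingHom ℂ)).eval (x + x⁻¹) =
      (u.map (Int.castRingHom ℂ)).eval x) :
    hcomp g u (X ^ e) = hcomp (g.comp H) (X ^ 2 + 1) X := by
  apply eq_of_eval
  intro x hx0 _
  have h1 : ((X ^ e : ℤ[X]).map (Int.castRingHom ℂ)).eval x = x ^ e := by simp
  have h2 : ((X : ℤ[X]).map (Int.castRingHom ℂ)).eval x = x := by simp
  rw [hcomp_eval g u (X ^ e) (by rw [h1]; exact pow_ne_zero _ hx0),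
    hcomp_eval (g.comp H) (X ^ 2 + 1) X (by rw [h2]; exact hx0), h1, h2, ← hHu x hx0,
    natDegree_comp, hHd, Polynomial.map_comp, eval_comp]
  have h3 : ((X ^ 2 + 1 : ℤ[X]).map (Int.castRingHom ℂ)).eval x / x = x + x⁻¹ := by
    simp only [Polynomial.map_add, Polynomial.map_pow, map_X, Polynomial.map_one, eval_add, eval_pow,
      eval_X, eval_one]
    field_simp
  have h4 : x ^ e * (H.map (Int.castRingHom ℂ)).eval (x + x⁻¹) / x ^ e =
      (H.map (Int.castRingHom ℂ)).eval (x + x⁻¹) := by
    field_simp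
  rw [h3, h4, ← pow_mul, mul_comm e]

/-- asymptotics -/
lemma asymp (C1 C2 C3 δ : ℝ) (hδ : 0 < δ) :
    ∃ K : ℕ, ∀ k : ℕ, K ≤ k → C1 + (1 + C2 * √(k : ℝ)) * (log k + C3) ≤ δ * k := by
  have h1 : (fun x : ℝ => log x) =o[Filter.atTop] fun x : ℝ => x ^ (1 / 2 : ℝ) :=
    isLittleO_log_rpow_atTop (by norm_num)
  have h1' : (fun x : ℝ => log x) =o[Filter.atTop] fun x : ℝ => √x := by
    refine h1.congr_right fun x => ?_
    rw [sqrt_eq_rpow]
  have hlog : (fun x : ℝ => log x) =o[Filter.atTop] fun x : ℝ => x := isLittleO_log_id_atTop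
  have h2 : (fun x : ℝ => √x * log x) =o[Filter.atTop] fun x : ℝ => x := by
    have := (Asymptotics.isBigO_refl (fun x : ℝ => √x) Filter.atTop).mul_isLittleO h1'
    refine this.congr' (Filter.EventuallyEq.refl _ _) ?_
    filter_upwards [Filter.eventually_ge_atTop (0:ℝ)] with x hx
    exact mul_self_sqrt hx
  have hconst : ∀ c : ℝ, (fun _ : ℝ => c) =o[Filter.atTop] fun x : ℝ => x := by
    intro c
    exact Asymptotics.isLittleO_const_id_atTop c
  have hsqrt : (fun x : ℝ => √x) =o[Filter.atTop] fun x : ℝ => x := by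
    have h3 : (fun x : ℝ => √x) =O[Filter.atTop] fun x : ℝ => √x * log x := by
      rw [Asymptotics.isBigO_iff]
      refine ⟨1, ?_⟩
      filter_upwards [Filter.eventually_ge_atTop (exp 1)] with x hx
      have hx0 : 0 < x := lt_of_lt_of_le (exp_pos 1) hx
      have h4 : 1 ≤ log x := by
        rw [le_log_iff_exp_le hx0]
        exact hx
      rw [norm_mul, Real.norm_eq_abs, Real.norm_eq_abs, abs_of_nonneg (sqrt_nonneg x),
        abs_of_nonneg (by linarith : (0:ℝ) ≤ log x), one_mul]
      exact le_mul_of_one_le_right (sqrt_nonneg x) h4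
    exact h3.trans_isLittleO h2
  have h5 : (fun x : ℝ => C1 + (1 + C2 * √x) * (log x + C3)) =o[Filter.atTop] fun x : ℝ => x := by
    have h6 : (fun x : ℝ => (C1 + C3) + log x + C2 * (√x * log x) + (C2 * C3) * √x) =o[Filter.atTop]
        fun x : ℝ => x :=
      (((hconst _).add hlog).add (h2.const_mul_left C2)).add (hsqrt.const_mul_left (C2 * C3))
    refine h6.congr_left fun x => ?_
    ring
  have h7 := (h5.bound hδ)
  have h8 : ∀ᶠ k : ℕ in Filter.atTop, ‖C1 + (1 + C2 * √(k : ℝ)) * (log k + C3)‖ ≤ δ * ‖(k : ℝ)‖ :=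
    tendsto_natCast_atTop_atTop.eventually h7
  obtain ⟨K, hK⟩ := Filter.eventually_atTop.mp h8
  refine ⟨K, fun k hk => ?_⟩
  have h9 := hK k hk
  rw [Real.norm_eq_abs, Real.norm_natCast] at h9
  exact (le_abs_self _).trans h9

end Pool.Agent.Zk21.Un
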