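import Mathlib
import Pool.Agent.Zk21.UnI

/-!
# Most members of the pencil have bounded proximity
-/

set_option autoImplicit false

open Polynomial Metric Real

namespace Pool.Agent.Zk21.Un

open Pool.Agent.R328 Pool.Agent.Zk21.Smt Pool.Agent.Zk21.Dec

/-- the pointwise inequality -/
lemma pw8 {p q v A B δ : ℝ} (hp : 0 < p) (hq : 0 < q) (hv : 0 < v) (hA0 : 0 ≤ A) (hB0 : 0 ≤ B)
    (hA : v = A * p) (hk : v * δ ≤ p * q * (A + B)) (hδ : 1 / 8 ≤ δ) :
    log⁺ q ≤ log p + log q - log v + 2 * log⁺ A + log⁺ B + 4 * log 2 := by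
  have hA1 : 0 < A := by
    rcases hA0.lt_or_eq with h | h
    · exact h
    · rw [← h, zero_mul] at hA
      linarith
  have hlA : 0 ≤ log⁺ A := posLog_nonneg
  have hlB : 0 ≤ log⁺ B := posLog_nonneg
  have hl2 : 0 < log 2 := log_pos (by norm_num)
  rcases le_or_gt 1 q with h1 | h1
  · rw [posLog_eq_log (by rwa [abs_of_pos hq]), hA, log_mul hA1.ne' hp.ne']
    have : log A ≤ log⁺ A := le_max_right _ _
    linarith
  · have h2 : log⁺ q = 0 := by
      rw [posLog_eq_zero_iff, abs_of_pos hq]
      exact h1.le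
    rw [h2]
    have h3 : log (v * δ) ≤ log (p * q * (A + B)) := log_le_log (by positivity) hk
    rw [log_mul hv.ne' (by linarith), log_mul (by positivity) (by positivity),
      log_mul hp.ne' hq.ne'] at h3
    have h4 : log (1 / 8) ≤ log δ := log_le_log (by norm_num) hδ
    have h8 : log (1 / 8) = - (3 * log 2) := by
      rw [one_div, log_inv, show (8:ℝ) = 2 ^ 3 by norm_num, log_pow]
      norm_num
    rw [h8] at h4
    have h5 : log (A + B) ≤ log⁺ (A + B) := le_max_right _ _
    have h6 := posLog_add (x := A) (y := B)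
    linarith

/-- the second main theorem for a pencil -/
theorem smt8 {P Q : ℂ[X]} {δ : ℂ} {d e : ℕ} (hdP : P.natDegree = d) (hdQ : Q.natDegree = d)
    (hd0 : 0 < d) (he : e ≤ d) (hPQ : P = Q + C δ * X ^ e) (hδ : 1 / 8 ≤ ‖δ‖)
    (hW : (d : ℝ) / 2 ≤ (WW e P).mahlerMeasure) :
    mp Q ≤ log P.mahlerMeasure + log Q.mahlerMeasure + 20 * log 2 := by
  have hP : P ≠ 0 := by
    rintro rfl
    rw [natDegree_zero] at hdP
    omega
  have hQ : Q ≠ 0 := by
    rintro rfl
    rw [natDegree_zero] at hdQ
    omega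
  have hdR : (0:ℝ) < d := by exact_mod_cast hd0
  have hdC : (d : ℂ) ≠ 0 := by exact_mod_cast hd0.ne'
  have hWeq : WW e P = WW e Q := by
    unfold WW
    rw [hPQ, derivative_add, derivative_mul, derivative_C, derivative_X_pow]
    rcases Nat.eq_zero_or_pos e with h | h
    · subst h
      simp
    · have : (X : ℂ[X]) ^ e = X * X ^ (e - 1) := by
        rw [← pow_succ']
        congr 1
        omega
      rw [this]
      ring
  have hW0 : WW e P ≠ 0 := by
    intro h
    rw [h, mahlerMeasure_zero] at hW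
    have : (0:ℝ) < d / 2 := by positivity
    linarith
  have hWint := log_int (WW e P)
  have h1 := avg_WW hdP hd0 he
  have h2 := avg_WW hdQ hd0 he
  have h3 : mp Q ≤ circleAverage ((((fun x => log ‖P.eval x‖) + fun x => log ‖Q.eval x‖) -
      (fun x => log ‖(WW e P).eval x‖)) + (((2:ℝ) • (fun x => log⁺ ‖(WW e P).eval x / (C (d : ℂ) * P).eval x‖) +
      (fun x => log⁺ ‖(WW e Q).eval x / (C (d : ℂ) * Q).eval x‖)) + fun _ => 4 * log 2 + log d)) 0 1 := by
    unfold mp
    apply circleAverage_mono_off (posLog_int Q)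
      ((((log_int P).add (log_int Q)).sub hWint).add
        ((((posLog_ratio_int _ _).const_smul).add (posLog_ratio_int _ _)).add (circleIntegrable_const _ _ _)))
      (((roots_countable hP).union (roots_countable hQ)).union (roots_countable hW0))
    intro x hx hx2
    rw [Set.mem_union, Set.mem_union, not_or, not_or] at hx2
    have hxP : P.eval x ≠ 0 := hx2.1.1
    have hxQ : Q.eval x ≠ 0 := hx2.1.2
    have hxW : (WW e P).eval x ≠ 0 := hx2.2
    rw [mem_sphere_zero_iff_norm] at hx
    simp only [Pi.add_apply, Pi.sub_apply, Pi.smul_apply, smul_eq_mul]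
    have hv : 0 < ‖(WW e P).eval x‖ / d := div_pos (norm_pos_iff.mpr hxW) hdR
    have hpn := norm_pos_iff.mpr hxP
    have hqn := norm_pos_iff.mpr hxQ
    have key := pw8 (p := ‖P.eval x‖) (q := ‖Q.eval x‖) (v := ‖(WW e P).eval x‖ / d)
      (A := ‖(WW e P).eval x / (C (d : ℂ) * P).eval x‖)
      (B := ‖(WW e Q).eval x / (C (d : ℂ) * Q).eval x‖) (δ := ‖δ‖) hpn hqn hv
      (norm_nonneg _) (norm_nonneg _) (by
        rw [norm_div, eval_mul, eval_C, norm_mul, Complex.norm_natCast]
        field_simp) (by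
        have e1 : (WW e P).eval x / (C (d : ℂ) * P).eval x - (WW e Q).eval x / (C (d : ℂ) * Q).eval x =
            - ((WW e P).eval x / d * δ * x ^ e) / (P.eval x * Q.eval x) := by
          rw [← hWeq]
          have e2 : P.eval x = Q.eval x + δ * x ^ e := by
            conv_lhs => rw [hPQ]
            simp
          rw [eval_mul, eval_mul, eval_C, div_sub_div _ _ (mul_ne_zero hdC hxP) (mul_ne_zero hdC hxQ),
            div_eq_div_iff (mul_ne_zero (mul_ne_zero hdC hxP) (mul_ne_zero hdC hxQ)) (mul_ne_zero hxP hxQ)]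
          have e3 : (WW e P).eval x / d * δ * x ^ e * (d * P.eval x * (d * Q.eval x)) =
            (WW e P).eval x * δ * x ^ e * (d * P.eval x * Q.eval x) := by
            field_simp
          rw [neg_mul, e3]
          have e4 : δ * x ^ e = P.eval x - Q.eval x := by rw [e2]; ring
          linear_combination ((WW e P).eval x * (d * P.eval x * Q.eval x)) * e4
        have e5 := congrArg norm e1
        rw [norm_div, norm_neg, norm_mul, norm_mul, norm_div, norm_mul, norm_pow, hx, one_pow, mul_one,
          Complex.norm_natCast] at e5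
        have e6 := norm_sub_le ((WW e P).eval x / (C (d : ℂ) * P).eval x)
          ((WW e Q).eval x / (C (d : ℂ) * Q).eval x)
        rw [e5, div_le_iff₀ (by positivity)] at e6
        linarith) hδ
    rw [log_div (norm_ne_zero_iff.mpr hxW) hdR.ne'] at key
    linarith
  rw [circleAverage_add (((log_int P).add (log_int Q)).sub hWint)
      ((((posLog_ratio_int _ _).const_smul).add (posLog_ratio_int _ _)).add (circleIntegrable_const _ _ _)),
    circleAverage_sub ((log_int P).add (log_int Q)) hWint, circleAverage_add (log_int P) (log_int Q),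
    circleAverage_add (((posLog_ratio_int _ _).const_smul).add (posLog_ratio_int _ _))
      (circleIntegrable_const _ _ _),
    circleAverage_add ((posLog_ratio_int _ _).const_smul) (posLog_ratio_int _ _),
    circleAverage_smul, circleAverage_const] at h3
  have e1 : circleAverage (fun x => log ‖P.eval x‖) 0 1 = log P.mahlerMeasure := by
    rw [← logMahlerMeasure_eq_log_MahlerMeasure]; rfl
  have e2 : circleAverage (fun x => log ‖Q.eval x‖) 0 1 = log Q.mahlerMeasure := by
    rw [← logMahlerMeasure_eq_log_MahlerMeasure]; rfl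
  have e3 : circleAverage (fun x => log ‖(WW e P).eval x‖) 0 1 = log (WW e P).mahlerMeasure := by
    rw [← logMahlerMeasure_eq_log_MahlerMeasure]; rfl
  rw [e1, e2, e3, smul_eq_mul] at h3
  have h4 : log ((d : ℝ) / 2) ≤ log (WW e P).mahlerMeasure := log_le_log (by positivity) hW
  rw [log_div hdR.ne' (by norm_num)] at h4
  linarith


lemma mp_Pb8 {u : ℤ[X]} {e : ℕ} (he : e < u.natDegree) (h0 : e = 0 ∨ u.coeff 0 ≠ 0) {β γ : ℂ}
    (hβ : 1 / 8 ≤ ‖β - γ‖) :
    mp (Pb u e β) ≤ log (Pb u e γ).mahlerMeasure + log (Pb u e β).mahlerMeasure + 20 * log 2 := by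
  have hd : (X ^ e : ℤ[X]).natDegree < u.natDegree := by rwa [Xe_natDegree]
  exact smt8 (P := Pb u e γ) (Q := Pb u e β) (δ := β - γ) (fb_natDegree hd γ).1 (fb_natDegree hd β).1
    (by omega) he.le (Pb_sub u e γ β) hβ (WW_measure he h0 γ)

/-- the Mahler measure of a composition -/
lemma measure_hcomp {g u : ℤ[X]} {e : ℕ} (he : e < u.natDegree) (hg : Irreducible g)
    (hlg : |g.leadingCoeff| = 1) (hk : 0 < g.natDegree) :
    log ((hcomp g u (X ^ e)).map (Int.castRingHom ℂ)).mahlerMeasure =
      ∑ β ∈ (g.map (Int.castRingHom ℂ)).roots.toFinset, log (Pb u e β).mahlerMeasure := by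
  have hprod := hcomp_map g u (X ^ e)
  have hMf : ((hcomp g u (X ^ e)).map (Int.castRingHom ℂ)).mahlerMeasure =
      ((g.map (Int.castRingHom ℂ)).roots.map (fun β => (Pb u e β).mahlerMeasure)).prod := by
    rw [hprod, mahlerMeasure_mul, mahlerMeasure_const, Complex.norm_intCast,
      prod_mahlerMeasure_eq_mahlerMeasure_prod, Multiset.map_map]
    have : |(g.leadingCoeff : ℝ)| = 1 := by exact_mod_cast hlg
    rw [this, one_mul]
    rfl
  obtain ⟨hlogM, _⟩ := log_prod_map' (S := (g.map (Int.castRingHom ℂ)).roots)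
    (F := fun β => (Pb u e β).mahlerMeasure) (fun β _ => Pb_measure he β)
  rw [hMf, hlogM, sum_toFinset (nodup_of_irr hg hk)]

/-- bounded proximity -/
lemma pencil_data2 {g u : ℤ[X]} {e : ℕ} (he : e < u.natDegree) (h0 : e = 0 ∨ u.coeff 0 ≠ 0)
    (hk : 4 ≤ g.natDegree) (hg : Irreducible g) (hlg : |g.leadingCoeff| = 1)
    (hV : (∑ β ∈ (g.map (Int.castRingHom ℂ)).roots.toFinset, log (Pb u e β).mahlerMeasure) ≤
      1 / 100 * g.natDegree) :
    (∃ b ∈ (g.map (Int.castRingHom ℂ)).roots.toFinset, mp (Pb u e b) ≤ 24 * log 2) ∧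
      ∀ β ∈ (g.map (Int.castRingHom ℂ)).roots.toFinset,
        mp (Pb u e β) ≤ log (Pb u e β).mahlerMeasure + 22 * log 2 := by
  classical
  set B := (g.map (Int.castRingHom ℂ)).roots.toFinset with hB
  set k : ℝ := (g.natDegree : ℝ) with hkdef
  have hBcard : (B.card : ℝ) = k := by rw [hB, card_toFinset_roots hg (by omega)]
  have hk4 : 4 ≤ k := by rw [hkdef]; exact_mod_cast hk
  have hdisc : 0 ≤ ∑ β ∈ B, ∑ β' ∈ B.erase β, log ‖β - β'‖ := disc_nonneg hg hlg (by omega)
  have hl2 : 0.69 < log 2 := by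
    have := Real.log_two_gt_d9
    linarith
  have hl2' : log 2 < 0.7 := by
    have := Real.log_two_lt_d9
    linarith
  set V : ℂ → ℝ := fun β => log (Pb u e β).mahlerMeasure with hVdef
  have hV0 : ∀ β, 0 ≤ V β := fun β => log_nonneg (Pb_measure he β)
  have hsmt : ∀ β γ : ℂ, 1 / 8 ≤ ‖β - γ‖ → mp (Pb u e β) ≤ V γ + V β + 20 * log 2 :=
    fun β γ h => mp_Pb8 he h0 h
  set Bad := B.filter fun β => 1 < V β with hBad
  have hBadle : (Bad.card : ℝ) ≤ 1 / 100 * k := by
    have h1 : (Bad.card : ℝ) ≤ ∑ β ∈ Bad, V β := by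
      rw [← nsmul_one, ← Finset.sum_const]
      exact Finset.sum_le_sum fun β hβ => (Finset.mem_filter.mp hβ).2.le
    have h2 : ∑ β ∈ Bad, V β ≤ ∑ β ∈ B, V β :=
      Finset.sum_le_sum_of_subset_of_nonneg (Finset.filter_subset _ _) fun β _ _ => hV0 β
    linarith
  -- two good elements at distance at least `1/4`
  by_cases hfar : ∃ β₁ ∈ B, ∃ β₂ ∈ B, V β₁ ≤ 1 ∧ V β₂ ≤ 1 ∧ 1 / 4 ≤ ‖β₁ - β₂‖
  · obtain ⟨β₁, hβ₁, β₂, hβ₂, hg1, hg2, h12⟩ := hfar
    constructor
    · refine ⟨β₁, hβ₁, ?_⟩
      have := hsmt β₁ β₂ (by linarith)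
      linarith
    · intro β hβ
      show mp (Pb u e β) ≤ V β + 22 * log 2
      rcases le_or_gt (1 / 8) ‖β - β₁‖ with h1 | h1
      · have h2 := hsmt β β₁ h1
        linarith
      · have h4 : 1 / 8 ≤ ‖β - β₂‖ := by
          have h5 : ‖β₁ - β₂‖ ≤ ‖β - β₁‖ + ‖β - β₂‖ := by
            have : β₁ - β₂ = -(β - β₁) + (β - β₂) := by ring
            rw [this]
            refine (norm_add_le _ _).trans ?_
            rw [norm_neg]
          linarith
        have h2 := hsmt β β₂ h4
        linarith
  · exfalso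
    push Not at hfar
    -- a good element
    have hgood : ∃ β₀ ∈ B, V β₀ ≤ 1 := by
      by_contra hcon
      push Not at hcon
      have h1 : Bad = B := Finset.filter_true_of_mem hcon
      rw [h1, hBcard] at hBadle
      linarith
    obtain ⟨β₀, hβ₀, hVβ₀⟩ := hgood
    set C : ℝ := 2 + 41 * log 2 with hC
    -- the weight
    set t : ℂ → ℝ := fun β => if 1 < V β then 2 * V β + C else 0 with ht
    have hCpos : 0 < C := by rw [hC]; linarith
    have ht0 : ∀ β, 0 ≤ t β := by
      intro β
      rw [ht]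
      simp only
      split_ifs
      · have := hV0 β
        linarith
      · exact le_rfl
    have htle : ∀ β ∈ B, log⁺ ‖β - β₀‖ ≤ t β := by
      intro β hβ
      rw [ht]
      simp only
      split_ifs with h1
      · rcases le_or_gt ‖β - β₀‖ 1 with h2 | h2
        · have : log⁺ ‖β - β₀‖ = 0 := by
            rw [posLog_eq_zero_iff, abs_of_nonneg (norm_nonneg _)]
            exact h2
          rw [this]
          have := hV0 β
          linarith
        · have h3 := dist_le (u := u) (e := e) β β₀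
          have h4 := hsmt β β₀ (by linarith)
          have h5 := hsmt β₀ β (by rw [norm_sub_rev]; linarith)
          rw [hC]
          linarith
      · have h2 := hfar β hβ β₀ hβ₀ (not_lt.mp h1) hVβ₀
        have : log⁺ ‖β - β₀‖ = 0 := by
          rw [posLog_eq_zero_iff, abs_of_nonneg (norm_nonneg _)]
          linarith
        rw [this]
    have hdist : ∀ β ∈ B, ∀ β' ∈ B, log⁺ ‖β - β'‖ ≤ log 2 + t β + t β' := by
      intro β hβ β' hβ'
      have h1 : ‖β - β'‖ ≤ ‖β - β₀‖ + ‖β' - β₀‖ := by
        have : β - β' = (β - β₀) + (-(β' - β₀)) := by ring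
        rw [this]
        refine (norm_add_le _ _).trans ?_
        rw [norm_neg]
      have h2 := posLog_le_posLog (norm_nonneg _) h1
      have h3 := posLog_add (x := ‖β - β₀‖) (y := ‖β' - β₀‖)
      have h4 := htle β hβ
      have h5 := htle β' hβ'
      linarith
    -- the bad indicator
    set i : ℂ → ℝ := fun β => if 1 < V β then 1 else 0 with hi
    have hi0 : ∀ β, 0 ≤ i β := by
      intro β
      rw [hi]
      simp only
      split_ifs <;> norm_num
    have hpt : ∀ β ∈ B, ∀ β' ∈ B.erase β, log ‖β - β'‖ ≤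
        - (2 * log 2) + (3 * log 2 * (i β + i β') + (t β + t β')) := by
      intro β hβ β' hβ'
      have hβ'B := Finset.mem_of_mem_erase hβ'
      have hne : β - β' ≠ 0 := sub_ne_zero.mpr (Finset.ne_of_mem_erase hβ').symm
      have g1 : log ‖β - β'‖ ≤ log⁺ ‖β - β'‖ := le_max_right _ _
      have g2 := hdist β hβ β' hβ'B
      have g3 := ht0 β
      have g4 := ht0 β'
      have g5 := hi0 β
      have g6 := hi0 β'
      by_cases h1 : 1 < V β
      · have : i β = 1 := by rw [hi]; simp only; rw [if_pos h1]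
        rw [this]
        nlinarith
      · by_cases h2 : 1 < V β'
        · have : i β' = 1 := by rw [hi]; simp only; rw [if_pos h2]
          rw [this]
          nlinarith
        · have h3 := hfar β hβ β' hβ'B (not_lt.mp h1) (not_lt.mp h2)
          have h4 : log ‖β - β'‖ ≤ log (1 / 4) := log_le_log (norm_pos_iff.mpr hne) h3.le
          have h5 : log (1 / 4) = - (2 * log 2) := by
            rw [one_div, log_inv, show (4:ℝ) = 2 ^ 2 by norm_num, log_pow]
            norm_num
          rw [h5] at h4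
          have : 0 ≤ 3 * log 2 * (i β + i β') := by positivity
          linarith
    have hrow : ∀ β ∈ B, ∑ β' ∈ B.erase β, log ‖β - β'‖ ≤
        - (2 * log 2) * (k - 1) + (k * (3 * log 2 * i β + t β) +
          ∑ β' ∈ B, (3 * log 2 * i β' + t β')) := by
      intro β hβ
      refine (Finset.sum_le_sum fun β' hβ' => hpt β hβ β' hβ').trans ?_
      have h1 : ∑ β' ∈ B.erase β, (- (2 * log 2) + (3 * log 2 * (i β + i β') + (t β + t β'))) =
          ((B.erase β).card : ℝ) * (- (2 * log 2)) + (((B.erase β).card : ℝ) * (3 * log 2 * i β + t β) +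
          ∑ β' ∈ B.erase β, (3 * log 2 * i β' + t β')) := by
        rw [← nsmul_eq_mul, ← nsmul_eq_mul, ← Finset.sum_const, ← Finset.sum_const,
          ← Finset.sum_add_distrib, ← Finset.sum_add_distrib]
        refine Finset.sum_congr rfl fun β' _ => ?_
        ring
      rw [h1, Finset.card_erase_of_mem hβ, Nat.cast_sub (Finset.card_pos.mpr ⟨β, hβ⟩), hBcard,
        Nat.cast_one]
      have h2 : 0 ≤ 3 * log 2 * i β + t β := by
        have := ht0 β
        have := hi0 β
        positivity
      have h3 : ∑ β' ∈ B.erase β, (3 * log 2 * i β' + t β') ≤ ∑ β' ∈ B, (3 * log 2 * i β' + t β') := by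
        apply Finset.sum_le_sum_of_subset_of_nonneg (Finset.erase_subset _ _)
        intro x _ _
        have := ht0 x
        have := hi0 x
        positivity
      nlinarith
    have htot := hdisc.trans (Finset.sum_le_sum hrow)
    rw [Finset.sum_add_distrib, Finset.sum_const, nsmul_eq_mul, Finset.sum_add_distrib,
      ← Finset.mul_sum, Finset.sum_const, nsmul_eq_mul, hBcard] at htot
    have hsumi : ∑ β ∈ B, i β = Bad.card := by
      rw [hi, ← Finset.sum_filter, Finset.sum_const, nsmul_eq_mul, mul_one]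
    have hsumt : ∑ β ∈ B, t β ≤ 2 * (1 / 100 * k) + C * (1 / 100 * k) := by
      rw [ht, ← Finset.sum_filter, Finset.sum_add_distrib, ← Finset.mul_sum, Finset.sum_const,
        nsmul_eq_mul]
      have h2 : ∑ β ∈ Bad, V β ≤ ∑ β ∈ B, V β :=
        Finset.sum_le_sum_of_subset_of_nonneg (Finset.filter_subset _ _) fun β _ _ => hV0 β
      have h3 := mul_le_mul_of_nonneg_left hBadle hCpos.le
      have h4 : ∑ β ∈ B with 1 < V β, V β = ∑ β ∈ Bad, V β := rfl
      rw [h4]
      linarith
    have hsum : ∑ β' ∈ B, (3 * log 2 * i β' + t β') ≤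
        3 * log 2 * (1 / 100 * k) + (2 * (1 / 100 * k) + C * (1 / 100 * k)) := by
      rw [Finset.sum_add_distrib, ← Finset.mul_sum, hsumi]
      have := mul_le_mul_of_nonneg_left hBadle (by positivity : 0 ≤ 3 * log 2)
      linarith
    set T := ∑ β' ∈ B, (3 * log 2 * i β' + t β') with hT
    have hTle : T ≤ 0.36 * k := by
      refine hsum.trans ?_
      rw [hC]
      nlinarith
    have : 0 ≤ - (2 * log 2) * (k - 1) + 2 * T := by
      have h1 : 0 ≤ k * (- (2 * log 2) * (k - 1) + 2 * T) := by linarith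
      by_contra hcon
      push Not at hcon
      nlinarith
    nlinarith

end Pool.Agent.Zk21.Un
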