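import Mathlib
import Pool.Agent.Zk21.UnJ

/-!
# The symmetric case for outer polynomials of large degree
-/

set_option autoImplicit false

open Polynomial Metric Real

namespace Pool.Agent.Zk21.Un

open Pool.Agent.R328 Pool.Agent.Zk21.Smt Pool.Agent.Zk21.Dec

lemma irr_of_comp {g H : ℤ[X]} (hirr : Irreducible (g.comp H)) (hk : 0 < g.natDegree)
    (he : 0 < H.natDegree) : Irreducible g := by
  constructor
  · intro hu
    have := natDegree_eq_zero_of_isUnit hu
    omega
  · intro a c hac
    have ha0 : a ≠ 0 := by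
      rintro rfl
      rw [hac, zero_mul, natDegree_zero] at hk
      omega
    have hc0 : c ≠ 0 := by
      rintro rfl
      rw [hac, mul_zero, natDegree_zero] at hk
      omega
    have h1 : g.comp H = a.comp H * c.comp H := by
      rw [hac, mul_comp]
    have key : ∀ a : ℤ[X], a ≠ 0 → IsUnit (a.comp H) → IsUnit a := by
      intro a ha hu
      have h2 := natDegree_eq_zero_of_isUnit hu
      rw [natDegree_comp] at h2
      have h3 : a.natDegree = 0 := by
        rcases Nat.mul_eq_zero.mp h2 with h4 | h4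
        · exact h4
        · omega
      rw [eq_C_of_natDegree_eq_zero h3, C_comp] at hu
      rw [eq_C_of_natDegree_eq_zero h3]
      exact hu
    rcases hirr.isUnit_or_isUnit h1 with h2 | h2
    · exact Or.inl (key a ha0 h2)
    · exact Or.inr (key c hc0 h2)

/-- **symmetric compositions with an outer polynomial of large degree** -/
theorem sym_exp : ∃ (K : ℕ) (κ : ℝ), 0 < κ ∧ ∀ (g H u : ℤ[X]) (e : ℕ), 0 < e → H.natDegree = e →
    |H.leadingCoeff| = 1 → u.natDegree = 2 * e → u.coeff 0 ≠ 0 →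
    (∀ x : ℂ, x ≠ 0 → x ^ e * (H.map (Int.castRingHom ℂ)).eval (x + x⁻¹) =
      (u.map (Int.castRingHom ℂ)).eval x) →
    (∃ j, 0 < j ∧ j < e ∧ u.coeff j ≠ 0) → K ≤ g.natDegree → Irreducible (g.comp H) →
    |g.leadingCoeff| = 1 →
    κ * g.natDegree ≤ log ((hcomp g u (X ^ e)).map (Int.castRingHom ℂ)).mahlerMeasure := by
  classical
  have hlog2 : 0.69 < log 2 := by
    have := Real.log_two_gt_d9
    linarith
  have hlog2' : log 2 < 0.6932 := by
    have := Real.log_two_lt_d9
    linarith
  obtain ⟨p, hp84, hp⟩ := Nat.exists_infinite_primes (2 ^ 100)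
  have hpR : (0:ℝ) < p := by exact_mod_cast hp.pos
  have hplog : 96 * log 2 + 2 ≤ log (p / 2) := by
    have h1 : ((2:ℝ) ^ 99) ≤ p / 2 := by
      rw [le_div_iff₀ (by norm_num)]
      have : ((2 ^ 100 : ℕ) : ℝ) ≤ p := by exact_mod_cast hp84
      push_cast at this
      linarith
    have h2 := log_le_log (by positivity) h1
    rw [log_pow] at h2
    push_cast at h2
    linarith
  obtain ⟨K1, hK1⟩ := asymp 8 (√(64 * p)) (6 * log 2 + 24 * log 2) (1 / (16 * p)) (by positivity)
  refine ⟨max (max K1 (2 * p)) 4, min (1 / 100) (1 / (16 * p)), by positivity, ?_⟩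
  intro g H u e he hHd hHl hud hu0 hHu hns hkK hGirr hlg
  by_contra hM
  push Not at hM
  set k := g.natDegree with hk
  have hkK1 : K1 ≤ k := le_trans (le_trans (le_max_left _ _) (le_max_left _ _)) hkK
  have hkp : 2 * p ≤ k := le_trans (le_trans (le_max_right _ _) (le_max_left _ _)) hkK
  have hk4 : 4 ≤ k := le_trans (le_max_right _ _) hkK
  have hkR : (0:ℝ) < k := by
    have : 0 < k := by omega
    exact_mod_cast this
  have heR : (0:ℝ) < e := by exact_mod_cast he
  have heu : e < u.natDegree := by omega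
  have hgirr : Irreducible g := irr_of_comp hGirr (by omega) (by omega)
  rw [measure_hcomp heu hgirr hlg (by omega)] at hM
  set B := (g.map (Int.castRingHom ℂ)).roots.toFinset with hB
  have hM1 : ∑ β ∈ B, log (Pb u e β).mahlerMeasure ≤ 1 / 100 * k := by
    have := mul_le_mul_of_nonneg_right (min_le_left (1 / 100 : ℝ) (1 / (16 * p))) hkR.le
    linarith
  have hM2 : ∑ β ∈ B, log (Pb u e β).mahlerMeasure ≤ 1 / (16 * p) * k := by
    have := mul_le_mul_of_nonneg_right (min_le_right (1 / 100 : ℝ) (1 / (16 * p))) hkR.le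
    linarith
  obtain ⟨⟨b, hb, hmb⟩, hmpb⟩ := pencil_data2 heu (Or.inr hu0) hk4 hgirr hlg hM1
  set HC := H.map (Int.castRingHom ℂ) with hHC
  have hHCn : ‖HC.leadingCoeff‖ = 1 := norm_lc_map hHl
  have hHCd : HC.natDegree = e := by rw [hHC, natDegree_map_eq_of_injective castC_inj, hHd]
  have hHCd0 : 0 < HC.natDegree := by omega
  have hBcard : B.card = k := card_toFinset_roots hgirr (by omega)
  have hdisc : 0 ≤ ∑ β ∈ B, ∑ β' ∈ B.erase β, log ‖β - β'‖ := disc_nonneg hgirr hlg (by omega)
  -- the radius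
  set c : ℝ := exp (-(k / p)) with hc
  have hc0 : 0 < c := exp_pos _
  have hkp1 : 2 ≤ (k : ℝ) / p := by
    rw [le_div_iff₀ hpR]
    exact_mod_cast hkp
  have hlc : log (1 / c) = k / p := by
    rw [one_div, log_inv, hc, log_exp, neg_neg]
  have hc1 : c ≤ 1 := by
    rw [hc, exp_le_one_iff]
    linarith
  have h2c : log (1 / (2 * c)) = k / p - log 2 := by
    rw [one_div, log_inv, log_mul (by norm_num) hc0.ne', hc, log_exp]
    ring
  have h2c1 : 2 * c < 1 := by
    have h1 : 0 < log (1 / (2 * c)) := by rw [h2c]; linarith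
    rw [one_div, log_inv] at h1
    by_contra h3
    push Not at h3
    have := log_nonneg h3
    linarith
  -- the number of points in a small disc
  set a : ℂ → ℝ := fun β => log (Pb u e β).mahlerMeasure + 45 / 2 * log 2 with ha
  have ha0 : ∀ β ∈ B, 0 ≤ a β := by
    intro β _
    have := log_nonneg (Pb_measure heu β)
    rw [ha]
    positivity
  have hpair : ∀ β ∈ B, ∀ β' ∈ B, log⁺ ‖β - β'‖ ≤ a β + a β' := by
    intro β hβ β' hβ'
    have h1 := dist_le (u := u) (e := e) β β'
    have h2 := hmpb β hβ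
    have h3 := hmpb β' hβ'
    rw [ha]
    simp only
    linarith
  have hsuma : ∑ β ∈ B, a β ≤ 16 * k := by
    rw [ha, Finset.sum_add_distrib, Finset.sum_const, nsmul_eq_mul, hBcard]
    nlinarith
  set M : ℝ := 1 + √(64 * p) * √(k : ℝ) with hMdef
  have hMle : ∀ w : ℂ, ((B.filter fun β => ‖w - β‖ < c).card : ℝ) ≤ M := by
    intro w
    have h1 := few_points B hc0 h2c1 ha0 hpair hdisc w
    rw [hBcard, h2c] at h1
    have h1' := h1.trans (mul_le_mul_of_nonneg_left hsuma (by positivity : (0:ℝ) ≤ 2 * k))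
    set m : ℝ := ((B.filter fun β => ‖w - β‖ < c).card : ℝ) with hm
    have hm0 : 0 ≤ m := Nat.cast_nonneg _
    rcases le_or_gt m 1 with h2 | h2
    · have : 0 ≤ √(64 * p) * √(k : ℝ) := by positivity
      linarith
    · have h3 : (k : ℝ) / (2 * p) ≤ k / p - log 2 := by
        have : (k : ℝ) / (2 * p) = (k / p) / 2 := by
          field_simp
        rw [this]
        linarith
      have h4 : (m - 1) ^ 2 ≤ m * (m - 1) := by nlinarith
      have h5 : (m - 1) ^ 2 * (k / (2 * p)) ≤ 2 * k * (16 * k) := by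
        have h6 : 0 ≤ (m - 1) ^ 2 := sq_nonneg _
        have h7 : 0 ≤ m * (m - 1) := by nlinarith
        calc (m - 1) ^ 2 * (k / (2 * p)) ≤ m * (m - 1) * (k / (2 * p)) :=
              mul_le_mul_of_nonneg_right h4 (by positivity)
          _ ≤ m * (m - 1) * (k / p - log 2) := mul_le_mul_of_nonneg_left h3 h7
          _ ≤ _ := h1'
      have h6 : (m - 1) ^ 2 ≤ 64 * p * k := by
        have h7 : (m - 1) ^ 2 * (k / (2 * p)) = (k / (2 * p)) * (m - 1) ^ 2 := by ring
        have h8 : 2 * (k : ℝ) * (16 * k) = (k / (2 * p)) * (64 * p * k) := by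
          field_simp
          ring
        rw [h7, h8] at h5
        exact le_of_mul_le_mul_left h5 (by positivity)
      have h7 : m - 1 ≤ √(64 * p * k) := by
        apply le_sqrt_of_sq_le
        exact h6
      rw [sqrt_mul (by positivity)] at h7
      linarith
  -- the truncated means
  have hL := LL_sum he hud hu0 hHu B hc0 hc1 (Λ := k) (by exact_mod_cast hk4) hMle hmb
  rw [hBcard] at hL
  have h8 : (k : ℝ) * (8 / k) = 8 := by field_simp
  rw [h8] at hL
  have hasym := hK1 k hkK1
  set L := ∑ β ∈ B, LL HC β c with hLdef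
  have hLle : L ≤ k / (8 * p) := by
    have h9 : 1 / (16 * (p:ℝ)) * k + 1 / (16 * (p:ℝ)) * k = k / (8 * p) := by
      field_simp
      norm_num
    linarith
  -- the upper bound
  have hup := energy_pull hHCn hHCd0 hp.pos B b hc0 hc1 hkR hdisc
  have hHCdR : (HC.natDegree : ℝ) = e := by rw [hHCd]
  rw [hBcard, hHCdR, hlc, LL_one hHu b, ← hLdef] at hup
  have hGd : (g.comp H).natDegree = k * e := by rw [natDegree_comp, hHd]
  have hGd0 : 0 < (g.comp H).natDegree := by
    rw [hGd]
    have : 0 < k := by omega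
    positivity
  have hGC0 : (g.comp H).map (Int.castRingHom ℂ) ≠ 0 :=
    (Polynomial.map_ne_zero_iff castC_inj).mpr hGirr.ne_zero
  have hgC0 : g.map (Int.castRingHom ℂ) ≠ 0 := (Polynomial.map_ne_zero_iff castC_inj).mpr hgirr.ne_zero
  have hBmem : ∀ β : ℂ, β ∈ B ↔ (g.map (Int.castRingHom ℂ)).eval β = 0 := by
    intro Y
    rw [hB, Multiset.mem_toFinset, mem_roots hgC0]
    rfl
  have hRmem : ∀ Y : ℂ, Y ∈ ((g.comp H).map (Int.castRingHom ℂ)).roots.toFinset ↔
      ((g.comp H).map (Int.castRingHom ℂ)).eval Y = 0 := by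
    intro Y
    rw [Multiset.mem_toFinset, mem_roots hGC0]
    rfl
  have hGev : ∀ Y : ℂ, ((g.comp H).map (Int.castRingHom ℂ)).eval Y =
      (g.map (Int.castRingHom ℂ)).eval (HC.eval Y) := by
    intro Y
    rw [Polynomial.map_comp, eval_comp]
  obtain ⟨j, hj0, hje, huj⟩ := hns
  -- the pairs
  have hne : ∃ X X' : ℂ, ((g.comp H).map (Int.castRingHom ℂ)).eval X = 0 ∧
      ((g.comp H).map (Int.castRingHom ℂ)).eval X' = 0 ∧ HC.eval X = HC.eval X' ∧
      (HC.comp (dickson 1 (1 : ℂ) p)).eval X ≠ (HC.comp (dickson 1 (1 : ℂ) p)).eval X' := by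
    by_contra hcon
    push Not at hcon
    refine special_contra (HC := HC) (gC := g.map (Int.castRingHom ℂ))
      (uC := u.map (Int.castRingHom ℂ)) (e := e) (k := k) (p := p) hp.one_lt ?_ he hHCn hHCd hBcard
      ((g.comp H).map (Int.castRingHom ℂ)).roots.toFinset ?_ ?_ ?_ ?_ hHu ?_ hj0 hje ?_
    · have := hp.pos
      omega
    · intro Y hY
      rw [hRmem, hGev] at hY
      exact (hBmem _).mpr hY
    · intro Y hY
      rw [hRmem, hGev]
      exact (hBmem _).mp hY
    · rw [card_toFinset_roots hGirr hGd0, hGd]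
    · intro Y hY Y' hY' hYY
      exact hcon Y Y' ((hRmem Y).mp hY) ((hRmem Y').mp hY') hYY
    · rw [coeff_map, eq_intCast]
      exact_mod_cast hu0
    · rw [coeff_map, eq_intCast]
      exact_mod_cast huj
  have hlow := pairs_complex hGirr hHl hlg (by omega) (by omega) hp b hne
  rw [hHd] at hlow
  have hfin := hlow.trans hup
  -- the contradiction
  have e1 : (p : ℝ) / k * (e * k * (k / p) + 2 * e * k * L) = e * k + 2 * p * e * L := by
    field_simp
  rw [e1] at hfin
  have h10 : (e : ℝ) * k * (96 * log 2 + 2) ≤ e * k * log (p / 2) :=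
    mul_le_mul_of_nonneg_left hplog (by positivity)
  have h11 : (p : ℝ) * e * L ≤ e * k / 8 := by
    have h12 := mul_le_mul_of_nonneg_left hLle (by positivity : (0:ℝ) ≤ p * e)
    refine h12.trans (le_of_eq ?_)
    field_simp
  have h13 : (e : ℝ) * k * mp (Pb u e b) ≤ e * k * (24 * log 2) :=
    mul_le_mul_of_nonneg_left hmb (by positivity)
  have h14 : 0 < (e : ℝ) * k := by positivity
  have h15 : (k : ℝ) * (2 * e * mp (Pb u e b)) = 2 * (e * k * mp (Pb u e b)) := by ring
  have h16 : 2 * (e : ℝ) * k * mp (Pb u e b) = 2 * (e * k * mp (Pb u e b)) := by ring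
  rw [h15, h16] at hfin
  nlinarith

end Pool.Agent.Zk21.Un
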