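import Mathlib
import Pool.Agent.Zk21.UnK

/-!
# Reversed polynomials and trace polynomials
-/

set_option autoImplicit false

open Polynomial Metric Real

namespace Pool.Agent.Zk21.Un

open Pool.Agent.R328 Pool.Agent.Zk21.Smt Pool.Agent.Zk21.Dec

lemma reverse_eval (P : ℂ[X]) {x : ℂ} (hx : x ≠ 0) :
    P.reverse.eval x = x ^ P.natDegree * P.eval x⁻¹ := by
  have hxi : x⁻¹ ≠ 0 := inv_ne_zero hx
  let _inst : Invertible x⁻¹ := invertibleOfNonzero hxi
  have h := eval₂_reverse_mul_pow (RingHom.id ℂ) x⁻¹ P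
  rw [invOf_eq_inv, inv_inv, ← eval, ← eval] at h
  rw [← h]
  have : (x⁻¹) ^ P.natDegree * x ^ P.natDegree = 1 := by
    rw [← mul_pow, inv_mul_cancel₀ hx, one_pow]
  linear_combination (-P.reverse.eval x) * this

lemma measure_reverse (P : ℂ[X]) : P.reverse.mahlerMeasure = P.mahlerMeasure := by
  rcases eq_or_ne P 0 with h0 | h0
  · rw [h0, reverse_zero]
  have hr0 : P.reverse ≠ 0 := by rwa [Ne, reverse_eq_zero]
  have h1 : log P.reverse.mahlerMeasure = log P.mahlerMeasure := by
    rw [← log_mahler, ← log_mahler]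
    rw [← circleAverage_zero_one_congr_inv (f := fun x => log ‖P.eval x‖)]
    apply circleAverage_congr_sphere
    intro x hx
    rw [abs_one, mem_sphere_zero_iff_norm] at hx
    have hx0 : x ≠ 0 := by
      rintro rfl
      simp at hx
    simp only
    rw [reverse_eval P hx0, norm_mul, norm_pow, hx, one_pow, one_mul]
  exact log_injOn_pos (mahlerMeasure_pos_of_ne_zero hr0) (mahlerMeasure_pos_of_ne_zero h0) h1

lemma map_reverse' (f : ℤ[X]) : (f.reverse).map (Int.castRingHom ℂ) = (f.map (Int.castRingHom ℂ)).reverse := by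
  ext n
  rw [coeff_map, coeff_reverse, coeff_reverse, coeff_map, natDegree_map_eq_of_injective castC_inj]

lemma reverse_eval' (f : ℤ[X]) {x : ℂ} (hx : x ≠ 0) :
    ((f.reverse).map (Int.castRingHom ℂ)).eval x =
      x ^ f.natDegree * (f.map (Int.castRingHom ℂ)).eval x⁻¹ := by
  rw [map_reverse', reverse_eval _ hx, natDegree_map_eq_of_injective castC_inj]

lemma eq_of_eval' {P Q : ℤ[X]} (h : ∀ x : ℂ, x ≠ 0 →
    (P.map (Int.castRingHom ℂ)).eval x = (Q.map (Int.castRingHom ℂ)).eval x) : P = Q :=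
  eq_of_eval fun x hx _ => h x hx

lemma hcomp_evalX (g u : ℤ[X]) (e : ℕ) {x : ℂ} (hx : x ≠ 0) :
    ((hcomp g u (X ^ e)).map (Int.castRingHom ℂ)).eval x =
      x ^ (e * g.natDegree) * (g.map (Int.castRingHom ℂ)).eval
        ((u.map (Int.castRingHom ℂ)).eval x / x ^ e) := by
  have h1 : ((X ^ e : ℤ[X]).map (Int.castRingHom ℂ)).eval x = x ^ e := by simp
  rw [hcomp_eval g u (X ^ e) (by rw [h1]; exact pow_ne_zero _ hx), h1, ← pow_mul]

/-- the reversed composition -/
lemma rev_hcomp {g u : ℤ[X]} {e : ℕ} (he : e < u.natDegree) (hg : g ≠ 0) :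
    (hcomp g u (X ^ e)).reverse = hcomp g u.reverse (X ^ (u.natDegree - e)) := by
  apply eq_of_eval'
  intro x hx
  have hxi : x⁻¹ ≠ 0 := inv_ne_zero hx
  have hd : (X ^ e : ℤ[X]).natDegree < u.natDegree := by rwa [Xe_natDegree]
  rw [reverse_eval' _ hx, hcomp_evalX g u e hxi, hcomp_evalX g u.reverse _ hx, reverse_eval' _ hx,
    hcomp_natDegree hg hd]
  have h1 : x ^ u.natDegree * (u.map (Int.castRingHom ℂ)).eval x⁻¹ / x ^ (u.natDegree - e) =
      (u.map (Int.castRingHom ℂ)).eval x⁻¹ / x⁻¹ ^ e := by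
    have h2 : x ^ u.natDegree = x ^ (u.natDegree - e) * x ^ e := by
      rw [← pow_add]
      congr 1
      omega
    rw [h2, inv_pow]
    field_simp
  rw [h1, ← mul_assoc]
  congr 1
  have h3 : x ^ (g.natDegree * u.natDegree) = x ^ ((u.natDegree - e) * g.natDegree) *
      x ^ (e * g.natDegree) := by
    rw [← pow_add, ← add_mul]
    congr 1
    rw [mul_comm]
    congr 1
    omega
  rw [h3, inv_pow]
  field_simp

/-- the palindromic lift -/
noncomputable def pal (N : ℤ[X]) : ℤ[X] := hcomp N (X ^ 2 + 1) X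

lemma deg21 : (X : ℤ[X]).natDegree < (X ^ 2 + 1 : ℤ[X]).natDegree := by
  have : (X ^ 2 + 1 : ℤ[X]).natDegree = 2 := by compute_degree!
  rw [this, natDegree_X]
  norm_num

lemma pal_natDegree {N : ℤ[X]} (hN : N ≠ 0) : (pal N).natDegree = 2 * N.natDegree := by
  unfold pal
  rw [hcomp_natDegree hN deg21]
  have : (X ^ 2 + 1 : ℤ[X]).natDegree = 2 := by compute_degree!
  rw [this, mul_comm]

lemma pal_eval (N : ℤ[X]) {x : ℂ} (hx : x ≠ 0) :
    ((pal N).map (Int.castRingHom ℂ)).eval x =
      x ^ N.natDegree * (N.map (Int.castRingHom ℂ)).eval (x + x⁻¹) := by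
  unfold pal
  have h2 : ((X : ℤ[X]).map (Int.castRingHom ℂ)).eval x = x := by simp
  rw [hcomp_eval N (X ^ 2 + 1) X (by rw [h2]; exact hx), h2]
  have h3 : ((X ^ 2 + 1 : ℤ[X]).map (Int.castRingHom ℂ)).eval x / x = x + x⁻¹ := by
    simp only [Polynomial.map_add, Polynomial.map_pow, map_X, Polynomial.map_one, eval_add, eval_pow,
      eval_X, eval_one]
    field_simp
  rw [h3]

lemma pal_reverse {N : ℤ[X]} (hN : N ≠ 0) : (pal N).reverse = pal N := by
  apply eq_of_eval'
  intro x hx
  rw [reverse_eval' _ hx, pal_natDegree hN, pal_eval N (inv_ne_zero hx), pal_eval N hx, inv_inv,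
    add_comm x⁻¹ x, ← mul_assoc]
  congr 1
  rw [two_mul, pow_add, inv_pow]
  field_simp

lemma pal_mul {A B : ℤ[X]} (hA : A ≠ 0) (hB : B ≠ 0) : pal (A * B) = pal A * pal B :=
  hcomp_mul hA hB

lemma pal_ne_zero {N : ℤ[X]} (hN : N ≠ 0) : pal N ≠ 0 := by
  intro h
  have h1 := hcomp_map N (X ^ 2 + 1) X
  unfold pal at h
  rw [h, Polynomial.map_zero] at h1
  have h2 := mul_eq_zero.mp h1.symm
  rcases h2 with h2 | h2
  · rw [C_eq_zero, Int.cast_eq_zero, leadingCoeff_eq_zero] at h2
    exact hN h2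
  · exact (prod_fb_natDegree deg21 _).2.2 h2

lemma isUnit_of_pal {a : ℤ[X]} (ha : a ≠ 0) (hu : IsUnit (pal a)) : IsUnit a := by
  have h1 := natDegree_eq_zero_of_isUnit hu
  rw [pal_natDegree ha] at h1
  have h2 : a.natDegree = 0 := by omega
  obtain ⟨c, hc⟩ : ∃ c : ℤ, a = C c := ⟨a.coeff 0, eq_C_of_natDegree_eq_zero h2⟩
  have h3 : pal a = C c := by
    unfold pal hcomp
    rw [h2, hc]
    simp
  rw [h3] at hu
  rw [hc]
  exact hu

/-- irreducibility in the trace variable for non-reciprocal polynomials -/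
lemma irr_trace {f N : ℤ[X]} (hf : Irreducible f) (hnr : ¬ f ∣ f.reverse) (hN : 0 < N.natDegree)
    (h : pal N = f * f.reverse) : Irreducible N := by
  have hN0 : N ≠ 0 := by
    rintro rfl
    simp at hN
  have hf0 : f ≠ 0 := hf.ne_zero
  have hfr0 : f.reverse ≠ 0 := by rwa [Ne, reverse_eq_zero]
  constructor
  · intro hu
    have := natDegree_eq_zero_of_isUnit hu
    omega
  · intro A B hAB
    have hA : A ≠ 0 := by
      rintro rfl
      rw [zero_mul] at hAB
      exact hN0 hAB
    have hB : B ≠ 0 := by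
      rintro rfl
      rw [mul_zero] at hAB
      exact hN0 hAB
    have hpr : Prime f := hf.prime
    have hrel : IsRelPrime f f.reverse := by
      intro d hd1 hd2
      rcases (hf.dvd_iff).mp hd1 with h1 | h1
      · exact h1
      · exact absurd (h1.dvd.trans hd2) hnr
    -- the key step
    have key : ∀ A B : ℤ[X], A ≠ 0 → B ≠ 0 → pal A * pal B = f * f.reverse → f ∣ pal A → IsUnit B := by
      intro A B hA hB hAB hfA
      have h1 : f.reverse ∣ pal A := by
        obtain ⟨q, hq⟩ := hfA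
        have h2 := congrArg Polynomial.reverse hq
        rw [pal_reverse hA, reverse_mul_of_domain] at h2
        exact ⟨q.reverse, h2⟩
      have h2 : f * f.reverse ∣ pal A := hrel.mul_dvd hfA h1
      obtain ⟨q, hq⟩ := h2
      rw [hq] at hAB
      have h3 : q * pal B = 1 := by
        have h4 : f * f.reverse * (q * pal B) = f * f.reverse * 1 := by
          rw [mul_one, ← mul_assoc]
          exact hAB
        exact mul_left_cancel₀ (mul_ne_zero hf0 hfr0) h4
      exact isUnit_of_pal hB (IsUnit.of_mul_eq_one q (by rw [mul_comm]; exact h3))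
    have hprod : pal A * pal B = f * f.reverse := by rw [← pal_mul hA hB, ← hAB, h]
    have hdvd : f ∣ pal A * pal B := by
      rw [hprod]
      exact dvd_mul_right _ _
    rcases hpr.dvd_or_dvd hdvd with h1 | h1
    · exact Or.inr (key A B hA hB hprod h1)
    · exact Or.inl (key B A hB hA (by rw [mul_comm]; exact hprod) h1)

/-- the trace polynomial -/
noncomputable def tr (u : ℤ[X]) (e : ℕ) : ℤ[X] :=
  ∑ j ∈ Finset.range e, C (u.coeff j) * dickson 1 (1 : ℤ) (e - j) + C (u.coeff e)

lemma tr_coeff_top {u : ℤ[X]} {e : ℕ} (he : 0 < e) :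
    (tr u e).coeff e = u.coeff 0 ∧ (tr u e).natDegree ≤ e := by
  have hle : (tr u e).natDegree ≤ e := by
    unfold tr
    refine (natDegree_add_le _ _).trans (max_le ?_ ?_)
    · apply natDegree_sum_le_of_forall_le
      intro j _
      refine (natDegree_C_mul_le _ _).trans ?_
      have := dickson_le (R := ℤ) (e - j)
      omega
    · rw [natDegree_C]
      omega
  refine ⟨?_, hle⟩
  unfold tr
  rw [coeff_add, coeff_C_of_ne_zero he.ne', add_zero, finsetSum_coeff]
  rw [Finset.sum_eq_single 0]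
  · rw [coeff_C_mul, Nat.sub_zero]
    obtain ⟨h1, h2⟩ := dickson_monic (R := ℤ) he
    have h3 : (dickson 1 (1 : ℤ) e).coeff e = 1 := by
      have h4 := h1.coeff_natDegree
      rwa [h2] at h4
    rw [h3, mul_one]
  · intro j hj hj0
    rw [Finset.mem_range] at hj
    have h5 : (dickson 1 (1 : ℤ) (e - j)).coeff e = 0 := by
      apply coeff_eq_zero_of_natDegree_lt
      refine lt_of_le_of_lt (dickson_le (R := ℤ) (e - j)) ?_
      omega
    rw [coeff_C_mul, h5, mul_zero]
  · intro h
    exact absurd (Finset.mem_range.mpr he) h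

lemma tr_natDegree {u : ℤ[X]} {e : ℕ} (he : 0 < e) (hu : u.coeff 0 ≠ 0) :
    (tr u e).natDegree = e ∧ (tr u e).leadingCoeff = u.coeff 0 := by
  obtain ⟨h1, h2⟩ := tr_coeff_top (u := u) he
  have h3 : (tr u e).natDegree = e := by
    apply natDegree_eq_of_le_of_coeff_ne_zero h2
    rwa [h1]
  refine ⟨h3, ?_⟩
  rw [leadingCoeff, h3, h1]

lemma tr_eval {u : ℤ[X]} {e : ℕ} (hd : u.natDegree ≤ 2 * e)
    (hpal : ∀ i, i ≤ e → u.coeff (2 * e - i) = u.coeff i) (x : ℂ) (hx : x ≠ 0) :
    x ^ e * ((tr u e).map (Int.castRingHom ℂ)).eval (x + x⁻¹) =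
      (u.map (Int.castRingHom ℂ)).eval x := by
  have h1 : (u.map (Int.castRingHom ℂ)).eval x =
      ∑ i ∈ Finset.range (2 * e + 1), (u.coeff i : ℂ) * x ^ i := by
    rw [eval_eq_sum_range' (n := 2 * e + 1)]
    · refine Finset.sum_congr rfl fun i _ => ?_
      rw [coeff_map, eq_intCast]
    · exact lt_of_le_of_lt natDegree_map_le (by omega)
  rw [h1]
  have h2 : ((tr u e).map (Int.castRingHom ℂ)).eval (x + x⁻¹) =
      ∑ j ∈ Finset.range e, (u.coeff j : ℂ) * (x ^ (e - j) + (x ^ (e - j))⁻¹) + u.coeff e := by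
    unfold tr
    rw [Polynomial.map_add, Polynomial.map_sum, eval_add, eval_finsetSum]
    congr 1
    · refine Finset.sum_congr rfl fun j _ => ?_
      rw [Polynomial.map_mul, map_dickson, map_C, eval_mul, eval_C, map_one, dickson_fold hx, eq_intCast]
    · simp
  rw [h2]
  have h3 : ∑ i ∈ Finset.range (2 * e + 1), (u.coeff i : ℂ) * x ^ i =
      ∑ j ∈ Finset.range e, ((u.coeff j : ℂ) * x ^ j + (u.coeff j : ℂ) * x ^ (2 * e - j)) +
        u.coeff e * x ^ e := by
    have h4 : 2 * e + 1 = e + (e + 1) := by ring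
    rw [h4, Finset.sum_range_add, Finset.sum_add_distrib, add_assoc]
    congr 1
    rw [← Finset.sum_range_reflect, Finset.sum_range_succ]
    have h5 : e + (e + 1 - 1 - e) = e := by omega
    rw [h5]
    congr 1
    refine Finset.sum_congr rfl fun j hj => ?_
    rw [Finset.mem_range] at hj
    have h6 : e + (e + 1 - 1 - j) = 2 * e - j := by omega
    rw [h6, hpal j hj.le]
  rw [h3, mul_add, Finset.mul_sum]
  congr 1
  · refine Finset.sum_congr rfl fun j hj => ?_
    rw [Finset.mem_range] at hj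
    have h7 : x ^ e = x ^ j * x ^ (e - j) := by
      rw [← pow_add]
      congr 1
      omega
    have h8 : x ^ (2 * e - j) = x ^ e * x ^ (e - j) := by
      rw [← pow_add]
      congr 1
      omega
    rw [h8, h7]
    field_simp
    ring
  · ring

end Pool.Agent.Zk21.Un
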