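import Mathlib
import Pool.Agent.Zk21.UnL

/-!
# Symmetric and antisymmetric inner functions
-/

set_option autoImplicit false

open Polynomial Metric Real

namespace Pool.Agent.Zk21.Un

open Pool.Agent.R328 Pool.Agent.Zk21.Smt Pool.Agent.Zk21.Dec

lemma expand_contract_of {f : ℤ[X]} {e : ℕ} (he : e ≠ 0) (h : ∀ n, ¬ e ∣ n → f.coeff n = 0) :
    expand ℤ e (contract e f) = f := by
  ext n
  rw [coeff_expand (Nat.pos_of_ne_zero he)]
  split_ifs with h1
  · rw [coeff_contract he, Nat.div_mul_cancel h1]
  · exact (h n h1).symm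

lemma expand_case {g u : ℤ[X]} {e : ℕ} (he : 0 < e) (hd : u.natDegree = 2 * e)
    (h : ∀ j, 0 < j → j < e → u.coeff j = 0 ∧ u.coeff (2 * e - j) = 0) :
    ∃ F : ℤ[X], hcomp g u (X ^ e) = expand ℤ e F := by
  have h1 : expand ℤ e (contract e u) = u := by
    apply expand_contract_of he.ne'
    intro n hn
    have hn0 : n ≠ 0 := by
      rintro rfl
      exact hn (dvd_zero e)
    have hne : n ≠ e := by
      rintro rfl
      exact hn (dvd_refl n)
    have hn2 : n ≠ 2 * e := by
      rintro rfl
      exact hn (dvd_mul_left e 2)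
    rcases Nat.lt_or_ge n e with h2 | h2
    · exact (h n (Nat.pos_of_ne_zero hn0) h2).1
    · rcases Nat.lt_or_ge n (2 * e) with h3 | h3
      · have h4 := (h (2 * e - n) (by omega) (by omega)).2
        have h5 : 2 * e - (2 * e - n) = n := by omega
        rwa [h5] at h4
      · exact coeff_eq_zero_of_natDegree_lt (by omega)
  refine ⟨hcomp g (contract e u) X, ?_⟩
  unfold hcomp
  rw [map_sum]
  refine Finset.sum_congr rfl fun i _ => ?_
  rw [map_mul, map_mul, map_pow, map_pow, expand_C, expand_X, h1]

lemma comp_neg_coeff (P : ℤ[X]) (n : ℕ) : (P.comp (-X)).coeff n = P.coeff n * (-1) ^ n := by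
  have : (-X : ℤ[X]) = C (-1) * X := by simp
  rw [this, comp_C_mul_X_coeff]

lemma even_expand {P : ℤ[X]} (h : P.comp (-X) = P) : expand ℤ 2 (contract 2 P) = P := by
  apply expand_contract_of (by norm_num)
  intro n hn
  have h1 := congrArg (fun Q : ℤ[X] => Q.coeff n) h
  simp only [comp_neg_coeff] at h1
  have h2 : Odd n := by
    rw [← Nat.not_even_iff_odd, even_iff_two_dvd]
    exact hn
  rw [h2.neg_one_pow] at h1
  omega

lemma shift (g u : ℤ[X]) (e : ℕ) (a : ℤ) :
    hcomp (g.comp (X + C a)) (u - C a * X ^ e) (X ^ e) = hcomp g u (X ^ e) := by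
  apply eq_of_eval'
  intro x hx
  have h1 : (g.comp (X + C a)).natDegree = g.natDegree := by
    rw [natDegree_comp, natDegree_X_add_C, mul_one]
  rw [hcomp_evalX _ _ _ hx, hcomp_evalX _ _ _ hx, h1]
  congr 1
  rw [Polynomial.map_comp, eval_comp]
  congr 1
  simp only [Polynomial.map_sub, Polynomial.map_mul, Polynomial.map_add, map_X, map_C,
    Polynomial.map_pow, eval_sub, eval_mul, eval_add, eval_X, eval_C, eval_pow]
  have := pow_ne_zero e hx
  field_simp
  ring

/-- the constants of the symmetric case -/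
def SymConst (K : ℕ) (κ : ℝ) : Prop :=
  0 < κ ∧ ∀ (g H u : ℤ[X]) (e : ℕ), 0 < e → H.natDegree = e →
    |H.leadingCoeff| = 1 → u.natDegree = 2 * e → u.coeff 0 ≠ 0 →
    (∀ x : ℂ, x ≠ 0 → x ^ e * (H.map (Int.castRingHom ℂ)).eval (x + x⁻¹) =
      (u.map (Int.castRingHom ℂ)).eval x) →
    (∃ j, 0 < j ∧ j < e ∧ u.coeff j ≠ 0) → K ≤ g.natDegree → Irreducible (g.comp H) →
    |g.leadingCoeff| = 1 →
    κ * g.natDegree ≤ log ((hcomp g u (X ^ e)).map (Int.castRingHom ℂ)).mahlerMeasure

lemma exists_symConst : ∃ (K : ℕ) (κ : ℝ), SymConst K κ := sym_exp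

lemma pal_hcomp {g H u : ℤ[X]} {e : ℕ} (hHd : H.natDegree = e)
    (hHu : ∀ x : ℂ, x ≠ 0 → x ^ e * (H.map (Int.castRingHom ℂ)).eval (x + x⁻¹) =
      (u.map (Int.castRingHom ℂ)).eval x) : hcomp g u (X ^ e) = pal (g.comp H) :=
  hcomp_trace hHd hHu

/-- the symmetric case -/
lemma sym_case {K : ℕ} {κ : ℝ} (hS : SymConst K κ) {g u : ℤ[X]} {e : ℕ} (he : 0 < e)
    (hd : u.natDegree = 2 * e) (hu0 : |u.coeff 0| = 1) (hlg : |g.leadingCoeff| = 1)
    (hpal : ∀ i, i ≤ e → u.coeff (2 * e - i) = u.coeff i)
    (hns : ∃ j, 0 < j ∧ j < e ∧ u.coeff j ≠ 0) (hK : K ≤ g.natDegree) (hk : 0 < g.natDegree)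
    (hirr : Irreducible (hcomp g u (X ^ e))) :
    κ * g.natDegree ≤ log ((hcomp g u (X ^ e)).map (Int.castRingHom ℂ)).mahlerMeasure := by
  have hu00 : u.coeff 0 ≠ 0 := by
    intro h
    rw [h] at hu0
    simp at hu0
  obtain ⟨h1, h2⟩ := tr_natDegree he hu00
  have h3 := tr_eval hd.le hpal
  have h4 : Irreducible (g.comp (tr u e)) := by
    rw [pal_hcomp h1 h3] at hirr
    apply irr_of_hcomp deg21 _ hirr
    rw [natDegree_comp, h1]
    positivity
  exact hS.2 g (tr u e) u e he h1 (by rw [h2]; exact hu0) hd hu00 h3 hns hK h4 hlg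

/-- the antisymmetric case -/
lemma antisym_case {K : ℕ} {κ : ℝ} (hS : SymConst K κ) {g u : ℤ[X]} {e : ℕ} (he : 0 < e)
    (hd : u.natDegree = 2 * e) (hu0 : |u.coeff 0| = 1) (hlg : |g.leadingCoeff| = 1)
    (hanti : u.reverse = -u) (hns : ∃ j, 0 < j ∧ j < e ∧ u.coeff j ≠ 0)
    (hK : 2 * K + 2 ≤ g.natDegree) (hirr : Irreducible (hcomp g u (X ^ e))) :
    κ / 2 * g.natDegree ≤ log ((hcomp g u (X ^ e)).map (Int.castRingHom ℂ)).mahlerMeasure := by
  classical
  have hκ := hS.1
  have hu00 : u.coeff 0 ≠ 0 := by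
    intro h
    rw [h] at hu0
    simp at hu0
  have hune : u ≠ 0 := by
    rintro rfl
    simp at hu00
  set f := hcomp g u (X ^ e) with hf
  have hdv : (X ^ e : ℤ[X]).natDegree < u.natDegree := by
    rw [natDegree_X_pow, hd]
    omega
  have hgirr : Irreducible g := irr_of_hcomp hdv (by omega) hirr
  have hg0 : g ≠ 0 := hgirr.ne_zero
  -- the square
  set w : ℤ[X] := u ^ 2 with hw
  have hwd : w.natDegree = 2 * (2 * e) := by rw [hw, natDegree_pow, hd]
  have hwrev : w.reverse = w := by
    rw [hw, sq, reverse_mul_of_domain, hanti]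
    ring
  have hwpal : ∀ i, i ≤ 2 * e → w.coeff (2 * (2 * e) - i) = w.coeff i := by
    intro i hi
    have h1 := congrArg (fun Q : ℤ[X] => Q.coeff i) hwrev
    simp only [coeff_reverse, hwd] at h1
    rw [revAt_le (by omega)] at h1
    exact h1
  have hw0 : w.coeff 0 = u.coeff 0 ^ 2 := by
    rw [hw, coeff_zero_eq_eval_zero, eval_pow, ← coeff_zero_eq_eval_zero]
  have hw01 : |w.coeff 0| = 1 := by rw [hw0, abs_pow, hu0, one_pow]
  have hwns : ∃ j, 0 < j ∧ j < 2 * e ∧ w.coeff j ≠ 0 := by
    set i := Nat.find hns with hi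
    obtain ⟨hi0, hie, hiu⟩ := Nat.find_spec hns
    have himin : ∀ i', 0 < i' → i' < i → u.coeff i' = 0 := by
      intro i' h1 h2
      by_contra h3
      exact Nat.find_min hns h2 ⟨h1, by omega, h3⟩
    refine ⟨i, hi0, by omega, ?_⟩
    have h1 := coeff_pow_first (u := u.map (Int.castRingHom ℂ)) hi0 (by
      intro i' h1 h2
      rw [coeff_map, himin i' h1 h2, map_zero]) 2
    rw [← Polynomial.map_pow, coeff_map, coeff_map, coeff_map, eq_intCast, eq_intCast, eq_intCast] at h1
    intro h2
    rw [← hw, h2] at h1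
    have h3 : (2:ℂ) * (u.coeff 0 : ℂ) * (u.coeff i : ℂ) = 0 := by
      have := h1.symm
      simpa using this
    have h4 : (2 * u.coeff 0 * u.coeff i : ℤ) = 0 := by exact_mod_cast h3
    have h5 : (2 * u.coeff 0 * u.coeff i : ℤ) ≠ 0 :=
      mul_ne_zero (mul_ne_zero (by norm_num) hu00) hiu
    exact h5 h4
  have hwev : ∀ x : ℂ, (w.map (Int.castRingHom ℂ)).eval x = ((u.map (Int.castRingHom ℂ)).eval x) ^ 2 := by
    intro x
    rw [hw, Polynomial.map_pow, eval_pow]
  -- expansion
  have hexp : ∀ G P : ℤ[X], expand ℤ 2 G = P → hcomp G w (X ^ (2 * e)) = hcomp P u (X ^ e) := by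
    intro G P hGP
    apply eq_of_eval'
    intro x hx
    have h1 : P.natDegree = G.natDegree * 2 := by rw [← hGP, natDegree_expand]
    rw [hcomp_evalX _ _ _ hx, hcomp_evalX _ _ _ hx, h1, ← hGP, map_expand, expand_eval, hwev, div_pow,
      ← pow_mul]
    congr 1
    · congr 1
      ring
    · congr 2
      ring
  by_cases heven : g.comp (-X) = g
  · -- even outer polynomial
    set G := contract 2 g with hG
    have hexpG : expand ℤ 2 G = g := even_expand heven
    have hGd : g.natDegree = G.natDegree * 2 := by rw [← hexpG, natDegree_expand]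
    have hGl : |G.leadingCoeff| = 1 := by
      rw [← hexpG, leadingCoeff_expand (by norm_num)] at hlg
      exact hlg
    have hfG : hcomp G w (X ^ (2 * e)) = f := hexp G g hexpG
    have h1 := sym_case hS (g := G) (u := w) (e := 2 * e) (by omega) hwd hw01 hGl hwpal hwns
      (by omega) (by omega) (by rw [hfG]; exact hirr)
    rw [hfG] at h1
    refine le_trans (le_of_eq ?_) h1
    rw [hGd]
    push_cast
    ring
  · -- the product of `f` and its reverse
    have hgn0 : g.comp (-X) ≠ 0 := by
      intro h
      have h1 : (g.comp (-X)).natDegree = g.natDegree := by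
        rw [natDegree_comp, natDegree_neg, natDegree_X, mul_one]
      rw [h, natDegree_zero] at h1
      omega
    have hgnd : (g.comp (-X)).natDegree = g.natDegree := by
      rw [natDegree_comp, natDegree_neg, natDegree_X, mul_one]
    have hfr : f.reverse = hcomp (g.comp (-X)) u (X ^ e) := by
      apply eq_of_eval'
      intro x hx
      have hxi := inv_ne_zero hx
      rw [reverse_eval' _ hx, hf, hcomp_evalX _ _ _ hxi, hcomp_evalX _ _ _ hx, hgnd,
        hcomp_natDegree hg0 hdv, hd]
      have h1 : (u.map (Int.castRingHom ℂ)).eval x⁻¹ / x⁻¹ ^ e =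
          -((u.map (Int.castRingHom ℂ)).eval x / x ^ e) := by
        have h2 := reverse_eval' u hx
        rw [hanti, hd, Polynomial.map_neg, eval_neg] at h2
        have h3 : x ^ (2 * e) ≠ 0 := pow_ne_zero _ hx
        have h4 : (u.map (Int.castRingHom ℂ)).eval x⁻¹ =
            -(u.map (Int.castRingHom ℂ)).eval x / x ^ (2 * e) := by
          rw [h2]
          field_simp
        rw [h4, inv_pow, two_mul, pow_add]
        have := pow_ne_zero e hx
        field_simp
      rw [h1, Polynomial.map_comp, eval_comp, Polynomial.map_neg, map_X, eval_neg, eval_X, ← mul_assoc]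
      congr 1
      have h5 : x ^ (g.natDegree * (2 * e)) = x ^ (e * g.natDegree) * x ^ (e * g.natDegree) := by
        rw [← pow_add]
        congr 1
        ring
      rw [h5, inv_pow]
      have := pow_ne_zero (e * g.natDegree) hx
      field_simp
    set P := g * g.comp (-X) with hP
    have hPeven : P.comp (-X) = P := by
      rw [hP, mul_comp, comp_assoc]
      have : (-X : ℤ[X]).comp (-X) = X := by simp
      rw [this, comp_X, mul_comm]
    set G := contract 2 P with hG
    have hexpG : expand ℤ 2 G = P := even_expand hPeven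
    have hP0 : P ≠ 0 := mul_ne_zero hg0 hgn0
    have hPd : P.natDegree = 2 * g.natDegree := by
      rw [hP, natDegree_mul hg0 hgn0, hgnd]
      ring
    have hGd : G.natDegree = g.natDegree := by
      have h1 : P.natDegree = G.natDegree * 2 := by rw [← hexpG, natDegree_expand]
      omega
    have hGl : |G.leadingCoeff| = 1 := by
      have h1 : G.leadingCoeff = P.leadingCoeff := by
        rw [← hexpG, leadingCoeff_expand (by norm_num)]
      rw [h1, hP, leadingCoeff_mul, leadingCoeff_comp (by rw [natDegree_neg, natDegree_X]; norm_num),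
        leadingCoeff_neg, leadingCoeff_X, abs_mul, abs_mul, hlg, abs_pow]
      simp
    have hGw : hcomp G w (X ^ (2 * e)) = f * f.reverse := by
      rw [hexp G P hexpG, hP, hcomp_mul hg0 hgn0, hfr]
    -- `f` is not reciprocal
    have hnr : ¬ f ∣ f.reverse := by
      rintro ⟨q, hq⟩
      have hf0 : f ≠ 0 := hirr.ne_zero
      have hfr0 : f.reverse ≠ 0 := by rwa [Ne, reverse_eq_zero]
      have hq0 : q ≠ 0 := by
        rintro rfl
        rw [mul_zero] at hq
        exact hfr0 hq
      have h1 : q.natDegree = 0 := by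
        have h2 := congrArg Polynomial.natDegree hq
        rw [natDegree_mul hf0 hq0] at h2
        have h3 : f.reverse.natDegree ≤ f.natDegree := reverse_natDegree_le f
        omega
      set c := q.coeff 0 with hc
      have hqc : q = C c := eq_C_of_natDegree_eq_zero h1
      -- the outer polynomials
      have h2 : g.comp (-X) = C c * g := by
        apply map_injective _ castC_inj
        apply Polynomial.funext
        intro y
        -- a preimage
        have hPb : 0 < (Pb u e y).degree := by
          rw [← natDegree_pos_iff_degree_pos]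
          have := (fb_natDegree hdv y).1
          unfold Pb
          omega
        obtain ⟨x, hx⟩ := IsAlgClosed.exists_root (Pb u e y) hPb.ne'
        have hx' : (u.map (Int.castRingHom ℂ)).eval x - y * x ^ e = 0 := by
          have : (Pb u e y).eval x = 0 := hx
          unfold Pb fb at this
          rw [eval_sub, eval_mul, eval_C, Polynomial.map_pow, map_X, eval_pow, eval_X] at this
          exact this
        have hx0 : x ≠ 0 := by
          rintro rfl
          rw [zero_pow he.ne', mul_zero, sub_zero, ← coeff_zero_eq_eval_zero, coeff_map, eq_intCast] at hx'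
          apply hu00
          exact_mod_cast hx'
        have hy : (u.map (Int.castRingHom ℂ)).eval x / x ^ e = y := by
          rw [sub_eq_zero.mp hx']
          have := pow_ne_zero e hx0
          field_simp
        have h3 := congrArg (fun Q : ℤ[X] => (Q.map (Int.castRingHom ℂ)).eval x) hq
        simp only [Polynomial.map_mul, eval_mul] at h3
        rw [hfr, hqc, hf, hcomp_evalX _ _ _ hx0, hcomp_evalX _ _ _ hx0, hgnd, hy, map_C, eval_C] at h3
        rw [Polynomial.map_mul, eval_mul, map_C, eval_C]
        have h4 : x ^ (e * g.natDegree) ≠ 0 := pow_ne_zero _ hx0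
        have h5 : x ^ (e * g.natDegree) * eval y (map (Int.castRingHom ℂ) (g.comp (-X))) =
            x ^ (e * g.natDegree) * ((Int.castRingHom ℂ) c * eval y (map (Int.castRingHom ℂ) g)) := by
          rw [h3]
          ring
        exact mul_left_cancel₀ h4 h5
      have h3 := congrArg (fun Q : ℤ[X] => Q.coeff g.natDegree) h2
      simp only [comp_neg_coeff, coeff_C_mul] at h3
      have hlc0 : g.coeff g.natDegree ≠ 0 := leadingCoeff_ne_zero.mpr hg0
      have hcc : c = (-1) ^ g.natDegree := by
        rw [mul_comm] at h3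
        exact (mul_right_cancel₀ hlc0 h3).symm
      rcases Nat.even_or_odd g.natDegree with h4 | h4
      · rw [h4.neg_one_pow] at hcc
        rw [hcc, C_1, one_mul] at h2
        exact heven h2
      · rw [h4.neg_one_pow] at hcc
        have h5 := congrArg (fun Q : ℤ[X] => Q.coeff 0) h2
        simp only [comp_neg_coeff, coeff_C_mul, pow_zero, mul_one] at h5
        rw [hcc] at h5
        have h6 : g.coeff 0 = 0 := by omega
        obtain ⟨r, hr⟩ := X_dvd_iff.mpr h6
        rcases hgirr.isUnit_or_isUnit hr with h7 | h7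
        · exact not_isUnit_X h7
        · have h8 := natDegree_eq_zero_of_isUnit h7
          have h9 := congrArg Polynomial.natDegree hr
          rw [natDegree_mul X_ne_zero h7.ne_zero, natDegree_X, h8] at h9
          omega
    -- the trace polynomial
    have hw00 : w.coeff 0 ≠ 0 := by
      rw [hw0]
      exact pow_ne_zero 2 hu00
    obtain ⟨h1, h2⟩ := tr_natDegree (u := w) (e := 2 * e) (by omega) hw00
    have h3 := tr_eval hwd.le hwpal
    have hpal : pal (G.comp (tr w (2 * e))) = f * f.reverse := by
      rw [← hGw, pal_hcomp h1 h3]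
    have hNd : 0 < (G.comp (tr w (2 * e))).natDegree := by
      rw [natDegree_comp, h1, hGd]
      have : 0 < g.natDegree := by omega
      positivity
    have hNirr := irr_trace hirr hnr hNd hpal
    have hfin := hS.2 G (tr w (2 * e)) w (2 * e) (by omega) h1 (by rw [h2]; exact hw01) hwd hw00 h3 hwns
      (by omega) hNirr hGl
    rw [hGw, Polynomial.map_mul, mahlerMeasure_mul, map_reverse', measure_reverse, hGd] at hfin
    have hMpos : 0 < (f.map (Int.castRingHom ℂ)).mahlerMeasure :=
      mahlerMeasure_pos_of_ne_zero ((Polynomial.map_ne_zero_iff castC_inj).mpr hirr.ne_zero)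
    rw [log_mul hMpos.ne' hMpos.ne'] at hfin
    linarith

end Pool.Agent.Zk21.Un
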