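import Mathlib
import Pool.Agent.Zk21.UnM

/-!
# Lehmer's problem for decomposable polynomials: exponential growth in the outer degree
-/

set_option autoImplicit false

open Polynomial Metric Real

namespace Pool.Agent.Zk21.Un

open Pool.Agent.R328 Pool.Agent.Zk21.Smt Pool.Agent.Zk21.Dec

lemma no_rat_root {g : ℤ[X]} (hg : Irreducible g) (hk : 2 ≤ g.natDegree) (x : ℚ) : aeval x g ≠ 0 := by
  intro h
  have hgQ : Irreducible (g.map (Int.castRingHom ℚ)) := by
    have hprim : g.IsPrimitive := hg.isPrimitive (by omega)
    exact (IsPrimitive.Int.irreducible_iff_irreducible_map_cast hprim).mp hg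
  have h1 : (g.map (Int.castRingHom ℚ)).IsRoot x := by
    rw [IsRoot, eval_map]
    exact h
  have h2 := degree_eq_one_of_irreducible_of_root hgQ h1
  have h3 : (g.map (Int.castRingHom ℚ)).natDegree = 1 := natDegree_eq_of_degree_eq_some h2
  rw [natDegree_map_eq_of_injective (Int.castRingHom ℚ).injective_int] at h3
  omega

lemma log_of_gold {k : ℕ} {M : ℝ} (h : goldenRatio ^ ((k : ℝ) / 2) ≤ M) :
    log goldenRatio / 2 * k ≤ log M := by
  have h1 := log_le_log (rpow_pos_of_pos goldenRatio_pos _) h
  rw [log_rpow goldenRatio_pos] at h1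
  linarith

/-- the constant term of the inner polynomial -/
lemma coeff_zero_ne {g u : ℤ[X]} {e : ℕ} (hk : 2 ≤ g.natDegree) (he : e < u.natDegree) (he0 : e ≠ 0)
    (hirr : Irreducible (hcomp g u (X ^ e))) : u.coeff 0 ≠ 0 := by
  intro hu
  have hd : (X ^ e : ℤ[X]).natDegree < u.natDegree := by rwa [Xe_natDegree]
  have hg0 : g ≠ 0 := by
    rintro rfl
    simp at hk
  set f := hcomp g u (X ^ e) with hf
  have hX : X ∣ f := by
    rw [X_dvd_iff, hf]
    unfold hcomp
    rw [finsetSum_coeff]
    apply Finset.sum_eq_zero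
    intro i hi
    rw [Finset.mem_range] at hi
    rw [coeff_zero_eq_eval_zero, eval_mul, eval_mul, eval_pow, eval_pow, eval_pow, eval_X,
      ← coeff_zero_eq_eval_zero u, hu]
    rcases Nat.eq_zero_or_pos i with h1 | h1
    · subst h1
      rw [zero_pow he0, zero_pow (by omega : g.natDegree - 0 ≠ 0)]
      ring
    · rw [zero_pow (by omega : i ≠ 0)]
      ring
  obtain ⟨q, hq⟩ := hX
  have h1 : IsUnit q := by
    rcases hirr.isUnit_or_isUnit hq with h | h
    · exact absurd h not_isUnit_X
    · exact h
  have h2 := natDegree_eq_zero_of_isUnit h1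
  have h3 := congrArg Polynomial.natDegree hq
  rw [natDegree_mul X_ne_zero h1.ne_zero, natDegree_X, h2, hf, hcomp_natDegree hg0 hd] at h3
  have : 2 * 1 ≤ g.natDegree * u.natDegree := Nat.mul_le_mul hk (by omega)
  omega

/-- **exponential growth** for leading coefficient `±1` -/
theorem main_monic : ∃ κ : ℝ, 0 < κ ∧ ∀ (g u : ℤ[X]) (e : ℕ), 2 ≤ g.natDegree → e < u.natDegree →
    Irreducible (hcomp g u (X ^ e)) →
    1 < ((hcomp g u (X ^ e)).map (Int.castRingHom ℂ)).mahlerMeasure →
    |(hcomp g u (X ^ e)).leadingCoeff| = 1 →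
    (∃ F : ℤ[X], hcomp g u (X ^ e) = expand ℤ (max e (u.natDegree - e)) F) ∨
    κ * g.natDegree ≤ log ((hcomp g u (X ^ e)).map (Int.castRingHom ℂ)).mahlerMeasure := by
  obtain ⟨K, κ, hS⟩ := exists_symConst
  obtain ⟨c, hc, hsmt⟩ := main_smt
  have hκ := hS.1
  have hgold : 0 < log goldenRatio := log_pos one_lt_goldenRatio
  set K' : ℕ := 2 * K + 2 with hK'
  have hK'R : (0:ℝ) < K' := by
    have : 0 < K' := by omega
    exact_mod_cast this
  refine ⟨min (min (κ / 2) (log goldenRatio / 2)) (c / (K' : ℝ) ^ 4), by positivity, ?_⟩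
  intro g u e hk he hirr hM hlf
  set f := hcomp g u (X ^ e) with hf
  set k := g.natDegree with hkdef
  have hkR : (0:ℝ) < k := by
    have : 0 < k := by omega
    exact_mod_cast this
  have hle1 : min (min (κ / 2) (log goldenRatio / 2)) (c / (K' : ℝ) ^ 4) * k ≤ κ / 2 * k :=
    mul_le_mul_of_nonneg_right ((min_le_left _ _).trans (min_le_left _ _)) hkR.le
  have hle2 : min (min (κ / 2) (log goldenRatio / 2)) (c / (K' : ℝ) ^ 4) * k ≤
      log goldenRatio / 2 * k :=
    mul_le_mul_of_nonneg_right ((min_le_left _ _).trans (min_le_right _ _)) hkR.le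
  have hle3 : min (min (κ / 2) (log goldenRatio / 2)) (c / (K' : ℝ) ^ 4) * k ≤
      c / (K' : ℝ) ^ 4 * k :=
    mul_le_mul_of_nonneg_right (min_le_right _ _) hkR.le
  rcases Nat.lt_or_ge k K' with hsmall | hbig
  · right
    have h1 := hsmt g u e hk he hirr hM
    rw [← hkdef, ← hf] at h1
    refine hle3.trans (le_trans ?_ h1)
    have h2 : (k : ℝ) ≤ K' := by exact_mod_cast hsmall.le
    rw [div_mul_eq_mul_div, div_le_div_iff₀ (by positivity) (by positivity)]
    have h3 : (k : ℝ) ^ 4 ≤ (K' : ℝ) ^ 4 := pow_le_pow_left₀ hkR.le h2 4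
    calc c * k * (k : ℝ) ^ 3 = c * (k : ℝ) ^ 4 := by ring
      _ ≤ c * (K' : ℝ) ^ 4 := mul_le_mul_of_nonneg_left h3 hc.le
  have hd : (X ^ e : ℤ[X]).natDegree < u.natDegree := by rwa [Xe_natDegree]
  have hgirr : Irreducible g := irr_of_hcomp hd (by omega) hirr
  have hg0 : g ≠ 0 := hgirr.ne_zero
  have hrat := no_rat_root hgirr hk
  have hlf' := hlf
  rw [hf, hcomp_leadingCoeff hd, abs_mul, abs_pow] at hlf'
  have hlg : |g.leadingCoeff| = 1 :=
    Int.eq_one_of_dvd_one (abs_nonneg _) (Dvd.intro _ hlf')
  have hlu : |u.leadingCoeff| = 1 := by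
    rw [hlg, one_mul] at hlf'
    exact (pow_eq_one_iff_of_nonneg (abs_nonneg _) (by omega)).mp hlf'
  rcases Nat.eq_zero_or_pos e with he0 | he0
  · -- polynomial compositions
    subst he0
    have h1 : f = g.comp u := by
      rw [hf, pow_zero, hcomp_one]
    have h2 : f.map (Int.castRingHom ℚ) =
        (g.map (Int.castRingHom ℚ)).comp (u.map (Int.castRingHom ℚ)) := by
      rw [h1, Polynomial.map_comp]
    have hinjQ : Function.Injective (Int.castRingHom ℚ) := (Int.castRingHom ℚ).injective_int
    rcases irr_dec hirr h2 (by rw [natDegree_map_eq_of_injective hinjQ]; exact hk) with h3 | h3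
    · left
      rw [natDegree_map_eq_of_injective hinjQ] at h3
      rw [Nat.sub_zero, Nat.zero_max]
      exact h3
    · right
      rw [natDegree_map_eq_of_injective hinjQ] at h3
      exact hle2.trans (log_of_gold h3)
  have hu00 : u.coeff 0 ≠ 0 := coeff_zero_ne hk he he0.ne' hirr
  have hu0 : u ≠ 0 := by
    rintro rfl
    simp at hu00
  rcases Nat.lt_trichotomy (2 * e) u.natDegree with h2e | h2e | h2e
  · right
    exact hle2.trans (log_of_gold (laurent_dec hrat he0 hu00 h2e.le (fun h => absurd h h2e.ne)))
  · -- the middle case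
    by_cases hs : ∀ ε c : ℤ, ε ^ 2 = 1 → u.reverse ≠ C ε * u + C c * X ^ e
    · right
      exact hle2.trans (log_of_gold (laurent_dec hrat he0 hu00 h2e.le (fun _ => hs)))
    push Not at hs
    obtain ⟨ε, a, hε, hrev⟩ := hs
    have hco : ∀ i, i ≤ 2 * e → u.coeff (2 * e - i) = ε * u.coeff i + (if i = e then a else 0) := by
      intro i hi
      have h1 := congrArg (fun Q : ℤ[X] => Q.coeff i) hrev
      simp only [coeff_reverse, coeff_add, coeff_C_mul, coeff_X_pow, ← h2e] at h1
      rw [revAt_le hi] at h1
      rw [h1]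
      split_ifs <;> simp
    have hmax : max e (u.natDegree - e) = e := by
      rw [← h2e]
      have : 2 * e - e = e := by omega
      rw [this, max_self]
    have hu01 : |u.coeff 0| = 1 := by
      have h1 := hco 0 (by omega)
      rw [Nat.sub_zero, if_neg (by omega), add_zero] at h1
      have h2 : u.coeff (2 * e) = u.leadingCoeff := by rw [leadingCoeff, ← h2e]
      rw [h2] at h1
      have h3 := congrArg abs h1
      rw [hlu, abs_mul] at h3
      exact Int.eq_one_of_dvd_one (abs_nonneg _) (Dvd.intro_left _ h3.symm)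
    by_cases hspec : ∀ j, 0 < j → j < e → u.coeff j = 0
    · left
      rw [hmax]
      apply expand_case he0 h2e.symm
      intro j hj0 hje
      refine ⟨hspec j hj0 hje, ?_⟩
      rw [hco j (by omega), hspec j hj0 hje, if_neg (by omega)]
      ring
    push Not at hspec
    have hns : ∃ j, 0 < j ∧ j < e ∧ u.coeff j ≠ 0 := hspec
    right
    have hε' : ε = 1 ∨ ε = -1 := by
      have h1 : (ε - 1) * (ε + 1) = 0 := by linear_combination hε
      rcases mul_eq_zero.mp h1 with h2 | h2
      · exact Or.inl (by omega)
      · exact Or.inr (by omega)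
    rcases hε' with h1 | h1
    · -- symmetric
      have ha : a = 0 := by
        have h2 := hco e (by omega)
        rw [if_pos rfl, h1] at h2
        have h3 : 2 * e - e = e := by omega
        rw [h3] at h2
        omega
      have h2 := sym_case hS he0 h2e.symm hu01 hlg (fun i hi => by
        rw [hco i (by omega), h1, ha]
        simp) hns (by omega) (by omega) hirr
      refine le_trans hle1 (le_trans ?_ h2)
      have : 0 ≤ κ * k := by positivity
      linarith
    · -- antisymmetric
      have ha : a = 2 * u.coeff e := by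
        have h2 := hco e (by omega)
        rw [if_pos rfl, h1] at h2
        have h3 : 2 * e - e = e := by omega
        rw [h3] at h2
        omega
      set b := u.coeff e with hb
      set u' : ℤ[X] := u - C b * X ^ e with hu'
      set g' : ℤ[X] := g.comp (X + C b) with hg'
      have hsh : hcomp g' u' (X ^ e) = f := shift g u e b
      have hg'd : g'.natDegree = g.natDegree := by
        rw [hg', natDegree_comp, natDegree_X_add_C, mul_one]
      have hg'l : |g'.leadingCoeff| = 1 := by
        rw [hg', leadingCoeff_comp (by rw [natDegree_X_add_C]; norm_num), leadingCoeff_X_add_C, one_pow,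
          mul_one]
        exact hlg
      have hu'c : ∀ i, u'.coeff i = if i = e then 0 else u.coeff i := by
        intro i
        rw [hu', coeff_sub, coeff_C_mul, coeff_X_pow]
        split_ifs with h2
        · rw [h2, hb]
          ring
        · ring
      have hu'd : u'.natDegree = 2 * e := by
        apply natDegree_eq_of_le_of_coeff_ne_zero
        · rw [natDegree_le_iff_coeff_eq_zero]
          intro i hi
          rw [hu'c, if_neg (by omega)]
          exact coeff_eq_zero_of_natDegree_lt (by omega)
        · rw [hu'c, if_neg (by omega), h2e]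
          exact leadingCoeff_ne_zero.mpr hu0
      have hu'0 : |u'.coeff 0| = 1 := by
        rw [hu'c, if_neg (by omega)]
        exact hu01
      have hanti : u'.reverse = -u' := by
        ext i
        rw [coeff_reverse, hu'd, coeff_neg]
        rcases Nat.lt_or_ge (2 * e) i with h2 | h2
        · rw [revAt_eq_self_of_lt h2, coeff_eq_zero_of_natDegree_lt (by omega), neg_zero]
        · rw [revAt_le h2, hu'c, hu'c, hco i h2, h1]
          by_cases h3 : i = e
          · rw [if_pos (by omega : 2 * e - i = e), if_pos h3, neg_zero]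
          · rw [if_neg (by omega : ¬ 2 * e - i = e), if_neg h3, if_neg h3]
            ring
      obtain ⟨j, hj0, hje, hj⟩ := hns
      have h2 := antisym_case hS he0 hu'd hu'0 hg'l hanti
        ⟨j, hj0, hje, by rw [hu'c, if_neg (by omega)]; exact hj⟩ (by omega)
        (by rw [hsh]; exact hirr)
      rw [hsh, hg'd] at h2
      exact hle1.trans h2
  · -- the reversed composition
    right
    have h1 := rev_hcomp (u := u) he hg0
    have hrd : u.reverse.natDegree = u.natDegree := by
      rw [reverse_natDegree, natTrailingDegree_eq_zero_of_constantCoeff_ne_zero (by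
        rw [constantCoeff_apply]
        exact hu00), Nat.sub_zero]
    have hr0 : u.reverse.coeff 0 ≠ 0 := by
      rw [coeff_zero_reverse]
      exact leadingCoeff_ne_zero.mpr hu0
    have h2 := laurent_dec (g := g) (u := u.reverse) (e := u.natDegree - e) hrat (by omega) hr0
      (by omega) (fun h => by omega)
    rw [← h1, map_reverse', measure_reverse] at h2
    exact hle2.trans (log_of_gold h2)

end Pool.Agent.Zk21.Un
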