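import Mathlib
import Pool.Agent.Zk21.UnN

/-!
# Decomposable polynomials: growth in the outer degree and in the height of the inner function
-/

set_option autoImplicit false

open Polynomial Metric Real

namespace Pool.Agent.Zk21.Ch

open Pool.Agent.R328 Pool.Agent.Zk21.Smt Pool.Agent.Zk21.Dec Pool.Agent.Zk21.Un

lemma WW_C_mul (e : ℕ) (t : ℂ) (P : ℂ[X]) : WW e (C t * P) = C t * WW e P := by
  unfold WW
  rw [derivative_C_mul]
  ring

/-- two members of the pencil, at an arbitrary distance -/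
lemma mp_Pb_near {u : ℤ[X]} {e : ℕ} (he : e < u.natDegree) (h0 : e = 0 ∨ u.coeff 0 ≠ 0) {β γ : ℂ}
    (hne : β ≠ γ) :
    mp (Pb u e β) ≤ log (Pb u e γ).mahlerMeasure + log (Pb u e β).mahlerMeasure +
      2 * log⁺ (‖β - γ‖⁻¹) + 18 * log 2 := by
  have hpl : 0 ≤ log⁺ (‖β - γ‖⁻¹) := posLog_nonneg
  rcases le_or_gt (1 / 2) ‖β - γ‖ with h | h
  · have := mp_Pb he h0 h
    linarith
  have hδ0 : 0 < ‖β - γ‖ := norm_pos_iff.mpr (sub_ne_zero.mpr hne)
  have hd : (X ^ e : ℤ[X]).natDegree < u.natDegree := by rwa [Xe_natDegree]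
  obtain ⟨t, ht⟩ : ∃ t : ℝ, t = 1 / (2 * ‖β - γ‖) := ⟨_, rfl⟩
  have ht1 : 1 ≤ t := by
    rw [ht, le_div_iff₀ (by positivity)]
    linarith
  have ht0 : 0 < t := by linarith
  have htC : (t : ℂ) ≠ 0 := by exact_mod_cast ht0.ne'
  have htn : ‖(t : ℂ)‖ = t := by rw [Complex.norm_real, norm_of_nonneg ht0.le]
  have hd' : ∀ β : ℂ, (C (t : ℂ) * Pb u e β).natDegree = u.natDegree := fun β => by
    rw [natDegree_C_mul htC]
    exact (fb_natDegree hd β).1
  have hne0 : ∀ β : ℂ, Pb u e β ≠ 0 := fun β => fb_ne_zero hd β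
  have hM : ∀ P : ℂ[X], P ≠ 0 → log (C (t : ℂ) * P).mahlerMeasure = log t + log P.mahlerMeasure := by
    intro P hP
    rw [mahlerMeasure_mul, mahlerMeasure_const, htn, log_mul ht0.ne'
      (mahlerMeasure_pos_of_ne_zero hP).ne']
  have h1 := smt (P := C (t : ℂ) * Pb u e γ) (Q := C (t : ℂ) * Pb u e β) (δ := t * (β - γ))
    (e := e) (hd' γ) (hd' β) (by omega) he.le (by
      rw [Pb_sub u e γ β, mul_add, ← mul_assoc, ← C_mul]) (by
      rw [norm_mul, htn, ht]
      apply le_of_eq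
      field_simp) (by
      rw [WW_C_mul, mahlerMeasure_mul, mahlerMeasure_const, htn]
      have h2 := WW_measure he h0 γ
      have h3 : (0:ℝ) ≤ (WW e (Pb u e γ)).mahlerMeasure := mahlerMeasure_nonneg _
      nlinarith)
  rw [hM _ (hne0 γ), hM _ (hne0 β)] at h1
  have h2 : mp (Pb u e β) ≤ mp (C (t : ℂ) * Pb u e β) := by
    unfold mp
    apply circleAverage_mono (posLog_int _) (posLog_int _)
    intro x _
    apply posLog_le_posLog (norm_nonneg _)
    rw [eval_mul, eval_C, norm_mul, htn]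
    exact le_mul_of_one_le_left (norm_nonneg _) ht1
  have h3 : log t ≤ log⁺ (‖β - γ‖⁻¹) := by
    rw [posLog]
    refine le_trans ?_ (le_max_right _ _)
    apply log_le_log ht0
    rw [ht, one_div]
    apply inv_anti₀ hδ0
    linarith
  linarith

/-- the pigeonhole principle for the pencil -/
lemma height_min (B : Finset ℂ) (V T : ℂ → ℝ) {c : ℝ} (hc : 0 < c) (hcard : 2 ≤ B.card)
    (hV : ∀ β ∈ B, 0 ≤ V β)
    (F1 : ∀ β ∈ B, ∀ γ ∈ B, β ≠ γ → T β ≤ V γ + V β + 2 * log⁺ (‖β - γ‖⁻¹) + c)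
    (F2 : ∀ β ∈ B, ∀ γ ∈ B, log⁺ ‖β - γ‖ ≤ T β + T γ + c)
    (F3 : 0 ≤ ∑ β ∈ B, ∑ γ ∈ B.erase β, log ‖β - γ‖) :
    ∃ b ∈ B, T b ≤ 40 * (c + (∑ β ∈ B, V β) / B.card) := by
  classical
  by_contra hcon
  push Not at hcon
  obtain ⟨k, hk⟩ : ∃ k : ℝ, k = B.card := ⟨_, rfl⟩
  obtain ⟨L, hL⟩ : ∃ L : ℝ, L = ∑ β ∈ B, V β := ⟨_, rfl⟩
  rw [← hk, ← hL] at hcon
  have hk2 : 2 ≤ k := by rw [hk]; exact_mod_cast hcard
  have hL0 : 0 ≤ L := by rw [hL]; exact Finset.sum_nonneg hV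
  obtain ⟨τ, hτ⟩ : ∃ τ : ℝ, τ = 40 * (c + L / k) := ⟨_, rfl⟩
  have hτk : τ * k = 40 * (c * k + L) := by
    rw [hτ]
    field_simp
  have hτc : 40 * c ≤ τ := by
    rw [hτ]
    have : 0 ≤ L / k := by positivity
    linarith
  rw [← hτ] at hcon
  have key : ∀ β ∈ B, ∀ γ ∈ B.erase β, log ‖β - γ‖ ≤ 5 / 2 * (V β + V γ) + (3 * c - τ / 8) := by
    intro β hβ γ hγ
    have hγB : γ ∈ B := Finset.mem_of_mem_erase hγ
    have hne : β ≠ γ := (Finset.ne_of_mem_erase hγ).symm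
    have hδ0 : 0 < ‖β - γ‖ := norm_pos_iff.mpr (sub_ne_zero.mpr hne)
    have hVβ := hV β hβ
    have hVγ := hV γ hγB
    have h1 := F1 β hβ γ hγB hne
    have h2 := F1 γ hγB β hβ hne.symm
    rw [norm_sub_rev] at h2
    have h3 := F2 β hβ γ hγB
    have h4 := hcon β hβ
    have hinv : log (‖β - γ‖⁻¹) = - log ‖β - γ‖ := log_inv _
    rcases le_or_gt (log ‖β - γ‖) 0 with h5 | h5
    · -- near
      have h6 : log⁺ (‖β - γ‖⁻¹) = - log ‖β - γ‖ := by
        rw [posLog, hinv]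
        exact max_eq_right (by linarith)
      rw [h6] at h1
      rcases le_or_gt (τ / 4) (V β + V γ) with h7 | h7
      · linarith
      · linarith
    · have h6 : log⁺ (‖β - γ‖⁻¹) = 0 := by
        rw [posLog, hinv]
        exact max_eq_left (by linarith)
      have h7 : log ‖β - γ‖ ≤ log⁺ ‖β - γ‖ := by
        rw [posLog]
        exact le_max_right _ _
      rw [h6] at h1 h2
      have h8 : τ < V γ + V β + 2 * 0 + c := lt_of_lt_of_le h4 h1
      linarith
  have h1 : ∑ β ∈ B, ∑ γ ∈ B.erase β, log ‖β - γ‖ ≤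
      ∑ β ∈ B, ∑ γ ∈ B.erase β, (5 / 2 * (V β + V γ) + (3 * c - τ / 8)) :=
    Finset.sum_le_sum fun β hβ => Finset.sum_le_sum fun γ hγ => key β hβ γ hγ
  have h2 : ∀ β ∈ B, ∑ γ ∈ B.erase β, (5 / 2 * (V β + V γ) + (3 * c - τ / 8)) =
      5 / 2 * ((k - 1) * V β + (L - V β)) + (k - 1) * (3 * c - τ / 8) := by
    intro β hβ
    have h3 : ((B.erase β).card : ℝ) = k - 1 := by
      rw [Finset.card_erase_of_mem hβ, Nat.cast_sub (by omega), hk]
      simp
    have h4 : ∑ γ ∈ B.erase β, V γ = L - V β := by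
      rw [hL, ← Finset.add_sum_erase B V hβ]
      ring
    rw [Finset.sum_add_distrib, Finset.sum_const, nsmul_eq_mul, h3, ← Finset.mul_sum,
      Finset.sum_add_distrib, Finset.sum_const, nsmul_eq_mul, h3, h4]
  rw [Finset.sum_congr rfl h2, Finset.sum_add_distrib, ← Finset.mul_sum, Finset.sum_add_distrib,
    ← Finset.mul_sum, Finset.sum_sub_distrib, Finset.sum_const, Finset.sum_const, nsmul_eq_mul,
    nsmul_eq_mul, ← hk, ← hL] at h1
  -- `0 ≤ (k - 1) (5 L + k (3 c - τ / 8))`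
  have h3 : 0 ≤ (k - 1) * (5 * L + k * (3 * c - τ / 8)) := by
    refine le_trans (F3.trans h1) (le_of_eq ?_)
    ring
  have h4 : 0 ≤ 5 * L + k * (3 * c - τ / 8) := by
    by_contra hneg
    push Not at hneg
    have := mul_neg_of_pos_of_neg (by linarith : 0 < k - 1) hneg
    linarith
  have h5 : 0 < c * k := by positivity
  nlinarith

lemma mp_tri (u : ℤ[X]) (e : ℕ) (β b : ℂ) :
    mp (Pb u e β) ≤ log 2 + mp (Pb u e b) + log⁺ ‖β - b‖ := by
  have h2 : log 2 + mp (Pb u e b) + log⁺ ‖β - b‖ =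
      circleAverage (((fun _ => log 2) + (fun x => log⁺ ‖(Pb u e b).eval x‖)) +
        (fun _ => log⁺ ‖β - b‖)) 0 1 := by
    rw [circleAverage_add ((circleIntegrable_const _ _ _).add (posLog_int _))
      (circleIntegrable_const _ _ _),
      circleAverage_add (circleIntegrable_const _ _ _) (posLog_int _), circleAverage_const,
      circleAverage_const]
    rfl
  rw [h2]
  unfold mp
  apply circleAverage_mono (posLog_int _)
    (((circleIntegrable_const _ _ _).add (posLog_int _)).add (circleIntegrable_const _ _ _))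
  intro x hx
  rw [abs_one, mem_sphere_zero_iff_norm] at hx
  simp only [Pi.add_apply]
  have h3 : (Pb u e β).eval x = (Pb u e b).eval x + (b - β) * x ^ e := by
    rw [Pb_sub u e β b, eval_add, eval_mul, eval_C, eval_pow, eval_X]
  have h4 : ‖(b - β) * x ^ e‖ = ‖β - b‖ := by
    rw [norm_mul, norm_pow, hx, one_pow, mul_one, norm_sub_rev]
  rw [h3]
  have h5 := posLog_norm_add_le ((Pb u e b).eval x) ((b - β) * x ^ e)
  rw [h4] at h5
  linarith

lemma log_le_mp {P : ℂ[X]} : log P.mahlerMeasure ≤ mp P := by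
  rw [← log_mahler]
  unfold mp
  refine circleAverage_mono (log_int _) (posLog_int _) fun x _ => ?_
  rw [posLog]
  exact le_max_right _ _

/-- the sum of the heights -/
lemma height_sum (B : Finset ℂ) (V T : ℂ → ℝ) {c : ℝ} (hc : 0 < c) (hcard : 2 ≤ B.card)
    (hV : ∀ β ∈ B, 0 ≤ V β) (hVT : ∀ β ∈ B, V β ≤ T β)
    (F1 : ∀ β ∈ B, ∀ γ ∈ B, β ≠ γ → T β ≤ V γ + V β + 2 * log⁺ (‖β - γ‖⁻¹) + c)
    (F2 : ∀ β ∈ B, ∀ γ ∈ B, log⁺ ‖β - γ‖ ≤ T β + T γ + c)
    (F4 : ∀ β ∈ B, ∀ γ ∈ B, T β ≤ T γ + log⁺ ‖β - γ‖ + c)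
    (F3 : 0 ≤ ∑ β ∈ B, ∑ γ ∈ B.erase β, log ‖β - γ‖) :
    ∑ β ∈ B, T β ≤ 124 * (c * B.card + ∑ β ∈ B, V β) := by
  obtain ⟨b, hb, hTb⟩ := height_min B V T hc hcard hV F1 F2 F3
  have hk0 : (0:ℝ) < B.card := by
    have : 0 < B.card := by omega
    exact_mod_cast this
  have hL0 : 0 ≤ ∑ β ∈ B, V β := Finset.sum_nonneg hV
  have h1 : ∀ β ∈ B, T β ≤ 3 * T b + 2 * V β + 4 * c := by
    intro β hβ
    have hVβ := hV β hβ
    have hVb := hV b hb
    have hVTb := hVT b hb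
    have h2 := F4 β hβ b hb
    by_cases hne : β = b
    · subst hne
      linarith
    rcases le_or_gt (log ‖β - b‖) 0 with h5 | h5
    · have h6 : log⁺ ‖β - b‖ = 0 := by
        rw [posLog]
        exact max_eq_left h5
      rw [h6] at h2
      linarith
    · have h6 : log⁺ (‖β - b‖⁻¹) = 0 := by
        rw [posLog, log_inv]
        exact max_eq_left (by linarith)
      have h7 := F1 β hβ b hb hne
      rw [h6] at h7
      linarith
  have h2 := Finset.sum_le_sum h1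
  rw [Finset.sum_add_distrib, Finset.sum_add_distrib, Finset.sum_const, Finset.sum_const,
    nsmul_eq_mul, nsmul_eq_mul, ← Finset.mul_sum] at h2
  have h3 : (B.card : ℝ) * T b ≤ 40 * (c * B.card + ∑ β ∈ B, V β) := by
    refine (mul_le_mul_of_nonneg_left hTb hk0.le).trans (le_of_eq ?_)
    field_simp
  have h4 : 0 ≤ c * (B.card : ℝ) := by positivity
  linarith

/-- **growth in the outer degree and in the heights** -/
theorem main_growth : ∃ κ : ℝ, 0 < κ ∧ ∀ (g u : ℤ[X]) (e : ℕ), 2 ≤ g.natDegree → e < u.natDegree →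
    Irreducible (hcomp g u (X ^ e)) →
    1 < ((hcomp g u (X ^ e)).map (Int.castRingHom ℂ)).mahlerMeasure →
    |(hcomp g u (X ^ e)).leadingCoeff| = 1 →
    (∃ F : ℤ[X], hcomp g u (X ^ e) = expand ℤ (max e (u.natDegree - e)) F) ∨
    (κ * (g.natDegree + ((g.map (Int.castRingHom ℂ)).roots.map fun b => mp (Pb u e b)).sum) ≤
      log ((hcomp g u (X ^ e)).map (Int.castRingHom ℂ)).mahlerMeasure ∧
    log ((hcomp g u (X ^ e)).map (Int.castRingHom ℂ)).mahlerMeasure ≤
      ((g.map (Int.castRingHom ℂ)).roots.map fun b => mp (Pb u e b)).sum) := by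
  classical
  obtain ⟨κ, hκ, h⟩ := main_monic
  have hlog2 : 0 < log 2 := log_pos (by norm_num)
  obtain ⟨c, hc⟩ : ∃ c : ℝ, c = 18 * log 2 := ⟨_, rfl⟩
  have hc0 : 0 < c := by rw [hc]; positivity
  refine ⟨1 / ((1 + 124 * c) / κ + 124), by positivity, ?_⟩
  intro g u e hk he hirr hM hlf
  rcases h g u e hk he hirr hM hlf with h1 | h1
  · exact Or.inl h1
  right
  set f := hcomp g u (X ^ e) with hf
  have hd : (X ^ e : ℤ[X]).natDegree < u.natDegree := by rwa [Xe_natDegree]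
  have hgirr : Irreducible g := irr_of_hcomp hd (by omega) hirr
  have hg0 : g ≠ 0 := hgirr.ne_zero
  have h0 : e = 0 ∨ u.coeff 0 ≠ 0 := by
    rcases Nat.eq_zero_or_pos e with h2 | h2
    · exact Or.inl h2
    · exact Or.inr (coeff_zero_ne hk he h2.ne' hirr)
  have hlf' := hlf
  rw [hf, hcomp_leadingCoeff hd, abs_mul, abs_pow] at hlf'
  have hlg : |g.leadingCoeff| = 1 :=
    Int.eq_one_of_dvd_one (abs_nonneg _) (Dvd.intro _ hlf')
  obtain ⟨L, hL⟩ : ∃ L, L = log (f.map (Int.castRingHom ℂ)).mahlerMeasure := ⟨_, rfl⟩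
  have hsum := measure_hcomp he hgirr hlg (by omega)
  rw [← hf, ← hL] at hsum
  have hnd : (g.map (Int.castRingHom ℂ)).roots.Nodup := nodup_of_irr hgirr (by omega)
  have hms : ((g.map (Int.castRingHom ℂ)).roots.map fun b => mp (Pb u e b)).sum =
      ∑ b ∈ (g.map (Int.castRingHom ℂ)).roots.toFinset, mp (Pb u e b) := by
    rw [Finset.sum, Multiset.toFinset_val, hnd.dedup]
  rw [hms]
  set B := (g.map (Int.castRingHom ℂ)).roots.toFinset with hB
  have hcardB : B.card = g.natDegree := card_toFinset_roots hgirr (by omega)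
  have hkR : (0:ℝ) < g.natDegree := by
    have : 0 < g.natDegree := by omega
    exact_mod_cast this
  have hTb := height_sum B (fun β => log (Pb u e β).mahlerMeasure) (fun β => mp (Pb u e β))
    hc0 (by rw [hcardB]; exact hk) (fun β _ => log_nonneg (Pb_measure he β))
    (fun β _ => log_le_mp)
    (fun β _ γ _ hne => by
      have := mp_Pb_near he h0 hne
      rw [hc]
      exact this) (fun β _ γ _ => by
      have h2 := dist_le (u := u) (e := e) β γ
      have h3 : log 2 ≤ c := by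
        rw [hc]
        linarith
      linarith) (fun β _ γ _ => by
      have h2 := mp_tri u e β γ
      have h3 : log 2 ≤ c := by
        rw [hc]
        linarith
      linarith) (disc_nonneg hgirr hlg (by omega))
  have hup : ∑ b ∈ B, log (Pb u e b).mahlerMeasure ≤ ∑ b ∈ B, mp (Pb u e b) :=
    Finset.sum_le_sum fun b _ => log_le_mp
  rw [← hsum] at hup
  rw [← hsum, hcardB] at hTb
  rw [← hL] at h1 ⊢
  refine ⟨?_, hup⟩
  have h3 : (g.natDegree : ℝ) ≤ L / κ := by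
    rw [le_div_iff₀ hκ]
    linarith
  have h4 : (g.natDegree : ℝ) + ∑ b ∈ B, mp (Pb u e b) ≤ ((1 + 124 * c) / κ + 124) * L := by
    have h5 : (1 + 124 * c) * (g.natDegree : ℝ) ≤ (1 + 124 * c) * (L / κ) :=
      mul_le_mul_of_nonneg_left h3 (by positivity)
    have h6 : (1 + 124 * c) * (L / κ) = (1 + 124 * c) / κ * L := by ring
    linarith
  rw [one_div, inv_mul_le_iff₀ (by positivity)]
  exact h4

end Pool.Agent.Zk21.Ch
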