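import Mathlib
import Pool.Agent.Zk21.UnF

/-!
# Differential operators which remove sparse multiples of a polynomial
-/

set_option autoImplicit false

open Polynomial Metric Real

namespace Pool.Agent.Zk21.Pt

open Pool.Agent.R328 Pool.Agent.Zk21.Smt Pool.Agent.Zk21.Un

/-- one step: `B X w' - (k X B' + e B) w` -/
noncomputable def stp (B : ℂ[X]) (k e : ℕ) (w : ℂ[X]) : ℂ[X] :=
  B * (X * derivative w) - (C (k : ℂ) * (X * derivative B) + C (e : ℂ) * B) * w

/-- several steps -/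
noncomputable def itr (B : ℂ[X]) : List ℕ → ℕ → ℂ[X] → ℂ[X]
  | [], _, w => w
  | e :: l, k, w => itr B l (k + 1) (stp B k e w)

/-- several steps for `B = 1` -/
noncomputable def thts : List ℕ → ℂ[X] → ℂ[X]
  | [], r => r
  | e :: l, r => thts l (WW e r)

lemma stp_sub (B : ℂ[X]) (k e : ℕ) (w v : ℂ[X]) :
    stp B k e (w - v) = stp B k e w - stp B k e v := by
  unfold stp
  rw [derivative_sub]
  ring

lemma itr_sub (B : ℂ[X]) (l : List ℕ) : ∀ (k : ℕ) (w v : ℂ[X]),
    itr B l k (w - v) = itr B l k w - itr B l k v := by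
  induction l with
  | nil => intro k w v; rfl
  | cons e l ih =>
    intro k w v
    show itr B l (k + 1) (stp B k e (w - v)) = _
    rw [stp_sub, ih]
    rfl

lemma stp_pow (B : ℂ[X]) (k e : ℕ) (r : ℂ[X]) :
    stp B k e (B ^ k * r) = B ^ (k + 1) * WW e r := by
  unfold stp WW
  rcases Nat.eq_zero_or_pos k with h | h
  · subst h
    simp
    ring
  · obtain ⟨j, rfl⟩ : ∃ j, k = j + 1 := ⟨k - 1, by omega⟩
    rw [derivative_mul, derivative_pow, Nat.add_sub_cancel]
    ring

lemma itr_pow (B : ℂ[X]) (l : List ℕ) : ∀ (k : ℕ) (r : ℂ[X]),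
    itr B l k (B ^ k * r) = B ^ (k + l.length) * thts l r := by
  induction l with
  | nil => intro k r; rfl
  | cons e l ih =>
    intro k r
    show itr B l (k + 1) (stp B k e (B ^ k * r)) = _
    rw [stp_pow, ih, List.length_cons]
    show _ = B ^ (k + (l.length + 1)) * thts l (WW e r)
    congr 2
    omega

lemma coeff_X_deriv (r : ℂ[X]) (j : ℕ) : (X * derivative r).coeff j = j * r.coeff j := by
  rcases j with _ | j
  · simp
  · rw [coeff_X_mul, coeff_derivative]
    push_cast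
    ring

lemma WW_coeff (e : ℕ) (r : ℂ[X]) (j : ℕ) : (WW e r).coeff j = ((j : ℂ) - e) * r.coeff j := by
  unfold WW
  rw [coeff_sub, coeff_X_deriv, coeff_C_mul]
  ring

lemma thts_coeff (l : List ℕ) : ∀ (r : ℂ[X]) (j : ℕ),
    (thts l r).coeff j = (l.map (fun e : ℕ => (j : ℂ) - e)).prod * r.coeff j := by
  induction l with
  | nil => intro r j; simp [thts]
  | cons e l ih =>
    intro r j
    show (thts l (WW e r)).coeff j = _
    rw [ih, WW_coeff, List.map_cons, List.prod_cons]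
    ring

lemma thts_zero {l : List ℕ} {r : ℂ[X]} (h : ∀ j ∈ r.support, j ∈ l) : thts l r = 0 := by
  ext j
  rw [thts_coeff, coeff_zero]
  by_cases hj : r.coeff j = 0
  · rw [hj, mul_zero]
  · have h1 := h j (mem_support_iff.mpr hj)
    have h2 : (l.map (fun e : ℕ => (j : ℂ) - e)).prod = 0 := by
      apply List.prod_eq_zero
      rw [List.mem_map]
      exact ⟨j, h1, by simp⟩
    rw [h2, zero_mul]

/-- the leading coefficient of one step -/
lemma stp_lead {B w : ℂ[X]} (hB : B ≠ 0) (hw : w ≠ 0) {k e : ℕ}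
    (h : k * B.natDegree + e < w.natDegree) :
    (stp B k e w).natDegree = w.natDegree + B.natDegree ∧
    ‖(stp B k e w).leadingCoeff‖ = ‖w.leadingCoeff‖ * ‖B.leadingCoeff‖ *
      ((w.natDegree : ℝ) - k * B.natDegree - e) := by
  set N := w.natDegree with hN
  set b := B.natDegree with hb
  have h1 : (X * derivative w).natDegree ≤ N := by
    rw [natDegree_le_iff_coeff_eq_zero]
    intro i hi
    rw [coeff_X_deriv, coeff_eq_zero_of_natDegree_lt (by omega), mul_zero]
  have h2 : (C (k : ℂ) * (X * derivative B) + C (e : ℂ) * B).natDegree ≤ b := by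
    rw [natDegree_le_iff_coeff_eq_zero]
    intro i hi
    rw [coeff_add, coeff_C_mul, coeff_C_mul, coeff_X_deriv,
      coeff_eq_zero_of_natDegree_lt (by omega : B.natDegree < i)]
    simp
  have h3 : (stp B k e w).natDegree ≤ N + b := by
    unfold stp
    refine (natDegree_sub_le _ _).trans (max_le ?_ ?_)
    · refine natDegree_mul_le.trans ?_
      omega
    · refine natDegree_mul_le.trans ?_
      omega
  have h4 : (stp B k e w).coeff (b + N) = B.coeff b * w.coeff N * ((N : ℂ) - k * b - e) := by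
    unfold stp
    rw [coeff_sub, coeff_mul_add_eq_of_natDegree_le le_rfl h1, coeff_mul_add_eq_of_natDegree_le h2 le_rfl,
      coeff_add, coeff_C_mul, coeff_C_mul, coeff_X_deriv, coeff_X_deriv]
    ring
  have h5 : ((N : ℂ) - k * b - e) = (((N : ℝ) - k * b - e : ℝ) : ℂ) := by push_cast; ring
  have h6 : (0:ℝ) < (N : ℝ) - k * b - e := by
    have : ((k * b + e : ℕ) : ℝ) < N := by exact_mod_cast h
    push_cast at this
    linarith
  have h7 : (stp B k e w).coeff (b + N) ≠ 0 := by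
    rw [h4, h5]
    apply mul_ne_zero (mul_ne_zero _ _)
    · exact_mod_cast h6.ne'
    · exact leadingCoeff_ne_zero.mpr hB
    · exact leadingCoeff_ne_zero.mpr hw
  have h8 : (stp B k e w).natDegree = N + b := by
    apply le_antisymm h3
    have := le_natDegree_of_ne_zero h7
    omega
  refine ⟨h8, ?_⟩
  rw [leadingCoeff, h8, add_comm N b, h4, norm_mul, norm_mul, h5, Complex.norm_real, Real.norm_eq_abs,
    abs_of_pos h6]
  have e1 : B.coeff b = B.leadingCoeff := rfl
  have e2 : w.coeff N = w.leadingCoeff := rfl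
  rw [e1, e2]
  ring

/-- the leading coefficient of several steps -/
lemma itr_lead {B : ℂ[X]} (hB : B ≠ 0) {d : ℕ} (l : List ℕ) : ∀ (k : ℕ) (w : ℂ[X]), w ≠ 0 →
    w.natDegree = d + k * B.natDegree → (∀ e ∈ l, B.natDegree + e < d) →
    itr B l (k + 1) w ≠ 0 ∧
    log ‖(itr B l (k + 1) w).leadingCoeff‖ = log ‖w.leadingCoeff‖ + l.length * log ‖B.leadingCoeff‖ +
      (l.map (fun e : ℕ => log ((d : ℝ) - B.natDegree - e))).sum := by
  induction l with
  | nil =>
    intro k w hw _ _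
    refine ⟨hw, ?_⟩
    show log ‖w.leadingCoeff‖ = _
    simp
  | cons e l ih =>
    intro k w hw hd hl
    have h1 : (k + 1) * B.natDegree + e < w.natDegree := by
      have := hl e List.mem_cons_self
      rw [hd]
      nlinarith
    obtain ⟨h2, h3⟩ := stp_lead hB hw h1
    have h4 : (0:ℝ) < (w.natDegree : ℝ) - (k + 1 : ℕ) * B.natDegree - e := by
      have : (((k + 1) * B.natDegree + e : ℕ) : ℝ) < w.natDegree := by exact_mod_cast h1
      push_cast at this ⊢
      linarith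
    have hBl : (0:ℝ) < ‖B.leadingCoeff‖ := norm_pos_iff.mpr (leadingCoeff_ne_zero.mpr hB)
    have hwl : (0:ℝ) < ‖w.leadingCoeff‖ := norm_pos_iff.mpr (leadingCoeff_ne_zero.mpr hw)
    have h5 : stp B (k + 1) e w ≠ 0 := by
      intro h6
      rw [h6, leadingCoeff_zero, norm_zero] at h3
      have : 0 < ‖w.leadingCoeff‖ * ‖B.leadingCoeff‖ *
        ((w.natDegree : ℝ) - (k + 1 : ℕ) * B.natDegree - e) := by positivity
      linarith
    obtain ⟨h6, h7⟩ := ih (k + 1) (stp B (k + 1) e w) h5 (by rw [h2, hd]; ring)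
      (fun e' he' => hl e' (List.mem_cons_of_mem e he'))
    refine ⟨h6, ?_⟩
    show log ‖(itr B l (k + 1 + 1) (stp B (k + 1) e w)).leadingCoeff‖ = _
    rw [h7, h3, log_mul (by positivity) h4.ne', log_mul hwl.ne' hBl.ne', List.map_cons, List.sum_cons,
      List.length_cons]
    have h8 : (w.natDegree : ℝ) - (k + 1 : ℕ) * B.natDegree - e = (d : ℝ) - B.natDegree - e := by
      rw [hd]
      push_cast
      ring
    rw [h8]
    push_cast
    ring

/-- the large values of a logarithmic derivative -/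
noncomputable def FW (P : ℂ[X]) (c : ℝ) (x : ℂ) : ℝ :=
  log⁺ ‖(WW 0 P).eval x / (C (c : ℂ) * P).eval x‖

lemma FW_int (P : ℂ[X]) (c : ℝ) : CircleIntegrable (FW P c) 0 1 := posLog_ratio_int _ _

lemma FW_nonneg (P : ℂ[X]) (c : ℝ) (x : ℂ) : 0 ≤ FW P c x := posLog_nonneg

lemma FW_avg {P : ℂ[X]} {c : ℝ} (hc0 : 0 < c) (hc : 4 * P.natDegree ≤ c) :
    circleAverage (FW P c) 0 1 ≤ 8 * P.natDegree / c := by
  rcases Nat.eq_zero_or_pos P.natDegree with h | h
  · have h1 : FW P c = fun _ => 0 := by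
      funext x
      unfold FW WW
      rw [eq_C_of_natDegree_eq_zero h]
      simp
    rw [h1, circleAverage_const, h]
    simp
  · have hdR : (0:ℝ) < P.natDegree := by exact_mod_cast h
    have hΛ : 4 ≤ c / P.natDegree := by
      rw [le_div_iff₀ hdR]
      exact hc
    have h1 := avg_WW_small (P := P) (d := P.natDegree) (e := 0) rfl h (Nat.zero_le _) hΛ
    have h2 : c / P.natDegree * P.natDegree = c := by field_simp
    rw [h2] at h1
    refine h1.trans (le_of_eq ?_)
    field_simp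

lemma norm_ratio (P Q : ℂ[X]) {c : ℝ} (hc : 0 < c) (x : ℂ) :
    ‖P.eval x / (C (c : ℂ) * Q).eval x‖ = ‖P.eval x / Q.eval x‖ / c := by
  rw [eval_mul, eval_C, norm_div, norm_mul, Complex.norm_real, Real.norm_eq_abs,
    abs_of_pos hc, norm_div, div_div, mul_comm c]

/-- the pointwise bound for one step -/
lemma stp_log {B w : ℂ[X]} {k e : ℕ} (hk : 0 < k) {D Λ : ℝ} (hD : 0 < D) (hΛ : 16 ≤ Λ)
    (he : (e : ℝ) ≤ D) {x : ℂ} (hw : w.eval x ≠ 0) (hB : B.eval x ≠ 0)
    (hs : (stp B k e w).eval x ≠ 0) :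
    log ‖(stp B k e w).eval x‖ ≤ log ‖w.eval x‖ + (log ‖B.eval x‖ + log (Λ * D)) +
      (FW w (Λ * D / 4) x + FW B (Λ * D / (4 * k)) x) := by
  have hΛ0 : 0 < Λ := by linarith
  have hkR : (0:ℝ) < k := by exact_mod_cast hk
  have hΛD : 0 < Λ * D := by positivity
  have hw' : 0 < ‖w.eval x‖ := norm_pos_iff.mpr hw
  have hB' : 0 < ‖B.eval x‖ := norm_pos_iff.mpr hB
  have hs' : 0 < ‖(stp B k e w).eval x‖ := norm_pos_iff.mpr hs
  obtain ⟨A, hA⟩ : ∃ A, A = ‖(WW 0 w).eval x / w.eval x‖ := ⟨_, rfl⟩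
  obtain ⟨A', hA'⟩ : ∃ A', A' = ‖(WW 0 B).eval x / B.eval x‖ := ⟨_, rfl⟩
  have hA0 : 0 ≤ A := by rw [hA]; exact norm_nonneg _
  have hA'0 : 0 ≤ A' := by rw [hA']; exact norm_nonneg _
  have h1 : (stp B k e w).eval x = w.eval x * B.eval x *
      ((WW 0 w).eval x / w.eval x - k * ((WW 0 B).eval x / B.eval x) - e) := by
    unfold stp WW
    simp only [eval_sub, eval_mul, eval_X, eval_add, eval_C, Nat.cast_zero, C_0, zero_mul, sub_zero]
    field_simp
    ring
  obtain ⟨q, hq⟩ : ∃ q, q = (WW 0 w).eval x / w.eval x - k * ((WW 0 B).eval x / B.eval x) - e :=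
    ⟨_, rfl⟩
  rw [← hq] at h1
  have hq0 : q ≠ 0 := by
    intro h
    rw [h, mul_zero] at h1
    exact hs h1
  have h2 : ‖q‖ ≤ A + k * A' + e := by
    rw [hq]
    have g1 := norm_sub_le ((WW 0 w).eval x / w.eval x - k * ((WW 0 B).eval x / B.eval x)) (e : ℂ)
    have g2 := norm_sub_le ((WW 0 w).eval x / w.eval x) (k * ((WW 0 B).eval x / B.eval x))
    rw [norm_mul, Complex.norm_natCast, ← hA, ← hA'] at g2
    rw [Complex.norm_natCast] at g1
    linarith
  rw [h1, norm_mul, norm_mul, log_mul (by positivity) (norm_ne_zero_iff.mpr hq0),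
    log_mul hw'.ne' hB'.ne']
  have h3 : log ‖q‖ ≤ log (Λ * D) + log⁺ (‖q‖ / (Λ * D)) := by
    have g1 : log (‖q‖ / (Λ * D)) ≤ log⁺ (‖q‖ / (Λ * D)) := le_max_right _ _
    rw [log_div (norm_ne_zero_iff.mpr hq0) hΛD.ne'] at g1
    linarith
  have h4 : ‖q‖ / (Λ * D) ≤ A / (Λ * D) + k * A' / (Λ * D) + 1 / 2 := by
    have g1 : (e : ℝ) / (Λ * D) ≤ 1 / 2 := by
      rw [div_le_iff₀ hΛD]
      nlinarith
    have g2 := div_le_div_of_nonneg_right h2 hΛD.le
    rw [add_div, add_div] at g2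
    linarith
  have h5 : log⁺ (‖q‖ / (Λ * D)) ≤ log⁺ (4 * (A / (Λ * D))) + log⁺ (4 * (k * A' / (Λ * D))) :=
    (posLog_le_posLog (by positivity) h4).trans (posLog_half (by positivity) (by positivity))
  have h6 : FW w (Λ * D / 4) x = log⁺ (4 * (A / (Λ * D))) := by
    unfold FW
    have e1 := norm_ratio (WW 0 w) w (c := Λ * D / 4) (by positivity) x
    rw [e1, ← hA]
    have e2 : A / (Λ * D / 4) = 4 * (A / (Λ * D)) := by
      rw [div_div_eq_mul_div, mul_comm, mul_div_assoc]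
    rw [e2]
  have h7 : FW B (Λ * D / (4 * k)) x = log⁺ (4 * (k * A' / (Λ * D))) := by
    unfold FW
    have e1 := norm_ratio (WW 0 B) B (c := Λ * D / (4 * k)) (by positivity) x
    rw [e1, ← hA']
    have e2 : A' / (Λ * D / (4 * k)) = 4 * (k * A' / (Λ * D)) := by
      rw [div_div_eq_mul_div]
      ring
    rw [e2]
  rw [h6, h7]
  linarith

/-- the pointwise bound for several steps -/
lemma itr_log {B : ℂ[X]} (hB : B ≠ 0) {d : ℕ} {Λ D : ℝ} (hΛ : 16 ≤ Λ) (hD0 : 0 < D) (M : ℕ)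
    (hD : 2 * ((d : ℝ) + M * B.natDegree) ≤ D) (l : List ℕ) : ∀ (k : ℕ) (w : ℂ[X]), w ≠ 0 →
    w.natDegree = d + k * B.natDegree → (∀ e ∈ l, B.natDegree + e < d) → k + l.length ≤ M →
    ∃ R : ℂ → ℝ, CircleIntegrable R 0 1 ∧ (∀ x, 0 ≤ R x) ∧ circleAverage R 0 1 ≤ l.length * (32 / Λ) ∧
      ∃ Z : Set ℂ, Z.Countable ∧ ∀ x, x ∉ Z →
        log ‖(itr B l (k + 1) w).eval x‖ ≤ log ‖w.eval x‖ +
          l.length * (log ‖B.eval x‖ + log (Λ * D)) + R x := by
  have hΛ0 : 0 < Λ := by linarith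
  induction l with
  | nil =>
    intro k w hw _ _ _
    refine ⟨fun _ => 0, circleIntegrable_const _ _ _, fun _ => le_refl _, ?_, ∅,
      Set.countable_empty, ?_⟩
    · rw [circleAverage_const]
      simp
    · intro x _
      show log ‖w.eval x‖ ≤ _
      simp
  | cons e l ih =>
    intro k w hw hd hl hM
    rw [List.length_cons] at hM
    have he := hl e List.mem_cons_self
    have h1 : (k + 1) * B.natDegree + e < w.natDegree := by
      rw [hd]
      nlinarith
    obtain ⟨h2, -⟩ := stp_lead hB hw h1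
    have h5 : stp B (k + 1) e w ≠ 0 := by
      obtain ⟨h2, h3⟩ := stp_lead hB hw h1
      intro h6
      rw [h6, leadingCoeff_zero, norm_zero] at h3
      have h4 : (0:ℝ) < (w.natDegree : ℝ) - (k + 1 : ℕ) * B.natDegree - e := by
        have : (((k + 1) * B.natDegree + e : ℕ) : ℝ) < w.natDegree := by exact_mod_cast h1
        push_cast at this ⊢
        linarith
      have hBl : (0:ℝ) < ‖B.leadingCoeff‖ := norm_pos_iff.mpr (leadingCoeff_ne_zero.mpr hB)
      have hwl : (0:ℝ) < ‖w.leadingCoeff‖ := norm_pos_iff.mpr (leadingCoeff_ne_zero.mpr hw)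
      have : 0 < ‖w.leadingCoeff‖ * ‖B.leadingCoeff‖ *
        ((w.natDegree : ℝ) - (k + 1 : ℕ) * B.natDegree - e) := by positivity
      linarith
    obtain ⟨R, hR1, hR2, hR3, Z, hZ, hZ2⟩ := ih (k + 1) (stp B (k + 1) e w) h5
      (by rw [h2, hd]; ring) (fun e' he' => hl e' (List.mem_cons_of_mem e he')) (by omega)
    have hΛD : 0 < Λ * D := by positivity
    have hkR : (0:ℝ) < ((k + 1 : ℕ) : ℝ) := by positivity
    have hkM : ((k + 1 : ℕ) : ℝ) ≤ M := by exact_mod_cast (by omega : k + 1 ≤ M)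
    have hbR : (0:ℝ) ≤ (B.natDegree : ℝ) := Nat.cast_nonneg _
    have hkb : ((k + 1 : ℕ) : ℝ) * B.natDegree ≤ M * B.natDegree := by
      exact mul_le_mul_of_nonneg_right hkM hbR
    have hdR : (w.natDegree : ℝ) = d + k * B.natDegree := by rw [hd]; push_cast; ring
    have hw1 : (w.natDegree : ℝ) + ((k + 1 : ℕ) : ℝ) * B.natDegree ≤ D := by
      rw [hdR]
      push_cast at hkb ⊢
      have : (0:ℝ) ≤ d := Nat.cast_nonneg _
      nlinarith
    have heD : (e : ℝ) ≤ D := by
      have : (e : ℝ) ≤ d := by exact_mod_cast (by omega : e ≤ d)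
      have h0 : (0:ℝ) ≤ d := Nat.cast_nonneg _
      have h00 : (0:ℝ) ≤ M * B.natDegree := by positivity
      nlinarith
    have hB1 : 4 * (B.natDegree : ℝ) ≤ Λ * D / (4 * ((k + 1 : ℕ) : ℝ)) := by
      rw [le_div_iff₀ (by positivity)]
      have : ((k + 1 : ℕ) : ℝ) * B.natDegree ≤ D := by
        have : (0:ℝ) ≤ (w.natDegree : ℝ) := Nat.cast_nonneg _
        linarith
      nlinarith
    have hw2 : 4 * (w.natDegree : ℝ) ≤ Λ * D / 4 := by
      rw [le_div_iff₀ (by norm_num)]
      have : (w.natDegree : ℝ) ≤ D := by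
        have : (0:ℝ) ≤ ((k + 1 : ℕ) : ℝ) * B.natDegree := by positivity
        linarith
      nlinarith
    have hw0 : (0:ℝ) ≤ (w.natDegree : ℝ) := Nat.cast_nonneg _
    have g1 := FW_avg (P := w) (by positivity : 0 < Λ * D / 4) hw2
    have g2 := FW_avg (P := B) (by positivity : 0 < Λ * D / (4 * ((k + 1 : ℕ) : ℝ))) hB1
    refine ⟨(FW w (Λ * D / 4) + FW B (Λ * D / (4 * ((k + 1 : ℕ) : ℝ)))) + R,
      ((FW_int _ _).add (FW_int _ _)).add hR1, ?_, ?_,
      Z ∪ {x | w.eval x = 0} ∪ {x | B.eval x = 0} ∪ {x | (stp B (k + 1) e w).eval x = 0}, ?_, ?_⟩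
    · intro x
      simp only [Pi.add_apply]
      have := FW_nonneg w (Λ * D / 4) x
      have := FW_nonneg B (Λ * D / (4 * ((k + 1 : ℕ) : ℝ))) x
      have := hR2 x
      linarith
    · rw [circleAverage_add ((FW_int _ _).add (FW_int _ _)) hR1, circleAverage_add (FW_int _ _) (FW_int _ _)]
      have g3 : 8 * (w.natDegree : ℝ) / (Λ * D / 4) + 8 * (B.natDegree : ℝ) / (Λ * D / (4 * ((k + 1 : ℕ) : ℝ))) =
          32 * (w.natDegree + ((k + 1 : ℕ) : ℝ) * B.natDegree) / (Λ * D) := by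
        field_simp
        ring
      have g4 : 32 * ((w.natDegree : ℝ) + ((k + 1 : ℕ) : ℝ) * B.natDegree) / (Λ * D) ≤ 32 / Λ := by
        rw [div_le_div_iff₀ hΛD hΛ0]
        nlinarith
      rw [List.length_cons]
      push_cast
      push_cast at g1 g2 g3 g4
      linarith
    · exact ((hZ.union (roots_countable hw)).union (roots_countable hB)).union (roots_countable h5)
    · intro x hx
      simp only [Set.mem_union, not_or] at hx
      obtain ⟨⟨⟨hx1, hx2⟩, hx3⟩, hx4⟩ := hx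
      have g5 := hZ2 x hx1
      have g6 := stp_log (B := B) (w := w) (k := k + 1) (e := e) (Nat.succ_pos k) hD0 hΛ heD hx2 hx3 hx4
      show log ‖(itr B l (k + 1 + 1) (stp B (k + 1) e w)).eval x‖ ≤ _
      rw [List.length_cons]
      simp only [Pi.add_apply]
      push_cast at g5 g6 ⊢
      linarith

end Pool.Agent.Zk21.Pt
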