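import Mathlib
import Pool.Agent.Zk21.PtA

/-!
# The height of a pair of polynomials whose difference is a sparse multiple of a third one
-/

set_option autoImplicit false

open Polynomial Metric Real

namespace Pool.Agent.Zk21.Pt

open Pool.Agent.R328 Pool.Agent.Zk21.Smt Pool.Agent.Zk21.Un

lemma log_lead_le {P : ℂ[X]} (hP : P ≠ 0) : log ‖P.leadingCoeff‖ ≤ log P.mahlerMeasure := by
  apply log_le_log (norm_pos_iff.mpr (leadingCoeff_ne_zero.mpr hP))
  rw [mahlerMeasure_eq_leadingCoeff_mul_prod_roots]
  have h : 1 ≤ (P.roots.map (fun a => max 1 ‖a‖)).prod := by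
    apply Multiset.one_le_prod
    intro x hx
    obtain ⟨a, -, rfl⟩ := Multiset.mem_map.mp hx
    exact le_max_left _ _
  nlinarith [norm_nonneg P.leadingCoeff]

/-- **the height of the pair** -/
theorem pert_complex {P Q B s : ℂ[X]} {d : ℕ} (hPd : P.natDegree = d) (hQ : Q = P + B * s)
    (hB : B ≠ 0) (hs : s ≠ 0) (hl : ∀ e ∈ s.support, B.natDegree + e < d) :
    circleAverage (fun x => log⁺ ‖Q.eval x / P.eval x‖) 0 1 ≤
      log Q.mahlerMeasure - log ‖P.leadingCoeff‖ +
      s.support.card * (log B.mahlerMeasure - log ‖B.leadingCoeff‖) +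
      ∑ e ∈ s.support, log (((d : ℝ) + s.support.card * B.natDegree) / ((d : ℝ) - B.natDegree - e)) +
      6 * s.support.card := by
  set m := s.support.card with hm
  set b := B.natDegree with hb
  set l := s.support.toList with hldef
  have hlen : l.length = m := by rw [hldef, Finset.length_toList]
  have hl' : ∀ e ∈ l, b + e < d := fun e he => hl e (by rwa [hldef, Finset.mem_toList] at he)
  have hd0 : 0 < d := by
    obtain ⟨e, he⟩ := Finset.nonempty_of_ne_empty (support_nonempty.mpr hs).ne_empty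
    have := hl e he
    omega
  have hP : P ≠ 0 := by
    rintro rfl
    rw [natDegree_zero] at hPd
    omega
  have hBs : (B * s).degree < P.degree := by
    have hBs0 : B * s ≠ 0 := mul_ne_zero hB hs
    rw [degree_eq_natDegree hBs0, degree_eq_natDegree hP, natDegree_mul hB hs, hPd]
    have := hl s.natDegree (natDegree_mem_support_of_nonzero hs)
    exact_mod_cast this
  have hQdeg : Q.natDegree = d := by
    rw [hQ, ← hPd]
    exact natDegree_add_eq_left_of_degree_lt hBs
  have hQlc : Q.leadingCoeff = P.leadingCoeff := by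
    rw [hQ]
    exact leadingCoeff_add_of_degree_lt' hBs
  have hQ0 : Q ≠ 0 := by
    rintro rfl
    rw [natDegree_zero] at hQdeg
    omega
  have hW : itr B l (0 + 1) Q = itr B l (0 + 1) P := by
    have h1 := itr_sub B l (0 + 1) Q P
    have h2 : Q - P = B ^ (0 + 1) * s := by rw [hQ]; ring
    rw [h2, itr_pow, thts_zero (fun j hj => by rw [hldef, Finset.mem_toList]; exact hj), mul_zero] at h1
    exact (sub_eq_zero.mp h1.symm)
  set W := itr B l (0 + 1) P with hWdef
  obtain ⟨hW0, hWl⟩ := itr_lead hB l 0 P hP (by rw [hPd]; ring) hl'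
  rw [← hWdef] at hW0 hWl
  set D : ℝ := 2 * ((d : ℝ) + m * b) with hD
  have hdR : (0:ℝ) < d := by exact_mod_cast hd0
  have hD0 : 0 < D := by positivity
  obtain ⟨R1, hR1, hR1n, hR1a, Z1, hZ1, hZ1b⟩ := itr_log hB (Λ := 64) (by norm_num) hD0 m le_rfl l 0 P hP
    (by rw [hPd]; ring) hl' (by omega)
  obtain ⟨R2, hR2, hR2n, hR2a, Z2, hZ2, hZ2b⟩ := itr_log hB (Λ := 64) (by norm_num) hD0 m le_rfl l 0 Q hQ0
    (by rw [hQdeg]; ring) hl' (by omega)
  rw [hW] at hZ2b
  rw [← hWdef] at hZ1b
  have hWle := (log_lead_le hW0)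
  have key : circleAverage (fun x => log⁺ ‖Q.eval x / P.eval x‖) 0 1 ≤
      circleAverage ((fun x => log ‖Q.eval x‖) - (fun x => log ‖W.eval x‖) +
        ((m : ℝ) • ((fun x => log ‖B.eval x‖) + fun _ => log (64 * D)) + (R1 + R2))) 0 1 := by
    apply circleAverage_mono_off (posLog_ratio_int _ _)
      (((log_int Q).sub (log_int W)).add
        ((((log_int B).add (circleIntegrable_const _ _ _)).const_smul).add (hR1.add hR2)))
      (((hZ1.union hZ2).union (roots_countable hP)).union (roots_countable hQ0))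
    intro x _ hx2
    simp only [Set.mem_union, not_or] at hx2
    obtain ⟨⟨⟨hx1, hx2⟩, hx3⟩, hx4⟩ := hx2
    have g1 := hZ1b x hx1
    have g2 := hZ2b x hx2
    have g3 := hR1n x
    have g4 := hR2n x
    rw [hlen] at g1 g2
    simp only [Pi.add_apply, Pi.sub_apply, Pi.smul_apply, smul_eq_mul]
    have hx3' : P.eval x ≠ 0 := hx3
    have hx4' : Q.eval x ≠ 0 := hx4
    rw [norm_div]
    rcases le_total (‖Q.eval x‖ / ‖P.eval x‖) 1 with h | h
    · have h5 : log⁺ (‖Q.eval x‖ / ‖P.eval x‖) = 0 := by
        rw [posLog_eq_zero_iff, abs_of_nonneg (by positivity)]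
        exact h
      rw [h5]
      linarith
    · rw [posLog_eq_log (by rwa [abs_of_nonneg (by positivity)]),
        log_div (norm_ne_zero_iff.mpr hx4') (norm_ne_zero_iff.mpr hx3')]
      linarith
  refine key.trans ?_
  rw [circleAverage_add ((log_int Q).sub (log_int W))
      ((((log_int B).add (circleIntegrable_const _ _ _)).const_smul).add (hR1.add hR2)),
    circleAverage_sub (log_int Q) (log_int W),
    circleAverage_add (((log_int B).add (circleIntegrable_const _ _ _)).const_smul) (hR1.add hR2),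
    circleAverage_smul, circleAverage_add (log_int B) (circleIntegrable_const _ _ _),
    circleAverage_const, circleAverage_add hR1 hR2, log_mahler, log_mahler, log_mahler, smul_eq_mul]
  rw [hlen] at hR1a hR2a hWl
  have hsum : (l.map (fun e : ℕ => log ((d : ℝ) - b - e))).sum = ∑ e ∈ s.support, log ((d : ℝ) - b - e) := by
    rw [hldef, Finset.sum_map_toList]
  rw [hsum] at hWl
  have hsum2 : ∑ e ∈ s.support, log (((d : ℝ) + m * b) / ((d : ℝ) - b - e)) =
      m * log ((d : ℝ) + m * b) - ∑ e ∈ s.support, log ((d : ℝ) - b - e) := by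
    have h1 : ∀ e ∈ s.support, log (((d : ℝ) + m * b) / ((d : ℝ) - b - e)) =
        log ((d : ℝ) + m * b) - log ((d : ℝ) - b - e) := by
      intro e he
      have h2 : ((b + e : ℕ) : ℝ) < d := by exact_mod_cast hl e he
      push_cast at h2
      rw [log_div (by positivity) (by linarith)]
    rw [Finset.sum_congr rfl h1, Finset.sum_sub_distrib, Finset.sum_const, nsmul_eq_mul, ← hm]
  rw [hsum2]
  have h64 : log (64 * D) = 7 * log 2 + log ((d : ℝ) + m * b) := by
    rw [hD, ← mul_assoc, log_mul (by norm_num) (by positivity)]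
    congr 1
    have : (64 * 2 : ℝ) = 2 ^ 7 := by norm_num
    rw [this, log_pow]
    norm_num
  rw [h64]
  have hl2 : log 2 < 0.6931471808 := log_two_lt_d9
  have hm0 : (0:ℝ) ≤ m := Nat.cast_nonneg _
  nlinarith

end Pool.Agent.Zk21.Pt
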