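import Mathlib
import Pool.Agent.Zk21.PtB

/-!
# Pairs of integer polynomials whose difference is a sparse multiple of a third one
-/

set_option autoImplicit false

open Polynomial Metric Real

namespace Pool.Agent.Zk21.Pt

open Pool.Agent.R328 Pool.Agent.Zk21.Smt Pool.Agent.Zk21.Un

/-- the logarithm of the Mahler measure of an integer polynomial -/
noncomputable def lM (f : ℤ[X]) : ℝ := log (f.map (Int.castRingHom ℂ)).mahlerMeasure

/-- the mean of `log⁺ |F / f|` -/
noncomputable def prox (f F : ℤ[X]) : ℝ :=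
  circleAverage (fun x => log⁺ ‖(F.map (Int.castRingHom ℂ)).eval x /
    (f.map (Int.castRingHom ℂ)).eval x‖) 0 1

lemma map_ne {f : ℤ[X]} (hf : f ≠ 0) : f.map (Int.castRingHom ℂ) ≠ 0 :=
  (Polynomial.map_ne_zero_iff (Int.castRingHom ℂ).injective_int).mpr hf

lemma lc_map (f : ℤ[X]) : ‖(f.map (Int.castRingHom ℂ)).leadingCoeff‖ = |(f.leadingCoeff : ℝ)| := by
  rw [leadingCoeff_map_of_injective (Int.castRingHom ℂ).injective_int]
  show ‖((f.leadingCoeff : ℤ) : ℂ)‖ = _
  rw [Complex.norm_intCast]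

lemma log_lc {f : ℤ[X]} (hf : f ≠ 0) : 0 ≤ log ‖(f.map (Int.castRingHom ℂ)).leadingCoeff‖ := by
  rw [lc_map]
  apply log_nonneg
  exact_mod_cast Int.one_le_abs (leadingCoeff_ne_zero.mpr hf)

lemma lM_nonneg {f : ℤ[X]} (hf : f ≠ 0) : 0 ≤ lM f := (log_lc hf).trans (log_lead_le (map_ne hf))

lemma supp_map (f : ℤ[X]) : (f.map (Int.castRingHom ℂ)).support = f.support :=
  support_map_of_injective f (Int.castRingHom ℂ).injective_int

lemma natDeg_map (f : ℤ[X]) : (f.map (Int.castRingHom ℂ)).natDegree = f.natDegree :=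
  natDegree_map_eq_of_injective (Int.castRingHom ℂ).injective_int f

/-- unchanged leading coefficient -/
theorem pert_top {f B s : ℤ[X]} (hB : B ≠ 0) (hs : s ≠ 0)
    (hl : B.natDegree + s.natDegree < f.natDegree) :
    prox f (f + B * s) ≤ lM (f + B * s) + s.support.card * (6 + lM B) +
      ∑ e ∈ s.support, log (((f.natDegree : ℝ) + s.support.card * B.natDegree) /
        ((f.natDegree : ℝ) - B.natDegree - e)) := by
  have hf : f ≠ 0 := by
    rintro rfl
    rw [natDegree_zero] at hl
    omega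
  have h1 := pert_complex (P := f.map (Int.castRingHom ℂ)) (Q := (f + B * s).map (Int.castRingHom ℂ))
    (B := B.map (Int.castRingHom ℂ)) (s := s.map (Int.castRingHom ℂ)) (d := f.natDegree)
    (natDeg_map f) (by rw [Polynomial.map_add, Polynomial.map_mul]) (map_ne hB) (map_ne hs) (by
      intro e he
      rw [supp_map] at he
      rw [natDeg_map]
      have := le_natDegree_of_mem_supp e he
      omega)
  rw [supp_map, natDeg_map] at h1
  have h2 := log_lc hf
  have h3 := log_lc hB
  have h4 : (0:ℝ) ≤ (s.support.card : ℝ) := Nat.cast_nonneg _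
  unfold prox lM
  nlinarith

/-- values on the circle -/
lemma norm_reflect {f : ℤ[X]} {D : ℕ} (hD : f.natDegree ≤ D) {x : ℂ} (hx : ‖x‖ = 1) :
    ‖((reflect D f).map (Int.castRingHom ℂ)).eval x‖ = ‖(f.map (Int.castRingHom ℂ)).eval x‖ := by
  have hx0 : x ≠ 0 := by
    rintro rfl
    simp at hx
  have hy : x⁻¹ ≠ 0 := inv_ne_zero hx0
  letI := invertibleOfNonzero hy
  have h1 := eval₂_reflect_mul_pow (Int.castRingHom ℂ) (x⁻¹) D f hD
  rw [invOf_eq_inv, inv_inv] at h1
  rw [eval_map, eval_map]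
  have h2 : ‖eval₂ (Int.castRingHom ℂ) x (reflect D f)‖ = ‖eval₂ (Int.castRingHom ℂ) x⁻¹ f‖ := by
    rw [← h1, norm_mul, norm_pow, norm_inv, hx]
    simp
  rw [h2]
  have h3 : x⁻¹ = starRingEnd ℂ x := by
    rw [Complex.inv_def, Complex.normSq_eq_norm_sq, hx]
    simp
  have h4 := hom_eval₂ f (Int.castRingHom ℂ) (starRingEnd ℂ) x
  have h5 : (starRingEnd ℂ).comp (Int.castRingHom ℂ) = Int.castRingHom ℂ := RingHom.ext_int _ _
  rw [h5] at h4
  rw [h3, ← h4, RCLike.norm_conj]

lemma lM_reflect {f : ℤ[X]} {D : ℕ} (hD : f.natDegree ≤ D) : lM (reflect D f) = lM f := by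
  unfold lM
  rw [← log_mahler, ← log_mahler]
  apply circleAverage_congr_sphere
  intro x hx
  rw [abs_one, mem_sphere_zero_iff_norm] at hx
  simp only
  rw [norm_reflect hD hx]

lemma prox_reflect {f F : ℤ[X]} {D : ℕ} (hD : f.natDegree ≤ D) (hD' : F.natDegree ≤ D) :
    prox (reflect D f) (reflect D F) = prox f F := by
  unfold prox
  apply circleAverage_congr_sphere
  intro x hx
  rw [abs_one, mem_sphere_zero_iff_norm] at hx
  simp only
  rw [norm_div, norm_div, norm_reflect hD hx, norm_reflect hD' hx]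

lemma natDegree_reflect' {f : ℤ[X]} {D : ℕ} (hD : f.natDegree ≤ D) (h0 : f.coeff 0 ≠ 0) :
    (reflect D f).natDegree = D := by
  apply le_antisymm
  · rw [natDegree_le_iff_coeff_eq_zero]
    intro i hi
    rw [coeff_reflect, revAt_eq_self_of_lt hi]
    exact coeff_eq_zero_of_natDegree_lt (by omega)
  · apply le_natDegree_of_ne_zero
    rw [coeff_reflect, revAt_le le_rfl, Nat.sub_self]
    exact h0

/-- unchanged constant term -/
theorem pert_bot {f B s : ℤ[X]} {D : ℕ} (hs : s ≠ 0)
    (hD : f.natDegree ≤ D) (hD' : B.natDegree + s.natDegree ≤ D) (hf0 : f.coeff 0 ≠ 0)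
    (hB0 : B.coeff 0 ≠ 0) (hs0 : s.coeff 0 = 0) :
    prox f (f + B * s) ≤ lM (f + B * s) + s.support.card * (6 + lM B) +
      ∑ e ∈ s.support, log (((D : ℝ) + s.support.card * B.natDegree) / e) := by
  have hB : B ≠ 0 := by
    rintro rfl
    simp at hB0
  set b := B.natDegree with hb
  have hsD : s.natDegree ≤ D - b := by omega
  have hDb : b + (D - b) = D := by omega
  set f' := reflect D f with hf'
  set B' := reflect b B with hB'
  set s' := reflect (D - b) s with hs'
  have hBs : (B * s).natDegree ≤ D := natDegree_mul_le.trans hD'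
  have hF : (f + B * s).natDegree ≤ D := (natDegree_add_le _ _).trans (max_le hD hBs)
  have e1 : reflect D (f + B * s) = f' + B' * s' := by
    rw [reflect_add, hf', hB', hs', ← reflect_mul B s le_rfl hsD, hDb]
  have hf'd : f'.natDegree = D := natDegree_reflect' hD hf0
  have hB'd : B'.natDegree = b := natDegree_reflect' le_rfl hB0
  have hB'0 : B' ≠ 0 := by
    rw [hB', Ne, reflect_eq_zero_iff]
    exact hB
  have hs'0 : s' ≠ 0 := by
    rw [hs', Ne, reflect_eq_zero_iff]
    exact hs
  have hinj : Set.InjOn (revAt (D - b)) s.support := by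
    intro i hi j hj hij
    exact (revAt (D - b)).injective hij
  have hsupp : s'.support = s.support.image (revAt (D - b)) := reflect_support _ _
  have hcard : s'.support.card = s.support.card := by
    rw [hsupp, Finset.card_image_of_injOn hinj]
  have hpos : ∀ e ∈ s.support, 0 < e ∧ e ≤ D - b := by
    intro e he
    refine ⟨Nat.pos_of_ne_zero ?_, (le_natDegree_of_mem_supp e he).trans hsD⟩
    rintro rfl
    exact (mem_support_iff.mp he) hs0
  have hdeg : B'.natDegree + s'.natDegree < f'.natDegree := by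
    have h1 := natDegree_mem_support_of_nonzero hs'0
    rw [hsupp, Finset.mem_image] at h1
    obtain ⟨e, he, he2⟩ := h1
    obtain ⟨h2, h3⟩ := hpos e he
    rw [revAt_le h3] at he2
    rw [hf'd, hB'd, ← he2]
    omega
  have h1 := pert_top hB'0 hs'0 hdeg
  rw [← e1, hf', prox_reflect hD hF, lM_reflect hF, ← hf', hB', lM_reflect le_rfl, ← hB', hcard, hf'd,
    hB'd, hsupp, Finset.sum_image hinj] at h1
  refine h1.trans (le_of_eq ?_)
  congr 1
  apply Finset.sum_congr rfl
  intro e he
  obtain ⟨h2, h3⟩ := hpos e he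
  rw [revAt_le h3]
  congr 2
  have : ((D - b - e : ℕ) : ℝ) = (D : ℝ) - b - e := by
    rw [Nat.cast_sub h3, Nat.cast_sub (by omega)]
  rw [this]
  ring

end Pool.Agent.Zk21.Pt
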