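import Mathlib
import Pool.Agent.Zk21.PtC

/-!
# The repulsion theorem
-/

set_option autoImplicit false

open Polynomial Metric Real

namespace Pool.Agent.Zk21.Pt

open Pool.Agent.R328 Pool.Agent.Zk21.Smt Pool.Agent.Zk21.Un Pool.Agent.H388SL

lemma aeval_map' (f : ℤ[X]) (x : ℂ) : aeval x f = (f.map (Int.castRingHom ℂ)).eval x := by
  rw [Polynomial.aeval_def, Polynomial.eval_map]
  rfl

lemma prox_nonneg (f F : ℤ[X]) : 0 ≤ prox f F := circleAverage_nonneg_of_nonneg fun _ _ => posLog_nonneg

/-- the mean of the logarithm of the maximum -/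
lemma PM_le {f F : ℤ[X]} (hf : f ≠ 0) (hF : F ≠ 0) :
    circleAverage (PM f F 1) 0 1 ≤ lM f + prox f F := by
  have hfc := map_ne hf
  have hFc := map_ne hF
  have hI : CircleIntegrable ((fun x => log ‖(f.map (Int.castRingHom ℂ)).eval x‖) +
      fun x => log⁺ ‖(F.map (Int.castRingHom ℂ)).eval x / (f.map (Int.castRingHom ℂ)).eval x‖) 0 1 :=
    (log_int _).add (posLog_ratio_int _ _)
  have e : circleAverage ((fun x => log ‖(f.map (Int.castRingHom ℂ)).eval x‖) +
      fun x => log⁺ ‖(F.map (Int.castRingHom ℂ)).eval x / (f.map (Int.castRingHom ℂ)).eval x‖) 0 1 =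
      lM f + prox f F := by
    rw [circleAverage_add (log_int _) (posLog_ratio_int _ _), log_mahler]
    rfl
  rw [← e]
  by_cases hJ : CircleIntegrable (PM f F 1) 0 1
  · apply circleAverage_mono_off hJ hI ((roots_countable hfc).union (roots_countable hFc))
    intro x _ hx
    simp only [Set.mem_union, not_or] at hx
    have h1 : (f.map (Int.castRingHom ℂ)).eval x ≠ 0 := hx.1
    have h2 : (F.map (Int.castRingHom ℂ)).eval x ≠ 0 := hx.2
    have h1' := norm_pos_iff.mpr h1
    have h2' := norm_pos_iff.mpr h2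
    unfold PM
    rw [aeval_map', aeval_map', pow_one, Pi.add_apply, norm_div]
    rcases le_total ‖(F.map (Int.castRingHom ℂ)).eval x‖ ‖(f.map (Int.castRingHom ℂ)).eval x‖ with h | h
    · rw [max_eq_left h]
      have : 0 ≤ log⁺ (‖(F.map (Int.castRingHom ℂ)).eval x‖ / ‖(f.map (Int.castRingHom ℂ)).eval x‖) :=
        posLog_nonneg
      linarith
    · rw [max_eq_right h]
      have g1 : log (‖(F.map (Int.castRingHom ℂ)).eval x‖ / ‖(f.map (Int.castRingHom ℂ)).eval x‖) ≤
          log⁺ (‖(F.map (Int.castRingHom ℂ)).eval x‖ / ‖(f.map (Int.castRingHom ℂ)).eval x‖) :=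
        le_max_right _ _
      rw [log_div h2'.ne' h1'.ne'] at g1
      linarith
  · have h0 : circleAverage (PM f F 1) 0 1 = 0 := by
      unfold Real.circleAverage
      rw [intervalIntegral.integral_undef hJ, smul_zero]
    rw [h0, e]
    exact add_nonneg (lM_nonneg hf) (prox_nonneg f F)

/-- the bound for irreducible polynomials in terms of the proximity -/
theorem irr_prox : ∃ c : ℝ, 0 < c ∧ ∀ f F : ℤ[X], Irreducible f →
    1 < (f.map (Int.castRingHom ℂ)).mahlerMeasure → ¬ f ∣ F → F.natDegree ≤ f.natDegree →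
    c ≤ lM f * (1 + prox f F) ^ 3 := by
  obtain ⟨c, hc, h⟩ := pair_main
  refine ⟨min 1 (c / 64), lt_min one_pos (by positivity), ?_⟩
  intro f F hf hM hdvd hdeg
  have hf0 := hf.ne_zero
  have hF0 : F ≠ 0 := by
    rintro rfl
    exact hdvd (dvd_zero f)
  have hX := prox_nonneg f F
  have hl : 0 < lM f := log_pos hM
  have hp1 : (1:ℝ) ≤ (1 + prox f F) ^ 3 := one_le_pow₀ (by linarith)
  rcases le_or_gt 1 (lM f) with h1 | h1
  · refine (min_le_left _ _).trans ?_
    nlinarith
  · refine (min_le_right _ _).trans ?_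
    have h2 := h f F 1 one_pos hf hdvd hM
    have hPM := PM_le hf0 hF0
    have hPM0 := PM_nonneg hf0 hM.le F 1
    have hr : (F.natDegree : ℝ) / ((1 : ℕ) * f.natDegree) ≤ 1 := by
      rw [Nat.cast_one, one_mul]
      apply div_le_one_of_le₀ _ (Nat.cast_nonneg _)
      exact_mod_cast hdeg
    have hr0 : (0:ℝ) ≤ (F.natDegree : ℝ) / ((1 : ℕ) * f.natDegree) := by positivity
    have h3 : (1 + (F.natDegree : ℝ) / ((1 : ℕ) * f.natDegree)) *
        (1 + circleAverage (PM f F 1) 0 1 / (1 : ℕ)) ≤ 4 * (1 + prox f F) := by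
      rw [Nat.cast_one, div_one] at *
      have g1 : 1 + circleAverage (PM f F 1) 0 1 ≤ 2 * (1 + prox f F) := by linarith
      have g2 : 0 ≤ 1 + circleAverage (PM f F 1) 0 1 := by linarith
      calc (1 + (F.natDegree : ℝ) / (1 * f.natDegree)) * (1 + circleAverage (PM f F 1) 0 1) ≤
          2 * (2 * (1 + prox f F)) := by
            apply mul_le_mul (by linarith) g1 g2 (by norm_num)
        _ = 4 * (1 + prox f F) := by ring
    have h4 : 0 < (1 + (F.natDegree : ℝ) / ((1 : ℕ) * f.natDegree)) *
        (1 + circleAverage (PM f F 1) 0 1 / (1 : ℕ)) := by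
      apply mul_pos (by linarith)
      rw [Nat.cast_one, div_one]
      linarith
    have h5 := pow_le_pow_left₀ h4.le h3 3
    have h6 : c ≤ lM f * ((1 + (F.natDegree : ℝ) / ((1 : ℕ) * f.natDegree)) *
        (1 + circleAverage (PM f F 1) 0 1 / (1 : ℕ))) ^ 3 := by
      rw [div_le_iff₀ (by positivity)] at h2
      exact h2
    have h7 : c ≤ lM f * (4 * (1 + prox f F)) ^ 3 := h6.trans (mul_le_mul_of_nonneg_left h5 hl.le)
    rw [div_le_iff₀ (by norm_num)]
    refine h7.trans (le_of_eq (by ring))

/-- the cost of a sparse multiple `B s`, leading coefficient unchanged -/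
lemma repulsion_aux {f B s : ℤ[X]} {η : ℝ} (hf : Irreducible f) (hs : s ≠ 0)
    (hη : (B ≠ 0 ∧ B.natDegree + s.natDegree < f.natDegree ∧
        η = ∑ e ∈ s.support, log (((f.natDegree : ℝ) + s.support.card * B.natDegree) /
          ((f.natDegree : ℝ) - B.natDegree - e))) ∨
      (B.coeff 0 ≠ 0 ∧ s.coeff 0 = 0 ∧ f.coeff 0 ≠ 0 ∧ B.natDegree + s.natDegree ≤ f.natDegree ∧
        η = ∑ e ∈ s.support, log (((f.natDegree : ℝ) + s.support.card * B.natDegree) / e))) :
    ¬ f ∣ f + B * s ∧ (f + B * s).natDegree ≤ f.natDegree ∧ f + B * s ≠ 0 ∧ B ≠ 0 ∧ 0 ≤ η ∧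
      prox f (f + B * s) ≤ lM (f + B * s) + s.support.card * (6 + lM B) + η := by
  have hf0 := hf.ne_zero
  have hcard : (1:ℝ) ≤ (s.support.card : ℝ) := by
    have : 0 < s.support.card := Finset.card_pos.mpr (support_nonempty.mpr hs)
    exact_mod_cast this
  rcases hη with ⟨hB, hl, hη⟩ | ⟨hB0, hs0, hf00, hl, hη⟩
  · have hBs : (B * s).degree < f.degree := by
      have hBs0 : B * s ≠ 0 := mul_ne_zero hB hs
      rw [degree_eq_natDegree hBs0, degree_eq_natDegree hf0, natDegree_mul hB hs]
      exact_mod_cast hl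
    have hdeg : (f + B * s).natDegree = f.natDegree := natDegree_add_eq_left_of_degree_lt hBs
    have hlc : (f + B * s).leadingCoeff = f.leadingCoeff := leadingCoeff_add_of_degree_lt' hBs
    have hF0 : f + B * s ≠ 0 := by
      rw [← leadingCoeff_ne_zero, hlc]
      exact leadingCoeff_ne_zero.mpr hf0
    refine ⟨?_, hdeg.le, hF0, hB, ?_, ?_⟩
    · intro h
      have h1 : f ∣ B * s := (dvd_add_right (dvd_refl f)).mp h
      exact absurd (degree_le_of_dvd h1 (mul_ne_zero hB hs)) (not_le.mpr hBs)
    · rw [hη]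
      apply Finset.sum_nonneg
      intro e he
      have h1 := le_natDegree_of_mem_supp e he
      have h2 : ((B.natDegree + e : ℕ) : ℝ) < f.natDegree := by exact_mod_cast (by omega)
      push_cast at h2
      apply log_nonneg
      rw [le_div_iff₀ (by linarith)]
      have : (0:ℝ) ≤ (s.support.card : ℝ) * B.natDegree := by positivity
      have : (0:ℝ) ≤ (B.natDegree : ℝ) := by positivity
      have : (0:ℝ) ≤ (e : ℝ) := by positivity
      linarith
    · rw [hη]
      exact pert_top hB hs hl
  · have hB : B ≠ 0 := by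
      rintro rfl
      simp at hB0
    have hBsd : (B * s).natDegree ≤ f.natDegree := natDegree_mul_le.trans hl
    have h00 : (f + B * s).coeff 0 = f.coeff 0 := by
      rw [coeff_add, mul_coeff_zero, hs0, mul_zero, add_zero]
    have hF0 : f + B * s ≠ 0 := by
      intro h
      rw [h, coeff_zero] at h00
      exact hf00 h00.symm
    have hFd : (f + B * s).natDegree ≤ f.natDegree := (natDegree_add_le _ _).trans (max_le le_rfl hBsd)
    refine ⟨?_, hFd, hF0, hB, ?_, ?_⟩
    · intro h
      obtain ⟨q, hq⟩ := h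
      have hq0 : q ≠ 0 := by
        rintro rfl
        rw [mul_zero] at hq
        exact hF0 hq
      have h1 : q.natDegree = 0 := by
        have h2 : (f + B * s).natDegree = f.natDegree + q.natDegree := by
          rw [hq, natDegree_mul hf0 hq0]
        omega
      have h2 : q.coeff 0 = 1 := by
        rw [hq, mul_coeff_zero] at h00
        exact mul_left_cancel₀ hf00 (h00.trans (mul_one _).symm)
      rw [eq_C_of_natDegree_eq_zero h1, h2, C_1, mul_one] at hq
      exact mul_ne_zero hB hs (by linear_combination hq)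
    · rw [hη]
      apply Finset.sum_nonneg
      intro e he
      have h1 := le_natDegree_of_mem_supp e he
      have he0 : 0 < e := by
        apply Nat.pos_of_ne_zero
        rintro rfl
        exact (mem_support_iff.mp he) hs0
      have h2 : (e : ℝ) ≤ f.natDegree := by exact_mod_cast (by omega)
      apply log_nonneg
      rw [le_div_iff₀ (by exact_mod_cast he0)]
      have : (0:ℝ) ≤ (s.support.card : ℝ) * B.natDegree := by positivity
      linarith
    · rw [hη]
      exact pert_bot hs le_rfl hl hf00 hB0 hs0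

/-- **repulsion**: the neighbours of an irreducible polynomial of small Mahler measure have a large
Mahler measure -/
theorem repulsion : ∃ c : ℝ, 0 < c ∧ ∀ (f B s : ℤ[X]) (η : ℝ), Irreducible f →
    1 < (f.map (Int.castRingHom ℂ)).mahlerMeasure → s ≠ 0 →
    ((B ≠ 0 ∧ B.natDegree + s.natDegree < f.natDegree ∧
        η = ∑ e ∈ s.support, log (((f.natDegree : ℝ) + s.support.card * B.natDegree) /
          ((f.natDegree : ℝ) - B.natDegree - e))) ∨
      (B.coeff 0 ≠ 0 ∧ s.coeff 0 = 0 ∧ B.natDegree + s.natDegree ≤ f.natDegree ∧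
        η = ∑ e ∈ s.support, log (((f.natDegree : ℝ) + s.support.card * B.natDegree) / e))) →
    c ≤ lM f * (1 + lM (f + B * s) + s.support.card * (1 + lM B) + η) ^ 3 := by
  obtain ⟨c, hc, h⟩ := irr_prox
  refine ⟨c / 216, by positivity, ?_⟩
  intro f B s η hf hM hs hη
  have hf00 : f.coeff 0 ≠ 0 := by
    intro h0
    have h1 : (X : ℤ[X]) ∣ f := X_dvd_iff.mpr h0
    have h2 : Associated X f := prime_X.irreducible.associated_of_dvd hf h1
    obtain ⟨w, hw⟩ := h2
    obtain ⟨r, hr, hr2⟩ := Polynomial.isUnit_iff.mp w.isUnit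
    have h3 : |r| = 1 := Int.isUnit_iff_abs_eq.mp hr
    have h4 : (f.map (Int.castRingHom ℂ)).mahlerMeasure = 1 := by
      have hX : (X : ℂ[X]).mahlerMeasure = 1 := by
        have := mahlerMeasure_X_sub_C 0
        simpa using this
      rw [← hw, ← hr2, Polynomial.map_mul, map_X, map_C, mahlerMeasure_mul, hX,
        mahlerMeasure_const, one_mul]
      show ‖((r : ℤ) : ℂ)‖ = 1
      rw [Complex.norm_intCast]
      exact_mod_cast h3
    linarith
  obtain ⟨h1, h2, h3, h4, h5, h6⟩ := repulsion_aux hf hs (η := η) (B := B) (by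
    rcases hη with hη | ⟨g1, g2, g3, g4⟩
    · exact Or.inl hη
    · exact Or.inr ⟨g1, g2, hf00, g3, g4⟩)
  have h7 := h f (f + B * s) hf hM h1 h2
  have h8 := lM_nonneg h3
  have h9 := lM_nonneg h4
  have h10 := prox_nonneg f (f + B * s)
  have hl : 0 < lM f := log_pos hM
  have hm : (0:ℝ) ≤ (s.support.card : ℝ) := Nat.cast_nonneg _
  have h11 : 1 + prox f (f + B * s) ≤
      6 * (1 + lM (f + B * s) + s.support.card * (1 + lM B) + η) := by
    have : (0:ℝ) ≤ (s.support.card : ℝ) * lM B := by positivity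
    nlinarith
  have h12 := pow_le_pow_left₀ (by linarith) h11 3
  have h13 := mul_le_mul_of_nonneg_left h12 hl.le
  rw [div_le_iff₀ (by norm_num)]
  refine (h7.trans h13).trans (le_of_eq (by ring))

end Pool.Agent.Zk21.Pt
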