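import Mathlib
import Pool.Agent.Zk21.PtD
import Pool.Agent.Y820.LB.Pairs

/-!
# The gap for all polynomials
-/

set_option autoImplicit false

open Polynomial Metric Real MeasureTheory

namespace Pool.Agent.Zk21.Pt

open Pool.Agent.R328 Pool.Agent.Zk21.Smt Pool.Agent.Zk21.Un Pool.Agent.Y820.LB
open Pool.Agent.H261R2.CM (ez D_norm_ez D_circleAverage D_ez_eq toC ev1 m1 D_toC_ne)
open Pool.Agent.W242.IM (ae_eval_ne)

lemma ez_int {φ : ℂ → ℝ} (h : CircleIntegrable φ 0 1) :
    IntervalIntegrable (fun t => φ (ez t)) volume 0 1 := by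
  have h2 := IntervalIntegrable.comp_mul_left (c := 2 * Real.pi) h
  have hpi : (2 * Real.pi : ℝ) ≠ 0 := by positivity
  rw [zero_div, div_self hpi] at h2
  have h3 : (fun t => φ (ez t)) = fun t => φ (circleMap 0 1 (2 * Real.pi * t)) := by
    ext t
    simp only [D_ez_eq]
  rw [h3]
  exact h2

lemma dom_prox (f F : ℤ[X]) : Dom (fun t => ‖ev1 F t / ev1 f t‖) (log 2 + prox f F) := by
  have hi : IntervalIntegrable (fun t => log⁺ ‖ev1 F t / ev1 f t‖) volume 0 1 :=
    ez_int (posLog_ratio_int (F.map (Int.castRingHom ℂ)) (f.map (Int.castRingHom ℂ)))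
  refine ⟨fun t => log 2 + log⁺ ‖ev1 F t / ev1 f t‖, ?_, ?_, ?_⟩
  · apply IntervalIntegrable.add
    · exact intervalIntegrable_const
    · exact hi
  · refine Filter.Eventually.of_forall fun t => ⟨norm_nonneg _, ?_⟩
    set y := ‖ev1 F t / ev1 f t‖ with hy
    have hy0 : 0 ≤ y := norm_nonneg _
    have h1 : log (1 + y) ≤ log⁺ (1 + y) := le_max_right _ _
    have h2 := posLog_add (x := 1) (y := y)
    rw [posLog_one] at h2
    linarith
  · have h1 := D_circleAverage (fun z => log⁺ ‖(F.map (Int.castRingHom ℂ)).eval z /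
      (f.map (Int.castRingHom ℂ)).eval z‖)
    have h2 : ∫ t in (0:ℝ)..1, (log 2 + log⁺ ‖ev1 F t / ev1 f t‖) =
        log 2 + ∫ t in (0:ℝ)..1, log⁺ ‖ev1 F t / ev1 f t‖ := by
      rw [intervalIntegral.integral_add intervalIntegrable_const hi]
      simp
    rw [h2]
    apply le_of_eq
    congr 1
    exact h1.symm

/-- polynomials with a companion without common zeros outside the circle -/
theorem gap_prox (K : ℝ) : ∃ μ : ℝ, 1 < μ ∧ ∀ f F : ℤ[X], f ≠ 0 → prox f F ≤ K →
    (∀ z : ℂ, 1 < ‖z‖ → aeval z f = 0 → aeval z F ≠ 0) →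
    (f.map (Int.castRingHom ℂ)).mahlerMeasure = 1 ∨
      μ ≤ (f.map (Int.castRingHom ℂ)).mahlerMeasure := by
  obtain ⟨c, hc1, hc2, h⟩ := pair_gap (log 2 + K)
  refine ⟨c, hc1, ?_⟩
  intro f F hf hK hz
  by_cases hm : m1 f = 1
  · exact Or.inl hm
  right
  rcases m1_cases f hf hm with h2 | ⟨z, hz0, hz1⟩
  · exact hc2.trans h2
  have hdom : Dom (fun t => ‖ev1 F t / ev1 f t‖) (log 2 + K) := by
    obtain ⟨g, g1, g2, g3⟩ := dom_prox f F
    exact ⟨g, g1, g2, g3.trans (by linarith)⟩
  refine h f F hf _ hdom ?_ z 1 hz1 ?_ ?_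
  · filter_upwards [Pool.Agent.H261R2.CM.D_ae_ne f hf] with t ht
    rw [mul_div_cancel₀ _ ht]
  · rw [pow_one]
    exact dvd_iff_isRoot.2 hz0
  · rw [pow_one]
    intro h3
    apply hz z hz1
    · rw [aeval_map']
      exact hz0
    · rw [aeval_map']
      exact dvd_iff_isRoot.1 h3

/-- **the gap for all polynomials** -/
theorem gap_pert (K : ℝ) : ∃ μ : ℝ, 1 < μ ∧ ∀ (f B s : ℤ[X]) (η : ℝ), s ≠ 0 →
    ((B ≠ 0 ∧ B.natDegree + s.natDegree < f.natDegree ∧
        η = ∑ e ∈ s.support, log (((f.natDegree : ℝ) + s.support.card * B.natDegree) /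
          ((f.natDegree : ℝ) - B.natDegree - e))) ∨
      (B.coeff 0 ≠ 0 ∧ s.coeff 0 = 0 ∧ f.coeff 0 ≠ 0 ∧
        η = ∑ e ∈ s.support, log (((max f.natDegree (B.natDegree + s.natDegree) : ℕ) +
          s.support.card * B.natDegree : ℝ) / e))) →
    (∀ z : ℂ, 1 < ‖z‖ → aeval z f = 0 → aeval z (f + B * s) ≠ 0) →
    lM (f + B * s) + s.support.card * (1 + lM B) + η ≤ K →
    (f.map (Int.castRingHom ℂ)).mahlerMeasure = 1 ∨
      μ ≤ (f.map (Int.castRingHom ℂ)).mahlerMeasure := by
  obtain ⟨μ, hμ, h⟩ := gap_prox (6 * K)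
  refine ⟨μ, hμ, ?_⟩
  intro f B s η hs hη hz hK
  have hm : (0:ℝ) ≤ (s.support.card : ℝ) := Nat.cast_nonneg _
  rcases hη with ⟨hB, hl, hη⟩ | ⟨hB0, hs0, hf0, hη⟩
  · have hf : f ≠ 0 := by
      rintro rfl
      rw [natDegree_zero] at hl
      omega
    have hBs : (B * s).degree < f.degree := by
      have hBs0 : B * s ≠ 0 := mul_ne_zero hB hs
      rw [degree_eq_natDegree hBs0, degree_eq_natDegree hf, natDegree_mul hB hs]
      exact_mod_cast hl
    have hlc : (f + B * s).leadingCoeff = f.leadingCoeff := leadingCoeff_add_of_degree_lt' hBs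
    have hF0 : f + B * s ≠ 0 := by
      rw [← leadingCoeff_ne_zero, hlc]
      exact leadingCoeff_ne_zero.mpr hf
    have h1 := pert_top hB hs hl
    rw [← hη] at h1
    have h2 : 0 ≤ η := by
      rw [hη]
      apply Finset.sum_nonneg
      intro e he
      have h1 := le_natDegree_of_mem_supp e he
      have h2 : ((B.natDegree + e : ℕ) : ℝ) < f.natDegree := by exact_mod_cast (by omega)
      push_cast at h2
      apply log_nonneg
      rw [le_div_iff₀ (by linarith)]
      have : (0:ℝ) ≤ (s.support.card : ℝ) * B.natDegree := by positivity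
      have : (0:ℝ) ≤ (B.natDegree : ℝ) := by positivity
      have : (0:ℝ) ≤ (e : ℝ) := by positivity
      linarith
    have h3 := lM_nonneg hF0
    have h4 := lM_nonneg hB
    have h5 : (0:ℝ) ≤ (s.support.card : ℝ) * lM B := by positivity
    exact h f (f + B * s) hf (by nlinarith) hz
  · have hf : f ≠ 0 := by
      rintro rfl
      simp at hf0
    have hB : B ≠ 0 := by
      rintro rfl
      simp at hB0
    have h00 : (f + B * s).coeff 0 = f.coeff 0 := by
      rw [coeff_add, mul_coeff_zero, hs0, mul_zero, add_zero]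
    have hF0 : f + B * s ≠ 0 := by
      intro h
      rw [h, coeff_zero] at h00
      exact hf0 h00.symm
    have h1 := pert_bot (f := f) hs (le_max_left _ _) (le_max_right f.natDegree _) hf0 hB0 hs0
    have h2 : 0 ≤ η := by
      rw [hη]
      apply Finset.sum_nonneg
      intro e he
      have h1 := le_natDegree_of_mem_supp e he
      have he0 : 0 < e := by
        apply Nat.pos_of_ne_zero
        rintro rfl
        exact (mem_support_iff.mp he) hs0
      have h2 : (e : ℝ) ≤ (max f.natDegree (B.natDegree + s.natDegree) : ℕ) := by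
        have : e ≤ max f.natDegree (B.natDegree + s.natDegree) := by omega
        exact_mod_cast this
      apply log_nonneg
      rw [le_div_iff₀ (by exact_mod_cast he0)]
      have : (0:ℝ) ≤ (s.support.card : ℝ) * B.natDegree := by positivity
      linarith
    have h3 := lM_nonneg hF0
    have h4 := lM_nonneg hB
    have h5 : (0:ℝ) ≤ (s.support.card : ℝ) * lM B := by positivity
    have h6 : prox f (f + B * s) ≤ lM (f + B * s) + s.support.card * (6 + lM B) + η := by
      rw [hη]
      exact h1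
    exact h f (f + B * s) hf (by nlinarith) hz

end Pool.Agent.Zk21.Pt
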