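import Mathlib
import Pool.Agent.Zk21.PtE

/-!
# The Wronskian of several polynomials: algebra
-/

set_option autoImplicit false

open Polynomial Metric Real

namespace Pool.Agent.Zk21.Ca

open Pool.Agent.R328 Pool.Agent.Zk21.Smt Pool.Agent.Zk21.Un Pool.Agent.Zk21.Pt

section ring

variable {R : Type*} [CommRing R]

/-- the operator `X d/dX` -/
noncomputable def th (P : R[X]) : R[X] := X * derivative P

lemma th_add (P Q : R[X]) : th (P + Q) = th P + th Q := by
  unfold th
  rw [derivative_add, mul_add]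

lemma th_mul (P Q : R[X]) : th (P * Q) = th P * Q + P * th Q := by
  unfold th
  rw [derivative_mul]
  ring

lemma th_zero : th (0 : R[X]) = 0 := by
  unfold th
  rw [derivative_zero, mul_zero]

lemma th_C (c : R) : th (C c) = 0 := by
  unfold th
  rw [derivative_C, mul_zero]

lemma th_sum {ι : Type*} (s : Finset ι) (P : ι → R[X]) : th (∑ i ∈ s, P i) = ∑ i ∈ s, th (P i) := by
  unfold th
  rw [derivative_sum, Finset.mul_sum]

lemma th_coeff (P : R[X]) (j : ℕ) : (th P).coeff j = j * P.coeff j := by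
  unfold th
  rcases j with _ | j
  · simp
  · rw [coeff_X_mul, coeff_derivative]
    push_cast
    ring

lemma thi_coeff (P : R[X]) (k j : ℕ) : (th^[k] P).coeff j = (j : R) ^ k * P.coeff j := by
  induction k with
  | zero => simp
  | succ k ih =>
    rw [Function.iterate_succ', Function.comp_apply, th_coeff, ih]
    ring

lemma thi_zero (k : ℕ) : th^[k] (0 : R[X]) = 0 := by
  induction k with
  | zero => rfl
  | succ k ih => rw [Function.iterate_succ', Function.comp_apply, ih, th_zero]

lemma thi_sum {ι : Type*} (s : Finset ι) (P : ι → R[X]) (k : ℕ) :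
    th^[k] (∑ i ∈ s, P i) = ∑ i ∈ s, th^[k] (P i) := by
  induction k with
  | zero => rfl
  | succ k ih =>
    rw [Function.iterate_succ', Function.comp_apply, ih, th_sum]
    rfl

lemma th_deg (P : R[X]) : (th P).natDegree ≤ P.natDegree := by
  rw [natDegree_le_iff_coeff_eq_zero]
  intro i hi
  rw [th_coeff, coeff_eq_zero_of_natDegree_lt hi, mul_zero]

lemma thi_deg (P : R[X]) (k : ℕ) : (th^[k] P).natDegree ≤ P.natDegree := by
  induction k with
  | zero => exact le_rfl
  | succ k ih =>
    rw [Function.iterate_succ', Function.comp_apply]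
    exact (th_deg _).trans ih

/-- the Wronskian matrix -/
noncomputable def wm {N : ℕ} (F : Fin N → R[X]) : Matrix (Fin N) (Fin N) R[X] :=
  Matrix.of fun i j => th^[(j : ℕ)] (F i)

/-- the Wronskian -/
noncomputable def wr {N : ℕ} (F : Fin N → R[X]) : R[X] := (wm F).det

/-- one polynomial may be replaced by the sum -/
lemma wr_update {N : ℕ} (F : Fin N → R[X]) (i : Fin N) :
    wr (Function.update F i (∑ l, F l)) = wr F := by
  unfold wr
  have h1 : wm (Function.update F i (∑ l, F l)) =
      (wm F).updateRow i (∑ k, (1 : R[X]) • (wm F) k) := by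
    ext1 a b
    unfold wm
    by_cases h : a = i
    · subst h
      rw [Matrix.updateRow_self]
      simp only [Matrix.of_apply, Function.update_self, one_smul]
      rw [thi_sum]
      exact (Finset.sum_apply b Finset.univ fun (k b : Fin N) => th^[(b : ℕ)] (F k)).symm
    · rw [Matrix.updateRow_ne h]
      simp only [Matrix.of_apply]
      rw [Function.update_of_ne h]
  rw [h1, Matrix.det_updateRow_sum (wm F) i (fun _ => (1 : R[X])), one_smul]

lemma wr_zero {N : ℕ} (F : Fin N → R[X]) {i : Fin N} (h : F i = 0) : wr F = 0 := by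
  unfold wr
  apply Matrix.det_eq_zero_of_row_eq_zero i
  intro j
  unfold wm
  rw [Matrix.of_apply, h, thi_zero]

lemma coeff_prod_top {ι : Type*} (s : Finset ι) (G : ι → R[X]) (d : ι → ℕ)
    (h : ∀ i ∈ s, (G i).natDegree ≤ d i) :
    (∏ i ∈ s, G i).coeff (∑ i ∈ s, d i) = ∏ i ∈ s, (G i).coeff (d i) := by
  classical
  induction s using Finset.induction_on with
  | empty => simp
  | insert a s ha ih =>
    rw [Finset.prod_insert ha, Finset.sum_insert ha, Finset.prod_insert ha,
      coeff_mul_add_eq_of_natDegree_le (h a (Finset.mem_insert_self a s)) ?_,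
      ih fun i hi => h i (Finset.mem_insert_of_mem hi)]
    refine (natDegree_prod_le s G).trans ?_
    exact Finset.sum_le_sum fun i hi => h i (Finset.mem_insert_of_mem hi)

/-- the determinant of the top coefficients -/
lemma det_top {N : ℕ} (d : Fin N → ℕ) (a : Fin N → R) :
    (Matrix.of fun i j : Fin N => (d i : R) ^ (j : ℕ) * a i).det =
      (∏ i, a i) * ∏ i, ∏ j ∈ Finset.Ioi i, ((d j : R) - d i) := by
  have h1 : (Matrix.of fun i j : Fin N => (d i : R) ^ (j : ℕ) * a i) =
      Matrix.of fun i j => a i * (Matrix.vandermonde fun i => (d i : R)) i j := by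
    ext i j
    rw [Matrix.of_apply, Matrix.of_apply, Matrix.vandermonde_apply, mul_comm]
  rw [h1, Matrix.det_mul_column, Matrix.det_vandermonde]

/-- the top coefficient of the Wronskian -/
lemma wr_top {N : ℕ} (F : Fin N → R[X]) :
    (wr F).natDegree ≤ ∑ i, (F i).natDegree ∧
    (wr F).coeff (∑ i, (F i).natDegree) =
      (∏ i, (F i).leadingCoeff) *
        ∏ i, ∏ j ∈ Finset.Ioi i, (((F j).natDegree : R) - (F i).natDegree) := by
  have hsum : ∀ σ : Equiv.Perm (Fin N), ∑ i, (F (σ i)).natDegree = ∑ i, (F i).natDegree :=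
    fun σ => Equiv.sum_comp σ fun i => (F i).natDegree
  constructor
  · unfold wr
    rw [Matrix.det_apply]
    apply natDegree_sum_le_of_forall_le
    intro σ _
    refine (natDegree_smul_le _ _).trans ?_
    refine (natDegree_prod_le _ _).trans ?_
    rw [← hsum σ]
    exact Finset.sum_le_sum fun i _ => thi_deg _ _
  · rw [← det_top (fun i => (F i).natDegree) (fun i => (F i).leadingCoeff)]
    unfold wr
    rw [Matrix.det_apply, Matrix.det_apply, finsetSum_coeff]
    refine Finset.sum_congr rfl fun σ _ => ?_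
    rw [coeff_smul]
    congr 1
    rw [← hsum σ]
    have h1 := coeff_prod_top Finset.univ (fun i : Fin N => th^[(i : ℕ)] (F (σ i)))
      (fun i => (F (σ i)).natDegree) fun i _ => thi_deg _ _
    refine Eq.trans h1 ?_
    refine Finset.prod_congr rfl fun i _ => ?_
    rw [Matrix.of_apply]
    exact thi_coeff _ _ _

lemma coeff_prod_low {ι : Type*} (s : Finset ι) (G : ι → R[X]) (d : ι → ℕ)
    (h : ∀ i ∈ s, X ^ (d i) ∣ G i) :
    X ^ (∑ i ∈ s, d i) ∣ (∏ i ∈ s, G i) ∧
    (∏ i ∈ s, G i).coeff (∑ i ∈ s, d i) = ∏ i ∈ s, (G i).coeff (d i) := by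
  classical
  constructor
  · rw [← Finset.prod_pow_eq_pow_sum]
    exact Finset.prod_dvd_prod_of_dvd _ _ h
  · have h1 : ∀ i ∈ s, ∃ H : R[X], G i = H * X ^ (d i) := by
      intro i hi
      obtain ⟨H, hH⟩ := h i hi
      exact ⟨H, by rw [hH, mul_comm]⟩
    choose! H hH using h1
    rw [Finset.prod_congr rfl hH, Finset.prod_mul_distrib, Finset.prod_pow_eq_pow_sum]
    have h2 := coeff_mul_X_pow (∏ i ∈ s, H i) (∑ i ∈ s, d i) 0
    rw [zero_add] at h2
    rw [h2, coeff_zero_prod]
    refine Finset.prod_congr rfl fun i hi => ?_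
    have h3 := coeff_mul_X_pow (H i) (d i) 0
    rw [zero_add] at h3
    rw [hH i hi, h3]

lemma thi_low (P : R[X]) (k : ℕ) : X ^ P.natTrailingDegree ∣ th^[k] P := by
  rw [X_pow_dvd_iff]
  intro d hd
  rw [thi_coeff, coeff_eq_zero_of_lt_natTrailingDegree hd, mul_zero]

/-- the lowest coefficient of the Wronskian -/
lemma wr_low {N : ℕ} (F : Fin N → R[X]) :
    X ^ (∑ i, (F i).natTrailingDegree) ∣ wr F ∧
    (wr F).coeff (∑ i, (F i).natTrailingDegree) =
      (∏ i, (F i).trailingCoeff) *
        ∏ i, ∏ j ∈ Finset.Ioi i, (((F j).natTrailingDegree : R) - (F i).natTrailingDegree) := by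
  have hsum : ∀ σ : Equiv.Perm (Fin N), ∑ i, (F (σ i)).natTrailingDegree =
      ∑ i, (F i).natTrailingDegree :=
    fun σ => Equiv.sum_comp σ fun i => (F i).natTrailingDegree
  constructor
  · unfold wr
    rw [Matrix.det_apply]
    apply Finset.dvd_sum
    intro σ _
    rw [← hsum σ]
    have h1 : X ^ (∑ i, (F (σ i)).natTrailingDegree) ∣ ∏ i, wm F (σ i) i :=
      (coeff_prod_low Finset.univ (fun i : Fin N => th^[(i : ℕ)] (F (σ i)))
      (fun i => (F (σ i)).natTrailingDegree) fun i _ => thi_low (F (σ i)) i).1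
    obtain ⟨Q, hQ⟩ := h1
    exact ⟨Equiv.Perm.sign σ • Q, by rw [hQ, mul_smul_comm]⟩
  · rw [← det_top (fun i => (F i).natTrailingDegree) (fun i => (F i).trailingCoeff)]
    unfold wr
    rw [Matrix.det_apply, Matrix.det_apply, finsetSum_coeff]
    refine Finset.sum_congr rfl fun σ _ => ?_
    rw [coeff_smul]
    congr 1
    rw [← hsum σ]
    have h1 := (coeff_prod_low Finset.univ (fun i : Fin N => th^[(i : ℕ)] (F (σ i)))
      (fun i => (F (σ i)).natTrailingDegree) fun i _ => thi_low (F (σ i)) i).2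
    refine Eq.trans h1 ?_
    refine Finset.prod_congr rfl fun i _ => ?_
    rw [Matrix.of_apply]
    exact thi_coeff _ _ _

lemma th_map {S : Type*} [CommRing S] (φ : R →+* S) (P : R[X]) : th (P.map φ) = (th P).map φ := by
  unfold th
  rw [Polynomial.map_mul, map_X, derivative_map]

lemma thi_map {S : Type*} [CommRing S] (φ : R →+* S) (P : R[X]) (k : ℕ) :
    th^[k] (P.map φ) = (th^[k] P).map φ := by
  induction k with
  | zero => rfl
  | succ k ih =>
    rw [Function.iterate_succ', Function.comp_apply, ih, th_map]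
    exact congrArg (Polynomial.map φ) (Function.iterate_succ_apply' th k P).symm

lemma wr_map {S : Type*} [CommRing S] (φ : R →+* S) {N : ℕ} (F : Fin N → R[X]) :
    wr (fun i => (F i).map φ) = (wr F).map φ := by
  unfold wr
  have h := RingHom.map_det (mapRingHom φ) (wm F)
  rw [coe_mapRingHom] at h
  rw [h]
  congr 1
  ext1 i j
  unfold wm
  rw [RingHom.mapMatrix_apply, Matrix.map_apply, Matrix.of_apply, Matrix.of_apply, coe_mapRingHom,
    thi_map]

/-- powers survive the operator -/
lemma th_pow_dvd (u : R[X]) (e : ℕ) : u ^ (e - 1) ∣ th (u ^ e) := by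
  unfold th
  rw [derivative_pow]
  exact Dvd.intro (X * (C (e : R) * derivative u)) (by ring)

lemma pow_pred_dvd (u : R[X]) (e : ℕ) : u ^ (e - 1) ∣ u ^ e := pow_dvd_pow u (Nat.sub_le e 1)

lemma th_prod_dvd {ι : Type*} (s : Finset ι) (u : ι → R[X]) (e : ι → ℕ) :
    (∏ l ∈ s, u l ^ (e l - 1)) ∣ th (∏ l ∈ s, u l ^ e l) := by
  classical
  induction s using Finset.induction_on with
  | empty => simp
  | insert a s ha ih =>
    rw [Finset.prod_insert ha, Finset.prod_insert ha, th_mul]
    apply dvd_add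
    · exact mul_dvd_mul (th_pow_dvd _ _) (Finset.prod_dvd_prod_of_dvd _ _ fun l _ => pow_pred_dvd _ _)
    · exact mul_dvd_mul (pow_pred_dvd _ _) ih

/-- the common factor of a column of the Wronskian -/
lemma thi_dvd {ι : Type*} (s : Finset ι) (c : R) (P : R[X]) (u : ι → R[X]) (e : ι → ℕ) (k : ℕ) :
    (C c * ∏ l ∈ s, u l ^ (e l - k)) ∣ th^[k] (C c * P * ∏ l ∈ s, u l ^ e l) := by
  induction k with
  | zero =>
    simp only [Nat.sub_zero, Function.iterate_zero, id_eq]
    exact Dvd.intro P (by ring)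
  | succ k ih =>
    rw [Function.iterate_succ', Function.comp_apply]
    obtain ⟨Q, hQ⟩ := ih
    have h1 : th^[k] (C c * P * ∏ l ∈ s, u l ^ e l) = C c * ((∏ l ∈ s, u l ^ (e l - k)) * Q) := by
      rw [hQ]
      ring
    rw [h1, th_mul, th_C, zero_mul, zero_add, th_mul]
    apply mul_dvd_mul (dvd_refl _)
    have h2 : (∏ l ∈ s, u l ^ (e l - (k + 1))) ∣ th (∏ l ∈ s, u l ^ (e l - k)) := by
      have := th_prod_dvd s u (fun l => e l - k)
      simpa only [Nat.sub_sub] using this
    have h3 : (∏ l ∈ s, u l ^ (e l - (k + 1))) ∣ (∏ l ∈ s, u l ^ (e l - k)) := by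
      apply Finset.prod_dvd_prod_of_dvd
      intro l _
      exact pow_dvd_pow _ (by omega)
    exact dvd_add (h2.mul_right _) (h3.mul_right _)

lemma thi_dvd' {ι : Type*} (s : Finset ι) (c : R) (P : R[X]) (u : ι → R[X]) (e : ι → ℕ) {k m : ℕ}
    (h : k ≤ m) :
    (C c * ∏ l ∈ s, u l ^ (e l - m)) ∣ th^[k] (C c * P * ∏ l ∈ s, u l ^ e l) := by
  refine dvd_trans ?_ (thi_dvd s c P u e k)
  apply mul_dvd_mul (dvd_refl _)
  apply Finset.prod_dvd_prod_of_dvd
  intro l _
  exact pow_dvd_pow _ (by omega)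

/-- the common factor of the Wronskian -/
lemma wr_dvd {N : ℕ} (F Y : Fin N → R[X]) (h : ∀ i, ∀ k < N, Y i ∣ th^[k] (F i)) :
    (∏ i, Y i) ∣ wr F := by
  choose! Q hQ using h
  have h1 : wm F = Matrix.of fun i j => Y i * (Matrix.of fun i j : Fin N => Q i j) i j := by
    ext1 i j
    unfold wm
    rw [Matrix.of_apply, Matrix.of_apply, Matrix.of_apply]
    exact hQ i j j.2
  unfold wr
  rw [h1, Matrix.det_mul_column]
  exact dvd_mul_right _ _

end ring

end Pool.Agent.Zk21.Ca
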