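import Mathlib
import Pool.Agent.Zk21.CaA

/-!
# The second main theorem for several polynomials
-/

set_option autoImplicit false

open Polynomial Metric Real

namespace Pool.Agent.Zk21.Ca

open Pool.Agent.R328 Pool.Agent.Zk21.Smt Pool.Agent.Zk21.Un Pool.Agent.Zk21.Pt

/-- the error term of one polynomial -/
noncomputable def RG (k : ℕ) (c : ℝ) (G : ℂ[X]) : ℂ → ℝ :=
  ∑ l ∈ Finset.range k, FW (th^[l] G) c

lemma RG_int (k : ℕ) (c : ℝ) (G : ℂ[X]) : CircleIntegrable (RG k c G) 0 1 :=
  CircleIntegrable.sum _ fun _ _ => FW_int _ _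

lemma RG_apply (k : ℕ) (c : ℝ) (G : ℂ[X]) (x : ℂ) :
    RG k c G x = ∑ l ∈ Finset.range k, FW (th^[l] G) c x := by
  unfold RG
  rw [Finset.sum_apply]

lemma RG_nonneg (k : ℕ) (c : ℝ) (G : ℂ[X]) (x : ℂ) : 0 ≤ RG k c G x := by
  rw [RG_apply]
  exact Finset.sum_nonneg fun _ _ => FW_nonneg _ _ _

lemma RG_avg (k : ℕ) {n : ℕ} (hn : 0 < n) {G : ℂ[X]} (hG : G.natDegree ≤ n) :
    circleAverage (RG k (4 * n) G) 0 1 ≤ 2 * k := by
  unfold RG
  have hnR : (0:ℝ) < n := by exact_mod_cast hn
  rw [circleAverage_sum fun _ _ => FW_int _ _]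
  have h1 : ∀ l ∈ Finset.range k, circleAverage (FW (th^[l] G) (4 * n)) 0 1 ≤ 2 := by
    intro l _
    have h2 : ((th^[l] G).natDegree : ℝ) ≤ n := by exact_mod_cast (thi_deg G l).trans hG
    refine (FW_avg (P := th^[l] G) (by positivity) (by linarith)).trans ?_
    rw [div_le_iff₀ (by positivity)]
    linarith
  refine (Finset.sum_le_sum h1).trans (le_of_eq ?_)
  rw [Finset.sum_const, Finset.card_range, nsmul_eq_mul]
  ring

/-- the zeros of the iterates -/
def bad (k : ℕ) (G : ℂ[X]) : Set ℂ :=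
  ⋃ l ∈ Finset.range (k + 1), {x | th^[l] G ≠ 0 ∧ (th^[l] G).eval x = 0}

lemma bad_countable (k : ℕ) (G : ℂ[X]) : (bad k G).Countable := by
  unfold bad
  apply Set.Countable.biUnion (Finset.countable_toSet _)
  intro l _
  by_cases h : th^[l] G = 0
  · simp [h]
  · exact (roots_countable h).mono fun x hx => hx.2

lemma not_bad {k : ℕ} {G : ℂ[X]} {x : ℂ} (hx : x ∉ bad k G) {l : ℕ} (hl : l ≤ k)
    (h : th^[l] G ≠ 0) : (th^[l] G).eval x ≠ 0 := by
  intro h0
  apply hx
  unfold bad
  simp only [Set.mem_iUnion]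
  exact ⟨l, Finset.mem_range.mpr (by omega), h, h0⟩

lemma le_exp_posLog {y : ℝ} (hy : 0 ≤ y) : y ≤ exp (log⁺ y) := by
  rcases hy.eq_or_lt with h | h
  · rw [← h]
    exact (exp_pos _).le
  · calc y = exp (log y) := (exp_log h).symm
      _ ≤ _ := exp_le_exp.mpr (le_max_right _ _)

lemma th_eq_WW (P : ℂ[X]) : th P = WW 0 P := by
  unfold th WW
  simp

lemma one_step {P : ℂ[X]} {c : ℝ} (hc : 0 < c) {x : ℂ} (hP : P ≠ 0 → P.eval x ≠ 0) :
    ‖(th P).eval x‖ ≤ ‖P.eval x‖ * (c * exp (FW P c x)) := by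
  by_cases h : P = 0
  · rw [h, th_zero]
    simp
  · have h1 := hP h
    have h2 : 0 < ‖P.eval x‖ := norm_pos_iff.mpr h1
    have h3 := le_exp_posLog (norm_nonneg ((WW 0 P).eval x / (C (c : ℂ) * P).eval x))
    rw [norm_ratio _ _ hc, norm_div] at h3
    have h4 : FW P c x = log⁺ ‖(WW 0 P).eval x / (C (c : ℂ) * P).eval x‖ := rfl
    rw [h4, norm_ratio _ _ hc, norm_div, th_eq_WW]
    rw [div_div, div_le_iff₀ (by positivity)] at h3
    calc _ ≤ _ := h3
      _ = _ := by ring

lemma iter_bound {G : ℂ[X]} {c : ℝ} (hc : 0 < c) {k : ℕ} {x : ℂ} (hx : x ∉ bad k G) {j : ℕ}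
    (hj : j ≤ k) :
    ‖(th^[j] G).eval x‖ ≤ ‖G.eval x‖ * exp (RG k c G x) * c ^ j := by
  have key : ∀ j ≤ k, ‖(th^[j] G).eval x‖ ≤
      ‖G.eval x‖ * exp (∑ l ∈ Finset.range j, FW (th^[l] G) c x) * c ^ j := by
    intro j
    induction j with
    | zero => intro _; simp
    | succ j ih =>
      intro hj
      rw [Function.iterate_succ', Function.comp_apply]
      refine (one_step hc (not_bad hx (by omega))).trans ?_
      have h1 := ih (by omega)
      have h2 : 0 ≤ c * exp (FW (th^[j] G) c x) := by positivity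
      refine (mul_le_mul_of_nonneg_right h1 h2).trans (le_of_eq ?_)
      rw [Finset.sum_range_succ, exp_add]
      ring
  refine (key j hj).trans ?_
  apply mul_le_mul_of_nonneg_right _ (by positivity)
  apply mul_le_mul_of_nonneg_left _ (norm_nonneg _)
  apply exp_le_exp.mpr
  rw [RG_apply]
  apply Finset.sum_le_sum_of_subset_of_nonneg
  · intro l hl
    rw [Finset.mem_range] at hl ⊢
    omega
  · intro l _ _
    exact FW_nonneg _ _ _

lemma det_bound {N : ℕ} (A : Matrix (Fin N) (Fin N) ℂ) (a b : Fin N → ℝ)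
    (h : ∀ i j, ‖A i j‖ ≤ a i * b j) : ‖A.det‖ ≤ N.factorial * ((∏ i, a i) * ∏ j, b j) := by
  rw [Matrix.det_apply]
  refine (norm_sum_le _ _).trans ?_
  have h1 : ∀ σ : Equiv.Perm (Fin N), ‖Equiv.Perm.sign σ • ∏ i, A (σ i) i‖ ≤
      (∏ i, a i) * ∏ j, b j := by
    intro σ
    have h2 : ‖Equiv.Perm.sign σ • ∏ i, A (σ i) i‖ = ‖∏ i, A (σ i) i‖ := by
      rcases Int.units_eq_one_or (Equiv.Perm.sign σ) with h | h <;> simp [h]
    rw [h2, norm_prod]
    calc ∏ i, ‖A (σ i) i‖ ≤ ∏ i, a (σ i) * b i :=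
          Finset.prod_le_prod (fun i _ => norm_nonneg _) fun i _ => h _ _
      _ = _ := by rw [Finset.prod_mul_distrib, Equiv.prod_comp σ a]
  refine (Finset.sum_le_sum fun σ _ => h1 σ).trans (le_of_eq ?_)
  rw [Finset.sum_const, Finset.card_univ, Fintype.card_perm, Fintype.card_fin, nsmul_eq_mul]

lemma wr_eval {N : ℕ} (F : Fin N → ℂ[X]) (x : ℂ) :
    (wr F).eval x = (Matrix.of fun i j : Fin N => (th^[(j : ℕ)] (F i)).eval x).det := by
  unfold wr
  have h := RingHom.map_det (evalRingHom x) (wm F)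
  rw [coe_evalRingHom] at h
  rw [h]
  rfl

lemma wr_log {N : ℕ} {F : Fin N → ℂ[X]} {c : ℝ} (hc : 0 < c) {x : ℂ}
    (hx : ∀ i, x ∉ bad N (F i)) (hF : ∀ i, (F i).eval x ≠ 0) (hW : (wr F).eval x ≠ 0) :
    log ‖(wr F).eval x‖ ≤ log N.factorial + ∑ i, (log ‖(F i).eval x‖ + RG N c (F i) x) +
      (∑ j : Fin N, ((j : ℕ) : ℝ)) * log c := by
  have h1 := det_bound (Matrix.of fun i j : Fin N => (th^[(j : ℕ)] (F i)).eval x)
    (fun i => ‖(F i).eval x‖ * exp (RG N c (F i) x)) (fun j => c ^ (j : ℕ)) (by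
      intro i j
      rw [Matrix.of_apply]
      exact iter_bound hc (hx i) j.2.le)
  rw [← wr_eval] at h1
  have h2 := log_le_log (norm_pos_iff.mpr hW) h1
  have hN : (0:ℝ) < N.factorial := by exact_mod_cast Nat.factorial_pos N
  have ha : ∀ i, 0 < ‖(F i).eval x‖ * exp (RG N c (F i) x) := fun i =>
    mul_pos (norm_pos_iff.mpr (hF i)) (exp_pos _)
  rw [log_mul hN.ne' (mul_pos (Finset.prod_pos fun i _ => ha i)
      (Finset.prod_pos fun j _ => by positivity)).ne',
    log_mul (Finset.prod_pos fun i _ => ha i).ne' (Finset.prod_pos fun j _ => by positivity).ne',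
    log_prod fun i _ => (ha i).ne', log_prod fun j _ => by positivity] at h2
  have h3 : ∀ i, log (‖(F i).eval x‖ * exp (RG N c (F i) x)) = log ‖(F i).eval x‖ + RG N c (F i) x := by
    intro i
    rw [log_mul (norm_ne_zero_iff.mpr (hF i)) (exp_pos _).ne', log_exp]
  have h4 : ∀ j : Fin N, log (c ^ (j : ℕ)) = ((j : ℕ) : ℝ) * log c := fun j => log_pow _ _
  rw [Finset.sum_congr rfl fun i _ => h3 i, Finset.sum_congr rfl fun j _ => h4 j,
    ← Finset.sum_mul] at h2
  linarith

/-- **the second main theorem** -/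
theorem cartan {N : ℕ} (F : Fin N → ℂ[X]) {n : ℕ} (hn : 0 < n) (hF : ∀ i, (F i).natDegree ≤ n)
    (hW : wr F ≠ 0) (i : Fin N) :
    circleAverage (fun x => log⁺ ‖(F i).eval x / (∑ l, F l).eval x‖) 0 1 ≤
      (∑ j, log (F j).mahlerMeasure) - log (wr F).mahlerMeasure +
        (∑ j : Fin N, ((j : ℕ) : ℝ)) * log (4 * n) + log N.factorial + 2 * N * (N + 1) := by
  set f := ∑ l, F l with hf
  have hF0 : ∀ i, F i ≠ 0 := fun i h => hW (wr_zero F h)
  have hf0 : f ≠ 0 := by
    intro h
    apply hW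
    rw [← wr_update F i]
    apply wr_zero _ (i := i)
    rw [Function.update_self]
    exact h
  have hfn : f.natDegree ≤ n := natDegree_sum_le_of_forall_le _ _ fun l _ => hF l
  have hnR : (0:ℝ) < n := by exact_mod_cast hn
  have hc : (0:ℝ) < 4 * n := by positivity
  set c : ℝ := 4 * n with hcdef
  set A : ℝ := (∑ j : Fin N, ((j : ℕ) : ℝ)) * log c + log N.factorial with hA
  have iF : CircleIntegrable (∑ j, fun x => log ‖(F j).eval x‖) 0 1 :=
    CircleIntegrable.sum _ fun _ _ => log_int _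
  have iR : CircleIntegrable (∑ j, RG N c (F j)) 0 1 := CircleIntegrable.sum _ fun _ _ => RG_int _ _ _
  have key : circleAverage (fun x => log⁺ ‖(F i).eval x / f.eval x‖) 0 1 ≤
      circleAverage (((∑ j, fun x => log ‖(F j).eval x‖) - fun x => log ‖(wr F).eval x‖) +
        ((∑ j, RG N c (F j)) + RG N c f) + fun _ => A) 0 1 := by
    apply circleAverage_mono_off (posLog_ratio_int _ _)
      (((iF.sub (log_int _)).add (iR.add (RG_int _ _ _))).add (circleIntegrable_const _ _ _))
      (Z := (((⋃ j ∈ (Finset.univ : Finset (Fin N)), bad N (F j)) ∪ bad N f) ∪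
        {x | (wr F).eval x = 0}))
      (((Set.Countable.biUnion (Finset.countable_toSet _) fun j _ => bad_countable N (F j)).union
        (bad_countable N f)).union (roots_countable hW))
    intro x _ hx
    simp only [Set.mem_union, Set.mem_iUnion, Set.mem_ofPred_eq, not_exists, not_or,
      Finset.mem_univ, not_true_eq_false] at hx
    obtain ⟨⟨hx1, hx2⟩, hx3⟩ := hx
    have hx1' : ∀ j, x ∉ bad N (F j) := fun j h => hx1 j trivial h
    have e1 : ∀ j, (F j).eval x ≠ 0 := fun j => not_bad (l := 0) (hx1' j) (Nat.zero_le _) (hF0 j)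
    have e2 : f.eval x ≠ 0 := not_bad (l := 0) hx2 (Nat.zero_le _) hf0
    have p1 : 0 < ‖(F i).eval x‖ := norm_pos_iff.mpr (e1 i)
    have p2 : 0 < ‖f.eval x‖ := norm_pos_iff.mpr e2
    have q := RG_nonneg N c f x
    have q' := RG_nonneg N c (F i) x
    simp only [Pi.add_apply, Pi.sub_apply, Finset.sum_apply]
    rcases le_total (‖(F i).eval x‖ / ‖f.eval x‖) 1 with h | h
    · have h1 := wr_log hc hx1' e1 hx3
      rw [Finset.sum_add_distrib] at h1
      have h5 : log⁺ ‖(F i).eval x / f.eval x‖ = 0 := by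
        rw [norm_div, posLog_eq_zero_iff, abs_of_nonneg (by positivity)]
        exact h
      rw [h5]
      linarith
    · have h1 : ∀ j, x ∉ bad N (Function.update F i f j) := by
        intro j
        by_cases hj : j = i
        · subst hj
          rw [Function.update_self]
          exact hx2
        · rw [Function.update_of_ne hj]
          exact hx1' j
      have h2 : ∀ j, (Function.update F i f j).eval x ≠ 0 := by
        intro j
        by_cases hj : j = i
        · subst hj
          rw [Function.update_self]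
          exact e2
        · rw [Function.update_of_ne hj]
          exact e1 j
      have h3 : (wr (Function.update F i f)).eval x ≠ 0 := by
        rw [wr_update F i]
        exact hx3
      have h4 := wr_log hc h1 h2 h3
      rw [wr_update F i] at h4
      have h5 : ∑ j, (log ‖(Function.update F i f j).eval x‖ + RG N c (Function.update F i f j) x) =
          (∑ j, (log ‖(F j).eval x‖ + RG N c (F j) x)) - (log ‖(F i).eval x‖ + RG N c (F i) x) +
            (log ‖f.eval x‖ + RG N c f x) := by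
        have g1 := Finset.add_sum_erase Finset.univ
          (fun j => log ‖(Function.update F i f j).eval x‖ + RG N c (Function.update F i f j) x)
          (Finset.mem_univ i)
        have g2 := Finset.add_sum_erase Finset.univ
          (fun j => log ‖(F j).eval x‖ + RG N c (F j) x) (Finset.mem_univ i)
        have g3 : ∑ j ∈ Finset.univ.erase i,
            (log ‖(Function.update F i f j).eval x‖ + RG N c (Function.update F i f j) x) =
            ∑ j ∈ Finset.univ.erase i, (log ‖(F j).eval x‖ + RG N c (F j) x) := by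
          refine Finset.sum_congr rfl fun j hj => ?_
          rw [Function.update_of_ne (Finset.ne_of_mem_erase hj)]
        rw [g3] at g1
        simp only [Function.update_self] at g1
        linarith
      rw [h5, Finset.sum_add_distrib] at h4
      rw [norm_div, posLog_eq_log (by rwa [abs_of_nonneg (by positivity)]), log_div p1.ne' p2.ne']
      linarith
  refine key.trans ?_
  rw [circleAverage_add ((iF.sub (log_int _)).add (iR.add (RG_int _ _ _))) (circleIntegrable_const _ _ _),
    circleAverage_add (iF.sub (log_int _)) (iR.add (RG_int _ _ _)), circleAverage_sub iF (log_int _),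
    circleAverage_add iR (RG_int _ _ _), circleAverage_const, circleAverage_sum fun _ _ => log_int _,
    circleAverage_sum fun _ _ => RG_int _ _ _, log_mahler]
  have h1 : ∑ j, circleAverage (fun x => log ‖(F j).eval x‖) 0 1 = ∑ j, log (F j).mahlerMeasure :=
    Finset.sum_congr rfl fun j _ => log_mahler _
  have h2 : ∑ j, circleAverage (RG N c (F j)) 0 1 ≤ N * (2 * N) := by
    refine (Finset.sum_le_sum fun j _ => RG_avg N hn (hF j)).trans (le_of_eq ?_)
    rw [Finset.sum_const, Finset.card_univ, Fintype.card_fin, nsmul_eq_mul]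
  have h3 := RG_avg N hn hfn
  rw [← hcdef] at h3
  rw [h1]
  linarith

end Pool.Agent.Zk21.Ca
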