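import Mathlib
import Pool.Agent.Zk21.CaB

/-!
# The second main theorem with truncated counting for integer polynomials
-/

set_option autoImplicit false

open Polynomial Metric Real

namespace Pool.Agent.Zk21.Ca

open Pool.Agent.R328 Pool.Agent.Zk21.Smt Pool.Agent.Zk21.Un Pool.Agent.Zk21.Pt

lemma mahler_pos {f : ℤ[X]} (hf : f ≠ 0) : 0 < (f.map (Int.castRingHom ℂ)).mahlerMeasure :=
  mahlerMeasure_pos_of_ne_zero (map_ne hf)

lemma lM_mul {A B : ℤ[X]} (hA : A ≠ 0) (hB : B ≠ 0) : lM (A * B) = lM A + lM B := by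
  unfold lM
  rw [Polynomial.map_mul, mahlerMeasure_mul, log_mul (mahler_pos hA).ne' (mahler_pos hB).ne']

lemma lM_one : lM 1 = 0 := by
  unfold lM
  rw [Polynomial.map_one, mahlerMeasure_one, log_one]

lemma lM_pow {A : ℤ[X]} (hA : A ≠ 0) (e : ℕ) : lM (A ^ e) = e * lM A := by
  induction e with
  | zero => rw [pow_zero, lM_one]; simp
  | succ e ih =>
    rw [pow_succ, lM_mul (pow_ne_zero e hA) hA, ih]
    push_cast
    ring

lemma lM_prod {ι : Type*} (s : Finset ι) (A : ι → ℤ[X]) (hA : ∀ i ∈ s, A i ≠ 0) :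
    lM (∏ i ∈ s, A i) = ∑ i ∈ s, lM (A i) := by
  classical
  induction s using Finset.induction_on with
  | empty => simp [lM_one]
  | insert a s ha ih =>
    rw [Finset.prod_insert ha, Finset.sum_insert ha, lM_mul (hA a (Finset.mem_insert_self a s))
      (Finset.prod_ne_zero_iff.mpr fun i hi => hA i (Finset.mem_insert_of_mem hi)),
      ih fun i hi => hA i (Finset.mem_insert_of_mem hi)]

lemma lM_lc {w : ℤ[X]} (hw : w ≠ 0) : log |(w.leadingCoeff : ℝ)| ≤ lM w := by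
  rw [← lc_map]
  exact log_lead_le (map_ne hw)

lemma lM_tc {w : ℤ[X]} (hw : w ≠ 0) : log |(w.trailingCoeff : ℝ)| ≤ lM w := by
  have h1 : lM w.reverse = lM w := lM_reflect le_rfl
  have h2 : w.reverse ≠ 0 := by
    rw [Ne, ← leadingCoeff_eq_zero, reverse_leadingCoeff, trailingCoeff_eq_zero]
    exact hw
  rw [← h1, ← reverse_leadingCoeff]
  exact lM_lc h2

/-- the lower bound for the Wronskian -/
lemma wr_lower {N : ℕ} (F Y : Fin N → ℤ[X]) (q : Fin N → ℕ) (lam : ℤ[X] → ℤ)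
    (hmul : ∀ A B, lam (A * B) = lam A * lam B) (hlam : ∀ P : ℤ[X], P ≠ 0 → lam P ≠ 0)
    (hlog : ∀ P : ℤ[X], P ≠ 0 → log |(lam P : ℝ)| ≤ lM P)
    (hw : lam (wr F) = (∏ i, lam (F i)) * ∏ i, ∏ j ∈ Finset.Ioi i, ((q j : ℤ) - q i))
    (hY : ∀ i, ∀ k < N, Y i ∣ th^[k] (F i)) (hq : Function.Injective q) (hF : ∀ i, F i ≠ 0)
    (hW : wr F ≠ 0) :
    (∑ i, lM (Y i)) + ∑ i, ∑ j ∈ Finset.Ioi i, log |(q j : ℝ) - q i| ≤ lM (wr F) := by
  obtain ⟨w, hw2⟩ := wr_dvd F Y hY
  have hw0 : w ≠ 0 := by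
    rintro rfl
    rw [mul_zero] at hw2
    exact hW hw2
  have hYF : ∀ i, ∃ Z, F i = Y i * Z := fun i => hY i 0 (Nat.lt_of_le_of_lt (Nat.zero_le i) i.2)
  choose Z hZ using hYF
  have hY0 : ∀ i, Y i ≠ 0 := by
    intro i h
    apply hF i
    rw [hZ i, h, zero_mul]
  have hZ0 : ∀ i, Z i ≠ 0 := by
    intro i h
    apply hF i
    rw [hZ i, h, mul_zero]
  have hP0 : (∏ i, Y i) ≠ 0 := Finset.prod_ne_zero_iff.mpr fun i _ => hY0 i
  have hlamprod : ∀ (A : Fin N → ℤ[X]), (∀ i, A i ≠ 0) → lam (∏ i, A i) = ∏ i, lam (A i) ∨ N = 0 := by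
    intro A hA
    rcases Nat.eq_zero_or_pos N with h | h
    · exact Or.inr h
    left
    have h1 : lam 1 = 1 := by
      have := hmul 1 1
      rw [mul_one] at this
      have h2 := hlam 1 one_ne_zero
      have h3 : lam 1 * 1 = lam 1 * lam 1 := by rw [mul_one]; exact this
      exact (mul_left_cancel₀ h2 h3).symm
    classical
    have h4 : ∀ s : Finset (Fin N), lam (∏ i ∈ s, A i) = ∏ i ∈ s, lam (A i) := by
      intro s
      induction s using Finset.induction_on with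
      | empty => simpa using h1
      | insert a s ha ih => rw [Finset.prod_insert ha, Finset.prod_insert ha, hmul, ih]
    exact h4 _
  have hlw : log |(lam w : ℝ)| ≤ lM w := hlog w hw0
  have hqq : ∀ i, ∀ j ∈ Finset.Ioi i, (q j : ℤ) - q i ≠ 0 := by
    intro i j hj h
    rw [Finset.mem_Ioi] at hj
    have : q j = q i := by omega
    exact hj.ne' (hq this)
  have hV0 : ∀ i, ∀ j ∈ Finset.Ioi i, |(q j : ℝ) - q i| ≠ 0 := by
    intro i j hj h
    apply hqq i j hj
    rw [abs_eq_zero] at h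
    exact_mod_cast h
  have hmain : ∑ i, ∑ j ∈ Finset.Ioi i, log |(q j : ℝ) - q i| ≤ log |(lam w : ℝ)| := by
    rcases Nat.eq_zero_or_pos N with h | h
    · subst h
      rw [Finset.univ_eq_empty, Finset.sum_empty]
      apply log_nonneg
      exact_mod_cast Int.one_le_abs (hlam w hw0)
    have e1 : lam (wr F) = (∏ i, lam (Y i)) * lam w := by
      rw [hw2, hmul]
      rcases hlamprod Y hY0 with h1 | h1
      · rw [h1]
      · omega
    have e2 : ∏ i, lam (F i) = (∏ i, lam (Y i)) * ∏ i, lam (Z i) := by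
      rw [← Finset.prod_mul_distrib]
      exact Finset.prod_congr rfl fun i _ => by rw [hZ i, hmul]
    rw [hw, e2, mul_assoc] at e1
    have e3 : lam w = (∏ i, lam (Z i)) * ∏ i, ∏ j ∈ Finset.Ioi i, ((q j : ℤ) - q i) :=
      (mul_left_cancel₀ (Finset.prod_ne_zero_iff.mpr fun i _ => hlam _ (hY0 i)) e1).symm
    have e4 : |(lam w : ℝ)| = |((∏ i, lam (Z i) : ℤ) : ℝ)| *
        ∏ i, ∏ j ∈ Finset.Ioi i, |(q j : ℝ) - q i| := by
      rw [e3]
      push_cast
      rw [abs_mul, Finset.abs_prod (f := fun i => ∏ j ∈ Finset.Ioi i, ((q j : ℝ) - q i))]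
      congr 1
      exact Finset.prod_congr rfl fun i _ => Finset.abs_prod _ _
    have e5 : 1 ≤ |((∏ i, lam (Z i) : ℤ) : ℝ)| := by
      exact_mod_cast Int.one_le_abs (Finset.prod_ne_zero_iff.mpr fun i _ => hlam _ (hZ0 i))
    have e6 : 0 < ∏ i, ∏ j ∈ Finset.Ioi i, |(q j : ℝ) - q i| := by
      apply Finset.prod_pos
      intro i _
      apply Finset.prod_pos
      intro j hj
      exact lt_of_le_of_ne (abs_nonneg _) (hV0 i j hj).symm
    have e7 : ∏ i, ∏ j ∈ Finset.Ioi i, |(q j : ℝ) - q i| ≤ |(lam w : ℝ)| := by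
      rw [e4]
      nlinarith
    have e8 := log_le_log e6 e7
    rw [log_prod fun i _ => Finset.prod_ne_zero_iff.mpr fun j hj => hV0 i j hj] at e8
    refine le_trans (le_of_eq ?_) e8
    exact Finset.sum_congr rfl fun i _ => (log_prod fun j hj => hV0 i j hj).symm
  have h1 : lM (wr F) = (∑ i, lM (Y i)) + lM w := by
    rw [hw2, lM_mul hP0 hw0, lM_prod _ _ fun i _ => hY0 i]
  rw [h1]
  linarith

lemma vand_ne {N : ℕ} {q : Fin N → ℕ} (hq : Function.Injective q) :
    (∏ i, ∏ j ∈ Finset.Ioi i, ((q j : ℤ) - q i)) ≠ 0 := by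
  rw [Finset.prod_ne_zero_iff]
  intro i _
  rw [Finset.prod_ne_zero_iff]
  intro j hj h
  rw [Finset.mem_Ioi] at hj
  have : q j = q i := by omega
  exact hj.ne' (hq this)

/-- the two ways to separate -/
lemma wr_lower' {N : ℕ} (F Y : Fin N → ℤ[X]) (q : Fin N → ℕ) (hq : Function.Injective q)
    (hq' : (∀ i, q i = (F i).natDegree) ∨ (∀ i, q i = (F i).natTrailingDegree))
    (hY : ∀ i, ∀ k < N, Y i ∣ th^[k] (F i)) (hF : ∀ i, F i ≠ 0) :
    wr F ≠ 0 ∧
    (∑ i, lM (Y i)) + ∑ i, ∑ j ∈ Finset.Ioi i, log |(q j : ℝ) - q i| ≤ lM (wr F) := by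
  rcases hq' with h | h
  · obtain ⟨h1, h2⟩ := wr_top F
    have h3 : (wr F).coeff (∑ i, (F i).natDegree) =
        (∏ i, (F i).leadingCoeff) * ∏ i, ∏ j ∈ Finset.Ioi i, ((q j : ℤ) - q i) := by
      rw [h2]
      simp only [h]
    have h4 : (wr F).coeff (∑ i, (F i).natDegree) ≠ 0 := by
      rw [h3]
      exact mul_ne_zero (Finset.prod_ne_zero_iff.mpr fun i _ => leadingCoeff_ne_zero.mpr (hF i))
        (vand_ne hq)
    have hW : wr F ≠ 0 := by
      intro h5
      rw [h5, coeff_zero] at h4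
      exact h4 rfl
    have h5 : (wr F).natDegree = ∑ i, (F i).natDegree := le_antisymm h1 (le_natDegree_of_ne_zero h4)
    refine ⟨hW, wr_lower F Y q leadingCoeff leadingCoeff_mul (fun P hP => leadingCoeff_ne_zero.mpr hP)
      (fun P hP => lM_lc hP) ?_ hY hq hF hW⟩
    rw [← h3, leadingCoeff, h5]
  · obtain ⟨h1, h2⟩ := wr_low F
    have h3 : (wr F).coeff (∑ i, (F i).natTrailingDegree) =
        (∏ i, (F i).trailingCoeff) * ∏ i, ∏ j ∈ Finset.Ioi i, ((q j : ℤ) - q i) := by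
      rw [h2]
      simp only [h]
    have h4 : (wr F).coeff (∑ i, (F i).natTrailingDegree) ≠ 0 := by
      rw [h3]
      exact mul_ne_zero (Finset.prod_ne_zero_iff.mpr fun i _ => mt trailingCoeff_eq_zero.mp (hF i))
        (vand_ne hq)
    have hW : wr F ≠ 0 := by
      intro h5
      rw [h5, coeff_zero] at h4
      exact h4 rfl
    have h5 : (wr F).natTrailingDegree = ∑ i, (F i).natTrailingDegree := by
      apply le_antisymm (natTrailingDegree_le_of_ne_zero h4)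
      apply le_natTrailingDegree hW
      exact X_pow_dvd_iff.mp h1
    refine ⟨hW, wr_lower F Y q trailingCoeff trailingCoeff_mul (fun P hP => mt trailingCoeff_eq_zero.mp hP)
      (fun P hP => lM_tc hP) ?_ hY hq hF hW⟩
    rw [← h3, trailingCoeff, h5]

lemma sum_Ioi {N : ℕ} (t : ℝ) :
    ∑ i : Fin N, ∑ _j ∈ Finset.Ioi i, t = (∑ j : Fin N, ((j : ℕ) : ℝ)) * t := by
  rw [Finset.sum_comm' (t' := Finset.univ) (s' := fun j => Finset.Iio j) (by
    intro x y
    simp [Finset.mem_Ioi, Finset.mem_Iio])]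
  rw [Finset.sum_mul]
  refine Finset.sum_congr rfl fun j _ => ?_
  rw [Finset.sum_const, Fin.card_Iio, nsmul_eq_mul]

/-- the cost of separating the degrees or the orders -/
noncomputable def sep {N : ℕ} (n : ℕ) (q : Fin N → ℕ) : ℝ :=
  ∑ i, ∑ j ∈ Finset.Ioi i, log (n / |(q j : ℝ) - q i|)

lemma sep_eq {N : ℕ} {n : ℕ} (hn : 0 < n) {q : Fin N → ℕ} (hq : Function.Injective q) :
    sep n q = (∑ j : Fin N, ((j : ℕ) : ℝ)) * log n -
      ∑ i, ∑ j ∈ Finset.Ioi i, log |(q j : ℝ) - q i| := by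
  unfold sep
  rw [← sum_Ioi, ← Finset.sum_sub_distrib]
  refine Finset.sum_congr rfl fun i _ => ?_
  rw [← Finset.sum_sub_distrib]
  refine Finset.sum_congr rfl fun j hj => ?_
  have hnR : (n : ℝ) ≠ 0 := by exact_mod_cast hn.ne'
  rw [log_div hnR]
  intro h
  rw [abs_eq_zero, sub_eq_zero] at h
  rw [Finset.mem_Ioi] at hj
  exact hj.ne' (hq (by exact_mod_cast h))

lemma sep_nonneg {N : ℕ} {n : ℕ} {q : Fin N → ℕ} (hq : Function.Injective q)
    (hqn : ∀ i, q i ≤ n) : 0 ≤ sep n q := by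
  unfold sep
  apply Finset.sum_nonneg
  intro i _
  apply Finset.sum_nonneg
  intro j hj
  rw [Finset.mem_Ioi] at hj
  have h1 : (q j : ℝ) ≤ n := by exact_mod_cast hqn j
  have h2 : (q i : ℝ) ≤ n := by exact_mod_cast hqn i
  have h3 : (0:ℝ) ≤ q i := Nat.cast_nonneg _
  have h4 : (0:ℝ) ≤ q j := Nat.cast_nonneg _
  have h5 : 0 < |(q j : ℝ) - q i| := by
    rw [abs_pos, sub_ne_zero]
    intro h
    exact hj.ne' (hq (by exact_mod_cast h))
  apply log_nonneg
  rw [le_div_iff₀ h5, one_mul, abs_le]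
  constructor <;> linarith

/-- the constant -/
noncomputable def cN (N : ℕ) : ℝ :=
  (∑ j : Fin N, ((j : ℕ) : ℝ)) * log 4 + log N.factorial + 2 * N * (N + 1)

lemma cN_nonneg (N : ℕ) : 0 ≤ cN N := by
  unfold cN
  have h1 : 0 ≤ log 4 := log_nonneg (by norm_num)
  have h2 : 0 ≤ log (N.factorial : ℝ) := log_nonneg (by exact_mod_cast Nat.factorial_pos N)
  positivity

/-- the second main theorem for integer polynomials -/
theorem smt_int {N : ℕ} (F Y : Fin N → ℤ[X]) (q : Fin N → ℕ) (hq : Function.Injective q)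
    (hq' : (∀ i, q i = (F i).natDegree) ∨ (∀ i, q i = (F i).natTrailingDegree))
    (hY : ∀ i, ∀ k < N, Y i ∣ th^[k] (F i)) (hF : ∀ i, F i ≠ 0) {n : ℕ} (hn : 0 < n)
    (hFn : ∀ i, (F i).natDegree ≤ n) (i : Fin N) :
    prox (∑ l, F l) (F i) ≤ (∑ j, (lM (F j) - lM (Y j))) + sep n q + cN N := by
  obtain ⟨hW, h1⟩ := wr_lower' F Y q hq hq' hY hF
  have h2 := cartan (fun i => (F i).map (Int.castRingHom ℂ)) hn (by
    intro i
    rw [natDeg_map]
    exact hFn i) (by
    rw [wr_map]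
    exact map_ne hW) i
  have h3 : (∑ l, F l).map (Int.castRingHom ℂ) = ∑ l, (F l).map (Int.castRingHom ℂ) :=
    Polynomial.map_sum _ _ _
  rw [wr_map, ← h3] at h2
  have hnR : (0:ℝ) < n := by exact_mod_cast hn
  rw [log_mul (by norm_num) hnR.ne'] at h2
  have h4 := sep_eq hn hq
  rw [Finset.sum_sub_distrib, h4]
  unfold prox cN
  unfold lM at h1 ⊢
  linarith

end Pool.Agent.Zk21.Ca
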