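import Mathlib
import Pool.Agent.Zk21.CaC

/-!
# Sums of powers
-/

set_option autoImplicit false

open Polynomial Metric Real

namespace Pool.Agent.Zk21.Ca

open Pool.Agent.R328 Pool.Agent.Zk21.Smt Pool.Agent.Zk21.Un Pool.Agent.Zk21.Pt Pool.Agent.Y820.LB
open Pool.Agent.H261R2.CM (ev1 m1)

/-- the measure of the companion -/
lemma lM_le_prox {f F : ℤ[X]} (hf : f ≠ 0) (hF : F ≠ 0) : lM F ≤ lM f + prox f F := by
  have hfc := map_ne hf
  have hFc := map_ne hF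
  have h1 : circleAverage (fun x => log ‖(F.map (Int.castRingHom ℂ)).eval x‖) 0 1 ≤
      circleAverage ((fun x => log ‖(f.map (Int.castRingHom ℂ)).eval x‖) +
      fun x => log⁺ ‖(F.map (Int.castRingHom ℂ)).eval x / (f.map (Int.castRingHom ℂ)).eval x‖) 0 1 := by
    apply circleAverage_mono_off (log_int _) ((log_int _).add (posLog_ratio_int _ _))
      ((roots_countable hfc).union (roots_countable hFc))
    intro x _ hx
    simp only [Set.mem_union, not_or] at hx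
    have h1 : (f.map (Int.castRingHom ℂ)).eval x ≠ 0 := hx.1
    have h2 : (F.map (Int.castRingHom ℂ)).eval x ≠ 0 := hx.2
    have h1' := norm_pos_iff.mpr h1
    have h2' := norm_pos_iff.mpr h2
    rw [Pi.add_apply, norm_div]
    have g1 : log (‖(F.map (Int.castRingHom ℂ)).eval x‖ / ‖(f.map (Int.castRingHom ℂ)).eval x‖) ≤
        log⁺ (‖(F.map (Int.castRingHom ℂ)).eval x‖ / ‖(f.map (Int.castRingHom ℂ)).eval x‖) :=
      le_max_right _ _
    rw [log_div h2'.ne' h1'.ne'] at g1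
    linarith
  rw [circleAverage_add (log_int _) (posLog_ratio_int _ _), Un.log_mahler, Un.log_mahler] at h1
  exact h1

/-- the factors which are counted with small multiplicity -/
lemma trunc {c : ℤ} (hc : c ≠ 0) {P : ℤ[X]} (hP : P ≠ 0) (s : Finset ℕ) (u : ℕ → ℤ[X])
    (hu : ∀ l ∈ s, u l ≠ 0) (e : ℕ → ℕ) (m : ℕ) {w : ℝ} (hw0 : 0 ≤ w)
    (hw : ∀ l ∈ s, (m : ℝ) ≤ w * e l) :
    lM (C c * P * ∏ l ∈ s, u l ^ e l) - lM (C c * ∏ l ∈ s, u l ^ (e l - m)) ≤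
      lM P + w * lM (C c * P * ∏ l ∈ s, u l ^ e l) := by
  have hC : (C c : ℤ[X]) ≠ 0 := by rwa [Ne, C_eq_zero]
  have hp : ∀ e : ℕ → ℕ, (∏ l ∈ s, u l ^ e l) ≠ 0 := fun e =>
    Finset.prod_ne_zero_iff.mpr fun l hl => pow_ne_zero _ (hu l hl)
  have e1 : ∀ e : ℕ → ℕ, lM (∏ l ∈ s, u l ^ e l) = ∑ l ∈ s, e l * lM (u l) := by
    intro e
    rw [lM_prod _ _ fun l hl => pow_ne_zero _ (hu l hl)]
    exact Finset.sum_congr rfl fun l hl => lM_pow (hu l hl) _
  rw [lM_mul (mul_ne_zero hC hP) (hp _), lM_mul hC hP, lM_mul hC (hp _), e1, e1]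
  have h1 : ∑ l ∈ s, (e l : ℝ) * lM (u l) - ∑ l ∈ s, ((e l - m : ℕ) : ℝ) * lM (u l) ≤
      w * ∑ l ∈ s, (e l : ℝ) * lM (u l) := by
    rw [← Finset.sum_sub_distrib, Finset.mul_sum]
    apply Finset.sum_le_sum
    intro l hl
    have g1 := lM_nonneg (hu l hl)
    have g2 := hw l hl
    have g3 : (e l : ℝ) ≤ ((e l - m : ℕ) : ℝ) + m := by exact_mod_cast (by omega)
    have g4 : (e l : ℝ) - ((e l - m : ℕ) : ℝ) ≤ w * e l := by linarith
    calc _ = ((e l : ℝ) - ((e l - m : ℕ) : ℝ)) * lM (u l) := by ring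
      _ ≤ (w * e l) * lM (u l) := mul_le_mul_of_nonneg_right g4 g1
      _ = _ := by ring
  have h2 := lM_nonneg hC
  have h3 := lM_nonneg hP
  have h4 : 0 ≤ w * (lM (C c) + lM P) := mul_nonneg hw0 (by linarith)
  linarith

/-- the inequality for sums of powers -/
theorem sum_bounds {N n : ℕ} (hn : 0 < n) (F P : Fin N → ℤ[X]) (c : Fin N → ℤ) (s : Fin N → Finset ℕ)
    (u : Fin N → ℕ → ℤ[X]) (e : Fin N → ℕ → ℕ) (w : Fin N → ℝ) (q : Fin N → ℕ)
    (hF : ∀ i, F i = C (c i) * P i * ∏ l ∈ s i, u i l ^ e i l) (hF0 : ∀ i, F i ≠ 0)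
    (hFn : ∀ i, (F i).natDegree ≤ n) (hw0 : ∀ i, 0 ≤ w i)
    (hw : ∀ i, ∀ l ∈ s i, ((N - 1 : ℕ) : ℝ) ≤ w i * e i l) (hw1 : ∑ i, w i < 1)
    (hq : Function.Injective q)
    (hq' : (∀ i, q i = (F i).natDegree) ∨ (∀ i, q i = (F i).natTrailingDegree)) (i : Fin N) :
    (∑ l, F l) ≠ 0 ∧
    (1 - ∑ i, w i) * prox (∑ l, F l) (F i) ≤
      (∑ i, lM (P i)) + sep n q + cN N + (∑ i, w i) * lM (∑ l, F l) ∧
    (1 - ∑ i, w i) * lM (F i) ≤ (∑ i, lM (P i)) + sep n q + cN N + lM (∑ l, F l) := by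
  have hN : 0 < N := Nat.lt_of_le_of_lt (Nat.zero_le i) i.2
  have hc : ∀ i, c i ≠ 0 := by
    intro i h
    apply hF0 i
    rw [hF i, h, C_0, zero_mul, zero_mul]
  have hP : ∀ i, P i ≠ 0 := by
    intro i h
    apply hF0 i
    rw [hF i, h, mul_zero, zero_mul]
  have hu : ∀ i, ∀ l ∈ s i, u i l ^ e i l ≠ 0 := by
    intro i
    have h := hF0 i
    rw [hF i] at h
    exact Finset.prod_ne_zero_iff.mp (right_ne_zero_of_mul h)
  -- factors with exponent zero are harmless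
  set Y : Fin N → ℤ[X] := fun i => C (c i) * ∏ l ∈ s i, u i l ^ (e i l - (N - 1)) with hYdef
  have hY : ∀ i, ∀ k < N, Y i ∣ th^[k] (F i) := by
    intro i k hk
    rw [hF i]
    exact thi_dvd' (s i) (c i) (P i) (u i) (e i) (by omega)
  have h1 := fun i => smt_int F Y q hq hq' hY hF0 hn hFn i
  have hW := (wr_lower' F Y q hq hq' hY hF0).1
  have hf0 : (∑ l, F l) ≠ 0 := by
    intro h
    apply hW
    rw [← wr_update F i]
    apply wr_zero _ (i := i)
    rw [Function.update_self]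
    exact h
  have h2 : ∀ j, lM (F j) - lM (Y j) ≤ lM (P j) + w j * lM (F j) := by
    intro j
    have hu' : ∀ l ∈ s j, e j l ≠ 0 → u j l ≠ 0 := by
      intro l hl hel h0
      have := hu j l hl
      rw [h0, zero_pow hel] at this
      exact this rfl
    rcases Nat.lt_or_ge 1 N with h | h
    · have hu'' : ∀ l ∈ s j, u j l ≠ 0 := by
        intro l hl
        apply hu' l hl
        intro h0
        have h3 := hw j l hl
        rw [h0, Nat.cast_zero, mul_zero] at h3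
        have h4 : (1:ℝ) ≤ ((N - 1 : ℕ) : ℝ) := by exact_mod_cast (by omega : 1 ≤ N - 1)
        linarith
      rw [hF j]
      exact trunc (hc j) (hP j) (s j) (u j) hu'' (e j) (N - 1) (hw0 j) (hw j)
    · have hN1 : N - 1 = 0 := by omega
      have h5 : F j = P j * Y j := by
        rw [hF j, hYdef]
        simp only [hN1, Nat.sub_zero]
        ring
      have h6 : Y j ≠ 0 := by
        intro h7
        apply hF0 j
        rw [h5, h7, mul_zero]
      have h7 := lM_mul (hP j) h6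
      rw [← h5] at h7
      rw [h7]
      have := mul_nonneg (hw0 j) (add_nonneg (lM_nonneg (hP j)) (lM_nonneg h6))
      linarith
  obtain ⟨A, hA⟩ : ∃ A, A = ∑ j, w j * lM (F j) := ⟨_, rfl⟩
  obtain ⟨S, hS⟩ : ∃ S, S = (∑ i, lM (P i)) + sep n q + cN N := ⟨_, rfl⟩
  obtain ⟨θ, hθ⟩ : ∃ θ, θ = ∑ i, w i := ⟨_, rfl⟩
  obtain ⟨m, hm⟩ : ∃ m, m = lM (∑ l, F l) := ⟨_, rfl⟩
  have h3 : ∀ i, prox (∑ l, F l) (F i) ≤ S + A := by
    intro i
    have h4 := Finset.sum_le_sum fun j (_ : j ∈ Finset.univ) => h2 j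
    rw [Finset.sum_add_distrib, ← hA] at h4
    have := h1 i
    rw [hS]
    linarith
  have h4 : ∀ i, lM (F i) ≤ m + S + A := by
    intro i
    have h5 := lM_le_prox hf0 (hF0 i)
    have h6 := h3 i
    rw [← hm] at h5
    linarith
  have h5 : A ≤ θ * (m + S + A) := by
    rw [hA, hθ, Finset.sum_mul]
    refine Finset.sum_le_sum fun j _ => ?_
    rw [← hA]
    exact mul_le_mul_of_nonneg_left (h4 j) (hw0 j)
  have h6 := h3 i
  have h7 := h4 i
  rw [← hθ] at hw1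
  rw [← hθ, ← hS, ← hm]
  refine ⟨hf0, ?_, ?_⟩
  · have g1 : (1 - θ) * prox (∑ l, F l) (F i) ≤ (1 - θ) * (S + A) :=
      mul_le_mul_of_nonneg_left h6 (by linarith)
    nlinarith
  · have g1 : (1 - θ) * lM (F i) ≤ (1 - θ) * (m + S + A) :=
      mul_le_mul_of_nonneg_left h7 (by linarith)
    nlinarith

/-- polynomials with several companions without common zeros outside the circle -/
theorem gap_multi (K : ℝ) : ∃ μ : ℝ, 1 < μ ∧ ∀ (f : ℤ[X]) (N : ℕ) (F : Fin N → ℤ[X]), f ≠ 0 →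
    (∀ i, prox f (F i) ≤ K) →
    (∀ z : ℂ, 1 < ‖z‖ → aeval z f = 0 → ∃ i, aeval z (F i) ≠ 0) →
    (f.map (Int.castRingHom ℂ)).mahlerMeasure = 1 ∨
      μ ≤ (f.map (Int.castRingHom ℂ)).mahlerMeasure := by
  obtain ⟨c, hc1, hc2, h⟩ := pair_gap (log 2 + K)
  refine ⟨c, hc1, ?_⟩
  intro f N F hf hK hz
  by_cases hm : m1 f = 1
  · exact Or.inl hm
  right
  rcases m1_cases f hf hm with h2 | ⟨z, hz0, hz1⟩
  · exact hc2.trans h2
  obtain ⟨i, hi⟩ := hz z hz1 (by rw [aeval_map']; exact hz0)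
  have hdom : Dom (fun t => ‖ev1 (F i) t / ev1 f t‖) (log 2 + K) := by
    obtain ⟨g, g1, g2, g3⟩ := dom_prox f (F i)
    exact ⟨g, g1, g2, g3.trans (by linarith [hK i])⟩
  refine h f (F i) hf _ hdom ?_ z 1 hz1 ?_ ?_
  · filter_upwards [Pool.Agent.H261R2.CM.D_ae_ne f hf] with t ht
    rw [mul_div_cancel₀ _ ht]
  · rw [pow_one]
    exact dvd_iff_isRoot.2 hz0
  · rw [pow_one]
    intro h3
    apply hi
    rw [aeval_map']
    exact dvd_iff_isRoot.1 h3

/-- **the gap for sums of powers** -/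
theorem gap_sum (N : ℕ) (K : ℝ) : ∃ μ : ℝ, 1 < μ ∧ ∀ (n : ℕ) (F P : Fin N → ℤ[X]) (c : Fin N → ℤ)
    (s : Fin N → Finset ℕ) (u : Fin N → ℕ → ℤ[X]) (e : Fin N → ℕ → ℕ) (w : Fin N → ℝ) (q : Fin N → ℕ),
    0 < N → 0 < n → (∀ i, F i = C (c i) * P i * ∏ l ∈ s i, u i l ^ e i l) → (∀ i, F i ≠ 0) →
    (∀ i, (F i).natDegree ≤ n) → (∀ i, 0 ≤ w i) →
    (∀ i, ∀ l ∈ s i, ((N - 1 : ℕ) : ℝ) ≤ w i * e i l) → ∑ i, w i < 1 →
    Function.Injective q →
    ((∀ i, q i = (F i).natDegree) ∨ (∀ i, q i = (F i).natTrailingDegree)) →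
    (∀ z : ℂ, 1 < ‖z‖ → aeval z (∑ l, F l) = 0 → ∃ i, aeval z (F i) ≠ 0) →
    1 + (∑ i, lM (P i)) + sep n q ≤ K * (1 - ∑ i, w i) →
    ((∑ l, F l).map (Int.castRingHom ℂ)).mahlerMeasure = 1 ∨
      μ ≤ ((∑ l, F l).map (Int.castRingHom ℂ)).mahlerMeasure := by
  obtain ⟨μ, hμ, h⟩ := gap_multi ((1 + cN N) * K)
  refine ⟨min μ (exp 1), lt_min hμ (by
    have := add_one_lt_exp (one_ne_zero (α := ℝ))
    linarith), ?_⟩
  intro n F P c s u e w q hN hn hF hF0 hFn hw0 hw hw1 hq hq' hi hK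
  have h1 := (sum_bounds hn F P c s u e w q hF hF0 hFn hw0 hw hw1 hq hq' ⟨0, hN⟩).1
  have hP : ∀ i, P i ≠ 0 := by
    intro i h
    apply hF0 i
    rw [hF i, h, mul_zero, zero_mul]
  have h3 : 0 ≤ ∑ i, lM (P i) := Finset.sum_nonneg fun i _ => lM_nonneg (hP i)
  have h4 : 0 ≤ sep n q := by
    apply sep_nonneg hq
    intro i
    rcases hq' with h5 | h5
    · rw [h5 i]
      exact hFn i
    · rw [h5 i]
      exact (natTrailingDegree_le_natDegree _).trans (hFn i)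
  have h5 := cN_nonneg N
  have h6 : 0 ≤ ∑ i, w i := Finset.sum_nonneg fun i _ => hw0 i
  have hpos := mahler_pos h1
  rcases le_or_gt 1 (lM (∑ l, F l)) with h7 | h7
  · right
    refine (min_le_right _ _).trans ?_
    rw [← le_log_iff_exp_le hpos]
    exact h7
  · have h8 : ∀ i, prox (∑ l, F l) (F i) ≤ (1 + cN N) * K := by
      intro i
      obtain ⟨-, h2, -⟩ := sum_bounds hn F P c s u e w q hF hF0 hFn hw0 hw hw1 hq hq' i
      have g0 : 0 < 1 - ∑ i, w i := by linarith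
      have g1 : (∑ i, w i) * lM (∑ l, F l) ≤ 1 := by
        have := lM_nonneg h1
        nlinarith
      have g2 : (1 - ∑ i, w i) * prox (∑ l, F l) (F i) ≤ (1 - ∑ i, w i) * ((1 + cN N) * K) := by
        have g3 : (1 + cN N) * (1 + (∑ i, lM (P i)) + sep n q) ≤ (1 + cN N) * (K * (1 - ∑ i, w i)) :=
          mul_le_mul_of_nonneg_left hK (by linarith)
        have g4 : 0 ≤ cN N * ((∑ i, lM (P i)) + sep n q) := by positivity
        nlinarith
      exact le_of_mul_le_mul_left g2 g0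
    rcases h _ _ _ h1 h8 hi with h9 | h9
    · exact Or.inl h9
    · exact Or.inr ((min_le_left _ _).trans h9)

end Pool.Agent.Zk21.Ca
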