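import Mathlib

/-!
# Moving targets: the pointwise inequality
-/

set_option autoImplicit false

open Polynomial

namespace Pool.Agent.Zk21.Mv

/-- the value of the line through two points of the derived curve -/
noncomputable def wt (g h : ℂ[X]) (r : ℂ → ℂ → ℂ) (U V : ℂ) (α β : ℂ) : ℂ :=
  V * ((derivative g).eval α * (derivative g).eval β) + U * r α β +
    (-α * r α β + h.eval α * (derivative g).eval β)

lemma wt_eq (g h : ℂ[X]) (r : ℂ → ℂ → ℂ) (U V : ℂ) (α β : ℂ) :
    wt g h r U V α β = (derivative g).eval β * (V * (derivative g).eval α + h.eval α) +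
      (U - α) * r α β := by
  unfold wt
  ring

lemma wt_symm {g h : ℂ[X]} {r : ℂ → ℂ → ℂ} {U V : ℂ} {α β : ℂ} (hne : α ≠ β)
    (h1 : (β - α) * r α β = (derivative g).eval α * h.eval β - h.eval α * (derivative g).eval β)
    (h2 : (α - β) * r β α = (derivative g).eval β * h.eval α - h.eval β * (derivative g).eval α) :
    wt g h r U V β α = wt g h r U V α β := by
  have h3 : r β α = r α β := by
    have h4 : (β - α) * (r β α - r α β) = 0 := by linear_combination -h2 - h1
    rcases mul_eq_zero.mp h4 with h5 | h5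
    · exact absurd (sub_eq_zero.mp h5).symm hne
    · exact sub_eq_zero.mp h5
  unfold wt
  rw [h3]
  linear_combination -h1

/-- the pointwise inequality for moving targets -/
theorem star {S : Finset ℂ} {g h : ℂ[X]} (hg : g = ∏ α ∈ S, (X - C α)) {r : ℂ → ℂ → ℂ}
    {A b : ℝ} (hA : 1 ≤ A) (hb : 1 ≤ b) (hS : ∀ α ∈ S, ‖α‖ ≤ A)
    (hsep : ∀ α ∈ S, ∀ β ∈ S, α ≠ β → 1 ≤ A * ‖α - β‖)
    (hg' : ∀ α ∈ S, ‖(derivative g).eval α‖ ≤ b) (hh : ∀ α ∈ S, ‖h.eval α‖ ≤ b)
    (lg : ∀ α ∈ S, ∀ z, ‖z‖ ≤ 2 * A → ‖(derivative g).eval z - (derivative g).eval α‖ ≤ b * ‖z - α‖)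
    (lh : ∀ α ∈ S, ∀ z, ‖z‖ ≤ 2 * A → ‖h.eval z - h.eval α‖ ≤ b * ‖z - α‖)
    (hr : ∀ α ∈ S, ∀ β ∈ S, ‖r α β‖ ≤ b)
    (hrel : ∀ α ∈ S, ∀ β ∈ S, α ≠ β →
      (β - α) * r α β = (derivative g).eval α * h.eval β - h.eval α * (derivative g).eval β)
    {U V : ℂ} {Λ : ℝ} (hΛ : 1 ≤ Λ) (hV : ‖V‖ ≤ ‖U‖ * Λ)
    (hf : ‖h.eval U + V * (derivative g).eval U‖ ≤ ‖g.eval U‖ * Λ) (hcard : 1 ≤ S.card) :
    ∏ α ∈ S, ∏ β ∈ S, ‖wt g h r U V α β‖ ≤
      (5 * A * b ^ 2 * (4 * A ^ 2) ^ S.card * (max 1 ‖U‖ * Λ)) ^ (S.card ^ 2) *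
        (5 * A * b ^ 2 * (4 * A ^ 2) ^ S.card * (‖g.eval U‖ / max 1 ‖U‖ ^ S.card)) ^
          (2 * S.card - 1) := by
  set k := S.card with hk
  set m : ℝ := max 1 ‖U‖ with hm
  have hm1 : 1 ≤ m := le_max_left _ _
  have hmU : ‖U‖ ≤ m := le_max_right _ _
  have hm0 : 0 < m := by linarith
  set κ : ℝ := 5 * A * b ^ 2 * (4 * A ^ 2) ^ k with hκ
  have h4A : 1 ≤ 4 * A ^ 2 := by nlinarith
  have h4Ak : 1 ≤ (4 * A ^ 2) ^ k := one_le_pow₀ h4A
  have hAb : 1 ≤ A * b ^ 2 := by
    have : 1 ≤ b ^ 2 := one_le_pow₀ hb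
    nlinarith
  have hκ1 : 5 * A * b ^ 2 ≤ κ := by
    rw [hκ]
    have : 0 ≤ 5 * A * b ^ 2 := by positivity
    nlinarith
  have hκ2 : (4 * A ^ 2) ^ k ≤ κ := by
    rw [hκ]
    have h1 : 1 ≤ 5 * A * b ^ 2 := by nlinarith
    nlinarith
  have hκ0 : 1 ≤ κ := by linarith
  set Y : ℝ := κ * (m * Λ) with hY
  set q : ℝ := κ * (‖g.eval U‖ / m ^ k) with hq
  have hmΛ : 1 ≤ m * Λ := by nlinarith
  have hY1 : 1 ≤ Y := by nlinarith
  have hq0 : 0 ≤ q := by positivity
  -- the general bound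
  have gen : ∀ α ∈ S, ∀ β ∈ S, ‖wt g h r U V α β‖ ≤ Y := by
    intro α hα β hβ
    unfold wt
    have e1 : ‖V * ((derivative g).eval α * (derivative g).eval β)‖ ≤ (m * Λ) * b ^ 2 := by
      rw [norm_mul, norm_mul]
      have g1 : ‖(derivative g).eval α‖ * ‖(derivative g).eval β‖ ≤ b ^ 2 := by
        rw [sq]
        exact mul_le_mul (hg' α hα) (hg' β hβ) (norm_nonneg _) (by linarith)
      have g2 : ‖V‖ ≤ m * Λ := hV.trans (mul_le_mul_of_nonneg_right hmU (by linarith))
      exact mul_le_mul g2 g1 (by positivity) (by positivity)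
    have e2 : ‖U * r α β‖ ≤ m * b := by
      rw [norm_mul]
      exact mul_le_mul hmU (hr α hα β hβ) (norm_nonneg _) (by linarith)
    have e3 : ‖-α * r α β‖ ≤ A * b := by
      rw [norm_mul, norm_neg]
      exact mul_le_mul (hS α hα) (hr α hα β hβ) (norm_nonneg _) (by linarith)
    have e4 : ‖h.eval α * (derivative g).eval β‖ ≤ b ^ 2 := by
      rw [norm_mul, sq]
      exact mul_le_mul (hh α hα) (hg' β hβ) (norm_nonneg _) (by linarith)
    have e5 : ‖V * ((derivative g).eval α * (derivative g).eval β) + U * r α β +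
        (-α * r α β + h.eval α * (derivative g).eval β)‖ ≤
        (m * Λ) * b ^ 2 + m * b + (A * b + b ^ 2) :=
      (norm_add_le _ _).trans (add_le_add ((norm_add_le _ _).trans (add_le_add e1 e2))
        ((norm_add_le _ _).trans (add_le_add e3 e4)))
    refine e5.trans ?_
    have f1 : b ≤ A * b ^ 2 := by nlinarith [mul_nonneg (sub_nonneg.mpr hA) (sq_nonneg b)]
    have f2 : b ^ 2 ≤ A * b ^ 2 := by nlinarith [sq_nonneg b]
    have f3 : A * b ≤ A * b ^ 2 := by nlinarith
    have f4 : m ≤ m * Λ := by nlinarith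
    have f5 : m * b ≤ (m * Λ) * (A * b ^ 2) := mul_le_mul f4 f1 (by linarith) (by positivity)
    have f6 : (m * Λ) * b ^ 2 ≤ (m * Λ) * (A * b ^ 2) := mul_le_mul_of_nonneg_left f2 (by positivity)
    have f7 : A * b ≤ (m * Λ) * (A * b ^ 2) := by nlinarith
    have f8 : b ^ 2 ≤ (m * Λ) * (A * b ^ 2) := by nlinarith
    have f9 : (5 * A * b ^ 2) * (m * Λ) ≤ Y := mul_le_mul_of_nonneg_right hκ1 (by positivity)
    nlinarith
  have hfU : ‖g.eval U‖ = ∏ α ∈ S, ‖U - α‖ := by
    rw [hg, eval_prod, norm_prod]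
    refine Finset.prod_congr rfl fun α _ => ?_
    rw [eval_sub, eval_X, eval_C]
  have hk2 : k * k = k ^ 2 := by ring
  by_cases hcase : ∃ α₀ ∈ S, ‖U - α₀‖ ≤ 1 / (2 * A)
  · obtain ⟨α₀, hα₀, hn⟩ := hcase
    have hA0 : 0 < A := by linarith
    have hi : 1 / (2 * A) ≤ A := by
      rw [div_le_iff₀ (by positivity)]
      nlinarith
    have hU2 : ‖U‖ ≤ 2 * A := by
      calc ‖U‖ = ‖(U - α₀) + α₀‖ := by rw [sub_add_cancel]
        _ ≤ ‖U - α₀‖ + ‖α₀‖ := norm_add_le _ _
        _ ≤ 2 * A := by linarith [hS α₀ hα₀]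
    have hm2 : m ≤ 2 * A := max_le (by linarith) hU2
    -- the distance to the target
    have hd : ‖U - α₀‖ ≤ ‖g.eval U‖ * (2 * A) ^ (k - 1) := by
      rw [hfU, ← Finset.mul_prod_erase S _ hα₀]
      have h1 : (1 / (2 * A)) ^ (k - 1) ≤ ∏ β ∈ S.erase α₀, ‖U - β‖ := by
        rw [hk, ← Finset.card_erase_of_mem hα₀, ← Finset.prod_const]
        apply Finset.prod_le_prod
        · intro β _
          positivity
        · intro β hβ
          obtain ⟨hβ1, hβ2⟩ := Finset.mem_erase.mp hβ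
          have h2 := hsep α₀ hα₀ β hβ2 (Ne.symm hβ1)
          have h3 : ‖α₀ - β‖ ≤ ‖U - α₀‖ + ‖U - β‖ := by
            calc ‖α₀ - β‖ = ‖(U - β) - (U - α₀)‖ := by congr 1; ring
              _ ≤ ‖U - β‖ + ‖U - α₀‖ := norm_sub_le _ _
              _ = _ := add_comm _ _
          have h4 : 1 / A ≤ ‖α₀ - β‖ := by
            rw [div_le_iff₀ hA0]
            linarith
          have h5 : 1 / A = 2 * (1 / (2 * A)) := by
            field_simp
          linarith
      have h2 : (1 / (2 * A)) ^ (k - 1) * (2 * A) ^ (k - 1) = 1 := by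
        rw [← mul_pow, one_div_mul_cancel (by positivity), one_pow]
      calc ‖U - α₀‖ = ‖U - α₀‖ * ((1 / (2 * A)) ^ (k - 1) * (2 * A) ^ (k - 1)) := by rw [h2, mul_one]
        _ ≤ ‖U - α₀‖ * ((∏ β ∈ S.erase α₀, ‖U - β‖) * (2 * A) ^ (k - 1)) := by
            apply mul_le_mul_of_nonneg_left _ (norm_nonneg _)
            exact mul_le_mul_of_nonneg_right h1 (by positivity)
        _ = _ := by ring
    set D : ℝ := ‖g.eval U‖ * (2 * A) ^ (k - 1) with hD
    have hD0 : 0 ≤ D := by positivity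
    have h2A1 : 1 ≤ (2 * A) ^ (k - 1) := one_le_pow₀ (by linarith)
    have hfD : ‖g.eval U‖ ≤ D := by
      rw [hD]
      nlinarith [norm_nonneg (g.eval U)]
    have hVD : ‖V‖ ≤ 2 * A * Λ := hV.trans (mul_le_mul_of_nonneg_right hU2 (by linarith))
    have hX : ‖V * (derivative g).eval α₀ + h.eval α₀‖ ≤ 4 * A * b * Λ * D := by
      have e1 : V * (derivative g).eval α₀ + h.eval α₀ = (h.eval U + V * (derivative g).eval U) -
          V * ((derivative g).eval U - (derivative g).eval α₀) - (h.eval U - h.eval α₀) := by ring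
      rw [e1]
      refine (norm_sub_le _ _).trans ?_
      have e2 := norm_sub_le (h.eval U + V * (derivative g).eval U)
        (V * ((derivative g).eval U - (derivative g).eval α₀))
      have e3 := lh α₀ hα₀ U hU2
      have e4 : ‖V * ((derivative g).eval U - (derivative g).eval α₀)‖ ≤
          (2 * A * Λ) * (b * ‖U - α₀‖) := by
        rw [norm_mul]
        exact mul_le_mul hVD (lg α₀ hα₀ U hU2) (norm_nonneg _) (by positivity)
      have e5 : b * ‖U - α₀‖ ≤ b * D := mul_le_mul_of_nonneg_left hd (by linarith)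
      have e6 : (2 * A * Λ) * (b * ‖U - α₀‖) ≤ (2 * A * Λ) * (b * D) :=
        mul_le_mul_of_nonneg_left e5 (by positivity)
      have e7 : ‖g.eval U‖ * Λ ≤ D * Λ := mul_le_mul_of_nonneg_right hfD (by linarith)
      have e8 : D * Λ ≤ A * b * Λ * D := by
        have : 1 ≤ A * b := by nlinarith
        have h0 : 0 ≤ D * Λ := by positivity
        nlinarith
      have e9 : b * D ≤ A * b * Λ * D := by
        have h1 : 1 ≤ A * Λ := by nlinarith
        have h0 : 0 ≤ b * D := by positivity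
        nlinarith
      nlinarith
    have hnear : ∀ β ∈ S, ‖wt g h r U V α₀ β‖ ≤ Y * q := by
      intro β hβ
      rw [wt_eq]
      have e1 : ‖(derivative g).eval β * (V * (derivative g).eval α₀ + h.eval α₀)‖ ≤
          b * (4 * A * b * Λ * D) := by
        rw [norm_mul]
        exact mul_le_mul (hg' β hβ) hX (norm_nonneg _) (by linarith)
      have e2 : ‖(U - α₀) * r α₀ β‖ ≤ D * b := by
        rw [norm_mul]
        exact mul_le_mul hd (hr α₀ hα₀ β hβ) (norm_nonneg _) hD0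
      have e3 : D * b ≤ A * b ^ 2 * Λ * D := by
        have h1 : 1 ≤ A * b * Λ := by
          have : 1 ≤ A * b := by nlinarith
          nlinarith
        have h0 : 0 ≤ D * b := by positivity
        nlinarith
      have e4 : ‖(derivative g).eval β * (V * (derivative g).eval α₀ + h.eval α₀) + (U - α₀) * r α₀ β‖ ≤
          5 * A * b ^ 2 * Λ * D := by
        refine (norm_add_le _ _).trans ?_
        nlinarith
      refine e4.trans ?_
      -- compare
      have e5 : D ≤ (4 * A ^ 2) ^ k * (m * (‖g.eval U‖ / m ^ k)) := by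
        have e6 : ‖g.eval U‖ = m ^ (k - 1) * (m * (‖g.eval U‖ / m ^ k)) := by
          have e7 : m ^ (k - 1) * m = m ^ k := by
            rw [← pow_succ]
            congr 1
            omega
          rw [← mul_assoc, e7, mul_div_cancel₀ _ (pow_ne_zero k hm0.ne')]
        have e8 : m ^ (k - 1) ≤ (2 * A) ^ (k - 1) := pow_le_pow_left₀ hm0.le hm2 _
        have e9 : (2 * A) ^ (k - 1) * (2 * A) ^ (k - 1) ≤ (4 * A ^ 2) ^ k := by
          rw [← mul_pow]
          have e10 : 2 * A * (2 * A) = 4 * A ^ 2 := by ring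
          rw [e10]
          exact pow_le_pow_right₀ h4A (by omega)
        have h0 : 0 ≤ m * (‖g.eval U‖ / m ^ k) := by positivity
        calc D = ‖g.eval U‖ * (2 * A) ^ (k - 1) := rfl
          _ = (m ^ (k - 1) * (m * (‖g.eval U‖ / m ^ k))) * (2 * A) ^ (k - 1) := by rw [← e6]
          _ ≤ ((2 * A) ^ (k - 1) * (m * (‖g.eval U‖ / m ^ k))) * (2 * A) ^ (k - 1) := by
              apply mul_le_mul_of_nonneg_right _ (by positivity)
              exact mul_le_mul_of_nonneg_right e8 h0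
          _ = ((2 * A) ^ (k - 1) * (2 * A) ^ (k - 1)) * (m * (‖g.eval U‖ / m ^ k)) := by ring
          _ ≤ _ := mul_le_mul_of_nonneg_right e9 h0
      calc 5 * A * b ^ 2 * Λ * D ≤ 5 * A * b ^ 2 * Λ * ((4 * A ^ 2) ^ k * (m * (‖g.eval U‖ / m ^ k))) :=
            mul_le_mul_of_nonneg_left e5 (by positivity)
        _ = κ * (m * Λ) * (1 * (‖g.eval U‖ / m ^ k)) := by rw [hκ]; ring
        _ ≤ κ * (m * Λ) * (κ * (‖g.eval U‖ / m ^ k)) := by
            apply mul_le_mul_of_nonneg_left _ (by positivity)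
            exact mul_le_mul_of_nonneg_right hκ0 (by positivity)
        _ = _ := rfl
    have hnear' : ∀ β ∈ S, ‖wt g h r U V β α₀‖ ≤ Y * q := by
      intro β hβ
      by_cases hne : α₀ = β
      · rw [← hne]
        exact hnear α₀ hα₀
      · rw [wt_symm hne (hrel α₀ hα₀ β hβ hne) (hrel β hβ α₀ hα₀ (Ne.symm hne))]
        exact hnear β hβ
    rw [← Finset.mul_prod_erase S _ hα₀]
    have p1 : ∏ β ∈ S, ‖wt g h r U V α₀ β‖ ≤ (Y * q) ^ k := by
      rw [hk, ← Finset.prod_const]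
      exact Finset.prod_le_prod (fun _ _ => norm_nonneg _) fun β hβ => hnear β hβ
    have p2 : ∀ α ∈ S.erase α₀, ∏ β ∈ S, ‖wt g h r U V α β‖ ≤ (Y * q) * Y ^ (k - 1) := by
      intro α hα
      have hα' := (Finset.mem_erase.mp hα).2
      rw [← Finset.mul_prod_erase S _ hα₀]
      apply mul_le_mul (hnear' α hα') _ (Finset.prod_nonneg fun _ _ => norm_nonneg _) (by positivity)
      rw [hk, ← Finset.card_erase_of_mem hα₀, ← Finset.prod_const]
      exact Finset.prod_le_prod (fun _ _ => norm_nonneg _) fun β hβ =>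
        gen α hα' β (Finset.mem_erase.mp hβ).2
    have p3 : ∏ α ∈ S.erase α₀, ∏ β ∈ S, ‖wt g h r U V α β‖ ≤ ((Y * q) * Y ^ (k - 1)) ^ (k - 1) := by
      rw [hk, ← Finset.card_erase_of_mem hα₀, ← Finset.prod_const, Finset.card_erase_of_mem hα₀, ← hk]
      exact Finset.prod_le_prod (fun _ _ => Finset.prod_nonneg fun _ _ => norm_nonneg _) p2
    have hY0 : 0 ≤ Y := by linarith
    refine (mul_le_mul p1 p3 (Finset.prod_nonneg fun _ _ => Finset.prod_nonneg fun _ _ =>
      norm_nonneg _) (by positivity)).trans (le_of_eq ?_)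
    obtain ⟨j, hj⟩ : ∃ j, k = j + 1 := ⟨k - 1, by omega⟩
    have ej : k - 1 = j := by omega
    have ej2 : 2 * k - 1 = 2 * j + 1 := by omega
    rw [ej, ej2, hj]
    ring
  · push Not at hcase
    have hA0 : 0 < A := by linarith
    have hq1 : 1 ≤ q := by
      have h1 : ∀ α ∈ S, m / (4 * A ^ 2) ≤ ‖U - α‖ := by
        intro α hα
        have h2 := hcase α hα
        rcases le_total (2 * A) ‖U‖ with h3 | h3
        · have h4 : ‖U‖ - ‖α‖ ≤ ‖U - α‖ := norm_sub_norm_le _ _
          have h5 := hS α hα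
          have h6 : m = ‖U‖ := max_eq_right (by linarith)
          rw [h6, div_le_iff₀ (by positivity)]
          have h7 : ‖U‖ ≤ 2 * ‖U - α‖ := by linarith
          nlinarith [norm_nonneg (U - α), norm_nonneg U]
        · have h4 : m ≤ 2 * A := max_le (by linarith) h3
          refine le_trans ?_ h2.le
          rw [div_le_div_iff₀ (by positivity) (by positivity)]
          nlinarith
      have h2 : (m / (4 * A ^ 2)) ^ k ≤ ‖g.eval U‖ := by
        rw [hfU, hk, ← Finset.prod_const]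
        exact Finset.prod_le_prod (fun _ _ => by positivity) h1
      have h3 : 1 ≤ (4 * A ^ 2) ^ k * (‖g.eval U‖ / m ^ k) := by
        rw [div_pow] at h2
        rw [div_le_iff₀ (by positivity)] at h2
        rw [← mul_div_assoc, le_div_iff₀ (by positivity)]
        linarith
      refine h3.trans ?_
      exact mul_le_mul_of_nonneg_right hκ2 (by positivity)
    have p1 : ∏ α ∈ S, ∏ β ∈ S, ‖wt g h r U V α β‖ ≤ (Y ^ k) ^ k := by
      conv_rhs => rw [hk, ← Finset.prod_const, ← Finset.prod_const]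
      exact Finset.prod_le_prod (fun _ _ => Finset.prod_nonneg fun _ _ => norm_nonneg _)
        fun α hα => Finset.prod_le_prod (fun _ _ => norm_nonneg _) fun β hβ => gen α hα β hβ
    have h3 : 1 ≤ q ^ (2 * k - 1) := one_le_pow₀ hq1
    calc _ ≤ (Y ^ k) ^ k := p1
      _ = Y ^ (k ^ 2) := by rw [← pow_mul, hk2]
      _ = Y ^ (k ^ 2) * 1 := (mul_one _).symm
      _ ≤ _ := mul_le_mul_of_nonneg_left h3 (by positivity)

end Pool.Agent.Zk21.Mv
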