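import Mathlib
import Pool.Agent.Zk21.MvA

/-!
# Moving targets: the integer polynomial
-/

set_option autoImplicit false

open Polynomial

namespace Pool.Agent.Zk21.Mv

/-- evaluation of integer polynomials at a complex point -/
noncomputable def ev (x : ℂ) : ℤ[X] →+* ℂ := eval₂RingHom (Int.castRingHom ℂ) x

lemma ev_eq (x : ℂ) (P : ℤ[X]) : ev x P = (P.map (Int.castRingHom ℂ)).eval x := by
  unfold ev
  rw [coe_eval₂RingHom, eval_map]

/-- evaluation of a polynomial in two variables -/
noncomputable def ev2 (x α : ℂ) : ℤ[X][X] →+* ℂ := eval₂RingHom (ev x) α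

lemma ev2_C (x α : ℂ) (P : ℤ[X]) : ev2 x α (C P) = ev x P := by
  unfold ev2
  rw [coe_eval₂RingHom, eval₂_C]

lemma ev2_comp (x α : ℂ) : (ev2 x α).comp C = ev x := by
  ext1
  · exact Subsingleton.elim _ _
  · rw [RingHom.comp_apply, ev2_C]

lemma ev2_eq (x α : ℂ) (P : ℤ[X][X]) : ev2 x α P = (P.map (ev x)).eval α := by
  unfold ev2
  rw [coe_eval₂RingHom, eval_map]

/-- the derivation of the coefficients -/
noncomputable def FD (F : ℤ[X][X]) : ℤ[X][X] :=
  ∑ i ∈ Finset.range (F.natDegree + 1), monomial i (X * derivative (F.coeff i))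

/-- the polynomial whose root is the diagonal -/
noncomputable def TT (F : ℤ[X][X]) : ℤ[X][X][X] :=
  (FD F).map C * C (derivative F) - C (FD F) * (derivative F).map C

lemma eval_X_map (P : ℤ[X][X]) : (P.map C).eval X = P := by
  rw [eval_map, eval₂_C_X]

lemma exists_RR (F : ℤ[X][X]) : ∃ R : ℤ[X][X][X], TT F = (X - C X) * R := by
  apply dvd_iff_isRoot.mpr
  rw [IsRoot, TT, eval_sub, eval_mul, eval_mul, eval_C, eval_C, eval_X_map, eval_X_map, sub_self]

/-- the divided difference -/
noncomputable def RR (F : ℤ[X][X]) : ℤ[X][X][X] := (exists_RR F).choose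

lemma RR_spec (F : ℤ[X][X]) : TT F = (X - C X) * RR F := (exists_RR F).choose_spec

noncomputable def rr (F : ℤ[X][X]) (x α β : ℂ) : ℂ := ((RR F).map (ev2 x α)).eval β

lemma map_map_ev2 (F : ℤ[X][X]) (x α : ℂ) : (F.map C).map (ev2 x α) = F.map (ev x) := by
  rw [Polynomial.map_map, ev2_comp]

lemma RR_map (F : ℤ[X][X]) (x α : ℂ) :
    (X - C α) * (RR F).map (ev2 x α) = (FD F).map (ev x) * C ((derivative (F.map (ev x))).eval α) -
      C (((FD F).map (ev x)).eval α) * derivative (F.map (ev x)) := by
  have h := congrArg (Polynomial.map (ev2 x α)) (RR_spec F)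
  rw [TT, Polynomial.map_sub, Polynomial.map_mul, Polynomial.map_mul, Polynomial.map_mul,
    Polynomial.map_sub, map_map_ev2, map_map_ev2, map_C, map_C, map_X, map_C] at h
  rw [ev2_eq, ev2_eq, ev2_eq, map_X, eval_X, ← derivative_map] at h
  exact h.symm

lemma rr_rel (F : ℤ[X][X]) (x α β : ℂ) :
    (β - α) * rr F x α β = (derivative (F.map (ev x))).eval α * ((FD F).map (ev x)).eval β -
      ((FD F).map (ev x)).eval α * (derivative (F.map (ev x))).eval β := by
  have h := congrArg (eval β) (RR_map F x α)
  rw [eval_mul, eval_sub, eval_sub, eval_mul, eval_mul, eval_X, eval_C, eval_C, eval_C] at h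
  unfold rr
  rw [h]
  ring

lemma rr_diag (F : ℤ[X][X]) (x α : ℂ) :
    rr F x α α = (derivative (F.map (ev x))).eval α * (derivative ((FD F).map (ev x))).eval α -
      ((FD F).map (ev x)).eval α * (derivative (derivative (F.map (ev x)))).eval α := by
  have h := congrArg (fun P => (derivative P).eval α) (RR_map F x α)
  simp only [derivative_mul, derivative_sub, derivative_X, derivative_C, eval_add, eval_sub,
    eval_mul, eval_X, eval_C, sub_self, zero_mul, mul_zero, add_zero, zero_add, sub_zero, one_mul] at h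
  unfold rr
  rw [h]
  ring

/-- the form in two points -/
noncomputable def GG (F : ℤ[X][X]) (a b c : ℤ[X]) : ℤ[X][X][X] :=
  C (C a) * (C (derivative F) * (derivative F).map C) + C (C b) * RR F +
    C (C c) * (C (-(X : ℤ[X][X])) * RR F + C (FD F) * (derivative F).map C)

lemma GG_eval (F : ℤ[X][X]) (a b c : ℤ[X]) (x α β : ℂ) :
    ((GG F a b c).map (ev2 x α)).eval β =
      ev x a * ((derivative (F.map (ev x))).eval α * (derivative (F.map (ev x))).eval β) +
        ev x b * rr F x α β +
        ev x c * (-α * rr F x α β + ((FD F).map (ev x)).eval α * (derivative (F.map (ev x))).eval β) := by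
  unfold GG rr
  simp only [Polynomial.map_add, Polynomial.map_mul, map_C, map_map_ev2, eval_add,
    eval_mul, eval_C, ev2_C]
  rw [ev2_eq, ev2_eq, ev2_eq, Polynomial.map_neg, map_X, eval_neg, eval_X, derivative_map]

/-- the double resultant -/
noncomputable def NN (F : ℤ[X][X]) (a b c : ℤ[X]) : ℤ[X] :=
  resultant F (resultant (F.map C) (GG F a b c) F.natDegree (GG F a b c).natDegree) F.natDegree
    (resultant (F.map C) (GG F a b c) F.natDegree (GG F a b c).natDegree).natDegree

lemma natDegree_map_ev {F : ℤ[X][X]} (hF : F.Monic) (x : ℂ) : (F.map (ev x)).natDegree = F.natDegree :=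
  hF.natDegree_map _

lemma NN_eval {F : ℤ[X][X]} (hF : F.Monic) (a b c : ℤ[X]) (x : ℂ) :
    ev x (NN F a b c) = ((F.map (ev x)).roots.map fun α => ((F.map (ev x)).roots.map fun β =>
      ev x a * ((derivative (F.map (ev x))).eval α * (derivative (F.map (ev x))).eval β) +
        ev x b * rr F x α β +
        ev x c * (-α * rr F x α β +
          ((FD F).map (ev x)).eval α * (derivative (F.map (ev x))).eval β)).prod).prod := by
  have hm : (F.map (ev x)).Monic := hF.map _
  have hs : (F.map (ev x)).Splits := IsAlgClosed.splits _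
  have key : ∀ (Q : ℂ[X]) (n : ℕ), Q.natDegree ≤ n →
      resultant (F.map (ev x)) Q F.natDegree n = ((F.map (ev x)).roots.map Q.eval).prod := by
    intro Q n hn
    have h := resultant_eq_prod_eval (F.map (ev x)) Q n hn hs
    rw [hm.leadingCoeff, one_pow, one_mul, natDegree_map_ev hF] at h
    exact h
  unfold NN
  rw [← resultant_map_map, key _ _ natDegree_map_le]
  congr 1
  apply Multiset.map_congr rfl
  intro α _
  rw [← ev2_eq, ← resultant_map_map, map_map_ev2, key _ _ natDegree_map_le]
  congr 1
  apply Multiset.map_congr rfl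
  intro β _
  exact GG_eval F a b c x α β

end Pool.Agent.Zk21.Mv
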