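import Mathlib
import Pool.Agent.Zk21.MvB

/-!
# Moving targets: bounds for the roots
-/

set_option autoImplicit false

open Polynomial

namespace Pool.Agent.Zk21.Mv

lemma pb {P : ℂ[X]} {k : ℕ} (hk : P.natDegree ≤ k) {B ρ : ℝ} (hB : ∀ i, ‖P.coeff i‖ ≤ B)
    (hρ : 1 ≤ ρ) {z : ℂ} (hz : ‖z‖ ≤ ρ) : ‖P.eval z‖ ≤ (k + 1) * B * ρ ^ k := by
  have hB0 : 0 ≤ B := (norm_nonneg _).trans (hB 0)
  rw [eval_eq_sum_range' (Nat.lt_succ_of_le hk)]
  refine (norm_sum_le _ _).trans ?_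
  have h : ∀ i ∈ Finset.range (k + 1), ‖P.coeff i * z ^ i‖ ≤ B * ρ ^ k := by
    intro i hi
    rw [Finset.mem_range] at hi
    rw [norm_mul, norm_pow]
    apply mul_le_mul (hB i) _ (by positivity) hB0
    calc ‖z‖ ^ i ≤ ρ ^ i := pow_le_pow_left₀ (norm_nonneg _) hz i
      _ ≤ ρ ^ k := pow_le_pow_right₀ hρ (by omega)
  refine (Finset.sum_le_sum h).trans (le_of_eq ?_)
  rw [Finset.sum_const, Finset.card_range, nsmul_eq_mul]
  push_cast
  ring

lemma pb_der {P : ℂ[X]} {k : ℕ} (hk : P.natDegree ≤ k) {B : ℝ} (hB : ∀ i, ‖P.coeff i‖ ≤ B) (i : ℕ) :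
    ‖(derivative P).coeff i‖ ≤ k * B := by
  have hB0 : 0 ≤ B := (norm_nonneg _).trans (hB 0)
  rw [coeff_derivative]
  by_cases h : i + 1 ≤ k
  · rw [norm_mul]
    have h1 : ‖((i : ℂ) + 1)‖ ≤ k := by
      have : ((i : ℂ) + 1) = ((i + 1 : ℕ) : ℂ) := by push_cast; ring
      rw [this, Complex.norm_natCast]
      exact_mod_cast h
    calc _ ≤ B * k := mul_le_mul (hB _) h1 (norm_nonneg _) hB0
      _ = _ := mul_comm _ _
  · rw [coeff_eq_zero_of_natDegree_lt (by omega), zero_mul, norm_zero]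
    positivity

lemma der_deg {P : ℂ[X]} {k : ℕ} (hk : P.natDegree ≤ k) : (derivative P).natDegree ≤ k :=
  (natDegree_derivative_le P).trans (by omega)

lemma lip {P : ℂ[X]} {k : ℕ} (hk : P.natDegree ≤ k) {B ρ : ℝ} (hB : ∀ i, ‖P.coeff i‖ ≤ B)
    (hρ : 1 ≤ ρ) {z w : ℂ} (hz : ‖z‖ ≤ ρ) (hw : ‖w‖ ≤ ρ) :
    ‖P.eval z - P.eval w‖ ≤ ((k + 1) * (k * B) * ρ ^ k) * ‖z - w‖ := by
  have h := Convex.norm_image_sub_le_of_norm_deriv_le (𝕜 := ℂ) (f := fun t => P.eval t)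
    (C := (k + 1) * (k * B) * ρ ^ k) (s := Metric.closedBall 0 ρ) (x := w) (y := z)
    (fun t _ => P.differentiableAt) (by
      intro t ht
      rw [Polynomial.deriv]
      exact pb (der_deg hk) (pb_der hk hB) hρ (by simpa using ht))
    (convex_closedBall 0 ρ) (by simpa using hw) (by simpa using hz)
  exact h

/-- a bound for the second difference -/
lemma lip2 {P : ℂ[X]} {k : ℕ} (hk : P.natDegree ≤ k) {B ρ : ℝ} (hB : ∀ i, ‖P.coeff i‖ ≤ B)
    (hρ : 1 ≤ ρ) {α β : ℂ} (hα : ‖α‖ ≤ ρ) (hβ : ‖β‖ ≤ ρ) (h0 : P.eval α = 0) (h1 : P.eval β = 0)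
    (hne : α ≠ β) :
    ‖(derivative P).eval α‖ ≤ ((k + 1) * (k * (k * B)) * ρ ^ k) * ‖α - β‖ := by
  set K : ℝ := (k + 1) * (k * (k * B)) * ρ ^ k with hK
  have hB0 : 0 ≤ B := (norm_nonneg _).trans (hB 0)
  have hK0 : 0 ≤ K := by positivity
  set Q : ℂ[X] := P - C ((derivative P).eval α) * X with hQ
  have h2 := Convex.norm_image_sub_le_of_norm_deriv_le (𝕜 := ℂ) (f := fun t => Q.eval t)
    (C := K * ‖α - β‖) (s := segment ℝ α β) (x := α) (y := β)
    (fun t _ => Q.differentiableAt) (by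
      intro t ht
      rw [Polynomial.deriv, hQ, derivative_sub, derivative_C_mul, derivative_X, mul_one, eval_sub, eval_C]
      have ht1 : ‖t‖ ≤ ρ := by
        have h3 : segment ℝ α β ⊆ Metric.closedBall 0 ρ :=
          (convex_closedBall 0 ρ).segment_subset (by simpa using hα) (by simpa using hβ)
        simpa using h3 ht
      have ht2 : ‖t - α‖ ≤ ‖α - β‖ := by
        have h3 : segment ℝ α β ⊆ Metric.closedBall α ‖α - β‖ :=
          (convex_closedBall α _).segment_subset (by simp) (by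
            rw [Metric.mem_closedBall, dist_comm, dist_eq_norm])
        have h4 := h3 ht
        rw [Metric.mem_closedBall, dist_eq_norm] at h4
        exact h4
      have h5 := lip (der_deg hk) (pb_der hk hB) hρ ht1 hα
      exact h5.trans (mul_le_mul_of_nonneg_left ht2 hK0))
    (convex_segment α β) (left_mem_segment ℝ α β) (right_mem_segment ℝ α β)
  have h3 : Q.eval β - Q.eval α = (derivative P).eval α * (α - β) := by
    rw [hQ]
    simp only [eval_sub, eval_mul, eval_C, eval_X, h0, h1]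
    ring
  rw [h3, norm_mul, norm_sub_rev β α] at h2
  exact le_of_mul_le_mul_right h2 (norm_pos_iff.mpr (sub_ne_zero.mpr hne))

lemma root_bound {P : ℂ[X]} (hP : P.Monic) {B : ℝ} (hB1 : 1 ≤ B) (hB : ∀ i, ‖P.coeff i‖ ≤ B) {α : ℂ}
    (h0 : P.eval α = 0) : ‖α‖ ≤ (P.natDegree + 1) * B := by
  rcases le_total ‖α‖ 1 with h | h
  · refine h.trans ?_
    have : (0:ℝ) ≤ P.natDegree := Nat.cast_nonneg _
    nlinarith
  have hk : 0 < P.natDegree := by
    rcases Nat.eq_zero_or_pos P.natDegree with h1 | h1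
    · rw [hP.natDegree_eq_zero.mp h1, eval_one] at h0
      exact absurd h0 one_ne_zero
    · exact h1
  obtain ⟨j, hj⟩ : ∃ j, P.natDegree = j + 1 := ⟨P.natDegree - 1, by omega⟩
  rw [eval_eq_sum_range, hj, Finset.sum_range_succ, ← hj, coeff_natDegree, hP.leadingCoeff, one_mul,
    hj] at h0
  have h1 : α ^ (j + 1) = - ∑ i ∈ Finset.range (j + 1), P.coeff i * α ^ i := by
    linear_combination h0
  have h2 : ‖α‖ ^ (j + 1) ≤ ((j + 1 : ℕ) : ℝ) * (B * ‖α‖ ^ j) := by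
    rw [← norm_pow, h1, norm_neg]
    refine (norm_sum_le _ _).trans ?_
    have h3 : ∀ i ∈ Finset.range (j + 1), ‖P.coeff i * α ^ i‖ ≤ B * ‖α‖ ^ j := by
      intro i hi
      rw [Finset.mem_range] at hi
      rw [norm_mul, norm_pow]
      exact mul_le_mul (hB i) (pow_le_pow_right₀ h (by omega)) (by positivity) (by linarith)
    refine (Finset.sum_le_sum h3).trans (le_of_eq ?_)
    rw [Finset.sum_const, Finset.card_range, nsmul_eq_mul]
  have h4 : 0 < ‖α‖ ^ j := by positivity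
  rw [pow_succ] at h2
  have h5 : ‖α‖ * ‖α‖ ^ j ≤ (((j + 1 : ℕ) : ℝ) * B) * ‖α‖ ^ j := by linarith
  have h6 := le_of_mul_le_mul_right h5 h4
  rw [hj]
  nlinarith

/-- coefficients grow at most polynomially -/
lemma coeff_growth1 (P : ℤ[X]) : ∃ L : ℝ, 1 ≤ L ∧ ∃ D : ℕ, ∀ x : ℂ, ∀ W : ℝ, 1 ≤ W → ‖x‖ ≤ W →
    ‖ev x P‖ ≤ L * W ^ D := by
  refine ⟨1 + ∑ i ∈ Finset.range (P.natDegree + 1), |(P.coeff i : ℝ)|, ?_, P.natDegree, ?_⟩
  · have : 0 ≤ ∑ i ∈ Finset.range (P.natDegree + 1), |(P.coeff i : ℝ)| := by positivity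
    linarith
  intro x W hW hx
  rw [ev_eq, eval_map, eval₂_eq_sum_range]
  refine (norm_sum_le _ _).trans ?_
  have h : ∀ i ∈ Finset.range (P.natDegree + 1), ‖(Int.castRingHom ℂ) (P.coeff i) * x ^ i‖ ≤
      |(P.coeff i : ℝ)| * W ^ P.natDegree := by
    intro i hi
    rw [Finset.mem_range] at hi
    rw [norm_mul, norm_pow, eq_intCast, Complex.norm_intCast]
    apply mul_le_mul_of_nonneg_left _ (abs_nonneg _)
    calc ‖x‖ ^ i ≤ W ^ i := pow_le_pow_left₀ (norm_nonneg _) hx i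
      _ ≤ W ^ P.natDegree := pow_le_pow_right₀ hW (by omega)
  refine (Finset.sum_le_sum h).trans ?_
  rw [← Finset.sum_mul]
  have : 0 ≤ W ^ P.natDegree := by positivity
  nlinarith

lemma growth_fin (s : Finset ℕ) (P : ℕ → ℤ[X]) : ∃ L : ℝ, 1 ≤ L ∧ ∃ D : ℕ, ∀ i ∈ s, ∀ x : ℂ,
    ∀ W : ℝ, 1 ≤ W → ‖x‖ ≤ W → ‖ev x (P i)‖ ≤ L * W ^ D := by
  induction s using Finset.induction_on with
  | empty => exact ⟨1, le_rfl, 0, by simp⟩
  | insert a s ha ih =>
    obtain ⟨L, hL, D, h⟩ := ih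
    obtain ⟨L', hL', D', h'⟩ := coeff_growth1 (P a)
    refine ⟨L + L', by linarith, D + D', ?_⟩
    intro i hi x W hW hx
    have hW1 : W ^ D ≤ W ^ (D + D') := pow_le_pow_right₀ hW (by omega)
    have hW2 : W ^ D' ≤ W ^ (D + D') := pow_le_pow_right₀ hW (by omega)
    have hW0 : 0 ≤ W ^ (D + D') := by positivity
    rcases Finset.mem_insert.mp hi with h1 | h1
    · rw [h1]
      refine (h' x W hW hx).trans ?_
      nlinarith
    · refine (h i h1 x W hW hx).trans ?_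
      nlinarith

lemma coeff_growth (P : ℤ[X][X]) : ∃ L : ℝ, 1 ≤ L ∧ ∃ D : ℕ, ∀ (x : ℂ) (W : ℝ), 1 ≤ W → ‖x‖ ≤ W →
    ∀ i, ‖(P.map (ev x)).coeff i‖ ≤ L * W ^ D := by
  obtain ⟨L, hL, D, h⟩ := growth_fin (Finset.range (P.natDegree + 1)) P.coeff
  refine ⟨L, hL, D, ?_⟩
  intro x W hW hx i
  rw [coeff_map]
  by_cases hi : i ∈ Finset.range (P.natDegree + 1)
  · exact h i hi x W hW hx
  · rw [Finset.mem_range] at hi
    rw [coeff_eq_zero_of_natDegree_lt (by omega), map_zero, norm_zero]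
    positivity

end Pool.Agent.Zk21.Mv
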