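import Mathlib
import Pool.Agent.Zk21.MvC

/-!
# Moving targets: the geometry of the roots
-/

set_option autoImplicit false

open Polynomial

namespace Pool.Agent.Zk21.Mv

lemma FD_deg (F : ℤ[X][X]) : (FD F).natDegree ≤ F.natDegree := by
  unfold FD
  apply natDegree_sum_le_of_forall_le
  intro i hi
  rw [Finset.mem_range] at hi
  exact (natDegree_monomial_le _).trans (by omega)

lemma o1 {a b : ℝ} (ha : 1 ≤ a) (hb : 1 ≤ b) : 1 ≤ a * b := one_le_mul_of_one_le_of_one_le ha hb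

lemma o2 {a b : ℝ} (ha : 1 ≤ a) (hb : 0 ≤ b) : b ≤ a * b := le_mul_of_one_le_left hb ha

lemma o3 {a b : ℝ} (ha : 1 ≤ a) (hb : 0 ≤ b) : b ≤ b * a := le_mul_of_one_le_right hb ha

lemma cub {k : ℝ} (hk : 0 ≤ k) : k + 1 ≤ (k + 1) ^ 3 ∧ (k + 1) * k ≤ (k + 1) ^ 3 ∧
    (k + 1) * (k * k) ≤ (k + 1) ^ 3 := by
  refine ⟨?_, ?_, ?_⟩ <;> nlinarith [mul_nonneg hk hk, mul_nonneg (mul_nonneg hk hk) hk]

/-- the bounds for the roots at a point -/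
structure Geo (F : ℤ[X][X]) (x : ℂ) (A b : ℝ) : Prop where
  hA : 1 ≤ A
  hb : 1 ≤ b
  nodup : (F.map (ev x)).roots.Nodup
  bd : ∀ α ∈ (F.map (ev x)).roots, ‖α‖ ≤ A
  sep : ∀ α ∈ (F.map (ev x)).roots, ∀ β ∈ (F.map (ev x)).roots, α ≠ β → 1 ≤ A * ‖α - β‖
  der : ∀ α ∈ (F.map (ev x)).roots, 1 ≤ A * ‖(derivative (F.map (ev x))).eval α‖
  gb : ∀ α ∈ (F.map (ev x)).roots, ‖(derivative (F.map (ev x))).eval α‖ ≤ b
  hh : ∀ α ∈ (F.map (ev x)).roots, ‖((FD F).map (ev x)).eval α‖ ≤ b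
  lg : ∀ α ∈ (F.map (ev x)).roots, ∀ z : ℂ, ‖z‖ ≤ 2 * A →
    ‖(derivative (F.map (ev x))).eval z - (derivative (F.map (ev x))).eval α‖ ≤ b * ‖z - α‖
  lh : ∀ α ∈ (F.map (ev x)).roots, ∀ z : ℂ, ‖z‖ ≤ 2 * A →
    ‖((FD F).map (ev x)).eval z - ((FD F).map (ev x)).eval α‖ ≤ b * ‖z - α‖
  rb : ∀ α ∈ (F.map (ev x)).roots, ∀ β ∈ (F.map (ev x)).roots, ‖rr F x α β‖ ≤ b

theorem geo {F : ℤ[X][X]} (hF : F.Monic) {P Q : ℤ[X][X]} {r : ℤ[X]}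
    (hB : P * F + Q * derivative F = C r) : ∃ C₀ : ℝ, 1 ≤ C₀ ∧ ∃ c : ℕ, ∀ (x : ℂ) (W : ℝ), 1 ≤ W →
    ‖x‖ ≤ W → 1 ≤ W * ‖ev x r‖ → ∃ A b : ℝ, Geo F x A b ∧ A ≤ C₀ * W ^ c ∧ b ≤ C₀ * W ^ c := by
  obtain ⟨L₁, hL₁, D₁, h₁⟩ := coeff_growth F
  obtain ⟨L₂, hL₂, D₂, h₂⟩ := coeff_growth (FD F)
  obtain ⟨L₃, hL₃, D₃, h₃⟩ := coeff_growth Q
  obtain ⟨L, hL⟩ : ∃ L, L = L₁ * L₂ * L₃ := ⟨_, rfl⟩
  obtain ⟨D, hD⟩ : ∃ D, D = D₁ + D₂ + D₃ := ⟨_, rfl⟩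
  obtain ⟨k, hk⟩ : ∃ k, k = F.natDegree := ⟨_, rfl⟩
  obtain ⟨q, hq⟩ : ∃ q, q = Q.natDegree := ⟨_, rfl⟩
  have hL12 : 1 ≤ L₁ * L₂ := o1 hL₁ hL₂
  have hL1 : 1 ≤ L := by
    rw [hL]
    exact o1 hL12 hL₃
  have hL1' : L₁ ≤ L := by
    rw [hL]
    exact (o3 hL₂ (by linarith)).trans (o3 hL₃ (by linarith))
  have hL2' : L₂ ≤ L := by
    rw [hL]
    exact (o2 hL₁ (by linarith)).trans (o3 hL₃ (by linarith))
  have hL3' : L₃ ≤ L := by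
    rw [hL]
    exact o2 hL12 (by linarith)
  have hk0 : (0:ℝ) ≤ k := Nat.cast_nonneg _
  have hq0 : (0:ℝ) ≤ q := Nat.cast_nonneg _
  obtain ⟨CA, hCA⟩ : ∃ CA : ℝ, CA = ((k:ℝ) + 1) ^ 3 * L * (((k:ℝ) + 1) * L) ^ k *
    (((q:ℝ) + 1) * L * (((k:ℝ) + 1) * L) ^ q) := ⟨_, rfl⟩
  obtain ⟨cA, hcA⟩ : ∃ cA : ℕ, cA = D + D * k + (1 + (D + D * q)) := ⟨_, rfl⟩
  obtain ⟨CB, hCB⟩ : ∃ CB : ℝ, CB = 2 * CA * (((k:ℝ) + 1) ^ 3 * L * (2 * CA) ^ k) ^ 2 := ⟨_, rfl⟩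
  obtain ⟨cB, hcB⟩ : ∃ cB : ℕ, cB = cA + 2 * (D + cA * k) := ⟨_, rfl⟩
  have hk1 : (1:ℝ) ≤ (k:ℝ) + 1 := by linarith
  have hq1 : (1:ℝ) ≤ (q:ℝ) + 1 := by linarith
  have hkL : 1 ≤ ((k:ℝ) + 1) * L := o1 hk1 hL1
  have hk3 : 1 ≤ ((k:ℝ) + 1) ^ 3 := one_le_pow₀ hk1
  have hCA1 : 1 ≤ CA := by
    rw [hCA]
    exact o1 (o1 (o1 hk3 hL1) (one_le_pow₀ hkL)) (o1 (o1 hq1 hL1) (one_le_pow₀ hkL))
  have hCB0 : 0 ≤ CB := by
    rw [hCB]
    positivity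
  refine ⟨CA + CB, by linarith, cA + cB, ?_⟩
  intro x W hW hx hr
  obtain ⟨B, hBd⟩ : ∃ B, B = L * W ^ D := ⟨_, rfl⟩
  have hWD : 1 ≤ W ^ D := one_le_pow₀ hW
  have hB1 : 1 ≤ B := by
    rw [hBd]
    exact o1 hL1 hWD
  have hcoef : ∀ (R : ℤ[X][X]) (L' : ℝ) (D' : ℕ), (∀ (x : ℂ) (W : ℝ), 1 ≤ W → ‖x‖ ≤ W →
      ∀ i, ‖(R.map (ev x)).coeff i‖ ≤ L' * W ^ D') → L' ≤ L → D' ≤ D → 0 ≤ L' →
      ∀ i, ‖(R.map (ev x)).coeff i‖ ≤ B := by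
    intro R L' D' h hL' hD' h0 i
    refine (h x W hW hx i).trans ?_
    rw [hBd]
    exact mul_le_mul hL' (pow_le_pow_right₀ hW hD') (by positivity) (by linarith)
  have hg := hcoef F L₁ D₁ h₁ hL1' (by omega) (by linarith)
  have hh := hcoef (FD F) L₂ D₂ h₂ hL2' (by omega) (by linarith)
  have hQ := hcoef Q L₃ D₃ h₃ hL3' (by omega) (by linarith)
  set g : ℂ[X] := F.map (ev x) with hgdef
  set h : ℂ[X] := (FD F).map (ev x) with hhdef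
  set Qx : ℂ[X] := Q.map (ev x) with hQx
  have hgm : g.Monic := hF.map _
  have hgd : g.natDegree = k := by rw [hk]; exact natDegree_map_ev hF x
  have hgd' : g.natDegree ≤ k := hgd.le
  have hhd : h.natDegree ≤ k := by
    rw [hk]
    exact natDegree_map_le.trans (FD_deg F)
  have hQd : Qx.natDegree ≤ q := by
    rw [hq]
    exact natDegree_map_le
  obtain ⟨A₁, hA₁⟩ : ∃ A₁ : ℝ, A₁ = ((k:ℝ) + 1) * B := ⟨_, rfl⟩
  have hA11 : 1 ≤ A₁ := by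
    rw [hA₁]
    exact o1 hk1 hB1
  obtain ⟨s, hs⟩ : ∃ s : ℝ, s = W * (((q:ℝ) + 1) * B * A₁ ^ q) := ⟨_, rfl⟩
  obtain ⟨t, ht⟩ : ∃ t : ℝ, t = ((k:ℝ) + 1) ^ 3 * B * A₁ ^ k := ⟨_, rfl⟩
  obtain ⟨A, hA⟩ : ∃ A : ℝ, A = t * s := ⟨_, rfl⟩
  have hs1 : 1 ≤ s := by
    rw [hs]
    exact o1 hW (o1 (o1 hq1 hB1) (one_le_pow₀ hA11))
  have hAk : 1 ≤ A₁ ^ k := one_le_pow₀ hA11
  obtain ⟨cu1, cu2, cu3⟩ := cub hk0
  have ht1 : A₁ ≤ t := by
    have e2 : A₁ ≤ ((k:ℝ) + 1) ^ 3 * B := by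
      rw [hA₁]
      exact mul_le_mul_of_nonneg_right cu1 (by linarith)
    have e3 : 0 ≤ ((k:ℝ) + 1) ^ 3 * B := by positivity
    rw [ht]
    exact e2.trans (o3 hAk e3)
  have hA1 : A₁ ≤ A := by
    rw [hA]
    exact ht1.trans (o3 hs1 (by linarith))
  have hAge : 1 ≤ A := hA11.trans hA1
  have hroot : ∀ α ∈ g.roots, g.eval α = 0 := fun α hα => (mem_roots'.mp hα).2
  have hbd1 : ∀ α ∈ g.roots, ‖α‖ ≤ A₁ := by
    intro α hα
    have := root_bound hgm hB1 hg (hroot α hα)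
    rw [hgd] at this
    rw [hA₁]
    exact this
  -- the derivative at the roots
  have hbez : P.map (ev x) * g + Qx * derivative g = C (ev x r) := by
    have := congrArg (Polynomial.map (ev x)) hB
    rw [Polynomial.map_add, Polynomial.map_mul, Polynomial.map_mul, map_C, ← derivative_map] at this
    exact this
  have hdq : ∀ α ∈ g.roots, Qx.eval α * (derivative g).eval α = ev x r := by
    intro α hα
    have := congrArg (eval α) hbez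
    rw [eval_add, eval_mul, eval_mul, eval_C, hroot α hα, mul_zero, zero_add] at this
    exact this
  have hder1 : ∀ α ∈ g.roots, 1 ≤ s * ‖(derivative g).eval α‖ := by
    intro α hα
    have e1 : ‖Qx.eval α‖ ≤ ((q:ℝ) + 1) * B * A₁ ^ q := pb hQd hQ hA11 (hbd1 α hα)
    have e2 : ‖ev x r‖ ≤ (((q:ℝ) + 1) * B * A₁ ^ q) * ‖(derivative g).eval α‖ := by
      rw [← hdq α hα, norm_mul]
      exact mul_le_mul_of_nonneg_right e1 (norm_nonneg _)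
    calc 1 ≤ W * ‖ev x r‖ := hr
      _ ≤ W * ((((q:ℝ) + 1) * B * A₁ ^ q) * ‖(derivative g).eval α‖) :=
          mul_le_mul_of_nonneg_left e2 (by linarith)
      _ = _ := by rw [hs]; ring
  have hsep : ∀ α ∈ g.roots, ∀ β ∈ g.roots, α ≠ β → 1 ≤ A * ‖α - β‖ := by
    intro α hα β hβ hne
    have e1 := lip2 hgd' hg hA11 (hbd1 α hα) (hbd1 β hβ) (hroot α hα) (hroot β hβ) hne
    have e2 : ((k:ℝ) + 1) * (k * (k * B)) * A₁ ^ k ≤ t := by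
      rw [ht]
      apply mul_le_mul_of_nonneg_right _ (by positivity)
      have : ((k:ℝ) + 1) * (k * (k * B)) = (((k:ℝ) + 1) * (k * k)) * B := by ring
      rw [this]
      exact mul_le_mul_of_nonneg_right cu3 (by linarith)
    have e3 : ‖(derivative g).eval α‖ ≤ t * ‖α - β‖ :=
      e1.trans (mul_le_mul_of_nonneg_right e2 (norm_nonneg _))
    calc 1 ≤ s * ‖(derivative g).eval α‖ := hder1 α hα
      _ ≤ s * (t * ‖α - β‖) := mul_le_mul_of_nonneg_left e3 (by linarith)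
      _ = _ := by rw [hA]; ring
  have hrne : ev x r ≠ 0 := by
    intro h0
    rw [h0, norm_zero, mul_zero] at hr
    linarith
  have hsepb : g.Separable := by
    have h1 : IsUnit (C (ev x r)) := isUnit_C.mpr (isUnit_iff_ne_zero.mpr hrne)
    obtain ⟨v, hv⟩ := h1.exists_left_inv
    refine ⟨v * P.map (ev x), v * Qx, ?_⟩
    rw [← hv, ← hbez]
    ring
  have hnd : g.roots.Nodup := nodup_roots hsepb
  obtain ⟨b₂, hb₂⟩ : ∃ b₂ : ℝ, b₂ = ((k:ℝ) + 1) ^ 3 * B * (2 * A) ^ k := ⟨_, rfl⟩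
  have h2A : 1 ≤ 2 * A := by linarith
  have h2Ak : 0 ≤ (2 * A) ^ k := by positivity
  have hb21 : 1 ≤ b₂ := by
    rw [hb₂]
    exact o1 (o1 hk3 hB1) (one_le_pow₀ h2A)
  have hc1 : ((k:ℝ) + 1) * B * (2 * A) ^ k ≤ b₂ := by
    rw [hb₂]
    apply mul_le_mul_of_nonneg_right _ h2Ak
    exact mul_le_mul_of_nonneg_right cu1 (by linarith)
  have hc2 : ((k:ℝ) + 1) * (k * B) * (2 * A) ^ k ≤ b₂ := by
    rw [hb₂]
    apply mul_le_mul_of_nonneg_right _ h2Ak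
    have : ((k:ℝ) + 1) * (k * B) = (((k:ℝ) + 1) * k) * B := by ring
    rw [this]
    exact mul_le_mul_of_nonneg_right cu2 (by linarith)
  have hc3 : ((k:ℝ) + 1) * (k * (k * B)) * (2 * A) ^ k ≤ b₂ := by
    rw [hb₂]
    apply mul_le_mul_of_nonneg_right _ h2Ak
    have : ((k:ℝ) + 1) * (k * (k * B)) = (((k:ℝ) + 1) * (k * k)) * B := by ring
    rw [this]
    exact mul_le_mul_of_nonneg_right cu3 (by linarith)
  have hbd2 : ∀ α ∈ g.roots, ‖α‖ ≤ 2 * A := fun α hα => (hbd1 α hα).trans (by linarith)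
  have v1 : ∀ α ∈ g.roots, ‖(derivative g).eval α‖ ≤ b₂ := fun α hα =>
    (pb (der_deg hgd') (pb_der hgd' hg) h2A (hbd2 α hα)).trans hc2
  have v2 : ∀ α ∈ g.roots, ‖h.eval α‖ ≤ b₂ := fun α hα => (pb hhd hh h2A (hbd2 α hα)).trans hc1
  have v3 : ∀ α ∈ g.roots, ‖(derivative h).eval α‖ ≤ b₂ := fun α hα =>
    (pb (der_deg hhd) (pb_der hhd hh) h2A (hbd2 α hα)).trans hc2
  have v4 : ∀ α ∈ g.roots, ‖(derivative (derivative g)).eval α‖ ≤ b₂ := fun α hα =>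
    (pb (der_deg (der_deg hgd')) (pb_der (der_deg hgd') (pb_der hgd' hg)) h2A (hbd2 α hα)).trans hc3
  obtain ⟨b, hb⟩ : ∃ b : ℝ, b = 2 * A * b₂ ^ 2 := ⟨_, rfl⟩
  have hb2sq : b₂ ≤ b₂ ^ 2 := le_self_pow₀ hb21 two_ne_zero
  have hbb2 : b₂ ≤ b := by
    rw [hb]
    exact hb2sq.trans (o2 h2A (sq_nonneg _))
  have hA1' : A₁ = (((k:ℝ) + 1) * L) * W ^ D := by
    rw [hA₁, hBd]
    ring
  have e1 : A = CA * W ^ cA := by
    rw [hA, ht, hs, hA1', mul_pow (((k:ℝ) + 1) * L) (W ^ D) k,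
      mul_pow (((k:ℝ) + 1) * L) (W ^ D) q, ← pow_mul, ← pow_mul, hCA, hcA, hBd]
    generalize (((k:ℝ) + 1) * L) ^ k = z₁
    generalize (((k:ℝ) + 1) * L) ^ q = z₂
    ring
  have e2 : b = CB * W ^ cB := by
    rw [hb, hb₂, hCB, hcB, e1, hBd]
    have : 2 * (CA * W ^ cA) = (2 * CA) * W ^ cA := by ring
    rw [this, mul_pow ((2 : ℝ) * CA), ← pow_mul]
    generalize (2 * CA) ^ k = z₁
    ring
  refine ⟨A, b, ⟨hAge, hb21.trans hbb2, hnd, fun α hα => (hbd1 α hα).trans hA1, hsep, ?_,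
    fun α hα => (v1 α hα).trans hbb2, fun α hα => (v2 α hα).trans hbb2, ?_, ?_, ?_⟩, ?_, ?_⟩
  · intro α hα
    have e1 := hder1 α hα
    have e2 : s ≤ A := by
      rw [hA]
      exact o2 (hA11.trans ht1) (by linarith)
    exact e1.trans (mul_le_mul_of_nonneg_right e2 (norm_nonneg _))
  · intro α hα z hz
    exact (lip (der_deg hgd') (pb_der hgd' hg) h2A hz (hbd2 α hα)).trans
      (mul_le_mul_of_nonneg_right (hc3.trans hbb2) (norm_nonneg _))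
  · intro α hα z hz
    exact (lip hhd hh h2A hz (hbd2 α hα)).trans
      (mul_le_mul_of_nonneg_right (hc2.trans hbb2) (norm_nonneg _))
  · intro α hα β hβ
    have hprod : ∀ u v : ℂ, ‖u‖ ≤ b₂ → ‖v‖ ≤ b₂ → ‖u * v‖ ≤ b₂ ^ 2 := by
      intro u v hu hv
      rw [norm_mul, sq]
      exact mul_le_mul hu hv (norm_nonneg _) (by linarith)
    by_cases hne : α = β
    · rw [← hne, rr_diag]
      refine (norm_sub_le _ _).trans ?_
      have e1 := hprod _ _ (v1 α hα) (v3 α hα)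
      have e2 := hprod _ _ (v2 α hα) (v4 α hα)
      rw [hb]
      have : 0 ≤ b₂ ^ 2 := sq_nonneg _
      have e3 : b₂ ^ 2 + b₂ ^ 2 ≤ 2 * A * b₂ ^ 2 := by
        have := o2 hAge this
        linarith
      exact (add_le_add e1 e2).trans e3
    · have e1 := rr_rel F x α β
      have e2 : ‖(β - α) * rr F x α β‖ ≤ b₂ ^ 2 + b₂ ^ 2 := by
        rw [e1]
        exact (norm_sub_le _ _).trans (add_le_add (hprod _ _ (v1 α hα) (v2 β hβ))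
          (hprod _ _ (v2 α hα) (v1 β hβ)))
      have e3 := hsep α hα β hβ hne
      rw [norm_mul, norm_sub_rev] at e2
      calc ‖rr F x α β‖ = 1 * ‖rr F x α β‖ := (one_mul _).symm
        _ ≤ (A * ‖α - β‖) * ‖rr F x α β‖ := mul_le_mul_of_nonneg_right e3 (norm_nonneg _)
        _ = A * (‖α - β‖ * ‖rr F x α β‖) := by ring
        _ ≤ A * (b₂ ^ 2 + b₂ ^ 2) := mul_le_mul_of_nonneg_left e2 (by linarith)
        _ = b := by rw [hb]; ring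
  · rw [e1]
    exact mul_le_mul (by linarith) (pow_le_pow_right₀ hW (by omega)) (by positivity) (by linarith)
  · rw [e2]
    exact mul_le_mul (by linarith) (pow_le_pow_right₀ hW (by omega)) (by positivity) (by linarith)

end Pool.Agent.Zk21.Mv
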