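import Mathlib
import Pool.Agent.Zk21.MvD

/-!
# Moving targets: the logarithmic derivative of a non-vanishing function on a disc
-/

set_option autoImplicit false

open Polynomial Metric

namespace Pool.Agent.Zk21.Mv

/-- a bound for the logarithmic derivative -/
theorem logder_bound {w : ℂ → ℂ} {s : ℂ} {R M : ℝ} (hR : 0 < R)
    (hw : DifferentiableOn ℂ w (ball s R)) (h0 : ∀ z ∈ ball s R, w z ≠ 0) (hM : 0 < M)
    (hup : ∀ z ∈ ball s R, |Real.log ‖w z‖| ≤ M) : ‖deriv w s / w s‖ ≤ 8 * M / R := by
  have hs : s ∈ ball s R := mem_ball_self hR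
  have hφ : DifferentiableOn ℂ (fun z => deriv w z / w z) (ball s R) :=
    (hw.deriv isOpen_ball).div hw h0
  obtain ⟨L, hL0, hL⟩ := hφ.isExactOn_ball.with_val_at s 0
  have hLd : DifferentiableOn ℂ L (ball s R) := fun z hz =>
    (hL z hz).differentiableAt.differentiableWithinAt
  have hconst : ∀ z ∈ ball s R, w z * Complex.exp (-L z) = w s := by
    intro z hz
    have h1 : ∀ z ∈ ball s R, HasDerivAt (fun z => w z * Complex.exp (-L z)) 0 z := by
      intro z hz
      have h2 : HasDerivAt w (deriv w z) z :=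
        ((hw z hz).differentiableAt (isOpen_ball.mem_nhds hz)).hasDerivAt
      have h3 := h2.mul ((hL z hz).neg.cexp)
      have hz0 := h0 z hz
      have e1 : (0:ℂ) = deriv w z * Complex.exp (-L z) + w z * (Complex.exp (-L z) * -(deriv w z / w z)) := by
        have e2 : deriv w z * Complex.exp (-L z) + w z * (Complex.exp (-L z) * -(deriv w z / w z)) =
          Complex.exp (-L z) * (deriv w z - w z * (deriv w z / w z)) := by ring
        rw [e2, mul_div_cancel₀ _ hz0, sub_self, mul_zero]
      rw [e1]
      exact h3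
    have h2 := isOpen_ball.is_const_of_deriv_eq_zero (convex_ball s R).isPreconnected
      (f := fun z => w z * Complex.exp (-L z))
      (fun z hz => (h1 z hz).differentiableAt.differentiableWithinAt)
      (fun z hz => (h1 z hz).deriv) hz hs
    rw [h2, hL0, neg_zero, Complex.exp_zero, mul_one]
  have hre : ∀ z ∈ ball s R, (L z).re ≤ 2 * M := by
    intro z hz
    have h1 := congrArg (fun t => Real.log ‖t‖) (hconst z hz)
    rw [norm_mul, Complex.norm_exp, Real.log_mul (norm_ne_zero_iff.mpr (h0 z hz)) (Real.exp_ne_zero _),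
      Real.log_exp, Complex.neg_re] at h1
    have h2 := (abs_le.mp (hup z hz)).2
    have h3 := (abs_le.mp (hup s hs)).1
    linarith
  set f : ℂ → ℂ := fun t => L (s + t) with hf
  have hmaps : ∀ t ∈ ball (0:ℂ) R, s + t ∈ ball s R := by
    intro t ht
    rw [mem_ball, dist_eq_norm] at ht ⊢
    rw [sub_zero] at ht
    rwa [add_sub_cancel_left]
  have hfd : DifferentiableOn ℂ f (ball 0 R) :=
    hLd.comp (by fun_prop) hmaps
  have hfb : ∀ t ∈ ball (0:ℂ) R, ‖f t‖ ≤ 2 * (2 * M) * ‖t‖ / (R - ‖t‖) := by
    intro t ht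
    exact Complex.borelCaratheodory_zero (by positivity) hfd (fun t ht => hre _ (hmaps t ht)) hR ht
      (by rw [hf]; simp only [add_zero]; exact hL0)
  have hR2 : 0 < R / 2 := by positivity
  have hsub : closedBall (0:ℂ) (R / 2) ⊆ ball 0 R := closedBall_subset_ball (by linarith)
  have h1 : ‖deriv f 0‖ ≤ (4 * M) / (R / 2) := by
    apply Complex.norm_deriv_le_of_forall_mem_sphere_norm_le hR2
    · exact (hfd.mono hsub).diffContOnCl_ball subset_rfl
    · intro t ht
      have h2 := hfb t (hsub (sphere_subset_closedBall ht))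
      have h3 : ‖t‖ = R / 2 := by simpa using ht
      rw [h3] at h2
      refine h2.trans (le_of_eq ?_)
      field_simp
      ring
  have h2 : HasDerivAt f (deriv w s / w s) 0 := by
    have h3 := hL s hs
    have h4 : HasDerivAt L (deriv w s / w s) (s + 0) := by rw [add_zero]; exact h3
    exact h4.comp_const_add s 0
  rw [h2.deriv] at h1
  refine h1.trans (le_of_eq ?_)
  field_simp
  norm_num

end Pool.Agent.Zk21.Mv
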