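import Mathlib
import Pool.Agent.Zk21.MvE

/-!
# Moving targets: analytic branches of an algebraic function
-/

set_option autoImplicit false

open Polynomial Metric Set Filter Topology

namespace Pool.Agent.Zk21.Mv

lemma FD_coeff (G : ℤ[X][X]) (i : ℕ) : (FD G).coeff i = X * derivative (G.coeff i) := by
  unfold FD
  rw [finsetSum_coeff]
  simp only [coeff_monomial]
  rw [Finset.sum_ite_eq' (Finset.range (G.natDegree + 1)) i]
  split_ifs with h
  · rfl
  · rw [Finset.mem_range] at h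
    rw [coeff_eq_zero_of_natDegree_lt (by omega), derivative_zero, mul_zero]

lemma FD_add (G H : ℤ[X][X]) : FD (G + H) = FD G + FD H := by
  ext1 i
  rw [coeff_add, FD_coeff, FD_coeff, FD_coeff, coeff_add, derivative_add, mul_add]

lemma FD_monomial (n : ℕ) (P : ℤ[X]) : FD (monomial n P) = monomial n (X * derivative P) := by
  ext1 i
  rw [FD_coeff, coeff_monomial, coeff_monomial]
  split_ifs
  · rfl
  · rw [derivative_zero, mul_zero]

lemma FD_derivative (G : ℤ[X][X]) : FD (derivative G) = derivative (FD G) := by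
  ext1 i
  rw [FD_coeff, coeff_derivative, coeff_derivative, FD_coeff, derivative_mul]
  have : derivative ((i : ℤ[X]) + 1) = 0 := by
    rw [derivative_add, derivative_natCast, derivative_one, add_zero]
  rw [this]
  ring

lemma ev2_monomial (x y : ℂ) (n : ℕ) (P : ℤ[X]) : ev2 x y (monomial n P) = ev x P * y ^ n := by
  unfold ev2
  rw [coe_eval₂RingHom, eval₂_monomial]

lemma ev_deriv (x : ℂ) (P : ℤ[X]) : HasStrictDerivAt (fun t => ev t P) (ev x (derivative P)) x := by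
  have h := (P.map (Int.castRingHom ℂ)).hasStrictDerivAt x
  rw [derivative_map, ← ev_eq] at h
  have h2 : (fun t => ev t P) = fun t => (P.map (Int.castRingHom ℂ)).eval t := by
    funext t
    rw [ev_eq]
  rw [h2]
  exact h

/-- the strict derivative of a polynomial in two variables -/
lemma strict (G : ℤ[X][X]) (p : ℂ × ℂ) : ∃ A : ℂ, p.1 * A = ev2 p.1 p.2 (FD G) ∧
    HasStrictFDerivAt (fun q : ℂ × ℂ => ev2 q.1 q.2 G)
      (A • ContinuousLinearMap.fst ℂ ℂ ℂ + (ev2 p.1 p.2 (derivative G)) • ContinuousLinearMap.snd ℂ ℂ ℂ)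
      p := by
  induction G using Polynomial.induction_on' with
  | add G H hG hH =>
    obtain ⟨A, hA, hA'⟩ := hG
    obtain ⟨B, hB, hB'⟩ := hH
    refine ⟨A + B, ?_, ?_⟩
    · rw [FD_add, map_add, mul_add, hA, hB]
    · have h := hA'.add hB'
      have e2 : (fun q : ℂ × ℂ => ev2 q.1 q.2 (G + H)) =
          (fun q : ℂ × ℂ => ev2 q.1 q.2 G) + fun q : ℂ × ℂ => ev2 q.1 q.2 H := by
        funext q
        rw [map_add]
        rfl
      rw [e2]
      refine h.congr_fderiv ?_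
      apply ContinuousLinearMap.ext
      rintro ⟨a, b⟩
      simp
      ring
  | monomial n P =>
    refine ⟨ev p.1 (derivative P) * p.2 ^ n, ?_, ?_⟩
    · rw [FD_monomial, ev2_monomial, map_mul]
      have : ev p.1 X = p.1 := by rw [ev_eq, map_X, eval_X]
      rw [this]
      ring
    · have h1 : HasStrictFDerivAt (fun q : ℂ × ℂ => ev q.1 P)
          (ev p.1 (derivative P) • ContinuousLinearMap.fst ℂ ℂ ℂ) p :=
        (ev_deriv p.1 P).comp_hasStrictFDerivAt p hasStrictFDerivAt_fst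
      have h2 : HasStrictFDerivAt (fun q : ℂ × ℂ => q.2 ^ n)
          ((n * p.2 ^ (n - 1)) • ContinuousLinearMap.snd ℂ ℂ ℂ) p :=
        (hasStrictDerivAt_pow n p.2).comp_hasStrictFDerivAt p hasStrictFDerivAt_snd
      have h3 := h1.mul h2
      have e2 : (fun q : ℂ × ℂ => ev2 q.1 q.2 (monomial n P)) =
          (fun q : ℂ × ℂ => ev q.1 P) * fun q : ℂ × ℂ => q.2 ^ n := by
        funext q
        rw [ev2_monomial]
        rfl
      rw [e2]
      refine h3.congr_fderiv ?_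
      rw [derivative_monomial, ev2_monomial, map_mul]
      apply ContinuousLinearMap.ext
      rintro ⟨a, b⟩
      simp
      ring

lemma ev2_cont (G : ℤ[X][X]) : Continuous (fun q : ℂ × ℂ => ev2 q.1 q.2 G) := by
  rw [continuous_iff_continuousAt]
  intro p
  obtain ⟨A, -, h⟩ := strict G p
  exact h.continuousAt

/-- the chain rule along a curve -/
lemma chain (G : ℤ[X][X]) {ρ : ℂ → ℂ} {z ρ' : ℂ} (h : HasDerivAt ρ ρ' z) :
    HasDerivAt (fun t => ev2 (Complex.exp t) (ρ t) G)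
      (ev2 (Complex.exp z) (ρ z) (FD G) + ev2 (Complex.exp z) (ρ z) (derivative G) * ρ') z := by
  obtain ⟨A, hA, h1⟩ := strict G (Complex.exp z, ρ z)
  have h2 : HasDerivAt (fun t => (Complex.exp t, ρ t)) (Complex.exp z, ρ') z :=
    (Complex.hasDerivAt_exp z).prodMk h
  have h3 := h1.hasFDerivAt.comp_hasDerivAt z h2
  have e1 : (A • ContinuousLinearMap.fst ℂ ℂ ℂ + ev2 (Complex.exp z, ρ z).1 (Complex.exp z, ρ z).2
      (derivative G) • ContinuousLinearMap.snd ℂ ℂ ℂ) (Complex.exp z, ρ') =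
      ev2 (Complex.exp z) (ρ z) (FD G) + ev2 (Complex.exp z) (ρ z) (derivative G) * ρ' := by
    rw [← hA]
    simp
    ring
  rw [e1] at h3
  exact h3

/-- the map whose fibres are the roots -/
noncomputable def Psi (F : ℤ[X][X]) (p : ℂ × ℂ) : ℂ × ℂ := (p.1, ev2 p.1 p.2 F)

lemma Psi_cont (F : ℤ[X][X]) : Continuous (Psi F) := continuous_fst.prodMk (ev2_cont F)

lemma Psi_closed {F : ℤ[X][X]} (hF : F.Monic) (hk : 0 < F.natDegree) : IsClosedMap (Psi F) := by
  apply IsProperMap.isClosedMap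
  rw [isProperMap_iff_isCompact_preimage]
  refine ⟨Psi_cont F, ?_⟩
  intro K hK
  apply Metric.isCompact_of_isClosed_isBounded (hK.isClosed.preimage (Psi_cont F))
  obtain ⟨c, hc⟩ := hK.isBounded.exists_norm_le
  obtain ⟨L, hL, D, h⟩ := coeff_growth F
  obtain ⟨W, hW⟩ : ∃ W : ℝ, W = max 1 c := ⟨_, rfl⟩
  have hW1 : 1 ≤ W := by rw [hW]; exact le_max_left _ _
  have hWc : c ≤ W := by rw [hW]; exact le_max_right _ _
  rw [isBounded_iff_forall_norm_le]
  refine ⟨max W ((F.natDegree + 1) * (L * W ^ D + W)), ?_⟩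
  rintro ⟨x, y⟩ hp
  have hp' : ‖Psi F (x, y)‖ ≤ c := hc _ hp
  unfold Psi at hp'
  rw [Prod.norm_def] at hp'
  simp only at hp'
  have h1 : ‖x‖ ≤ c := (le_max_left _ _).trans hp'
  have h2 : ‖ev2 x y F‖ ≤ c := (le_max_right _ _).trans hp'
  have hm : (F.map (ev x)).Monic := hF.map _
  have hd : (F.map (ev x)).natDegree = F.natDegree := natDegree_map_ev hF x
  have hlt : (C (ev2 x y F)).degree < (F.map (ev x)).degree := by
    refine degree_C_le.trans_lt ?_
    rw [degree_eq_natDegree hm.ne_zero, hd]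
    exact_mod_cast hk
  have hm' : (F.map (ev x) - C (ev2 x y F)).Monic := hm.sub_of_left hlt
  have hd' : (F.map (ev x) - C (ev2 x y F)).natDegree = F.natDegree := by
    rw [natDegree_sub_C, hd]
  have hroot : (F.map (ev x) - C (ev2 x y F)).eval y = 0 := by
    rw [eval_sub, eval_C, ← ev2_eq, sub_self]
  have hB1 : 1 ≤ L * W ^ D + W := by
    have : 0 ≤ L * W ^ D := by positivity
    linarith
  have hco : ∀ i, ‖(F.map (ev x) - C (ev2 x y F)).coeff i‖ ≤ L * W ^ D + W := by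
    intro i
    rw [coeff_sub]
    refine (norm_sub_le _ _).trans (add_le_add (h x W hW1 (h1.trans hWc) i) ?_)
    rw [coeff_C]
    split_ifs
    · exact h2.trans hWc
    · rw [norm_zero]
      linarith
  have hy := root_bound hm' hB1 hco hroot
  rw [hd'] at hy
  rw [Prod.norm_def]
  exact max_le ((h1.trans hWc).trans (le_max_left _ _)) (hy.trans (le_max_right _ _))

/-- the covering -/
theorem cov {F : ℤ[X][X]} (hF : F.Monic) (hk : 0 < F.natDegree) {P Q : ℤ[X][X]} {r : ℤ[X]}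
    (hB : P * F + Q * derivative F = C r) :
    IsCoveringMapOn (Psi F) {p : ℂ × ℂ | ev p.1 r ≠ 0 ∧ p.2 = 0} := by
  apply (Psi_closed hF hk).isCoveringMapOn_of_isLocalHomeomorphOn
  · rintro ⟨x, v⟩ ⟨-, hv⟩
    simp only at hv
    subst hv
    apply Set.Finite.subset (((Set.finite_singleton x).prod
      (F.map (ev x)).roots.toFinset.finite_toSet))
    rintro ⟨x', y⟩ hp
    have hp' : Psi F (x', y) = (x, 0) := hp
    unfold Psi at hp'
    rw [Prod.mk.injEq] at hp'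
    obtain ⟨h1, h2⟩ := hp'
    simp only at h1 h2
    subst h1
    rw [Set.mem_prod]
    refine ⟨rfl, ?_⟩
    simp only [Finset.mem_coe, Multiset.mem_toFinset]
    rw [mem_roots (hF.map _).ne_zero, IsRoot, ← ev2_eq]
    exact h2
  · rintro ⟨x, y⟩ hp
    obtain ⟨h1, h2⟩ := hp
    have h1' : ev x r ≠ 0 := h1
    have h2' : ev2 x y F = 0 := h2
    have h3 : ev2 x y (derivative F) ≠ 0 := by
      intro h0
      have := congrArg (ev2 x y) hB
      rw [map_add, map_mul, map_mul, h2', h0, mul_zero, mul_zero, zero_add, ev2_C] at this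
      exact h1' this.symm
    obtain ⟨A, -, h4⟩ := strict F (x, y)
    have h5 : HasStrictFDerivAt (Psi F)
        (((ContinuousLinearEquiv.refl ℂ ℂ).skewProd
          (ContinuousLinearEquiv.unitsEquivAut ℂ (Units.mk0 _ h3))
          (A • ContinuousLinearMap.id ℂ ℂ) : (ℂ × ℂ) ≃L[ℂ] (ℂ × ℂ)) : (ℂ × ℂ) →L[ℂ] (ℂ × ℂ)) (x, y) := by
      have h6 := (hasStrictFDerivAt_fst (𝕜 := ℂ) (E := ℂ) (F := ℂ) (p := (x, y))).prodMk h4
      refine h6.congr_fderiv ?_
      apply ContinuousLinearMap.ext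
      rintro ⟨a, b⟩
      simp [ContinuousLinearEquiv.skewProd_apply]
      ring
    exact ⟨_, h5.mem_toOpenPartialHomeomorph_source, by simp⟩

/-- a branch on a disc, `x = exp z` -/
structure IsBr (F : ℤ[X][X]) (s : ℂ) (R : ℝ) (ρ : ℂ → ℂ) : Prop where
  cont : ContinuousOn ρ (ball s R)
  root : ∀ z ∈ ball s R, ev2 (Complex.exp z) (ρ z) F = 0

lemma lifts {F : ℤ[X][X]} (hF : F.Monic) (hk : 0 < F.natDegree) {P Q : ℤ[X][X]} {r : ℤ[X]}
    (hB : P * F + Q * derivative F = C r) {s : ℂ} {R : ℝ} (hR : 0 < R)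
    (hr : ∀ z ∈ ball s R, ev (Complex.exp z) r ≠ 0) (z₀ : ball s R) {α : ℂ}
    (hα : ev2 (Complex.exp z₀) α F = 0) :
    ∃! φ : C(ball s R, ℂ × ℂ), φ z₀ = (Complex.exp z₀, α) ∧
      Psi F ∘ φ = fun z : ball s R => (Complex.exp z, (0:ℂ)) := by
  have := contractibleSpace_ball (x := s) hR
  have := (isOpen_ball (x := s) (ε := R)).locallyPathConnectedSpace
  exact (cov hF hk hB).existsUnique_continuousMap_lifts
    (f := ⟨fun z : ball s R => (Complex.exp z, (0:ℂ)), by fun_prop⟩) (a₀ := z₀)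
    (e₀ := (Complex.exp z₀, α)) (by
      show (Complex.exp z₀, ev2 (Complex.exp z₀) α F) = (Complex.exp z₀, (0:ℂ))
      rw [hα]) (fun a => ⟨hr a a.2, rfl⟩)

lemma exists_br {F : ℤ[X][X]} (hF : F.Monic) (hk : 0 < F.natDegree) {P Q : ℤ[X][X]} {r : ℤ[X]}
    (hB : P * F + Q * derivative F = C r) {s : ℂ} {R : ℝ} (hR : 0 < R)
    (hr : ∀ z ∈ ball s R, ev (Complex.exp z) r ≠ 0) {α : ℂ} (hα : ev2 (Complex.exp s) α F = 0) :
    ∃ ρ : ℂ → ℂ, IsBr F s R ρ ∧ ρ s = α := by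
  classical
  obtain ⟨φ, ⟨h1, h2⟩, -⟩ := lifts hF hk hB hR hr ⟨s, mem_ball_self hR⟩ hα
  have h3 : ∀ z : ball s R, (φ z).1 = Complex.exp z ∧ ev2 (φ z).1 (φ z).2 F = 0 := by
    intro z
    have := congrFun h2 z
    simp only [Function.comp_apply] at this
    unfold Psi at this
    rw [Prod.mk.injEq] at this
    exact this
  refine ⟨fun z => if h : z ∈ ball s R then (φ ⟨z, h⟩).2 else 0, ⟨?_, ?_⟩, ?_⟩
  · rw [continuousOn_iff_continuous_domRestrict]
    have : (ball s R).domRestrict (fun z => if h : z ∈ ball s R then (φ ⟨z, h⟩).2 else 0) =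
        fun z => (φ z).2 := by
      funext z
      show (if h : (z:ℂ) ∈ ball s R then (φ ⟨z, h⟩).2 else 0) = _
      rw [dif_pos z.2]
    rw [this]
    fun_prop
  · intro z hz
    simp only [hz, dif_pos]
    have := h3 ⟨z, hz⟩
    rw [this.1] at this
    exact this.2
  · simp only [mem_ball_self hR, dif_pos]
    rw [h1]

lemma br_unique {F : ℤ[X][X]} (hF : F.Monic) (hk : 0 < F.natDegree) {P Q : ℤ[X][X]} {r : ℤ[X]}
    (hB : P * F + Q * derivative F = C r) {s : ℂ} {R : ℝ} (hR : 0 < R)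
    (hr : ∀ z ∈ ball s R, ev (Complex.exp z) r ≠ 0) {ρ₁ ρ₂ : ℂ → ℂ} (h₁ : IsBr F s R ρ₁)
    (h₂ : IsBr F s R ρ₂) {z₀ : ℂ} (hz₀ : z₀ ∈ ball s R) (he : ρ₁ z₀ = ρ₂ z₀) : ρ₁ s = ρ₂ s := by
  obtain ⟨φ, -, hu⟩ := lifts hF hk hB hR hr ⟨z₀, hz₀⟩ (h₁.root z₀ hz₀)
  have key : ∀ ρ : ℂ → ℂ, IsBr F s R ρ → ρ z₀ = ρ₁ z₀ → ∀ z : ball s R, φ z = (Complex.exp z, ρ z) := by
    intro ρ hρ he z
    have hc : Continuous fun z : ball s R => ((Complex.exp z, ρ z) : ℂ × ℂ) := by
      apply Continuous.prodMk (by fun_prop)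
      have := continuousOn_iff_continuous_domRestrict.mp hρ.cont
      exact this
    have := hu ⟨_, hc⟩ ⟨by
      show ((Complex.exp z₀, ρ z₀) : ℂ × ℂ) = _
      rw [he], by
      funext z
      show ((Complex.exp z, ev2 (Complex.exp z) (ρ z) F) : ℂ × ℂ) = _
      rw [hρ.root z z.2]⟩
    rw [← this]
    rfl
  have e1 := key ρ₁ h₁ rfl ⟨s, mem_ball_self hR⟩
  have e2 := key ρ₂ h₂ he.symm ⟨s, mem_ball_self hR⟩
  rw [e1, Prod.mk.injEq] at e2
  exact e2.2

lemma br_deriv {F : ℤ[X][X]} {P Q : ℤ[X][X]} {r : ℤ[X]}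
    (hB : P * F + Q * derivative F = C r) {s : ℂ} {R : ℝ}
    (hr : ∀ z ∈ ball s R, ev (Complex.exp z) r ≠ 0) {ρ : ℂ → ℂ} (hρ : IsBr F s R ρ) {z₀ : ℂ}
    (hz₀ : z₀ ∈ ball s R) : ∃ ρ' : ℂ, HasDerivAt ρ ρ' z₀ ∧
      ev2 (Complex.exp z₀) (ρ z₀) (derivative F) * ρ' = -ev2 (Complex.exp z₀) (ρ z₀) (FD F) := by
  have h2 := hρ.root z₀ hz₀
  have h3 : ev2 (Complex.exp z₀) (ρ z₀) (derivative F) ≠ 0 := by
    intro h0
    have := congrArg (ev2 (Complex.exp z₀) (ρ z₀)) hB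
    rw [map_add, map_mul, map_mul, h2, h0, mul_zero, mul_zero, zero_add, ev2_C] at this
    exact hr z₀ hz₀ this.symm
  obtain ⟨A, -, h4⟩ := strict F (Complex.exp z₀, ρ z₀)
  have h5 : HasStrictFDerivAt (Psi F)
      (((ContinuousLinearEquiv.refl ℂ ℂ).skewProd
        (ContinuousLinearEquiv.unitsEquivAut ℂ (Units.mk0 _ h3))
        (A • ContinuousLinearMap.id ℂ ℂ) : (ℂ × ℂ) ≃L[ℂ] (ℂ × ℂ)) : (ℂ × ℂ) →L[ℂ] (ℂ × ℂ))
        (Complex.exp z₀, ρ z₀) := by
    have h6 := (hasStrictFDerivAt_fst (𝕜 := ℂ) (E := ℂ) (F := ℂ) (p := (Complex.exp z₀, ρ z₀))).prodMk h4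
    refine h6.congr_fderiv ?_
    apply ContinuousLinearMap.ext
    rintro ⟨a, b⟩
    simp [ContinuousLinearEquiv.skewProd_apply]
    ring
  have hnb : ball s R ∈ 𝓝 z₀ := isOpen_ball.mem_nhds hz₀
  have hc : ContinuousAt (fun z => ((Complex.exp z, ρ z) : ℂ × ℂ)) z₀ :=
    (Complex.continuous_exp.continuousAt).prodMk (hρ.cont.continuousAt hnb)
  have h6 := hc.eventually h5.eventually_left_inverse
  have hPsi : Psi F (Complex.exp z₀, ρ z₀) = (Complex.exp z₀, 0) := by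
    unfold Psi
    rw [h2]
  have h7 : (fun z => ((Complex.exp z, ρ z) : ℂ × ℂ)) =ᶠ[𝓝 z₀]
      fun z => h5.localInverse (Psi F) _ (Complex.exp z₀, ρ z₀) (Complex.exp z, 0) := by
    filter_upwards [h6, hnb] with z hz hz2
    rw [← hz]
    congr 1
    unfold Psi
    rw [hρ.root z hz2]
  have h8 := h5.to_localInverse
  rw [hPsi] at h8
  have h9 : DifferentiableAt ℂ (fun z => ((Complex.exp z, (0:ℂ)) : ℂ × ℂ)) z₀ := by fun_prop
  have h10 : DifferentiableAt ℂ
      (fun z => h5.localInverse (Psi F) _ (Complex.exp z₀, ρ z₀) (Complex.exp z, 0)) z₀ :=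
    DifferentiableAt.comp (f := fun z => ((Complex.exp z, (0:ℂ)) : ℂ × ℂ)) z₀
      h8.hasFDerivAt.differentiableAt h9
  have h11 : DifferentiableAt ℂ (fun z => ((Complex.exp z, ρ z) : ℂ × ℂ)) z₀ :=
    h10.congr_of_eventuallyEq h7
  have h12 : DifferentiableAt ℂ ρ z₀ := h11.snd
  refine ⟨deriv ρ z₀, h12.hasDerivAt, ?_⟩
  have h13 := chain F h12.hasDerivAt
  have h14 : (fun t => ev2 (Complex.exp t) (ρ t) F) =ᶠ[𝓝 z₀] fun _ => (0:ℂ) := by
    filter_upwards [hnb] with z hz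
    exact hρ.root z hz
  have h15 : HasDerivAt (fun t => ev2 (Complex.exp t) (ρ t) F) 0 z₀ :=
    (hasDerivAt_const z₀ (0:ℂ)).congr_of_eventuallyEq h14
  have h16 := h13.unique h15
  linear_combination h16

end Pool.Agent.Zk21.Mv
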