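import Mathlib
import Pool.Agent.Zk21.MvF

/-!
# Moving targets: the logarithmic derivatives near the two places
-/

set_option autoImplicit false

open Polynomial Metric Set Filter Topology

namespace Pool.Agent.Zk21.Mv

lemma lower_inf {P : ℤ[X]} (hP : P ≠ 0) : ∃ R : ℝ, 1 ≤ R ∧ ∀ x : ℂ, R ≤ ‖x‖ → 1 ≤ ‖ev x P‖ := by
  by_cases hd : 0 < P.degree
  · have hd' : 0 < (P.map (Int.castRingHom ℂ)).degree := by
      rwa [degree_map_eq_of_injective (RingHom.injective_int (Int.castRingHom ℂ))]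
    have h := (Polynomial.tendsto_norm_atTop (P.map (Int.castRingHom ℂ)) hd'
      (l := comap (fun x : ℂ => ‖x‖) atTop) (z := fun x => x) tendsto_comap).eventually_ge_atTop 1
    rw [eventually_comap] at h
    obtain ⟨R, hR⟩ := eventually_atTop.mp h
    refine ⟨max 1 R, le_max_left _ _, ?_⟩
    intro x hx
    rw [ev_eq]
    exact hR ‖x‖ ((le_max_right _ _).trans hx) x rfl
  · refine ⟨1, le_rfl, ?_⟩
    intro x _
    have h1 : P = C (P.coeff 0) := eq_C_of_degree_le_zero (not_lt.mp hd)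
    have h2 : P.coeff 0 ≠ 0 := by
      intro h
      rw [h, C_0] at h1
      exact hP h1
    rw [h1, ev_eq, map_C, eval_C, eq_intCast, Complex.norm_intCast]
    exact_mod_cast Int.one_le_abs h2

lemma lower_zero {P : ℤ[X]} (hP : P ≠ 0) : ∃ R : ℝ, 1 ≤ R ∧ ∀ x : ℂ, x ≠ 0 → ‖x‖ * R ≤ 1 →
    ‖x‖ ^ P.natDegree ≤ ‖ev x P‖ := by
  have hP' : P.reverse ≠ 0 := by rwa [Ne, reverse_eq_zero]
  obtain ⟨R, hR, h⟩ := lower_inf hP'
  refine ⟨R, hR, ?_⟩
  intro x hx hxR
  have hx0 : 0 < ‖x‖ := norm_pos_iff.mpr hx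
  have h1 : 1 ≤ ‖ev x⁻¹ P.reverse‖ := by
    apply h
    rw [norm_inv, le_inv_comm₀ (by linarith) hx0, ← one_div, le_div_iff₀ (by linarith)]
    exact hxR
  have h2 : ev x⁻¹ P.reverse * x ^ P.natDegree = ev x P := by
    let := invertibleOfNonzero hx
    have h3 := eval₂_reverse_mul_pow (Int.castRingHom ℂ) x P
    rw [invOf_eq_inv] at h3
    exact h3
  rw [← h2, norm_mul, norm_pow]
  exact le_mul_of_one_le_left (by positivity) h1

lemma wz {r : ℤ[X]} (hr : r ≠ 0) : ∃ τ₁ : ℝ, 0 ≤ τ₁ ∧ ∃ d : ℕ, ∀ (z : ℂ) (τ : ℝ), τ₁ ≤ |z.re| → |z.re| ≤ τ →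
    ‖Complex.exp z‖ ≤ Real.exp (d * τ) ∧ 1 ≤ Real.exp (d * τ) * ‖ev (Complex.exp z) r‖ := by
  obtain ⟨R₁, hR₁, h₁⟩ := lower_inf hr
  obtain ⟨R₂, hR₂, h₂⟩ := lower_zero hr
  refine ⟨Real.log R₁ + Real.log R₂, ?_, r.natDegree + 1, ?_⟩
  · exact add_nonneg (Real.log_nonneg hR₁) (Real.log_nonneg hR₂)
  intro z τ hz hτ
  have hl1 := Real.log_nonneg hR₁
  have hl2 := Real.log_nonneg hR₂
  have hτ0 : 0 ≤ τ := (abs_nonneg _).trans hτ
  have hd0 : (0:ℝ) ≤ r.natDegree := Nat.cast_nonneg _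
  push_cast
  have hnorm : ‖Complex.exp z‖ = Real.exp z.re := Complex.norm_exp z
  rcases le_total 0 z.re with h | h
  · rw [abs_of_nonneg h] at hz hτ
    constructor
    · rw [hnorm]
      apply Real.exp_le_exp.mpr
      nlinarith
    · have h3 : 1 ≤ ‖ev (Complex.exp z) r‖ := by
        apply h₁
        rw [hnorm]
        calc R₁ = Real.exp (Real.log R₁) := (Real.exp_log (by linarith)).symm
          _ ≤ _ := Real.exp_le_exp.mpr (by linarith)
      have h4 : 1 ≤ Real.exp (((r.natDegree : ℝ) + 1) * τ) := Real.one_le_exp (by positivity)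
      exact o1 h4 h3
  · rw [abs_of_nonpos h] at hz hτ
    constructor
    · rw [hnorm]
      apply Real.exp_le_exp.mpr
      nlinarith
    · have h3 : ‖Complex.exp z‖ ^ r.natDegree ≤ ‖ev (Complex.exp z) r‖ := by
        apply h₂ _ (Complex.exp_ne_zero z)
        rw [hnorm]
        calc Real.exp z.re * R₂ = Real.exp z.re * Real.exp (Real.log R₂) := by
              rw [Real.exp_log (by linarith)]
          _ = Real.exp (z.re + Real.log R₂) := (Real.exp_add _ _).symm
          _ ≤ Real.exp 0 := Real.exp_le_exp.mpr (by linarith)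
          _ = 1 := Real.exp_zero
      calc 1 ≤ Real.exp (((r.natDegree : ℝ) + 1) * τ) * ‖Complex.exp z‖ ^ r.natDegree := by
            rw [hnorm, ← Real.exp_nat_mul, ← Real.exp_add]
            apply Real.one_le_exp
            nlinarith
        _ ≤ _ := mul_le_mul_of_nonneg_left h3 (Real.exp_pos _).le

lemma mem_iff {F : ℤ[X][X]} (hF : F.Monic) (x α : ℂ) : α ∈ (F.map (ev x)).roots ↔ ev2 x α F = 0 := by
  rw [mem_roots (hF.map _).ne_zero, IsRoot, ← ev2_eq]

/-- the logarithmic derivatives are bounded near the two places -/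
theorem eta_bound {F : ℤ[X][X]} (hF : F.Monic) (hk : 0 < F.natDegree) {P Q : ℤ[X][X]} {r : ℤ[X]}
    (hB : P * F + Q * derivative F = C r) (hr : r ≠ 0) : ∃ K : ℝ, 1 ≤ K ∧ ∃ τ₀ : ℝ, 1 ≤ τ₀ ∧
      ∃ c : ℕ, ∀ s : ℂ, τ₀ ≤ |s.re| →
      (∃ A b : ℝ, Geo F (Complex.exp s) A b ∧ A ≤ K * Real.exp (c * |s.re|) ∧
        b ≤ K * Real.exp (c * |s.re|)) ∧
      ∀ α ∈ (F.map (ev (Complex.exp s))).roots, ∀ β ∈ (F.map (ev (Complex.exp s))).roots,
        ‖rr F (Complex.exp s) α β‖ ≤ K * (‖(derivative (F.map (ev (Complex.exp s)))).eval α‖ *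
          ‖(derivative (F.map (ev (Complex.exp s)))).eval β‖) := by
  obtain ⟨C₀, hC₀, c, hgeo⟩ := geo hF hB
  obtain ⟨τ₁, hτ₁, d, hwz⟩ := wz hr
  have hl0 : 0 ≤ Real.log C₀ := Real.log_nonneg hC₀
  refine ⟨C₀ + 16 * (1 + Real.log C₀ + 2 * (c * d)), ?_, 2 * τ₁ + 2, by linarith, c * (2 * d), ?_⟩
  · have : (0:ℝ) ≤ c * d := by positivity
    linarith
  intro s hs
  have hcd : (0:ℝ) ≤ c * d := by positivity
  have hs0 : 0 < |s.re| := by linarith
  obtain ⟨R, hR⟩ : ∃ R, R = |s.re| / 2 := ⟨_, rfl⟩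
  have hR0 : 0 < R := by rw [hR]; positivity
  obtain ⟨τ, hτ⟩ : ∃ τ, τ = 3 / 2 * |s.re| := ⟨_, rfl⟩
  have hz : ∀ z ∈ ball s R, τ₁ ≤ |z.re| ∧ |z.re| ≤ τ := by
    intro z hz
    rw [mem_ball, dist_eq_norm] at hz
    have h1 : |z.re - s.re| ≤ ‖z - s‖ := by
      rw [← Complex.sub_re]
      exact Complex.abs_re_le_norm _
    have h2 : |z.re| ≤ |z.re - s.re| + |s.re| := by
      have := abs_add_le (z.re - s.re) s.re
      rwa [sub_add_cancel] at this
    have h3 : |s.re| ≤ |z.re - s.re| + |z.re| := by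
      have := abs_sub_abs_le_abs_sub s.re z.re
      rw [abs_sub_comm] at this
      linarith
    constructor
    · linarith
    · linarith
  have hWb : ∀ z ∈ ball s R, ‖Complex.exp z‖ ≤ Real.exp (d * τ) ∧
      1 ≤ Real.exp (d * τ) * ‖ev (Complex.exp z) r‖ := fun z h => hwz z τ (hz z h).1 (hz z h).2
  have hτ0 : 0 ≤ τ := by rw [hτ]; positivity
  have hW1 : 1 ≤ Real.exp (d * τ) := Real.one_le_exp (by positivity)
  have hgeo' : ∀ z ∈ ball s R, ∃ A b : ℝ, Geo F (Complex.exp z) A b ∧ A ≤ C₀ * Real.exp (d * τ) ^ c ∧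
      b ≤ C₀ * Real.exp (d * τ) ^ c := fun z h => hgeo _ _ hW1 (hWb z h).1 (hWb z h).2
  have hrne : ∀ z ∈ ball s R, ev (Complex.exp z) r ≠ 0 := by
    intro z h h0
    have := (hWb z h).2
    rw [h0, norm_zero, mul_zero] at this
    linarith
  obtain ⟨M, hM⟩ : ∃ M, M = Real.log C₀ + c * d * τ := ⟨_, rfl⟩
  have hM0 : 0 ≤ M := by rw [hM]; positivity
  have hCW : C₀ * Real.exp (d * τ) ^ c = Real.exp M := by
    rw [hM, Real.exp_add, Real.exp_log (by linarith), ← Real.exp_nat_mul]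
    congr 2
    ring
  have hss : s ∈ ball s R := mem_ball_self hR0
  have hfin : 8 * (1 + M) / R ≤ 16 * (1 + Real.log C₀ + 2 * (c * d)) := by
    rw [div_le_iff₀ hR0, hM, hR, hτ]
    have h1 : 1 ≤ |s.re| := by linarith
    nlinarith [mul_nonneg hcd hs0.le, mul_nonneg hl0 hs0.le]
  have hlog2 : Real.log 2 ≤ 1 := by
    have := Real.log_two_lt_d9
    linarith
  constructor
  · obtain ⟨A, b, h1, h2, h3⟩ := hgeo' s hss
    have h4 : C₀ * Real.exp (d * τ) ^ c ≤ (C₀ + 16 * (1 + Real.log C₀ + 2 * (c * d))) *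
        Real.exp (((c * (2 * d) : ℕ) : ℝ) * |s.re|) := by
      have e1 : Real.exp (d * τ) ^ c ≤ Real.exp (((c * (2 * d) : ℕ) : ℝ) * |s.re|) := by
        rw [← Real.exp_nat_mul]
        apply Real.exp_le_exp.mpr
        rw [hτ]
        push_cast
        nlinarith [mul_nonneg hcd hs0.le]
      exact mul_le_mul (by linarith) e1 (by positivity) (by linarith)
    exact ⟨A, b, h1, h2.trans h4, h3.trans h4⟩
  intro α hα β hβ
  rw [mem_iff hF] at hα hβ
  obtain ⟨ρα, hbα, hρα⟩ := exists_br hF hk hB hR0 hrne hα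
  obtain ⟨ρβ, hbβ, hρβ⟩ := exists_br hF hk hB hR0 hrne hβ
  have hdα : ∀ z ∈ ball s R, ∃ ρ' : ℂ, HasDerivAt ρα ρ' z ∧
      ev2 (Complex.exp z) (ρα z) (derivative F) * ρ' = -ev2 (Complex.exp z) (ρα z) (FD F) :=
    fun z hz => br_deriv hB hrne hbα hz
  have hdβ : ∀ z ∈ ball s R, ∃ ρ' : ℂ, HasDerivAt ρβ ρ' z ∧
      ev2 (Complex.exp z) (ρβ z) (derivative F) * ρ' = -ev2 (Complex.exp z) (ρβ z) (FD F) :=
    fun z hz => br_deriv hB hrne hbβ hz
  have key : ∀ w : ℂ → ℂ, (∀ z ∈ ball s R, DifferentiableAt ℂ w z) →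
      (∀ z ∈ ball s R, ∀ A b : ℝ, Geo F (Complex.exp z) A b → A ≤ Real.exp M → b ≤ Real.exp M →
        1 ≤ A * ‖w z‖ ∧ (‖w z‖ ≤ 2 * A ∨ ‖w z‖ ≤ b)) →
      ‖deriv w s / w s‖ ≤ C₀ + 16 * (1 + Real.log C₀ + 2 * (c * d)) := by
    intro w hw1 hw2
    have hw3 : ∀ z ∈ ball s R, w z ≠ 0 ∧ |Real.log ‖w z‖| ≤ 1 + M := by
      intro z hz
      obtain ⟨A, b, h1, h2, h3⟩ := hgeo' z hz
      rw [hCW] at h2 h3
      obtain ⟨h4, h5⟩ := hw2 z hz A b h1 h2 h3
      have hA0 : 0 < A := by linarith [h1.hA]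
      have hwn : 0 < ‖w z‖ := by
        by_contra h0
        have : ‖w z‖ = 0 := le_antisymm (not_lt.mp h0) (norm_nonneg _)
        rw [this, mul_zero] at h4
        linarith
      refine ⟨norm_pos_iff.mp hwn, ?_⟩
      rw [abs_le]
      constructor
      · have e1 : 0 ≤ Real.log (A * ‖w z‖) := Real.log_nonneg h4
        rw [Real.log_mul hA0.ne' hwn.ne'] at e1
        have e2 : Real.log A ≤ M := by
          rw [Real.log_le_iff_le_exp hA0]
          exact h2
        linarith
      · rw [Real.log_le_iff_le_exp hwn, Real.exp_add]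
        have e3 : (2:ℝ) ≤ Real.exp 1 := by
          have := Real.add_one_le_exp (1:ℝ)
          linarith
        have e4 : 0 < Real.exp M := Real.exp_pos _
        rcases h5 with h5 | h5
        · nlinarith
        · nlinarith
    have h1 := logder_bound hR0 (fun z hz => (hw1 z hz).differentiableWithinAt)
      (fun z hz => (hw3 z hz).1) (by linarith : 0 < 1 + M) (fun z hz => (hw3 z hz).2)
    linarith
  have hdd : ∀ γ : ℂ, (derivative (F.map (ev (Complex.exp s)))).eval γ =
      ev2 (Complex.exp s) γ (derivative F) := by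
    intro γ
    rw [ev2_eq, derivative_map]
  have hdh : ∀ γ : ℂ, ((FD F).map (ev (Complex.exp s))).eval γ = ev2 (Complex.exp s) γ (FD F) := by
    intro γ
    rw [ev2_eq]
  obtain ⟨α', hα1, hα2⟩ := hdα s hss
  obtain ⟨β', hβ1, hβ2⟩ := hdβ s hss
  rw [hρα] at hα2
  rw [hρβ] at hβ2
  by_cases hne : α = β
  · -- the diagonal
    have h1 := key (fun z => ev2 (Complex.exp z) (ρα z) (derivative F)) (by
        intro z hz
        obtain ⟨a', ha', -⟩ := hdα z hz
        exact (chain (derivative F) ha').differentiableAt) (by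
        intro z hz A b hg _ _
        have h2 : ρα z ∈ (F.map (ev (Complex.exp z))).roots := (mem_iff hF _ _).mpr (hbα.root z hz)
        have h3 := hg.der _ h2
        have h4 := hg.gb _ h2
        rw [derivative_map, ← ev2_eq] at h3 h4
        exact ⟨h3, Or.inr h4⟩)
    have h2 := (chain (derivative F) hα1).deriv
    rw [h2, hρα] at h1
    have h3 : rr F (Complex.exp s) α α = ev2 (Complex.exp s) α (derivative F) *
        (ev2 (Complex.exp s) α (FD (derivative F)) +
          ev2 (Complex.exp s) α (derivative (derivative F)) * α') := by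
      rw [rr_diag, hdd, hdh, FD_derivative]
      have e1 : (derivative ((FD F).map (ev (Complex.exp s)))).eval α =
          ev2 (Complex.exp s) α (derivative (FD F)) := by
        rw [ev2_eq, derivative_map]
      have e2 : (derivative (derivative (F.map (ev (Complex.exp s))))).eval α =
          ev2 (Complex.exp s) α (derivative (derivative F)) := by
        rw [ev2_eq, derivative_map, derivative_map]
      rw [e1, e2]
      linear_combination (ev2 (Complex.exp s) α (derivative (derivative F))) * -hα2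
    have h4 : ev2 (Complex.exp s) α (derivative F) ≠ 0 := by
      intro h0
      have := congrArg (ev2 (Complex.exp s) α) hB
      rw [map_add, map_mul, map_mul, hα, h0, mul_zero, mul_zero, zero_add, ev2_C] at this
      exact hrne s hss this.symm
    rw [← hne, h3, hdd, norm_mul]
    rw [norm_div, div_le_iff₀ (norm_pos_iff.mpr h4)] at h1
    calc _ ≤ ‖ev2 (Complex.exp s) α (derivative F)‖ * ((C₀ + 16 * (1 + Real.log C₀ + 2 * (c * d))) *
          ‖ev2 (Complex.exp s) α (derivative F)‖) := mul_le_mul_of_nonneg_left h1 (norm_nonneg _)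
      _ = _ := by ring
  · have hne' : ∀ z ∈ ball s R, ρα z ≠ ρβ z := by
      intro z hz he
      have := br_unique hF hk hB hR0 hrne hbα hbβ hz he
      rw [hρα, hρβ] at this
      exact hne this
    have h1 := key (fun z => ρβ z - ρα z) (by
        intro z hz
        obtain ⟨a', ha', -⟩ := hdα z hz
        obtain ⟨b', hb', -⟩ := hdβ z hz
        exact (hb'.sub ha').differentiableAt) (by
        intro z hz A b hg _ _
        have h2 : ρα z ∈ (F.map (ev (Complex.exp z))).roots := (mem_iff hF _ _).mpr (hbα.root z hz)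
        have h2' : ρβ z ∈ (F.map (ev (Complex.exp z))).roots := (mem_iff hF _ _).mpr (hbβ.root z hz)
        have h3 := hg.sep _ h2' _ h2 (hne' z hz).symm
        have h4 := hg.bd _ h2
        have h5 := hg.bd _ h2'
        refine ⟨h3, Or.inl ((norm_sub_le _ _).trans ?_)⟩
        linarith)
    have h2 : deriv (fun z => ρβ z - ρα z) s = β' - α' := (hβ1.sub hα1).deriv
    rw [h2] at h1
    simp only [hρα, hρβ] at h1
    have hβα : β - α ≠ 0 := sub_ne_zero.mpr (Ne.symm hne)
    have h3 := rr_rel F (Complex.exp s) α β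
    rw [hdd, hdd, hdh, hdh] at h3
    have h4 : rr F (Complex.exp s) α β = -(ev2 (Complex.exp s) α (derivative F) *
        ev2 (Complex.exp s) β (derivative F)) * ((β' - α') / (β - α)) := by
      have e1 : (β - α) * rr F (Complex.exp s) α β = (β - α) * (-(ev2 (Complex.exp s) α (derivative F) *
          ev2 (Complex.exp s) β (derivative F)) * ((β' - α') / (β - α))) := by
        have e2 : (β - α) * (-(ev2 (Complex.exp s) α (derivative F) *
          ev2 (Complex.exp s) β (derivative F)) * ((β' - α') / (β - α))) =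
          -(ev2 (Complex.exp s) α (derivative F) * ev2 (Complex.exp s) β (derivative F)) * (β' - α') := by
          field_simp
        rw [e2, h3]
        linear_combination (ev2 (Complex.exp s) α (derivative F)) * hβ2 -
          (ev2 (Complex.exp s) β (derivative F)) * hα2
      exact mul_left_cancel₀ hβα e1
    rw [h4, norm_mul, norm_neg, norm_mul, hdd, hdd]
    rw [mul_comm]
    exact mul_le_mul_of_nonneg_right h1 (by positivity)

end Pool.Agent.Zk21.Mv
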