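import Mathlib
import Pool.Agent.Zk21.MvG
import Pool.Agent.Zk21.CaC

/-!
# Moving targets: the double resultant near the two places
-/

set_option autoImplicit false

open Polynomial Metric Set Filter Topology

namespace Pool.Agent.Zk21.Mv

open Pool.Agent.Zk21.Pt Pool.Agent.Zk21.Ca

/-- the set of the roots -/
noncomputable def Rt (F : ℤ[X][X]) (x : ℂ) (h : (F.map (ev x)).roots.Nodup) : Finset ℂ :=
  ⟨(F.map (ev x)).roots, h⟩

lemma Rt_card {F : ℤ[X][X]} (hF : F.Monic) (x : ℂ) (h : (F.map (ev x)).roots.Nodup) :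
    (Rt F x h).card = F.natDegree := by
  show (F.map (ev x)).roots.card = F.natDegree
  rw [← (IsAlgClosed.splits (F.map (ev x))).natDegree_eq_card_roots, natDegree_map_ev hF]

lemma NN_fin {F : ℤ[X][X]} (hF : F.Monic) (a b c : ℤ[X]) (x : ℂ) (h : (F.map (ev x)).roots.Nodup) :
    ev x (NN F a b c) = ∏ α ∈ Rt F x h, ∏ β ∈ Rt F x h,
      (ev x a * ((derivative (F.map (ev x))).eval α * (derivative (F.map (ev x))).eval β) +
        ev x b * rr F x α β +
        ev x c * (-α * rr F x α β +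
          ((FD F).map (ev x)).eval α * (derivative (F.map (ev x))).eval β)) :=
  NN_eval hF a b c x

theorem NN_point {F : ℤ[X][X]} (hF : F.Monic) (hk : 0 < F.natDegree) {P Q : ℤ[X][X]} {r : ℤ[X]}
    (hB : P * F + Q * derivative F = C r) (hr : r ≠ 0) : ∃ n₀ : ℝ, 1 ≤ n₀ ∧ ∃ K : ℕ, 0 < K ∧
      ∃ c₁ : ℕ, ∃ τ₀ : ℝ, 1 ≤ τ₀ ∧ ∀ s : ℂ, τ₀ ≤ |s.re| → ∀ (a b c : ℤ[X]) (ν : ℂ), n₀ ≤ ‖ν‖ →
      ‖ev (Complex.exp s) a - ν * ev (Complex.exp s) b‖ ≤ ‖ev (Complex.exp s) b‖ →
      ‖ev (Complex.exp s) c‖ * (K * Real.exp (c₁ * |s.re|)) ≤ ‖ev (Complex.exp s) b‖ →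
      (‖ν‖ / 2) ^ (F.natDegree * F.natDegree) *
          ‖ev (Complex.exp s) (NN F 1 0 0 * b ^ (F.natDegree * F.natDegree))‖ ≤
        ‖ev (Complex.exp s) (NN F a b c)‖ ∧
      ‖ev (Complex.exp s) (NN F a b c)‖ ≤ (2 * ‖ν‖) ^ (F.natDegree * F.natDegree) *
          ‖ev (Complex.exp s) (NN F 1 0 0 * b ^ (F.natDegree * F.natDegree))‖ := by
  obtain ⟨K, hK, τ₀, hτ₀, c, h⟩ := eta_bound hF hk hB hr
  obtain ⟨K', hK'⟩ := exists_nat_ge (2 * K ^ 4)
  have hK0 : 0 < K := by linarith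
  refine ⟨2 * (K + 2), by linarith, K' + 1, Nat.succ_pos _, 4 * c, τ₀, hτ₀, ?_⟩
  intro s hs u v w ν hν h1 h2
  obtain ⟨⟨A, b, hg, hA, hb⟩, hη⟩ := h s hs
  obtain ⟨x, hx⟩ : ∃ x, x = Complex.exp s := ⟨_, rfl⟩
  rw [← hx] at h1 h2 hg hη ⊢
  obtain ⟨E, hE⟩ : ∃ E, E = K * Real.exp (c * |s.re|) := ⟨_, rfl⟩
  rw [← hE] at hA hb
  have hE1 : 1 ≤ E := hg.hA.trans hA
  have hE4 : 2 * E ^ 4 ≤ ((K' + 1 : ℕ) : ℝ) * Real.exp ((4 * c : ℕ) * |s.re|) := by
    have e1 : 2 * E ^ 4 = 2 * K ^ 4 * Real.exp ((4 * c : ℕ) * |s.re|) := by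
      rw [hE, mul_pow, ← Real.exp_nat_mul]
      push_cast
      rw [mul_assoc 2 (K ^ 4)]
      congr 3
      ring
    rw [e1]
    apply mul_le_mul_of_nonneg_right _ (Real.exp_pos _).le
    push_cast
    linarith
  obtain ⟨g', hg'⟩ : ∃ g', g' = fun α => (derivative (F.map (ev x))).eval α := ⟨_, rfl⟩
  obtain ⟨hh, hhh⟩ : ∃ hh, hh = fun α => ((FD F).map (ev x)).eval α := ⟨_, rfl⟩
  have key : ∀ α ∈ Rt F x hg.nodup, ∀ β ∈ Rt F x hg.nodup,
      ‖ν‖ / 2 * (‖ev x v‖ * ‖g' α * g' β‖) ≤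
        ‖ev x u * (g' α * g' β) + ev x v * rr F x α β + ev x w * (-α * rr F x α β + hh α * g' β)‖ ∧
      ‖ev x u * (g' α * g' β) + ev x v * rr F x α β + ev x w * (-α * rr F x α β + hh α * g' β)‖ ≤
        2 * ‖ν‖ * (‖ev x v‖ * ‖g' α * g' β‖) := by
    intro α hα β hβ
    have q1 := hη α hα β hβ
    have q2 := hg.der α hα
    have q3 := hg.der β hβ
    have q4 := hg.bd α hα
    have q5 := hg.rb α hα β hβ
    have q6 := hg.hh α hα
    have q7 := hg.gb β hβ
    have r1 : (derivative (F.map (ev x))).eval α = g' α := by rw [hg']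
    have r2 : (derivative (F.map (ev x))).eval β = g' β := by rw [hg']
    have r3 : ((FD F).map (ev x)).eval α = hh α := by rw [hhh]
    rw [r1, r2] at q1
    rw [r1] at q2
    rw [r2] at q3 q7
    rw [r3] at q6
    rw [← norm_mul] at q1
    set G := g' α * g' β with hG
    have hEG : 1 ≤ E ^ 2 * ‖G‖ := by
      have e1 : 1 ≤ (A * ‖g' α‖) * (A * ‖g' β‖) := o1 q2 q3
      have e2 : (A * ‖g' α‖) * (A * ‖g' β‖) = A ^ 2 * ‖G‖ := by
        rw [hG, norm_mul]
        ring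
      rw [e2] at e1
      have hA0 : 0 ≤ A := by linarith [hg.hA]
      have e3 : A ^ 2 ≤ E ^ 2 := pow_le_pow_left₀ hA0 hA 2
      exact e1.trans (mul_le_mul_of_nonneg_right e3 (norm_nonneg _))
    have hb0 : 0 ≤ b := by linarith [hg.hb]
    have q8 : ‖-α * rr F x α β + hh α * g' β‖ ≤ 2 * E ^ 2 := by
      refine (norm_add_le _ _).trans ?_
      rw [norm_mul, norm_mul, norm_neg]
      have e1 : ‖α‖ * ‖rr F x α β‖ ≤ E * E :=
        mul_le_mul (q4.trans hA) (q5.trans hb) (norm_nonneg _) (by linarith)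
      have e2 : ‖hh α‖ * ‖g' β‖ ≤ E * E :=
        mul_le_mul (q6.trans hb) (q7.trans hb) (norm_nonneg _) (by linarith)
      nlinarith
    have q9 : ‖ev x w * (-α * rr F x α β + hh α * g' β)‖ ≤ ‖ev x v‖ * ‖G‖ := by
      rw [norm_mul]
      calc ‖ev x w‖ * ‖-α * rr F x α β + hh α * g' β‖ ≤ ‖ev x w‖ * (2 * E ^ 2 * (E ^ 2 * ‖G‖)) := by
            apply mul_le_mul_of_nonneg_left _ (norm_nonneg _)
            refine q8.trans ?_
            have : 0 ≤ 2 * E ^ 2 := by positivity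
            nlinarith
        _ = (‖ev x w‖ * (2 * E ^ 4)) * ‖G‖ := by ring
        _ ≤ ‖ev x v‖ * ‖G‖ := by
            apply mul_le_mul_of_nonneg_right _ (norm_nonneg _)
            exact (mul_le_mul_of_nonneg_left hE4 (norm_nonneg _)).trans h2
    have q10 : ‖(ev x u - ν * ev x v) * G‖ ≤ ‖ev x v‖ * ‖G‖ := by
      rw [norm_mul]
      exact mul_le_mul_of_nonneg_right h1 (norm_nonneg _)
    have q11 : ‖ev x v * rr F x α β‖ ≤ ‖ev x v‖ * (K * ‖G‖) := by
      rw [norm_mul]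
      exact mul_le_mul_of_nonneg_left q1 (norm_nonneg _)
    have q12 : ‖(ev x u * G + ev x v * rr F x α β + ev x w * (-α * rr F x α β + hh α * g' β)) -
        ν * ev x v * G‖ ≤ (K + 2) * (‖ev x v‖ * ‖G‖) := by
      have e1 : (ev x u * G + ev x v * rr F x α β + ev x w * (-α * rr F x α β + hh α * g' β)) -
        ν * ev x v * G = (ev x u - ν * ev x v) * G + ev x v * rr F x α β +
          ev x w * (-α * rr F x α β + hh α * g' β) := by ring
      rw [e1]
      refine (norm_add_le _ _).trans ((add_le_add ((norm_add_le _ _).trans (add_le_add q10 q11)) q9).trans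
        (le_of_eq ?_))
      ring
    have q13 : ‖ν * ev x v * G‖ = ‖ν‖ * (‖ev x v‖ * ‖G‖) := by
      rw [norm_mul, norm_mul, mul_assoc]
    have q14 : 0 ≤ ‖ev x v‖ * ‖G‖ := by positivity
    constructor
    · have e1 := norm_sub_norm_le (ν * ev x v * G)
        (ev x u * G + ev x v * rr F x α β + ev x w * (-α * rr F x α β + hh α * g' β))
      rw [norm_sub_rev, q13] at e1
      nlinarith
    · have e1 := norm_le_norm_sub_add
        (ev x u * G + ev x v * rr F x α β + ev x w * (-α * rr F x α β + hh α * g' β)) (ν * ev x v * G)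
      rw [q13] at e1
      nlinarith
  have hcard := Rt_card hF x hg.nodup
  have hprod : ∀ t : ℝ, ∏ α ∈ Rt F x hg.nodup, ∏ β ∈ Rt F x hg.nodup,
      (t * (‖ev x v‖ * ‖g' α * g' β‖)) = t ^ (F.natDegree * F.natDegree) *
        ‖ev x (NN F 1 0 0 * v ^ (F.natDegree * F.natDegree))‖ := by
    intro t
    have e1 : ev x (NN F 1 0 0) = ∏ α ∈ Rt F x hg.nodup, ∏ β ∈ Rt F x hg.nodup, g' α * g' β := by
      rw [NN_fin hF 1 0 0 x hg.nodup]
      refine Finset.prod_congr rfl fun α _ => Finset.prod_congr rfl fun β _ => ?_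
      rw [map_one, map_zero, hg']
      ring
    rw [map_mul, map_pow, norm_mul, norm_pow, e1, norm_prod]
    simp_rw [norm_prod, Finset.prod_mul_distrib, Finset.prod_const, hcard, ← pow_mul]
    ring
  rw [← hprod, ← hprod, NN_fin hF u v w x hg.nodup, norm_prod]
  simp_rw [norm_prod]
  have r1 : ∀ α, (derivative (F.map (ev x))).eval α = g' α := by intro α; rw [hg']
  have r3 : ∀ α, ((FD F).map (ev x)).eval α = hh α := by intro α; rw [hhh]
  simp_rw [r1, r3]
  constructor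
  · apply Finset.prod_le_prod
    · intro α _
      exact Finset.prod_nonneg fun β _ => by positivity
    · intro α hα
      apply Finset.prod_le_prod
      · intro β _
        positivity
      · intro β hβ
        exact (key α hα β hβ).1
  · apply Finset.prod_le_prod
    · intro α _
      exact Finset.prod_nonneg fun β _ => by positivity
    · intro α hα
      apply Finset.prod_le_prod
      · intro β _
        positivity
      · intro β hβ
        exact (key α hα β hβ).2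

end Pool.Agent.Zk21.Mv
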