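import Mathlib
import Pool.Agent.Zk21.MvH

/-!
# Moving targets: the lower bound for the double resultant
-/

set_option autoImplicit false

open Polynomial Metric Set Filter Topology

namespace Pool.Agent.Zk21.Mv

open Pool.Agent.Zk21.Pt Pool.Agent.Zk21.Ca

lemma ev_real (x : ℝ) (P : ℤ[X]) : ‖ev (x:ℂ) P‖ = |(P.map (Int.castRingHom ℝ)).eval x| := by
  have h : ev (x:ℂ) P = (((P.map (Int.castRingHom ℝ)).eval x : ℝ) : ℂ) := by
    rw [ev_eq, eval_map, eval_map]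
    have h1 := hom_eval₂ P (Int.castRingHom ℝ) Complex.ofRealHom x
    have h2 : Complex.ofRealHom.comp (Int.castRingHom ℝ) = Int.castRingHom ℂ := RingHom.ext_int _ _
    rw [h2] at h1
    exact h1.symm
  rw [h, Complex.norm_real, Real.norm_eq_abs]

lemma mapR_ne {P : ℤ[X]} (h : P ≠ 0) : P.map (Int.castRingHom ℝ) ≠ 0 :=
  (Polynomial.map_ne_zero_iff (RingHom.injective_int (Int.castRingHom ℝ))).mpr h

lemma degR (P : ℤ[X]) : (P.map (Int.castRingHom ℝ)).degree = P.degree :=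
  degree_map_eq_of_injective (RingHom.injective_int (Int.castRingHom ℝ)) P

lemma dom_inf {P u : ℤ[X]} (h : P.degree < u.degree) :
    ∀ᶠ x : ℝ in atTop, ‖ev (x:ℂ) P‖ ≤ ‖ev (x:ℂ) u‖ := by
  have h1 : (P.map (Int.castRingHom ℝ)).degree < (u.map (Int.castRingHom ℝ)).degree := by
    rwa [degR, degR]
  have h2 := (isLittleO_atTop_of_degree_lt _ _ h1).bound one_pos
  filter_upwards [h2] with x hx
  rw [ev_real, ev_real]
  rw [one_mul, Real.norm_eq_abs, Real.norm_eq_abs] at hx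
  exact hx

lemma ev_cont (P : ℤ[X]) : Continuous fun x : ℝ => ‖ev (x:ℂ) P‖ := by
  have : (fun x : ℝ => ‖ev (x:ℂ) P‖) = fun x : ℝ => |(P.map (Int.castRingHom ℝ)).eval x| := by
    funext x
    rw [ev_real]
  rw [this]
  exact (P.map (Int.castRingHom ℝ)).continuous.abs

lemma dom_zero {P u : ℤ[X]} (h : P.coeff 0 = 0) (hu : u.coeff 0 ≠ 0) :
    ∀ᶠ x : ℝ in 𝓝[>] 0, ‖ev (x:ℂ) P‖ ≤ ‖ev (x:ℂ) u‖ := by
  have h1 : ‖ev ((0:ℝ):ℂ) P‖ < ‖ev ((0:ℝ):ℂ) u‖ := by
    rw [ev_real, ev_real, ← coeff_zero_eq_eval_zero, ← coeff_zero_eq_eval_zero, coeff_map, coeff_map, h]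
    simp [hu]
  have h2 := ((ev_cont P).continuousAt (x := 0)).eventually_lt ((ev_cont u).continuousAt (x := 0)) h1
  exact (h2.filter_mono nhdsWithin_le_nhds).mono fun x hx => hx.le

lemma side_inf {P Q : ℤ[X]} (hQ : Q ≠ 0) {a b : ℝ} (ha : 0 < a)
    (h : ∀ᶠ x : ℝ in atTop, a * ‖ev (x:ℂ) Q‖ ≤ ‖ev (x:ℂ) P‖ ∧ ‖ev (x:ℂ) P‖ ≤ b * ‖ev (x:ℂ) Q‖) :
    P ≠ 0 ∧ Real.log a ≤ lM P := by
  have hQ' := mapR_ne hQ
  have hev := eventually_atTop_not_isRoot _ hQ'
  have h2 : ∀ᶠ x : ℝ in atTop, a ≤ |(P.map (Int.castRingHom ℝ)).eval x / (Q.map (Int.castRingHom ℝ)).eval x| ∧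
      |(P.map (Int.castRingHom ℝ)).eval x / (Q.map (Int.castRingHom ℝ)).eval x| ≤ b := by
    filter_upwards [h, hev] with x hx hx2
    have hx3 : 0 < |(Q.map (Int.castRingHom ℝ)).eval x| := abs_pos.mpr hx2
    rw [ev_real, ev_real] at hx
    rw [abs_div, le_div_iff₀ hx3, div_le_iff₀ hx3]
    exact hx
  have hP : P ≠ 0 := by
    rintro rfl
    obtain ⟨x, hx, -⟩ := h2.exists
    rw [Polynomial.map_zero, eval_zero, zero_div, abs_zero] at hx
    linarith
  refine ⟨hP, ?_⟩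
  rcases lt_trichotomy (P.map (Int.castRingHom ℝ)).degree (Q.map (Int.castRingHom ℝ)).degree with hd | hd | hd
  · exfalso
    have h3 := (div_tendsto_atTop_zero_of_degree_lt _ _ hd).abs
    rw [abs_zero] at h3
    have := ge_of_tendsto h3 (h2.mono fun x hx => hx.1)
    linarith
  · have h3 := (div_tendsto_atTop_leadingCoeff_div_of_degree_eq _ _ hd).abs
    have h4 := ge_of_tendsto h3 (h2.mono fun x hx => hx.1)
    rw [leadingCoeff_map_of_injective (RingHom.injective_int (Int.castRingHom ℝ)),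
      leadingCoeff_map_of_injective (RingHom.injective_int (Int.castRingHom ℝ)), eq_intCast, eq_intCast,
      abs_div] at h4
    have h5 : (1:ℝ) ≤ |(Q.leadingCoeff : ℝ)| := by
      exact_mod_cast Int.one_le_abs (leadingCoeff_ne_zero.mpr hQ)
    rw [le_div_iff₀ (by linarith)] at h4
    have h6 : a ≤ |(P.leadingCoeff : ℝ)| := by nlinarith
    exact (Real.log_le_log ha h6).trans (lM_lc hP)
  · exfalso
    have h3 := (abs_div_tendsto_atTop_atTop_of_degree_gt _ _ hd hQ').eventually_gt_atTop b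
    obtain ⟨x, hx1, hx2⟩ := (h3.and h2).exists
    linarith [hx2.2]

lemma refl_ev {D : ℕ} {P : ℤ[X]} (hD : P.natDegree ≤ D) {t : ℝ} (ht : 0 < t) :
    ‖ev ((t⁻¹ : ℝ) : ℂ) P‖ * t ^ D = ‖ev (t:ℂ) (reflect D P)‖ := by
  have ht0 : ((t⁻¹ : ℝ) : ℂ) ≠ 0 := by exact_mod_cast (inv_pos.mpr ht).ne'
  let := invertibleOfNonzero ht0
  have h1 := eval₂_reflect_mul_pow (Int.castRingHom ℂ) ((t⁻¹ : ℝ) : ℂ) D P hD
  rw [invOf_eq_inv, Complex.ofReal_inv, inv_inv] at h1
  have h2 : ev ((t⁻¹ : ℝ) : ℂ) P = ev (t:ℂ) (reflect D P) * ((t:ℂ)⁻¹) ^ D := by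
    rw [Complex.ofReal_inv]
    exact h1.symm
  rw [h2, norm_mul, norm_pow, norm_inv, Complex.norm_real, Real.norm_eq_abs, abs_of_pos ht, mul_assoc,
    ← mul_pow, inv_mul_cancel₀ ht.ne', one_pow, mul_one]

lemma side_zero {P Q : ℤ[X]} (hQ : Q ≠ 0) {a b : ℝ} (ha : 0 < a)
    (h : ∀ᶠ x : ℝ in 𝓝[>] 0, a * ‖ev (x:ℂ) Q‖ ≤ ‖ev (x:ℂ) P‖ ∧ ‖ev (x:ℂ) P‖ ≤ b * ‖ev (x:ℂ) Q‖) :
    P ≠ 0 ∧ Real.log a ≤ lM P := by
  obtain ⟨D, hD⟩ : ∃ D, D = P.natDegree + Q.natDegree := ⟨_, rfl⟩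
  have hDP : P.natDegree ≤ D := by omega
  have hDQ : Q.natDegree ≤ D := by omega
  have h1 : ∀ᶠ t : ℝ in atTop, a * ‖ev (t:ℂ) (reflect D Q)‖ ≤ ‖ev (t:ℂ) (reflect D P)‖ ∧
      ‖ev (t:ℂ) (reflect D P)‖ ≤ b * ‖ev (t:ℂ) (reflect D Q)‖ := by
    filter_upwards [tendsto_inv_atTop_nhdsGT_zero.eventually h, eventually_gt_atTop 0] with t ht ht0
    rw [← refl_ev hDP ht0, ← refl_ev hDQ ht0]
    have : 0 < t ^ D := by positivity
    constructor
    · rw [← mul_assoc]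
      exact mul_le_mul_of_nonneg_right ht.1 this.le
    · rw [← mul_assoc]
      exact mul_le_mul_of_nonneg_right ht.2 this.le
  have hQ' : reflect D Q ≠ 0 := by rwa [Ne, reflect_eq_zero_iff]
  obtain ⟨h2, h3⟩ := side_inf hQ' ha h1
  rw [lM_reflect hDP] at h3
  refine ⟨?_, h3⟩
  rintro rfl
  exact h2 (by simp)

lemma NN1_ne {F : ℤ[X][X]} (hF : F.Monic) (hk : 0 < F.natDegree) {P Q : ℤ[X][X]} {r : ℤ[X]}
    (hB : P * F + Q * derivative F = C r) (hr : r ≠ 0) : NN F 1 0 0 ≠ 0 := by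
  obtain ⟨K, hK, τ₀, hτ₀, c, h⟩ := eta_bound hF hk hB hr
  obtain ⟨⟨A, b, hg, -, -⟩, -⟩ := h (τ₀ : ℂ) (by
    rw [Complex.ofReal_re]
    exact le_abs_self _)
  intro h0
  have h1 := NN_fin hF 1 0 0 _ hg.nodup
  rw [h0] at h1
  have h2 : ∏ α ∈ Rt F (Complex.exp τ₀) hg.nodup, ∏ β ∈ Rt F (Complex.exp τ₀) hg.nodup,
      (ev (Complex.exp τ₀) 1 * ((derivative (F.map (ev (Complex.exp τ₀)))).eval α *
        (derivative (F.map (ev (Complex.exp τ₀)))).eval β) +
        ev (Complex.exp τ₀) 0 * rr F (Complex.exp τ₀) α β +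
        ev (Complex.exp τ₀) 0 * (-α * rr F (Complex.exp τ₀) α β +
          ((FD F).map (ev (Complex.exp τ₀))).eval α *
          (derivative (F.map (ev (Complex.exp τ₀)))).eval β)) ≠ 0 := by
    have hne : ∀ α ∈ Rt F (Complex.exp τ₀) hg.nodup,
        (derivative (F.map (ev (Complex.exp τ₀)))).eval α ≠ 0 := by
      intro α hα h3
      have := hg.der α hα
      rw [h3, norm_zero, mul_zero] at this
      linarith
    rw [Finset.prod_ne_zero_iff]
    intro α hα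
    rw [Finset.prod_ne_zero_iff]
    intro β hβ
    rw [map_one, map_zero, one_mul, zero_mul, zero_mul, add_zero, add_zero]
    exact mul_ne_zero (hne α hα) (hne β hβ)
  rw [← h1, map_zero] at h2
  exact h2 rfl

lemma ev_C (x : ℂ) (m : ℤ) : ev x (C m) = m := by
  rw [ev_eq, map_C, eval_C, eq_intCast]

lemma ev_X (x : ℂ) : ev x X = x := by
  rw [ev_eq, map_X, eval_X]

/-- the lower bound for the double resultant -/
theorem NN_lower {F : ℤ[X][X]} (hF : F.Monic) (hk : 0 < F.natDegree) {P Q : ℤ[X][X]} {r : ℤ[X]}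
    (hB : P * F + Q * derivative F = C r) (hr : r ≠ 0) : ∃ n₁ : ℕ, 1 ≤ n₁ ∧ ∀ (u : ℤ[X]) (e : ℕ),
      (e = 0 ∨ u.coeff 0 ≠ 0) → n₁ ≤ max u.natDegree e →
      NN F (th u - C (e:ℤ) * u) u (X ^ e) ≠ 0 ∧
      ((F.natDegree * F.natDegree : ℕ) : ℝ) * (Real.log (max u.natDegree e : ℕ) - Real.log 4) ≤
        lM (NN F (th u - C (e:ℤ) * u) u (X ^ e)) := by
  obtain ⟨n₀, hn₀, K, hK, c₁, τ₀, hτ₀, h⟩ := NN_point hF hk hB hr
  obtain ⟨m, hm⟩ := exists_nat_ge n₀
  refine ⟨2 * m + 2 * c₁ + 2, by omega, ?_⟩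
  intro u e he0 hn
  set n := max u.natDegree e with hndef
  set k2 := F.natDegree * F.natDegree with hk2
  have hu : u ≠ 0 := by
    rintro rfl
    rw [natDegree_zero] at hndef
    rcases he0 with h1 | h1
    · omega
    · simp at h1
  have hq : NN F 1 0 0 * u ^ k2 ≠ 0 := mul_ne_zero (NN1_ne hF hk hB hr) (pow_ne_zero _ hu)
  have hn0 : (0:ℝ) < n := by
    have : 0 < n := by omega
    exact_mod_cast this
  have fin : ∀ N : ℕ, n ≤ 2 * N → (k2 : ℝ) * (Real.log n - Real.log 4) ≤ Real.log (((N:ℝ) / 2) ^ k2) := by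
    intro N hN
    rw [Real.log_pow, ← Real.log_div hn0.ne' (by norm_num)]
    apply mul_le_mul_of_nonneg_left _ (Nat.cast_nonneg _)
    apply Real.log_le_log (by positivity)
    have : (n:ℝ) ≤ 2 * N := by exact_mod_cast hN
    linarith
  by_cases hcase : 2 * e ≤ n
  · -- the place at infinity
    have hndef' : n = u.natDegree := by omega
    have he : e ≤ n := by omega
    obtain ⟨N, hN⟩ : ∃ N, N = n - e := ⟨_, rfl⟩
    have hN0 : 0 < N := by omega
    have hNr : (0:ℝ) < N := by exact_mod_cast hN0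
    have hNC : (N:ℂ) = n - e := by
      rw [hN, Nat.cast_sub he]
    have h1 : ∀ᶠ x : ℝ in atTop, ‖ev (x:ℂ) (th u - C (n:ℤ) * u)‖ ≤ ‖ev (x:ℂ) u‖ := by
      apply dom_inf
      rw [degree_eq_natDegree hu, ← hndef', degree_lt_iff_coeff_zero]
      intro j hj
      rw [coeff_sub, th_coeff, coeff_C_mul]
      rcases eq_or_lt_of_le hj with h2 | h2
      · rw [← h2]
        ring
      · rw [coeff_eq_zero_of_natDegree_lt (by omega)]
        ring
    have h2 : ∀ᶠ x : ℝ in atTop, ‖ev (x:ℂ) (C (K:ℤ) * X ^ (e + c₁))‖ ≤ ‖ev (x:ℂ) u‖ := by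
      apply dom_inf
      refine (degree_C_mul_X_pow_le _ _).trans_lt ?_
      rw [degree_eq_natDegree hu]
      have : e + c₁ < u.natDegree := by omega
      exact_mod_cast this
    have h3 : ∀ᶠ x : ℝ in atTop, ((N:ℝ) / 2) ^ k2 * ‖ev (x:ℂ) (NN F 1 0 0 * u ^ k2)‖ ≤
        ‖ev (x:ℂ) (NN F (th u - C (e:ℤ) * u) u (X ^ e))‖ ∧
        ‖ev (x:ℂ) (NN F (th u - C (e:ℤ) * u) u (X ^ e))‖ ≤
          (2 * (N:ℝ)) ^ k2 * ‖ev (x:ℂ) (NN F 1 0 0 * u ^ k2)‖ := by
      filter_upwards [h1, h2, eventually_ge_atTop (Real.exp τ₀)] with x hx1 hx2 hx3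
      have hx0 : 0 < x := (Real.exp_pos _).trans_le hx3
      have hlog : τ₀ ≤ Real.log x := by
        rw [Real.le_log_iff_exp_le hx0]
        exact hx3
      have hexp : Complex.exp ((Real.log x : ℝ) : ℂ) = (x:ℂ) := by
        rw [← Complex.ofReal_exp, Real.exp_log hx0]
      have habs : |(((Real.log x : ℝ) : ℂ)).re| = Real.log x := by
        rw [Complex.ofReal_re, abs_of_nonneg (by linarith)]
      have h4 := h ((Real.log x : ℝ) : ℂ) (by rw [habs]; exact hlog) (th u - C (e:ℤ) * u) u (X ^ e) (N:ℂ)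
        (by
          rw [Complex.norm_natCast]
          refine hm.trans ?_
          have : m ≤ N := by omega
          exact_mod_cast this)
      rw [hexp, habs, Complex.norm_natCast] at h4
      apply h4
      · have e1 : ev (x:ℂ) (th u - C (e:ℤ) * u) - N * ev (x:ℂ) u = ev (x:ℂ) (th u - C (n:ℤ) * u) := by
          rw [map_sub, map_sub, map_mul, map_mul, ev_C, ev_C, hNC]
          push_cast
          ring
        rw [e1]
        exact hx1
      · have e1 : ‖ev (x:ℂ) (X ^ e)‖ * (K * Real.exp (c₁ * Real.log x)) =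
            ‖ev (x:ℂ) (C (K:ℤ) * X ^ (e + c₁))‖ := by
          rw [map_mul, map_pow, map_pow, ev_C, ev_X, norm_mul, norm_pow, norm_pow, Complex.norm_real,
            Real.norm_eq_abs, abs_of_pos hx0, Real.exp_nat_mul, Real.exp_log hx0, Int.cast_natCast,
            Complex.norm_natCast, pow_add]
          ring
        rw [e1]
        exact hx2
    obtain ⟨h4, h5⟩ := side_inf hq (by positivity) h3
    exact ⟨h4, (fin N (by omega)).trans h5⟩
  · -- the place at zero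
    push Not at hcase
    have he1 : 0 < e := by omega
    have hu0 : u.coeff 0 ≠ 0 := by
      rcases he0 with h1 | h1
      · omega
      · exact h1
    have her : (0:ℝ) < e := by exact_mod_cast he1
    have h1 : ∀ᶠ x : ℝ in 𝓝[>] 0, ‖ev (x:ℂ) (th u)‖ ≤ ‖ev (x:ℂ) u‖ := by
      apply dom_zero _ hu0
      rw [th_coeff]
      simp
    have h2 : ∀ᶠ x : ℝ in 𝓝[>] 0, ‖ev (x:ℂ) (C (K:ℤ) * X ^ (e - c₁))‖ ≤ ‖ev (x:ℂ) u‖ := by
      apply dom_zero _ hu0
      rw [coeff_C_mul, coeff_X_pow, if_neg (by omega), mul_zero]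
    have h3 : ∀ᶠ x : ℝ in 𝓝[>] 0, ((e:ℝ) / 2) ^ k2 * ‖ev (x:ℂ) (NN F 1 0 0 * u ^ k2)‖ ≤
        ‖ev (x:ℂ) (NN F (th u - C (e:ℤ) * u) u (X ^ e))‖ ∧
        ‖ev (x:ℂ) (NN F (th u - C (e:ℤ) * u) u (X ^ e))‖ ≤
          (2 * (e:ℝ)) ^ k2 * ‖ev (x:ℂ) (NN F 1 0 0 * u ^ k2)‖ := by
      filter_upwards [h1, h2, Ioo_mem_nhdsGT (Real.exp_pos (-τ₀))] with x hx1 hx2 hx3
      have hx0 : 0 < x := hx3.1
      have hlog : Real.log x ≤ -τ₀ := by
        rw [Real.log_le_iff_le_exp hx0]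
        exact hx3.2.le
      have hexp : Complex.exp ((Real.log x : ℝ) : ℂ) = (x:ℂ) := by
        rw [← Complex.ofReal_exp, Real.exp_log hx0]
      have habs : |(((Real.log x : ℝ) : ℂ)).re| = -Real.log x := by
        rw [Complex.ofReal_re, abs_of_nonpos (by linarith)]
      have h4 := h ((Real.log x : ℝ) : ℂ) (by rw [habs]; linarith) (th u - C (e:ℤ) * u) u (X ^ e) (-(e:ℂ))
        (by
          rw [norm_neg, Complex.norm_natCast]
          refine hm.trans ?_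
          have : m ≤ e := by omega
          exact_mod_cast this)
      rw [hexp, habs, norm_neg, Complex.norm_natCast] at h4
      apply h4
      · have e1 : ev (x:ℂ) (th u - C (e:ℤ) * u) - -(e:ℂ) * ev (x:ℂ) u = ev (x:ℂ) (th u) := by
          rw [map_sub, map_mul, ev_C]
          push_cast
          ring
        rw [e1]
        exact hx1
      · have e1 : ‖ev (x:ℂ) (X ^ e)‖ * (K * Real.exp (c₁ * -Real.log x)) =
            ‖ev (x:ℂ) (C (K:ℤ) * X ^ (e - c₁))‖ := by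
          have e2 : x ^ e = x ^ (e - c₁) * x ^ c₁ := by
            rw [← pow_add]
            congr 1
            omega
          have e3 : Real.exp (c₁ * -Real.log x) = (x ^ c₁)⁻¹ := by
            rw [mul_neg, Real.exp_neg, Real.exp_nat_mul, Real.exp_log hx0]
          have e4 : x ^ c₁ ≠ 0 := pow_ne_zero _ hx0.ne'
          rw [map_mul, map_pow, map_pow, ev_C, ev_X, norm_mul, norm_pow, norm_pow, Complex.norm_real,
            Real.norm_eq_abs, abs_of_pos hx0, e3, e2, Int.cast_natCast,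
            Complex.norm_natCast]
          field_simp
        rw [e1]
        exact hx2
    obtain ⟨h4, h5⟩ := side_zero hq (by positivity) h3
    exact ⟨h4, (fin e (by omega)).trans h5⟩

end Pool.Agent.Zk21.Mv
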