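import Mathlib
import Pool.Agent.Zk21.MvI
import Pool.Agent.Zk21.CaD

/-!
# Moving targets: the inequality on the circle
-/

set_option autoImplicit false

open Polynomial Metric Set Filter Topology

namespace Pool.Agent.Zk21.Mv

open Pool.Agent.R328 Pool.Agent.Zk21.Smt Pool.Agent.Zk21.Un Pool.Agent.Zk21.Pt Pool.Agent.Zk21.Ca

/-- the polynomial `x ^ (k e) F (x, u / x ^ e)` -/
noncomputable def fh (F : ℤ[X][X]) (u : ℤ[X]) (e : ℕ) : ℤ[X] :=
  ∑ i ∈ Finset.range (F.natDegree + 1), F.coeff i * u ^ i * X ^ (e * (F.natDegree - i))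

lemma ev2_sum (G : ℤ[X][X]) (x y : ℂ) :
    ev2 x y G = ∑ i ∈ Finset.range (G.natDegree + 1), ev x (G.coeff i) * y ^ i := by
  unfold ev2
  rw [coe_eval₂RingHom, eval₂_eq_sum_range]

lemma fh_eval (F : ℤ[X][X]) (u : ℤ[X]) (e : ℕ) {x : ℂ} (hx : x ≠ 0) :
    ev x (fh F u e) = x ^ (e * F.natDegree) * ev2 x (ev x u / x ^ e) F := by
  unfold fh
  rw [ev2_sum, map_sum, Finset.mul_sum]
  apply Finset.sum_congr rfl
  intro i hi
  rw [Finset.mem_range] at hi
  rw [map_mul, map_mul, map_pow, map_pow, ev_X, div_pow, ← pow_mul]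
  have h1 : x ^ (e * F.natDegree) = x ^ (e * (F.natDegree - i)) * x ^ (e * i) := by
    rw [← pow_add, ← Nat.mul_add]
    congr 2
    omega
  have h2 : x ^ (e * i) ≠ 0 := pow_ne_zero _ hx
  rw [h1]
  field_simp

lemma dEv (P : ℤ[X]) (z : ℂ) : HasDerivAt (fun t => ev (Complex.exp t) P) (ev (Complex.exp z) (th P)) z := by
  have h := (ev_deriv (Complex.exp z) P).hasDerivAt.comp z (Complex.hasDerivAt_exp z)
  have h1 : ev (Complex.exp z) (th P) = ev (Complex.exp z) (derivative P) * Complex.exp z := by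
    unfold th
    rw [map_mul, ev_X, mul_comm]
  rw [h1]
  exact h

lemma dPow (e : ℕ) (z : ℂ) :
    HasDerivAt (fun t => Complex.exp t ^ e) (e * Complex.exp z ^ e) z := by
  have h := dEv (X ^ e) z
  have h1 : (th (X ^ e : ℤ[X])) = C (e:ℤ) * X ^ e := by
    ext j
    rw [th_coeff, coeff_C_mul, coeff_X_pow]
    split_ifs with h
    · rw [h]
    · ring
  rw [h1, map_mul, ev_C, map_pow, ev_X] at h
  have h2 : (fun t => ev (Complex.exp t) (X ^ e)) = fun t => Complex.exp t ^ e := by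
    funext t
    rw [map_pow, ev_X]
  rw [h2] at h
  exact_mod_cast h

/-- the total derivative -/
lemma total (F : ℤ[X][X]) (u : ℤ[X]) (e : ℕ) {x : ℂ} (hx : x ≠ 0) :
    ev2 x (ev x u / x ^ e) (FD F) + ev2 x (ev x u / x ^ e) (derivative F) *
      ((ev x (th u) - e * ev x u) / x ^ e) =
    (ev x (th (fh F u e)) - (e * F.natDegree : ℕ) * ev x (fh F u e)) / x ^ (e * F.natDegree) := by
  obtain ⟨z, hz⟩ : ∃ z, Complex.exp z = x := ⟨Complex.log x, Complex.exp_log hx⟩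
  have quot : ∀ (P : ℤ[X]) (m : ℕ), HasDerivAt (fun t => ev (Complex.exp t) P / Complex.exp t ^ m)
      ((ev x (th P) - m * ev x P) / x ^ m) z := by
    intro P m
    have h := (dEv P z).div (dPow m z) (pow_ne_zero _ (Complex.exp_ne_zero z))
    rw [hz] at h
    have e1 : (ev x (th P) * x ^ m - ev x P * (m * x ^ m)) / (x ^ m) ^ 2 =
        (ev x (th P) - m * ev x P) / x ^ m := by
      have : x ^ m ≠ 0 := pow_ne_zero _ hx
      field_simp
    rw [e1] at h
    exact h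
  have h1 := chain F (quot u e)
  simp only [hz] at h1
  have h2 := quot (fh F u e) (e * F.natDegree)
  have h3 : (fun t => ev (Complex.exp t) (fh F u e) / Complex.exp t ^ (e * F.natDegree)) =
      fun t => ev2 (Complex.exp t) (ev (Complex.exp t) u / Complex.exp t ^ e) F := by
    funext t
    rw [fh_eval F u e (Complex.exp_ne_zero t), mul_div_cancel_left₀ _ (pow_ne_zero _ (Complex.exp_ne_zero t))]
  rw [h3] at h2
  exact h1.unique h2

/-- the pointwise inequality on the circle -/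
lemma circle_pt {F : ℤ[X][X]} (hF : F.Monic) (hk : 0 < F.natDegree) {u : ℤ[X]} {e : ℕ} {x : ℂ}
    (hx : ‖x‖ = 1) {A b : ℝ} (hg : Geo F x A b) (hu : ev x u ≠ 0) (hf : ev x (fh F u e) ≠ 0)
    {c : ℝ} (hc1 : 1 ≤ c) (hc2 : (e * F.natDegree : ℕ) ≤ c) :
    ‖ev x (NN F (th u - C (e:ℤ) * u) u (X ^ e))‖ ≤
      (5 * A * b ^ 2 * (4 * A ^ 2) ^ F.natDegree * (max 1 ‖ev x u‖ *
        (2 * c * Real.exp (FW (u.map (Int.castRingHom ℂ)) c x +
          FW ((fh F u e).map (Int.castRingHom ℂ)) c x)))) ^ (F.natDegree ^ 2) *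
      (5 * A * b ^ 2 * (4 * A ^ 2) ^ F.natDegree *
        (‖ev x (fh F u e)‖ / max 1 ‖ev x u‖ ^ F.natDegree)) ^ (2 * F.natDegree - 1) := by
  have hx0 : x ≠ 0 := by
    rintro rfl
    simp at hx
  have hxe : ∀ m : ℕ, ‖x ^ m‖ = 1 := by
    intro m
    rw [norm_pow, hx, one_pow]
  have hxe0 : x ^ e ≠ 0 := pow_ne_zero _ hx0
  obtain ⟨U, hU⟩ : ∃ U, U = ev x u / x ^ e := ⟨_, rfl⟩
  obtain ⟨V, hV⟩ : ∃ V, V = (ev x (th u) - e * ev x u) / x ^ e := ⟨_, rfl⟩
  have hUn : ‖U‖ = ‖ev x u‖ := by rw [hU, norm_div, hxe, div_one]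
  have hVn : ‖V‖ = ‖ev x (th u) - e * ev x u‖ := by rw [hV, norm_div, hxe, div_one]
  have hfn : ‖(F.map (ev x)).eval U‖ = ‖ev x (fh F u e)‖ := by
    rw [fh_eval F u e hx0, norm_mul, hxe, one_mul, ← hU, ev2_eq]
  obtain ⟨Λ, hΛ⟩ : ∃ Λ, Λ = 2 * c * Real.exp (FW (u.map (Int.castRingHom ℂ)) c x +
    FW ((fh F u e).map (Int.castRingHom ℂ)) c x) := ⟨_, rfl⟩
  have hFW1 := FW_nonneg (u.map (Int.castRingHom ℂ)) c x
  have hFW2 := FW_nonneg ((fh F u e).map (Int.castRingHom ℂ)) c x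
  have hex1 : Real.exp (FW (u.map (Int.castRingHom ℂ)) c x) ≤
      Real.exp (FW (u.map (Int.castRingHom ℂ)) c x + FW ((fh F u e).map (Int.castRingHom ℂ)) c x) :=
    Real.exp_le_exp.mpr (by linarith)
  have hex2 : Real.exp (FW ((fh F u e).map (Int.castRingHom ℂ)) c x) ≤
      Real.exp (FW (u.map (Int.castRingHom ℂ)) c x + FW ((fh F u e).map (Int.castRingHom ℂ)) c x) :=
    Real.exp_le_exp.mpr (by linarith)
  have hex0 : 1 ≤ Real.exp (FW (u.map (Int.castRingHom ℂ)) c x +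
      FW ((fh F u e).map (Int.castRingHom ℂ)) c x) := Real.one_le_exp (by linarith)
  have hΛ1 : 1 ≤ Λ := by
    rw [hΛ]
    nlinarith
  have step : ∀ (P : ℤ[X]) (m : ℕ), ev x P ≠ 0 → (m : ℝ) ≤ c →
      Real.exp (FW (P.map (Int.castRingHom ℂ)) c x) ≤ Real.exp (FW (u.map (Int.castRingHom ℂ)) c x +
        FW ((fh F u e).map (Int.castRingHom ℂ)) c x) →
      ‖ev x (th P) - m * ev x P‖ ≤ ‖ev x P‖ * Λ := by
    intro P m hP hm hex
    have h1 := one_step (P := P.map (Int.castRingHom ℂ)) (c := c) (by linarith) (x := x)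
      (fun _ => by rwa [← ev_eq])
    rw [th_map, ← ev_eq, ← ev_eq] at h1
    have h2 : ‖(m:ℂ) * ev x P‖ ≤ ‖ev x P‖ * c := by
      rw [norm_mul, Complex.norm_natCast, mul_comm]
      exact mul_le_mul_of_nonneg_left hm (norm_nonneg _)
    refine (norm_sub_le _ _).trans ((add_le_add h1 h2).trans ?_)
    rw [← mul_add]
    apply mul_le_mul_of_nonneg_left _ (norm_nonneg _)
    rw [hΛ]
    have hc0 : 0 ≤ c := by linarith
    have h3 := mul_le_mul_of_nonneg_left hex hc0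
    have h4 := mul_le_mul_of_nonneg_left hex0 hc0
    nlinarith
  have hVΛ : ‖V‖ ≤ ‖U‖ * Λ := by
    rw [hVn, hUn]
    apply step u e hu _ hex1
    have h1 : (e:ℝ) ≤ (e * F.natDegree : ℕ) := by
      exact_mod_cast Nat.le_mul_of_pos_right e hk
    exact h1.trans hc2
  have hfΛ : ‖((FD F).map (ev x)).eval U + V * (derivative (F.map (ev x))).eval U‖ ≤
      ‖(F.map (ev x)).eval U‖ * Λ := by
    have h1 := total F u e hx0
    rw [← hU, ← hV, ev2_eq, ev2_eq, ← derivative_map] at h1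
    rw [mul_comm V, h1, norm_div, hxe, div_one, hfn]
    exact step (fh F u e) (e * F.natDegree) hf hc2 hex2
  have hcard := Rt_card hF x hg.nodup
  have hprod : F.map (ev x) = ∏ α ∈ Rt F x hg.nodup, (X - C α) := by
    have h1 := (IsAlgClosed.splits (F.map (ev x))).eq_prod_roots_of_monic (hF.map _)
    exact h1
  have hstar := star hprod (r := rr F x) hg.hA hg.hb hg.bd hg.sep hg.gb hg.hh hg.lg hg.lh hg.rb
    (fun α _ β _ _ => rr_rel F x α β) hΛ1 hVΛ hfΛ (by rw [hcard]; exact hk)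
  rw [hcard, hUn, hfn, hΛ] at hstar
  refine le_trans (le_of_eq ?_) hstar
  rw [NN_fin hF _ _ _ x hg.nodup, norm_prod]
  apply Finset.prod_congr rfl
  intro α _
  rw [norm_prod]
  apply Finset.prod_congr rfl
  intro β _
  have e1 : ev x (th u - C (e:ℤ) * u) = x ^ e * V := by
    rw [map_sub, map_mul, ev_C, hV, mul_div_cancel₀ _ hxe0]
    push_cast
    ring
  have e2 : ev x u = x ^ e * U := by rw [hU, mul_div_cancel₀ _ hxe0]
  have e3 : ev x (X ^ e) = x ^ e := by rw [map_pow, ev_X]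
  have e4 : ev x (th u - C (e:ℤ) * u) * ((derivative (F.map (ev x))).eval α *
      (derivative (F.map (ev x))).eval β) + ev x u * rr F x α β +
      ev x (X ^ e) * (-α * rr F x α β + ((FD F).map (ev x)).eval α *
        (derivative (F.map (ev x))).eval β) =
      x ^ e * wt (F.map (ev x)) ((FD F).map (ev x)) (rr F x) U V α β := by
    rw [e1, e2, e3]
    unfold wt
    ring
  rw [e4, norm_mul, hxe, one_mul]

end Pool.Agent.Zk21.Mv
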