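import Mathlib
import Pool.Agent.Zk21.MvJ

/-!
# Moving targets: the height
-/

set_option autoImplicit false

open Polynomial Metric Set Filter Topology Real

namespace Pool.Agent.Zk21.Mv

open Pool.Agent.R328 Pool.Agent.Zk21.Smt Pool.Agent.Zk21.Un Pool.Agent.Zk21.Pt Pool.Agent.Zk21.Ca

/-- a bound for the degree -/
lemma fh_deg (F : ℤ[X][X]) {u : ℤ[X]} {e n : ℕ} (hu : u.natDegree ≤ n) (he : e ≤ n) :
    (fh F u e).natDegree ≤ (∑ i ∈ Finset.range (F.natDegree + 1), (F.coeff i).natDegree) +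
      F.natDegree * n := by
  unfold fh
  apply natDegree_sum_le_of_forall_le
  intro i hi
  have h1 : (F.coeff i).natDegree ≤ ∑ i ∈ Finset.range (F.natDegree + 1), (F.coeff i).natDegree :=
    Finset.single_le_sum (f := fun i => (F.coeff i).natDegree) (fun _ _ => Nat.zero_le _) hi
  rw [Finset.mem_range] at hi
  refine (natDegree_mul_le).trans ?_
  rw [natDegree_X_pow]
  have h2 : (F.coeff i * u ^ i).natDegree ≤ (F.coeff i).natDegree + i * n :=
    natDegree_mul_le.trans (by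
      have h3 := natDegree_pow_le (p := u) (n := i)
      have h4 : i * u.natDegree ≤ i * n := Nat.mul_le_mul_left _ hu
      omega)
  have h3 : e * (F.natDegree - i) ≤ n * (F.natDegree - i) := Nat.mul_le_mul_right _ he
  have h4 : i * n + n * (F.natDegree - i) = F.natDegree * n := by
    rw [mul_comm i, ← Nat.mul_add, mul_comm]
    congr 1
    omega
  omega

/-- the logarithm of the constant in the pointwise inequality -/
lemma log_kappa {A b E : ℝ} {k : ℕ} (hA : 1 ≤ A) (hb : 1 ≤ b) (hAE : A ≤ E) (hbE : b ≤ E) :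
    1 ≤ 5 * A * b ^ 2 * (4 * A ^ 2) ^ k ∧
    log (5 * A * b ^ 2 * (4 * A ^ 2) ^ k) ≤ log (5 * 4 ^ k) + (3 + 2 * k) * log E := by
  have h1 : 1 ≤ b ^ 2 := one_le_pow₀ hb
  have h2 : 1 ≤ (4 * A ^ 2) ^ k := one_le_pow₀ (by nlinarith)
  have h3 : 1 ≤ 5 * A := by linarith
  have hE : 1 ≤ E := hA.trans hAE
  refine ⟨o1 (o1 h3 h1) h2, ?_⟩
  have e1 : log (5 * 4 ^ k) + (3 + 2 * k) * log E = log (5 * E * E ^ 2 * (4 * E ^ 2) ^ k) := by
    have e2 : 5 * E * E ^ 2 * (4 * E ^ 2) ^ k = (5 * 4 ^ k) * E ^ (3 + 2 * k) := by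
      rw [mul_pow, ← pow_mul, pow_add]
      ring
    have e3 : log ((5 * 4 ^ k) * E ^ (3 + 2 * k)) = log (5 * 4 ^ k) + (3 + 2 * k) * log E := by
      rw [log_mul (by positivity) (by positivity), log_pow]
      push_cast
      ring
    rw [e2, e3]
  rw [e1]
  apply log_le_log (by positivity)
  have hA0 : 0 ≤ A := by linarith
  gcongr

/-- the final arithmetic -/
lemma arith {k T L N ln l2c l8 l4 sB sBc a1 a2 B₃ : ℝ} (hk : 2 ≤ k) (hT : 0 ≤ T) (hL : 0 ≤ L)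
    (hB₃ : B₃ = sB + k ^ 2 * l8 + k ^ 2 * l4 + sBc + 4 * k ^ 2) (hB0 : 0 ≤ B₃)
    (hN : k ^ 2 * (ln - l4) ≤ N) (h2c : l2c ≤ l8 + ln) (ha1 : a1 ≤ 2) (ha2 : a2 ≤ 2)
    (hpt : N ≤ (sB + k ^ 2 * l2c) + (sBc + (-(k * (k - 1)) * T + (k ^ 2 * (a1 + a2) +
      (2 * k - 1) * L)))) : T ≤ (B₃ + 2 * k) * (1 + L) := by
  have hk20 : 0 ≤ k ^ 2 := by positivity
  have g1 : k ^ 2 * l2c ≤ k ^ 2 * (l8 + ln) := mul_le_mul_of_nonneg_left h2c hk20
  have g2 : k ^ 2 * (a1 + a2) ≤ k ^ 2 * 4 := mul_le_mul_of_nonneg_left (by linarith) hk20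
  have g3 : k * (k - 1) * T ≤ B₃ + (2 * k - 1) * L := by
    rw [hB₃]
    linarith
  have g4 : T ≤ k * (k - 1) * T := by
    have : 1 ≤ k * (k - 1) := by nlinarith
    exact le_mul_of_one_le_left hT this
  have g5 : 0 ≤ B₃ * L := mul_nonneg hB0 hL
  linarith

/-- the height is bounded by the measure -/
theorem T_bound {F : ℤ[X][X]} (hF : F.Monic) (hk : 2 ≤ F.natDegree) {P Q : ℤ[X][X]} {r : ℤ[X]}
    (hB : P * F + Q * derivative F = C r) (hr : r ≠ 0) : ∃ B : ℝ, 0 ≤ B ∧ ∃ n₁ : ℕ,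
      ∀ (u : ℤ[X]) (e : ℕ), (e = 0 ∨ u.coeff 0 ≠ 0) → n₁ ≤ max u.natDegree e →
      fh F u e ≠ 0 → mp (u.map (Int.castRingHom ℂ)) ≤ B * (1 + lM (fh F u e)) := by
  obtain ⟨n₁, hn₁, hlow⟩ := NN_lower hF (by omega) hB hr
  obtain ⟨C₀, hC₀, cg, hgeo⟩ := geo hF hB
  obtain ⟨k, hkdef⟩ : ∃ k, k = F.natDegree := ⟨_, rfl⟩
  obtain ⟨D, hD⟩ : ∃ D, D = ∑ i ∈ Finset.range (F.natDegree + 1), (F.coeff i).natDegree := ⟨_, rfl⟩
  rw [← hkdef] at hk hlow
  have hkR : (2:ℝ) ≤ k := by exact_mod_cast hk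
  set r' := r.map (Int.castRingHom ℂ) with hr'
  obtain ⟨cr, hcr⟩ : ∃ cr, cr = circleAverage (fun x => log⁺ ‖(1:ℂ[X]).eval x / r'.eval x‖) 0 1 := ⟨_, rfl⟩
  have hcr0 : 0 ≤ cr := by
    rw [hcr]
    exact circleAverage_nonneg_of_nonneg fun _ _ => posLog_nonneg
  obtain ⟨s, hs⟩ : ∃ s : ℝ, s = (k:ℝ) ^ 2 + 2 * k - 1 := ⟨_, rfl⟩
  have hs0 : 0 ≤ s := by rw [hs]; nlinarith
  obtain ⟨B₁, hB₁⟩ : ∃ B₁ : ℝ, B₁ = log (5 * 4 ^ k) + (3 + 2 * k) * log C₀ := ⟨_, rfl⟩
  have hlC : 0 ≤ log C₀ := log_nonneg hC₀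
  have hB₁0 : 0 ≤ B₁ := by
    rw [hB₁]
    have : (1:ℝ) ≤ 5 * 4 ^ k := by
      have : (1:ℝ) ≤ 4 ^ k := one_le_pow₀ (by norm_num)
      linarith
    have := log_nonneg this
    positivity
  obtain ⟨B₂, hB₂⟩ : ∃ B₂ : ℝ, B₂ = (3 + 2 * k) * cg := ⟨_, rfl⟩
  have hB₂0 : 0 ≤ B₂ := by rw [hB₂]; positivity
  obtain ⟨B₃, hB₃⟩ : ∃ B₃ : ℝ, B₃ = s * B₁ + (k:ℝ) ^ 2 * log (8 * (k + D)) + (k:ℝ) ^ 2 * log 4 +
    s * B₂ * cr + 4 * (k:ℝ) ^ 2 := ⟨_, rfl⟩
  have hl8 : 0 ≤ log (8 * ((k:ℝ) + D)) := by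
    apply log_nonneg
    have : (0:ℝ) ≤ D := Nat.cast_nonneg _
    linarith
  have hl4 : 0 ≤ log 4 := log_nonneg (by norm_num)
  have hB₃0 : 0 ≤ B₃ := by
    rw [hB₃]
    positivity
  refine ⟨B₃ + 2 * k, by positivity, n₁, ?_⟩
  intro u e he0 hn hf0
  have hu0 : u ≠ 0 := by
    rintro rfl
    rw [natDegree_zero] at hn
    rcases he0 with h1 | h1
    · omega
    · simp at h1
  obtain ⟨hNN, hNNl⟩ := hlow u e he0 hn
  obtain ⟨n, hndef⟩ : ∃ n, n = max u.natDegree e := ⟨_, rfl⟩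
  rw [← hndef] at hn hNNl
  have he : e ≤ n := by omega
  have hun : u.natDegree ≤ n := by omega
  obtain ⟨f, hf⟩ : ∃ f, f = fh F u e := ⟨_, rfl⟩
  rw [← hf] at hf0 ⊢
  obtain ⟨NP, hNP⟩ : ∃ NP, NP = NN F (th u - C (e:ℤ) * u) u (X ^ e) := ⟨_, rfl⟩
  rw [← hNP] at hNN hNNl
  have hn0 : 1 ≤ n := by omega
  have hnR : (1:ℝ) ≤ n := by exact_mod_cast hn0
  obtain ⟨c, hc⟩ : ∃ c : ℝ, c = 4 * ((k:ℝ) * n + D) := ⟨_, rfl⟩
  have hDR : (0:ℝ) ≤ D := Nat.cast_nonneg _
  have hkn : (2:ℝ) ≤ k * n := by nlinarith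
  have hc1 : 1 ≤ c := by rw [hc]; linarith
  have hek : ((e * F.natDegree : ℕ) : ℝ) ≤ c := by
    rw [hc, ← hkdef]
    have h1 : ((e * k : ℕ) : ℝ) ≤ k * n := by
      have : e * k ≤ k * n := by rw [mul_comm]; exact Nat.mul_le_mul_left _ he
      exact_mod_cast this
    linarith
  set u' := u.map (Int.castRingHom ℂ) with hu'
  set f' := f.map (Int.castRingHom ℂ) with hf'
  set N' := NP.map (Int.castRingHom ℂ) with hN'
  have hud : (u'.natDegree : ℝ) ≤ n := by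
    have : u'.natDegree ≤ n := by rw [hu', natDeg_map]; exact hun
    exact_mod_cast this
  have hfd : f'.natDegree ≤ D + k * n := by
    rw [hf', natDeg_map, hD, hkdef, hf]
    exact fh_deg F hun he
  have ha1 : circleAverage (FW u' c) 0 1 ≤ 2 := by
    refine (FW_avg (by linarith) ?_).trans ?_
    · rw [hc]
      nlinarith
    · rw [div_le_iff₀ (by linarith), hc]
      nlinarith
  have hfdR : (f'.natDegree : ℝ) ≤ D + k * n := by exact_mod_cast hfd
  have ha2 : circleAverage (FW f' c) 0 1 ≤ 2 := by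
    refine (FW_avg (by linarith) ?_).trans ?_
    · rw [hc]
      linarith
    · rw [div_le_iff₀ (by linarith), hc]
      linarith
  -- the pointwise inequality
  have hpt : circleAverage (fun x => log ‖N'.eval x‖) 0 1 ≤ circleAverage
      ((fun _ => s * B₁ + (k:ℝ) ^ 2 * log (2 * c)) +
        ((s * B₂) • (fun x => log⁺ ‖(1:ℂ[X]).eval x / r'.eval x‖) +
        ((-((k:ℝ) * (k - 1))) • (fun x => log⁺ ‖u'.eval x‖) +
        (((k:ℝ) ^ 2) • (FW u' c + FW f' c) + (2 * (k:ℝ) - 1) • (fun x => log ‖f'.eval x‖))))) 0 1 := by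
    apply circleAverage_mono_off (log_int _)
      ((circleIntegrable_const _ _ _).add (((posLog_ratio_int _ _).const_smul).add
        (((posLog_int _).const_smul).add ((((FW_int _ _).add (FW_int _ _)).const_smul).add
          ((log_int _).const_smul)))))
      ((((roots_countable (map_ne hu0)).union (roots_countable (map_ne hf0))).union
        (roots_countable (map_ne hNN))).union (roots_countable (map_ne hr)))
    intro x hx hxZ
    rw [mem_sphere_zero_iff_norm] at hx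
    simp only [Set.mem_union, not_or] at hxZ
    obtain ⟨⟨⟨hx1, hx2⟩, hx3⟩, hx4⟩ := hxZ
    have hx1' : ev x u ≠ 0 := by rw [ev_eq]; exact hx1
    have hx2' : ev x f ≠ 0 := by rw [ev_eq]; exact hx2
    have hx3' : ev x NP ≠ 0 := by rw [ev_eq]; exact hx3
    have hx4' : ev x r ≠ 0 := by rw [ev_eq]; exact hx4
    obtain ⟨w, hw⟩ : ∃ w, w = log⁺ ‖(1:ℂ[X]).eval x / r'.eval x‖ := ⟨_, rfl⟩
    have hw0 : 0 ≤ w := by rw [hw]; exact posLog_nonneg
    have hW1 : 1 ≤ exp w := one_le_exp hw0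
    have hWr : 1 ≤ exp w * ‖ev x r‖ := by
      have h1 := le_exp_posLog (norm_nonneg ((1:ℂ[X]).eval x / r'.eval x))
      rw [← hw, eval_one, norm_div, norm_one, hr', ← ev_eq, div_le_iff₀ (norm_pos_iff.mpr hx4')] at h1
      exact h1
    obtain ⟨A, b, hg, hA, hb⟩ := hgeo x (exp w) hW1 (by rw [hx]; exact hW1) hWr
    have hpt := circle_pt hF (by omega) (u := u) (e := e) hx hg hx1' (by rw [← hf]; exact hx2') hc1 hek
    rw [← hf, ← hNP, ← hkdef, ← hu', ← hf'] at hpt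
    obtain ⟨hκ1, hκ2⟩ := log_kappa (k := k) hg.hA hg.hb hA hb
    obtain ⟨κ, hκ⟩ : ∃ κ, κ = 5 * A * b ^ 2 * (4 * A ^ 2) ^ k := ⟨_, rfl⟩
    rw [← hκ] at hpt hκ1 hκ2
    have hκ0 : 0 < κ := by linarith
    have hlE : log (C₀ * exp w ^ cg) = log C₀ + cg * w := by
      rw [log_mul (by positivity) (by positivity), ← exp_nat_mul, log_exp]
    have hκ3 : log κ ≤ B₁ + B₂ * w := by
      rw [hlE] at hκ2
      refine hκ2.trans (le_of_eq ?_)
      rw [hB₁, hB₂]
      ring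
    obtain ⟨m, hm⟩ : ∃ m, m = max 1 ‖ev x u‖ := ⟨_, rfl⟩
    rw [← hm] at hpt
    have hm1 : 1 ≤ m := by rw [hm]; exact le_max_left _ _
    have hlm : log m = log⁺ ‖u'.eval x‖ := by
      rw [hm, ← posLog_eq_log_max_one (norm_nonneg _), ev_eq]
    have hfx : 0 < ‖ev x f‖ := norm_pos_iff.mpr hx2'
    have hlog := log_le_log (norm_pos_iff.mpr hx3') hpt
    have hc0 : 0 < c := by linarith
    rw [log_mul (by positivity) (by positivity), log_pow, log_pow, log_mul hκ0.ne' (by positivity),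
      log_mul (by positivity) (by positivity), log_mul (by positivity) (by positivity), log_exp,
      log_mul hκ0.ne' (by positivity), log_div hfx.ne' (by positivity), log_pow] at hlog
    have hc21 : ((2 * k - 1 : ℕ) : ℝ) = 2 * k - 1 := by
      rw [Nat.cast_sub (by omega)]
      push_cast
      ring
    rw [hc21] at hlog
    simp only [Pi.add_apply, Pi.smul_apply, smul_eq_mul]
    rw [hlm] at hlog
    have hNe : N'.eval x = ev x NP := (ev_eq x NP).symm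
    have hfe : f'.eval x = ev x f := (ev_eq x f).symm
    rw [← hw, hNe, hfe]
    push_cast at hlog
    have hsk : s * log κ ≤ s * (B₁ + B₂ * w) := mul_le_mul_of_nonneg_left hκ3 hs0
    have hexp : (k:ℝ) ^ 2 * (log κ + (log⁺ ‖u'.eval x‖ + (log (2 * c) + (FW u' c x + FW f' c x)))) +
        (2 * (k:ℝ) - 1) * (log κ + (log ‖ev x f‖ - k * log⁺ ‖u'.eval x‖)) =
        s * log κ + (k:ℝ) ^ 2 * log (2 * c) + (-((k:ℝ) * (k - 1))) * log⁺ ‖u'.eval x‖ +
        (k:ℝ) ^ 2 * (FW u' c x + FW f' c x) + (2 * (k:ℝ) - 1) * log ‖ev x f‖ := by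
      rw [hs]
      ring
    rw [hexp] at hlog
    linarith
  rw [circleAverage_add (circleIntegrable_const _ _ _) (((posLog_ratio_int _ _).const_smul).add
        (((posLog_int _).const_smul).add ((((FW_int _ _).add (FW_int _ _)).const_smul).add
          ((log_int _).const_smul)))),
    circleAverage_add ((posLog_ratio_int _ _).const_smul)
        (((posLog_int _).const_smul).add ((((FW_int _ _).add (FW_int _ _)).const_smul).add
          ((log_int _).const_smul))),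
    circleAverage_add ((posLog_int _).const_smul) ((((FW_int _ _).add (FW_int _ _)).const_smul).add
          ((log_int _).const_smul)),
    circleAverage_add (((FW_int _ _).add (FW_int _ _)).const_smul) ((log_int _).const_smul),
    circleAverage_const, circleAverage_smul, circleAverage_smul, circleAverage_smul, circleAverage_smul,
    circleAverage_add (FW_int _ _) (FW_int _ _), Un.log_mahler, Un.log_mahler, ← hcr] at hpt
  simp only [smul_eq_mul] at hpt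
  have hT : circleAverage (fun x => log⁺ ‖u'.eval x‖) 0 1 = mp u' := rfl
  rw [hT] at hpt
  have hlM1 : lM NP = log N'.mahlerMeasure := rfl
  have hlM2 : lM f = log f'.mahlerMeasure := rfl
  rw [← hlM1, ← hlM2] at hpt
  have hlM0 : 0 ≤ lM f := lM_nonneg hf0
  have hT0 : 0 ≤ mp u' := mp_nonneg u'
  have h2c : log (2 * c) ≤ log (8 * (k + D)) + log n := by
    rw [← log_mul (by positivity) (by positivity)]
    apply log_le_log (by linarith)
    rw [hc]
    nlinarith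
  have hk2 : ((k * k : ℕ) : ℝ) = (k:ℝ) ^ 2 := by push_cast; ring
  rw [hk2] at hNNl
  exact arith hkR hT0 hlM0 hB₃ hB₃0 hNNl h2c ha1 ha2 hpt

end Pool.Agent.Zk21.Mv
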