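import Mathlib
import Pool.Agent.Zk21.MvK

/-!
# Moving targets: the gap
-/

set_option autoImplicit false

open Polynomial Metric Set Filter Topology Real

namespace Pool.Agent.Zk21.Mv

open Pool.Agent.R328 Pool.Agent.Zk21.Smt Pool.Agent.Zk21.Un Pool.Agent.Zk21.Pt Pool.Agent.Zk21.Ca

/-- bounded degree -/
lemma gap_deg (D : ℕ) : ∃ μ : ℝ, 1 < μ ∧ ∀ g : ℤ[X], g ≠ 0 → g.natDegree ≤ D →
    (g.map (Int.castRingHom ℂ)).mahlerMeasure = 1 ∨
      μ ≤ (g.map (Int.castRingHom ℂ)).mahlerMeasure := by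
  have hfin := Polynomial.finite_mahlerMeasure_le D 2
  have hfin2 := hfin.image (fun g : ℤ[X] => (g.map (Int.castRingHom ℂ)).mahlerMeasure)
  obtain ⟨S, hS⟩ : ∃ S : Finset ℝ, ∀ t, t ∈ S ↔
      t ∈ (fun g : ℤ[X] => (g.map (Int.castRingHom ℂ)).mahlerMeasure) ''
        {p | p.natDegree ≤ D ∧ (p.map (Int.castRingHom ℂ)).mahlerMeasure ≤ ((2 : NNReal) : ℝ)} :=
    ⟨hfin2.toFinset, fun t => by rw [Set.Finite.mem_toFinset]⟩
  have hex : ∃ μ : ℝ, 1 < μ ∧ μ ≤ 2 ∧ ∀ t ∈ S, 1 < t → μ ≤ t := by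
    clear hS
    induction S using Finset.induction_on with
    | empty => exact ⟨2, by norm_num, le_rfl, by simp⟩
    | insert a S _ ih =>
      obtain ⟨μ, h1, h2, h3⟩ := ih
      by_cases ha : 1 < a
      · refine ⟨min μ a, lt_min h1 ha, (min_le_left _ _).trans h2, ?_⟩
        intro t ht ht1
        rcases Finset.mem_insert.mp ht with h | h
        · rw [h]
          exact min_le_right _ _
        · exact (min_le_left _ _).trans (h3 t h ht1)
      · refine ⟨μ, h1, h2, ?_⟩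
        intro t ht ht1
        rcases Finset.mem_insert.mp ht with h | h
        · rw [h] at ht1
          exact absurd ht1 ha
        · exact h3 t h ht1
  obtain ⟨μ, h1, h2, h3⟩ := hex
  refine ⟨μ, h1, ?_⟩
  intro g hg hgd
  have h4 : 0 ≤ lM g := lM_nonneg hg
  have h5 : 1 ≤ (g.map (Int.castRingHom ℂ)).mahlerMeasure := by
    have := mahler_pos hg
    unfold lM at h4
    by_contra h6
    exact absurd h4 (not_le.mpr (log_neg this (not_le.mp h6)))
  rcases h5.eq_or_lt with h6 | h6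
  · exact Or.inl h6.symm
  right
  by_cases h7 : (g.map (Int.castRingHom ℂ)).mahlerMeasure ≤ 2
  · exact h3 _ ((hS _).mpr ⟨g, ⟨hgd, by exact_mod_cast h7⟩, rfl⟩) h6
  · exact h2.trans (not_le.mp h7).le

lemma clear {G : ℤ[X][X]} (h : (G.map (algebraMap ℤ[X] (FractionRing ℤ[X]))).Separable) :
    ∃ (P Q : ℤ[X][X]) (r : ℤ[X]), r ≠ 0 ∧ P * G + Q * derivative G = C r := by
  obtain ⟨A, B, hAB⟩ := h
  obtain ⟨a, ha, hA⟩ := IsLocalization.integerNormalization_spec (nonZeroDivisors ℤ[X]) A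
  obtain ⟨b, hb, hB⟩ := IsLocalization.integerNormalization_spec (nonZeroDivisors ℤ[X]) B
  have ha0 : a ≠ 0 := nonZeroDivisors.ne_zero ha
  have hb0 : b ≠ 0 := nonZeroDivisors.ne_zero hb
  refine ⟨C b * IsLocalization.integerNormalization (nonZeroDivisors ℤ[X]) A,
    C a * IsLocalization.integerNormalization (nonZeroDivisors ℤ[X]) B, a * b, mul_ne_zero ha0 hb0, ?_⟩
  apply Polynomial.map_injective _ (IsFractionRing.injective ℤ[X] (FractionRing ℤ[X]))
  have e1 : ∀ (c : ℤ[X]) (R : (FractionRing ℤ[X])[X]), c • R = C (algebraMap ℤ[X] (FractionRing ℤ[X]) c) * R := by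
    intro c R
    rw [← algebraMap_smul (FractionRing ℤ[X]) c R, smul_eq_C_mul]
  rw [Polynomial.map_add, Polynomial.map_mul, Polynomial.map_mul, Polynomial.map_mul,
    Polynomial.map_mul, map_C, map_C, map_C, hA, hB, e1, e1, ← derivative_map, map_mul, C_mul]
  linear_combination (C (algebraMap ℤ[X] (FractionRing ℤ[X]) a) *
    C (algebraMap ℤ[X] (FractionRing ℤ[X]) b)) * hAB

lemma sep_norm {F : ℤ[X][X]} (hk : 1 ≤ F.natDegree)
    (h : (F.map (algebraMap ℤ[X] (FractionRing ℤ[X]))).Separable) :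
    ((integralNormalization F).map (algebraMap ℤ[X] (FractionRing ℤ[X]))).Separable := by
  have hF : F ≠ 0 := by
    rintro rfl
    simp at hk
  obtain ⟨a, ha⟩ : ∃ a, a = algebraMap ℤ[X] (FractionRing ℤ[X]) F.leadingCoeff := ⟨_, rfl⟩
  have ha0 : a ≠ 0 := by
    rw [ha]
    exact (map_ne_zero_iff _ (IsFractionRing.injective ℤ[X] (FractionRing ℤ[X]))).mpr
      (leadingCoeff_ne_zero.mpr hF)
  set FK := F.map (algebraMap ℤ[X] (FractionRing ℤ[X])) with hFK
  have e1 : (integralNormalization F).map (algebraMap ℤ[X] (FractionRing ℤ[X])) =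
      C (a ^ (F.natDegree - 1)) * FK.comp (C a⁻¹ * X) := by
    ext i
    rw [coeff_map, coeff_C_mul, comp_C_mul_X_coeff, hFK, coeff_map]
    have h1 := congrArg (algebraMap ℤ[X] (FractionRing ℤ[X]))
      (integralNormalization_coeff_mul_leadingCoeff_pow (p := F) i hk)
    rw [map_mul, map_mul, map_pow, map_pow, ← ha] at h1
    have h2 : a ^ i ≠ 0 := pow_ne_zero _ ha0
    rw [inv_pow]
    field_simp
    rw [h1]
    ring
  obtain ⟨A, B, hAB⟩ := h
  have h2 := congrArg (fun R => R.comp (C a⁻¹ * X)) hAB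
  simp only [add_comp, mul_comp, one_comp] at h2
  have h3 : derivative (FK.comp (C a⁻¹ * X)) = C a⁻¹ * (derivative FK).comp (C a⁻¹ * X) := by
    rw [derivative_comp, derivative_C_mul, derivative_X, mul_one]
  rw [e1]
  apply Separable.unit_mul (isUnit_C.mpr (isUnit_iff_ne_zero.mpr (pow_ne_zero _ ha0)))
  refine ⟨A.comp (C a⁻¹ * X), C a * B.comp (C a⁻¹ * X), ?_⟩
  rw [h3]
  have h4 : (C a : (FractionRing ℤ[X])[X]) * C a⁻¹ = 1 := by
    rw [← C_mul, mul_inv_cancel₀ ha0, C_1]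
  linear_combination h2 + (B.comp (C a⁻¹ * X) * (derivative FK).comp (C a⁻¹ * X)) * h4

/-- a common power of `X` -/
lemma fh_X (F : ℤ[X][X]) (v : ℤ[X]) (j e : ℕ) :
    fh F (X ^ j * v) (e + j) = X ^ (j * F.natDegree) * fh F v e := by
  unfold fh
  rw [Finset.mul_sum]
  apply Finset.sum_congr rfl
  intro i hi
  rw [Finset.mem_range] at hi
  have h1 : (X : ℤ[X]) ^ (j * F.natDegree) = X ^ (j * i) * X ^ (j * (F.natDegree - i)) := by
    rw [← pow_add, ← Nat.mul_add]
    congr 2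
    omega
  rw [mul_pow, ← pow_mul, Nat.add_mul, pow_add, h1]
  ring

lemma norm_exists (e : ℕ) : ∀ v : ℤ[X], ∃ (j : ℕ) (v' : ℤ[X]) (e' : ℕ), v = X ^ j * v' ∧ e = e' + j ∧
    (e' = 0 ∨ v'.coeff 0 ≠ 0) := by
  induction e with
  | zero => exact fun v => ⟨0, v, 0, by simp, rfl, Or.inl rfl⟩
  | succ e ih =>
    intro v
    by_cases h : v.coeff 0 = 0
    · obtain ⟨v₁, hv₁⟩ := X_dvd_iff.mpr h
      obtain ⟨j, v', e', h1, h2, h3⟩ := ih v₁
      refine ⟨j + 1, v', e', ?_, by omega, h3⟩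
      rw [hv₁, h1, pow_succ]
      ring
    · exact ⟨0, v, e + 1, by simp, rfl, Or.inr h⟩

/-- the passage to a monic polynomial -/
lemma fh_norm {F : ℤ[X][X]} (hk : 1 ≤ F.natDegree) (u : ℤ[X]) (e : ℕ) :
    fh (integralNormalization F) (F.leadingCoeff * u) e = F.leadingCoeff ^ (F.natDegree - 1) * fh F u e := by
  unfold fh
  rw [natDegree_integralNormalization, Finset.mul_sum]
  apply Finset.sum_congr rfl
  intro i _
  have h := integralNormalization_coeff_mul_leadingCoeff_pow (p := F) i hk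
  calc (integralNormalization F).coeff i * (F.leadingCoeff * u) ^ i * X ^ (e * (F.natDegree - i)) =
      ((integralNormalization F).coeff i * F.leadingCoeff ^ i) * u ^ i * X ^ (e * (F.natDegree - i)) := by
        rw [mul_pow]; ring
    _ = _ := by rw [h]; ring

lemma lM_X (j : ℕ) : lM (X ^ j) = 0 := by
  rw [lM_pow X_ne_zero]
  unfold lM
  have h := mahlerMeasure_X_sub_C 0
  rw [C_0, sub_zero, norm_zero, max_eq_left zero_le_one] at h
  rw [map_X, h, log_one, mul_zero]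

/-- the values on the circle -/
lemma fh_le {F : ℤ[X][X]} : ∃ L : ℝ, 1 ≤ L ∧ ∀ (u : ℤ[X]) (e : ℕ) (x : ℂ), ‖x‖ = 1 →
    log⁺ ‖ev x (fh F u e)‖ ≤ log L + F.natDegree * log⁺ ‖ev x u‖ := by
  obtain ⟨L, hL, D, h⟩ := coeff_growth F
  refine ⟨((F.natDegree : ℝ) + 1) * L, ?_, ?_⟩
  · have : (0:ℝ) ≤ F.natDegree := Nat.cast_nonneg _
    nlinarith
  intro u e x hx
  have hx0 : x ≠ 0 := by
    rintro rfl
    simp at hx
  have hxe : ∀ m : ℕ, ‖x ^ m‖ = 1 := by
    intro m
    rw [norm_pow, hx, one_pow]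
  have h1 : ∀ i, ‖(F.map (ev x)).coeff i‖ ≤ L := by
    intro i
    have := h x 1 le_rfl hx.le i
    rwa [one_pow, mul_one] at this
  obtain ⟨m, hm⟩ : ∃ m, m = max 1 ‖ev x u‖ := ⟨_, rfl⟩
  have hm1 : 1 ≤ m := by rw [hm]; exact le_max_left _ _
  have h2 : ‖ev x (fh F u e)‖ ≤ (((F.natDegree : ℝ) + 1) * L) * m ^ F.natDegree := by
    rw [fh_eval F u e hx0, norm_mul, hxe, one_mul, ev2_eq]
    refine pb natDegree_map_le h1 hm1 ?_
    rw [norm_div, hxe, div_one, hm]
    exact le_max_right _ _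
  have hkL : 1 ≤ ((F.natDegree : ℝ) + 1) * L := by
    have : (0:ℝ) ≤ F.natDegree := Nat.cast_nonneg _
    nlinarith
  have h3 : log m = log⁺ ‖ev x u‖ := by
    rw [hm, posLog_eq_log_max_one (norm_nonneg _)]
  rw [posLog_eq_log_max_one (norm_nonneg _), ← h3, ← log_pow, ← log_mul (by positivity) (by positivity)]
  apply log_le_log (by positivity)
  exact max_le (o1 hkL (one_le_pow₀ hm1)) h2

/-- the proximity to the constants, in terms of the height -/
lemma prox_bound {G : ℤ[X][X]} : ∃ K₀ : ℝ, 0 ≤ K₀ ∧ ∀ (a f v : ℤ[X]) (e m : ℕ), a ≠ 0 → f ≠ 0 →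
    fh G v e ≠ 0 → (∀ x : ℂ, ‖x‖ = 1 → ‖ev x a‖ ^ m * ‖ev x f‖ = ‖ev x (fh G v e)‖) →
    prox f 1 ≤ m * mp (a.map (Int.castRingHom ℂ)) + K₀ +
      G.natDegree * mp (v.map (Int.castRingHom ℂ)) := by
  obtain ⟨L, hL, h⟩ := fh_le (F := G)
  refine ⟨log L, log_nonneg hL, ?_⟩
  intro a f v e m ha hf hg hx
  set a' := a.map (Int.castRingHom ℂ) with ha'
  set f' := f.map (Int.castRingHom ℂ) with hf'
  set v' := v.map (Int.castRingHom ℂ) with hv'
  set g' := (fh G v e).map (Int.castRingHom ℂ) with hg'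
  have key : prox f 1 ≤ circleAverage (((m:ℝ) • (fun x => log⁺ ‖a'.eval x‖)) + ((fun _ => log L) +
      (((G.natDegree : ℝ) • (fun x => log⁺ ‖v'.eval x‖)) - fun x => log ‖g'.eval x‖))) 0 1 := by
    unfold prox
    apply circleAverage_mono_off (posLog_ratio_int _ _)
      (((posLog_int _).const_smul).add ((circleIntegrable_const _ _ _).add
        (((posLog_int _).const_smul).sub (log_int _))))
      (((roots_countable (map_ne ha)).union (roots_countable (map_ne hf))).union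
        (roots_countable (map_ne hg)))
    intro x hxs hxZ
    rw [mem_sphere_zero_iff_norm] at hxs
    simp only [Set.mem_union, not_or] at hxZ
    obtain ⟨⟨hx1, hx2⟩, hx3⟩ := hxZ
    have hx1' : ev x a ≠ 0 := by rw [ev_eq]; exact hx1
    have hx2' : ev x f ≠ 0 := by rw [ev_eq]; exact hx2
    have hx3' : ev x (fh G v e) ≠ 0 := by rw [ev_eq]; exact hx3
    have ea : a'.eval x = ev x a := (ev_eq x a).symm
    have ef : f'.eval x = ev x f := (ev_eq x f).symm
    have ew : v'.eval x = ev x v := (ev_eq x v).symm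
    have eg : g'.eval x = ev x (fh G v e) := (ev_eq x _).symm
    simp only [Pi.add_apply, Pi.smul_apply, Pi.sub_apply, smul_eq_mul]
    rw [ea, ew, eg, ← hf', ef, Polynomial.map_one, eval_one, norm_div, norm_one]
    have h1 := hx x hxs
    have h2 := h v e x hxs
    have hfp : 0 < ‖ev x f‖ := norm_pos_iff.mpr hx2'
    have hgp : 0 < ‖ev x (fh G v e)‖ := norm_pos_iff.mpr hx3'
    have hap : 0 < ‖ev x a‖ := norm_pos_iff.mpr hx1'
    have h3 : 1 / ‖ev x f‖ = ‖ev x a‖ ^ m * ‖ev x (fh G v e)‖⁻¹ := by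
      rw [← h1]
      field_simp
    rw [h3]
    have h4 : log⁺ (‖ev x a‖ ^ m * ‖ev x (fh G v e)‖⁻¹) ≤ log⁺ (‖ev x a‖ ^ m) +
        log⁺ ‖ev x (fh G v e)‖⁻¹ := posLog_mul
    have h5 : log⁺ (‖ev x a‖ ^ m) = m * log⁺ ‖ev x a‖ := posLog_pow m _
    have h6 := posLog_sub_posLog_inv (x := ‖ev x (fh G v e)‖)
    rw [h5] at h4
    linarith
  rw [circleAverage_add ((posLog_int _).const_smul) ((circleIntegrable_const _ _ _).add
        (((posLog_int _).const_smul).sub (log_int _))),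
    circleAverage_add (circleIntegrable_const _ _ _) (((posLog_int _).const_smul).sub (log_int _)),
    circleAverage_sub ((posLog_int _).const_smul) (log_int _), circleAverage_smul, circleAverage_smul,
    circleAverage_const, Un.log_mahler, smul_eq_mul, smul_eq_mul] at key
  have h7 : 0 ≤ log g'.mahlerMeasure := lM_nonneg hg
  have h8 : circleAverage (fun x => log⁺ ‖a'.eval x‖) 0 1 = mp a' := rfl
  have h9 : circleAverage (fun x => log⁺ ‖v'.eval x‖) 0 1 = mp v' := rfl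
  rw [h8, h9] at key
  linarith

/-- **the gap for moving targets, separable case** -/
theorem gap_sep {F : ℤ[X][X]} (hk : 2 ≤ F.natDegree)
    (hF : (F.map (algebraMap ℤ[X] (FractionRing ℤ[X]))).Separable) : ∃ μ : ℝ, 1 < μ ∧
      ∀ (u : ℤ[X]) (e : ℕ), fh F u e ≠ 0 →
        ((fh F u e).map (Int.castRingHom ℂ)).mahlerMeasure = 1 ∨
          μ ≤ ((fh F u e).map (Int.castRingHom ℂ)).mahlerMeasure := by
  obtain ⟨k, hkdef⟩ : ∃ k, k = F.natDegree := ⟨_, rfl⟩
  obtain ⟨a, hadef⟩ : ∃ a, a = F.leadingCoeff := ⟨_, rfl⟩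
  have hF0 : F ≠ 0 := by
    rintro rfl
    rw [natDegree_zero] at hk
    omega
  have ha : a ≠ 0 := by rw [hadef]; exact leadingCoeff_ne_zero.mpr hF0
  obtain ⟨G, hG⟩ : ∃ G, G = integralNormalization F := ⟨_, rfl⟩
  have hGm : G.Monic := by rw [hG]; exact monic_integralNormalization hF0
  have hGd : G.natDegree = k := by rw [hG, natDegree_integralNormalization, hkdef]
  have hGs := sep_norm (by omega) hF
  rw [← hG] at hGs
  obtain ⟨P, Q, r, hr, hB⟩ := clear hGs
  obtain ⟨B, hB0, n₁, hT⟩ := T_bound hGm (by rw [hGd, hkdef]; exact hk) hB hr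
  obtain ⟨K₀, hK₀, hprox⟩ := prox_bound (G := G)
  obtain ⟨D, hD⟩ : ∃ D, D = ∑ i ∈ Finset.range (G.natDegree + 1), (G.coeff i).natDegree := ⟨_, rfl⟩
  obtain ⟨μ₁, hμ₁, hgap1⟩ := gap_deg (D + k * n₁)
  obtain ⟨μ₂, hμ₂, hgap2⟩ := gap_prox (((k - 1 : ℕ) : ℝ) * mp (a.map (Int.castRingHom ℂ)) + K₀ +
    k * (B * (1 + ((k - 1 : ℕ) * lM a + 1))))
  have he1 : (1:ℝ) < exp 1 := by
    have := add_one_lt_exp (one_ne_zero (α := ℝ))
    linarith
  refine ⟨min (min μ₁ μ₂) (exp 1), lt_min (lt_min hμ₁ hμ₂) he1, ?_⟩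
  intro u e hf
  obtain ⟨f, hfdef⟩ : ∃ f, f = fh F u e := ⟨_, rfl⟩
  rw [← hfdef] at hf ⊢
  have hM : (f.map (Int.castRingHom ℂ)).mahlerMeasure = exp (lM f) := (exp_log (mahler_pos hf)).symm
  by_cases hm : 1 < lM f
  · right
    rw [hM]
    exact (min_le_right _ _).trans (exp_le_exp.mpr hm.le)
  rw [not_lt] at hm
  obtain ⟨j, v, e', hv, he', hv0⟩ := norm_exists e (a * u)
  obtain ⟨g, hgdef⟩ : ∃ g, g = fh G v e' := ⟨_, rfl⟩
  have hrel : a ^ (k - 1) * f = X ^ (j * k) * g := by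
    rw [hfdef, hgdef, hadef, hkdef, ← fh_norm (by omega), ← hadef, hv, he', ← hG, fh_X, hGd, hkdef]
  have hak : a ^ (k - 1) ≠ 0 := pow_ne_zero _ ha
  have hg0 : g ≠ 0 := by
    intro h0
    rw [h0, mul_zero] at hrel
    exact mul_ne_zero hak hf hrel
  by_cases hcase : n₁ ≤ max v.natDegree e'
  · have hT' := hT v e' hv0 hcase (by rw [← hgdef]; exact hg0)
    rw [← hgdef] at hT'
    have hlM : lM g = (k - 1 : ℕ) * lM a + lM f := by
      have h1 := congrArg lM hrel
      rw [lM_mul hak hf, lM_pow ha, lM_mul (pow_ne_zero _ X_ne_zero) hg0, lM_X, zero_add] at h1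
      exact h1.symm
    have hp := hprox a f v e' (k - 1) ha hf (by rw [← hgdef]; exact hg0) (by
      intro x hx
      have h1 := congrArg (fun R => ‖ev x R‖) hrel
      simp only [map_mul, map_pow, norm_mul, norm_pow, ev_X, hx, one_pow, one_mul] at h1
      rw [h1, hgdef])
    rw [hGd] at hp
    have hp2 : prox f 1 ≤ ((k - 1 : ℕ) : ℝ) * mp (a.map (Int.castRingHom ℂ)) + K₀ +
        k * (B * (1 + ((k - 1 : ℕ) * lM a + 1))) := by
      refine hp.trans ?_
      have h2 : mp (v.map (Int.castRingHom ℂ)) ≤ B * (1 + ((k - 1 : ℕ) * lM a + 1)) := by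
        refine hT'.trans (mul_le_mul_of_nonneg_left ?_ hB0)
        rw [hlM]
        linarith
      have h3 : (k:ℝ) * mp (v.map (Int.castRingHom ℂ)) ≤ k * (B * (1 + ((k - 1 : ℕ) * lM a + 1))) :=
        mul_le_mul_of_nonneg_left h2 (Nat.cast_nonneg _)
      linarith
    rcases hgap2 f 1 hf hp2 (fun z _ _ => by rw [map_one]; exact one_ne_zero) with h | h
    · exact Or.inl h
    · right
      exact ((min_le_left _ _).trans (min_le_right _ _)).trans h
  · rw [not_le] at hcase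
    have hgd : g.natDegree ≤ D + k * n₁ := by
      rw [hgdef, hD, ← hGd]
      exact fh_deg G (by omega) (by omega)
    have h1 := congrArg natDegree hrel
    have h2 := congrArg natTrailingDegree hrel
    rw [natDegree_mul hak hf, natDegree_mul (pow_ne_zero _ X_ne_zero) hg0] at h1
    rw [natTrailingDegree_mul hak hf, natTrailingDegree_mul (pow_ne_zero _ X_ne_zero) hg0,
      natTrailingDegree_X_pow] at h2
    rw [natDegree_X_pow] at h1
    have h3 := natTrailingDegree_le_natDegree (a ^ (k - 1))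
    have h4 := natTrailingDegree_le_natDegree f
    have h5 : f.reverse.natDegree ≤ D + k * n₁ := by
      rw [reverse_natDegree]
      omega
    have h6 : lM f.reverse = lM f := lM_reflect le_rfl
    have h7 : f.reverse ≠ 0 := by rwa [Ne, reverse_eq_zero]
    have h8 : (f.reverse.map (Int.castRingHom ℂ)).mahlerMeasure =
        (f.map (Int.castRingHom ℂ)).mahlerMeasure := by
      rw [hM, ← h6]
      exact (exp_log (mahler_pos h7)).symm
    rcases hgap1 f.reverse h7 h5 with h | h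
    · left
      rw [← h8]
      exact h
    · right
      rw [← h8]
      exact ((min_le_left _ _).trans (min_le_left _ _)).trans h

end Pool.Agent.Zk21.Mv
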