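import Mathlib
import Pool.Agent.Zk21.MvL

/-!
# Moving targets: the general case
-/

set_option autoImplicit false

open Polynomial Metric Set Filter Topology Real UniqueFactorizationMonoid

namespace Pool.Agent.Zk21.Mv

open Pool.Agent.R328 Pool.Agent.Zk21.Smt Pool.Agent.Zk21.Un Pool.Agent.Zk21.Pt Pool.Agent.Zk21.Ca

lemma eq_of_ev {P Q : ℤ[X]} (h : ∀ x : ℂ, x ≠ 0 → ev x P = ev x Q) : P = Q := by
  apply Polynomial.map_injective _ (RingHom.injective_int (Int.castRingHom ℂ))
  apply Polynomial.eq_of_infinite_eval_eq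
  apply Set.Infinite.mono (s := {x : ℂ | x ≠ 0})
  · intro x hx
    have := h x hx
    rw [ev_eq, ev_eq] at this
    exact this
  · exact (Set.finite_singleton (0:ℂ)).infinite_compl

lemma fh_mul {G H : ℤ[X][X]} (hG : G ≠ 0) (hH : H ≠ 0) (u : ℤ[X]) (e : ℕ) :
    fh (G * H) u e = fh G u e * fh H u e := by
  apply eq_of_ev
  intro x hx
  rw [map_mul, fh_eval _ _ _ hx, fh_eval _ _ _ hx, fh_eval _ _ _ hx, natDegree_mul hG hH, map_mul,
    Nat.mul_add, pow_add]
  ring

lemma fh_C (c : ℤ[X]) (u : ℤ[X]) (e : ℕ) : fh (C c) u e = c := by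
  unfold fh
  rw [natDegree_C, zero_add, Finset.sum_range_one, coeff_C_zero]
  simp

lemma fh_prod (u : ℤ[X]) (e : ℕ) (s : Multiset ℤ[X][X]) (hs : ∀ p ∈ s, p ≠ 0) :
    fh s.prod u e = (s.map fun p => fh p u e).prod := by
  induction s using Multiset.induction_on with
  | empty =>
    rw [Multiset.prod_zero, Multiset.map_zero, Multiset.prod_zero, ← C_1, fh_C]
  | cons p s ih =>
    have hp := hs p (Multiset.mem_cons_self p s)
    have hs' : ∀ q ∈ s, q ≠ 0 := fun q hq => hs q (Multiset.mem_cons_of_mem hq)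
    have hs0 : s.prod ≠ 0 := Multiset.prod_ne_zero fun h => hs' 0 h rfl
    rw [Multiset.prod_cons, fh_mul hp hs0, ih hs', Multiset.map_cons, Multiset.prod_cons]

lemma lM_mprod (s : Multiset ℤ[X]) (hs : ∀ p ∈ s, p ≠ 0) : lM s.prod = (s.map lM).sum := by
  induction s using Multiset.induction_on with
  | empty => rw [Multiset.prod_zero, Multiset.map_zero, Multiset.sum_zero, lM_one]
  | cons p s ih =>
    have hp := hs p (Multiset.mem_cons_self p s)
    have hs' : ∀ q ∈ s, q ≠ 0 := fun q hq => hs q (Multiset.mem_cons_of_mem hq)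
    have hs0 : s.prod ≠ 0 := Multiset.prod_ne_zero fun h => hs' 0 h rfl
    rw [Multiset.prod_cons, lM_mul hp hs0, ih hs', Multiset.map_cons, Multiset.sum_cons]

/-- the factorisation -/
lemma factor {F : ℤ[X][X]} (hF0 : F ≠ 0) : ∃ (c : ℤ[X]) (s : Multiset ℤ[X][X]), c ≠ 0 ∧
    F = C c * s.prod ∧ (∀ p ∈ s, Irreducible p ∧ 0 < p.natDegree) ∧
      ∀ p ∈ s, ∀ q ∈ s, p ∣ q → p = q := by
  classical
  set N := normalizedFactors F with hN
  have hprod := prod_normalizedFactors hF0
  obtain ⟨w, hw⟩ := hprod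
  rw [← hN] at hw
  have hirr : ∀ p ∈ N, Irreducible p := fun p hp => irreducible_of_normalized_factor p hp
  set s := N.filter (fun p => 0 < p.natDegree) with hs
  set t := N.filter (fun p => ¬ 0 < p.natDegree) with ht
  have hst : s + t = N := Multiset.filter_add_not _ N
  have hconst : ∀ p ∈ t, p.natDegree = 0 := by
    intro p hp
    have := (Multiset.mem_filter.mp hp).2
    omega
  have htprod : t.prod.natDegree = 0 := by
    clear_value t
    clear hst ht
    induction t using Multiset.induction_on with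
    | empty => rw [Multiset.prod_zero, natDegree_one]
    | cons p t ih =>
      rw [Multiset.prod_cons]
      have h1 := hconst p (Multiset.mem_cons_self p t)
      have h2 := ih fun q hq => hconst q (Multiset.mem_cons_of_mem hq)
      have := natDegree_mul_le (p := p) (q := t.prod)
      omega
  have hwd : (w : ℤ[X][X]).natDegree = 0 := natDegree_eq_zero_of_isUnit w.isUnit
  have hcd : (t.prod * (w : ℤ[X][X])).natDegree = 0 := by
    have := natDegree_mul_le (p := t.prod) (q := (w : ℤ[X][X]))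
    omega
  obtain ⟨c, hc⟩ : ∃ c, t.prod * (w : ℤ[X][X]) = C c := ⟨_, eq_C_of_natDegree_eq_zero hcd⟩
  have hFe : F = C c * s.prod := by
    rw [← hc, ← hw, ← hst, Multiset.prod_add]
    ring
  refine ⟨c, s, ?_, hFe, ?_, ?_⟩
  · rintro rfl
    rw [C_0, zero_mul] at hFe
    exact hF0 hFe
  · intro p hp
    obtain ⟨h1, h2⟩ := Multiset.mem_filter.mp hp
    exact ⟨hirr p h1, h2⟩
  · intro p hp q hq hpq
    have h1 := (Multiset.mem_filter.mp hp).1
    have h2 := (Multiset.mem_filter.mp hq).1
    have h3 : Associated p q := (hirr p h1).associated_of_dvd (hirr q h2) hpq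
    have h4 := normalize_normalized_factor p h1
    have h5 := normalize_normalized_factor q h2
    rw [← h4, ← h5]
    exact normalize_eq_normalize_iff_associated.mpr h3

lemma sep_T {s : Multiset ℤ[X][X]} (h1 : ∀ p ∈ s, Irreducible p ∧ 0 < p.natDegree)
    (h2 : ∀ p ∈ s, ∀ q ∈ s, p ∣ q → p = q) :
    ((∏ p ∈ s.toFinset, p).map (algebraMap ℤ[X] (FractionRing ℤ[X]))).Separable := by
  have hprim : ∀ p ∈ s, p.IsPrimitive := fun p hp => (h1 p hp).1.isPrimitive (h1 p hp).2.ne'
  have hirr : ∀ p ∈ s, Irreducible (p.map (algebraMap ℤ[X] (FractionRing ℤ[X]))) := fun p hp =>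
    ((hprim p hp).irreducible_iff_irreducible_map_fraction_map).mp (h1 p hp).1
  rw [Polynomial.map_prod]
  apply separable_prod'
  · intro p hp q hq hpq
    rw [Multiset.mem_toFinset] at hp hq
    rw [(hirr p hp).coprime_iff_not_dvd]
    intro h
    exact hpq (h2 p hp q hq ((hprim p hp).dvd_of_fraction_map_dvd_fraction_map h))
  · intro p hp
    rw [Multiset.mem_toFinset] at hp
    exact (hirr p hp).separable

/-- **the gap for moving targets** -/
theorem gap_all {F : ℤ[X][X]} (hF : ∀ (a b c : ℤ[X]) (m : ℕ), F ≠ C c * (C a * X + C b) ^ m) :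
    ∃ μ : ℝ, 1 < μ ∧ ∀ (u : ℤ[X]) (e : ℕ), fh F u e ≠ 0 →
      ((fh F u e).map (Int.castRingHom ℂ)).mahlerMeasure = 1 ∨
        μ ≤ ((fh F u e).map (Int.castRingHom ℂ)).mahlerMeasure := by
  classical
  have hF0 : F ≠ 0 := by
    have := hF 0 0 0 0
    simpa using this
  obtain ⟨c, s, hc, hFe, h1, h2⟩ := factor hF0
  have hs0 : ∀ p ∈ s, p ≠ 0 := fun p hp => (h1 p hp).1.ne_zero
  obtain ⟨G, hG⟩ : ∃ G : ℤ[X][X], G = ∏ p ∈ s.toFinset, p := ⟨_, rfl⟩
  have hGs := sep_T h1 h2
  rw [← hG] at hGs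
  have hGm : G = s.toFinset.val.prod := by
    rw [hG, Finset.prod_eq_multiset_prod, Multiset.map_id']
  have hTs : s.toFinset.val ≤ s := by
    rw [Multiset.toFinset_val]
    exact Multiset.dedup_le s
  have hGd : 2 ≤ G.natDegree := by
    have e1 : G.natDegree = ∑ p ∈ s.toFinset, p.natDegree := by
      rw [hG]
      exact natDegree_prod _ _ fun p hp => hs0 p (Multiset.mem_toFinset.mp hp)
    have e2 : ∀ p ∈ s.toFinset, 1 ≤ p.natDegree := fun p hp => (h1 p (Multiset.mem_toFinset.mp hp)).2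
    by_contra hlt
    rw [e1] at hlt
    have e3 : s.toFinset.card ≤ 1 := by
      have := Finset.card_nsmul_le_sum s.toFinset (fun p => p.natDegree) 1 e2
      rw [smul_eq_mul, mul_one] at this
      omega
    rcases Nat.eq_zero_or_pos s.toFinset.card with h0 | h0
    · rw [Finset.card_eq_zero, Multiset.toFinset_eq_empty] at h0
      apply hF 0 0 c 0
      rw [hFe, h0, Multiset.prod_zero, pow_zero]
    · obtain ⟨p, hp⟩ := Finset.card_eq_one.mp (by omega : s.toFinset.card = 1)
      have hpd : p.natDegree = 1 := by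
        rw [hp, Finset.sum_singleton] at hlt
        have := e2 p (by rw [hp]; exact Finset.mem_singleton_self p)
        omega
      have hsr : s = Multiset.replicate s.card p := by
        rw [Multiset.eq_replicate]
        refine ⟨rfl, ?_⟩
        intro q hq
        have : q ∈ s.toFinset := Multiset.mem_toFinset.mpr hq
        rw [hp] at this
        exact Finset.mem_singleton.mp this
      have hpe : p = C (p.coeff 1) * X + C (p.coeff 0) := eq_X_add_C_of_natDegree_le_one hpd.le
      apply hF (p.coeff 1) (p.coeff 0) c s.card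
      rw [← hpe, hFe]
      conv_lhs => rw [hsr, Multiset.prod_replicate]
  obtain ⟨μ₁, hμ₁, hgap⟩ := gap_sep hGd hGs
  obtain ⟨μ₂, hμ₂, hc2⟩ : ∃ μ : ℝ, 1 < μ ∧ ((c.map (Int.castRingHom ℂ)).mahlerMeasure = 1 ∨
      μ ≤ (c.map (Int.castRingHom ℂ)).mahlerMeasure) := by
    obtain ⟨μ, h3, h4⟩ := gap_deg c.natDegree
    exact ⟨μ, h3, h4 c hc le_rfl⟩
  refine ⟨min μ₁ μ₂, lt_min hμ₁ hμ₂, ?_⟩
  intro u e hf
  have hff : fh F u e = c * (s.map fun p => fh p u e).prod := by
    rw [hFe, fh_mul (by rwa [Ne, C_eq_zero]) (Multiset.prod_ne_zero fun h => hs0 0 h rfl), fh_C,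
      fh_prod u e s hs0]
  have hgg : fh G u e = (s.toFinset.val.map fun p => fh p u e).prod := by
    rw [hGm, fh_prod u e _ fun p hp => hs0 p (Multiset.mem_of_le hTs hp)]
  have hp0 : ∀ p ∈ s, fh p u e ≠ 0 := by
    intro p hp h0
    apply hf
    rw [hff, Multiset.prod_eq_zero (Multiset.mem_map.mpr ⟨p, hp, h0⟩), mul_zero]
  have hg0 : fh G u e ≠ 0 := by
    rw [hgg]
    apply Multiset.prod_ne_zero
    intro h
    obtain ⟨p, hp, h0⟩ := Multiset.mem_map.mp h
    exact hp0 p (Multiset.mem_of_le hTs hp) h0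
  have hmapne : ∀ q ∈ s.map fun p => fh p u e, q ≠ 0 := by
    intro q hq
    obtain ⟨p, hp, rfl⟩ := Multiset.mem_map.mp hq
    exact hp0 p hp
  have hmapne' : ∀ q ∈ s.toFinset.val.map fun p => fh p u e, q ≠ 0 := by
    intro q hq
    obtain ⟨p, hp, rfl⟩ := Multiset.mem_map.mp hq
    exact hp0 p (Multiset.mem_of_le hTs hp)
  have hlf : lM (fh F u e) = lM c + (s.map fun p => lM (fh p u e)).sum := by
    rw [hff, lM_mul hc (Multiset.prod_ne_zero fun h => hmapne 0 h rfl), lM_mprod _ hmapne,
      Multiset.map_map]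
    rfl
  have hlg : lM (fh G u e) = (s.toFinset.val.map fun p => lM (fh p u e)).sum := by
    rw [hgg, lM_mprod _ hmapne', Multiset.map_map]
    rfl
  have hnn : ∀ p ∈ s, 0 ≤ lM (fh p u e) := fun p hp => lM_nonneg (hp0 p hp)
  have hMf : ((fh F u e).map (Int.castRingHom ℂ)).mahlerMeasure = exp (lM (fh F u e)) :=
    (exp_log (mahler_pos hf)).symm
  have hMg : ((fh G u e).map (Int.castRingHom ℂ)).mahlerMeasure = exp (lM (fh G u e)) :=
    (exp_log (mahler_pos hg0)).symm
  have hMc : (c.map (Int.castRingHom ℂ)).mahlerMeasure = exp (lM c) :=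
    (exp_log (mahler_pos hc)).symm
  have hle : lM (fh G u e) ≤ (s.map fun p => lM (fh p u e)).sum := by
    rw [hlg]
    obtain ⟨t, ht⟩ := Multiset.le_iff_exists_add.mp hTs
    conv_rhs => rw [ht]
    rw [Multiset.map_add, Multiset.sum_add]
    have : 0 ≤ (t.map fun p => lM (fh p u e)).sum := by
      apply Multiset.sum_nonneg
      intro y hy
      obtain ⟨p, hp, rfl⟩ := Multiset.mem_map.mp hy
      apply hnn p
      rw [ht]
      exact Multiset.mem_add.mpr (Or.inr hp)
    linarith
  have hc0 : 0 ≤ lM c := lM_nonneg hc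
  rcases hgap u e hg0 with h | h
  · -- all factors have measure one
    rw [hMg] at h
    have h3 : lM (fh G u e) = 0 := by
      have := congrArg log h
      rwa [log_exp, log_one] at this
    have h4 : ∀ p ∈ s, lM (fh p u e) = 0 := by
      intro p hp
      have h5 : lM (fh p u e) ≤ lM (fh G u e) := by
        rw [hlg]
        apply Multiset.single_le_sum
        · intro y hy
          obtain ⟨q, hq, rfl⟩ := Multiset.mem_map.mp hy
          exact hnn q (Multiset.mem_of_le hTs hq)
        · exact Multiset.mem_map.mpr ⟨p, Multiset.mem_toFinset.mpr hp, rfl⟩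
      exact le_antisymm (h5.trans h3.le) (hnn p hp)
    have h5 : (s.map fun p => lM (fh p u e)).sum = 0 := by
      apply Multiset.sum_eq_zero
      intro y hy
      obtain ⟨p, hp, rfl⟩ := Multiset.mem_map.mp hy
      exact h4 p hp
    have h6 : lM (fh F u e) = lM c := by rw [hlf, h5, add_zero]
    rw [hMf, h6, ← hMc]
    rcases hc2 with h7 | h7
    · exact Or.inl h7
    · exact Or.inr ((min_le_right _ _).trans h7)
  · right
    rw [hMf]
    refine (min_le_left _ _).trans (h.trans ?_)
    rw [hMg]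
    apply exp_le_exp.mpr
    rw [hlf]
    linarith

end Pool.Agent.Zk21.Mv
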