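import Mathlib
import Pool.Agent.Zk21.CaD

/-!
# The second main theorem for linear forms in general position
-/

set_option autoImplicit false

open Polynomial Metric Real

namespace Pool.Agent.Zk21.Cf

open Pool.Agent.R328 Pool.Agent.Zk21.Smt Pool.Agent.Zk21.Un Pool.Agent.Zk21.Pt Pool.Agent.Zk21.Ca

lemma ci_sup {f g : ℂ → ℝ} (hf : CircleIntegrable f 0 1) (hg : CircleIntegrable g 0 1) :
    CircleIntegrable (f ⊔ g) 0 1 := by
  have e : f ⊔ g = (1 / 2 : ℝ) • ((f + g) + |f - g|) := by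
    funext x
    simp only [Pi.sup_apply, Pi.smul_apply, Pi.add_apply, Pi.abs_apply, Pi.sub_apply, smul_eq_mul]
    rcases le_total (f x) (g x) with h | h
    · rw [sup_eq_right.mpr h, abs_of_nonpos (by linarith)]
      ring
    · rw [sup_eq_left.mpr h, abs_of_nonneg (by linarith)]
      ring
  rw [e]
  exact ((hf.add hg).add (hf.sub hg).abs).const_smul

variable {N : ℕ}

/-- the logarithm of the maximum -/
noncomputable def TT [Nonempty (Fin N)] (A : Fin N → ℂ[X]) : ℂ → ℝ :=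
  Finset.univ.sup' Finset.univ_nonempty (fun j : Fin N => fun x : ℂ => log ‖(A j).eval x‖)

lemma TT_int [Nonempty (Fin N)] (A : Fin N → ℂ[X]) : CircleIntegrable (TT A) 0 1 := by
  unfold TT
  exact Finset.sup'_induction _ _ (p := fun φ : ℂ → ℝ => CircleIntegrable φ 0 1)
    (fun a ha b hb => ci_sup ha hb) (fun j _ => log_int _)

lemma TT_apply [Nonempty (Fin N)] (A : Fin N → ℂ[X]) (x : ℂ) :
    TT A x = Finset.univ.sup' Finset.univ_nonempty (fun j : Fin N => log ‖(A j).eval x‖) := by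
  unfold TT
  rw [Finset.sup'_apply]

lemma le_TT [Nonempty (Fin N)] (A : Fin N → ℂ[X]) (x : ℂ) (j : Fin N) :
    log ‖(A j).eval x‖ ≤ TT A x := by
  rw [TT_apply]
  exact Finset.le_sup' (fun j : Fin N => log ‖(A j).eval x‖) (Finset.mem_univ j)

lemma TT_eq [Nonempty (Fin N)] (A : Fin N → ℂ[X]) (x : ℂ) :
    ∃ j : Fin N, TT A x = log ‖(A j).eval x‖ := by
  rw [TT_apply]
  obtain ⟨j, -, hj⟩ := Finset.exists_mem_eq_sup' (Finset.univ_nonempty (α := Fin N))
    (fun j : Fin N => log ‖(A j).eval x‖)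
  exact ⟨j, hj⟩

/-- the smallest members of a family -/
lemma exists_small {q : ℕ} (h : N ≤ q) (y : Fin q → ℝ) :
    ∃ s : Fin N → Fin q, Function.Injective s ∧ ∀ l, l ∉ Set.range s → ∀ i, y (s i) ≤ y l := by
  refine ⟨fun i => Tuple.sort y (Fin.castLE h i), ?_, ?_⟩
  · intro i j hij
    exact Fin.castLE_injective h ((Tuple.sort y).injective hij)
  · intro l hl i
    obtain ⟨m, hm⟩ : ∃ m, Tuple.sort y m = l := (Tuple.sort y).surjective l
    have h1 : N ≤ (m : ℕ) := by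
      by_contra hc
      push Not at hc
      apply hl
      refine ⟨⟨m, hc⟩, ?_⟩
      rw [← hm]
      rfl
    have h2 : Fin.castLE h i ≤ m := by
      rw [Fin.le_def, Fin.val_castLE]
      have := i.2
      omega
    rw [← hm]
    exact Tuple.monotone_sort y h2

/-- a linear form in the polynomials -/
noncomputable def lf (a : Fin N → ℂ) (A : Fin N → ℂ[X]) : ℂ[X] := ∑ j, C (a j) * A j

/-- the matrix of the chosen forms -/
def sel {q : ℕ} (L : Fin q → Fin N → ℂ) (s : Fin N → Fin q) : Matrix (Fin N) (Fin N) ℂ :=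
  Matrix.of fun i j => L (s i) j

lemma thi_C_mul (a : ℂ) (P : ℂ[X]) (k : ℕ) : th^[k] (C a * P) = C a * th^[k] P := by
  induction k with
  | zero => rfl
  | succ k ih =>
    rw [Function.iterate_succ_apply', ih, th_mul, th_C, zero_mul, zero_add,
      Function.iterate_succ_apply']

lemma wr_lf {q : ℕ} (L : Fin q → Fin N → ℂ) (s : Fin N → Fin q) (A : Fin N → ℂ[X]) :
    wr (fun i => lf (L (s i)) A) = C (sel L s).det * wr A := by
  unfold wr
  have h1 : wm (fun i => lf (L (s i)) A) = (sel L s).map C * wm A := by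
    ext1 i j
    rw [Matrix.mul_apply]
    unfold wm lf sel
    simp only [Matrix.of_apply, Matrix.map_apply]
    rw [thi_sum]
    exact Finset.sum_congr rfl fun l _ => thi_C_mul _ _ _
  rw [h1, Matrix.det_mul]
  congr 1
  have h2 := RingHom.map_det (C : ℂ →+* ℂ[X]) (sel L s)
  rw [h2]
  rfl

/-- the constants of the system of forms -/
noncomputable def cA {q : ℕ} (L : Fin q → Fin N → ℂ) : ℝ :=
  1 + ∑ s : Fin N → Fin q, ∑ i, ∑ j, ‖(sel L s)⁻¹ i j‖

noncomputable def cD {q : ℕ} (L : Fin q → Fin N → ℂ) : ℝ :=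
  ∑ s : Fin N → Fin q, |log ‖(sel L s).det‖|

lemma cA_ge {q : ℕ} (L : Fin q → Fin N → ℂ) : 1 ≤ cA L := by
  unfold cA
  have : 0 ≤ ∑ s : Fin N → Fin q, ∑ i, ∑ j, ‖(sel L s)⁻¹ i j‖ := by positivity
  linarith

lemma cD_ge {q : ℕ} (L : Fin q → Fin N → ℂ) (s : Fin N → Fin q) :
    |log ‖(sel L s).det‖| ≤ cD L := by
  unfold cD
  exact Finset.single_le_sum (f := fun s => |log ‖(sel L s).det‖|) (fun s _ => abs_nonneg _)
    (Finset.mem_univ s)

/-- the coordinates are bounded by the forms -/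
lemma coord_le {q : ℕ} (L : Fin q → Fin N → ℂ) (s : Fin N → Fin q) (hs : (sel L s).det ≠ 0)
    (A : Fin N → ℂ[X]) (x : ℂ) {y : ℝ} (hy : ∀ i, ‖(lf (L (s i)) A).eval x‖ ≤ y) (j : Fin N) :
    ‖(A j).eval x‖ ≤ cA L * y := by
  have hy0 : 0 ≤ y := (norm_nonneg _).trans (hy j)
  set a : Fin N → ℂ := fun j => (A j).eval x with ha
  have h1 : (sel L s).mulVec a = fun i => (lf (L (s i)) A).eval x := by
    funext i
    unfold Matrix.mulVec dotProduct sel lf
    rw [eval_finsetSum]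
    refine Finset.sum_congr rfl fun l _ => ?_
    rw [eval_mul, eval_C]
    rfl
  have h2 : a = (sel L s)⁻¹.mulVec ((sel L s).mulVec a) := by
    rw [Matrix.mulVec_mulVec, Matrix.nonsing_inv_mul _ (isUnit_iff_ne_zero.mpr hs), Matrix.one_mulVec]
  have h3 : a j = ∑ i, (sel L s)⁻¹ j i * (lf (L (s i)) A).eval x := by
    have h4 := congrFun h2 j
    rw [h1] at h4
    exact h4
  show ‖a j‖ ≤ _
  rw [h3]
  refine (norm_sum_le _ _).trans ?_
  have h5 : ∀ i ∈ (Finset.univ : Finset (Fin N)), ‖(sel L s)⁻¹ j i * (lf (L (s i)) A).eval x‖ ≤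
      ‖(sel L s)⁻¹ j i‖ * y := by
    intro i _
    rw [norm_mul]
    exact mul_le_mul_of_nonneg_left (hy i) (norm_nonneg _)
  refine (Finset.sum_le_sum h5).trans ?_
  rw [← Finset.sum_mul]
  apply mul_le_mul_of_nonneg_right _ hy0
  have h6 : ∑ i, ‖(sel L s)⁻¹ j i‖ ≤ ∑ j, ∑ i, ‖(sel L s)⁻¹ j i‖ :=
    Finset.single_le_sum (f := fun j => ∑ i, ‖(sel L s)⁻¹ j i‖)
      (fun j _ => Finset.sum_nonneg fun i _ => norm_nonneg _) (Finset.mem_univ j)
  have h7 : ∑ j, ∑ i, ‖(sel L s)⁻¹ j i‖ ≤ ∑ s : Fin N → Fin q, ∑ i, ∑ j, ‖(sel L s)⁻¹ i j‖ :=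
    Finset.single_le_sum (f := fun s : Fin N → Fin q => ∑ j, ∑ i, ‖(sel L s)⁻¹ j i‖)
      (fun s _ => Finset.sum_nonneg fun j _ => Finset.sum_nonneg fun i _ => norm_nonneg _)
      (Finset.mem_univ s)
  unfold cA
  linarith

/-- the pointwise inequality -/
lemma point {q : ℕ} (hq : N ≤ q) [Nonempty (Fin N)] (L : Fin q → Fin N → ℂ)
    (hL : ∀ s : Fin N → Fin q, Function.Injective s → (sel L s).det ≠ 0)
    {A : Fin N → ℂ[X]} {c : ℝ} (hc : 0 < c) {x : ℂ}
    (hx : ∀ l, x ∉ bad N (lf (L l) A)) (h0 : ∀ l, (lf (L l) A).eval x ≠ 0)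
    (hA0 : ∀ j, (A j).eval x ≠ 0) (hW : (wr A).eval x ≠ 0) :
    ((q : ℝ) - N) * TT A x + log ‖(wr A).eval x‖ ≤
      ∑ l, log ‖(lf (L l) A).eval x‖ + (∑ l, RG N c (lf (L l) A) x +
        (∑ j : Fin N, ((j : ℕ) : ℝ)) * log c + log N.factorial + cD L + ((q : ℝ) - N) * log (cA L)) := by
  obtain ⟨s, hs, hmin⟩ := exists_small hq (fun l => log ‖(lf (L l) A).eval x‖)
  have hdet := hL s hs
  have h1 := wr_log (F := fun i => lf (L (s i)) A) hc (fun i => hx (s i)) (fun i => h0 (s i)) (by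
    rw [wr_lf, eval_mul, eval_C]
    exact mul_ne_zero hdet hW)
  rw [wr_lf, eval_mul, eval_C, norm_mul, log_mul (norm_ne_zero_iff.mpr hdet) (norm_ne_zero_iff.mpr hW),
    Finset.sum_add_distrib] at h1
  have h2 := cD_ge L s
  have h3 := neg_abs_le (log ‖(sel L s).det‖)
  -- the sums over the chosen forms
  have himg : ∀ φ : Fin q → ℝ, ∑ i, φ (s i) = ∑ l ∈ Finset.univ.image s, φ l := fun φ =>
    (Finset.sum_image fun i _ j _ hij => hs hij).symm
  have h4 : ∑ i, RG N c (lf (L (s i)) A) x ≤ ∑ l, RG N c (lf (L l) A) x := by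
    rw [himg fun l => RG N c (lf (L l) A) x]
    exact Finset.sum_le_sum_of_subset_of_nonneg (Finset.subset_univ _) fun l _ _ => RG_nonneg _ _ _ _
  have hsplit : ∑ l, log ‖(lf (L l) A).eval x‖ = ∑ i, log ‖(lf (L (s i)) A).eval x‖ +
      ∑ l ∈ (Finset.univ.image s)ᶜ, log ‖(lf (L l) A).eval x‖ := by
    rw [himg fun l => log ‖(lf (L l) A).eval x‖]
    exact (Finset.sum_add_sum_compl _ _).symm
  obtain ⟨j0, hj0⟩ := TT_eq A x
  have hother : ∀ l ∈ (Finset.univ.image s)ᶜ, TT A x - log (cA L) ≤ log ‖(lf (L l) A).eval x‖ := by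
    intro l hl
    have hl' : l ∉ Set.range s := by
      rintro ⟨i, hi⟩
      rw [Finset.mem_compl] at hl
      apply hl
      rw [Finset.mem_image]
      exact ⟨i, Finset.mem_univ i, hi⟩
    have hpos : 0 < ‖(lf (L l) A).eval x‖ := norm_pos_iff.mpr (h0 l)
    have h5 : ∀ i, ‖(lf (L (s i)) A).eval x‖ ≤ ‖(lf (L l) A).eval x‖ := by
      intro i
      have h6 := hmin l hl' i
      rwa [log_le_log_iff (norm_pos_iff.mpr (h0 (s i))) hpos] at h6
    have h7 := coord_le L s hdet A x h5 j0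
    have h8 := log_le_log (norm_pos_iff.mpr (hA0 j0)) h7
    rw [log_mul (by linarith [cA_ge L]) hpos.ne'] at h8
    rw [hj0]
    linarith
  have h5 := Finset.sum_le_sum hother
  rw [Finset.sum_const, nsmul_eq_mul] at h5
  have hcard : (((Finset.univ.image s)ᶜ.card : ℕ) : ℝ) = (q : ℝ) - N := by
    rw [Finset.card_compl, Finset.card_image_of_injective _ hs, Finset.card_univ, Fintype.card_fin,
      Fintype.card_fin, Nat.cast_sub hq]
  rw [hcard] at h5
  rw [hsplit]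
  linarith

end Pool.Agent.Zk21.Cf
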