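import Mathlib
import Pool.Agent.Zk21.MvJ

/-!
# Moving targets for rational functions: the inequality on the circle
-/

set_option autoImplicit false

open Polynomial Metric Set Filter Topology

namespace Pool.Agent.Zk21.Mw

open Pool.Agent.R328 Pool.Agent.Zk21.Smt Pool.Agent.Zk21.Un Pool.Agent.Zk21.Pt Pool.Agent.Zk21.Ca
open Pool.Agent.Zk21.Mv

/-- the polynomial `v ^ k F (x, u / v)` -/
noncomputable def fv (F : ℤ[X][X]) (u v : ℤ[X]) : ℤ[X] :=
  ∑ i ∈ Finset.range (F.natDegree + 1), F.coeff i * u ^ i * v ^ (F.natDegree - i)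

lemma fv_eval (F : ℤ[X][X]) (u v : ℤ[X]) {x : ℂ} (hx : ev x v ≠ 0) :
    ev x (fv F u v) = ev x v ^ F.natDegree * ev2 x (ev x u / ev x v) F := by
  unfold fv
  rw [ev2_sum, map_sum, Finset.mul_sum]
  apply Finset.sum_congr rfl
  intro i hi
  rw [Finset.mem_range] at hi
  rw [map_mul, map_mul, map_pow, map_pow, div_pow]
  have h1 : ev x v ^ F.natDegree = ev x v ^ (F.natDegree - i) * ev x v ^ i := by
    rw [← pow_add]
    congr 1
    omega
  have h2 : ev x v ^ i ≠ 0 := pow_ne_zero _ hx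
  rw [h1]
  field_simp

/-- the total derivative -/
lemma total (F : ℤ[X][X]) (u v : ℤ[X]) {x : ℂ} (hx0 : x ≠ 0) (hx : ev x v ≠ 0) :
    ev2 x (ev x u / ev x v) (FD F) + ev2 x (ev x u / ev x v) (derivative F) *
      ((ev x (th u) * ev x v - ev x u * ev x (th v)) / ev x v ^ 2) =
    (ev x (th (fv F u v)) * ev x v - F.natDegree * (ev x (fv F u v) * ev x (th v))) /
      ev x v ^ (F.natDegree + 1) := by
  obtain ⟨z, hz⟩ : ∃ z, Complex.exp z = x := ⟨Complex.log x, Complex.exp_log hx0⟩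
  have hv : ev (Complex.exp z) v ≠ 0 := by rw [hz]; exact hx
  have h0 : HasDerivAt (fun t => ev (Complex.exp t) u / ev (Complex.exp t) v)
      ((ev (Complex.exp z) (th u) * ev (Complex.exp z) v - ev (Complex.exp z) u *
        ev (Complex.exp z) (th v)) / ev (Complex.exp z) v ^ 2) z := (dEv u z).div (dEv v z) hv
  have h1 := chain F h0
  have h2 : HasDerivAt (fun t => ev (Complex.exp t) (fv F u v) / ev (Complex.exp t) v ^ F.natDegree)
      ((ev x (th (fv F u v)) * ev x v - F.natDegree * (ev x (fv F u v) * ev x (th v))) /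
      ev x v ^ (F.natDegree + 1)) z := by
    have hp : HasDerivAt (fun t => ev (Complex.exp t) v ^ F.natDegree)
        (F.natDegree * ev (Complex.exp z) v ^ (F.natDegree - 1) * ev (Complex.exp z) (th v)) z :=
      (dEv v z).pow F.natDegree
    have h3 : HasDerivAt (fun t => ev (Complex.exp t) (fv F u v) / ev (Complex.exp t) v ^ F.natDegree)
        ((ev (Complex.exp z) (th (fv F u v)) * ev (Complex.exp z) v ^ F.natDegree -
          ev (Complex.exp z) (fv F u v) *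
          (F.natDegree * ev (Complex.exp z) v ^ (F.natDegree - 1) * ev (Complex.exp z) (th v))) /
          (ev (Complex.exp z) v ^ F.natDegree) ^ 2) z :=
      (dEv (fv F u v) z).div hp (pow_ne_zero _ hv)
    refine h3.congr_deriv ?_
    rw [hz]
    rcases Nat.eq_zero_or_pos F.natDegree with h4 | h4
    · rw [h4]
      simp only [pow_zero, Nat.cast_zero]
      field_simp
      simp
    · obtain ⟨j, hj⟩ : ∃ j, F.natDegree = j + 1 := ⟨F.natDegree - 1, by omega⟩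
      rw [hj, Nat.add_sub_cancel]
      have h5 : ev x v ^ j ≠ 0 := pow_ne_zero _ hx
      push_cast
      field_simp
      ring
  have h3 : (fun t => ev (Complex.exp t) (fv F u v) / ev (Complex.exp t) v ^ F.natDegree) =ᶠ[𝓝 z]
      fun t => ev2 (Complex.exp t) (ev (Complex.exp t) u / ev (Complex.exp t) v) F := by
    have h4 : ∀ᶠ t in 𝓝 z, ev (Complex.exp t) v ≠ 0 :=
      (dEv v z).continuousAt.eventually_ne hv
    filter_upwards [h4] with t ht
    rw [fv_eval F u v ht, mul_div_cancel_left₀ _ (pow_ne_zero _ ht)]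
  have h4 := (h3.hasDerivAt_iff).mp h2
  have h5 := h1.unique h4
  rw [hz] at h5
  exact h5

/-- the pointwise inequality on the circle -/
lemma circle_pt {F : ℤ[X][X]} (hF : F.Monic) (hk : 0 < F.natDegree) {u v Y v' v'' : ℤ[X]} {x : ℂ}
    (hx : ‖x‖ = 1) {A b : ℝ} (hg : Geo F x A b) (hu : ev x u ≠ 0) (hv : ev x v ≠ 0)
    (hf : ev x (fv F u v) ≠ 0) (hY : v = Y * v') (hY' : th v = Y * v'')
    {c : ℝ} (hc1 : 1 ≤ c) :
    ‖ev x (NN F (th u * v' - u * v'') (u * v') (v * v'))‖ ≤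
      (5 * A * b ^ 2 * (4 * A ^ 2) ^ F.natDegree * ((‖ev x v‖ * max ‖ev x u‖ ‖ev x v‖ / ‖ev x Y‖) *
        ((F.natDegree + 1) * c * Real.exp (FW (u.map (Int.castRingHom ℂ)) c x +
          FW (v.map (Int.castRingHom ℂ)) c x +
          FW ((fv F u v).map (Int.castRingHom ℂ)) c x)))) ^ (F.natDegree ^ 2) *
      (5 * A * b ^ 2 * (4 * A ^ 2) ^ F.natDegree *
        (‖ev x (fv F u v)‖ / max ‖ev x u‖ ‖ev x v‖ ^ F.natDegree)) ^ (2 * F.natDegree - 1) := by
  have hx0 : x ≠ 0 := by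
    rintro rfl
    simp at hx
  have hYv : ev x v = ev x Y * ev x v' := by rw [← map_mul, ← hY]
  have hY0 : ev x Y ≠ 0 := by
    intro h
    rw [h, zero_mul] at hYv
    exact hv hYv
  have hYn : 0 < ‖ev x Y‖ := norm_pos_iff.mpr hY0
  have hvn : 0 < ‖ev x v‖ := norm_pos_iff.mpr hv
  obtain ⟨U, hU⟩ : ∃ U, U = ev x u / ev x v := ⟨_, rfl⟩
  obtain ⟨V, hV⟩ : ∃ V, V = (ev x (th u) * ev x v - ev x u * ev x (th v)) / ev x v ^ 2 := ⟨_, rfl⟩
  obtain ⟨k, hkd⟩ : ∃ k, k = F.natDegree := ⟨_, rfl⟩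
  obtain ⟨H, hH⟩ : ∃ H, H = max ‖ev x u‖ ‖ev x v‖ := ⟨_, rfl⟩
  have hH0 : 0 < H := by rw [hH]; exact lt_max_of_lt_right hvn
  have hmH : max 1 ‖U‖ = H / ‖ev x v‖ := by
    rw [hU, norm_div, hH, ← max_div_div_right hvn.le, div_self hvn.ne', max_comm]
  have hfn : ‖(F.map (ev x)).eval U‖ = ‖ev x (fv F u v)‖ / ‖ev x v‖ ^ k := by
    rw [fv_eval F u v hv, norm_mul, norm_pow, ← hU, ev2_eq, ← hkd, mul_div_cancel_left₀]
    exact pow_ne_zero _ hvn.ne'
  obtain ⟨fu, hfu⟩ : ∃ t, t = FW (u.map (Int.castRingHom ℂ)) c x := ⟨_, rfl⟩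
  obtain ⟨fw, hfw⟩ : ∃ t, t = FW (v.map (Int.castRingHom ℂ)) c x := ⟨_, rfl⟩
  obtain ⟨ff, hff⟩ : ∃ t, t = FW ((fv F u v).map (Int.castRingHom ℂ)) c x := ⟨_, rfl⟩
  have hfu0 : 0 ≤ fu := by rw [hfu]; exact FW_nonneg _ _ _
  have hfw0 : 0 ≤ fw := by rw [hfw]; exact FW_nonneg _ _ _
  have hff0 : 0 ≤ ff := by rw [hff]; exact FW_nonneg _ _ _
  rw [← hfu, ← hfw, ← hff, ← hH, ← hkd]
  have hk1 : (1:ℝ) ≤ k := by
    rw [hkd]
    exact_mod_cast hk
  have hc0 : 0 ≤ c := by linarith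
  obtain ⟨E, hE⟩ : ∃ E, E = Real.exp (fu + fw + ff) := ⟨_, rfl⟩
  have hE1 : 1 ≤ E := by rw [hE]; exact Real.one_le_exp (by linarith)
  have hEu : Real.exp fu ≤ E := by rw [hE]; exact Real.exp_le_exp.mpr (by linarith)
  have hEv : Real.exp fw ≤ E := by rw [hE]; exact Real.exp_le_exp.mpr (by linarith)
  have hEf : Real.exp ff ≤ E := by rw [hE]; exact Real.exp_le_exp.mpr (by linarith)
  obtain ⟨Λ, hΛ⟩ : ∃ Λ, Λ = ((k:ℝ) + 1) * c * E := ⟨_, rfl⟩
  rw [← hE, ← hΛ]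
  have hcE : 1 ≤ c * E := o1 hc1 hE1
  have hΛ2 : 2 * (c * E) ≤ Λ := by rw [hΛ]; nlinarith
  have hΛ1 : 1 ≤ Λ := by linarith
  have step : ∀ (P : ℤ[X]), ev x P ≠ 0 →
      Real.exp (FW (P.map (Int.castRingHom ℂ)) c x) ≤ E → ‖ev x (th P)‖ ≤ ‖ev x P‖ * (c * E) := by
    intro P hP hex
    have h1 := one_step (P := P.map (Int.castRingHom ℂ)) (c := c) (by linarith) (x := x)
      (fun _ => by rwa [← ev_eq])
    rw [th_map, ← ev_eq, ← ev_eq] at h1
    refine h1.trans ?_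
    apply mul_le_mul_of_nonneg_left _ (norm_nonneg _)
    exact mul_le_mul_of_nonneg_left hex hc0
  have hsu := step u hu (by rw [← hfu]; exact hEu)
  have hsv := step v hv (by rw [← hfw]; exact hEv)
  have hsf := step (fv F u v) hf (by rw [← hff]; exact hEf)
  have hVΛ : ‖V‖ ≤ ‖U‖ * Λ := by
    rw [hV, hU, norm_div, norm_div, norm_pow, div_le_iff₀ (by positivity)]
    have h1 : ‖ev x (th u) * ev x v - ev x u * ev x (th v)‖ ≤
        ‖ev x u‖ * (c * E) * ‖ev x v‖ + ‖ev x u‖ * (‖ev x v‖ * (c * E)) := by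
      refine (norm_sub_le _ _).trans ?_
      rw [norm_mul, norm_mul]
      exact add_le_add (mul_le_mul_of_nonneg_right hsu (norm_nonneg _))
        (mul_le_mul_of_nonneg_left hsv (norm_nonneg _))
    refine h1.trans ?_
    have h2 : ‖ev x u‖ / ‖ev x v‖ * Λ * ‖ev x v‖ ^ 2 = ‖ev x u‖ * ‖ev x v‖ * Λ := by
      field_simp
    rw [h2]
    have h3 : 0 ≤ ‖ev x u‖ * ‖ev x v‖ := by positivity
    nlinarith
  have hfΛ : ‖((FD F).map (ev x)).eval U + V * (derivative (F.map (ev x))).eval U‖ ≤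
      ‖(F.map (ev x)).eval U‖ * Λ := by
    have h1 := total F u v hx0 hv
    rw [← hU, ← hV, ev2_eq, ev2_eq, ← derivative_map] at h1
    rw [mul_comm V, h1, norm_div, norm_pow, hfn, ← hkd]
    rw [div_le_iff₀ (by positivity)]
    have h2 : ‖ev x (th (fv F u v)) * ev x v - (k:ℂ) * (ev x (fv F u v) * ev x (th v))‖ ≤
        ‖ev x (fv F u v)‖ * (c * E) * ‖ev x v‖ + k * (‖ev x (fv F u v)‖ * (‖ev x v‖ * (c * E))) := by
      refine (norm_sub_le _ _).trans ?_
      rw [norm_mul, norm_mul, norm_mul, Complex.norm_natCast]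
      apply add_le_add (mul_le_mul_of_nonneg_right hsf (norm_nonneg _))
      apply mul_le_mul_of_nonneg_left _ (by positivity)
      exact mul_le_mul_of_nonneg_left hsv (norm_nonneg _)
    refine h2.trans (le_of_eq ?_)
    have h3 : ‖ev x v‖ ^ k ≠ 0 := pow_ne_zero _ hvn.ne'
    have h4 : ‖ev x (fv F u v)‖ / ‖ev x v‖ ^ k * Λ * ‖ev x v‖ ^ (k + 1) =
        ‖ev x (fv F u v)‖ * Λ * ‖ev x v‖ := by
      rw [pow_succ]
      field_simp
    rw [h4, hΛ]
    ring
  have hcard := Rt_card hF x hg.nodup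
  have hprod : F.map (ev x) = ∏ α ∈ Rt F x hg.nodup, (X - C α) := by
    have h1 := (IsAlgClosed.splits (F.map (ev x))).eq_prod_roots_of_monic (hF.map _)
    exact h1
  have hstar := star hprod (r := rr F x) hg.hA hg.hb hg.bd hg.sep hg.gb hg.hh hg.lg hg.lh hg.rb
    (fun α _ β _ _ => rr_rel F x α β) hΛ1 hVΛ hfΛ (by rw [hcard]; exact hk)
  rw [hcard, hmH, hfn, ← hkd] at hstar
  -- the factor
  obtain ⟨q, hq⟩ : ∃ q, q = ev x v ^ 2 / ev x Y := ⟨_, rfl⟩
  have hv' : ev x v' = ev x v / ev x Y := by rw [hYv, mul_div_cancel_left₀ _ hY0]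
  have hv'' : ev x v'' = ev x (th v) / ev x Y := by rw [hY', map_mul, mul_div_cancel_left₀ _ hY0]
  have hNN : ‖ev x (NN F (th u * v' - u * v'') (u * v') (v * v'))‖ = ‖q‖ ^ (k ^ 2) *
      ∏ α ∈ Rt F x hg.nodup, ∏ β ∈ Rt F x hg.nodup,
        ‖wt (F.map (ev x)) ((FD F).map (ev x)) (rr F x) U V α β‖ := by
    rw [NN_fin hF _ _ _ x hg.nodup, norm_prod]
    have h1 : ∀ α ∈ Rt F x hg.nodup, ‖∏ β ∈ Rt F x hg.nodup,
        (ev x (th u * v' - u * v'') * ((derivative (F.map (ev x))).eval α *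
          (derivative (F.map (ev x))).eval β) + ev x (u * v') * rr F x α β +
          ev x (v * v') * (-α * rr F x α β + ((FD F).map (ev x)).eval α *
          (derivative (F.map (ev x))).eval β))‖ = ‖q‖ ^ k * ∏ β ∈ Rt F x hg.nodup,
            ‖wt (F.map (ev x)) ((FD F).map (ev x)) (rr F x) U V α β‖ := by
      intro α _
      have h2 : ‖q‖ ^ k = ∏ β ∈ Rt F x hg.nodup, ‖q‖ := by
        rw [Finset.prod_const, hcard, hkd]
      rw [norm_prod, h2, ← Finset.prod_mul_distrib]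
      apply Finset.prod_congr rfl
      intro β _
      rw [← norm_mul]
      congr 1
      rw [map_sub, map_mul, map_mul, map_mul, map_mul, hv', hv'', hq]
      unfold wt
      rw [hU, hV]
      field_simp
    rw [Finset.prod_congr rfl h1, Finset.prod_mul_distrib, Finset.prod_const, hcard, ← hkd, ← pow_mul]
    congr 2
    ring
  rw [hNN]
  have hqn : ‖q‖ = ‖ev x v‖ ^ 2 / ‖ev x Y‖ := by rw [hq, norm_div, norm_pow]
  refine (mul_le_mul_of_nonneg_left hstar (by positivity)).trans (le_of_eq ?_)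
  have z1 : ‖q‖ * (5 * A * b ^ 2 * (4 * A ^ 2) ^ k * (H / ‖ev x v‖ * Λ)) =
      5 * A * b ^ 2 * (4 * A ^ 2) ^ k * (‖ev x v‖ * H / ‖ev x Y‖ * Λ) := by
    rw [hqn]
    field_simp
  have z2 : ‖ev x (fv F u v)‖ / ‖ev x v‖ ^ k / (H / ‖ev x v‖) ^ k = ‖ev x (fv F u v)‖ / H ^ k := by
    rw [div_pow, div_div_div_cancel_right₀]
    exact pow_ne_zero _ hvn.ne'
  rw [← mul_assoc, ← mul_pow, z1, z2]

end Pool.Agent.Zk21.Mw
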