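import Mathlib
import Pool.Agent.Zk21.MvI
import Pool.Agent.Zk21.MwA

/-!
# Moving targets for rational functions: the lower bound for the double resultant
-/

set_option autoImplicit false

open Polynomial Metric Set Filter Topology

namespace Pool.Agent.Zk21.Mw

open Pool.Agent.R328 Pool.Agent.Zk21.Smt Pool.Agent.Zk21.Un Pool.Agent.Zk21.Pt Pool.Agent.Zk21.Ca
open Pool.Agent.Zk21.Mv

lemma dom_zero' {P u w : ℤ[X]} {o : ℕ} (hP : X ^ (o + 1) ∣ P) (hu : u = X ^ o * w)
    (hw : w.coeff 0 ≠ 0) : ∀ᶠ x : ℝ in 𝓝[>] 0, ‖ev (x:ℂ) P‖ ≤ ‖ev (x:ℂ) u‖ := by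
  obtain ⟨Q, rfl⟩ := hP
  have h := dom_zero (P := X * Q) (u := w) (by simp) hw
  filter_upwards [h] with x hx
  rw [hu, pow_succ, mul_assoc, map_mul, map_mul (ev _) (X ^ o) w, norm_mul, norm_mul]
  exact mul_le_mul_of_nonneg_left hx (norm_nonneg _)

lemma trail_fac {u : ℤ[X]} (hu : u ≠ 0) : ∃ w : ℤ[X], u = X ^ u.natTrailingDegree * w ∧
    w.coeff 0 ≠ 0 := by
  have h1 : X ^ u.natTrailingDegree ∣ u := by
    rw [X_pow_dvd_iff]
    exact fun d hd => coeff_eq_zero_of_lt_natTrailingDegree hd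
  obtain ⟨w, hw⟩ := h1
  refine ⟨w, hw, ?_⟩
  have h2 := coeff_X_pow_mul w u.natTrailingDegree 0
  rw [← hw, zero_add] at h2
  rw [← h2]
  exact mt trailingCoeff_eq_zero.mp hu

lemma th_lead {P : ℤ[X]} (hP : P ≠ 0) : (th P - C (P.natDegree : ℤ) * P).degree < P.degree := by
  rw [degree_eq_natDegree hP, degree_lt_iff_coeff_zero]
  intro j hj
  rw [coeff_sub, th_coeff, coeff_C_mul]
  rcases eq_or_lt_of_le hj with h2 | h2
  · rw [← h2]
    ring
  · rw [coeff_eq_zero_of_natDegree_lt (by omega)]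
    ring

lemma th_trail (P : ℤ[X]) :
    X ^ (P.natTrailingDegree + 1) ∣ th P - C (P.natTrailingDegree : ℤ) * P := by
  rw [X_pow_dvd_iff]
  intro j hj
  rw [coeff_sub, th_coeff, coeff_C_mul]
  rcases eq_or_lt_of_le (Nat.lt_succ_iff.mp hj) with h2 | h2
  · rw [h2]
    ring
  · rw [coeff_eq_zero_of_lt_natTrailingDegree h2]
    ring

/-- the lower bound for the double resultant -/
theorem NN_lower {F : ℤ[X][X]} (hF : F.Monic) (hk : 0 < F.natDegree) {P Q : ℤ[X][X]} {r : ℤ[X]}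
    (hB : P * F + Q * derivative F = C r) (hr : r ≠ 0) : ∃ n₁ : ℕ, 1 ≤ n₁ ∧
      ∀ (u v Y v' v'' : ℤ[X]) (N : ℕ), u ≠ 0 → v ≠ 0 → v = Y * v' → th v = Y * v'' → n₁ ≤ N →
      (u.natDegree = v.natDegree + N ∨ v.natTrailingDegree = u.natTrailingDegree + N) →
      NN F (th u * v' - u * v'') (u * v') (v * v') ≠ 0 ∧
      ((F.natDegree * F.natDegree : ℕ) : ℝ) * (Real.log N - Real.log 2) ≤
        lM (NN F (th u * v' - u * v'') (u * v') (v * v')) := by
  obtain ⟨n₀, hn₀, K, hK, c₁, τ₀, hτ₀, h⟩ := NN_point hF hk hB hr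
  obtain ⟨m, hm⟩ := exists_nat_ge n₀
  refine ⟨m + c₁ + 1, by omega, ?_⟩
  intro u v Y v' v'' N hu hv hY hY' hN hcase
  set k2 := F.natDegree * F.natDegree with hk2
  have hY0 : Y ≠ 0 := by
    rintro rfl
    rw [zero_mul] at hY
    exact hv hY
  have hv'0 : v' ≠ 0 := by
    rintro rfl
    rw [mul_zero] at hY
    exact hv hY
  have huv : u * v ≠ 0 := mul_ne_zero hu hv
  have hq : NN F 1 0 0 * (u * v') ^ k2 ≠ 0 :=
    mul_ne_zero (NN1_ne hF hk hB hr) (pow_ne_zero _ (mul_ne_zero hu hv'0))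
  have hN0 : 0 < N := by omega
  have hNr : (0:ℝ) < N := by exact_mod_cast hN0
  have fin : (k2 : ℝ) * (Real.log N - Real.log 2) = Real.log (((N:ℝ) / 2) ^ k2) := by
    rw [Real.log_pow, ← Real.log_div hNr.ne' (by norm_num)]
  have hmN : n₀ ≤ N := by
    refine hm.trans ?_
    have : m ≤ N := by omega
    exact_mod_cast this
  -- division by the common factor
  have hdiv : ∀ (x : ℂ) (Z W : ℤ[X]), ev x Y ≠ 0 → ‖ev x (Y * Z)‖ ≤ ‖ev x (Y * W)‖ →
      ‖ev x Z‖ ≤ ‖ev x W‖ := by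
    intro x Z W hx h1
    rw [map_mul, map_mul, norm_mul, norm_mul] at h1
    exact le_of_mul_le_mul_left h1 (norm_pos_iff.mpr hx)
  rcases hcase with hcase | hcase
  · -- the place at infinity
    have hlu := th_lead hu
    have hlv := th_lead hv
    have hNC : (C (N:ℤ) : ℤ[X]) = C (u.natDegree : ℤ) - C (v.natDegree : ℤ) := by
      rw [hcase, ← C_sub]
      congr 1
      push_cast
      ring
    have hR : Y * ((th u * v' - u * v'') - C (N:ℤ) * (u * v')) =
        (th u - C (u.natDegree : ℤ) * u) * v - u * (th v - C (v.natDegree : ℤ) * v) := by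
      rw [hNC]
      calc Y * ((th u * v' - u * v'') - (C (u.natDegree : ℤ) - C (v.natDegree : ℤ)) * (u * v')) =
          th u * (Y * v') - u * (Y * v'') - (C (u.natDegree : ℤ) - C (v.natDegree : ℤ)) *
            (u * (Y * v')) := by ring
        _ = _ := by rw [← hY, ← hY']; ring
    have hdeg : (Y * ((th u * v' - u * v'') - C (N:ℤ) * (u * v'))).degree < (Y * (u * v')).degree := by
      have e0 : Y * (u * v') = u * v := by rw [hY]; ring
      rw [hR, e0]
      refine (degree_sub_le _ _).trans_lt (max_lt ?_ ?_)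
      · rw [degree_mul, degree_mul]
        exact WithBot.add_lt_add_right (degree_ne_bot.mpr hv) hlu
      · rw [degree_mul, degree_mul]
        exact WithBot.add_lt_add_left (degree_ne_bot.mpr hu) hlv
    have h1 := dom_inf hdeg
    have h2 : ∀ᶠ x : ℝ in atTop, ‖ev (x:ℂ) (C (K:ℤ) * X ^ c₁ * v)‖ ≤ ‖ev (x:ℂ) u‖ := by
      apply dom_inf
      rw [degree_mul]
      have e1 := degree_C_mul_X_pow_le c₁ (K:ℤ)
      have e2 : ((c₁ + v.natDegree : ℕ) : WithBot ℕ) < (u.natDegree : WithBot ℕ) := by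
        exact_mod_cast (by omega : c₁ + v.natDegree < u.natDegree)
      rw [degree_eq_natDegree hu, degree_eq_natDegree hv]
      refine lt_of_le_of_lt (add_le_add_left e1 _) ?_
      exact_mod_cast e2
    obtain ⟨RY, hRY, hYx⟩ := lower_inf hY0
    have h3 : ∀ᶠ x : ℝ in atTop, ((N:ℝ) / 2) ^ k2 * ‖ev (x:ℂ) (NN F 1 0 0 * (u * v') ^ k2)‖ ≤
        ‖ev (x:ℂ) (NN F (th u * v' - u * v'') (u * v') (v * v'))‖ ∧
        ‖ev (x:ℂ) (NN F (th u * v' - u * v'') (u * v') (v * v'))‖ ≤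
          (2 * (N:ℝ)) ^ k2 * ‖ev (x:ℂ) (NN F 1 0 0 * (u * v') ^ k2)‖ := by
      filter_upwards [h1, h2, eventually_ge_atTop (Real.exp τ₀), eventually_ge_atTop RY]
        with x hx1 hx2 hx3 hx4
      have hx0 : 0 < x := (Real.exp_pos _).trans_le hx3
      have hlog : τ₀ ≤ Real.log x := by
        rw [Real.le_log_iff_exp_le hx0]
        exact hx3
      have hexp : Complex.exp ((Real.log x : ℝ) : ℂ) = (x:ℂ) := by
        rw [← Complex.ofReal_exp, Real.exp_log hx0]
      have habs : |(((Real.log x : ℝ) : ℂ)).re| = Real.log x := by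
        rw [Complex.ofReal_re, abs_of_nonneg (by linarith)]
      have hYx0 : ev (x:ℂ) Y ≠ 0 := by
        have := hYx (x:ℂ) (by rw [Complex.norm_real, Real.norm_eq_abs, abs_of_pos hx0]; exact hx4)
        intro h0
        rw [h0, norm_zero] at this
        linarith
      have h4 := h ((Real.log x : ℝ) : ℂ) (by rw [habs]; exact hlog) (th u * v' - u * v'') (u * v')
        (v * v') (N:ℂ) (by rw [Complex.norm_natCast]; exact hmN)
      rw [hexp, habs, Complex.norm_natCast] at h4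
      apply h4
      · have e1 := hdiv _ _ _ hYx0 hx1
        have e2 : ev (x:ℂ) ((th u * v' - u * v'') - C (N:ℤ) * (u * v')) =
            ev (x:ℂ) (th u * v' - u * v'') - N * ev (x:ℂ) (u * v') := by
          rw [map_sub (ev (x:ℂ)) (th u * v' - u * v''), map_mul (ev (x:ℂ)) (C (N:ℤ)), ev_C]
          push_cast
          ring
        rw [e2] at e1
        exact e1
      · have e1 : ‖ev (x:ℂ) (v * v')‖ * (K * Real.exp (c₁ * Real.log x)) =
            ‖ev (x:ℂ) (C (K:ℤ) * X ^ c₁ * v)‖ * ‖ev (x:ℂ) v'‖ := by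
          rw [map_mul, map_mul, map_mul, map_pow, ev_C, ev_X, norm_mul, norm_mul, norm_mul, norm_pow,
            Complex.norm_real, Real.norm_eq_abs, abs_of_pos hx0, Real.exp_nat_mul, Real.exp_log hx0,
            Int.cast_natCast, Complex.norm_natCast]
          ring
        rw [e1, map_mul (ev (x:ℂ)) u v', norm_mul]
        exact mul_le_mul_of_nonneg_right hx2 (norm_nonneg _)
    obtain ⟨h4, h5⟩ := side_inf hq (by positivity) h3
    exact ⟨h4, fin.le.trans h5⟩
  · -- the place at zero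
    have hlu := th_trail u
    have hlv := th_trail v
    obtain ⟨wu, hwu, hwu0⟩ := trail_fac hu
    obtain ⟨wv, hwv, hwv0⟩ := trail_fac hv
    have hNC : (C (N:ℤ) : ℤ[X]) = C (v.natTrailingDegree : ℤ) - C (u.natTrailingDegree : ℤ) := by
      rw [hcase, ← C_sub]
      congr 1
      push_cast
      ring
    have hR : Y * ((th u * v' - u * v'') + C (N:ℤ) * (u * v')) =
        (th u - C (u.natTrailingDegree : ℤ) * u) * v - u * (th v - C (v.natTrailingDegree : ℤ) * v) := by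
      rw [hNC]
      calc Y * ((th u * v' - u * v'') + (C (v.natTrailingDegree : ℤ) - C (u.natTrailingDegree : ℤ)) *
            (u * v')) =
          th u * (Y * v') - u * (Y * v'') + (C (v.natTrailingDegree : ℤ) -
            C (u.natTrailingDegree : ℤ)) * (u * (Y * v')) := by ring
        _ = _ := by rw [← hY, ← hY']; ring
    obtain ⟨ou, hou⟩ : ∃ o, o = u.natTrailingDegree := ⟨_, rfl⟩
    obtain ⟨ov, hov⟩ : ∃ o, o = v.natTrailingDegree := ⟨_, rfl⟩
    rw [← hou] at hwu hcase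
    rw [← hov] at hwv hcase
    have hdu : X ^ ou ∣ u := Dvd.intro _ hwu.symm
    have hdv : X ^ ov ∣ v := Dvd.intro _ hwv.symm
    have hdR : X ^ (ou + ov + 1) ∣ Y * ((th u * v' - u * v'') + C (N:ℤ) * (u * v')) := by
      rw [hR]
      apply dvd_sub
      · have e1 : (X : ℤ[X]) ^ (ou + ov + 1) = X ^ (ou + 1) * X ^ ov := by ring
        rw [e1]
        rw [← hou] at hlu ⊢
        exact mul_dvd_mul hlu hdv
      · have e1 : (X : ℤ[X]) ^ (ou + ov + 1) = X ^ ou * X ^ (ov + 1) := by ring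
        rw [e1]
        rw [← hov] at hlv ⊢
        exact mul_dvd_mul hdu hlv
    have h1 : ∀ᶠ x : ℝ in 𝓝[>] 0, ‖ev (x:ℂ) (Y * ((th u * v' - u * v'') + C (N:ℤ) * (u * v')))‖ ≤
        ‖ev (x:ℂ) (Y * (u * v'))‖ := by
      apply dom_zero' (w := wu * wv) hdR
      · calc Y * (u * v') = u * (Y * v') := by ring
          _ = u * v := by rw [← hY]
          _ = (X ^ ou * wu) * (X ^ ov * wv) := by rw [← hwu, ← hwv]
          _ = _ := by ring
      · rw [mul_coeff_zero]
        exact mul_ne_zero hwu0 hwv0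
    have h2 : ∀ᶠ x : ℝ in 𝓝[>] 0, ‖ev (x:ℂ) (C (K:ℤ) * v)‖ ≤ ‖ev (x:ℂ) (X ^ c₁ * u)‖ := by
      apply dom_zero' (w := wu) (o := c₁ + ou)
      · apply Dvd.dvd.mul_left
        refine (pow_dvd_pow X ?_).trans hdv
        omega
      · rw [pow_add, mul_assoc, ← hwu]
      · exact hwu0
    obtain ⟨RY, hRY, hYx⟩ := lower_zero hY0
    have h3 : ∀ᶠ x : ℝ in 𝓝[>] 0, ((N:ℝ) / 2) ^ k2 * ‖ev (x:ℂ) (NN F 1 0 0 * (u * v') ^ k2)‖ ≤
        ‖ev (x:ℂ) (NN F (th u * v' - u * v'') (u * v') (v * v'))‖ ∧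
        ‖ev (x:ℂ) (NN F (th u * v' - u * v'') (u * v') (v * v'))‖ ≤
          (2 * (N:ℝ)) ^ k2 * ‖ev (x:ℂ) (NN F 1 0 0 * (u * v') ^ k2)‖ := by
      have hRY0 : (0:ℝ) < RY := by linarith
      filter_upwards [h1, h2, Ioo_mem_nhdsGT (Real.exp_pos (-τ₀)),
        Ioo_mem_nhdsGT (show (0:ℝ) < 1 / RY by positivity)] with x hx1 hx2 hx3 hx4
      have hx0 : 0 < x := hx3.1
      have hlog : Real.log x ≤ -τ₀ := by
        rw [Real.log_le_iff_le_exp hx0]
        exact hx3.2.le
      have hexp : Complex.exp ((Real.log x : ℝ) : ℂ) = (x:ℂ) := by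
        rw [← Complex.ofReal_exp, Real.exp_log hx0]
      have habs : |(((Real.log x : ℝ) : ℂ)).re| = -Real.log x := by
        rw [Complex.ofReal_re, abs_of_nonpos (by linarith)]
      have hxn : ‖(x:ℂ)‖ = x := by rw [Complex.norm_real, Real.norm_eq_abs, abs_of_pos hx0]
      have hYx0 : ev (x:ℂ) Y ≠ 0 := by
        have h5 := hYx (x:ℂ) (by exact_mod_cast hx0.ne') (by
          rw [hxn]
          have := hx4.2
          rw [lt_div_iff₀ hRY0] at this
          exact this.le)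
        intro h0
        rw [h0, norm_zero, hxn] at h5
        have : 0 < x ^ Y.natDegree := by positivity
        linarith
      have h4 := h ((Real.log x : ℝ) : ℂ) (by rw [habs]; linarith) (th u * v' - u * v'') (u * v')
        (v * v') (-(N:ℂ)) (by rw [norm_neg, Complex.norm_natCast]; exact hmN)
      rw [hexp, habs, norm_neg, Complex.norm_natCast] at h4
      apply h4
      · have e1 := hdiv _ _ _ hYx0 hx1
        have e2 : ev (x:ℂ) ((th u * v' - u * v'') + C (N:ℤ) * (u * v')) =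
            ev (x:ℂ) (th u * v' - u * v'') - -(N:ℂ) * ev (x:ℂ) (u * v') := by
          rw [map_add, map_mul (ev (x:ℂ)) (C (N:ℤ)), ev_C]
          push_cast
          ring
        rw [e2] at e1
        exact e1
      · have hxc : (0:ℝ) < x ^ c₁ := by positivity
        have e3 : Real.exp (c₁ * -Real.log x) = (x ^ c₁)⁻¹ := by
          rw [mul_neg, Real.exp_neg, Real.exp_nat_mul, Real.exp_log hx0]
        rw [map_mul, map_mul, norm_mul, norm_mul, map_pow, ev_X, norm_pow, hxn, ev_C, Int.cast_natCast,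
          Complex.norm_natCast] at hx2
        rw [e3, map_mul, map_mul, norm_mul, norm_mul]
        calc ‖ev (x:ℂ) v‖ * ‖ev (x:ℂ) v'‖ * (K * (x ^ c₁)⁻¹) =
            (K * ‖ev (x:ℂ) v‖) * (‖ev (x:ℂ) v'‖ * (x ^ c₁)⁻¹) := by ring
          _ ≤ (x ^ c₁ * ‖ev (x:ℂ) u‖) * (‖ev (x:ℂ) v'‖ * (x ^ c₁)⁻¹) :=
              mul_le_mul_of_nonneg_right hx2 (by positivity)
          _ = _ := by field_simp
    obtain ⟨h4, h5⟩ := side_zero hq (by positivity) h3
    exact ⟨h4, fin.le.trans h5⟩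

end Pool.Agent.Zk21.Mw
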