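import Mathlib
import Pool.Agent.Zk21.MvK
import Pool.Agent.Zk21.CfA
import Pool.Agent.Zk21.MwB

/-!
# Moving targets for rational functions: the height
-/

set_option autoImplicit false

open Polynomial Metric Set Filter Topology Real

namespace Pool.Agent.Zk21.Mw

open Pool.Agent.R328 Pool.Agent.Zk21.Smt Pool.Agent.Zk21.Un Pool.Agent.Zk21.Pt Pool.Agent.Zk21.Ca
open Pool.Agent.Zk21.Mv

/-- the height of the pair `(u, v)` on the circle -/
noncomputable def TH (u v : ℤ[X]) : ℝ :=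
  circleAverage ((fun x => log ‖(u.map (Int.castRingHom ℂ)).eval x‖) ⊔
    (fun x => log ‖(v.map (Int.castRingHom ℂ)).eval x‖)) 0 1

lemma TH_int (u v : ℤ[X]) : CircleIntegrable ((fun x => log ‖(u.map (Int.castRingHom ℂ)).eval x‖) ⊔
    (fun x => log ‖(v.map (Int.castRingHom ℂ)).eval x‖)) 0 1 :=
  Cf.ci_sup (log_int _) (log_int _)

lemma lM_le_TH (u v : ℤ[X]) : lM v ≤ TH u v := by
  have h : lM v = circleAverage (fun x => log ‖(v.map (Int.castRingHom ℂ)).eval x‖) 0 1 := by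
    rw [Un.log_mahler]
    rfl
  rw [h]
  apply circleAverage_mono (log_int _) (TH_int u v)
  intro x _
  exact le_sup_right (a := log ‖(u.map (Int.castRingHom ℂ)).eval x‖)

/-- a bound for the degree -/
lemma fv_deg (F : ℤ[X][X]) {u v : ℤ[X]} {n : ℕ} (hu : u.natDegree ≤ n) (hv : v.natDegree ≤ n) :
    (fv F u v).natDegree ≤ (∑ i ∈ Finset.range (F.natDegree + 1), (F.coeff i).natDegree) +
      F.natDegree * n := by
  unfold fv
  apply natDegree_sum_le_of_forall_le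
  intro i hi
  have h1 : (F.coeff i).natDegree ≤ ∑ i ∈ Finset.range (F.natDegree + 1), (F.coeff i).natDegree :=
    Finset.single_le_sum (f := fun i => (F.coeff i).natDegree) (fun _ _ => Nat.zero_le _) hi
  rw [Finset.mem_range] at hi
  refine (natDegree_mul_le).trans ?_
  have h2 : (F.coeff i * u ^ i).natDegree ≤ (F.coeff i).natDegree + i * n :=
    natDegree_mul_le.trans (by
      have h3 := natDegree_pow_le (p := u) (n := i)
      have h4 : i * u.natDegree ≤ i * n := Nat.mul_le_mul_left _ hu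
      omega)
  have h3 : (v ^ (F.natDegree - i)).natDegree ≤ n * (F.natDegree - i) := by
    refine natDegree_pow_le.trans ?_
    rw [mul_comm]
    exact Nat.mul_le_mul_right _ hv
  have h4 : i * n + n * (F.natDegree - i) = F.natDegree * n := by
    rw [mul_comm i, ← Nat.mul_add, mul_comm]
    congr 1
    omega
  omega

/-- the final arithmetic -/
lemma arith' {k T L N lN ln l2c l8 l2 sB sBc a1 a2 a3 V B₃ : ℝ}
    (hB₃ : B₃ = sB + k ^ 2 * l8 + k ^ 2 * l2 + sBc + 6 * k ^ 2)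
    (hN : k ^ 2 * (lN - l2) ≤ N) (h2c : l2c ≤ l8 + ln) (ha1 : a1 ≤ 2) (ha2 : a2 ≤ 2) (ha3 : a3 ≤ 2)
    (hpt : N ≤ (sB + k ^ 2 * l2c) + (sBc + (-(k * (k - 1)) * T + (k ^ 2 * V +
      (k ^ 2 * (a1 + a2 + a3) + (2 * k - 1) * L))))) :
    k * (k - 1) * T ≤ B₃ + k ^ 2 * V + (2 * k - 1) * L + k ^ 2 * (ln - lN) := by
  have hk20 : 0 ≤ k ^ 2 := by positivity
  have g1 : k ^ 2 * l2c ≤ k ^ 2 * (l8 + ln) := mul_le_mul_of_nonneg_left h2c hk20
  have g2 : k ^ 2 * (a1 + a2 + a3) ≤ k ^ 2 * 6 := mul_le_mul_of_nonneg_left (by linarith) hk20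
  rw [hB₃]
  linarith

/-- the height is bounded by the measure -/
theorem T_bound {F : ℤ[X][X]} (hF : F.Monic) (hk : 2 ≤ F.natDegree) {P Q : ℤ[X][X]} {r : ℤ[X]}
    (hB : P * F + Q * derivative F = C r) (hr : r ≠ 0) : ∃ B : ℝ, 0 ≤ B ∧ ∃ n₁ : ℕ, 1 ≤ n₁ ∧
      ∀ (u v Y v' v'' : ℤ[X]) (N n : ℕ), u ≠ 0 → v ≠ 0 → v = Y * v' → th v = Y * v'' → n₁ ≤ N →
      (u.natDegree = v.natDegree + N ∨ v.natTrailingDegree = u.natTrailingDegree + N) →
      u.natDegree ≤ n → v.natDegree ≤ n → fv F u v ≠ 0 →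
      (F.natDegree : ℝ) * (F.natDegree - 1) * TH u v ≤ B + (F.natDegree : ℝ) ^ 2 * (lM v - lM Y) +
        (2 * F.natDegree - 1) * lM (fv F u v) + (F.natDegree : ℝ) ^ 2 * (log n - log N) := by
  obtain ⟨n₁, hn₁, hlow⟩ := NN_lower hF (by omega) hB hr
  obtain ⟨C₀, hC₀, cg, hgeo⟩ := geo hF hB
  obtain ⟨k, hkdef⟩ : ∃ k, k = F.natDegree := ⟨_, rfl⟩
  obtain ⟨D, hD⟩ : ∃ D, D = ∑ i ∈ Finset.range (F.natDegree + 1), (F.coeff i).natDegree := ⟨_, rfl⟩
  rw [← hkdef] at hk hlow ⊢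
  have hkR : (2:ℝ) ≤ k := by exact_mod_cast hk
  set r' := r.map (Int.castRingHom ℂ) with hr'
  obtain ⟨cr, hcr⟩ : ∃ cr, cr = circleAverage (fun x => log⁺ ‖(1:ℂ[X]).eval x / r'.eval x‖) 0 1 := ⟨_, rfl⟩
  have hcr0 : 0 ≤ cr := by
    rw [hcr]
    exact circleAverage_nonneg_of_nonneg fun _ _ => posLog_nonneg
  obtain ⟨s, hs⟩ : ∃ s : ℝ, s = (k:ℝ) ^ 2 + 2 * k - 1 := ⟨_, rfl⟩
  have hs0 : 0 ≤ s := by rw [hs]; nlinarith
  obtain ⟨B₁, hB₁⟩ : ∃ B₁ : ℝ, B₁ = log (5 * 4 ^ k) + (3 + 2 * k) * log C₀ := ⟨_, rfl⟩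
  have hlC : 0 ≤ log C₀ := log_nonneg hC₀
  have hB₁0 : 0 ≤ B₁ := by
    rw [hB₁]
    have : (1:ℝ) ≤ 5 * 4 ^ k := by
      have : (1:ℝ) ≤ 4 ^ k := one_le_pow₀ (by norm_num)
      linarith
    have := log_nonneg this
    positivity
  obtain ⟨B₂, hB₂⟩ : ∃ B₂ : ℝ, B₂ = (3 + 2 * k) * cg := ⟨_, rfl⟩
  have hB₂0 : 0 ≤ B₂ := by rw [hB₂]; positivity
  obtain ⟨B₃, hB₃⟩ : ∃ B₃ : ℝ, B₃ = s * B₁ + (k:ℝ) ^ 2 * log (4 * (k + 1) * (k + D)) +
    (k:ℝ) ^ 2 * log 2 + s * B₂ * cr + 6 * (k:ℝ) ^ 2 := ⟨_, rfl⟩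
  have hDR : (0:ℝ) ≤ D := Nat.cast_nonneg _
  have hl8 : 0 ≤ log (4 * ((k:ℝ) + 1) * (k + D)) := by
    apply log_nonneg
    nlinarith
  have hl2 : 0 ≤ log 2 := log_nonneg (by norm_num)
  have hB₃0 : 0 ≤ B₃ := by
    rw [hB₃]
    positivity
  refine ⟨B₃, hB₃0, n₁, hn₁, ?_⟩
  intro u v Y v' v'' N n hu0 hv0 hY hY' hN hcase hun hvn hf0
  obtain ⟨hNN, hNNl⟩ := hlow u v Y v' v'' N hu0 hv0 hY hY' hN hcase
  have hY0 : Y ≠ 0 := by
    rintro rfl
    rw [zero_mul] at hY
    exact hv0 hY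
  have hNn : N ≤ n := by
    rcases hcase with h1 | h1
    · omega
    · have := natTrailingDegree_le_natDegree v
      omega
  obtain ⟨f, hf⟩ : ∃ f, f = fv F u v := ⟨_, rfl⟩
  rw [← hf] at hf0 ⊢
  obtain ⟨NP, hNP⟩ : ∃ NP, NP = NN F (th u * v' - u * v'') (u * v') (v * v') := ⟨_, rfl⟩
  rw [← hNP] at hNN hNNl
  have hn0 : 1 ≤ n := by omega
  have hnR : (1:ℝ) ≤ n := by exact_mod_cast hn0
  obtain ⟨c, hc⟩ : ∃ c : ℝ, c = 4 * ((k:ℝ) * n + D) := ⟨_, rfl⟩
  have hkn2 : (n:ℝ) ≤ k * n := le_mul_of_one_le_left (by linarith) (by linarith)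
  have hc1 : 1 ≤ c := by rw [hc]; linarith
  set u₁ := u.map (Int.castRingHom ℂ) with hu₁
  set v₁ := v.map (Int.castRingHom ℂ) with hv₁
  set Y₁ := Y.map (Int.castRingHom ℂ) with hY₁
  set f' := f.map (Int.castRingHom ℂ) with hf'
  set N' := NP.map (Int.castRingHom ℂ) with hN'
  have hud : (u₁.natDegree : ℝ) ≤ n := by
    have : u₁.natDegree ≤ n := by rw [hu₁, natDeg_map]; exact hun
    exact_mod_cast this
  have hvd : (v₁.natDegree : ℝ) ≤ n := by
    have : v₁.natDegree ≤ n := by rw [hv₁, natDeg_map]; exact hvn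
    exact_mod_cast this
  have hfd : f'.natDegree ≤ D + k * n := by
    rw [hf', natDeg_map, hD, hkdef, hf]
    exact fv_deg F hun hvn
  have hfdR : (f'.natDegree : ℝ) ≤ D + k * n := by exact_mod_cast hfd
  have avg : ∀ R : ℂ[X], (R.natDegree : ℝ) ≤ D + k * n → circleAverage (FW R c) 0 1 ≤ 2 := by
    intro R hR
    refine (FW_avg (by linarith) ?_).trans ?_
    · rw [hc]
      linarith
    · rw [div_le_iff₀ (by linarith), hc]
      linarith
  have ha1 := avg u₁ (by linarith)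
  have ha2 := avg v₁ (by linarith)
  have ha3 := avg f' hfdR
  -- the pointwise inequality
  have hpt : circleAverage (fun x => log ‖N'.eval x‖) 0 1 ≤ circleAverage
      ((fun _ => s * B₁ + (k:ℝ) ^ 2 * log ((k + 1) * c)) +
        ((s * B₂) • (fun x => log⁺ ‖(1:ℂ[X]).eval x / r'.eval x‖) +
        ((-((k:ℝ) * (k - 1))) • ((fun x => log ‖u₁.eval x‖) ⊔ (fun x => log ‖v₁.eval x‖)) +
        (((k:ℝ) ^ 2) • ((fun x => log ‖v₁.eval x‖) - (fun x => log ‖Y₁.eval x‖)) +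
        (((k:ℝ) ^ 2) • (FW u₁ c + FW v₁ c + FW f' c) +
          (2 * (k:ℝ) - 1) • (fun x => log ‖f'.eval x‖)))))) 0 1 := by
    apply circleAverage_mono_off (log_int _)
      ((circleIntegrable_const _ _ _).add (((posLog_ratio_int _ _).const_smul).add
        (((TH_int u v).const_smul).add ((((log_int _).sub (log_int _)).const_smul).add
          (((((FW_int _ _).add (FW_int _ _)).add (FW_int _ _)).const_smul).add
          ((log_int _).const_smul))))))
      (((((roots_countable (map_ne hu0)).union (roots_countable (map_ne hf0))).union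
        (roots_countable (map_ne hNN))).union (roots_countable (map_ne hr))).union
        (roots_countable (map_ne hv0)))
    intro x hx hxZ
    rw [mem_sphere_zero_iff_norm] at hx
    simp only [Set.mem_union, not_or] at hxZ
    obtain ⟨⟨⟨⟨hx1, hx2⟩, hx3⟩, hx4⟩, hx5⟩ := hxZ
    have hx1' : ev x u ≠ 0 := by rw [ev_eq]; exact hx1
    have hx2' : ev x f ≠ 0 := by rw [ev_eq]; exact hx2
    have hx3' : ev x NP ≠ 0 := by rw [ev_eq]; exact hx3
    have hx4' : ev x r ≠ 0 := by rw [ev_eq]; exact hx4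
    have hx5' : ev x v ≠ 0 := by rw [ev_eq]; exact hx5
    have hx6' : ev x Y ≠ 0 := by
      intro h0
      rw [hY, map_mul, h0, zero_mul] at hx5'
      exact hx5' rfl
    obtain ⟨w, hw⟩ : ∃ w, w = log⁺ ‖(1:ℂ[X]).eval x / r'.eval x‖ := ⟨_, rfl⟩
    have hw0 : 0 ≤ w := by rw [hw]; exact posLog_nonneg
    have hW1 : 1 ≤ exp w := one_le_exp hw0
    have hWr : 1 ≤ exp w * ‖ev x r‖ := by
      have h1 := le_exp_posLog (norm_nonneg ((1:ℂ[X]).eval x / r'.eval x))
      rw [← hw, eval_one, norm_div, norm_one, hr', ← ev_eq, div_le_iff₀ (norm_pos_iff.mpr hx4')] at h1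
      exact h1
    obtain ⟨A, b, hg, hA, hb⟩ := hgeo x (exp w) hW1 (by rw [hx]; exact hW1) hWr
    have hpt := circle_pt hF (by omega) (u := u) (v := v) (Y := Y) (v' := v') (v'' := v'') hx hg
      hx1' hx5' (by rw [← hf]; exact hx2') hY hY' hc1
    rw [← hf, ← hNP, ← hkdef, ← hu₁, ← hv₁, ← hf'] at hpt
    obtain ⟨hκ1, hκ2⟩ := log_kappa (k := k) hg.hA hg.hb hA hb
    obtain ⟨κ, hκ⟩ : ∃ κ, κ = 5 * A * b ^ 2 * (4 * A ^ 2) ^ k := ⟨_, rfl⟩
    rw [← hκ] at hpt hκ1 hκ2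
    have hκ0 : 0 < κ := by linarith
    have hlE : log (C₀ * exp w ^ cg) = log C₀ + cg * w := by
      rw [log_mul (by positivity) (by positivity), ← exp_nat_mul, log_exp]
    have hκ3 : log κ ≤ B₁ + B₂ * w := by
      rw [hlE] at hκ2
      refine hκ2.trans (le_of_eq ?_)
      rw [hB₁, hB₂]
      ring
    have hun0 : 0 < ‖ev x u‖ := norm_pos_iff.mpr hx1'
    have hvn0 : 0 < ‖ev x v‖ := norm_pos_iff.mpr hx5'
    have hYn0 : 0 < ‖ev x Y‖ := norm_pos_iff.mpr hx6'
    obtain ⟨m, hm⟩ : ∃ m, m = max ‖ev x u‖ ‖ev x v‖ := ⟨_, rfl⟩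
    rw [← hm] at hpt
    have hm0 : 0 < m := by rw [hm]; exact lt_max_of_lt_right hvn0
    obtain ⟨lm, hlmdef⟩ : ∃ lm, lm = log ‖u₁.eval x‖ ⊔ log ‖v₁.eval x‖ := ⟨_, rfl⟩
    have hlm : log m = lm := by
      rw [hlmdef, hm, ← ev_eq, ← ev_eq]
      rcases le_total ‖ev x u‖ ‖ev x v‖ with h1 | h1
      · rw [max_eq_right h1, sup_eq_right.mpr (log_le_log hun0 h1)]
      · rw [max_eq_left h1, sup_eq_left.mpr (log_le_log hvn0 h1)]
    have hfx : 0 < ‖ev x f‖ := norm_pos_iff.mpr hx2'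
    have hlog := log_le_log (norm_pos_iff.mpr hx3') hpt
    have hc0 : 0 < c := by linarith
    have hk1 : (0:ℝ) < k + 1 := by linarith
    rw [log_mul (by positivity) (by positivity), log_pow, log_pow, log_mul hκ0.ne' (by positivity),
      log_mul (by positivity) (by positivity), log_mul (by positivity) (by positivity), log_exp,
      log_mul hκ0.ne' (by positivity), log_div hfx.ne' (by positivity), log_pow,
      log_div (by positivity) hYn0.ne', log_mul hvn0.ne' hm0.ne'] at hlog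
    have hc21 : ((2 * k - 1 : ℕ) : ℝ) = 2 * k - 1 := by
      rw [Nat.cast_sub (by omega)]
      push_cast
      ring
    rw [hc21] at hlog
    simp only [Pi.add_apply, Pi.smul_apply, Pi.sub_apply, Pi.sup_apply, smul_eq_mul]
    rw [hlm] at hlog
    have hNe : N'.eval x = ev x NP := (ev_eq x NP).symm
    have hfe : f'.eval x = ev x f := (ev_eq x f).symm
    have hve : v₁.eval x = ev x v := (ev_eq x v).symm
    have hYe : Y₁.eval x = ev x Y := (ev_eq x Y).symm
    rw [← hw, ← hlmdef, hNe, hfe, hve, hYe]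
    push_cast at hlog
    have hsk : s * log κ ≤ s * (B₁ + B₂ * w) := mul_le_mul_of_nonneg_left hκ3 hs0
    have hexp : (k:ℝ) ^ 2 * (log κ + (log ‖ev x v‖ + lm - log ‖ev x Y‖ + (log ((k + 1) * c) +
        (FW u₁ c x + FW v₁ c x + FW f' c x)))) +
        (2 * (k:ℝ) - 1) * (log κ + (log ‖ev x f‖ - k * lm)) =
        s * log κ + (k:ℝ) ^ 2 * log ((k + 1) * c) + (-((k:ℝ) * (k - 1))) * lm +
        (k:ℝ) ^ 2 * (log ‖ev x v‖ - log ‖ev x Y‖) +
        (k:ℝ) ^ 2 * (FW u₁ c x + FW v₁ c x + FW f' c x) + (2 * (k:ℝ) - 1) * log ‖ev x f‖ := by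
      rw [hs]
      ring
    rw [hexp] at hlog
    linarith
  rw [circleAverage_add (circleIntegrable_const _ _ _) (((posLog_ratio_int _ _).const_smul).add
        (((TH_int u v).const_smul).add ((((log_int _).sub (log_int _)).const_smul).add
          (((((FW_int _ _).add (FW_int _ _)).add (FW_int _ _)).const_smul).add
          ((log_int _).const_smul))))),
    circleAverage_add ((posLog_ratio_int _ _).const_smul)
        (((TH_int u v).const_smul).add ((((log_int _).sub (log_int _)).const_smul).add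
          (((((FW_int _ _).add (FW_int _ _)).add (FW_int _ _)).const_smul).add
          ((log_int _).const_smul)))),
    circleAverage_add ((TH_int u v).const_smul) ((((log_int _).sub (log_int _)).const_smul).add
          (((((FW_int _ _).add (FW_int _ _)).add (FW_int _ _)).const_smul).add
          ((log_int _).const_smul))),
    circleAverage_add (((log_int _).sub (log_int _)).const_smul)
      (((((FW_int _ _).add (FW_int _ _)).add (FW_int _ _)).const_smul).add ((log_int _).const_smul)),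
    circleAverage_add ((((FW_int _ _).add (FW_int _ _)).add (FW_int _ _)).const_smul)
      ((log_int _).const_smul),
    circleAverage_const, circleAverage_smul, circleAverage_smul, circleAverage_smul, circleAverage_smul,
    circleAverage_smul, circleAverage_sub (log_int _) (log_int _),
    circleAverage_add ((FW_int _ _).add (FW_int _ _)) (FW_int _ _),
    circleAverage_add (FW_int _ _) (FW_int _ _), Un.log_mahler, Un.log_mahler, Un.log_mahler,
    Un.log_mahler, ← hcr] at hpt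
  simp only [smul_eq_mul] at hpt
  have hlM1 : lM NP = log N'.mahlerMeasure := rfl
  have hlM2 : lM f = log f'.mahlerMeasure := rfl
  have hlM3 : lM v = log v₁.mahlerMeasure := rfl
  have hlM4 : lM Y = log Y₁.mahlerMeasure := rfl
  have hTT : circleAverage ((fun x => log ‖u₁.eval x‖) ⊔ (fun x => log ‖v₁.eval x‖)) 0 1 = TH u v := rfl
  rw [← hlM1, ← hlM2, ← hlM3, ← hlM4, hTT] at hpt
  have h2c : log ((k + 1) * c) ≤ log (4 * (k + 1) * (k + D)) + log n := by
    rw [← log_mul (by positivity) (by positivity)]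
    apply log_le_log (by positivity)
    rw [hc]
    have h1 : (D:ℝ) ≤ D * n := le_mul_of_one_le_right hDR hnR
    have h2 : (k:ℝ) * n + D ≤ (k + D) * n := by linarith
    calc ((k:ℝ) + 1) * (4 * (k * n + D)) = 4 * (k + 1) * (k * n + D) := by ring
      _ ≤ 4 * (k + 1) * ((k + D) * n) := mul_le_mul_of_nonneg_left h2 (by positivity)
      _ = _ := by ring
  have hk2 : ((k * k : ℕ) : ℝ) = (k:ℝ) ^ 2 := by push_cast; ring
  rw [hk2] at hNNl
  exact arith' hB₃ hNNl h2c ha1 ha2 ha3 hpt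

end Pool.Agent.Zk21.Mw
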