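import Mathlib
import Pool.Agent.Zk21.CaD
import Pool.Agent.Zk21.MvL
import Pool.Agent.Zk21.MwC

/-!
# Moving targets for rational functions: the gap, separable case
-/

set_option autoImplicit false

open Polynomial Metric Set Filter Topology Real

namespace Pool.Agent.Zk21.Mw

open Pool.Agent.R328 Pool.Agent.Zk21.Smt Pool.Agent.Zk21.Un Pool.Agent.Zk21.Pt Pool.Agent.Zk21.Ca
open Pool.Agent.Zk21.Mv

/-- the passage to a monic polynomial -/
lemma fv_norm {F : ℤ[X][X]} (hk : 1 ≤ F.natDegree) (u v : ℤ[X]) :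
    fv (integralNormalization F) (F.leadingCoeff * u) v =
      F.leadingCoeff ^ (F.natDegree - 1) * fv F u v := by
  unfold fv
  rw [natDegree_integralNormalization, Finset.mul_sum]
  apply Finset.sum_congr rfl
  intro i _
  have h := integralNormalization_coeff_mul_leadingCoeff_pow (p := F) i hk
  calc (integralNormalization F).coeff i * (F.leadingCoeff * u) ^ i * v ^ (F.natDegree - i) =
      ((integralNormalization F).coeff i * F.leadingCoeff ^ i) * u ^ i * v ^ (F.natDegree - i) := by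
        rw [mul_pow]; ring
    _ = _ := by rw [h]; ring

/-- the values on the circle -/
lemma fv_le {F : ℤ[X][X]} : ∃ L : ℝ, 1 ≤ L ∧ ∀ (u v : ℤ[X]) (x : ℂ), ‖x‖ = 1 →
    ‖ev x (fv F u v)‖ ≤ L * max ‖ev x u‖ ‖ev x v‖ ^ F.natDegree := by
  obtain ⟨L, hL, D, h⟩ := coeff_growth F
  refine ⟨((F.natDegree : ℝ) + 1) * L, ?_, ?_⟩
  · have : (0:ℝ) ≤ F.natDegree := Nat.cast_nonneg _
    nlinarith
  intro u v x hx
  obtain ⟨H, hH⟩ : ∃ H, H = max ‖ev x u‖ ‖ev x v‖ := ⟨_, rfl⟩
  have hu : ‖ev x u‖ ≤ H := by rw [hH]; exact le_max_left _ _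
  have hv : ‖ev x v‖ ≤ H := by rw [hH]; exact le_max_right _ _
  have hH0 : 0 ≤ H := (norm_nonneg _).trans hu
  rw [← hH]
  unfold fv
  rw [map_sum]
  refine (norm_sum_le _ _).trans ?_
  have h1 : ∀ i ∈ Finset.range (F.natDegree + 1),
      ‖ev x (F.coeff i * u ^ i * v ^ (F.natDegree - i))‖ ≤ L * H ^ F.natDegree := by
    intro i hi
    rw [Finset.mem_range] at hi
    have h2 : ‖ev x (F.coeff i)‖ ≤ L := by
      have := h x 1 le_rfl hx.le i
      rwa [one_pow, mul_one, coeff_map] at this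
    rw [map_mul, map_mul, map_pow, map_pow, norm_mul, norm_mul, norm_pow, norm_pow]
    have h3 : H ^ F.natDegree = H ^ i * H ^ (F.natDegree - i) := by
      rw [← pow_add]
      congr 1
      omega
    rw [h3, ← mul_assoc]
    gcongr
  refine (Finset.sum_le_card_nsmul _ _ _ h1).trans ?_
  rw [Finset.card_range, nsmul_eq_mul]
  push_cast
  rw [mul_assoc]

/-- the proximity to the companions, in terms of the height -/
lemma prox_bound {G : ℤ[X][X]} (hk : 1 ≤ G.natDegree) : ∃ K₀ : ℝ, 0 ≤ K₀ ∧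
    ∀ (a f u v q : ℤ[X]), a ≠ 0 → f ≠ 0 → u ≠ 0 → v ≠ 0 → fv G (a * u) v ≠ 0 →
    (∀ x : ℂ, ‖x‖ = 1 → ‖ev x a‖ ^ (G.natDegree - 1) * ‖ev x f‖ = ‖ev x (fv G (a * u) v)‖) →
    (q = u ^ G.natDegree ∨ q = v ^ G.natDegree) →
    prox f q ≤ G.natDegree * mp (a.map (Int.castRingHom ℂ)) + K₀ +
      G.natDegree * TH (a * u) v := by
  obtain ⟨L, hL, h⟩ := fv_le (F := G)
  refine ⟨log L, log_nonneg hL, ?_⟩
  intro a f u v q ha hf hu hv hg hx hq
  obtain ⟨k, hkdef⟩ : ∃ k, k = G.natDegree := ⟨_, rfl⟩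
  rw [← hkdef] at hk hx hq ⊢
  set a' := a.map (Int.castRingHom ℂ) with ha'
  set f' := f.map (Int.castRingHom ℂ) with hf'
  set u' := (a * u).map (Int.castRingHom ℂ) with hu'
  set v' := v.map (Int.castRingHom ℂ) with hv'
  set q' := q.map (Int.castRingHom ℂ) with hq'
  set g' := (fv G (a * u) v).map (Int.castRingHom ℂ) with hg'
  have key : prox f q ≤ circleAverage (((k:ℝ) • (fun x => log⁺ ‖a'.eval x‖) -
      (fun x => log ‖a'.eval x‖)) + ((fun _ => log L) +
      (((k : ℝ) • ((fun x => log ‖u'.eval x‖) ⊔ (fun x => log ‖v'.eval x‖))) -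
        fun x => log ‖g'.eval x‖))) 0 1 := by
    unfold prox
    apply circleAverage_mono_off (posLog_ratio_int _ _)
      ((((posLog_int _).const_smul).sub (log_int _)).add ((circleIntegrable_const _ _ _).add
        (((TH_int (a * u) v).const_smul).sub (log_int _))))
      (((((roots_countable (map_ne ha)).union (roots_countable (map_ne hf))).union
        (roots_countable (map_ne hg))).union (roots_countable (map_ne hu))).union
        (roots_countable (map_ne hv)))
    intro x hxs hxZ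
    rw [mem_sphere_zero_iff_norm] at hxs
    simp only [Set.mem_union, not_or] at hxZ
    obtain ⟨⟨⟨⟨hx1, hx2⟩, hx3⟩, hx4⟩, hx5⟩ := hxZ
    have hx1' : ev x a ≠ 0 := by rw [ev_eq]; exact hx1
    have hx2' : ev x f ≠ 0 := by rw [ev_eq]; exact hx2
    have hx3' : ev x (fv G (a * u) v) ≠ 0 := by rw [ev_eq]; exact hx3
    have hx4' : ev x u ≠ 0 := by rw [ev_eq]; exact hx4
    have hx5' : ev x v ≠ 0 := by rw [ev_eq]; exact hx5
    have ea : a'.eval x = ev x a := (ev_eq x a).symm
    have ef : f'.eval x = ev x f := (ev_eq x f).symm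
    have eu : u'.eval x = ev x (a * u) := (ev_eq x _).symm
    have ew : v'.eval x = ev x v := (ev_eq x v).symm
    have eg : g'.eval x = ev x (fv G (a * u) v) := (ev_eq x _).symm
    have eq' : q'.eval x = ev x q := (ev_eq x _).symm
    simp only [Pi.add_apply, Pi.smul_apply, Pi.sub_apply, Pi.sup_apply, smul_eq_mul]
    rw [← hf', ← hq', ea, eu, ew, eg, ef, eq', norm_div]
    have h1 := hx x hxs
    have h2 := h (a * u) v x hxs
    rw [← hkdef] at h2
    have hfp : 0 < ‖ev x f‖ := norm_pos_iff.mpr hx2'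
    have hgp : 0 < ‖ev x (fv G (a * u) v)‖ := norm_pos_iff.mpr hx3'
    have hap : 0 < ‖ev x a‖ := norm_pos_iff.mpr hx1'
    have hup : 0 < ‖ev x u‖ := norm_pos_iff.mpr hx4'
    have hvp : 0 < ‖ev x v‖ := norm_pos_iff.mpr hx5'
    have hauv : ‖ev x (a * u)‖ = ‖ev x a‖ * ‖ev x u‖ := by rw [map_mul, norm_mul]
    have haup : 0 < ‖ev x (a * u)‖ := by rw [hauv]; positivity
    obtain ⟨H, hH⟩ : ∃ H, H = max ‖ev x (a * u)‖ ‖ev x v‖ := ⟨_, rfl⟩
    rw [← hH] at h2
    have hH0 : 0 < H := by rw [hH]; exact lt_max_of_lt_right hvp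
    obtain ⟨lm, hlmdef⟩ : ∃ lm, lm = log ‖ev x (a * u)‖ ⊔ log ‖ev x v‖ := ⟨_, rfl⟩
    have hlm : log H = lm := by
      rw [hlmdef, hH]
      rcases le_total ‖ev x (a * u)‖ ‖ev x v‖ with h3 | h3
      · rw [max_eq_right h3, sup_eq_right.mpr (log_le_log haup h3)]
      · rw [max_eq_left h3, sup_eq_left.mpr (log_le_log hvp h3)]
    rw [← hlmdef, ← hlm]
    -- the quotient
    obtain ⟨S, hSdef, hS1, hS2⟩ : ∃ S : ℝ, 0 < S ∧ ‖ev x q‖ / ‖ev x f‖ ≤
        S * (L * H ^ k / ‖ev x (fv G (a * u) v)‖) ∧ log⁺ S ≤ k * log⁺ ‖ev x a‖ - log ‖ev x a‖ := by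
      have hf1 : ‖ev x f‖ = ‖ev x (fv G (a * u) v)‖ / ‖ev x a‖ ^ (k - 1) := by
        rw [← h1, mul_div_cancel_left₀]
        positivity
      have hkR : (1:ℝ) ≤ k := by exact_mod_cast hk
      have hlp : 0 ≤ log⁺ ‖ev x a‖ := posLog_nonneg
      have hpi := posLog_sub_posLog_inv (x := ‖ev x a‖)
      have hpi0 : 0 ≤ log⁺ ‖ev x a‖⁻¹ := posLog_nonneg
      rcases hq with hq | hq
      · refine ⟨‖ev x a‖⁻¹, by positivity, ?_, ?_⟩
        · rw [hq, map_pow, norm_pow, hf1]
          have e1 : ‖ev x u‖ ^ k / (‖ev x (fv G (a * u) v)‖ / ‖ev x a‖ ^ (k - 1)) =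
              ‖ev x a‖⁻¹ * (‖ev x (a * u)‖ ^ k / ‖ev x (fv G (a * u) v)‖) := by
            have e2 : ‖ev x (a * u)‖ ^ k = ‖ev x a‖ ^ (k - 1) * ‖ev x a‖ * ‖ev x u‖ ^ k := by
              rw [hauv, mul_pow, ← pow_succ]
              congr 2
              omega
            rw [e2]
            field_simp
          rw [e1]
          apply mul_le_mul_of_nonneg_left _ (by positivity)
          apply div_le_div_of_nonneg_right _ hgp.le
          have e3 : ‖ev x (a * u)‖ ^ k ≤ H ^ k :=
            pow_le_pow_left₀ haup.le (by rw [hH]; exact le_max_left _ _) k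
          have e4 : H ^ k ≤ L * H ^ k := le_mul_of_one_le_left (by positivity) hL
          linarith
        · nlinarith
      · refine ⟨‖ev x a‖ ^ (k - 1), by positivity, ?_, ?_⟩
        · rw [hq, map_pow, norm_pow, hf1]
          have e1 : ‖ev x v‖ ^ k / (‖ev x (fv G (a * u) v)‖ / ‖ev x a‖ ^ (k - 1)) =
              ‖ev x a‖ ^ (k - 1) * (‖ev x v‖ ^ k / ‖ev x (fv G (a * u) v)‖) := by
            field_simp
          rw [e1]
          apply mul_le_mul_of_nonneg_left _ (by positivity)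
          apply div_le_div_of_nonneg_right _ hgp.le
          have e3 : ‖ev x v‖ ^ k ≤ H ^ k :=
            pow_le_pow_left₀ hvp.le (by rw [hH]; exact le_max_right _ _) k
          have e4 : H ^ k ≤ L * H ^ k := le_mul_of_one_le_left (by positivity) hL
          linarith
        · rw [posLog_pow]
          have : ((k - 1 : ℕ) : ℝ) = k - 1 := by
            rw [Nat.cast_sub hk]
            simp
          rw [this]
          nlinarith
    have hB1 : 1 ≤ L * H ^ k / ‖ev x (fv G (a * u) v)‖ := by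
      rw [le_div_iff₀ hgp, one_mul]
      exact h2
    have h5 : log⁺ (‖ev x q‖ / ‖ev x f‖) ≤ log⁺ S +
        log⁺ (L * H ^ k / ‖ev x (fv G (a * u) v)‖) :=
      (posLog_le_posLog (by positivity) hS1).trans posLog_mul
    have h6 : log⁺ (L * H ^ k / ‖ev x (fv G (a * u) v)‖) = log L + (k * log H -
        log ‖ev x (fv G (a * u) v)‖) := by
      rw [posLog_eq_log (by rw [abs_of_pos (by positivity)]; exact hB1), log_div (by positivity) hgp.ne',
        log_mul (by positivity) (by positivity), log_pow]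
      ring
    rw [h6] at h5
    linarith
  rw [circleAverage_add (((posLog_int _).const_smul).sub (log_int _)) ((circleIntegrable_const _ _ _).add
        (((TH_int (a * u) v).const_smul).sub (log_int _))),
    circleAverage_sub ((posLog_int _).const_smul) (log_int _),
    circleAverage_add (circleIntegrable_const _ _ _) (((TH_int (a * u) v).const_smul).sub (log_int _)),
    circleAverage_sub ((TH_int (a * u) v).const_smul) (log_int _), circleAverage_smul, circleAverage_smul,
    circleAverage_const, Un.log_mahler, Un.log_mahler, smul_eq_mul, smul_eq_mul] at key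
  have h7 : 0 ≤ log g'.mahlerMeasure := lM_nonneg hg
  have h7' : 0 ≤ log a'.mahlerMeasure := lM_nonneg ha
  have h8 : circleAverage (fun x => log⁺ ‖a'.eval x‖) 0 1 = mp a' := rfl
  have h9 : circleAverage ((fun x => log ‖u'.eval x‖) ⊔ (fun x => log ‖v'.eval x‖)) 0 1 =
    TH (a * u) v := rfl
  rw [h8, h9] at key
  linarith

end Pool.Agent.Zk21.Mw
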