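import Mathlib
import Pool.Agent.Zk21.MwD

/-!
# Moving targets for rational functions: the gap, separable case
-/

set_option autoImplicit false

open Polynomial Metric Set Filter Topology Real

namespace Pool.Agent.Zk21.Mw

open Pool.Agent.R328 Pool.Agent.Zk21.Smt Pool.Agent.Zk21.Un Pool.Agent.Zk21.Pt Pool.Agent.Zk21.Ca
open Pool.Agent.Zk21.Mv

/-- the degrees, or the orders at `0`, of `u` and `v` are separated: `u / v` has a pole of large order
at infinity or at `0` -/
def Pole (δ : ℝ) (u v : ℤ[X]) : Prop :=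
  δ * (max u.natDegree v.natDegree : ℕ) ≤ (u.natDegree : ℝ) - v.natDegree ∨
    δ * (max u.natDegree v.natDegree : ℕ) ≤ (v.natTrailingDegree : ℝ) - u.natTrailingDegree

/-- the order of the pole -/
lemma pole_order {δ : ℝ} (hδ : 0 < δ) {a : ℤ[X]} (ha : a ≠ 0) (n₁ : ℕ) : ∃ n₂ : ℕ, 1 ≤ n₂ ∧
    ∀ u v : ℤ[X], u ≠ 0 → v ≠ 0 → Pole δ u v → n₂ ≤ max u.natDegree v.natDegree →
      ∃ N : ℕ, n₁ ≤ N ∧ ((a * u).natDegree = v.natDegree + N ∨
        v.natTrailingDegree = (a * u).natTrailingDegree + N) ∧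
        δ / 2 * (max u.natDegree v.natDegree : ℕ) ≤ N := by
  refine ⟨⌈2 * ((a.natDegree : ℝ) + n₁) / δ⌉₊ + 1, by omega, ?_⟩
  intro u v hu hv hp hn
  obtain ⟨n, hndef⟩ : ∃ n, n = max u.natDegree v.natDegree := ⟨_, rfl⟩
  rw [← hndef] at hn ⊢
  unfold Pole at hp
  rw [← hndef] at hp
  have h1 : 2 * ((a.natDegree : ℝ) + n₁) / δ ≤ n := by
    refine (Nat.le_ceil _).trans ?_
    exact_mod_cast (by omega : ⌈2 * ((a.natDegree : ℝ) + n₁) / δ⌉₊ ≤ n)
  have h2 : (a.natDegree : ℝ) + n₁ ≤ δ / 2 * n := by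
    rw [div_le_iff₀ hδ] at h1
    linarith
  have hta : (a.natTrailingDegree : ℝ) ≤ a.natDegree := by
    exact_mod_cast natTrailingDegree_le_natDegree a
  have hn1 : (0:ℝ) ≤ n₁ := Nat.cast_nonneg _
  have ha0 : (0:ℝ) ≤ a.natDegree := Nat.cast_nonneg _
  have hta0 : (0:ℝ) ≤ a.natTrailingDegree := Nat.cast_nonneg _
  rcases hp with hp | hp
  · refine ⟨a.natDegree + u.natDegree - v.natDegree, ?_, Or.inl ?_, ?_⟩
    · have h3 : (v.natDegree : ℝ) + n₁ ≤ a.natDegree + u.natDegree := by linarith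
      have h4 : v.natDegree + n₁ ≤ a.natDegree + u.natDegree := by exact_mod_cast h3
      omega
    · rw [natDegree_mul ha hu]
      have h3 : (v.natDegree : ℝ) ≤ a.natDegree + u.natDegree := by linarith
      have h4 : v.natDegree ≤ a.natDegree + u.natDegree := by exact_mod_cast h3
      omega
    · have h3 : (v.natDegree : ℝ) ≤ a.natDegree + u.natDegree := by linarith
      have h4 : v.natDegree ≤ a.natDegree + u.natDegree := by exact_mod_cast h3
      rw [Nat.cast_sub h4]
      push_cast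
      linarith
  · refine ⟨v.natTrailingDegree - (a.natTrailingDegree + u.natTrailingDegree), ?_, Or.inr ?_, ?_⟩
    · have h3 : (a.natTrailingDegree : ℝ) + u.natTrailingDegree + n₁ ≤ v.natTrailingDegree := by
        linarith
      have h4 : a.natTrailingDegree + u.natTrailingDegree + n₁ ≤ v.natTrailingDegree := by
        exact_mod_cast h3
      omega
    · rw [natTrailingDegree_mul ha hu]
      have h3 : (a.natTrailingDegree : ℝ) + u.natTrailingDegree ≤ v.natTrailingDegree := by linarith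
      have h4 : a.natTrailingDegree + u.natTrailingDegree ≤ v.natTrailingDegree := by
        exact_mod_cast h3
      omega
    · have h3 : (a.natTrailingDegree : ℝ) + u.natTrailingDegree ≤ v.natTrailingDegree := by linarith
      have h4 : a.natTrailingDegree + u.natTrailingDegree ≤ v.natTrailingDegree := by
        exact_mod_cast h3
      rw [Nat.cast_sub h4]
      push_cast
      linarith

/-- **the gap for moving targets and rational functions, separable case** -/
theorem gap_sep {F : ℤ[X][X]} (hk : 2 ≤ F.natDegree)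
    (hF : (F.map (algebraMap ℤ[X] (FractionRing ℤ[X]))).Separable) (K : ℝ) {δ w : ℝ} (hδ : 0 < δ)
    (hw0 : 0 ≤ w) (hw : w * F.natDegree < F.natDegree - 1) : ∃ μ : ℝ, 1 < μ ∧
      ∀ (u v P : ℤ[X]) (c : ℤ) (s : Finset ℕ) (t : ℕ → ℤ[X]) (e : ℕ → ℕ), u ≠ 0 → v ≠ 0 →
        v = C c * P * ∏ l ∈ s, t l ^ e l → lM P ≤ K → (∀ l ∈ s, 1 ≤ w * e l) →
        Pole δ u v → fv F u v ≠ 0 →
        (∀ z : ℂ, 1 < ‖z‖ → aeval z (fv F u v) = 0 → aeval z u ≠ 0 ∨ aeval z v ≠ 0) →
        ((fv F u v).map (Int.castRingHom ℂ)).mahlerMeasure = 1 ∨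
          μ ≤ ((fv F u v).map (Int.castRingHom ℂ)).mahlerMeasure := by
  obtain ⟨k, hkdef⟩ : ∃ k, k = F.natDegree := ⟨_, rfl⟩
  obtain ⟨a, hadef⟩ : ∃ a, a = F.leadingCoeff := ⟨_, rfl⟩
  have hF0 : F ≠ 0 := by
    rintro rfl
    rw [natDegree_zero] at hk
    omega
  have ha : a ≠ 0 := by rw [hadef]; exact leadingCoeff_ne_zero.mpr hF0
  obtain ⟨G, hG⟩ : ∃ G, G = integralNormalization F := ⟨_, rfl⟩
  have hGm : G.Monic := by rw [hG]; exact monic_integralNormalization hF0
  have hGd : G.natDegree = k := by rw [hG, natDegree_integralNormalization, hkdef]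
  have hGs := sep_norm (by omega) hF
  rw [← hG] at hGs
  obtain ⟨P', Q, r, hr, hB⟩ := clear hGs
  obtain ⟨B, hB0, n₁, hn₁, hT⟩ := T_bound hGm (by rw [hGd, hkdef]; exact hk) hB hr
  obtain ⟨K₀, hK₀, hprox⟩ := prox_bound (G := G) (by rw [hGd, hkdef]; omega)
  rw [hGd] at hT hprox
  obtain ⟨n₂, hn₂, hpole⟩ := pole_order hδ ha n₁
  obtain ⟨D, hD⟩ : ∃ D, D = ∑ i ∈ Finset.range (F.natDegree + 1), (F.coeff i).natDegree := ⟨_, rfl⟩
  rw [← hkdef] at hk hw
  have hkR : (2:ℝ) ≤ k := by exact_mod_cast hk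
  obtain ⟨E, hE⟩ : ∃ E : ℝ, E = k * (k - 1) - k ^ 2 * w := ⟨_, rfl⟩
  have hE0 : 0 < E := by
    rw [hE]
    nlinarith
  obtain ⟨C', hC'⟩ : ∃ C' : ℝ, C' = log (1 + a.natDegree) - log (δ / 2) := ⟨_, rfl⟩
  obtain ⟨B', hB'⟩ : ∃ B' : ℝ, B' = B + (k:ℝ) ^ 2 * K + (2 * k - 1) * ((k - 1 : ℕ) * lM a + 1) +
    (k:ℝ) ^ 2 * C' := ⟨_, rfl⟩
  obtain ⟨μ₁, hμ₁, hgap1⟩ := gap_deg (D + k * n₂)
  obtain ⟨μ₂, hμ₂, hgap2⟩ := gap_multi (k * mp (a.map (Int.castRingHom ℂ)) + K₀ + k * (B' / E))
  have he1 : (1:ℝ) < exp 1 := by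
    have := add_one_lt_exp (one_ne_zero (α := ℝ))
    linarith
  refine ⟨min (min μ₁ μ₂) (exp 1), lt_min (lt_min hμ₁ hμ₂) he1, ?_⟩
  intro u v P c s t e hu hv hvP hPK hwe hp hf hz
  obtain ⟨f, hfdef⟩ : ∃ f, f = fv F u v := ⟨_, rfl⟩
  rw [← hfdef] at hf hz ⊢
  have hM : (f.map (Int.castRingHom ℂ)).mahlerMeasure = exp (lM f) := (exp_log (mahler_pos hf)).symm
  by_cases hm : 1 < lM f
  · right
    rw [hM]
    exact (min_le_right _ _).trans (exp_le_exp.mpr hm.le)
  rw [not_lt] at hm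
  by_cases hcase : n₂ ≤ max u.natDegree v.natDegree
  · obtain ⟨N, hN, hNc, hNn⟩ := hpole u v hu hv hp hcase
    obtain ⟨n0, hn0⟩ : ∃ n0, n0 = max u.natDegree v.natDegree := ⟨_, rfl⟩
    rw [← hn0] at hcase hNn
    obtain ⟨g, hgdef⟩ : ∃ g, g = fv G (a * u) v := ⟨_, rfl⟩
    have hrel : a ^ (k - 1) * f = g := by
      rw [hfdef, hgdef, hadef, hkdef, ← fv_norm (by omega), ← hadef, ← hG]
    have hak : a ^ (k - 1) ≠ 0 := pow_ne_zero _ ha
    have hg0 : g ≠ 0 := by
      rw [← hrel]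
      exact mul_ne_zero hak hf
    have hau : a * u ≠ 0 := mul_ne_zero ha hu
    -- the factor of v
    have hc0 : c ≠ 0 := by
      rintro rfl
      rw [C_0, zero_mul, zero_mul] at hvP
      exact hv hvP
    have hP0 : P ≠ 0 := by
      rintro rfl
      rw [mul_zero, zero_mul] at hvP
      exact hv hvP
    have ht0 : ∀ l ∈ s, t l ≠ 0 := by
      intro l hl h0
      apply hv
      have he0 : e l ≠ 0 := by
        intro h1
        have := hwe l hl
        rw [h1] at this
        norm_num at this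
      rw [hvP, Finset.prod_eq_zero hl (by rw [h0, zero_pow he0]), mul_zero]
    obtain ⟨Y, hYdef⟩ : ∃ Y, Y = C c * ∏ l ∈ s, t l ^ (e l - 1) := ⟨_, rfl⟩
    have hYv : Y ∣ v := by
      rw [hYdef, hvP, mul_assoc]
      apply mul_dvd_mul (dvd_refl _)
      apply Dvd.dvd.mul_left
      exact Finset.prod_dvd_prod_of_dvd _ _ fun l _ => pow_pred_dvd _ _
    have hYth : Y ∣ th v := by
      have h1 := thi_dvd s c P t e 1
      rw [hYdef, hvP]
      exact h1
    obtain ⟨v', hv'⟩ := hYv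
    obtain ⟨v'', hv''⟩ := hYth
    have htr := trunc hc0 hP0 s t ht0 e 1 hw0 (by
      intro l hl
      have := hwe l hl
      exact_mod_cast this)
    rw [← hvP, ← hYdef] at htr
    have hfd := hT (a * u) v Y v' v'' N (n0 + a.natDegree) hau hv hv' hv'' hN hNc
      (by rw [natDegree_mul ha hu]; omega) (by omega) (by rw [← hgdef]; exact hg0)
    rw [← hgdef] at hfd
    have hlM : lM g = (k - 1 : ℕ) * lM a + lM f := by
      rw [← hrel, lM_mul hak hf, lM_pow ha]
    obtain ⟨T, hTdef⟩ : ∃ T, T = TH (a * u) v := ⟨_, rfl⟩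
    have hvT : lM v ≤ T := by rw [hTdef]; exact lM_le_TH _ _
    rw [← hTdef] at hfd
    -- the quotient of the degrees
    have hn0R : (1:ℝ) ≤ n0 := by exact_mod_cast hn₂.trans hcase
    have hln : log ((n0 + a.natDegree : ℕ) : ℝ) - log N ≤ C' := by
      rw [hC']
      have ha0 : (0:ℝ) ≤ a.natDegree := Nat.cast_nonneg _
      have h1 : log ((n0 + a.natDegree : ℕ) : ℝ) ≤ log (1 + a.natDegree) + log n0 := by
        rw [← log_mul (by positivity) (by positivity)]
        apply log_le_log (by push_cast; positivity)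
        push_cast
        nlinarith
      have h2 : log (δ / 2) + log n0 ≤ log N := by
        rw [← log_mul (by positivity) (by positivity)]
        exact log_le_log (by positivity) hNn
      linarith
    have hTb : T ≤ B' / E := by
      rw [le_div_iff₀ hE0, hB', hE]
      have hk20 : (0:ℝ) ≤ (k:ℝ) ^ 2 := by positivity
      have g1 : (k:ℝ) ^ 2 * (lM v - lM Y) ≤ (k:ℝ) ^ 2 * (K + w * T) := by
        apply mul_le_mul_of_nonneg_left _ hk20
        have : w * lM v ≤ w * T := mul_le_mul_of_nonneg_left hvT hw0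
        linarith
      have g2 : (k:ℝ) ^ 2 * (log ((n0 + a.natDegree : ℕ) : ℝ) - log N) ≤ (k:ℝ) ^ 2 * C' :=
        mul_le_mul_of_nonneg_left hln hk20
      have g3 : (2 * (k:ℝ) - 1) * lM g ≤ (2 * k - 1) * ((k - 1 : ℕ) * lM a + 1) := by
        apply mul_le_mul_of_nonneg_left _ (by linarith)
        rw [hlM]
        linarith
      linarith
    have hprox' : ∀ q : ℤ[X], (q = u ^ k ∨ q = v ^ k) → prox f q ≤
        k * mp (a.map (Int.castRingHom ℂ)) + K₀ + k * (B' / E) := by
      intro q hq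
      have h1 := hprox a f u v q ha hf hu hv (by rw [← hgdef]; exact hg0) (by
        intro x hx
        have h1 := congrArg (fun R => ‖ev x R‖) hrel
        simp only [map_mul, map_pow, norm_mul, norm_pow] at h1
        rw [h1, hgdef]) hq
      rw [← hTdef] at h1
      have h2 : (k:ℝ) * T ≤ k * (B' / E) := mul_le_mul_of_nonneg_left hTb (Nat.cast_nonneg _)
      linarith
    rcases hgap2 f 2 ![u ^ k, v ^ k] hf (by
        intro i
        fin_cases i
        · exact hprox' _ (Or.inl rfl)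
        · exact hprox' _ (Or.inr rfl)) (by
        intro z hz1 hz2
        rcases hz z hz1 hz2 with h | h
        · refine ⟨0, ?_⟩
          show aeval z (u ^ k) ≠ 0
          rw [map_pow]
          exact pow_ne_zero _ h
        · refine ⟨1, ?_⟩
          show aeval z (v ^ k) ≠ 0
          rw [map_pow]
          exact pow_ne_zero _ h) with h | h
    · exact Or.inl h
    · right
      exact ((min_le_left _ _).trans (min_le_right _ _)).trans h
  · rw [not_le] at hcase
    have hfd : f.natDegree ≤ D + k * n₂ := by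
      rw [hfdef, hD, hkdef]
      exact fv_deg F (by omega) (by omega)
    rcases hgap1 f hf hfd with h | h
    · exact Or.inl h
    · right
      exact ((min_le_left _ _).trans (min_le_left _ _)).trans h

end Pool.Agent.Zk21.Mw
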