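import Mathlib
import Pool.Agent.Zk21.MvM
import Pool.Agent.Zk21.MwE

/-!
# Moving targets for rational functions: the general case
-/

set_option autoImplicit false

open Polynomial Metric Set Filter Topology Real

namespace Pool.Agent.Zk21.Mw

open Pool.Agent.R328 Pool.Agent.Zk21.Smt Pool.Agent.Zk21.Un Pool.Agent.Zk21.Pt Pool.Agent.Zk21.Ca
open Pool.Agent.Zk21.Mv

lemma fv_mul {G H : ℤ[X][X]} (hG : G ≠ 0) (hH : H ≠ 0) (u : ℤ[X]) {v : ℤ[X]} (hv : v ≠ 0) :
    fv (G * H) u v = fv G u v * fv H u v := by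
  apply mul_left_cancel₀ hv
  apply eq_of_ev
  intro x _
  by_cases hx : ev x v = 0
  · rw [map_mul, map_mul, hx, zero_mul, zero_mul]
  · rw [map_mul, map_mul, map_mul, fv_eval _ _ _ hx, fv_eval _ _ _ hx, fv_eval _ _ _ hx,
      natDegree_mul hG hH, map_mul, pow_add]
    ring

lemma fv_C (c : ℤ[X]) (u v : ℤ[X]) : fv (C c) u v = c := by
  unfold fv
  rw [natDegree_C, zero_add, Finset.sum_range_one, coeff_C_zero]
  simp

lemma fv_prod (u : ℤ[X]) {v : ℤ[X]} (hv : v ≠ 0) (s : Multiset ℤ[X][X]) (hs : ∀ p ∈ s, p ≠ 0) :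
    fv s.prod u v = (s.map fun p => fv p u v).prod := by
  induction s using Multiset.induction_on with
  | empty =>
    rw [Multiset.prod_zero, Multiset.map_zero, Multiset.prod_zero, ← C_1, fv_C]
  | cons p s ih =>
    have hp := hs p (Multiset.mem_cons_self p s)
    have hs' : ∀ q ∈ s, q ≠ 0 := fun q hq => hs q (Multiset.mem_cons_of_mem hq)
    have hs0 : s.prod ≠ 0 := Multiset.prod_ne_zero fun h => hs' 0 h rfl
    rw [Multiset.prod_cons, fv_mul hp hs0 u hv, ih hs', Multiset.map_cons, Multiset.prod_cons]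

lemma alg_inj : Function.Injective (algebraMap ℤ[X] (AlgebraicClosure (FractionRing ℤ[X]))) := by
  rw [IsScalarTower.algebraMap_eq ℤ[X] (FractionRing ℤ[X]) (AlgebraicClosure (FractionRing ℤ[X]))]
  exact (algebraMap (FractionRing ℤ[X]) (AlgebraicClosure (FractionRing ℤ[X]))).injective.comp
    (IsFractionRing.injective ℤ[X] (FractionRing ℤ[X]))

/-- distinct roots and the degree -/
lemma card_le {k : ℕ} (α : Fin k → AlgebraicClosure (FractionRing ℤ[X])) (hα : Function.Injective α)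
    {G : ℤ[X][X]} (hG : G ≠ 0) (hroot : ∀ i, aeval (α i) G = 0) : k ≤ G.natDegree := by
  classical
  obtain ⟨φ, hφ⟩ : ∃ φ, φ = algebraMap ℤ[X] (AlgebraicClosure (FractionRing ℤ[X])) := ⟨_, rfl⟩
  have hG' : G.map φ ≠ 0 := by
    rw [Ne, Polynomial.map_eq_zero_iff (by rw [hφ]; exact alg_inj)]
    exact hG
  have h1 : Finset.univ.image α ⊆ (G.map φ).roots.toFinset := by
    intro y hy
    obtain ⟨i, _, rfl⟩ := Finset.mem_image.mp hy
    rw [Multiset.mem_toFinset, mem_roots hG', IsRoot.def, eval_map, hφ, ← aeval_def]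
    exact hroot i
  have h2 := Finset.card_le_card h1
  rw [Finset.card_image_of_injective _ hα, Finset.card_univ, Fintype.card_fin] at h2
  exact h2.trans ((Multiset.toFinset_card_le _).trans ((card_roots' _).trans natDegree_map_le))

/-- **the gap for moving targets and rational functions** -/
theorem gap_all {F : ℤ[X][X]} {k : ℕ} (α : Fin k → AlgebraicClosure (FractionRing ℤ[X]))
    (hα : Function.Injective α) (hroot : ∀ i, aeval (α i) F = 0) (K : ℝ) {δ w : ℝ} (hδ : 0 < δ)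
    (hw0 : 0 ≤ w) (hw : w * k < k - 1) : ∃ μ : ℝ, 1 < μ ∧
      ∀ (u v P : ℤ[X]) (c : ℤ) (s : Finset ℕ) (t : ℕ → ℤ[X]) (e : ℕ → ℕ), u ≠ 0 → v ≠ 0 →
        v = C c * P * ∏ l ∈ s, t l ^ e l → lM P ≤ K → (∀ l ∈ s, 1 ≤ w * e l) →
        Pole δ u v → fv F u v ≠ 0 →
        (∀ z : ℂ, 1 < ‖z‖ → aeval z (fv F u v) = 0 → aeval z u ≠ 0 ∨ aeval z v ≠ 0) →
        ((fv F u v).map (Int.castRingHom ℂ)).mahlerMeasure = 1 ∨
          μ ≤ ((fv F u v).map (Int.castRingHom ℂ)).mahlerMeasure := by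
  classical
  by_cases hF0 : F = 0
  · refine ⟨2, by norm_num, ?_⟩
    intro u v P c s t e _ _ _ _ _ _ hf
    exfalso
    apply hf
    rw [hF0]
    unfold fv
    simp
  obtain ⟨c₀, S, hc₀, hFe, h1, h2⟩ := factor hF0
  have hs0 : ∀ p ∈ S, p ≠ 0 := fun p hp => (h1 p hp).1.ne_zero
  obtain ⟨G, hG⟩ : ∃ G : ℤ[X][X], G = ∏ p ∈ S.toFinset, p := ⟨_, rfl⟩
  have hGs := sep_T h1 h2
  rw [← hG] at hGs
  have hGm : G = S.toFinset.val.prod := by
    rw [hG, Finset.prod_eq_multiset_prod, Multiset.map_id']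
  have hTs : S.toFinset.val ≤ S := by
    rw [Multiset.toFinset_val]
    exact Multiset.dedup_le S
  have hG0 : G ≠ 0 := by
    rw [hG, Finset.prod_ne_zero_iff]
    exact fun p hp => hs0 p (Multiset.mem_toFinset.mp hp)
  have hrootG : ∀ i, aeval (α i) G = 0 := by
    intro i
    have h3 := hroot i
    rw [hFe, map_mul, aeval_C, mul_eq_zero, map_multiset_prod] at h3
    rcases h3 with h3 | h3
    · exact absurd ((map_eq_zero_iff _ alg_inj).mp h3) hc₀
    · rw [Multiset.prod_eq_zero_iff, Multiset.mem_map] at h3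
      obtain ⟨p, hp, h4⟩ := h3
      rw [hG, map_prod]
      exact Finset.prod_eq_zero (Multiset.mem_toFinset.mpr hp) h4
  have hkG := card_le α hα hG0 hrootG
  have hkGR : (k:ℝ) ≤ G.natDegree := by exact_mod_cast hkG
  have hk0 : (0:ℝ) ≤ k := Nat.cast_nonneg _
  have hw1 : w < 1 := by
    by_contra h
    rw [not_lt] at h
    have : (k:ℝ) ≤ w * k := le_mul_of_one_le_left hk0 h
    linarith
  have hwG : w * G.natDegree < G.natDegree - 1 := by nlinarith
  have hGd : 2 ≤ G.natDegree := by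
    have h3 : (1:ℝ) < G.natDegree := by
      have : 0 ≤ w * G.natDegree := by positivity
      linarith
    exact_mod_cast h3
  obtain ⟨μ₁, hμ₁, hgap⟩ := gap_sep hGd hGs K hδ hw0 hwG
  obtain ⟨μ₂, hμ₂, hc2⟩ : ∃ μ : ℝ, 1 < μ ∧ ((c₀.map (Int.castRingHom ℂ)).mahlerMeasure = 1 ∨
      μ ≤ (c₀.map (Int.castRingHom ℂ)).mahlerMeasure) := by
    obtain ⟨μ, h3, h4⟩ := gap_deg c₀.natDegree
    exact ⟨μ, h3, h4 c₀ hc₀ le_rfl⟩
  refine ⟨min μ₁ μ₂, lt_min hμ₁ hμ₂, ?_⟩
  intro u v P c s t e hu hv hvP hPK hwe hp hf hz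
  have hff : fv F u v = c₀ * (S.map fun p => fv p u v).prod := by
    rw [hFe, fv_mul (by rwa [Ne, C_eq_zero]) (Multiset.prod_ne_zero fun h => hs0 0 h rfl) u hv, fv_C,
      fv_prod u hv S hs0]
  have hgg : fv G u v = (S.toFinset.val.map fun p => fv p u v).prod := by
    rw [hGm, fv_prod u hv _ fun p hp => hs0 p (Multiset.mem_of_le hTs hp)]
  have hp0 : ∀ p ∈ S, fv p u v ≠ 0 := by
    intro p hp h0
    apply hf
    rw [hff, Multiset.prod_eq_zero (Multiset.mem_map.mpr ⟨p, hp, h0⟩), mul_zero]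
  have hg0 : fv G u v ≠ 0 := by
    rw [hgg]
    apply Multiset.prod_ne_zero
    intro h
    obtain ⟨p, hp, h0⟩ := Multiset.mem_map.mp h
    exact hp0 p (Multiset.mem_of_le hTs hp) h0
  have hmapne : ∀ q ∈ S.map fun p => fv p u v, q ≠ 0 := by
    intro q hq
    obtain ⟨p, hp, rfl⟩ := Multiset.mem_map.mp hq
    exact hp0 p hp
  have hmapne' : ∀ q ∈ S.toFinset.val.map fun p => fv p u v, q ≠ 0 := by
    intro q hq
    obtain ⟨p, hp, rfl⟩ := Multiset.mem_map.mp hq
    exact hp0 p (Multiset.mem_of_le hTs hp)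
  have hdvd : fv G u v ∣ fv F u v := by
    rw [hgg, hff]
    obtain ⟨t, ht⟩ := Multiset.le_iff_exists_add.mp hTs
    conv_rhs => rw [ht]
    rw [Multiset.map_add, Multiset.prod_add]
    exact Dvd.dvd.mul_left (Dvd.intro _ rfl) _
  have hlf : lM (fv F u v) = lM c₀ + (S.map fun p => lM (fv p u v)).sum := by
    rw [hff, lM_mul hc₀ (Multiset.prod_ne_zero fun h => hmapne 0 h rfl), lM_mprod _ hmapne,
      Multiset.map_map]
    rfl
  have hlg : lM (fv G u v) = (S.toFinset.val.map fun p => lM (fv p u v)).sum := by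
    rw [hgg, lM_mprod _ hmapne', Multiset.map_map]
    rfl
  have hnn : ∀ p ∈ S, 0 ≤ lM (fv p u v) := fun p hp => lM_nonneg (hp0 p hp)
  have hMf : ((fv F u v).map (Int.castRingHom ℂ)).mahlerMeasure = exp (lM (fv F u v)) :=
    (exp_log (mahler_pos hf)).symm
  have hMg : ((fv G u v).map (Int.castRingHom ℂ)).mahlerMeasure = exp (lM (fv G u v)) :=
    (exp_log (mahler_pos hg0)).symm
  have hMc : (c₀.map (Int.castRingHom ℂ)).mahlerMeasure = exp (lM c₀) :=
    (exp_log (mahler_pos hc₀)).symm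
  have hle : lM (fv G u v) ≤ (S.map fun p => lM (fv p u v)).sum := by
    rw [hlg]
    obtain ⟨t, ht⟩ := Multiset.le_iff_exists_add.mp hTs
    conv_rhs => rw [ht]
    rw [Multiset.map_add, Multiset.sum_add]
    have : 0 ≤ (t.map fun p => lM (fv p u v)).sum := by
      apply Multiset.sum_nonneg
      intro y hy
      obtain ⟨p, hp, rfl⟩ := Multiset.mem_map.mp hy
      apply hnn p
      rw [ht]
      exact Multiset.mem_add.mpr (Or.inr hp)
    linarith
  have hc0 : 0 ≤ lM c₀ := lM_nonneg hc₀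
  rcases hgap u v P c s t e hu hv hvP hPK hwe hp hg0 (by
    intro z hz1 hz2
    apply hz z hz1
    obtain ⟨R, hR⟩ := hdvd
    rw [hR, map_mul, hz2, zero_mul]) with h | h
  · -- all factors have measure one
    rw [hMg] at h
    have h3 : lM (fv G u v) = 0 := by
      have := congrArg log h
      rwa [log_exp, log_one] at this
    have h4 : ∀ p ∈ S, lM (fv p u v) = 0 := by
      intro p hp
      have h5 : lM (fv p u v) ≤ lM (fv G u v) := by
        rw [hlg]
        apply Multiset.single_le_sum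
        · intro y hy
          obtain ⟨q, hq, rfl⟩ := Multiset.mem_map.mp hy
          exact hnn q (Multiset.mem_of_le hTs hq)
        · exact Multiset.mem_map.mpr ⟨p, Multiset.mem_toFinset.mpr hp, rfl⟩
      exact le_antisymm (h5.trans h3.le) (hnn p hp)
    have h5 : (S.map fun p => lM (fv p u v)).sum = 0 := by
      apply Multiset.sum_eq_zero
      intro y hy
      obtain ⟨p, hp, rfl⟩ := Multiset.mem_map.mp hy
      exact h4 p hp
    have h6 : lM (fv F u v) = lM c₀ := by rw [hlf, h5, add_zero]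
    rw [hMf, h6, ← hMc]
    rcases hc2 with h7 | h7
    · exact Or.inl h7
    · exact Or.inr ((min_le_right _ _).trans h7)
  · right
    rw [hMf]
    refine (min_le_left _ _).trans (h.trans ?_)
    rw [hMg]
    apply exp_le_exp.mpr
    rw [hlf]
    linarith

end Pool.Agent.Zk21.Mw
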