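import Mathlib
import Pool.Agent.Zk21.MwF

/-!
# Moving targets for rational functions: the height is bounded by the measure
-/

set_option autoImplicit false

open Polynomial Metric Set Filter Topology Real

namespace Pool.Agent.Zk21.Mw

open Pool.Agent.R328 Pool.Agent.Zk21.Smt Pool.Agent.Zk21.Un Pool.Agent.Zk21.Pt Pool.Agent.Zk21.Ca
open Pool.Agent.Zk21.Mv

/-- multiplication of `u` by a fixed polynomial -/
lemma TH_mul {a u v : ℤ[X]} (ha : a ≠ 0) (hu : u ≠ 0) (hv : v ≠ 0) :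
    TH u v ≤ TH (a * u) v + mp (a.map (Int.castRingHom ℂ)) := by
  set a' := a.map (Int.castRingHom ℂ) with ha'
  have key : TH u v ≤ circleAverage (((fun x => log ‖((a * u).map (Int.castRingHom ℂ)).eval x‖) ⊔
      (fun x => log ‖(v.map (Int.castRingHom ℂ)).eval x‖)) + ((fun x => log⁺ ‖a'.eval x‖) -
      (fun x => log ‖a'.eval x‖))) 0 1 := by
    unfold TH
    apply circleAverage_mono_off (TH_int u v) ((TH_int (a * u) v).add ((posLog_int _).sub (log_int _)))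
      (((roots_countable (map_ne ha)).union (roots_countable (map_ne hu))).union
        (roots_countable (map_ne hv)))
    intro x _ hxZ
    simp only [Set.mem_union, not_or] at hxZ
    obtain ⟨⟨hx1, hx2⟩, hx3⟩ := hxZ
    have ha0 : 0 < ‖a'.eval x‖ := norm_pos_iff.mpr hx1
    have hu0 : 0 < ‖(u.map (Int.castRingHom ℂ)).eval x‖ := norm_pos_iff.mpr hx2
    simp only [Pi.add_apply, Pi.sub_apply, Pi.sup_apply]
    have e1 : log ‖((a * u).map (Int.castRingHom ℂ)).eval x‖ = log ‖a'.eval x‖ +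
        log ‖(u.map (Int.castRingHom ℂ)).eval x‖ := by
      rw [Polynomial.map_mul, eval_mul, norm_mul, log_mul ha0.ne' hu0.ne']
    have h1 : log ‖a'.eval x‖ ≤ log⁺ ‖a'.eval x‖ := le_max_right _ _
    have h2 : 0 ≤ log⁺ ‖a'.eval x‖ := posLog_nonneg
    apply sup_le
    · have h3 := le_sup_left (a := log ‖((a * u).map (Int.castRingHom ℂ)).eval x‖)
        (b := log ‖(v.map (Int.castRingHom ℂ)).eval x‖)
      rw [e1] at h3 ⊢
      linarith
    · have h3 := le_sup_right (a := log ‖((a * u).map (Int.castRingHom ℂ)).eval x‖)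
        (b := log ‖(v.map (Int.castRingHom ℂ)).eval x‖)
      linarith
  rw [circleAverage_add (TH_int (a * u) v) ((posLog_int _).sub (log_int _)),
    circleAverage_sub (posLog_int _) (log_int _), Un.log_mahler] at key
  have h1 : 0 ≤ log a'.mahlerMeasure := lM_nonneg ha
  have h2 : circleAverage (fun x => log⁺ ‖a'.eval x‖) 0 1 = mp a' := rfl
  have h3 : circleAverage ((fun x => log ‖((a * u).map (Int.castRingHom ℂ)).eval x‖) ⊔
      (fun x => log ‖(v.map (Int.castRingHom ℂ)).eval x‖)) 0 1 = TH (a * u) v := rfl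
  rw [h2, h3] at key
  linarith

/-- **the height is bounded by the measure, separable case** -/
theorem T_sep {F : ℤ[X][X]} (hk : 2 ≤ F.natDegree)
    (hF : (F.map (algebraMap ℤ[X] (FractionRing ℤ[X]))).Separable) (K : ℝ) {δ w : ℝ} (hδ : 0 < δ)
    (hw0 : 0 ≤ w) (hw : w * F.natDegree < F.natDegree - 1) : ∃ C₁ : ℝ, 0 ≤ C₁ ∧ ∃ n₂ : ℕ, 1 ≤ n₂ ∧
      ∀ (u v P : ℤ[X]) (c : ℤ) (s : Finset ℕ) (t : ℕ → ℤ[X]) (e : ℕ → ℕ), u ≠ 0 → v ≠ 0 →
        v = C c * P * ∏ l ∈ s, t l ^ e l → lM P ≤ K → (∀ l ∈ s, 1 ≤ w * e l) →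
        Pole δ u v → n₂ ≤ max u.natDegree v.natDegree → fv F u v ≠ 0 →
        TH u v ≤ C₁ * (1 + lM (fv F u v)) := by
  obtain ⟨k, hkdef⟩ : ∃ k, k = F.natDegree := ⟨_, rfl⟩
  obtain ⟨a, hadef⟩ : ∃ a, a = F.leadingCoeff := ⟨_, rfl⟩
  have hF0 : F ≠ 0 := by
    rintro rfl
    rw [natDegree_zero] at hk
    omega
  have ha : a ≠ 0 := by rw [hadef]; exact leadingCoeff_ne_zero.mpr hF0
  obtain ⟨G, hG⟩ : ∃ G, G = integralNormalization F := ⟨_, rfl⟩
  have hGm : G.Monic := by rw [hG]; exact monic_integralNormalization hF0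
  have hGd : G.natDegree = k := by rw [hG, natDegree_integralNormalization, hkdef]
  have hGs := sep_norm (by omega) hF
  rw [← hG] at hGs
  obtain ⟨P', Q, r, hr, hB⟩ := clear hGs
  obtain ⟨B, hB0, n₁, hn₁, hT⟩ := T_bound hGm (by rw [hGd, hkdef]; exact hk) hB hr
  rw [hGd] at hT
  obtain ⟨n₂, hn₂, hpole⟩ := pole_order hδ ha n₁
  rw [← hkdef] at hk hw
  have hkR : (2:ℝ) ≤ k := by exact_mod_cast hk
  obtain ⟨E, hE⟩ : ∃ E : ℝ, E = k * (k - 1) - k ^ 2 * w := ⟨_, rfl⟩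
  have hE0 : 0 < E := by
    rw [hE]
    nlinarith
  obtain ⟨C', hC'⟩ : ∃ C' : ℝ, C' = log (1 + a.natDegree) - log (δ / 2) := ⟨_, rfl⟩
  have hlMa : 0 ≤ lM a := lM_nonneg ha
  have hmpa : 0 ≤ mp (a.map (Int.castRingHom ℂ)) := mp_nonneg _
  obtain ⟨B', hB'⟩ : ∃ B' : ℝ, B' = B + (k:ℝ) ^ 2 * |K| + (2 * k - 1) * ((k - 1 : ℕ) * lM a + 1) +
    (k:ℝ) ^ 2 * |C'| := ⟨_, rfl⟩
  have h2k : (0:ℝ) ≤ 2 * k - 1 := by linarith
  have hB'0 : 0 ≤ B' := by
    rw [hB']
    positivity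
  refine ⟨B' / E + mp (a.map (Int.castRingHom ℂ)), by positivity, n₂, hn₂, ?_⟩
  intro u v P c s t e hu hv hvP hPK hwe hp hcase hf
  obtain ⟨f, hfdef⟩ : ∃ f, f = fv F u v := ⟨_, rfl⟩
  rw [← hfdef] at hf ⊢
  have hlf : 0 ≤ lM f := lM_nonneg hf
  obtain ⟨N, hN, hNc, hNn⟩ := hpole u v hu hv hp hcase
  obtain ⟨n0, hn0⟩ : ∃ n0, n0 = max u.natDegree v.natDegree := ⟨_, rfl⟩
  rw [← hn0] at hcase hNn
  obtain ⟨g, hgdef⟩ : ∃ g, g = fv G (a * u) v := ⟨_, rfl⟩
  have hrel : a ^ (k - 1) * f = g := by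
    rw [hfdef, hgdef, hadef, hkdef, ← fv_norm (by omega), ← hadef, ← hG]
  have hak : a ^ (k - 1) ≠ 0 := pow_ne_zero _ ha
  have hg0 : g ≠ 0 := by
    rw [← hrel]
    exact mul_ne_zero hak hf
  have hau : a * u ≠ 0 := mul_ne_zero ha hu
  have hc0 : c ≠ 0 := by
    rintro rfl
    rw [C_0, zero_mul, zero_mul] at hvP
    exact hv hvP
  have hP0 : P ≠ 0 := by
    rintro rfl
    rw [mul_zero, zero_mul] at hvP
    exact hv hvP
  have ht0 : ∀ l ∈ s, t l ≠ 0 := by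
    intro l hl h0
    apply hv
    have he0 : e l ≠ 0 := by
      intro h1
      have := hwe l hl
      rw [h1] at this
      norm_num at this
    rw [hvP, Finset.prod_eq_zero hl (by rw [h0, zero_pow he0]), mul_zero]
  obtain ⟨Y, hYdef⟩ : ∃ Y, Y = C c * ∏ l ∈ s, t l ^ (e l - 1) := ⟨_, rfl⟩
  have hYv : Y ∣ v := by
    rw [hYdef, hvP, mul_assoc]
    apply mul_dvd_mul (dvd_refl _)
    apply Dvd.dvd.mul_left
    exact Finset.prod_dvd_prod_of_dvd _ _ fun l _ => pow_pred_dvd _ _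
  have hYth : Y ∣ th v := by
    have h1 := thi_dvd s c P t e 1
    rw [hYdef, hvP]
    exact h1
  obtain ⟨v', hv'⟩ := hYv
  obtain ⟨v'', hv''⟩ := hYth
  have htr := trunc hc0 hP0 s t ht0 e 1 hw0 (by
    intro l hl
    have := hwe l hl
    exact_mod_cast this)
  rw [← hvP, ← hYdef] at htr
  have hfd := hT (a * u) v Y v' v'' N (n0 + a.natDegree) hau hv hv' hv'' hN hNc
    (by rw [natDegree_mul ha hu]; omega) (by omega) (by rw [← hgdef]; exact hg0)
  rw [← hgdef] at hfd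
  have hlM : lM g = (k - 1 : ℕ) * lM a + lM f := by
    rw [← hrel, lM_mul hak hf, lM_pow ha]
  have hTm := TH_mul ha hu hv
  obtain ⟨T, hTdef⟩ : ∃ T, T = TH (a * u) v := ⟨_, rfl⟩
  have hvT : lM v ≤ T := by rw [hTdef]; exact lM_le_TH _ _
  rw [← hTdef] at hfd hTm
  have hn0R : (1:ℝ) ≤ n0 := by exact_mod_cast hn₂.trans hcase
  have hln : log ((n0 + a.natDegree : ℕ) : ℝ) - log N ≤ |C'| := by
    refine le_trans ?_ (le_abs_self C')
    rw [hC']
    have ha0 : (0:ℝ) ≤ a.natDegree := Nat.cast_nonneg _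
    have h1 : log ((n0 + a.natDegree : ℕ) : ℝ) ≤ log (1 + a.natDegree) + log n0 := by
      rw [← log_mul (by positivity) (by positivity)]
      apply log_le_log (by push_cast; positivity)
      push_cast
      nlinarith
    have h2 : log (δ / 2) + log n0 ≤ log N := by
      rw [← log_mul (by positivity) (by positivity)]
      exact log_le_log (by positivity) hNn
    linarith
  have hTb : T ≤ B' / E * (1 + lM f) := by
    rw [div_mul_eq_mul_div, le_div_iff₀ hE0]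
    have hk20 : (0:ℝ) ≤ (k:ℝ) ^ 2 := by positivity
    have g1 : (k:ℝ) ^ 2 * (lM v - lM Y) ≤ (k:ℝ) ^ 2 * (|K| + w * T) := by
      apply mul_le_mul_of_nonneg_left _ hk20
      have h1 : w * lM v ≤ w * T := mul_le_mul_of_nonneg_left hvT hw0
      have h2 := le_abs_self K
      linarith
    have g2 : (k:ℝ) ^ 2 * (log ((n0 + a.natDegree : ℕ) : ℝ) - log N) ≤ (k:ℝ) ^ 2 * |C'| :=
      mul_le_mul_of_nonneg_left hln hk20
    have g3 : T * E ≤ B' + (2 * k - 1) * lM f := by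
      rw [hE, hB']
      rw [hlM] at hfd
      linarith
    have g4 : (2 * (k:ℝ) - 1) * lM f ≤ B' * lM f := by
      apply mul_le_mul_of_nonneg_right _ hlf
      rw [hB']
      have p1 : 0 ≤ (k:ℝ) ^ 2 * |K| := by positivity
      have p2 : 0 ≤ (k:ℝ) ^ 2 * |C'| := by positivity
      have p3 : 0 ≤ (2 * (k:ℝ) - 1) * ((k - 1 : ℕ) * lM a) := by positivity
      linarith
    linarith
  have hfin : mp (a.map (Int.castRingHom ℂ)) ≤ mp (a.map (Int.castRingHom ℂ)) * (1 + lM f) :=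
    le_mul_of_one_le_right hmpa (by linarith)
  rw [add_mul]
  linarith

/-- **the height is bounded by the measure** -/
theorem T_all {F : ℤ[X][X]} {k : ℕ} (α : Fin k → AlgebraicClosure (FractionRing ℤ[X]))
    (hα : Function.Injective α) (hroot : ∀ i, aeval (α i) F = 0) (K : ℝ) {δ w : ℝ} (hδ : 0 < δ)
    (hw0 : 0 ≤ w) (hw : w * k < k - 1) (hF0 : F ≠ 0) : 2 ≤ F.natDegree ∧
    ∃ C₁ : ℝ, 0 ≤ C₁ ∧ ∃ n₂ : ℕ, 1 ≤ n₂ ∧
      ∀ (u v P : ℤ[X]) (c : ℤ) (s : Finset ℕ) (t : ℕ → ℤ[X]) (e : ℕ → ℕ), u ≠ 0 → v ≠ 0 →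
        v = C c * P * ∏ l ∈ s, t l ^ e l → lM P ≤ K → (∀ l ∈ s, 1 ≤ w * e l) →
        Pole δ u v → n₂ ≤ max u.natDegree v.natDegree → fv F u v ≠ 0 →
        TH u v ≤ C₁ * (1 + lM (fv F u v)) := by
  classical
  obtain ⟨c₀, S, hc₀, hFe, h1, h2⟩ := factor hF0
  have hs0 : ∀ p ∈ S, p ≠ 0 := fun p hp => (h1 p hp).1.ne_zero
  obtain ⟨G, hG⟩ : ∃ G : ℤ[X][X], G = ∏ p ∈ S.toFinset, p := ⟨_, rfl⟩
  have hGs := sep_T h1 h2
  rw [← hG] at hGs
  have hGm : G = S.toFinset.val.prod := by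
    rw [hG, Finset.prod_eq_multiset_prod, Multiset.map_id']
  have hTs : S.toFinset.val ≤ S := by
    rw [Multiset.toFinset_val]
    exact Multiset.dedup_le S
  have hG0 : G ≠ 0 := by
    rw [hG, Finset.prod_ne_zero_iff]
    exact fun p hp => hs0 p (Multiset.mem_toFinset.mp hp)
  have hrootG : ∀ i, aeval (α i) G = 0 := by
    intro i
    have h3 := hroot i
    rw [hFe, map_mul, aeval_C, mul_eq_zero, map_multiset_prod] at h3
    rcases h3 with h3 | h3
    · exact absurd ((map_eq_zero_iff _ alg_inj).mp h3) hc₀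
    · rw [Multiset.prod_eq_zero_iff, Multiset.mem_map] at h3
      obtain ⟨p, hp, h4⟩ := h3
      rw [hG, map_prod]
      exact Finset.prod_eq_zero (Multiset.mem_toFinset.mpr hp) h4
  have hkG := card_le α hα hG0 hrootG
  have hkF := card_le α hα hF0 hroot
  have hkGR : (k:ℝ) ≤ G.natDegree := by exact_mod_cast hkG
  have hk0 : (0:ℝ) ≤ k := Nat.cast_nonneg _
  have hw1 : w < 1 := by
    by_contra h
    rw [not_lt] at h
    have : (k:ℝ) ≤ w * k := le_mul_of_one_le_left hk0 h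
    linarith
  have hk2 : 2 ≤ k := by
    have h3 : (1:ℝ) < k := by
      have : 0 ≤ w * k := by positivity
      linarith
    exact_mod_cast h3
  have hwG : w * G.natDegree < G.natDegree - 1 := by nlinarith
  obtain ⟨C₁, hC₁, n₂, hn₂, hT⟩ := T_sep (hk2.trans hkG) hGs K hδ hw0 hwG
  refine ⟨hk2.trans hkF, C₁, hC₁, n₂, hn₂, ?_⟩
  intro u v P c s t e hu hv hvP hPK hwe hp hn hf
  have hff : fv F u v = c₀ * (S.map fun p => fv p u v).prod := by
    rw [hFe, fv_mul (by rwa [Ne, C_eq_zero]) (Multiset.prod_ne_zero fun h => hs0 0 h rfl) u hv, fv_C,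
      fv_prod u hv S hs0]
  have hgg : fv G u v = (S.toFinset.val.map fun p => fv p u v).prod := by
    rw [hGm, fv_prod u hv _ fun p hp => hs0 p (Multiset.mem_of_le hTs hp)]
  have hdvd : fv G u v ∣ fv F u v := by
    rw [hgg, hff]
    obtain ⟨t, ht⟩ := Multiset.le_iff_exists_add.mp hTs
    conv_rhs => rw [ht]
    rw [Multiset.map_add, Multiset.prod_add]
    exact Dvd.dvd.mul_left (Dvd.intro _ rfl) _
  obtain ⟨R, hR⟩ := hdvd
  have hg0 : fv G u v ≠ 0 := by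
    intro h0
    rw [h0, zero_mul] at hR
    exact hf hR
  have hR0 : R ≠ 0 := by
    intro h0
    rw [h0, mul_zero] at hR
    exact hf hR
  have hle : lM (fv G u v) ≤ lM (fv F u v) := by
    rw [hR, lM_mul hg0 hR0]
    have := lM_nonneg hR0
    linarith
  refine (hT u v P c s t e hu hv hvP hPK hwe hp hn hg0).trans ?_
  exact mul_le_mul_of_nonneg_left (by linarith) hC₁

end Pool.Agent.Zk21.Mw
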