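import Mathlib
import Pool.Agent.Zk21.MwG

/-!
# Moving targets for rational functions: divisors of the values
-/

set_option autoImplicit false

open Polynomial Metric Set Filter Topology Real

namespace Pool.Agent.Zk21.Mw

open Pool.Agent.R328 Pool.Agent.Zk21.Smt Pool.Agent.Zk21.Un Pool.Agent.Zk21.Pt Pool.Agent.Zk21.Ca
open Pool.Agent.Zk21.Mv

lemma lM_le_mp (R : ℤ[X]) : lM R ≤ mp (R.map (Int.castRingHom ℂ)) := by
  have h : lM R = circleAverage (fun x => log ‖(R.map (Int.castRingHom ℂ)).eval x‖) 0 1 := by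
    rw [Un.log_mahler]
    rfl
  rw [h]
  apply circleAverage_mono (log_int _) (posLog_int _)
  intro x _
  exact le_max_right _ _

/-- the proximity to the companions, for a divisor of a value -/
lemma prox_div {F : ℤ[X][X]} : ∃ K₀ : ℝ, 0 ≤ K₀ ∧
    ∀ (u v f R q : ℤ[X]) (j : ℕ), u ≠ 0 → v ≠ 0 → f ≠ 0 → R ≠ 0 → f * R = X ^ j * fv F u v →
    (q = u ^ F.natDegree ∨ q = v ^ F.natDegree) →
    prox f q ≤ mp (R.map (Int.castRingHom ℂ)) + K₀ + F.natDegree * TH u v := by
  obtain ⟨L, hL, h⟩ := fv_le (F := F)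
  refine ⟨log L, log_nonneg hL, ?_⟩
  intro u v f R q j hu hv hf hR hfR hq
  obtain ⟨k, hkdef⟩ : ∃ k, k = F.natDegree := ⟨_, rfl⟩
  rw [← hkdef] at hq ⊢
  have hg : fv F u v ≠ 0 := by
    intro h0
    rw [h0, mul_zero] at hfR
    exact mul_ne_zero hf hR hfR
  set R' := R.map (Int.castRingHom ℂ) with hR'
  set f' := f.map (Int.castRingHom ℂ) with hf'
  set u' := u.map (Int.castRingHom ℂ) with hu'
  set v' := v.map (Int.castRingHom ℂ) with hv'
  set q' := q.map (Int.castRingHom ℂ) with hq'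
  set g' := (fv F u v).map (Int.castRingHom ℂ) with hg'
  have key : prox f q ≤ circleAverage ((fun x => log⁺ ‖R'.eval x‖) + ((fun _ => log L) +
      (((k : ℝ) • ((fun x => log ‖u'.eval x‖) ⊔ (fun x => log ‖v'.eval x‖))) -
        fun x => log ‖g'.eval x‖))) 0 1 := by
    unfold prox
    apply circleAverage_mono_off (posLog_ratio_int _ _)
      ((posLog_int _).add ((circleIntegrable_const _ _ _).add
        (((TH_int u v).const_smul).sub (log_int _))))
      (((((roots_countable (map_ne hR)).union (roots_countable (map_ne hf))).union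
        (roots_countable (map_ne hg))).union (roots_countable (map_ne hu))).union
        (roots_countable (map_ne hv)))
    intro x hxs hxZ
    rw [mem_sphere_zero_iff_norm] at hxs
    simp only [Set.mem_union, not_or] at hxZ
    obtain ⟨⟨⟨⟨hx1, hx2⟩, hx3⟩, hx4⟩, hx5⟩ := hxZ
    have hx1' : ev x R ≠ 0 := by rw [ev_eq]; exact hx1
    have hx2' : ev x f ≠ 0 := by rw [ev_eq]; exact hx2
    have hx3' : ev x (fv F u v) ≠ 0 := by rw [ev_eq]; exact hx3
    have hx4' : ev x u ≠ 0 := by rw [ev_eq]; exact hx4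
    have hx5' : ev x v ≠ 0 := by rw [ev_eq]; exact hx5
    have ea : R'.eval x = ev x R := (ev_eq x R).symm
    have ef : f'.eval x = ev x f := (ev_eq x f).symm
    have eu : u'.eval x = ev x u := (ev_eq x _).symm
    have ew : v'.eval x = ev x v := (ev_eq x v).symm
    have eg : g'.eval x = ev x (fv F u v) := (ev_eq x _).symm
    have eq' : q'.eval x = ev x q := (ev_eq x _).symm
    simp only [Pi.add_apply, Pi.smul_apply, Pi.sub_apply, Pi.sup_apply, smul_eq_mul]
    rw [← hf', ← hq', ea, eu, ew, eg, ef, eq', norm_div]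
    have h1 : ‖ev x f‖ * ‖ev x R‖ = ‖ev x (fv F u v)‖ := by
      have h3 := congrArg (fun R => ‖ev x R‖) hfR
      simp only [map_mul, map_pow, norm_mul, norm_pow, ev_X, hxs, one_pow, one_mul] at h3
      exact h3
    have h2 := h u v x hxs
    rw [← hkdef] at h2
    have hfp : 0 < ‖ev x f‖ := norm_pos_iff.mpr hx2'
    have hgp : 0 < ‖ev x (fv F u v)‖ := norm_pos_iff.mpr hx3'
    have hRp : 0 < ‖ev x R‖ := norm_pos_iff.mpr hx1'
    have hup : 0 < ‖ev x u‖ := norm_pos_iff.mpr hx4'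
    have hvp : 0 < ‖ev x v‖ := norm_pos_iff.mpr hx5'
    obtain ⟨H, hH⟩ : ∃ H, H = max ‖ev x u‖ ‖ev x v‖ := ⟨_, rfl⟩
    rw [← hH] at h2
    have hH0 : 0 < H := by rw [hH]; exact lt_max_of_lt_right hvp
    obtain ⟨lm, hlmdef⟩ : ∃ lm, lm = log ‖ev x u‖ ⊔ log ‖ev x v‖ := ⟨_, rfl⟩
    have hlm : log H = lm := by
      rw [hlmdef, hH]
      rcases le_total ‖ev x u‖ ‖ev x v‖ with h3 | h3
      · rw [max_eq_right h3, sup_eq_right.mpr (log_le_log hup h3)]
      · rw [max_eq_left h3, sup_eq_left.mpr (log_le_log hvp h3)]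
    rw [← hlmdef, ← hlm]
    have hqH : ‖ev x q‖ ≤ H ^ k := by
      rcases hq with hq | hq
      · rw [hq, map_pow, norm_pow]
        exact pow_le_pow_left₀ hup.le (by rw [hH]; exact le_max_left _ _) k
      · rw [hq, map_pow, norm_pow]
        exact pow_le_pow_left₀ hvp.le (by rw [hH]; exact le_max_right _ _) k
    have hS1 : ‖ev x q‖ / ‖ev x f‖ ≤ ‖ev x R‖ * (L * H ^ k / ‖ev x (fv F u v)‖) := by
      have e1 : ‖ev x q‖ / ‖ev x f‖ = ‖ev x R‖ * (‖ev x q‖ / ‖ev x (fv F u v)‖) := by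
        rw [← h1]
        field_simp
      rw [e1]
      apply mul_le_mul_of_nonneg_left _ hRp.le
      apply div_le_div_of_nonneg_right _ hgp.le
      have e4 : H ^ k ≤ L * H ^ k := le_mul_of_one_le_left (by positivity) hL
      linarith
    have hB1 : 1 ≤ L * H ^ k / ‖ev x (fv F u v)‖ := by
      rw [le_div_iff₀ hgp, one_mul]
      exact h2
    have h5 : log⁺ (‖ev x q‖ / ‖ev x f‖) ≤ log⁺ ‖ev x R‖ +
        log⁺ (L * H ^ k / ‖ev x (fv F u v)‖) :=
      (posLog_le_posLog (by positivity) hS1).trans posLog_mul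
    have h6 : log⁺ (L * H ^ k / ‖ev x (fv F u v)‖) = log L + (k * log H -
        log ‖ev x (fv F u v)‖) := by
      rw [posLog_eq_log (by rw [abs_of_pos (by positivity)]; exact hB1), log_div (by positivity) hgp.ne',
        log_mul (by positivity) (by positivity), log_pow]
      ring
    rw [h6] at h5
    linarith
  rw [circleAverage_add (posLog_int _) ((circleIntegrable_const _ _ _).add
        (((TH_int u v).const_smul).sub (log_int _))),
    circleAverage_add (circleIntegrable_const _ _ _) (((TH_int u v).const_smul).sub (log_int _)),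
    circleAverage_sub ((TH_int u v).const_smul) (log_int _), circleAverage_smul,
    circleAverage_const, Un.log_mahler, smul_eq_mul] at key
  have h7 : 0 ≤ log g'.mahlerMeasure := lM_nonneg hg
  have h8 : circleAverage (fun x => log⁺ ‖R'.eval x‖) 0 1 = mp R' := rfl
  have h9 : circleAverage ((fun x => log ‖u'.eval x‖) ⊔ (fun x => log ‖v'.eval x‖)) 0 1 =
    TH u v := rfl
  rw [h8, h9] at key
  linarith

/-- the gap for divisors of polynomials of bounded length, up to powers of `X` -/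
lemma gap_deg_div (D : ℕ) : ∃ μ : ℝ, 1 < μ ∧ ∀ (f R g : ℤ[X]) (j : ℕ), f ≠ 0 → R ≠ 0 →
    f * R = X ^ j * g → g.natDegree ≤ D →
    (f.map (Int.castRingHom ℂ)).mahlerMeasure = 1 ∨
      μ ≤ (f.map (Int.castRingHom ℂ)).mahlerMeasure := by
  obtain ⟨μ, hμ, hgap⟩ := gap_deg D
  refine ⟨μ, hμ, ?_⟩
  intro f R g j hf hR hfR hg
  have hg0 : g ≠ 0 := by
    rintro rfl
    rw [mul_zero] at hfR
    exact mul_ne_zero hf hR hfR
  have h1 := congrArg natDegree hfR
  have h2 := congrArg natTrailingDegree hfR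
  rw [natDegree_mul hf hR, natDegree_mul (pow_ne_zero _ X_ne_zero) hg0, natDegree_X_pow] at h1
  rw [natTrailingDegree_mul hf hR, natTrailingDegree_mul (pow_ne_zero _ X_ne_zero) hg0,
    natTrailingDegree_X_pow] at h2
  have h3 := natTrailingDegree_le_natDegree R
  have h4 := natTrailingDegree_le_natDegree f
  have h5 : f.reverse.natDegree ≤ D := by
    rw [reverse_natDegree]
    omega
  have h6 : lM f.reverse = lM f := lM_reflect le_rfl
  have h7 : f.reverse ≠ 0 := by rwa [Ne, reverse_eq_zero]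
  have h8 : (f.reverse.map (Int.castRingHom ℂ)).mahlerMeasure =
      (f.map (Int.castRingHom ℂ)).mahlerMeasure :=
    Real.log_injOn_pos (mahler_pos h7) (mahler_pos hf) h6
  rw [← h8]
  exact hgap f.reverse h7 h5

/-- **the gap for divisors of values at rational functions** -/
theorem gap_div {F : ℤ[X][X]} {k : ℕ} (α : Fin k → AlgebraicClosure (FractionRing ℤ[X]))
    (hα : Function.Injective α) (hroot : ∀ i, aeval (α i) F = 0) (K : ℝ) {δ w : ℝ} (hδ : 0 < δ)
    (hw0 : 0 ≤ w) (hw : w * k < k - 1) : ∃ μ : ℝ, 1 < μ ∧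
      ∀ (u v f R P : ℤ[X]) (c : ℤ) (s : Finset ℕ) (t : ℕ → ℤ[X]) (e : ℕ → ℕ) (j : ℕ),
        u ≠ 0 → v ≠ 0 → f ≠ 0 → R ≠ 0 → f * R = X ^ j * fv F u v →
        mp (R.map (Int.castRingHom ℂ)) ≤ K →
        v = C c * P * ∏ l ∈ s, t l ^ e l → lM P ≤ K → (∀ l ∈ s, 1 ≤ w * e l) → Pole δ u v →
        (∀ z : ℂ, 1 < ‖z‖ → aeval z f = 0 → aeval z u ≠ 0 ∨ aeval z v ≠ 0) →
        (f.map (Int.castRingHom ℂ)).mahlerMeasure = 1 ∨
          μ ≤ (f.map (Int.castRingHom ℂ)).mahlerMeasure := by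
  by_cases hF0 : F = 0
  · refine ⟨2, by norm_num, ?_⟩
    intro u v f R P c s t e j _ _ hf hR hfR
    exfalso
    have h0 : fv F u v = 0 := by
      rw [hF0]
      unfold fv
      simp
    rw [h0, mul_zero] at hfR
    exact mul_ne_zero hf hR hfR
  obtain ⟨hκ, C₁, hC₁, n₂, hn₂, hT⟩ := T_all α hα hroot K hδ hw0 hw hF0
  obtain ⟨K₀, hK₀, hprox⟩ := prox_div (F := F)
  obtain ⟨κ, hκdef⟩ : ∃ κ, κ = F.natDegree := ⟨_, rfl⟩
  rw [← hκdef] at hκ hprox
  obtain ⟨D, hD⟩ : ∃ D, D = ∑ i ∈ Finset.range (F.natDegree + 1), (F.coeff i).natDegree := ⟨_, rfl⟩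
  obtain ⟨μ₁, hμ₁, hgap1⟩ := gap_deg_div (D + κ * n₂)
  obtain ⟨μ₂, hμ₂, hgap2⟩ := gap_multi (K + K₀ + κ * (C₁ * (2 + K)))
  have he1 : (1:ℝ) < exp 1 := by
    have := add_one_lt_exp (one_ne_zero (α := ℝ))
    linarith
  refine ⟨min (min μ₁ μ₂) (exp 1), lt_min (lt_min hμ₁ hμ₂) he1, ?_⟩
  intro u v f R P c s t e j hu hv hf hR hfR hRK hvP hPK hwe hp hz
  have hM : (f.map (Int.castRingHom ℂ)).mahlerMeasure = exp (lM f) := (exp_log (mahler_pos hf)).symm
  by_cases hm : 1 < lM f
  · right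
    rw [hM]
    exact (min_le_right _ _).trans (exp_le_exp.mpr hm.le)
  rw [not_lt] at hm
  have hg : fv F u v ≠ 0 := by
    intro h0
    rw [h0, mul_zero] at hfR
    exact mul_ne_zero hf hR hfR
  by_cases hcase : n₂ ≤ max u.natDegree v.natDegree
  · have hTuv := hT u v P c s t e hu hv hvP hPK hwe hp hcase hg
    have hlg : lM (fv F u v) ≤ 1 + K := by
      have h1 := congrArg lM hfR
      rw [lM_mul hf hR, lM_mul (pow_ne_zero _ X_ne_zero) hg, lM_X, zero_add] at h1
      have h2 := lM_le_mp R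
      linarith
    have hTb : TH u v ≤ C₁ * (2 + K) :=
      hTuv.trans (mul_le_mul_of_nonneg_left (by linarith) hC₁)
    have hprox' : ∀ q : ℤ[X], (q = u ^ κ ∨ q = v ^ κ) → prox f q ≤ K + K₀ + κ * (C₁ * (2 + K)) := by
      intro q hq
      have h1 := hprox u v f R q j hu hv hf hR hfR hq
      have h2 : (κ:ℝ) * TH u v ≤ κ * (C₁ * (2 + K)) := mul_le_mul_of_nonneg_left hTb (Nat.cast_nonneg _)
      linarith
    rcases hgap2 f 2 ![u ^ κ, v ^ κ] hf (by
        intro i
        fin_cases i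
        · exact hprox' _ (Or.inl rfl)
        · exact hprox' _ (Or.inr rfl)) (by
        intro z hz1 hz2
        rcases hz z hz1 hz2 with h | h
        · refine ⟨0, ?_⟩
          show aeval z (u ^ κ) ≠ 0
          rw [map_pow]
          exact pow_ne_zero _ h
        · refine ⟨1, ?_⟩
          show aeval z (v ^ κ) ≠ 0
          rw [map_pow]
          exact pow_ne_zero _ h) with h | h
    · exact Or.inl h
    · right
      exact ((min_le_left _ _).trans (min_le_right _ _)).trans h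
  · rw [not_le] at hcase
    have hfd : (fv F u v).natDegree ≤ D + κ * n₂ := by
      rw [hD, hκdef]
      exact fv_deg F (by omega) (by omega)
    rcases hgap1 f R (fv F u v) j hf hR hfR hfd with h | h
    · exact Or.inl h
    · right
      exact ((min_le_left _ _).trans (min_le_left _ _)).trans h

/-- a common power of `X` -/
lemma fv_X (F : ℤ[X][X]) (u v : ℤ[X]) (j : ℕ) :
    fv F (X ^ j * u) (X ^ j * v) = X ^ (j * F.natDegree) * fv F u v := by
  unfold fv
  rw [Finset.mul_sum]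
  apply Finset.sum_congr rfl
  intro i hi
  rw [Finset.mem_range] at hi
  have h1 : (X : ℤ[X]) ^ (j * F.natDegree) = (X ^ j) ^ i * (X ^ j) ^ (F.natDegree - i) := by
    rw [← pow_add, ← pow_mul]
    congr 2
    omega
  rw [mul_pow, mul_pow, h1]
  ring

lemma fv_zero (F : ℤ[X][X]) (v : ℤ[X]) : fv F 0 v = F.coeff 0 * v ^ F.natDegree := by
  unfold fv
  rw [Finset.sum_eq_single 0]
  · simp
  · intro i _ hi
    rw [zero_pow hi, mul_zero, zero_mul]
  · intro h
    exact absurd (Finset.mem_range.mpr (Nat.succ_pos _)) h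

/-- **the gap for divisors of values at Laurent polynomials and at rational functions** -/
theorem gap_final {F : ℤ[X][X]} {k : ℕ} (α : Fin k → AlgebraicClosure (FractionRing ℤ[X]))
    (hα : Function.Injective α) (hroot : ∀ i, aeval (α i) F = 0) (K : ℝ) {δ w : ℝ} (hδ : 0 < δ)
    (hw0 : 0 ≤ w) (hw : w * k < k - 1) : ∃ μ : ℝ, 1 < μ ∧
      ∀ (u v f R : ℤ[X]), f ≠ 0 → R ≠ 0 → f * R = fv F u v →
        mp (R.map (Int.castRingHom ℂ)) ≤ K →
        ((∃ e : ℕ, v = X ^ e) ∨ (u ≠ 0 ∧ v ≠ 0 ∧ Pole δ u v ∧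
          (∃ (P : ℤ[X]) (c : ℤ) (s : Finset ℕ) (t : ℕ → ℤ[X]) (e : ℕ → ℕ),
            v = C c * P * ∏ l ∈ s, t l ^ e l ∧ lM P ≤ K ∧ ∀ l ∈ s, 1 ≤ w * e l) ∧
          ∀ z : ℂ, 1 < ‖z‖ → aeval z f = 0 → aeval z u ≠ 0 ∨ aeval z v ≠ 0)) →
        (f.map (Int.castRingHom ℂ)).mahlerMeasure = 1 ∨
          μ ≤ (f.map (Int.castRingHom ℂ)).mahlerMeasure := by
  obtain ⟨μ₁, hμ₁, h₁⟩ := gap_div α hα hroot K hδ hw0 hw
  obtain ⟨μ₂, hμ₂, h₂⟩ := gap_div α hα hroot K (show (0:ℝ) < 1 / 2 by norm_num) hw0 hw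
  obtain ⟨μ₃, hμ₃, h₃⟩ := gap_deg_div (F.coeff 0).natDegree
  refine ⟨min (min μ₁ μ₂) μ₃, lt_min (lt_min hμ₁ hμ₂) hμ₃, ?_⟩
  intro u v f R hf hR hfR hRK hcase
  rcases hcase with ⟨e₀, rfl⟩ | ⟨hu, hv, hp, ⟨P, c, s, t, e, hvP, hPK, hwe⟩, hz⟩
  · obtain ⟨j, u', e', hu', he', hu0⟩ := norm_exists e₀ u
    have hrel : f * R = X ^ (j * F.natDegree) * fv F u' (X ^ e') := by
      rw [hfR, hu', he', add_comm, pow_add, fv_X]
    by_cases hu1 : u' = 0
    · have he1 : e' = 0 := by
        rcases hu0 with h | h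
        · exact h
        · rw [hu1] at h
          simp at h
      rw [hu1, he1, fv_zero, pow_zero, one_pow, mul_one] at hrel
      rcases h₃ f R (F.coeff 0) _ hf hR hrel le_rfl with h | h
      · exact Or.inl h
      · exact Or.inr ((min_le_right _ _).trans h)
    · have hK0 : 0 ≤ K := (mp_nonneg _).trans hRK
      have hpole : Pole (1 / 2) u' (X ^ e') := by
        unfold Pole
        rw [natDegree_X_pow, natTrailingDegree_X_pow]
        by_cases h : 2 * e' ≤ u'.natDegree
        · left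
          have h1 : max u'.natDegree e' = u'.natDegree := by omega
          rw [h1]
          have h2 : 2 * (e' : ℝ) ≤ u'.natDegree := by exact_mod_cast h
          linarith
        · right
          have h1 : u'.natTrailingDegree = 0 := by
            rcases hu0 with h3 | h3
            · omega
            · exact natTrailingDegree_eq_zero.mpr (Or.inr h3)
          have h2 : max u'.natDegree e' ≤ 2 * e' := by omega
          have h3 : ((max u'.natDegree e' : ℕ) : ℝ) ≤ 2 * e' := by exact_mod_cast h2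
          rw [h1]
          push_cast at h3 ⊢
          linarith
      rcases h₂ u' (X ^ e') f R (X ^ e') 1 ∅ (fun _ => 1) (fun _ => 1) _ hu1
        (pow_ne_zero _ X_ne_zero) hf hR hrel hRK (by simp) (by rw [lM_X]; exact hK0)
        (by simp) hpole (by
          intro z hz _
          right
          rw [map_pow, aeval_X]
          apply pow_ne_zero
          rintro rfl
          rw [norm_zero] at hz
          linarith) with h | h
      · exact Or.inl h
      · exact Or.inr (((min_le_left _ _).trans (min_le_right _ _)).trans h)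
  · rcases h₁ u v f R P c s t e 0 hu hv hf hR (by rw [pow_zero, one_mul]; exact hfR) hRK hvP hPK hwe hp
      hz with h | h
    · exact Or.inl h
    · exact Or.inr (((min_le_left _ _).trans (min_le_left _ _)).trans h)

end Pool.Agent.Zk21.Mw
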