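import Mathlib
import Pool.Agent.Zk21.MxB
import Pool.Agent.Zk21.MwC

/-!
# Moving targets: the height, with the product off the diagonal
-/

set_option autoImplicit false

open Polynomial Metric Set Filter Topology Real

namespace Pool.Agent.Zk21.Mx

open Pool.Agent.R328 Pool.Agent.Zk21.Smt Pool.Agent.Zk21.Un Pool.Agent.Zk21.Pt Pool.Agent.Zk21.Ca
open Pool.Agent.Zk21.Mv Pool.Agent.Zk21.Mw

/-- the pointwise inequality on the circle -/
lemma circle_pt {F : ℤ[X][X]} (hF : F.Monic) (hk : 0 < F.natDegree) {u v Y v' v'' : ℤ[X]} {x : ℂ}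
    (hx : ‖x‖ = 1) {A b : ℝ} (hg : Geo F x A b) (hu : ev x u ≠ 0) (hv : ev x v ≠ 0)
    (hf : ev x (fv F u v) ≠ 0) (hY : v = Y * v') (hY' : th v = Y * v'')
    {c : ℝ} (hc1 : 1 ≤ c) :
    ‖ev x (NO F (th u * v' - u * v'') (u * v') (v * v'))‖ ≤
      (5 * A * b ^ 2 * (4 * A ^ 2) ^ F.natDegree * ((‖ev x v‖ * max ‖ev x u‖ ‖ev x v‖ / ‖ev x Y‖) *
        ((F.natDegree + 1) * c * Real.exp (FW (u.map (Int.castRingHom ℂ)) c x +
          FW (v.map (Int.castRingHom ℂ)) c x +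
          FW ((fv F u v).map (Int.castRingHom ℂ)) c x)))) ^ (F.natDegree * (F.natDegree - 1)) *
      (5 * A * b ^ 2 * (4 * A ^ 2) ^ F.natDegree *
        (‖ev x (fv F u v)‖ / max ‖ev x u‖ ‖ev x v‖ ^ F.natDegree)) ^ (2 * (F.natDegree - 1)) := by
  have hx0 : x ≠ 0 := by
    rintro rfl
    simp at hx
  have hYv : ev x v = ev x Y * ev x v' := by rw [← map_mul, ← hY]
  have hY0 : ev x Y ≠ 0 := by
    intro h
    rw [h, zero_mul] at hYv
    exact hv hYv
  have hYn : 0 < ‖ev x Y‖ := norm_pos_iff.mpr hY0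
  have hvn : 0 < ‖ev x v‖ := norm_pos_iff.mpr hv
  obtain ⟨U, hU⟩ : ∃ U, U = ev x u / ev x v := ⟨_, rfl⟩
  obtain ⟨V, hV⟩ : ∃ V, V = (ev x (th u) * ev x v - ev x u * ev x (th v)) / ev x v ^ 2 := ⟨_, rfl⟩
  obtain ⟨k, hkd⟩ : ∃ k, k = F.natDegree := ⟨_, rfl⟩
  obtain ⟨H, hH⟩ : ∃ H, H = max ‖ev x u‖ ‖ev x v‖ := ⟨_, rfl⟩
  have hH0 : 0 < H := by rw [hH]; exact lt_max_of_lt_right hvn
  have hmH : max 1 ‖U‖ = H / ‖ev x v‖ := by
    rw [hU, norm_div, hH, ← max_div_div_right hvn.le, div_self hvn.ne', max_comm]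
  have hfn : ‖(F.map (ev x)).eval U‖ = ‖ev x (fv F u v)‖ / ‖ev x v‖ ^ k := by
    rw [fv_eval F u v hv, norm_mul, norm_pow, ← hU, ev2_eq, ← hkd, mul_div_cancel_left₀]
    exact pow_ne_zero _ hvn.ne'
  obtain ⟨fu, hfu⟩ : ∃ t, t = FW (u.map (Int.castRingHom ℂ)) c x := ⟨_, rfl⟩
  obtain ⟨fw, hfw⟩ : ∃ t, t = FW (v.map (Int.castRingHom ℂ)) c x := ⟨_, rfl⟩
  obtain ⟨ff, hff⟩ : ∃ t, t = FW ((fv F u v).map (Int.castRingHom ℂ)) c x := ⟨_, rfl⟩
  have hfu0 : 0 ≤ fu := by rw [hfu]; exact FW_nonneg _ _ _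
  have hfw0 : 0 ≤ fw := by rw [hfw]; exact FW_nonneg _ _ _
  have hff0 : 0 ≤ ff := by rw [hff]; exact FW_nonneg _ _ _
  rw [← hfu, ← hfw, ← hff, ← hH, ← hkd]
  have hk1 : (1:ℝ) ≤ k := by
    rw [hkd]
    exact_mod_cast hk
  have hc0 : 0 ≤ c := by linarith
  obtain ⟨E, hE⟩ : ∃ E, E = Real.exp (fu + fw + ff) := ⟨_, rfl⟩
  have hE1 : 1 ≤ E := by rw [hE]; exact Real.one_le_exp (by linarith)
  have hEu : Real.exp fu ≤ E := by rw [hE]; exact Real.exp_le_exp.mpr (by linarith)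
  have hEv : Real.exp fw ≤ E := by rw [hE]; exact Real.exp_le_exp.mpr (by linarith)
  have hEf : Real.exp ff ≤ E := by rw [hE]; exact Real.exp_le_exp.mpr (by linarith)
  obtain ⟨Λ, hΛ⟩ : ∃ Λ, Λ = ((k:ℝ) + 1) * c * E := ⟨_, rfl⟩
  rw [← hE, ← hΛ]
  have hcE : 1 ≤ c * E := o1 hc1 hE1
  have hΛ2 : 2 * (c * E) ≤ Λ := by rw [hΛ]; nlinarith
  have hΛ1 : 1 ≤ Λ := by linarith
  have step : ∀ (P : ℤ[X]), ev x P ≠ 0 →
      Real.exp (FW (P.map (Int.castRingHom ℂ)) c x) ≤ E → ‖ev x (th P)‖ ≤ ‖ev x P‖ * (c * E) := by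
    intro P hP hex
    have h1 := one_step (P := P.map (Int.castRingHom ℂ)) (c := c) (by linarith) (x := x)
      (fun _ => by rwa [← ev_eq])
    rw [th_map, ← ev_eq, ← ev_eq] at h1
    refine h1.trans ?_
    apply mul_le_mul_of_nonneg_left _ (norm_nonneg _)
    exact mul_le_mul_of_nonneg_left hex hc0
  have hsu := step u hu (by rw [← hfu]; exact hEu)
  have hsv := step v hv (by rw [← hfw]; exact hEv)
  have hsf := step (fv F u v) hf (by rw [← hff]; exact hEf)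
  have hVΛ : ‖V‖ ≤ ‖U‖ * Λ := by
    rw [hV, hU, norm_div, norm_div, norm_pow, div_le_iff₀ (by positivity)]
    have h1 : ‖ev x (th u) * ev x v - ev x u * ev x (th v)‖ ≤
        ‖ev x u‖ * (c * E) * ‖ev x v‖ + ‖ev x u‖ * (‖ev x v‖ * (c * E)) := by
      refine (norm_sub_le _ _).trans ?_
      rw [norm_mul, norm_mul]
      exact add_le_add (mul_le_mul_of_nonneg_right hsu (norm_nonneg _))
        (mul_le_mul_of_nonneg_left hsv (norm_nonneg _))
    refine h1.trans ?_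
    have h2 : ‖ev x u‖ / ‖ev x v‖ * Λ * ‖ev x v‖ ^ 2 = ‖ev x u‖ * ‖ev x v‖ * Λ := by
      field_simp
    rw [h2]
    have h3 : 0 ≤ ‖ev x u‖ * ‖ev x v‖ := by positivity
    nlinarith
  have hfΛ : ‖((FD F).map (ev x)).eval U + V * (derivative (F.map (ev x))).eval U‖ ≤
      ‖(F.map (ev x)).eval U‖ * Λ := by
    have h1 := total F u v hx0 hv
    rw [← hU, ← hV, ev2_eq, ev2_eq, ← derivative_map] at h1
    rw [mul_comm V, h1, norm_div, norm_pow, hfn, ← hkd]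
    rw [div_le_iff₀ (by positivity)]
    have h2 : ‖ev x (th (fv F u v)) * ev x v - (k:ℂ) * (ev x (fv F u v) * ev x (th v))‖ ≤
        ‖ev x (fv F u v)‖ * (c * E) * ‖ev x v‖ + k * (‖ev x (fv F u v)‖ * (‖ev x v‖ * (c * E))) := by
      refine (norm_sub_le _ _).trans ?_
      rw [norm_mul, norm_mul, norm_mul, Complex.norm_natCast]
      apply add_le_add (mul_le_mul_of_nonneg_right hsf (norm_nonneg _))
      apply mul_le_mul_of_nonneg_left _ (by positivity)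
      exact mul_le_mul_of_nonneg_left hsv (norm_nonneg _)
    refine h2.trans (le_of_eq ?_)
    have h3 : ‖ev x v‖ ^ k ≠ 0 := pow_ne_zero _ hvn.ne'
    have h4 : ‖ev x (fv F u v)‖ / ‖ev x v‖ ^ k * Λ * ‖ev x v‖ ^ (k + 1) =
        ‖ev x (fv F u v)‖ * Λ * ‖ev x v‖ := by
      rw [pow_succ]
      field_simp
    rw [h4, hΛ]
    ring
  have hcard := Rt_card hF x hg.nodup
  have hprod : F.map (ev x) = ∏ α ∈ Rt F x hg.nodup, (X - C α) := by
    have h1 := (IsAlgClosed.splits (F.map (ev x))).eq_prod_roots_of_monic (hF.map _)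
    exact h1
  have hstar := star_off hprod (r := rr F x) hg.hA hg.hb hg.bd hg.sep hg.gb hg.hh hg.lg hg.lh hg.rb
    (fun α _ β _ _ => rr_rel F x α β) hΛ1 hVΛ hfΛ (by rw [hcard]; exact hk)
  rw [hcard, hmH, hfn, ← hkd] at hstar
  -- the factor
  obtain ⟨q, hq⟩ : ∃ q, q = ev x v ^ 2 / ev x Y := ⟨_, rfl⟩
  have hv' : ev x v' = ev x v / ev x Y := by rw [hYv, mul_div_cancel_left₀ _ hY0]
  have hv'' : ev x v'' = ev x (th v) / ev x Y := by rw [hY', map_mul, mul_div_cancel_left₀ _ hY0]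
  have hNN : ‖ev x (NO F (th u * v' - u * v'') (u * v') (v * v'))‖ = ‖q‖ ^ (k * (k - 1)) *
      ∏ α ∈ Rt F x hg.nodup, ∏ β ∈ (Rt F x hg.nodup).erase α,
        ‖wt (F.map (ev x)) ((FD F).map (ev x)) (rr F x) U V α β‖ := by
    have e0 := prod_off (Rt F x hg.nodup) ‖q‖
      (fun α β => ‖wt (F.map (ev x)) ((FD F).map (ev x)) (rr F x) U V α β‖)
    rw [hcard, ← hkd] at e0
    rw [← e0, NO_fin hF hk _ _ _ x hg.nodup, norm_prod]
    apply Finset.prod_congr rfl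
    intro α _
    rw [norm_prod]
    apply Finset.prod_congr rfl
    intro β _
    rw [← norm_mul]
    congr 1
    rw [map_sub, map_mul, map_mul, map_mul, map_mul, hv', hv'', hq]
    unfold wt
    rw [hU, hV]
    field_simp
  rw [hNN]
  have hqn : ‖q‖ = ‖ev x v‖ ^ 2 / ‖ev x Y‖ := by rw [hq, norm_div, norm_pow]
  refine (mul_le_mul_of_nonneg_left hstar (by positivity)).trans (le_of_eq ?_)
  have z1 : ‖q‖ * (5 * A * b ^ 2 * (4 * A ^ 2) ^ k * (H / ‖ev x v‖ * Λ)) =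
      5 * A * b ^ 2 * (4 * A ^ 2) ^ k * (‖ev x v‖ * H / ‖ev x Y‖ * Λ) := by
    rw [hqn]
    field_simp
  have z2 : ‖ev x (fv F u v)‖ / ‖ev x v‖ ^ k / (H / ‖ev x v‖) ^ k = ‖ev x (fv F u v)‖ / H ^ k := by
    rw [div_pow, div_div_div_cancel_right₀]
    exact pow_ne_zero _ hvn.ne'
  rw [← mul_assoc, ← mul_pow, z1, z2]

/-- the final arithmetic -/
lemma arith2 {p m T L N lN ln l2c l8 l2 sB sBc a1 a2 a3 V B₃ : ℝ} (hp : 0 ≤ p)
    (hB₃ : B₃ = sB + p * l8 + p * l2 + sBc + 6 * p)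
    (hN : p * (lN - l2) ≤ N) (h2c : l2c ≤ l8 + ln) (ha1 : a1 ≤ 2) (ha2 : a2 ≤ 2) (ha3 : a3 ≤ 2)
    (hpt : N ≤ (sB + p * l2c) + (sBc + (-p * T + (p * V +
      (p * (a1 + a2 + a3) + m * L))))) :
    p * T ≤ B₃ + p * V + m * L + p * (ln - lN) := by
  have g1 : p * l2c ≤ p * (l8 + ln) := mul_le_mul_of_nonneg_left h2c hp
  have g2 : p * (a1 + a2 + a3) ≤ p * 6 := mul_le_mul_of_nonneg_left (by linarith) hp
  rw [hB₃]
  linarith

/-- the height is bounded by the measure -/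
theorem T_bound {F : ℤ[X][X]} (hF : F.Monic) (hk : 2 ≤ F.natDegree) {P Q : ℤ[X][X]} {r : ℤ[X]}
    (hB : P * F + Q * derivative F = C r) (hr : r ≠ 0) : ∃ B : ℝ, 0 ≤ B ∧ ∃ n₁ : ℕ, 1 ≤ n₁ ∧
      ∀ (u v Y v' v'' : ℤ[X]) (N n : ℕ), u ≠ 0 → v ≠ 0 → v = Y * v' → th v = Y * v'' → n₁ ≤ N →
      (u.natDegree = v.natDegree + N ∨ v.natTrailingDegree = u.natTrailingDegree + N) →
      u.natDegree ≤ n → v.natDegree ≤ n → fv F u v ≠ 0 →
      ((F.natDegree * (F.natDegree - 1) : ℕ) : ℝ) * TH u v ≤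
        B + ((F.natDegree * (F.natDegree - 1) : ℕ) : ℝ) * (lM v - lM Y) +
        ((2 * (F.natDegree - 1) : ℕ) : ℝ) * lM (fv F u v) +
        ((F.natDegree * (F.natDegree - 1) : ℕ) : ℝ) * (log n - log N) := by
  obtain ⟨n₁, hn₁, hlow⟩ := NO_lower hF (by omega) hB hr
  obtain ⟨C₀, hC₀, cg, hgeo⟩ := geo hF hB
  obtain ⟨k, hkdef⟩ : ∃ k, k = F.natDegree := ⟨_, rfl⟩
  obtain ⟨D, hD⟩ : ∃ D, D = ∑ i ∈ Finset.range (F.natDegree + 1), (F.coeff i).natDegree := ⟨_, rfl⟩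
  rw [← hkdef] at hk hlow ⊢
  have hkR : (2:ℝ) ≤ k := by exact_mod_cast hk
  obtain ⟨kp, hkp⟩ : ∃ kp : ℕ, kp = k * (k - 1) := ⟨_, rfl⟩
  obtain ⟨km, hkm⟩ : ∃ km : ℕ, km = 2 * (k - 1) := ⟨_, rfl⟩
  rw [← hkp] at hlow ⊢
  rw [← hkm]
  have hkpR : (kp : ℝ) = k * (k - 1) := by
    rw [hkp]
    push_cast [Nat.cast_sub (show 1 ≤ k by omega)]
    ring
  have hkmR : (km : ℝ) = 2 * (k - 1) := by
    rw [hkm]
    push_cast [Nat.cast_sub (show 1 ≤ k by omega)]
    ring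
  set r' := r.map (Int.castRingHom ℂ) with hr'
  obtain ⟨cr, hcr⟩ : ∃ cr, cr = circleAverage (fun x => log⁺ ‖(1:ℂ[X]).eval x / r'.eval x‖) 0 1 := ⟨_, rfl⟩
  have hcr0 : 0 ≤ cr := by
    rw [hcr]
    exact circleAverage_nonneg_of_nonneg fun _ _ => posLog_nonneg
  obtain ⟨s, hs⟩ : ∃ s : ℝ, s = (kp:ℝ) + km := ⟨_, rfl⟩
  have hs0 : 0 ≤ s := by rw [hs]; positivity
  obtain ⟨B₁, hB₁⟩ : ∃ B₁ : ℝ, B₁ = log (5 * 4 ^ k) + (3 + 2 * k) * log C₀ := ⟨_, rfl⟩
  have hlC : 0 ≤ log C₀ := log_nonneg hC₀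
  have hB₁0 : 0 ≤ B₁ := by
    rw [hB₁]
    have : (1:ℝ) ≤ 5 * 4 ^ k := by
      have : (1:ℝ) ≤ 4 ^ k := one_le_pow₀ (by norm_num)
      linarith
    have := log_nonneg this
    positivity
  obtain ⟨B₂, hB₂⟩ : ∃ B₂ : ℝ, B₂ = (3 + 2 * k) * cg := ⟨_, rfl⟩
  have hB₂0 : 0 ≤ B₂ := by rw [hB₂]; positivity
  obtain ⟨B₃, hB₃⟩ : ∃ B₃ : ℝ, B₃ = s * B₁ + (kp:ℝ) * log (4 * (k + 1) * (k + D)) +
    (kp:ℝ) * log 2 + s * B₂ * cr + 6 * (kp:ℝ) := ⟨_, rfl⟩
  have hDR : (0:ℝ) ≤ D := Nat.cast_nonneg _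
  have hl8 : 0 ≤ log (4 * ((k:ℝ) + 1) * (k + D)) := by
    apply log_nonneg
    nlinarith
  have hl2 : 0 ≤ log 2 := log_nonneg (by norm_num)
  have hB₃0 : 0 ≤ B₃ := by
    rw [hB₃]
    positivity
  refine ⟨B₃, hB₃0, n₁, hn₁, ?_⟩
  intro u v Y v' v'' N n hu0 hv0 hY hY' hN hcase hun hvn hf0
  obtain ⟨hNN, hNNl⟩ := hlow u v Y v' v'' N hu0 hv0 hY hY' hN hcase
  have hY0 : Y ≠ 0 := by
    rintro rfl
    rw [zero_mul] at hY
    exact hv0 hY
  have hNn : N ≤ n := by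
    rcases hcase with h1 | h1
    · omega
    · have := natTrailingDegree_le_natDegree v
      omega
  obtain ⟨f, hf⟩ : ∃ f, f = fv F u v := ⟨_, rfl⟩
  rw [← hf] at hf0 ⊢
  obtain ⟨NP, hNP⟩ : ∃ NP, NP = NO F (th u * v' - u * v'') (u * v') (v * v') := ⟨_, rfl⟩
  rw [← hNP] at hNN hNNl
  have hn0 : 1 ≤ n := by omega
  have hnR : (1:ℝ) ≤ n := by exact_mod_cast hn0
  obtain ⟨c, hc⟩ : ∃ c : ℝ, c = 4 * ((k:ℝ) * n + D) := ⟨_, rfl⟩
  have hkn2 : (n:ℝ) ≤ k * n := le_mul_of_one_le_left (by linarith) (by linarith)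
  have hc1 : 1 ≤ c := by rw [hc]; linarith
  set u₁ := u.map (Int.castRingHom ℂ) with hu₁
  set v₁ := v.map (Int.castRingHom ℂ) with hv₁
  set Y₁ := Y.map (Int.castRingHom ℂ) with hY₁
  set f' := f.map (Int.castRingHom ℂ) with hf'
  set N' := NP.map (Int.castRingHom ℂ) with hN'
  have hud : (u₁.natDegree : ℝ) ≤ n := by
    have : u₁.natDegree ≤ n := by rw [hu₁, natDeg_map]; exact hun
    exact_mod_cast this
  have hvd : (v₁.natDegree : ℝ) ≤ n := by
    have : v₁.natDegree ≤ n := by rw [hv₁, natDeg_map]; exact hvn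
    exact_mod_cast this
  have hfd : f'.natDegree ≤ D + k * n := by
    rw [hf', natDeg_map, hD, hkdef, hf]
    exact fv_deg F hun hvn
  have hfdR : (f'.natDegree : ℝ) ≤ D + k * n := by exact_mod_cast hfd
  have avg : ∀ R : ℂ[X], (R.natDegree : ℝ) ≤ D + k * n → circleAverage (FW R c) 0 1 ≤ 2 := by
    intro R hR
    refine (FW_avg (by linarith) ?_).trans ?_
    · rw [hc]
      linarith
    · rw [div_le_iff₀ (by linarith), hc]
      linarith
  have ha1 := avg u₁ (by linarith)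
  have ha2 := avg v₁ (by linarith)
  have ha3 := avg f' hfdR
  -- the pointwise inequality
  have hpt : circleAverage (fun x => log ‖N'.eval x‖) 0 1 ≤ circleAverage
      ((fun _ => s * B₁ + (kp:ℝ) * log ((k + 1) * c)) +
        ((s * B₂) • (fun x => log⁺ ‖(1:ℂ[X]).eval x / r'.eval x‖) +
        ((-(kp:ℝ)) • ((fun x => log ‖u₁.eval x‖) ⊔ (fun x => log ‖v₁.eval x‖)) +
        ((kp:ℝ) • ((fun x => log ‖v₁.eval x‖) - (fun x => log ‖Y₁.eval x‖)) +
        ((kp:ℝ) • (FW u₁ c + FW v₁ c + FW f' c) +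
          (km:ℝ) • (fun x => log ‖f'.eval x‖)))))) 0 1 := by
    apply circleAverage_mono_off (log_int _)
      ((circleIntegrable_const _ _ _).add (((posLog_ratio_int _ _).const_smul).add
        (((TH_int u v).const_smul).add ((((log_int _).sub (log_int _)).const_smul).add
          (((((FW_int _ _).add (FW_int _ _)).add (FW_int _ _)).const_smul).add
          ((log_int _).const_smul))))))
      (((((roots_countable (map_ne hu0)).union (roots_countable (map_ne hf0))).union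
        (roots_countable (map_ne hNN))).union (roots_countable (map_ne hr))).union
        (roots_countable (map_ne hv0)))
    intro x hx hxZ
    rw [mem_sphere_zero_iff_norm] at hx
    simp only [Set.mem_union, not_or] at hxZ
    obtain ⟨⟨⟨⟨hx1, hx2⟩, hx3⟩, hx4⟩, hx5⟩ := hxZ
    have hx1' : ev x u ≠ 0 := by rw [ev_eq]; exact hx1
    have hx2' : ev x f ≠ 0 := by rw [ev_eq]; exact hx2
    have hx3' : ev x NP ≠ 0 := by rw [ev_eq]; exact hx3
    have hx4' : ev x r ≠ 0 := by rw [ev_eq]; exact hx4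
    have hx5' : ev x v ≠ 0 := by rw [ev_eq]; exact hx5
    have hx6' : ev x Y ≠ 0 := by
      intro h0
      rw [hY, map_mul, h0, zero_mul] at hx5'
      exact hx5' rfl
    obtain ⟨w, hw⟩ : ∃ w, w = log⁺ ‖(1:ℂ[X]).eval x / r'.eval x‖ := ⟨_, rfl⟩
    have hw0 : 0 ≤ w := by rw [hw]; exact posLog_nonneg
    have hW1 : 1 ≤ exp w := one_le_exp hw0
    have hWr : 1 ≤ exp w * ‖ev x r‖ := by
      have h1 := le_exp_posLog (norm_nonneg ((1:ℂ[X]).eval x / r'.eval x))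
      rw [← hw, eval_one, norm_div, norm_one, hr', ← ev_eq, div_le_iff₀ (norm_pos_iff.mpr hx4')] at h1
      exact h1
    obtain ⟨A, b, hg, hA, hb⟩ := hgeo x (exp w) hW1 (by rw [hx]; exact hW1) hWr
    have hpt := circle_pt hF (by omega) (u := u) (v := v) (Y := Y) (v' := v') (v'' := v'') hx hg
      hx1' hx5' (by rw [← hf]; exact hx2') hY hY' hc1
    rw [← hf, ← hNP, ← hkdef, ← hkp, ← hkm, ← hu₁, ← hv₁, ← hf'] at hpt
    obtain ⟨hκ1, hκ2⟩ := log_kappa (k := k) hg.hA hg.hb hA hb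
    obtain ⟨κ, hκ⟩ : ∃ κ, κ = 5 * A * b ^ 2 * (4 * A ^ 2) ^ k := ⟨_, rfl⟩
    rw [← hκ] at hpt hκ1 hκ2
    have hκ0 : 0 < κ := by linarith
    have hlE : log (C₀ * exp w ^ cg) = log C₀ + cg * w := by
      rw [log_mul (by positivity) (by positivity), ← exp_nat_mul, log_exp]
    have hκ3 : log κ ≤ B₁ + B₂ * w := by
      rw [hlE] at hκ2
      refine hκ2.trans (le_of_eq ?_)
      rw [hB₁, hB₂]
      ring
    have hun0 : 0 < ‖ev x u‖ := norm_pos_iff.mpr hx1'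
    have hvn0 : 0 < ‖ev x v‖ := norm_pos_iff.mpr hx5'
    have hYn0 : 0 < ‖ev x Y‖ := norm_pos_iff.mpr hx6'
    obtain ⟨m, hm⟩ : ∃ m, m = max ‖ev x u‖ ‖ev x v‖ := ⟨_, rfl⟩
    rw [← hm] at hpt
    have hm0 : 0 < m := by rw [hm]; exact lt_max_of_lt_right hvn0
    obtain ⟨lm, hlmdef⟩ : ∃ lm, lm = log ‖u₁.eval x‖ ⊔ log ‖v₁.eval x‖ := ⟨_, rfl⟩
    have hlm : log m = lm := by
      rw [hlmdef, hm, ← ev_eq, ← ev_eq]
      rcases le_total ‖ev x u‖ ‖ev x v‖ with h1 | h1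
      · rw [max_eq_right h1, sup_eq_right.mpr (log_le_log hun0 h1)]
      · rw [max_eq_left h1, sup_eq_left.mpr (log_le_log hvn0 h1)]
    have hfx : 0 < ‖ev x f‖ := norm_pos_iff.mpr hx2'
    have hlog := log_le_log (norm_pos_iff.mpr hx3') hpt
    have hc0 : 0 < c := by linarith
    have hk1 : (0:ℝ) < k + 1 := by linarith
    rw [log_mul (by positivity) (by positivity), log_pow, log_pow, log_mul hκ0.ne' (by positivity),
      log_mul (by positivity) (by positivity), log_mul (by positivity) (by positivity), log_exp,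
      log_mul hκ0.ne' (by positivity), log_div hfx.ne' (by positivity), log_pow,
      log_div (by positivity) hYn0.ne', log_mul hvn0.ne' hm0.ne'] at hlog
    simp only [Pi.add_apply, Pi.smul_apply, Pi.sub_apply, Pi.sup_apply, smul_eq_mul]
    rw [hlm] at hlog
    have hNe : N'.eval x = ev x NP := (ev_eq x NP).symm
    have hfe : f'.eval x = ev x f := (ev_eq x f).symm
    have hve : v₁.eval x = ev x v := (ev_eq x v).symm
    have hYe : Y₁.eval x = ev x Y := (ev_eq x Y).symm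
    rw [← hw, ← hlmdef, hNe, hfe, hve, hYe]
    have hsk : s * log κ ≤ s * (B₁ + B₂ * w) := mul_le_mul_of_nonneg_left hκ3 hs0
    have hexp : (kp:ℝ) * (log κ + (log ‖ev x v‖ + lm - log ‖ev x Y‖ + (log ((k + 1) * c) +
        (FW u₁ c x + FW v₁ c x + FW f' c x)))) +
        (km:ℝ) * (log κ + (log ‖ev x f‖ - k * lm)) =
        s * log κ + (kp:ℝ) * log ((k + 1) * c) + (-(kp:ℝ)) * lm +
        (kp:ℝ) * (log ‖ev x v‖ - log ‖ev x Y‖) +
        (kp:ℝ) * (FW u₁ c x + FW v₁ c x + FW f' c x) + (km:ℝ) * log ‖ev x f‖ := by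
      rw [hs, hkpR, hkmR]
      ring
    rw [hexp] at hlog
    linarith
  rw [circleAverage_add (circleIntegrable_const _ _ _) (((posLog_ratio_int _ _).const_smul).add
        (((TH_int u v).const_smul).add ((((log_int _).sub (log_int _)).const_smul).add
          (((((FW_int _ _).add (FW_int _ _)).add (FW_int _ _)).const_smul).add
          ((log_int _).const_smul))))),
    circleAverage_add ((posLog_ratio_int _ _).const_smul)
        (((TH_int u v).const_smul).add ((((log_int _).sub (log_int _)).const_smul).add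
          (((((FW_int _ _).add (FW_int _ _)).add (FW_int _ _)).const_smul).add
          ((log_int _).const_smul)))),
    circleAverage_add ((TH_int u v).const_smul) ((((log_int _).sub (log_int _)).const_smul).add
          (((((FW_int _ _).add (FW_int _ _)).add (FW_int _ _)).const_smul).add
          ((log_int _).const_smul))),
    circleAverage_add (((log_int _).sub (log_int _)).const_smul)
      (((((FW_int _ _).add (FW_int _ _)).add (FW_int _ _)).const_smul).add ((log_int _).const_smul)),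
    circleAverage_add ((((FW_int _ _).add (FW_int _ _)).add (FW_int _ _)).const_smul)
      ((log_int _).const_smul),
    circleAverage_const, circleAverage_smul, circleAverage_smul, circleAverage_smul, circleAverage_smul,
    circleAverage_smul, circleAverage_sub (log_int _) (log_int _),
    circleAverage_add ((FW_int _ _).add (FW_int _ _)) (FW_int _ _),
    circleAverage_add (FW_int _ _) (FW_int _ _), Un.log_mahler, Un.log_mahler, Un.log_mahler,
    Un.log_mahler, ← hcr] at hpt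
  simp only [smul_eq_mul] at hpt
  have hlM1 : lM NP = log N'.mahlerMeasure := rfl
  have hlM2 : lM f = log f'.mahlerMeasure := rfl
  have hlM3 : lM v = log v₁.mahlerMeasure := rfl
  have hlM4 : lM Y = log Y₁.mahlerMeasure := rfl
  have hTT : circleAverage ((fun x => log ‖u₁.eval x‖) ⊔ (fun x => log ‖v₁.eval x‖)) 0 1 = TH u v := rfl
  rw [← hlM1, ← hlM2, ← hlM3, ← hlM4, hTT] at hpt
  have h2c : log ((k + 1) * c) ≤ log (4 * (k + 1) * (k + D)) + log n := by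
    rw [← log_mul (by positivity) (by positivity)]
    apply log_le_log (by positivity)
    rw [hc]
    have h1 : (D:ℝ) ≤ D * n := le_mul_of_one_le_right hDR hnR
    have h2 : (k:ℝ) * n + D ≤ (k + D) * n := by linarith
    calc ((k:ℝ) + 1) * (4 * (k * n + D)) = 4 * (k + 1) * (k * n + D) := by ring
      _ ≤ 4 * (k + 1) * ((k + D) * n) := mul_le_mul_of_nonneg_left h2 (by positivity)
      _ = _ := by ring
  exact arith2 (Nat.cast_nonneg _) hB₃ hNNl h2c ha1 ha2 ha3 hpt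

end Pool.Agent.Zk21.Mx
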