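import Mathlib
import Pool.Agent.Zk21.MwH
import Pool.Agent.Zk21.MxC

/-!
# Moving targets: the gap, with poles counted once
-/

set_option autoImplicit false

open Polynomial Metric Set Filter Topology Real

namespace Pool.Agent.Zk21.Mx

open Pool.Agent.R328 Pool.Agent.Zk21.Smt Pool.Agent.Zk21.Un Pool.Agent.Zk21.Pt Pool.Agent.Zk21.Ca
open Pool.Agent.Zk21.Mv
open Pool.Agent.Zk21.Mw (TH TH_int TH_mul lM_le_TH fv fv_norm fv_mul fv_C fv_prod fv_deg fv_X fv_zero Pole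
  pole_order prox_div gap_deg_div lM_le_mp)

/-- **the height is bounded by the measure, separable case** -/
theorem T_sep {F : ℤ[X][X]} (hk : 2 ≤ F.natDegree)
    (hF : (F.map (algebraMap ℤ[X] (FractionRing ℤ[X]))).Separable) (K : ℝ) {δ w : ℝ} (hδ : 0 < δ)
    (hw0 : 0 ≤ w) (hw : w < 1) : ∃ C₁ : ℝ, 0 ≤ C₁ ∧ ∃ n₂ : ℕ, 1 ≤ n₂ ∧
      ∀ (u v P : ℤ[X]) (c : ℤ) (s : Finset ℕ) (t : ℕ → ℤ[X]) (e : ℕ → ℕ), u ≠ 0 → v ≠ 0 →
        v = C c * P * ∏ l ∈ s, t l ^ e l → lM P ≤ K → (∀ l ∈ s, 1 ≤ w * e l) →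
        Pole δ u v → n₂ ≤ max u.natDegree v.natDegree → fv F u v ≠ 0 →
        TH u v ≤ C₁ * (1 + lM (fv F u v)) := by
  obtain ⟨k, hkdef⟩ : ∃ k, k = F.natDegree := ⟨_, rfl⟩
  obtain ⟨a, hadef⟩ : ∃ a, a = F.leadingCoeff := ⟨_, rfl⟩
  have hF0 : F ≠ 0 := by
    rintro rfl
    rw [natDegree_zero] at hk
    omega
  have ha : a ≠ 0 := by rw [hadef]; exact leadingCoeff_ne_zero.mpr hF0
  obtain ⟨G, hG⟩ : ∃ G, G = integralNormalization F := ⟨_, rfl⟩
  have hGm : G.Monic := by rw [hG]; exact monic_integralNormalization hF0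
  have hGd : G.natDegree = k := by rw [hG, natDegree_integralNormalization, hkdef]
  have hGs := sep_norm (by omega) hF
  rw [← hG] at hGs
  obtain ⟨P', Q, r, hr, hB⟩ := clear hGs
  obtain ⟨B, hB0, n₁, hn₁, hT⟩ := T_bound hGm (by rw [hGd, hkdef]; exact hk) hB hr
  rw [hGd] at hT
  obtain ⟨n₂, hn₂, hpole⟩ := pole_order hδ ha n₁
  rw [← hkdef] at hk
  have hkR : (2:ℝ) ≤ k := by exact_mod_cast hk
  obtain ⟨kp, hkp⟩ : ∃ kp : ℕ, kp = k * (k - 1) := ⟨_, rfl⟩
  obtain ⟨km, hkm⟩ : ∃ km : ℕ, km = 2 * (k - 1) := ⟨_, rfl⟩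
  rw [← hkp, ← hkm] at hT
  have hkp0 : (0:ℝ) < kp := by
    have : 0 < kp := by
      rw [hkp]
      exact Nat.mul_pos (by omega) (by omega)
    exact_mod_cast this
  have hkm0 : (0:ℝ) ≤ km := Nat.cast_nonneg _
  obtain ⟨E, hE⟩ : ∃ E : ℝ, E = kp * (1 - w) := ⟨_, rfl⟩
  have hE0 : 0 < E := by
    rw [hE]
    exact mul_pos hkp0 (by linarith)
  obtain ⟨C', hC'⟩ : ∃ C' : ℝ, C' = log (1 + a.natDegree) - log (δ / 2) := ⟨_, rfl⟩
  have hlMa : 0 ≤ lM a := lM_nonneg ha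
  have hmpa : 0 ≤ mp (a.map (Int.castRingHom ℂ)) := mp_nonneg _
  obtain ⟨B', hB'⟩ : ∃ B' : ℝ, B' = B + (kp:ℝ) * |K| + km * ((k - 1 : ℕ) * lM a + 1) +
    (kp:ℝ) * |C'| := ⟨_, rfl⟩
  have hB'0 : 0 ≤ B' := by
    rw [hB']
    positivity
  refine ⟨B' / E + mp (a.map (Int.castRingHom ℂ)), by positivity, n₂, hn₂, ?_⟩
  intro u v P c s t e hu hv hvP hPK hwe hp hcase hf
  obtain ⟨f, hfdef⟩ : ∃ f, f = fv F u v := ⟨_, rfl⟩
  rw [← hfdef] at hf ⊢
  have hlf : 0 ≤ lM f := lM_nonneg hf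
  obtain ⟨N, hN, hNc, hNn⟩ := hpole u v hu hv hp hcase
  obtain ⟨n0, hn0⟩ : ∃ n0, n0 = max u.natDegree v.natDegree := ⟨_, rfl⟩
  rw [← hn0] at hcase hNn
  obtain ⟨g, hgdef⟩ : ∃ g, g = fv G (a * u) v := ⟨_, rfl⟩
  have hrel : a ^ (k - 1) * f = g := by
    rw [hfdef, hgdef, hadef, hkdef, ← fv_norm (by omega), ← hadef, ← hG]
  have hak : a ^ (k - 1) ≠ 0 := pow_ne_zero _ ha
  have hg0 : g ≠ 0 := by
    rw [← hrel]
    exact mul_ne_zero hak hf
  have hau : a * u ≠ 0 := mul_ne_zero ha hu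
  have hc0 : c ≠ 0 := by
    rintro rfl
    rw [C_0, zero_mul, zero_mul] at hvP
    exact hv hvP
  have hP0 : P ≠ 0 := by
    rintro rfl
    rw [mul_zero, zero_mul] at hvP
    exact hv hvP
  have ht0 : ∀ l ∈ s, t l ≠ 0 := by
    intro l hl h0
    apply hv
    have he0 : e l ≠ 0 := by
      intro h1
      have := hwe l hl
      rw [h1] at this
      norm_num at this
    rw [hvP, Finset.prod_eq_zero hl (by rw [h0, zero_pow he0]), mul_zero]
  obtain ⟨Y, hYdef⟩ : ∃ Y, Y = C c * ∏ l ∈ s, t l ^ (e l - 1) := ⟨_, rfl⟩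
  have hYv : Y ∣ v := by
    rw [hYdef, hvP, mul_assoc]
    apply mul_dvd_mul (dvd_refl _)
    apply Dvd.dvd.mul_left
    exact Finset.prod_dvd_prod_of_dvd _ _ fun l _ => pow_pred_dvd _ _
  have hYth : Y ∣ th v := by
    have h1 := thi_dvd s c P t e 1
    rw [hYdef, hvP]
    exact h1
  obtain ⟨v', hv'⟩ := hYv
  obtain ⟨v'', hv''⟩ := hYth
  have htr := trunc hc0 hP0 s t ht0 e 1 hw0 (by
    intro l hl
    have := hwe l hl
    exact_mod_cast this)
  rw [← hvP, ← hYdef] at htr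
  have hfd := hT (a * u) v Y v' v'' N (n0 + a.natDegree) hau hv hv' hv'' hN hNc
    (by rw [natDegree_mul ha hu]; omega) (by omega) (by rw [← hgdef]; exact hg0)
  rw [← hgdef] at hfd
  have hlM : lM g = (k - 1 : ℕ) * lM a + lM f := by
    rw [← hrel, lM_mul hak hf, lM_pow ha]
  have hTm := TH_mul ha hu hv
  obtain ⟨T, hTdef⟩ : ∃ T, T = TH (a * u) v := ⟨_, rfl⟩
  have hvT : lM v ≤ T := by rw [hTdef]; exact lM_le_TH _ _
  rw [← hTdef] at hfd hTm
  have hn0R : (1:ℝ) ≤ n0 := by exact_mod_cast hn₂.trans hcase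
  have hln : log ((n0 + a.natDegree : ℕ) : ℝ) - log N ≤ |C'| := by
    refine le_trans ?_ (le_abs_self C')
    rw [hC']
    have ha0 : (0:ℝ) ≤ a.natDegree := Nat.cast_nonneg _
    have h1 : log ((n0 + a.natDegree : ℕ) : ℝ) ≤ log (1 + a.natDegree) + log n0 := by
      rw [← log_mul (by positivity) (by positivity)]
      apply log_le_log (by push_cast; positivity)
      push_cast
      nlinarith
    have h2 : log (δ / 2) + log n0 ≤ log N := by
      rw [← log_mul (by positivity) (by positivity)]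
      exact log_le_log (by positivity) hNn
    linarith
  have hTb : T ≤ B' / E * (1 + lM f) := by
    rw [div_mul_eq_mul_div, le_div_iff₀ hE0]
    have g1 : (kp:ℝ) * (lM v - lM Y) ≤ (kp:ℝ) * (|K| + w * T) := by
      apply mul_le_mul_of_nonneg_left _ hkp0.le
      have h1 : w * lM v ≤ w * T := mul_le_mul_of_nonneg_left hvT hw0
      have h2 := le_abs_self K
      linarith
    have g2 : (kp:ℝ) * (log ((n0 + a.natDegree : ℕ) : ℝ) - log N) ≤ (kp:ℝ) * |C'| :=
      mul_le_mul_of_nonneg_left hln hkp0.le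
    have g3 : T * E ≤ B' + km * lM f := by
      rw [hE, hB']
      rw [hlM] at hfd
      linarith
    have g4 : (km:ℝ) * lM f ≤ B' * lM f := by
      apply mul_le_mul_of_nonneg_right _ hlf
      rw [hB']
      have p1 : 0 ≤ (kp:ℝ) * |K| := by positivity
      have p2 : 0 ≤ (kp:ℝ) * |C'| := by positivity
      have p3 : 0 ≤ (km:ℝ) * ((k - 1 : ℕ) * lM a) := by positivity
      linarith
    linarith
  have hfin : mp (a.map (Int.castRingHom ℂ)) ≤ mp (a.map (Int.castRingHom ℂ)) * (1 + lM f) :=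
    le_mul_of_one_le_right hmpa (by linarith)
  rw [add_mul]
  linarith

/-- **the height is bounded by the measure** -/
theorem T_all {F : ℤ[X][X]} (hF : ∀ (a b c : ℤ[X]) (m : ℕ), F ≠ C c * (C a * X + C b) ^ m)
    (K : ℝ) {δ w : ℝ} (hδ : 0 < δ) (hw0 : 0 ≤ w) (hw : w < 1) :
    ∃ C₁ : ℝ, 0 ≤ C₁ ∧ ∃ n₂ : ℕ, 1 ≤ n₂ ∧
      ∀ (u v P : ℤ[X]) (c : ℤ) (s : Finset ℕ) (t : ℕ → ℤ[X]) (e : ℕ → ℕ), u ≠ 0 → v ≠ 0 →
        v = C c * P * ∏ l ∈ s, t l ^ e l → lM P ≤ K → (∀ l ∈ s, 1 ≤ w * e l) →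
        Pole δ u v → n₂ ≤ max u.natDegree v.natDegree → fv F u v ≠ 0 →
        TH u v ≤ C₁ * (1 + lM (fv F u v)) := by
  classical
  have hF0 : F ≠ 0 := by
    have := hF 0 0 0 0
    simpa using this
  obtain ⟨c₀, S, hc₀, hFe, h1, h2⟩ := factor hF0
  have hs0 : ∀ p ∈ S, p ≠ 0 := fun p hp => (h1 p hp).1.ne_zero
  obtain ⟨G, hG⟩ : ∃ G : ℤ[X][X], G = ∏ p ∈ S.toFinset, p := ⟨_, rfl⟩
  have hGs := sep_T h1 h2
  rw [← hG] at hGs
  have hGm : G = S.toFinset.val.prod := by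
    rw [hG, Finset.prod_eq_multiset_prod, Multiset.map_id']
  have hTs : S.toFinset.val ≤ S := by
    rw [Multiset.toFinset_val]
    exact Multiset.dedup_le S
  have hGd : 2 ≤ G.natDegree := by
    have e1 : G.natDegree = ∑ p ∈ S.toFinset, p.natDegree := by
      rw [hG]
      exact natDegree_prod _ _ fun p hp => hs0 p (Multiset.mem_toFinset.mp hp)
    have e2 : ∀ p ∈ S.toFinset, 1 ≤ p.natDegree := fun p hp => (h1 p (Multiset.mem_toFinset.mp hp)).2
    by_contra hlt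
    rw [e1] at hlt
    have e3 : S.toFinset.card ≤ 1 := by
      have := Finset.card_nsmul_le_sum S.toFinset (fun p => p.natDegree) 1 e2
      rw [smul_eq_mul, mul_one] at this
      omega
    rcases Nat.eq_zero_or_pos S.toFinset.card with h0 | h0
    · rw [Finset.card_eq_zero, Multiset.toFinset_eq_empty] at h0
      apply hF 0 0 c₀ 0
      rw [hFe, h0, Multiset.prod_zero, pow_zero]
    · obtain ⟨p, hp⟩ := Finset.card_eq_one.mp (by omega : S.toFinset.card = 1)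
      have hpd : p.natDegree = 1 := by
        rw [hp, Finset.sum_singleton] at hlt
        have := e2 p (by rw [hp]; exact Finset.mem_singleton_self p)
        omega
      have hsr : S = Multiset.replicate S.card p := by
        rw [Multiset.eq_replicate]
        refine ⟨rfl, ?_⟩
        intro q hq
        have : q ∈ S.toFinset := Multiset.mem_toFinset.mpr hq
        rw [hp] at this
        exact Finset.mem_singleton.mp this
      have hpe : p = C (p.coeff 1) * X + C (p.coeff 0) := eq_X_add_C_of_natDegree_le_one hpd.le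
      apply hF (p.coeff 1) (p.coeff 0) c₀ S.card
      rw [← hpe, hFe]
      conv_lhs => rw [hsr, Multiset.prod_replicate]
  obtain ⟨C₁, hC₁, n₂, hn₂, hT⟩ := T_sep hGd hGs K hδ hw0 hw
  refine ⟨C₁, hC₁, n₂, hn₂, ?_⟩
  intro u v P c s t e hu hv hvP hPK hwe hp hn hf
  have hff : fv F u v = c₀ * (S.map fun p => fv p u v).prod := by
    rw [hFe, fv_mul (by rwa [Ne, C_eq_zero]) (Multiset.prod_ne_zero fun h => hs0 0 h rfl) u hv, fv_C,
      fv_prod u hv S hs0]
  have hgg : fv G u v = (S.toFinset.val.map fun p => fv p u v).prod := by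
    rw [hGm, fv_prod u hv _ fun p hp => hs0 p (Multiset.mem_of_le hTs hp)]
  have hdvd : fv G u v ∣ fv F u v := by
    rw [hgg, hff]
    obtain ⟨t, ht⟩ := Multiset.le_iff_exists_add.mp hTs
    conv_rhs => rw [ht]
    rw [Multiset.map_add, Multiset.prod_add]
    exact Dvd.dvd.mul_left (Dvd.intro _ rfl) _
  obtain ⟨R, hR⟩ := hdvd
  have hg0 : fv G u v ≠ 0 := by
    intro h0
    rw [h0, zero_mul] at hR
    exact hf hR
  have hR0 : R ≠ 0 := by
    intro h0
    rw [h0, mul_zero] at hR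
    exact hf hR
  have hle : lM (fv G u v) ≤ lM (fv F u v) := by
    rw [hR, lM_mul hg0 hR0]
    have := lM_nonneg hR0
    linarith
  refine (hT u v P c s t e hu hv hvP hPK hwe hp hn hg0).trans ?_
  exact mul_le_mul_of_nonneg_left (by linarith) hC₁

/-- **the gap for divisors of values at rational functions** -/
theorem gap_div {F : ℤ[X][X]} (hF : ∀ (a b c : ℤ[X]) (m : ℕ), F ≠ C c * (C a * X + C b) ^ m)
    (K : ℝ) {δ w : ℝ} (hδ : 0 < δ) (hw0 : 0 ≤ w) (hw : w < 1) : ∃ μ : ℝ, 1 < μ ∧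
      ∀ (u v f R P : ℤ[X]) (c : ℤ) (s : Finset ℕ) (t : ℕ → ℤ[X]) (e : ℕ → ℕ) (j : ℕ),
        u ≠ 0 → v ≠ 0 → f ≠ 0 → R ≠ 0 → f * R = X ^ j * fv F u v →
        mp (R.map (Int.castRingHom ℂ)) ≤ K →
        v = C c * P * ∏ l ∈ s, t l ^ e l → lM P ≤ K → (∀ l ∈ s, 1 ≤ w * e l) → Pole δ u v →
        (∀ z : ℂ, 1 < ‖z‖ → aeval z f = 0 → aeval z u ≠ 0 ∨ aeval z v ≠ 0) →
        (f.map (Int.castRingHom ℂ)).mahlerMeasure = 1 ∨
          μ ≤ (f.map (Int.castRingHom ℂ)).mahlerMeasure := by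
  obtain ⟨C₁, hC₁, n₂, hn₂, hT⟩ := T_all hF K hδ hw0 hw
  obtain ⟨K₀, hK₀, hprox⟩ := prox_div (F := F)
  obtain ⟨κ, hκdef⟩ : ∃ κ, κ = F.natDegree := ⟨_, rfl⟩
  rw [← hκdef] at hprox
  obtain ⟨D, hD⟩ : ∃ D, D = ∑ i ∈ Finset.range (F.natDegree + 1), (F.coeff i).natDegree := ⟨_, rfl⟩
  obtain ⟨μ₁, hμ₁, hgap1⟩ := gap_deg_div (D + κ * n₂)
  obtain ⟨μ₂, hμ₂, hgap2⟩ := gap_multi (K + K₀ + κ * (C₁ * (2 + K)))
  have he1 : (1:ℝ) < exp 1 := by
    have := add_one_lt_exp (one_ne_zero (α := ℝ))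
    linarith
  refine ⟨min (min μ₁ μ₂) (exp 1), lt_min (lt_min hμ₁ hμ₂) he1, ?_⟩
  intro u v f R P c s t e j hu hv hf hR hfR hRK hvP hPK hwe hp hz
  have hM : (f.map (Int.castRingHom ℂ)).mahlerMeasure = exp (lM f) := (exp_log (mahler_pos hf)).symm
  by_cases hm : 1 < lM f
  · right
    rw [hM]
    exact (min_le_right _ _).trans (exp_le_exp.mpr hm.le)
  rw [not_lt] at hm
  have hg : fv F u v ≠ 0 := by
    intro h0
    rw [h0, mul_zero] at hfR
    exact mul_ne_zero hf hR hfR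
  by_cases hcase : n₂ ≤ max u.natDegree v.natDegree
  · have hTuv := hT u v P c s t e hu hv hvP hPK hwe hp hcase hg
    have hlg : lM (fv F u v) ≤ 1 + K := by
      have h1 := congrArg lM hfR
      rw [lM_mul hf hR, lM_mul (pow_ne_zero _ X_ne_zero) hg, lM_X, zero_add] at h1
      have h2 := lM_le_mp R
      linarith
    have hTb : TH u v ≤ C₁ * (2 + K) :=
      hTuv.trans (mul_le_mul_of_nonneg_left (by linarith) hC₁)
    have hprox' : ∀ q : ℤ[X], (q = u ^ κ ∨ q = v ^ κ) → prox f q ≤ K + K₀ + κ * (C₁ * (2 + K)) := by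
      intro q hq
      have h1 := hprox u v f R q j hu hv hf hR hfR hq
      have h2 : (κ:ℝ) * TH u v ≤ κ * (C₁ * (2 + K)) := mul_le_mul_of_nonneg_left hTb (Nat.cast_nonneg _)
      linarith
    rcases hgap2 f 2 ![u ^ κ, v ^ κ] hf (by
        intro i
        fin_cases i
        · exact hprox' _ (Or.inl rfl)
        · exact hprox' _ (Or.inr rfl)) (by
        intro z hz1 hz2
        rcases hz z hz1 hz2 with h | h
        · refine ⟨0, ?_⟩
          show aeval z (u ^ κ) ≠ 0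
          rw [map_pow]
          exact pow_ne_zero _ h
        · refine ⟨1, ?_⟩
          show aeval z (v ^ κ) ≠ 0
          rw [map_pow]
          exact pow_ne_zero _ h) with h | h
    · exact Or.inl h
    · right
      exact ((min_le_left _ _).trans (min_le_right _ _)).trans h
  · rw [not_le] at hcase
    have hfd : (fv F u v).natDegree ≤ D + κ * n₂ := by
      rw [hD, hκdef]
      exact fv_deg F (by omega) (by omega)
    rcases hgap1 f R (fv F u v) j hf hR hfR hfd with h | h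
    · exact Or.inl h
    · right
      exact ((min_le_left _ _).trans (min_le_left _ _)).trans h

/-- **the gap for divisors of values at Laurent polynomials and at rational functions** -/
theorem gap_final {F : ℤ[X][X]} (hF : ∀ (a b c : ℤ[X]) (m : ℕ), F ≠ C c * (C a * X + C b) ^ m)
    (K : ℝ) {δ w : ℝ} (hδ : 0 < δ) (hw0 : 0 ≤ w) (hw : w < 1) : ∃ μ : ℝ, 1 < μ ∧
      ∀ (u v f R : ℤ[X]), f ≠ 0 → R ≠ 0 → f * R = fv F u v →
        mp (R.map (Int.castRingHom ℂ)) ≤ K →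
        ((∃ e : ℕ, v = X ^ e) ∨ (u ≠ 0 ∧ v ≠ 0 ∧ Pole δ u v ∧
          (∃ (P : ℤ[X]) (c : ℤ) (s : Finset ℕ) (t : ℕ → ℤ[X]) (e : ℕ → ℕ),
            v = C c * P * ∏ l ∈ s, t l ^ e l ∧ lM P ≤ K ∧ ∀ l ∈ s, 1 ≤ w * e l) ∧
          ∀ z : ℂ, 1 < ‖z‖ → aeval z f = 0 → aeval z u ≠ 0 ∨ aeval z v ≠ 0)) →
        (f.map (Int.castRingHom ℂ)).mahlerMeasure = 1 ∨
          μ ≤ (f.map (Int.castRingHom ℂ)).mahlerMeasure := by
  obtain ⟨μ₁, hμ₁, h₁⟩ := gap_div hF K hδ hw0 hw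
  obtain ⟨μ₂, hμ₂, h₂⟩ := gap_div hF K (show (0:ℝ) < 1 / 2 by norm_num) hw0 hw
  obtain ⟨μ₃, hμ₃, h₃⟩ := gap_deg_div (F.coeff 0).natDegree
  refine ⟨min (min μ₁ μ₂) μ₃, lt_min (lt_min hμ₁ hμ₂) hμ₃, ?_⟩
  intro u v f R hf hR hfR hRK hcase
  rcases hcase with ⟨e₀, rfl⟩ | ⟨hu, hv, hp, ⟨P, c, s, t, e, hvP, hPK, hwe⟩, hz⟩
  · obtain ⟨j, u', e', hu', he', hu0⟩ := norm_exists e₀ u
    have hrel : f * R = X ^ (j * F.natDegree) * fv F u' (X ^ e') := by
      rw [hfR, hu', he', add_comm, pow_add, fv_X]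
    by_cases hu1 : u' = 0
    · have he1 : e' = 0 := by
        rcases hu0 with h | h
        · exact h
        · rw [hu1] at h
          simp at h
      rw [hu1, he1, fv_zero, pow_zero, one_pow, mul_one] at hrel
      rcases h₃ f R (F.coeff 0) _ hf hR hrel le_rfl with h | h
      · exact Or.inl h
      · exact Or.inr ((min_le_right _ _).trans h)
    · have hK0 : 0 ≤ K := (mp_nonneg _).trans hRK
      have hpole : Pole (1 / 2) u' (X ^ e') := by
        unfold Pole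
        rw [natDegree_X_pow, natTrailingDegree_X_pow]
        by_cases h : 2 * e' ≤ u'.natDegree
        · left
          have h1 : max u'.natDegree e' = u'.natDegree := by omega
          rw [h1]
          have h2 : 2 * (e' : ℝ) ≤ u'.natDegree := by exact_mod_cast h
          linarith
        · right
          have h1 : u'.natTrailingDegree = 0 := by
            rcases hu0 with h3 | h3
            · omega
            · exact natTrailingDegree_eq_zero.mpr (Or.inr h3)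
          have h2 : max u'.natDegree e' ≤ 2 * e' := by omega
          have h3 : ((max u'.natDegree e' : ℕ) : ℝ) ≤ 2 * e' := by exact_mod_cast h2
          rw [h1]
          push_cast at h3 ⊢
          linarith
      rcases h₂ u' (X ^ e') f R (X ^ e') 1 ∅ (fun _ => 1) (fun _ => 1) _ hu1
        (pow_ne_zero _ X_ne_zero) hf hR hrel hRK (by simp) (by rw [lM_X]; exact hK0)
        (by simp) hpole (by
          intro z hz _
          right
          rw [map_pow, aeval_X]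
          apply pow_ne_zero
          rintro rfl
          rw [norm_zero] at hz
          linarith) with h | h
      · exact Or.inl h
      · exact Or.inr (((min_le_left _ _).trans (min_le_right _ _)).trans h)
  · rcases h₁ u v f R P c s t e 0 hu hv hf hR (by rw [pow_zero, one_mul]; exact hfR) hRK hvP hPK hwe hp
      hz with h | h
    · exact Or.inl h
    · exact Or.inr (((min_le_left _ _).trans (min_le_left _ _)).trans h)

end Pool.Agent.Zk21.Mx
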