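import Mathlib
import Pool.Agent.Zk21.MvG

/-!
# Moving targets, uniformly: the roots at a point
-/

set_option autoImplicit false

open Polynomial Metric Set Filter Topology

namespace Pool.Agent.Zk21.My


open Pool.Agent.Zk21.Mv

/-- the resultant with the derivative -/
noncomputable def dR (F : ℤ[X][X]) : ℤ[X] :=
  resultant F (derivative F) F.natDegree (derivative F).natDegree

lemma dR_bez {F : ℤ[X][X]} (hk : 0 < F.natDegree) :
    ∃ P Q : ℤ[X][X], P * F + Q * derivative F = C (dR F) := by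
  obtain ⟨p, q, -, -, h⟩ := exists_mul_add_mul_eq_C_resultant F (derivative F)
    (m := F.natDegree) (n := (derivative F).natDegree) le_rfl le_rfl (Or.inl hk.ne')
  refine ⟨p, q, ?_⟩
  unfold dR
  rw [← h]
  ring

lemma dR_eval {F : ℤ[X][X]} (hF : F.Monic) (x : ℂ) :
    ev x (dR F) = ((F.map (ev x)).roots.map (derivative (F.map (ev x))).eval).prod := by
  have hm : (F.map (ev x)).Monic := hF.map _
  unfold dR
  rw [← resultant_map_map]
  have h := resultant_eq_prod_eval (F.map (ev x)) ((derivative F).map (ev x))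
    (derivative F).natDegree natDegree_map_le (IsAlgClosed.splits _)
  rw [hm.leadingCoeff, one_pow, one_mul, natDegree_map_ev hF] at h
  rw [h, ← derivative_map]

lemma dR_ne {F : ℤ[X][X]}
    (hs : (F.map (algebraMap ℤ[X] (FractionRing ℤ[X]))).Separable) : dR F ≠ 0 := by
  intro h0
  have hinj := IsFractionRing.injective ℤ[X] (FractionRing ℤ[X])
  have h1 := congrArg (algebraMap ℤ[X] (FractionRing ℤ[X])) h0
  unfold dR at h1
  rw [← resultant_map_map, map_zero] at h1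
  have h2 := resultant_ne_zero _ _ hs
  apply h2
  rw [derivative_map, natDegree_map_eq_of_injective hinj, natDegree_map_eq_of_injective hinj]
  exact h1

/-- the bounds for the roots at a point, with a factor for the derivation -/
structure GeoL (F : ℤ[X][X]) (x : ℂ) (A b Λ : ℝ) : Prop where
  hA : 1 ≤ A
  hb : 1 ≤ b
  nodup : (F.map (ev x)).roots.Nodup
  bd : ∀ α ∈ (F.map (ev x)).roots, ‖α‖ ≤ A
  sep : ∀ α ∈ (F.map (ev x)).roots, ∀ β ∈ (F.map (ev x)).roots, α ≠ β → 1 ≤ A * ‖α - β‖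
  der : ∀ α ∈ (F.map (ev x)).roots, 1 ≤ A * ‖(derivative (F.map (ev x))).eval α‖
  gb : ∀ α ∈ (F.map (ev x)).roots, ‖(derivative (F.map (ev x))).eval α‖ ≤ b
  hh : ∀ α ∈ (F.map (ev x)).roots, ‖((FD F).map (ev x)).eval α‖ ≤ b * Λ
  lg : ∀ α ∈ (F.map (ev x)).roots, ∀ z : ℂ, ‖z‖ ≤ 2 * A →
    ‖(derivative (F.map (ev x))).eval z - (derivative (F.map (ev x))).eval α‖ ≤ b * ‖z - α‖
  lh : ∀ α ∈ (F.map (ev x)).roots, ∀ z : ℂ, ‖z‖ ≤ 2 * A →
    ‖((FD F).map (ev x)).eval z - ((FD F).map (ev x)).eval α‖ ≤ (b * Λ) * ‖z - α‖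
  rb : ∀ α ∈ (F.map (ev x)).roots, ∀ β ∈ (F.map (ev x)).roots, ‖rr F x α β‖ ≤ b * Λ

lemma norm_mprod (s : Multiset ℂ) (f : ℂ → ℂ) {t : ℝ} (ht : 0 ≤ t) (h : ∀ α ∈ s, ‖f α‖ ≤ t) :
    ‖(s.map f).prod‖ ≤ t ^ s.card := by
  induction s using Multiset.induction_on with
  | empty => simp
  | cons a s ih =>
    rw [Multiset.map_cons, Multiset.prod_cons, norm_mul, Multiset.card_cons, pow_succ, mul_comm (t ^ _)]
    exact mul_le_mul (h a (Multiset.mem_cons_self a s))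
      (ih fun α hα => h α (Multiset.mem_cons_of_mem hα)) (norm_nonneg _) ht

theorem geoU (k : ℕ) : ∃ C₀ : ℝ, 1 ≤ C₀ ∧ ∃ c : ℕ, ∀ F : ℤ[X][X], F.Monic → F.natDegree = k →
    ∀ (x : ℂ) (W Λ : ℝ), 1 ≤ W → 1 ≤ Λ → (∀ i, ‖(F.map (ev x)).coeff i‖ ≤ W) →
    (∀ i, ‖((FD F).map (ev x)).coeff i‖ ≤ W * Λ) → 1 ≤ W * ‖ev x (dR F)‖ →
    ∃ A b : ℝ, GeoL F x A b Λ ∧ A ≤ C₀ * W ^ c ∧ b ≤ C₀ * W ^ c := by
  have hk0 : (0:ℝ) ≤ k := Nat.cast_nonneg _
  obtain ⟨Ct, hCt⟩ : ∃ Ct : ℝ, Ct = ((k:ℝ) + 1) ^ 3 * ((k:ℝ) + 1) ^ k := ⟨_, rfl⟩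
  obtain ⟨CA, hCA⟩ : ∃ CA : ℝ, CA = Ct * Ct ^ k := ⟨_, rfl⟩
  obtain ⟨cA, hcA⟩ : ∃ cA : ℕ, cA = (1 + k) + (1 + (1 + k) * k) := ⟨_, rfl⟩
  obtain ⟨CB, hCB⟩ : ∃ CB : ℝ, CB = 2 * CA * (((k:ℝ) + 1) ^ 3 * (2 * CA) ^ k) ^ 2 := ⟨_, rfl⟩
  obtain ⟨cB, hcB⟩ : ∃ cB : ℕ, cB = cA + 2 * (1 + cA * k) := ⟨_, rfl⟩
  have hk1 : (1:ℝ) ≤ (k:ℝ) + 1 := by linarith
  have hk3 : 1 ≤ ((k:ℝ) + 1) ^ 3 := one_le_pow₀ hk1
  have hCt1 : 1 ≤ Ct := by
    rw [hCt]
    exact o1 hk3 (one_le_pow₀ hk1)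
  have hCA1 : 1 ≤ CA := by
    rw [hCA]
    exact o1 hCt1 (one_le_pow₀ hCt1)
  have hCB0 : 0 ≤ CB := by
    rw [hCB]
    positivity
  refine ⟨CA + CB, by linarith, cA + cB, ?_⟩
  intro F hF hFk x W Λ hW hΛ hg hh hr
  set g : ℂ[X] := F.map (ev x) with hgdef
  set h : ℂ[X] := (FD F).map (ev x) with hhdef
  have hgm : g.Monic := hF.map _
  have hgd : g.natDegree = k := by rw [← hFk]; exact natDegree_map_ev hF x
  have hgd' : g.natDegree ≤ k := hgd.le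
  have hhd : h.natDegree ≤ k := by
    rw [← hFk]
    exact natDegree_map_le.trans (FD_deg F)
  have hW0 : 0 ≤ W := by linarith
  have hΛ0 : 0 ≤ Λ := by linarith
  obtain ⟨A₁, hA₁⟩ : ∃ A₁ : ℝ, A₁ = ((k:ℝ) + 1) * W := ⟨_, rfl⟩
  have hA11 : 1 ≤ A₁ := by
    rw [hA₁]
    exact o1 hk1 hW
  obtain ⟨t, ht⟩ : ∃ t : ℝ, t = ((k:ℝ) + 1) ^ 3 * W * A₁ ^ k := ⟨_, rfl⟩
  obtain ⟨s, hs⟩ : ∃ s : ℝ, s = W * t ^ k := ⟨_, rfl⟩
  obtain ⟨A, hA⟩ : ∃ A : ℝ, A = t * s := ⟨_, rfl⟩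
  have hAk : 1 ≤ A₁ ^ k := one_le_pow₀ hA11
  obtain ⟨cu1, cu2, cu3⟩ := cub hk0
  have ht1 : A₁ ≤ t := by
    have e2 : A₁ ≤ ((k:ℝ) + 1) ^ 3 * W := by
      rw [hA₁]
      exact mul_le_mul_of_nonneg_right cu1 (by linarith)
    have e3 : 0 ≤ ((k:ℝ) + 1) ^ 3 * W := by positivity
    rw [ht]
    exact e2.trans (o3 hAk e3)
  have ht11 : 1 ≤ t := hA11.trans ht1
  have hs1 : 1 ≤ s := by
    rw [hs]
    exact o1 hW (one_le_pow₀ ht11)
  have hA1 : A₁ ≤ A := by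
    rw [hA]
    exact ht1.trans (o3 hs1 (by linarith))
  have hAge : 1 ≤ A := hA11.trans hA1
  have hroot : ∀ α ∈ g.roots, g.eval α = 0 := fun α hα => (mem_roots'.mp hα).2
  have hbd1 : ∀ α ∈ g.roots, ‖α‖ ≤ A₁ := by
    intro α hα
    have := root_bound hgm hW hg (hroot α hα)
    rw [hgd] at this
    rw [hA₁]
    exact this
  have hrne : ev x (dR F) ≠ 0 := by
    intro h0
    rw [h0, norm_zero, mul_zero] at hr
    linarith
  -- the derivative at the roots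
  have hder0 : ∀ α ∈ g.roots, ‖(derivative g).eval α‖ ≤ t := by
    intro α hα
    refine (pb (der_deg hgd') (pb_der hgd' hg) hA11 (hbd1 α hα)).trans ?_
    rw [ht]
    apply mul_le_mul_of_nonneg_right _ (by positivity)
    have : ((k:ℝ) + 1) * (k * W) = (((k:ℝ) + 1) * k) * W := by ring
    rw [this]
    exact mul_le_mul_of_nonneg_right cu2 (by linarith)
  have hder1 : ∀ α ∈ g.roots, 1 ≤ s * ‖(derivative g).eval α‖ := by
    classical
    intro α hα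
    have e0 := dR_eval hF x
    rw [← hgdef, ← Multiset.cons_erase hα, Multiset.map_cons, Multiset.prod_cons] at e0
    have e1 : ‖((g.roots.erase α).map (derivative g).eval).prod‖ ≤ t ^ k := by
      refine (norm_mprod _ _ (by linarith) fun β hβ => hder0 β (Multiset.mem_of_mem_erase hβ)).trans ?_
      apply pow_le_pow_right₀ ht11
      have h1 := Multiset.card_le_card (Multiset.erase_le α g.roots)
      have h2 := card_roots' g
      omega
    have e2 : ‖ev x (dR F)‖ ≤ ‖(derivative g).eval α‖ * t ^ k := by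
      rw [e0, norm_mul]
      exact mul_le_mul_of_nonneg_left e1 (norm_nonneg _)
    calc 1 ≤ W * ‖ev x (dR F)‖ := hr
      _ ≤ W * (‖(derivative g).eval α‖ * t ^ k) := mul_le_mul_of_nonneg_left e2 (by linarith)
      _ = _ := by rw [hs]; ring
  have hsep : ∀ α ∈ g.roots, ∀ β ∈ g.roots, α ≠ β → 1 ≤ A * ‖α - β‖ := by
    intro α hα β hβ hne
    have e1 := lip2 hgd' hg hA11 (hbd1 α hα) (hbd1 β hβ) (hroot α hα) (hroot β hβ) hne
    have e2 : ((k:ℝ) + 1) * (k * (k * W)) * A₁ ^ k ≤ t := by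
      rw [ht]
      apply mul_le_mul_of_nonneg_right _ (by positivity)
      have : ((k:ℝ) + 1) * (k * (k * W)) = (((k:ℝ) + 1) * (k * k)) * W := by ring
      rw [this]
      exact mul_le_mul_of_nonneg_right cu3 (by linarith)
    have e3 : ‖(derivative g).eval α‖ ≤ t * ‖α - β‖ :=
      e1.trans (mul_le_mul_of_nonneg_right e2 (norm_nonneg _))
    calc 1 ≤ s * ‖(derivative g).eval α‖ := hder1 α hα
      _ ≤ s * (t * ‖α - β‖) := mul_le_mul_of_nonneg_left e3 (by linarith)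
      _ = _ := by rw [hA]; ring
  have hnd : g.roots.Nodup := by
    rw [Multiset.nodup_iff_count_le_one]
    intro α
    by_contra hc
    rw [not_le, count_roots] at hc
    have hα : α ∈ g.roots := by
      rw [mem_roots hgm.ne_zero]
      exact (rootMultiplicity_pos hgm.ne_zero).mp (by omega)
    have h1 : (derivative g).eval α = 0 := by
      have h2 := (one_lt_rootMultiplicity_iff_isRoot hgm.ne_zero).mp hc
      exact h2.2
    have h2 := hder1 α hα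
    rw [h1, norm_zero, mul_zero] at h2
    linarith
  obtain ⟨b₂, hb₂⟩ : ∃ b₂ : ℝ, b₂ = ((k:ℝ) + 1) ^ 3 * W * (2 * A) ^ k := ⟨_, rfl⟩
  have h2A : 1 ≤ 2 * A := by linarith
  have h2Ak : 0 ≤ (2 * A) ^ k := by positivity
  have hb21 : 1 ≤ b₂ := by
    rw [hb₂]
    exact o1 (o1 hk3 hW) (one_le_pow₀ h2A)
  have hc1 : ((k:ℝ) + 1) * W * (2 * A) ^ k ≤ b₂ := by
    rw [hb₂]
    apply mul_le_mul_of_nonneg_right _ h2Ak
    exact mul_le_mul_of_nonneg_right cu1 (by linarith)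
  have hc2 : ((k:ℝ) + 1) * (k * W) * (2 * A) ^ k ≤ b₂ := by
    rw [hb₂]
    apply mul_le_mul_of_nonneg_right _ h2Ak
    have : ((k:ℝ) + 1) * (k * W) = (((k:ℝ) + 1) * k) * W := by ring
    rw [this]
    exact mul_le_mul_of_nonneg_right cu2 (by linarith)
  have hc3 : ((k:ℝ) + 1) * (k * (k * W)) * (2 * A) ^ k ≤ b₂ := by
    rw [hb₂]
    apply mul_le_mul_of_nonneg_right _ h2Ak
    have : ((k:ℝ) + 1) * (k * (k * W)) = (((k:ℝ) + 1) * (k * k)) * W := by ring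
    rw [this]
    exact mul_le_mul_of_nonneg_right cu3 (by linarith)
  have hbd2 : ∀ α ∈ g.roots, ‖α‖ ≤ 2 * A := fun α hα => (hbd1 α hα).trans (by linarith)
  have v1 : ∀ α ∈ g.roots, ‖(derivative g).eval α‖ ≤ b₂ := fun α hα =>
    (pb (der_deg hgd') (pb_der hgd' hg) h2A (hbd2 α hα)).trans hc2
  have hc1Λ : ((k:ℝ) + 1) * (W * Λ) * (2 * A) ^ k ≤ b₂ * Λ := by
    have := mul_le_mul_of_nonneg_right hc1 hΛ0
    refine le_trans (le_of_eq ?_) this
    ring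
  have hc2Λ : ((k:ℝ) + 1) * (k * (W * Λ)) * (2 * A) ^ k ≤ b₂ * Λ := by
    have := mul_le_mul_of_nonneg_right hc2 hΛ0
    refine le_trans (le_of_eq ?_) this
    ring
  have v2 : ∀ α ∈ g.roots, ‖h.eval α‖ ≤ b₂ * Λ := fun α hα => (pb hhd hh h2A (hbd2 α hα)).trans hc1Λ
  have v3 : ∀ α ∈ g.roots, ‖(derivative h).eval α‖ ≤ b₂ * Λ := fun α hα =>
    (pb (der_deg hhd) (pb_der hhd hh) h2A (hbd2 α hα)).trans hc2Λ
  have v4 : ∀ α ∈ g.roots, ‖(derivative (derivative g)).eval α‖ ≤ b₂ := fun α hα =>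
    (pb (der_deg (der_deg hgd')) (pb_der (der_deg hgd') (pb_der hgd' hg)) h2A (hbd2 α hα)).trans hc3
  obtain ⟨b, hb⟩ : ∃ b : ℝ, b = 2 * A * b₂ ^ 2 := ⟨_, rfl⟩
  have hb2sq : b₂ ≤ b₂ ^ 2 := le_self_pow₀ hb21 two_ne_zero
  have hbb2 : b₂ ≤ b := by
    rw [hb]
    exact hb2sq.trans (o2 h2A (sq_nonneg _))
  have hA1' : A₁ = ((k:ℝ) + 1) * W := hA₁
  have et : t = Ct * W ^ (1 + k) := by
    rw [ht, hCt, hA₁, mul_pow ((k:ℝ) + 1) W k, pow_add, pow_one]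
    ring
  have e1 : A = CA * W ^ cA := by
    rw [hA, hs, et, hCA, hcA, mul_pow Ct (W ^ (1 + k)) k, ← pow_mul]
    generalize Ct ^ k = z₁
    ring
  have e2 : b = CB * W ^ cB := by
    rw [hb, hb₂, hCB, hcB, e1]
    have : 2 * (CA * W ^ cA) = (2 * CA) * W ^ cA := by ring
    rw [this, mul_pow ((2 : ℝ) * CA), ← pow_mul]
    generalize (2 * CA) ^ k = z₁
    ring
  refine ⟨A, b, ⟨hAge, hb21.trans hbb2, hnd, fun α hα => (hbd1 α hα).trans hA1, hsep, ?_,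
    fun α hα => (v1 α hα).trans hbb2, fun α hα => (v2 α hα).trans
      (mul_le_mul_of_nonneg_right hbb2 hΛ0), ?_, ?_, ?_⟩, ?_, ?_⟩
  · intro α hα
    have e1 := hder1 α hα
    have e2 : s ≤ A := by
      rw [hA]
      exact o2 ht11 (by linarith)
    exact e1.trans (mul_le_mul_of_nonneg_right e2 (norm_nonneg _))
  · intro α hα z hz
    exact (lip (der_deg hgd') (pb_der hgd' hg) h2A hz (hbd2 α hα)).trans
      (mul_le_mul_of_nonneg_right (hc3.trans hbb2) (norm_nonneg _))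
  · intro α hα z hz
    exact (lip hhd hh h2A hz (hbd2 α hα)).trans
      (mul_le_mul_of_nonneg_right (hc2Λ.trans (mul_le_mul_of_nonneg_right hbb2 hΛ0)) (norm_nonneg _))
  · intro α hα β hβ
    have hprod : ∀ u v : ℂ, ‖u‖ ≤ b₂ → ‖v‖ ≤ b₂ * Λ → ‖u * v‖ ≤ b₂ ^ 2 * Λ := by
      intro u v hu hv
      rw [norm_mul]
      refine (mul_le_mul hu hv (norm_nonneg _) (by linarith)).trans (le_of_eq (by ring))
    by_cases hne : α = β
    · rw [← hne, rr_diag]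
      refine (norm_sub_le _ _).trans ?_
      have e1 := hprod _ _ (v1 α hα) (v3 α hα)
      have e2 := hprod _ _ (v4 α hα) (v2 α hα)
      rw [mul_comm ((derivative (derivative (F.map (ev x)))).eval α)] at e2
      have e3 : b₂ ^ 2 * Λ + b₂ ^ 2 * Λ ≤ b * Λ := by
        rw [hb]
        have h0 : 0 ≤ b₂ ^ 2 * Λ := by positivity
        have := o2 hAge h0
        linarith
      exact (add_le_add e1 e2).trans e3
    · have e1 := rr_rel F x α β
      have e2 : ‖(β - α) * rr F x α β‖ ≤ b₂ ^ 2 * Λ + b₂ ^ 2 * Λ := by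
        rw [e1]
        refine (norm_sub_le _ _).trans (add_le_add (hprod _ _ (v1 α hα) (v2 β hβ)) ?_)
        rw [mul_comm]
        exact hprod _ _ (v1 β hβ) (v2 α hα)
      have e3 := hsep α hα β hβ hne
      rw [norm_mul, norm_sub_rev] at e2
      calc ‖rr F x α β‖ = 1 * ‖rr F x α β‖ := (one_mul _).symm
        _ ≤ (A * ‖α - β‖) * ‖rr F x α β‖ := mul_le_mul_of_nonneg_right e3 (norm_nonneg _)
        _ = A * (‖α - β‖ * ‖rr F x α β‖) := by ring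
        _ ≤ A * (b₂ ^ 2 * Λ + b₂ ^ 2 * Λ) := mul_le_mul_of_nonneg_left e2 (by linarith)
        _ = b * Λ := by rw [hb]; ring
  · rw [e1]
    exact mul_le_mul (by linarith) (pow_le_pow_right₀ hW (by omega)) (by positivity) (by linarith)
  · rw [e2]
    exact mul_le_mul (by linarith) (pow_le_pow_right₀ hW (by omega)) (by positivity) (by linarith)

lemma GeoL.geo {F : ℤ[X][X]} {x : ℂ} {A b : ℝ} (h : GeoL F x A b 1) : Geo F x A b := by
  obtain ⟨h1, h2, h3, h4, h5, h6, h7, h8, h9, h10, h11⟩ := h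
  rw [mul_one] at h8 h10 h11
  exact ⟨h1, h2, h3, h4, h5, h6, h7, h8, h9, h10, h11⟩

end Pool.Agent.Zk21.My
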