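import Mathlib
import Pool.Agent.Zk21.MyA

/-!
# Moving targets, uniformly: the logarithmic derivatives near the two places
-/

set_option autoImplicit false

open Polynomial Metric Set Filter Topology

namespace Pool.Agent.Zk21.My

open Pool.Agent.Zk21.Mv

lemma det_deg {n : ℕ} (A : Matrix (Fin n) (Fin n) ℤ[X]) {d : ℕ}
    (h : ∀ i j, (A i j).natDegree ≤ d) : A.det.natDegree ≤ n * d := by
  rw [Matrix.det_apply']
  apply natDegree_sum_le_of_forall_le
  intro σ _
  refine natDegree_mul_le.trans ?_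
  rw [natDegree_intCast, zero_add]
  refine (natDegree_prod_le _ _).trans ?_
  refine (Finset.sum_le_sum fun i _ => h (σ i) i).trans ?_
  rw [Finset.sum_const, Finset.card_univ, Fintype.card_fin, smul_eq_mul]

lemma dR_deg {F : ℤ[X][X]} {d : ℕ} (hd : ∀ i, (F.coeff i).natDegree ≤ d) :
    (dR F).natDegree ≤ (2 * F.natDegree) * d := by
  unfold dR resultant
  refine (det_deg _ (d := d) ?_).trans ?_
  · intro i j
    have hd' : ∀ i, ((derivative F).coeff i).natDegree ≤ d := by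
      intro i
      rw [coeff_derivative]
      have h1 : ((i : ℤ[X]) + 1) = C ((i : ℤ) + 1) := by simp
      rw [h1, mul_comm]
      exact (natDegree_C_mul_le _ _).trans (hd _)
    unfold sylvester
    rw [Matrix.of_apply]
    refine Fin.addCases (fun j₁ => ?_) (fun j₁ => ?_) j
    · rw [Fin.addCases_left]
      split_ifs
      · exact hd' _
      · simp
    · rw [Fin.addCases_right]
      split_ifs
      · exact hd _
      · simp
  · apply Nat.mul_le_mul_right
    have := natDegree_derivative_le F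
    omega

lemma pt_growth {P : ℤ[X]} {d : ℕ} (hd : P.natDegree ≤ d) {x : ℂ} {W : ℝ} (hW : 1 ≤ W)
    (hx : ‖x‖ ≤ W) : ‖ev x P‖ ≤ (∑ j ∈ Finset.range (d + 1), |(P.coeff j : ℝ)|) * W ^ d := by
  rw [ev_eq, eval_map, eval₂_eq_sum_range' _ (Nat.lt_succ_of_le hd), Finset.sum_mul]
  refine (norm_sum_le _ _).trans (Finset.sum_le_sum fun j hj => ?_)
  rw [Finset.mem_range] at hj
  rw [norm_mul, norm_pow, eq_intCast, Complex.norm_intCast]
  apply mul_le_mul_of_nonneg_left _ (abs_nonneg _)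
  exact (pow_le_pow_left₀ (norm_nonneg _) hx j).trans (pow_le_pow_right₀ hW (by omega))

lemma coef_growth {F : ℤ[X][X]} {d : ℕ} (hd : ∀ i, (F.coeff i).natDegree ≤ d) : ∃ L : ℝ, 1 ≤ L ∧
    ∀ (x : ℂ) (W : ℝ), 1 ≤ W → ‖x‖ ≤ W → ∀ i, ‖(F.map (ev x)).coeff i‖ ≤ L * W ^ d := by
  refine ⟨1 + ∑ i ∈ Finset.range (F.natDegree + 1),
    ∑ j ∈ Finset.range (d + 1), |((F.coeff i).coeff j : ℝ)|, ?_, ?_⟩
  · have : 0 ≤ ∑ i ∈ Finset.range (F.natDegree + 1),
      ∑ j ∈ Finset.range (d + 1), |((F.coeff i).coeff j : ℝ)| := by positivity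
    linarith
  intro x W hW hx i
  have hWd : 0 ≤ W ^ d := by positivity
  rw [coeff_map]
  by_cases hi : i ∈ Finset.range (F.natDegree + 1)
  · refine (pt_growth (hd i) hW hx).trans ?_
    apply mul_le_mul_of_nonneg_right _ hWd
    have h1 : ∑ j ∈ Finset.range (d + 1), |((F.coeff i).coeff j : ℝ)| ≤
        ∑ i ∈ Finset.range (F.natDegree + 1),
          ∑ j ∈ Finset.range (d + 1), |((F.coeff i).coeff j : ℝ)| :=
      Finset.single_le_sum (f := fun i => ∑ j ∈ Finset.range (d + 1), |((F.coeff i).coeff j : ℝ)|)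
        (fun _ _ => Finset.sum_nonneg fun _ _ => abs_nonneg _) hi
    linarith
  · have h0 : F.coeff i = 0 := by
      apply coeff_eq_zero_of_natDegree_lt
      rw [Finset.mem_range] at hi
      omega
    rw [h0, map_zero, norm_zero]
    have : 0 ≤ ∑ i ∈ Finset.range (F.natDegree + 1),
      ∑ j ∈ Finset.range (d + 1), |((F.coeff i).coeff j : ℝ)| := by positivity
    positivity

lemma FD_cdeg {F : ℤ[X][X]} {d : ℕ} (hd : ∀ i, (F.coeff i).natDegree ≤ d) (i : ℕ) :
    ((FD F).coeff i).natDegree ≤ d := by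
  rw [FD_coeff]
  have h1 : ∀ P : ℤ[X], (X * derivative P).natDegree ≤ P.natDegree := by
    intro P
    by_cases h0 : P.natDegree = 0
    · rw [eq_C_of_natDegree_eq_zero h0]
      simp
    · refine natDegree_mul_le.trans ?_
      have h2 := natDegree_derivative_lt h0
      have h3 := natDegree_X_le (R := ℤ)
      omega
  exact (h1 (F.coeff i)).trans (hd i)

lemma wz' {r : ℤ[X]} (hr : r ≠ 0) : ∃ τ₁ : ℝ, 0 ≤ τ₁ ∧ ∀ (z : ℂ) (τ : ℝ), τ₁ ≤ |z.re| → |z.re| ≤ τ →
    ‖Complex.exp z‖ ≤ Real.exp τ ∧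
    1 ≤ Real.exp (((r.natDegree : ℝ) + 1) * τ) * ‖ev (Complex.exp z) r‖ := by
  obtain ⟨R₁, hR₁, h₁⟩ := lower_inf hr
  obtain ⟨R₂, hR₂, h₂⟩ := lower_zero hr
  refine ⟨Real.log R₁ + Real.log R₂, ?_, ?_⟩
  · exact add_nonneg (Real.log_nonneg hR₁) (Real.log_nonneg hR₂)
  intro z τ hz hτ
  have hl1 := Real.log_nonneg hR₁
  have hl2 := Real.log_nonneg hR₂
  have hτ0 : 0 ≤ τ := (abs_nonneg _).trans hτ
  have hd0 : (0:ℝ) ≤ r.natDegree := Nat.cast_nonneg _
  have hnorm : ‖Complex.exp z‖ = Real.exp z.re := Complex.norm_exp z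
  rcases le_total 0 z.re with h | h
  · rw [abs_of_nonneg h] at hz hτ
    constructor
    · rw [hnorm]
      apply Real.exp_le_exp.mpr
      nlinarith
    · have h3 : 1 ≤ ‖ev (Complex.exp z) r‖ := by
        apply h₁
        rw [hnorm]
        calc R₁ = Real.exp (Real.log R₁) := (Real.exp_log (by linarith)).symm
          _ ≤ _ := Real.exp_le_exp.mpr (by linarith)
      have h4 : 1 ≤ Real.exp (((r.natDegree : ℝ) + 1) * τ) := Real.one_le_exp (by positivity)
      exact o1 h4 h3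
  · rw [abs_of_nonpos h] at hz hτ
    constructor
    · rw [hnorm]
      apply Real.exp_le_exp.mpr
      nlinarith
    · have h3 : ‖Complex.exp z‖ ^ r.natDegree ≤ ‖ev (Complex.exp z) r‖ := by
        apply h₂ _ (Complex.exp_ne_zero z)
        rw [hnorm]
        calc Real.exp z.re * R₂ = Real.exp z.re * Real.exp (Real.log R₂) := by
              rw [Real.exp_log (by linarith)]
          _ = Real.exp (z.re + Real.log R₂) := (Real.exp_add _ _).symm
          _ ≤ Real.exp 0 := Real.exp_le_exp.mpr (by linarith)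
          _ = 1 := Real.exp_zero
      calc 1 ≤ Real.exp (((r.natDegree : ℝ) + 1) * τ) * ‖Complex.exp z‖ ^ r.natDegree := by
            rw [hnorm, ← Real.exp_nat_mul, ← Real.exp_add]
            apply Real.one_le_exp
            nlinarith
        _ ≤ _ := mul_le_mul_of_nonneg_left h3 (Real.exp_pos _).le


/-- the sizes near the two places -/
lemma sizes {F : ℤ[X][X]} (hk : 0 < F.natDegree) {d : ℕ}
    (hd : ∀ i, (F.coeff i).natDegree ≤ d) (hr : dR F ≠ 0) : ∃ τ₁ : ℝ, 0 ≤ τ₁ ∧ ∀ (z : ℂ) (τ : ℝ),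
      τ₁ ≤ |z.re| → |z.re| ≤ τ →
      (∀ i, ‖(F.map (ev (Complex.exp z))).coeff i‖ ≤
        Real.exp ((2 * F.natDegree * (d + 1) : ℕ) * τ)) ∧
      (∀ i, ‖((FD F).map (ev (Complex.exp z))).coeff i‖ ≤
        Real.exp ((2 * F.natDegree * (d + 1) : ℕ) * τ) * 1) ∧
      1 ≤ Real.exp ((2 * F.natDegree * (d + 1) : ℕ) * τ) * ‖ev (Complex.exp z) (dR F)‖ := by
  obtain ⟨L₁, hL₁, h₁⟩ := coef_growth hd
  obtain ⟨L₂, hL₂, h₂⟩ := coef_growth (FD_cdeg hd)
  obtain ⟨τ₁, hτ₁, hwz⟩ := wz' hr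
  have hl1 := Real.log_nonneg hL₁
  have hl2 := Real.log_nonneg hL₂
  refine ⟨τ₁ + (Real.log L₁ + Real.log L₂), by positivity, ?_⟩
  intro z τ hz hτ
  have hτ0 : 0 ≤ τ := (abs_nonneg _).trans hτ
  obtain ⟨hx, hr1⟩ := hwz z τ (by linarith) hτ
  have hW : 1 ≤ Real.exp τ := Real.one_le_exp hτ0
  obtain ⟨D, hD⟩ : ∃ D : ℕ, D = 2 * F.natDegree * (d + 1) := ⟨_, rfl⟩
  rw [← hD]
  have hD1 : d + 1 ≤ D := by
    rw [hD]
    nlinarith
  have hD2 : (dR F).natDegree + 1 ≤ D := by
    have := dR_deg hd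
    rw [hD]
    nlinarith
  have hexp : ∀ L : ℝ, 1 ≤ L → Real.log L ≤ τ → L * Real.exp τ ^ d ≤ Real.exp (D * τ) := by
    intro L hL hl
    have e1 : L ≤ Real.exp τ := by
      rw [← Real.log_le_iff_le_exp (by linarith)]
      exact hl
    calc L * Real.exp τ ^ d ≤ Real.exp τ * Real.exp τ ^ d :=
          mul_le_mul_of_nonneg_right e1 (by positivity)
      _ = Real.exp (((d + 1 : ℕ) : ℝ) * τ) := by
          rw [← pow_succ', ← Real.exp_nat_mul]
      _ ≤ _ := by
          apply Real.exp_le_exp.mpr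
          apply mul_le_mul_of_nonneg_right _ hτ0
          exact_mod_cast hD1
  refine ⟨?_, ?_, ?_⟩
  · intro i
    exact (h₁ _ _ hW hx i).trans (hexp L₁ hL₁ (by linarith))
  · intro i
    rw [mul_one]
    exact (h₂ _ _ hW hx i).trans (hexp L₂ hL₂ (by linarith))
  · refine hr1.trans ?_
    apply mul_le_mul_of_nonneg_right _ (norm_nonneg _)
    apply Real.exp_le_exp.mpr
    apply mul_le_mul_of_nonneg_right _ hτ0
    exact_mod_cast hD2

/-- the logarithmic derivatives are bounded near the two places, with constants which depend only on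
the degrees -/
theorem eta_U {k : ℕ} (hk : 0 < k) : ∃ K₁ : ℝ, 1 ≤ K₁ ∧ ∃ C₀ : ℝ, 1 ≤ C₀ ∧ ∃ c₀ : ℕ, ∀ F : ℤ[X][X],
    F.Monic → F.natDegree = k → ∀ d : ℕ, (∀ i, (F.coeff i).natDegree ≤ d) → dR F ≠ 0 →
    ∃ τ₀ : ℝ, 1 ≤ τ₀ ∧ ∀ s : ℂ, τ₀ ≤ |s.re| →
      (∃ A b : ℝ, Geo F (Complex.exp s) A b ∧ A ≤ C₀ * Real.exp ((c₀ * (d + 1) : ℕ) * |s.re|) ∧
        b ≤ C₀ * Real.exp ((c₀ * (d + 1) : ℕ) * |s.re|)) ∧
      ∀ α ∈ (F.map (ev (Complex.exp s))).roots, ∀ β ∈ (F.map (ev (Complex.exp s))).roots,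
        ‖rr F (Complex.exp s) α β‖ ≤ (K₁ * ((d:ℝ) + 1)) *
          (‖(derivative (F.map (ev (Complex.exp s)))).eval α‖ *
          ‖(derivative (F.map (ev (Complex.exp s)))).eval β‖) := by
  obtain ⟨C₀, hC₀, c, hgeo⟩ := geoU k
  have hl0 : 0 ≤ Real.log C₀ := Real.log_nonneg hC₀
  obtain ⟨K₁, hK₁⟩ : ∃ K₁ : ℝ, K₁ = 16 * (1 + Real.log C₀) + 24 * c * (2 * k) := ⟨_, rfl⟩
  refine ⟨K₁, ?_, C₀, hC₀, c * (2 * k), ?_⟩
  · rw [hK₁]
    have : (0:ℝ) ≤ 24 * c * (2 * k) := by positivity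
    linarith
  intro F hF hFk d hd hr0
  obtain ⟨P, Q, hB⟩ := dR_bez (F := F) (by omega)
  obtain ⟨τ₁, hτ₁, hsz⟩ := sizes (by omega) hd hr0
  rw [hFk] at hsz
  obtain ⟨r, hrdef⟩ : ∃ r, r = dR F := ⟨_, rfl⟩
  rw [← hrdef] at hB hr0
  have hr : r ≠ 0 := hr0
  have hk' : 0 < F.natDegree := by omega
  obtain ⟨D, hD⟩ : ∃ D : ℕ, D = 2 * k * (d + 1) := ⟨_, rfl⟩
  rw [← hD] at hsz
  refine ⟨2 * τ₁ + 2, by linarith, ?_⟩
  intro s hs
  have hcD : (0:ℝ) ≤ c * D := by positivity
  have hs0 : 0 < |s.re| := by linarith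
  obtain ⟨R, hR⟩ : ∃ R, R = |s.re| / 2 := ⟨_, rfl⟩
  have hR0 : 0 < R := by rw [hR]; positivity
  obtain ⟨τ, hτ⟩ : ∃ τ, τ = 3 / 2 * |s.re| := ⟨_, rfl⟩
  have hz : ∀ z ∈ ball s R, τ₁ ≤ |z.re| ∧ |z.re| ≤ τ := by
    intro z hz
    rw [mem_ball, dist_eq_norm] at hz
    have h1 : |z.re - s.re| ≤ ‖z - s‖ := by
      rw [← Complex.sub_re]
      exact Complex.abs_re_le_norm _
    have h2 : |z.re| ≤ |z.re - s.re| + |s.re| := by
      have := abs_add_le (z.re - s.re) s.re
      rwa [sub_add_cancel] at this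
    have h3 : |s.re| ≤ |z.re - s.re| + |z.re| := by
      have := abs_sub_abs_le_abs_sub s.re z.re
      rw [abs_sub_comm] at this
      linarith
    constructor
    · linarith
    · linarith
  have hτ0 : 0 ≤ τ := by rw [hτ]; positivity
  have hgeo' : ∀ z ∈ ball s R, ∃ A b : ℝ, Geo F (Complex.exp z) A b ∧
      A ≤ C₀ * Real.exp (D * τ) ^ c ∧ b ≤ C₀ * Real.exp (D * τ) ^ c := by
    intro z h
    obtain ⟨g1, g2, g3⟩ := hsz z τ (hz z h).1 (hz z h).2
    obtain ⟨A, b, g4, g5, g6⟩ := hgeo F hF hFk _ _ 1 (Real.one_le_exp (by positivity)) le_rfl g1 g2 g3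
    exact ⟨A, b, g4.geo, g5, g6⟩
  have hrne : ∀ z ∈ ball s R, ev (Complex.exp z) r ≠ 0 := by
    intro z h h0
    have := (hsz z τ (hz z h).1 (hz z h).2).2.2
    rw [← hrdef, h0, norm_zero, mul_zero] at this
    linarith
  obtain ⟨M, hM⟩ : ∃ M, M = Real.log C₀ + c * D * τ := ⟨_, rfl⟩
  have hM0 : 0 ≤ M := by rw [hM]; positivity
  have hCW : C₀ * Real.exp (D * τ) ^ c = Real.exp M := by
    rw [hM, Real.exp_add, Real.exp_log (by linarith), ← Real.exp_nat_mul]
    congr 2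
    ring
  have hss : s ∈ ball s R := mem_ball_self hR0
  have hfin : 8 * (1 + M) / R ≤ K₁ * ((d:ℝ) + 1) := by
    rw [div_le_iff₀ hR0, hM, hR, hτ, hK₁]
    have h1 : 1 ≤ |s.re| := by linarith
    have hDR : (D:ℝ) = 2 * k * (d + 1) := by rw [hD]; push_cast; ring
    rw [hDR]
    have hd0 : (0:ℝ) ≤ d := Nat.cast_nonneg _
    have e1 : 8 * (1 + Real.log C₀) ≤ 16 * (1 + Real.log C₀) * ((d:ℝ) + 1) * (|s.re| / 2) := by
      have e2 : 1 ≤ ((d:ℝ) + 1) * |s.re| := o1 (by linarith) h1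
      have e3 : 0 ≤ 8 * (1 + Real.log C₀) := by positivity
      nlinarith
    nlinarith
  have hlog2 : Real.log 2 ≤ 1 := by
    have := Real.log_two_lt_d9
    linarith
  constructor
  · obtain ⟨g1, g2, g3⟩ := hsz s |s.re| (by linarith) le_rfl
    obtain ⟨A, b, g4, g5, g6⟩ := hgeo F hF hFk _ _ 1 (Real.one_le_exp (by positivity)) le_rfl g1 g2 g3
    have e1 : Real.exp (D * |s.re|) ^ c = Real.exp ((c * (2 * k) * (d + 1) : ℕ) * |s.re|) := by
      rw [← Real.exp_nat_mul, hD]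
      congr 1
      push_cast
      ring
    rw [e1] at g5 g6
    exact ⟨A, b, g4.geo, g5, g6⟩
  intro α hα β hβ
  rw [mem_iff hF] at hα hβ
  obtain ⟨ρα, hbα, hρα⟩ := exists_br hF hk' hB hR0 hrne hα
  obtain ⟨ρβ, hbβ, hρβ⟩ := exists_br hF hk' hB hR0 hrne hβ
  have hdα : ∀ z ∈ ball s R, ∃ ρ' : ℂ, HasDerivAt ρα ρ' z ∧
      ev2 (Complex.exp z) (ρα z) (derivative F) * ρ' = -ev2 (Complex.exp z) (ρα z) (FD F) :=
    fun z hz => br_deriv hB hrne hbα hz
  have hdβ : ∀ z ∈ ball s R, ∃ ρ' : ℂ, HasDerivAt ρβ ρ' z ∧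
      ev2 (Complex.exp z) (ρβ z) (derivative F) * ρ' = -ev2 (Complex.exp z) (ρβ z) (FD F) :=
    fun z hz => br_deriv hB hrne hbβ hz
  have key : ∀ w : ℂ → ℂ, (∀ z ∈ ball s R, DifferentiableAt ℂ w z) →
      (∀ z ∈ ball s R, ∀ A b : ℝ, Geo F (Complex.exp z) A b → A ≤ Real.exp M → b ≤ Real.exp M →
        1 ≤ A * ‖w z‖ ∧ (‖w z‖ ≤ 2 * A ∨ ‖w z‖ ≤ b)) →
      ‖deriv w s / w s‖ ≤ K₁ * ((d:ℝ) + 1) := by
    intro w hw1 hw2
    have hw3 : ∀ z ∈ ball s R, w z ≠ 0 ∧ |Real.log ‖w z‖| ≤ 1 + M := by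
      intro z hz
      obtain ⟨A, b, h1, h2, h3⟩ := hgeo' z hz
      rw [hCW] at h2 h3
      obtain ⟨h4, h5⟩ := hw2 z hz A b h1 h2 h3
      have hA0 : 0 < A := by linarith [h1.hA]
      have hwn : 0 < ‖w z‖ := by
        by_contra h0
        have : ‖w z‖ = 0 := le_antisymm (not_lt.mp h0) (norm_nonneg _)
        rw [this, mul_zero] at h4
        linarith
      refine ⟨norm_pos_iff.mp hwn, ?_⟩
      rw [abs_le]
      constructor
      · have e1 : 0 ≤ Real.log (A * ‖w z‖) := Real.log_nonneg h4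
        rw [Real.log_mul hA0.ne' hwn.ne'] at e1
        have e2 : Real.log A ≤ M := by
          rw [Real.log_le_iff_le_exp hA0]
          exact h2
        linarith
      · rw [Real.log_le_iff_le_exp hwn, Real.exp_add]
        have e3 : (2:ℝ) ≤ Real.exp 1 := by
          have := Real.add_one_le_exp (1:ℝ)
          linarith
        have e4 : 0 < Real.exp M := Real.exp_pos _
        rcases h5 with h5 | h5
        · nlinarith
        · nlinarith
    have h1 := logder_bound hR0 (fun z hz => (hw1 z hz).differentiableWithinAt)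
      (fun z hz => (hw3 z hz).1) (by linarith : 0 < 1 + M) (fun z hz => (hw3 z hz).2)
    linarith
  have hdd : ∀ γ : ℂ, (derivative (F.map (ev (Complex.exp s)))).eval γ =
      ev2 (Complex.exp s) γ (derivative F) := by
    intro γ
    rw [ev2_eq, derivative_map]
  have hdh : ∀ γ : ℂ, ((FD F).map (ev (Complex.exp s))).eval γ = ev2 (Complex.exp s) γ (FD F) := by
    intro γ
    rw [ev2_eq]
  obtain ⟨α', hα1, hα2⟩ := hdα s hss
  obtain ⟨β', hβ1, hβ2⟩ := hdβ s hss
  rw [hρα] at hα2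
  rw [hρβ] at hβ2
  by_cases hne : α = β
  · -- the diagonal
    have h1 := key (fun z => ev2 (Complex.exp z) (ρα z) (derivative F)) (by
        intro z hz
        obtain ⟨a', ha', -⟩ := hdα z hz
        exact (chain (derivative F) ha').differentiableAt) (by
        intro z hz A b hg _ _
        have h2 : ρα z ∈ (F.map (ev (Complex.exp z))).roots := (mem_iff hF _ _).mpr (hbα.root z hz)
        have h3 := hg.der _ h2
        have h4 := hg.gb _ h2
        rw [derivative_map, ← ev2_eq] at h3 h4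
        exact ⟨h3, Or.inr h4⟩)
    have h2 := (chain (derivative F) hα1).deriv
    rw [h2, hρα] at h1
    have h3 : rr F (Complex.exp s) α α = ev2 (Complex.exp s) α (derivative F) *
        (ev2 (Complex.exp s) α (FD (derivative F)) +
          ev2 (Complex.exp s) α (derivative (derivative F)) * α') := by
      rw [rr_diag, hdd, hdh, FD_derivative]
      have e1 : (derivative ((FD F).map (ev (Complex.exp s)))).eval α =
          ev2 (Complex.exp s) α (derivative (FD F)) := by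
        rw [ev2_eq, derivative_map]
      have e2 : (derivative (derivative (F.map (ev (Complex.exp s))))).eval α =
          ev2 (Complex.exp s) α (derivative (derivative F)) := by
        rw [ev2_eq, derivative_map, derivative_map]
      rw [e1, e2]
      linear_combination (ev2 (Complex.exp s) α (derivative (derivative F))) * -hα2
    have h4 : ev2 (Complex.exp s) α (derivative F) ≠ 0 := by
      intro h0
      have := congrArg (ev2 (Complex.exp s) α) hB
      rw [map_add, map_mul, map_mul, hα, h0, mul_zero, mul_zero, zero_add, ev2_C] at this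
      exact hrne s hss this.symm
    rw [← hne, h3, hdd, norm_mul]
    rw [norm_div, div_le_iff₀ (norm_pos_iff.mpr h4)] at h1
    calc _ ≤ ‖ev2 (Complex.exp s) α (derivative F)‖ * ((K₁ * ((d:ℝ) + 1)) *
          ‖ev2 (Complex.exp s) α (derivative F)‖) := mul_le_mul_of_nonneg_left h1 (norm_nonneg _)
      _ = _ := by ring
  · have hne' : ∀ z ∈ ball s R, ρα z ≠ ρβ z := by
      intro z hz he
      have := br_unique hF hk' hB hR0 hrne hbα hbβ hz he
      rw [hρα, hρβ] at this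
      exact hne this
    have h1 := key (fun z => ρβ z - ρα z) (by
        intro z hz
        obtain ⟨a', ha', -⟩ := hdα z hz
        obtain ⟨b', hb', -⟩ := hdβ z hz
        exact (hb'.sub ha').differentiableAt) (by
        intro z hz A b hg _ _
        have h2 : ρα z ∈ (F.map (ev (Complex.exp z))).roots := (mem_iff hF _ _).mpr (hbα.root z hz)
        have h2' : ρβ z ∈ (F.map (ev (Complex.exp z))).roots := (mem_iff hF _ _).mpr (hbβ.root z hz)
        have h3 := hg.sep _ h2' _ h2 (hne' z hz).symm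
        have h4 := hg.bd _ h2
        have h5 := hg.bd _ h2'
        refine ⟨h3, Or.inl ((norm_sub_le _ _).trans ?_)⟩
        linarith)
    have h2 : deriv (fun z => ρβ z - ρα z) s = β' - α' := (hβ1.sub hα1).deriv
    rw [h2] at h1
    simp only [hρα, hρβ] at h1
    have hβα : β - α ≠ 0 := sub_ne_zero.mpr (Ne.symm hne)
    have h3 := rr_rel F (Complex.exp s) α β
    rw [hdd, hdd, hdh, hdh] at h3
    have h4 : rr F (Complex.exp s) α β = -(ev2 (Complex.exp s) α (derivative F) *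
        ev2 (Complex.exp s) β (derivative F)) * ((β' - α') / (β - α)) := by
      have e1 : (β - α) * rr F (Complex.exp s) α β = (β - α) * (-(ev2 (Complex.exp s) α (derivative F) *
          ev2 (Complex.exp s) β (derivative F)) * ((β' - α') / (β - α))) := by
        have e2 : (β - α) * (-(ev2 (Complex.exp s) α (derivative F) *
          ev2 (Complex.exp s) β (derivative F)) * ((β' - α') / (β - α))) =
          -(ev2 (Complex.exp s) α (derivative F) * ev2 (Complex.exp s) β (derivative F)) * (β' - α') := by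
          field_simp
        rw [e2, h3]
        linear_combination (ev2 (Complex.exp s) α (derivative F)) * hβ2 -
          (ev2 (Complex.exp s) β (derivative F)) * hα2
      exact mul_left_cancel₀ hβα e1
    rw [h4, norm_mul, norm_neg, norm_mul, hdd, hdd]
    rw [mul_comm]
    exact mul_le_mul_of_nonneg_right h1 (by positivity)

end Pool.Agent.Zk21.My
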