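import Mathlib
import Pool.Agent.Zk21.MxB
import Pool.Agent.Zk21.MyB

/-!
# Moving targets, uniformly: the lower bound for the double resultant off the diagonal
-/

set_option autoImplicit false

open Polynomial Metric Set Filter Topology

namespace Pool.Agent.Zk21.My

open Pool.Agent.R328 Pool.Agent.Zk21.Smt Pool.Agent.Zk21.Un Pool.Agent.Zk21.Pt Pool.Agent.Zk21.Ca
open Pool.Agent.Zk21.Mv Pool.Agent.Zk21.Mw Pool.Agent.Zk21.Mx

theorem NO_pointU {k : ℕ} (hk : 0 < k) : ∃ n₀ : ℝ, 1 ≤ n₀ ∧ ∃ K : ℕ, 0 < K ∧ ∃ c₁ : ℕ,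
    ∀ F : ℤ[X][X], F.Monic → F.natDegree = k → ∀ d : ℕ, (∀ i, (F.coeff i).natDegree ≤ d) →
      dR F ≠ 0 → ∃ τ₀ : ℝ, 1 ≤ τ₀ ∧ ∀ s : ℂ, τ₀ ≤ |s.re| → ∀ (a b c : ℤ[X]) (ν : ℂ),
      n₀ * ((d:ℝ) + 1) ≤ ‖ν‖ →
      ‖ev (Complex.exp s) a - ν * ev (Complex.exp s) b‖ ≤ ‖ev (Complex.exp s) b‖ →
      ‖ev (Complex.exp s) c‖ * (K * Real.exp ((c₁ * (d + 1) : ℕ) * |s.re|)) ≤
        ‖ev (Complex.exp s) b‖ →
      (‖ν‖ / 2) ^ (F.natDegree * (F.natDegree - 1)) *
          ‖ev (Complex.exp s) (NO F 1 0 0 * b ^ (F.natDegree * (F.natDegree - 1)))‖ ≤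
        ‖ev (Complex.exp s) (NO F a b c)‖ ∧
      ‖ev (Complex.exp s) (NO F a b c)‖ ≤ (2 * ‖ν‖) ^ (F.natDegree * (F.natDegree - 1)) *
          ‖ev (Complex.exp s) (NO F 1 0 0 * b ^ (F.natDegree * (F.natDegree - 1)))‖ := by
  obtain ⟨K₁, hK₁, C₀, hC₀, c, h⟩ := eta_U hk
  obtain ⟨K', hK'⟩ := exists_nat_ge (2 * C₀ ^ 4)
  refine ⟨2 * (K₁ + 2), by linarith, K' + 1, Nat.succ_pos _, 4 * c, ?_⟩
  intro F hF hFk d hd hr
  have hk : 0 < F.natDegree := by omega
  obtain ⟨τ₀, hτ₀, h⟩ := h F hF hFk d hd hr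
  refine ⟨τ₀, hτ₀, ?_⟩
  have hd0 : (0:ℝ) ≤ d := Nat.cast_nonneg _
  obtain ⟨K, hK⟩ : ∃ K, K = K₁ * ((d:ℝ) + 1) := ⟨_, rfl⟩
  intro s hs u v w ν hν' h1 h2
  have hK0 : 0 < K := by rw [hK]; positivity
  have hν : 2 * (K + 2) ≤ ‖ν‖ := by
    refine le_trans ?_ hν'
    rw [hK]
    nlinarith
  obtain ⟨⟨A, b, hg, hA, hb⟩, hη⟩ := h s hs
  obtain ⟨x, hx⟩ : ∃ x, x = Complex.exp s := ⟨_, rfl⟩
  rw [← hx] at h1 h2 hg hη ⊢
  obtain ⟨E, hE⟩ : ∃ E, E = C₀ * Real.exp ((c * (d + 1) : ℕ) * |s.re|) := ⟨_, rfl⟩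
  rw [← hE] at hA hb
  have hE1 : 1 ≤ E := hg.hA.trans hA
  have hE4 : 2 * E ^ 4 ≤ ((K' + 1 : ℕ) : ℝ) * Real.exp ((4 * c * (d + 1) : ℕ) * |s.re|) := by
    have e1 : 2 * E ^ 4 = 2 * C₀ ^ 4 * Real.exp ((4 * c * (d + 1) : ℕ) * |s.re|) := by
      rw [hE, mul_pow, ← Real.exp_nat_mul]
      push_cast
      rw [mul_assoc 2 (C₀ ^ 4)]
      congr 3
      ring
    rw [e1]
    apply mul_le_mul_of_nonneg_right _ (Real.exp_pos _).le
    push_cast
    linarith
  obtain ⟨g', hg'⟩ : ∃ g', g' = fun α => (derivative (F.map (ev x))).eval α := ⟨_, rfl⟩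
  obtain ⟨hh, hhh⟩ : ∃ hh, hh = fun α => ((FD F).map (ev x)).eval α := ⟨_, rfl⟩
  have key : ∀ α ∈ Rt F x hg.nodup, ∀ β ∈ Rt F x hg.nodup,
      ‖ν‖ / 2 * (‖ev x v‖ * ‖g' α * g' β‖) ≤
        ‖ev x u * (g' α * g' β) + ev x v * rr F x α β + ev x w * (-α * rr F x α β + hh α * g' β)‖ ∧
      ‖ev x u * (g' α * g' β) + ev x v * rr F x α β + ev x w * (-α * rr F x α β + hh α * g' β)‖ ≤
        2 * ‖ν‖ * (‖ev x v‖ * ‖g' α * g' β‖) := by
    intro α hα β hβ
    have q1 := hη α hα β hβ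
    have q2 := hg.der α hα
    have q3 := hg.der β hβ
    have q4 := hg.bd α hα
    have q5 := hg.rb α hα β hβ
    have q6 := hg.hh α hα
    have q7 := hg.gb β hβ
    have r1 : (derivative (F.map (ev x))).eval α = g' α := by rw [hg']
    have r2 : (derivative (F.map (ev x))).eval β = g' β := by rw [hg']
    have r3 : ((FD F).map (ev x)).eval α = hh α := by rw [hhh]
    rw [r1, r2] at q1
    rw [r1] at q2
    rw [r2] at q3 q7
    rw [r3] at q6
    rw [← norm_mul, ← hK] at q1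
    set G := g' α * g' β with hG
    have hEG : 1 ≤ E ^ 2 * ‖G‖ := by
      have e1 : 1 ≤ (A * ‖g' α‖) * (A * ‖g' β‖) := o1 q2 q3
      have e2 : (A * ‖g' α‖) * (A * ‖g' β‖) = A ^ 2 * ‖G‖ := by
        rw [hG, norm_mul]
        ring
      rw [e2] at e1
      have hA0 : 0 ≤ A := by linarith [hg.hA]
      have e3 : A ^ 2 ≤ E ^ 2 := pow_le_pow_left₀ hA0 hA 2
      exact e1.trans (mul_le_mul_of_nonneg_right e3 (norm_nonneg _))
    have hb0 : 0 ≤ b := by linarith [hg.hb]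
    have q8 : ‖-α * rr F x α β + hh α * g' β‖ ≤ 2 * E ^ 2 := by
      refine (norm_add_le _ _).trans ?_
      rw [norm_mul, norm_mul, norm_neg]
      have e1 : ‖α‖ * ‖rr F x α β‖ ≤ E * E :=
        mul_le_mul (q4.trans hA) (q5.trans hb) (norm_nonneg _) (by linarith)
      have e2 : ‖hh α‖ * ‖g' β‖ ≤ E * E :=
        mul_le_mul (q6.trans hb) (q7.trans hb) (norm_nonneg _) (by linarith)
      nlinarith
    have q9 : ‖ev x w * (-α * rr F x α β + hh α * g' β)‖ ≤ ‖ev x v‖ * ‖G‖ := by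
      rw [norm_mul]
      calc ‖ev x w‖ * ‖-α * rr F x α β + hh α * g' β‖ ≤ ‖ev x w‖ * (2 * E ^ 2 * (E ^ 2 * ‖G‖)) := by
            apply mul_le_mul_of_nonneg_left _ (norm_nonneg _)
            refine q8.trans ?_
            have : 0 ≤ 2 * E ^ 2 := by positivity
            nlinarith
        _ = (‖ev x w‖ * (2 * E ^ 4)) * ‖G‖ := by ring
        _ ≤ ‖ev x v‖ * ‖G‖ := by
            apply mul_le_mul_of_nonneg_right _ (norm_nonneg _)
            exact (mul_le_mul_of_nonneg_left hE4 (norm_nonneg _)).trans h2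
    have q10 : ‖(ev x u - ν * ev x v) * G‖ ≤ ‖ev x v‖ * ‖G‖ := by
      rw [norm_mul]
      exact mul_le_mul_of_nonneg_right h1 (norm_nonneg _)
    have q11 : ‖ev x v * rr F x α β‖ ≤ ‖ev x v‖ * (K * ‖G‖) := by
      rw [norm_mul]
      exact mul_le_mul_of_nonneg_left q1 (norm_nonneg _)
    have q12 : ‖(ev x u * G + ev x v * rr F x α β + ev x w * (-α * rr F x α β + hh α * g' β)) -
        ν * ev x v * G‖ ≤ (K + 2) * (‖ev x v‖ * ‖G‖) := by
      have e1 : (ev x u * G + ev x v * rr F x α β + ev x w * (-α * rr F x α β + hh α * g' β)) -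
        ν * ev x v * G = (ev x u - ν * ev x v) * G + ev x v * rr F x α β +
          ev x w * (-α * rr F x α β + hh α * g' β) := by ring
      rw [e1]
      refine (norm_add_le _ _).trans ((add_le_add ((norm_add_le _ _).trans (add_le_add q10 q11)) q9).trans
        (le_of_eq ?_))
      ring
    have q13 : ‖ν * ev x v * G‖ = ‖ν‖ * (‖ev x v‖ * ‖G‖) := by
      rw [norm_mul, norm_mul, mul_assoc]
    have q14 : 0 ≤ ‖ev x v‖ * ‖G‖ := by positivity
    constructor
    · have e1 := norm_sub_norm_le (ν * ev x v * G)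
        (ev x u * G + ev x v * rr F x α β + ev x w * (-α * rr F x α β + hh α * g' β))
      rw [norm_sub_rev, q13] at e1
      nlinarith
    · have e1 := norm_le_norm_sub_add
        (ev x u * G + ev x v * rr F x α β + ev x w * (-α * rr F x α β + hh α * g' β)) (ν * ev x v * G)
      rw [q13] at e1
      nlinarith
  have hcard := Rt_card hF x hg.nodup
  have hprod : ∀ t : ℝ, ∏ α ∈ Rt F x hg.nodup, ∏ β ∈ (Rt F x hg.nodup).erase α,
      (t * (‖ev x v‖ * ‖g' α * g' β‖)) = t ^ (F.natDegree * (F.natDegree - 1)) *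
        ‖ev x (NO F 1 0 0 * v ^ (F.natDegree * (F.natDegree - 1)))‖ := by
    intro t
    have e1 : ev x (NO F 1 0 0) = ∏ α ∈ Rt F x hg.nodup, ∏ β ∈ (Rt F x hg.nodup).erase α,
        g' α * g' β := by
      rw [NO_fin hF hk 1 0 0 x hg.nodup]
      refine Finset.prod_congr rfl fun α _ => Finset.prod_congr rfl fun β _ => ?_
      rw [map_one, map_zero, hg']
      ring
    rw [prod_off, prod_off, hcard, map_mul, map_pow, norm_mul, norm_pow, e1, norm_prod]
    simp_rw [norm_prod]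
    ring
  rw [← hprod, ← hprod, NO_fin hF hk u v w x hg.nodup, norm_prod]
  simp_rw [norm_prod]
  have r1 : ∀ α, (derivative (F.map (ev x))).eval α = g' α := by intro α; rw [hg']
  have r3 : ∀ α, ((FD F).map (ev x)).eval α = hh α := by intro α; rw [hhh]
  simp_rw [r1, r3]
  constructor
  · apply Finset.prod_le_prod
    · intro α _
      exact Finset.prod_nonneg fun β _ => by positivity
    · intro α hα
      apply Finset.prod_le_prod
      · intro β _
        positivity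
      · intro β hβ
        exact (key α hα β (Finset.mem_erase.mp hβ).2).1
  · apply Finset.prod_le_prod
    · intro α _
      exact Finset.prod_nonneg fun β _ => by positivity
    · intro α hα
      apply Finset.prod_le_prod
      · intro β _
        positivity
      · intro β hβ
        exact (key α hα β (Finset.mem_erase.mp hβ).2).2

/-- the lower bound for the double resultant -/
theorem NO_lowerU {k : ℕ} (hk : 0 < k) : ∃ n₁ : ℕ, 1 ≤ n₁ ∧ ∀ F : ℤ[X][X], F.Monic →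
    F.natDegree = k → ∀ d : ℕ, (∀ i, (F.coeff i).natDegree ≤ d) → dR F ≠ 0 →
      ∀ (u v Y v' v'' : ℤ[X]) (N : ℕ), u ≠ 0 → v ≠ 0 → v = Y * v' → th v = Y * v'' →
      n₁ * (d + 1) ≤ N →
      (u.natDegree = v.natDegree + N ∨ v.natTrailingDegree = u.natTrailingDegree + N) →
      NO F (th u * v' - u * v'') (u * v') (v * v') ≠ 0 ∧
      ((F.natDegree * (F.natDegree - 1) : ℕ) : ℝ) * (Real.log N - Real.log 2) ≤
        lM (NO F (th u * v' - u * v'') (u * v') (v * v')) := by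
  obtain ⟨n₀, hn₀, K, hK, c₁', h⟩ := NO_pointU hk
  obtain ⟨m, hm⟩ := exists_nat_ge n₀
  refine ⟨m + c₁' + 1, by omega, ?_⟩
  intro F hF hFk d hd hr
  have hk : 0 < F.natDegree := by omega
  obtain ⟨P, Q, hB⟩ := dR_bez (F := F) hk
  obtain ⟨τ₀, hτ₀, h⟩ := h F hF hFk d hd hr
  obtain ⟨c₁, hc₁⟩ : ∃ c₁, c₁ = c₁' * (d + 1) := ⟨_, rfl⟩
  rw [← hc₁] at h
  intro u v Y v' v'' N hu hv hY hY' hN' hcase
  have hN1 : m * (d + 1) ≤ N := by nlinarith
  have hN2 : c₁ + 1 ≤ N := by nlinarith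
  set k2 := F.natDegree * (F.natDegree - 1) with hk2
  have hY0 : Y ≠ 0 := by
    rintro rfl
    rw [zero_mul] at hY
    exact hv hY
  have hv'0 : v' ≠ 0 := by
    rintro rfl
    rw [mul_zero] at hY
    exact hv hY
  have huv : u * v ≠ 0 := mul_ne_zero hu hv
  have hq : NO F 1 0 0 * (u * v') ^ k2 ≠ 0 :=
    mul_ne_zero (NO1_ne hF hk hB hr) (pow_ne_zero _ (mul_ne_zero hu hv'0))
  have hN0 : 0 < N := by omega
  have hNr : (0:ℝ) < N := by exact_mod_cast hN0
  have fin : (k2 : ℝ) * (Real.log N - Real.log 2) = Real.log (((N:ℝ) / 2) ^ k2) := by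
    rw [Real.log_pow, ← Real.log_div hNr.ne' (by norm_num)]
  have hmN : n₀ * ((d:ℝ) + 1) ≤ N := by
    have e1 : (m:ℝ) * ((d:ℝ) + 1) ≤ N := by exact_mod_cast hN1
    have e2 : (0:ℝ) ≤ d := Nat.cast_nonneg _
    nlinarith
  -- division by the common factor
  have hdiv : ∀ (x : ℂ) (Z W : ℤ[X]), ev x Y ≠ 0 → ‖ev x (Y * Z)‖ ≤ ‖ev x (Y * W)‖ →
      ‖ev x Z‖ ≤ ‖ev x W‖ := by
    intro x Z W hx h1
    rw [map_mul, map_mul, norm_mul, norm_mul] at h1
    exact le_of_mul_le_mul_left h1 (norm_pos_iff.mpr hx)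
  rcases hcase with hcase | hcase
  · -- the place at infinity
    have hlu := th_lead hu
    have hlv := th_lead hv
    have hNC : (C (N:ℤ) : ℤ[X]) = C (u.natDegree : ℤ) - C (v.natDegree : ℤ) := by
      rw [hcase, ← C_sub]
      congr 1
      push_cast
      ring
    have hR : Y * ((th u * v' - u * v'') - C (N:ℤ) * (u * v')) =
        (th u - C (u.natDegree : ℤ) * u) * v - u * (th v - C (v.natDegree : ℤ) * v) := by
      rw [hNC]
      calc Y * ((th u * v' - u * v'') - (C (u.natDegree : ℤ) - C (v.natDegree : ℤ)) * (u * v')) =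
          th u * (Y * v') - u * (Y * v'') - (C (u.natDegree : ℤ) - C (v.natDegree : ℤ)) *
            (u * (Y * v')) := by ring
        _ = _ := by rw [← hY, ← hY']; ring
    have hdeg : (Y * ((th u * v' - u * v'') - C (N:ℤ) * (u * v'))).degree < (Y * (u * v')).degree := by
      have e0 : Y * (u * v') = u * v := by rw [hY]; ring
      rw [hR, e0]
      refine (degree_sub_le _ _).trans_lt (max_lt ?_ ?_)
      · rw [degree_mul, degree_mul]
        exact WithBot.add_lt_add_right (degree_ne_bot.mpr hv) hlu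
      · rw [degree_mul, degree_mul]
        exact WithBot.add_lt_add_left (degree_ne_bot.mpr hu) hlv
    have h1 := dom_inf hdeg
    have h2 : ∀ᶠ x : ℝ in atTop, ‖ev (x:ℂ) (C (K:ℤ) * X ^ c₁ * v)‖ ≤ ‖ev (x:ℂ) u‖ := by
      apply dom_inf
      rw [degree_mul]
      have e1 := degree_C_mul_X_pow_le c₁ (K:ℤ)
      have e2 : ((c₁ + v.natDegree : ℕ) : WithBot ℕ) < (u.natDegree : WithBot ℕ) := by
        exact_mod_cast (by omega : c₁ + v.natDegree < u.natDegree)
      rw [degree_eq_natDegree hu, degree_eq_natDegree hv]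
      refine lt_of_le_of_lt (add_le_add_left e1 _) ?_
      exact_mod_cast e2
    obtain ⟨RY, hRY, hYx⟩ := lower_inf hY0
    have h3 : ∀ᶠ x : ℝ in atTop, ((N:ℝ) / 2) ^ k2 * ‖ev (x:ℂ) (NO F 1 0 0 * (u * v') ^ k2)‖ ≤
        ‖ev (x:ℂ) (NO F (th u * v' - u * v'') (u * v') (v * v'))‖ ∧
        ‖ev (x:ℂ) (NO F (th u * v' - u * v'') (u * v') (v * v'))‖ ≤
          (2 * (N:ℝ)) ^ k2 * ‖ev (x:ℂ) (NO F 1 0 0 * (u * v') ^ k2)‖ := by
      filter_upwards [h1, h2, eventually_ge_atTop (Real.exp τ₀), eventually_ge_atTop RY]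
        with x hx1 hx2 hx3 hx4
      have hx0 : 0 < x := (Real.exp_pos _).trans_le hx3
      have hlog : τ₀ ≤ Real.log x := by
        rw [Real.le_log_iff_exp_le hx0]
        exact hx3
      have hexp : Complex.exp ((Real.log x : ℝ) : ℂ) = (x:ℂ) := by
        rw [← Complex.ofReal_exp, Real.exp_log hx0]
      have habs : |(((Real.log x : ℝ) : ℂ)).re| = Real.log x := by
        rw [Complex.ofReal_re, abs_of_nonneg (by linarith)]
      have hYx0 : ev (x:ℂ) Y ≠ 0 := by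
        have := hYx (x:ℂ) (by rw [Complex.norm_real, Real.norm_eq_abs, abs_of_pos hx0]; exact hx4)
        intro h0
        rw [h0, norm_zero] at this
        linarith
      have h4 := h ((Real.log x : ℝ) : ℂ) (by rw [habs]; exact hlog) (th u * v' - u * v'') (u * v')
        (v * v') (N:ℂ) (by rw [Complex.norm_natCast]; exact hmN)
      rw [hexp, habs, Complex.norm_natCast] at h4
      apply h4
      · have e1 := hdiv _ _ _ hYx0 hx1
        have e2 : ev (x:ℂ) ((th u * v' - u * v'') - C (N:ℤ) * (u * v')) =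
            ev (x:ℂ) (th u * v' - u * v'') - N * ev (x:ℂ) (u * v') := by
          rw [map_sub (ev (x:ℂ)) (th u * v' - u * v''), map_mul (ev (x:ℂ)) (C (N:ℤ)), ev_C]
          push_cast
          ring
        rw [e2] at e1
        exact e1
      · have e1 : ‖ev (x:ℂ) (v * v')‖ * (K * Real.exp (c₁ * Real.log x)) =
            ‖ev (x:ℂ) (C (K:ℤ) * X ^ c₁ * v)‖ * ‖ev (x:ℂ) v'‖ := by
          rw [map_mul, map_mul, map_mul, map_pow, ev_C, ev_X, norm_mul, norm_mul, norm_mul, norm_pow,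
            Complex.norm_real, Real.norm_eq_abs, abs_of_pos hx0, Real.exp_nat_mul, Real.exp_log hx0,
            Int.cast_natCast, Complex.norm_natCast]
          ring
        rw [e1, map_mul (ev (x:ℂ)) u v', norm_mul]
        exact mul_le_mul_of_nonneg_right hx2 (norm_nonneg _)
    obtain ⟨h4, h5⟩ := side_inf hq (by positivity) h3
    exact ⟨h4, fin.le.trans h5⟩
  · -- the place at zero
    have hlu := th_trail u
    have hlv := th_trail v
    obtain ⟨wu, hwu, hwu0⟩ := trail_fac hu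
    obtain ⟨wv, hwv, hwv0⟩ := trail_fac hv
    have hNC : (C (N:ℤ) : ℤ[X]) = C (v.natTrailingDegree : ℤ) - C (u.natTrailingDegree : ℤ) := by
      rw [hcase, ← C_sub]
      congr 1
      push_cast
      ring
    have hR : Y * ((th u * v' - u * v'') + C (N:ℤ) * (u * v')) =
        (th u - C (u.natTrailingDegree : ℤ) * u) * v - u * (th v - C (v.natTrailingDegree : ℤ) * v) := by
      rw [hNC]
      calc Y * ((th u * v' - u * v'') + (C (v.natTrailingDegree : ℤ) - C (u.natTrailingDegree : ℤ)) *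
            (u * v')) =
          th u * (Y * v') - u * (Y * v'') + (C (v.natTrailingDegree : ℤ) -
            C (u.natTrailingDegree : ℤ)) * (u * (Y * v')) := by ring
        _ = _ := by rw [← hY, ← hY']; ring
    obtain ⟨ou, hou⟩ : ∃ o, o = u.natTrailingDegree := ⟨_, rfl⟩
    obtain ⟨ov, hov⟩ : ∃ o, o = v.natTrailingDegree := ⟨_, rfl⟩
    rw [← hou] at hwu hcase
    rw [← hov] at hwv hcase
    have hdu : X ^ ou ∣ u := Dvd.intro _ hwu.symm
    have hdv : X ^ ov ∣ v := Dvd.intro _ hwv.symm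
    have hdR : X ^ (ou + ov + 1) ∣ Y * ((th u * v' - u * v'') + C (N:ℤ) * (u * v')) := by
      rw [hR]
      apply dvd_sub
      · have e1 : (X : ℤ[X]) ^ (ou + ov + 1) = X ^ (ou + 1) * X ^ ov := by ring
        rw [e1]
        rw [← hou] at hlu ⊢
        exact mul_dvd_mul hlu hdv
      · have e1 : (X : ℤ[X]) ^ (ou + ov + 1) = X ^ ou * X ^ (ov + 1) := by ring
        rw [e1]
        rw [← hov] at hlv ⊢
        exact mul_dvd_mul hdu hlv
    have h1 : ∀ᶠ x : ℝ in 𝓝[>] 0, ‖ev (x:ℂ) (Y * ((th u * v' - u * v'') + C (N:ℤ) * (u * v')))‖ ≤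
        ‖ev (x:ℂ) (Y * (u * v'))‖ := by
      apply dom_zero' (w := wu * wv) hdR
      · calc Y * (u * v') = u * (Y * v') := by ring
          _ = u * v := by rw [← hY]
          _ = (X ^ ou * wu) * (X ^ ov * wv) := by rw [← hwu, ← hwv]
          _ = _ := by ring
      · rw [mul_coeff_zero]
        exact mul_ne_zero hwu0 hwv0
    have h2 : ∀ᶠ x : ℝ in 𝓝[>] 0, ‖ev (x:ℂ) (C (K:ℤ) * v)‖ ≤ ‖ev (x:ℂ) (X ^ c₁ * u)‖ := by
      apply dom_zero' (w := wu) (o := c₁ + ou)
      · apply Dvd.dvd.mul_left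
        refine (pow_dvd_pow X ?_).trans hdv
        omega
      · rw [pow_add, mul_assoc, ← hwu]
      · exact hwu0
    obtain ⟨RY, hRY, hYx⟩ := lower_zero hY0
    have h3 : ∀ᶠ x : ℝ in 𝓝[>] 0, ((N:ℝ) / 2) ^ k2 * ‖ev (x:ℂ) (NO F 1 0 0 * (u * v') ^ k2)‖ ≤
        ‖ev (x:ℂ) (NO F (th u * v' - u * v'') (u * v') (v * v'))‖ ∧
        ‖ev (x:ℂ) (NO F (th u * v' - u * v'') (u * v') (v * v'))‖ ≤
          (2 * (N:ℝ)) ^ k2 * ‖ev (x:ℂ) (NO F 1 0 0 * (u * v') ^ k2)‖ := by
      have hRY0 : (0:ℝ) < RY := by linarith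
      filter_upwards [h1, h2, Ioo_mem_nhdsGT (Real.exp_pos (-τ₀)),
        Ioo_mem_nhdsGT (show (0:ℝ) < 1 / RY by positivity)] with x hx1 hx2 hx3 hx4
      have hx0 : 0 < x := hx3.1
      have hlog : Real.log x ≤ -τ₀ := by
        rw [Real.log_le_iff_le_exp hx0]
        exact hx3.2.le
      have hexp : Complex.exp ((Real.log x : ℝ) : ℂ) = (x:ℂ) := by
        rw [← Complex.ofReal_exp, Real.exp_log hx0]
      have habs : |(((Real.log x : ℝ) : ℂ)).re| = -Real.log x := by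
        rw [Complex.ofReal_re, abs_of_nonpos (by linarith)]
      have hxn : ‖(x:ℂ)‖ = x := by rw [Complex.norm_real, Real.norm_eq_abs, abs_of_pos hx0]
      have hYx0 : ev (x:ℂ) Y ≠ 0 := by
        have h5 := hYx (x:ℂ) (by exact_mod_cast hx0.ne') (by
          rw [hxn]
          have := hx4.2
          rw [lt_div_iff₀ hRY0] at this
          exact this.le)
        intro h0
        rw [h0, norm_zero, hxn] at h5
        have : 0 < x ^ Y.natDegree := by positivity
        linarith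
      have h4 := h ((Real.log x : ℝ) : ℂ) (by rw [habs]; linarith) (th u * v' - u * v'') (u * v')
        (v * v') (-(N:ℂ)) (by rw [norm_neg, Complex.norm_natCast]; exact hmN)
      rw [hexp, habs, norm_neg, Complex.norm_natCast] at h4
      apply h4
      · have e1 := hdiv _ _ _ hYx0 hx1
        have e2 : ev (x:ℂ) ((th u * v' - u * v'') + C (N:ℤ) * (u * v')) =
            ev (x:ℂ) (th u * v' - u * v'') - -(N:ℂ) * ev (x:ℂ) (u * v') := by
          rw [map_add, map_mul (ev (x:ℂ)) (C (N:ℤ)), ev_C]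
          push_cast
          ring
        rw [e2] at e1
        exact e1
      · have hxc : (0:ℝ) < x ^ c₁ := by positivity
        have e3 : Real.exp (c₁ * -Real.log x) = (x ^ c₁)⁻¹ := by
          rw [mul_neg, Real.exp_neg, Real.exp_nat_mul, Real.exp_log hx0]
        rw [map_mul, map_mul, norm_mul, norm_mul, map_pow, ev_X, norm_pow, hxn, ev_C, Int.cast_natCast,
          Complex.norm_natCast] at hx2
        rw [e3, map_mul, map_mul, norm_mul, norm_mul]
        calc ‖ev (x:ℂ) v‖ * ‖ev (x:ℂ) v'‖ * (K * (x ^ c₁)⁻¹) =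
            (K * ‖ev (x:ℂ) v‖) * (‖ev (x:ℂ) v'‖ * (x ^ c₁)⁻¹) := by ring
          _ ≤ (x ^ c₁ * ‖ev (x:ℂ) u‖) * (‖ev (x:ℂ) v'‖ * (x ^ c₁)⁻¹) :=
              mul_le_mul_of_nonneg_right hx2 (by positivity)
          _ = _ := by field_simp
    obtain ⟨h4, h5⟩ := side_zero hq (by positivity) h3
    exact ⟨h4, fin.le.trans h5⟩

end Pool.Agent.Zk21.My
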