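import Mathlib
import Pool.Agent.Zk21.MxC
import Pool.Agent.Zk21.MyC

/-!
# Moving targets, uniformly: the inequality on the circle
-/

set_option autoImplicit false

open Polynomial Metric Set Filter Topology Real

namespace Pool.Agent.Zk21.My

open Pool.Agent.R328 Pool.Agent.Zk21.Smt Pool.Agent.Zk21.Un Pool.Agent.Zk21.Pt Pool.Agent.Zk21.Ca
open Pool.Agent.Zk21.Mv Pool.Agent.Zk21.Mw Pool.Agent.Zk21.Mx

/-- the pointwise inequality off the diagonal, scaled -/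
theorem star_sc {S : Finset ℂ} {g h : ℂ[X]} (hg : g = ∏ α ∈ S, (X - C α)) {r : ℂ → ℂ → ℂ}
    {A b Λ₀ : ℝ} (hA : 1 ≤ A) (hb : 1 ≤ b) (hS : ∀ α ∈ S, ‖α‖ ≤ A)
    (hsep : ∀ α ∈ S, ∀ β ∈ S, α ≠ β → 1 ≤ A * ‖α - β‖)
    (hg' : ∀ α ∈ S, ‖(derivative g).eval α‖ ≤ b) (hh : ∀ α ∈ S, ‖h.eval α‖ ≤ b * Λ₀)
    (lg : ∀ α ∈ S, ∀ z : ℂ, ‖z‖ ≤ 2 * A →
      ‖(derivative g).eval z - (derivative g).eval α‖ ≤ b * ‖z - α‖)
    (lh : ∀ α ∈ S, ∀ z : ℂ, ‖z‖ ≤ 2 * A → ‖h.eval z - h.eval α‖ ≤ (b * Λ₀) * ‖z - α‖)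
    (hr : ∀ α ∈ S, ∀ β ∈ S, ‖r α β‖ ≤ b * Λ₀)
    (hrel : ∀ α ∈ S, ∀ β ∈ S, α ≠ β →
      (β - α) * r α β = (derivative g).eval α * h.eval β - h.eval α * (derivative g).eval β)
    {U V : ℂ} {Λ : ℝ} (hΛ₀ : Λ₀ ≤ Λ) (hΛ : 1 ≤ Λ) (hV : ‖V‖ ≤ ‖U‖ * Λ)
    (hf : ‖h.eval U + V * (derivative g).eval U‖ ≤ ‖g.eval U‖ * Λ) (hcard : 1 ≤ S.card) :
    ∏ α ∈ S, ∏ β ∈ S.erase α, ‖wt g h r U V α β‖ ≤
      (5 * A * b ^ 2 * (4 * A ^ 2) ^ S.card * (max 1 ‖U‖ * Λ)) ^ (S.card * (S.card - 1)) *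
        (5 * A * b ^ 2 * (4 * A ^ 2) ^ S.card * (‖g.eval U‖ / max 1 ‖U‖ ^ S.card)) ^
          (2 * (S.card - 1)) := by
  have hΛ0 : 0 < Λ := by linarith
  obtain ⟨q, hq⟩ : ∃ q : ℂ, q = ((Λ⁻¹ : ℝ) : ℂ) := ⟨_, rfl⟩
  have hqn : ‖q‖ = Λ⁻¹ := by rw [hq, Complex.norm_real, Real.norm_eq_abs, abs_of_pos (inv_pos.mpr hΛ0)]
  have hsc : ∀ (z : ℂ) (t : ℝ), ‖z‖ ≤ t * Λ → ‖q * z‖ ≤ t := by
    intro z t hz
    rw [norm_mul, hqn, inv_mul_le_iff₀ hΛ0]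
    linarith
  have hb0 : 0 ≤ b := by linarith
  have hsc' : ∀ (z : ℂ), ‖z‖ ≤ b * Λ₀ → ‖q * z‖ ≤ b := fun z hz =>
    hsc z b (hz.trans (mul_le_mul_of_nonneg_left hΛ₀ hb0))
  have h1 := star_off (S := S) (g := g) (h := C q * h) hg (r := fun α β => q * r α β) hA hb hS hsep hg'
    (by
      intro α hα
      rw [eval_mul, eval_C]
      exact hsc' _ (hh α hα)) lg (by
      intro α hα z hz
      rw [eval_mul, eval_mul, eval_C, eval_C, ← mul_sub]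
      apply hsc
      refine (lh α hα z hz).trans ?_
      have e1 : b * Λ₀ ≤ b * Λ := mul_le_mul_of_nonneg_left hΛ₀ hb0
      calc b * Λ₀ * ‖z - α‖ ≤ b * Λ * ‖z - α‖ := mul_le_mul_of_nonneg_right e1 (norm_nonneg _)
        _ = _ := by ring) (fun α hα β hβ => hsc' _ (hr α hα β hβ)) (by
      intro α hα β hβ hne
      rw [eval_mul, eval_mul, eval_C, eval_C]
      linear_combination q * hrel α hα β hβ hne) (U := U) (V := q * V) (Λ := 1) le_rfl (by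
      rw [mul_one]
      exact hsc _ _ hV) (by
      rw [mul_one, eval_mul, eval_C]
      have e1 : q * h.eval U + q * V * (derivative g).eval U =
          q * (h.eval U + V * (derivative g).eval U) := by ring
      rw [e1]
      exact hsc _ _ hf) hcard
  have h2 : ∀ α β, ‖wt g (C q * h) (fun α β => q * r α β) U (q * V) α β‖ =
      Λ⁻¹ * ‖wt g h r U V α β‖ := by
    intro α β
    rw [← hqn, ← norm_mul]
    congr 1
    unfold wt
    rw [eval_mul, eval_C]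
    ring
  simp_rw [h2] at h1
  rw [prod_off, mul_one, inv_pow, inv_mul_le_iff₀ (by positivity)] at h1
  refine h1.trans (le_of_eq ?_)
  rw [← mul_assoc _ (max 1 ‖U‖) Λ, mul_pow _ Λ]
  ring

/-- the pointwise inequality on the circle -/
lemma circle_ptU {F : ℤ[X][X]} (hF : F.Monic) (hk : 0 < F.natDegree) {u v Y v' v'' : ℤ[X]} {x : ℂ}
    (hx : ‖x‖ = 1) {A b Λ₀ σ : ℝ} (hg : GeoL F x A b Λ₀) (hu : ev x u ≠ 0) (hv : ev x v ≠ 0)
    (hf : ev x (fv F u v) ≠ 0) (hY : v = Y * v') (hY' : th v = Y * v'')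
    {c : ℝ} (hc1 : 1 ≤ c) (hσ : 0 ≤ σ) (hΛ₀ : Λ₀ ≤ c * Real.exp σ) :
    ‖ev x (NO F (th u * v' - u * v'') (u * v') (v * v'))‖ ≤
      (5 * A * b ^ 2 * (4 * A ^ 2) ^ F.natDegree * ((‖ev x v‖ * max ‖ev x u‖ ‖ev x v‖ / ‖ev x Y‖) *
        ((F.natDegree + 1) * c * Real.exp (FW (u.map (Int.castRingHom ℂ)) c x +
          FW (v.map (Int.castRingHom ℂ)) c x +
          FW ((fv F u v).map (Int.castRingHom ℂ)) c x + σ)))) ^ (F.natDegree * (F.natDegree - 1)) *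
      (5 * A * b ^ 2 * (4 * A ^ 2) ^ F.natDegree *
        (‖ev x (fv F u v)‖ / max ‖ev x u‖ ‖ev x v‖ ^ F.natDegree)) ^ (2 * (F.natDegree - 1)) := by
  have hx0 : x ≠ 0 := by
    rintro rfl
    simp at hx
  have hYv : ev x v = ev x Y * ev x v' := by rw [← map_mul, ← hY]
  have hY0 : ev x Y ≠ 0 := by
    intro h
    rw [h, zero_mul] at hYv
    exact hv hYv
  have hYn : 0 < ‖ev x Y‖ := norm_pos_iff.mpr hY0
  have hvn : 0 < ‖ev x v‖ := norm_pos_iff.mpr hv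
  obtain ⟨U, hU⟩ : ∃ U, U = ev x u / ev x v := ⟨_, rfl⟩
  obtain ⟨V, hV⟩ : ∃ V, V = (ev x (th u) * ev x v - ev x u * ev x (th v)) / ev x v ^ 2 := ⟨_, rfl⟩
  obtain ⟨k, hkd⟩ : ∃ k, k = F.natDegree := ⟨_, rfl⟩
  obtain ⟨H, hH⟩ : ∃ H, H = max ‖ev x u‖ ‖ev x v‖ := ⟨_, rfl⟩
  have hH0 : 0 < H := by rw [hH]; exact lt_max_of_lt_right hvn
  have hmH : max 1 ‖U‖ = H / ‖ev x v‖ := by
    rw [hU, norm_div, hH, ← max_div_div_right hvn.le, div_self hvn.ne', max_comm]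
  have hfn : ‖(F.map (ev x)).eval U‖ = ‖ev x (fv F u v)‖ / ‖ev x v‖ ^ k := by
    rw [fv_eval F u v hv, norm_mul, norm_pow, ← hU, ev2_eq, ← hkd, mul_div_cancel_left₀]
    exact pow_ne_zero _ hvn.ne'
  obtain ⟨fu, hfu⟩ : ∃ t, t = FW (u.map (Int.castRingHom ℂ)) c x := ⟨_, rfl⟩
  obtain ⟨fw, hfw⟩ : ∃ t, t = FW (v.map (Int.castRingHom ℂ)) c x := ⟨_, rfl⟩
  obtain ⟨ff, hff⟩ : ∃ t, t = FW ((fv F u v).map (Int.castRingHom ℂ)) c x := ⟨_, rfl⟩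
  have hfu0 : 0 ≤ fu := by rw [hfu]; exact FW_nonneg _ _ _
  have hfw0 : 0 ≤ fw := by rw [hfw]; exact FW_nonneg _ _ _
  have hff0 : 0 ≤ ff := by rw [hff]; exact FW_nonneg _ _ _
  rw [← hfu, ← hfw, ← hff, ← hH, ← hkd]
  have hk1 : (1:ℝ) ≤ k := by
    rw [hkd]
    exact_mod_cast hk
  have hc0 : 0 ≤ c := by linarith
  obtain ⟨E, hE⟩ : ∃ E, E = Real.exp (fu + fw + ff + σ) := ⟨_, rfl⟩
  have hE1 : 1 ≤ E := by rw [hE]; exact Real.one_le_exp (by linarith)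
  have hEu : Real.exp fu ≤ E := by rw [hE]; exact Real.exp_le_exp.mpr (by linarith)
  have hEv : Real.exp fw ≤ E := by rw [hE]; exact Real.exp_le_exp.mpr (by linarith)
  have hEf : Real.exp ff ≤ E := by rw [hE]; exact Real.exp_le_exp.mpr (by linarith)
  have hEσ : Real.exp σ ≤ E := by rw [hE]; exact Real.exp_le_exp.mpr (by linarith)
  obtain ⟨Λ, hΛ⟩ : ∃ Λ, Λ = ((k:ℝ) + 1) * c * E := ⟨_, rfl⟩
  rw [← hE, ← hΛ]
  have hcE : 1 ≤ c * E := o1 hc1 hE1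
  have hΛ2 : 2 * (c * E) ≤ Λ := by rw [hΛ]; nlinarith
  have hΛ1 : 1 ≤ Λ := by linarith
  have hΛ0Λ : Λ₀ ≤ Λ := by
    have h1 : c * Real.exp σ ≤ c * E := mul_le_mul_of_nonneg_left hEσ hc0
    linarith
  have step : ∀ (P : ℤ[X]), ev x P ≠ 0 →
      Real.exp (FW (P.map (Int.castRingHom ℂ)) c x) ≤ E → ‖ev x (th P)‖ ≤ ‖ev x P‖ * (c * E) := by
    intro P hP hex
    have h1 := one_step (P := P.map (Int.castRingHom ℂ)) (c := c) (by linarith) (x := x)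
      (fun _ => by rwa [← ev_eq])
    rw [th_map, ← ev_eq, ← ev_eq] at h1
    refine h1.trans ?_
    apply mul_le_mul_of_nonneg_left _ (norm_nonneg _)
    exact mul_le_mul_of_nonneg_left hex hc0
  have hsu := step u hu (by rw [← hfu]; exact hEu)
  have hsv := step v hv (by rw [← hfw]; exact hEv)
  have hsf := step (fv F u v) hf (by rw [← hff]; exact hEf)
  have hVΛ : ‖V‖ ≤ ‖U‖ * Λ := by
    rw [hV, hU, norm_div, norm_div, norm_pow, div_le_iff₀ (by positivity)]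
    have h1 : ‖ev x (th u) * ev x v - ev x u * ev x (th v)‖ ≤
        ‖ev x u‖ * (c * E) * ‖ev x v‖ + ‖ev x u‖ * (‖ev x v‖ * (c * E)) := by
      refine (norm_sub_le _ _).trans ?_
      rw [norm_mul, norm_mul]
      exact add_le_add (mul_le_mul_of_nonneg_right hsu (norm_nonneg _))
        (mul_le_mul_of_nonneg_left hsv (norm_nonneg _))
    refine h1.trans ?_
    have h2 : ‖ev x u‖ / ‖ev x v‖ * Λ * ‖ev x v‖ ^ 2 = ‖ev x u‖ * ‖ev x v‖ * Λ := by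
      field_simp
    rw [h2]
    have h3 : 0 ≤ ‖ev x u‖ * ‖ev x v‖ := by positivity
    nlinarith
  have hfΛ : ‖((FD F).map (ev x)).eval U + V * (derivative (F.map (ev x))).eval U‖ ≤
      ‖(F.map (ev x)).eval U‖ * Λ := by
    have h1 := total F u v hx0 hv
    rw [← hU, ← hV, ev2_eq, ev2_eq, ← derivative_map] at h1
    rw [mul_comm V, h1, norm_div, norm_pow, hfn, ← hkd]
    rw [div_le_iff₀ (by positivity)]
    have h2 : ‖ev x (th (fv F u v)) * ev x v - (k:ℂ) * (ev x (fv F u v) * ev x (th v))‖ ≤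
        ‖ev x (fv F u v)‖ * (c * E) * ‖ev x v‖ + k * (‖ev x (fv F u v)‖ * (‖ev x v‖ * (c * E))) := by
      refine (norm_sub_le _ _).trans ?_
      rw [norm_mul, norm_mul, norm_mul, Complex.norm_natCast]
      apply add_le_add (mul_le_mul_of_nonneg_right hsf (norm_nonneg _))
      apply mul_le_mul_of_nonneg_left _ (by positivity)
      exact mul_le_mul_of_nonneg_left hsv (norm_nonneg _)
    refine h2.trans (le_of_eq ?_)
    have h3 : ‖ev x v‖ ^ k ≠ 0 := pow_ne_zero _ hvn.ne'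
    have h4 : ‖ev x (fv F u v)‖ / ‖ev x v‖ ^ k * Λ * ‖ev x v‖ ^ (k + 1) =
        ‖ev x (fv F u v)‖ * Λ * ‖ev x v‖ := by
      rw [pow_succ]
      field_simp
    rw [h4, hΛ]
    ring
  have hcard := Rt_card hF x hg.nodup
  have hprod : F.map (ev x) = ∏ α ∈ Rt F x hg.nodup, (X - C α) := by
    have h1 := (IsAlgClosed.splits (F.map (ev x))).eq_prod_roots_of_monic (hF.map _)
    exact h1
  have hstar := star_sc hprod (r := rr F x) hg.hA hg.hb hg.bd hg.sep hg.gb hg.hh hg.lg hg.lh hg.rb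
    (fun α _ β _ _ => rr_rel F x α β) hΛ0Λ hΛ1 hVΛ hfΛ (by rw [hcard]; exact hk)
  rw [hcard, hmH, hfn, ← hkd] at hstar
  -- the factor
  obtain ⟨q, hq⟩ : ∃ q, q = ev x v ^ 2 / ev x Y := ⟨_, rfl⟩
  have hv' : ev x v' = ev x v / ev x Y := by rw [hYv, mul_div_cancel_left₀ _ hY0]
  have hv'' : ev x v'' = ev x (th v) / ev x Y := by rw [hY', map_mul, mul_div_cancel_left₀ _ hY0]
  have hNN : ‖ev x (NO F (th u * v' - u * v'') (u * v') (v * v'))‖ = ‖q‖ ^ (k * (k - 1)) *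
      ∏ α ∈ Rt F x hg.nodup, ∏ β ∈ (Rt F x hg.nodup).erase α,
        ‖wt (F.map (ev x)) ((FD F).map (ev x)) (rr F x) U V α β‖ := by
    have e0 := prod_off (Rt F x hg.nodup) ‖q‖
      (fun α β => ‖wt (F.map (ev x)) ((FD F).map (ev x)) (rr F x) U V α β‖)
    rw [hcard, ← hkd] at e0
    rw [← e0, NO_fin hF hk _ _ _ x hg.nodup, norm_prod]
    apply Finset.prod_congr rfl
    intro α _
    rw [norm_prod]
    apply Finset.prod_congr rfl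
    intro β _
    rw [← norm_mul]
    congr 1
    rw [map_sub, map_mul, map_mul, map_mul, map_mul, hv', hv'', hq]
    unfold wt
    rw [hU, hV]
    field_simp
  rw [hNN]
  have hqn : ‖q‖ = ‖ev x v‖ ^ 2 / ‖ev x Y‖ := by rw [hq, norm_div, norm_pow]
  refine (mul_le_mul_of_nonneg_left hstar (by positivity)).trans (le_of_eq ?_)
  have z1 : ‖q‖ * (5 * A * b ^ 2 * (4 * A ^ 2) ^ k * (H / ‖ev x v‖ * Λ)) =
      5 * A * b ^ 2 * (4 * A ^ 2) ^ k * (‖ev x v‖ * H / ‖ev x Y‖ * Λ) := by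
    rw [hqn]
    field_simp
  have z2 : ‖ev x (fv F u v)‖ / ‖ev x v‖ ^ k / (H / ‖ev x v‖) ^ k = ‖ev x (fv F u v)‖ / H ^ k := by
    rw [div_pow, div_div_div_cancel_right₀]
    exact pow_ne_zero _ hvn.ne'
  rw [← mul_assoc, ← mul_pow, z1, z2]

end Pool.Agent.Zk21.My
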