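import Mathlib
import Pool.Agent.Zk21.MyD
import Pool.Agent.Zk21.MwG

/-!
# Moving targets, uniformly: the height
-/

set_option autoImplicit false

open Polynomial Metric Set Filter Topology Real

namespace Pool.Agent.Zk21.My

open Pool.Agent.R328 Pool.Agent.Zk21.Smt Pool.Agent.Zk21.Un Pool.Agent.Zk21.Pt Pool.Agent.Zk21.Ca
open Pool.Agent.Zk21.Mv Pool.Agent.Zk21.Mw Pool.Agent.Zk21.Mx

/-- the resultant at a point -/
lemma dR_bound (k : ℕ) : ∃ C : ℝ, 1 ≤ C ∧ ∃ c : ℕ, ∀ F : ℤ[X][X], F.Monic → F.natDegree = k →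
    ∀ (x : ℂ) (W : ℝ), 1 ≤ W → (∀ i, ‖(F.map (ev x)).coeff i‖ ≤ W) →
    ‖ev x (dR F)‖ ≤ C * W ^ c := by
  have hk0 : (0:ℝ) ≤ k := Nat.cast_nonneg _
  have hk1 : (1:ℝ) ≤ (k:ℝ) + 1 := by linarith
  obtain ⟨Ct, hCt⟩ : ∃ Ct : ℝ, Ct = ((k:ℝ) + 1) ^ 3 * ((k:ℝ) + 1) ^ k := ⟨_, rfl⟩
  have hCt1 : 1 ≤ Ct := by
    rw [hCt]
    exact o1 (one_le_pow₀ hk1) (one_le_pow₀ hk1)
  refine ⟨Ct ^ k, one_le_pow₀ hCt1, (1 + k) * k, ?_⟩
  intro F hF hFk x W hW hg
  have hW0 : 0 ≤ W := by linarith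
  have hgm : (F.map (ev x)).Monic := hF.map _
  have hgd : (F.map (ev x)).natDegree = k := by rw [← hFk]; exact natDegree_map_ev hF x
  obtain ⟨cu1, cu2, cu3⟩ := cub hk0
  have hA : 1 ≤ ((k:ℝ) + 1) * W := o1 hk1 hW
  have h1 : ∀ α ∈ (F.map (ev x)).roots, ‖(derivative (F.map (ev x))).eval α‖ ≤ Ct * W ^ (1 + k) := by
    intro α hα
    have hb := root_bound hgm hW hg (mem_roots'.mp hα).2
    rw [hgd] at hb
    refine (pb (der_deg hgd.le) (pb_der hgd.le hg) hA hb).trans ?_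
    have e1 : ((k:ℝ) + 1) * (k * W) * (((k:ℝ) + 1) * W) ^ k =
        ((k:ℝ) + 1) * k * (((k:ℝ) + 1) ^ k * W ^ (1 + k)) := by
      rw [mul_pow, pow_add, pow_one]
      ring
    have e2 : Ct * W ^ (1 + k) = ((k:ℝ) + 1) ^ 3 * (((k:ℝ) + 1) ^ k * W ^ (1 + k)) := by
      rw [hCt]
      ring
    rw [e1, e2]
    exact mul_le_mul_of_nonneg_right cu2 (by positivity)
  rw [dR_eval hF x]
  refine (norm_mprod _ _ (by positivity) h1).trans ?_
  have hc : (F.map (ev x)).roots.card ≤ k := by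
    have := card_roots' (F.map (ev x))
    omega
  have h2 : 1 ≤ Ct * W ^ (1 + k) := o1 hCt1 (one_le_pow₀ hW)
  refine (pow_le_pow_right₀ h2 hc).trans (le_of_eq ?_)
  rw [mul_pow, ← pow_mul]

/-- the coefficients at a point -/
lemma coef_W (F : ℤ[X][X]) (x : ℂ) (i : ℕ) : ‖(F.map (ev x)).coeff i‖ ≤
    exp (∑ i ∈ Finset.range (F.natDegree + 1),
      log⁺ ‖((F.coeff i).map (Int.castRingHom ℂ)).eval x‖) := by
  rw [coeff_map]
  by_cases hi : i ∈ Finset.range (F.natDegree + 1)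
  · refine (le_exp_posLog (norm_nonneg _)).trans (exp_le_exp.mpr ?_)
    rw [ev_eq]
    exact Finset.single_le_sum
      (f := fun i => log⁺ ‖((F.coeff i).map (Int.castRingHom ℂ)).eval x‖)
      (fun _ _ => posLog_nonneg) hi
  · have h0 : F.coeff i = 0 := by
      apply coeff_eq_zero_of_natDegree_lt
      rw [Finset.mem_range] at hi
      omega
    rw [h0, map_zero, norm_zero]
    exact (exp_pos _).le

lemma sum_int (F : ℤ[X][X]) (s : Finset ℕ) : CircleIntegrable (fun x => ∑ i ∈ s,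
    log⁺ ‖((F.coeff i).map (Int.castRingHom ℂ)).eval x‖) 0 1 := by
  have h := CircleIntegrable.sum s (fun i (_ : i ∈ s) =>
    posLog_int ((F.coeff i).map (Int.castRingHom ℂ)))
  convert h using 1
  funext x
  rw [Finset.sum_apply]

lemma sum_avg (F : ℤ[X][X]) (s : Finset ℕ) : circleAverage (fun x => ∑ i ∈ s,
    log⁺ ‖((F.coeff i).map (Int.castRingHom ℂ)).eval x‖) 0 1 =
    ∑ i ∈ s, mp ((F.coeff i).map (Int.castRingHom ℂ)) :=
  circleAverage_fun_sum fun i _ => posLog_int ((F.coeff i).map (Int.castRingHom ℂ))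

lemma sumFW_int (F : ℤ[X][X]) (c : ℝ) (s : Finset ℕ) : CircleIntegrable (fun x => ∑ i ∈ s,
    FW ((F.coeff i).map (Int.castRingHom ℂ)) c x) 0 1 := by
  have h := CircleIntegrable.sum s (fun i (_ : i ∈ s) =>
    FW_int ((F.coeff i).map (Int.castRingHom ℂ)) c)
  convert h using 1
  funext x
  rw [Finset.sum_apply]

lemma sumFW_avg (F : ℤ[X][X]) (c : ℝ) (s : Finset ℕ) : circleAverage (fun x => ∑ i ∈ s,
    FW ((F.coeff i).map (Int.castRingHom ℂ)) c x) 0 1 =
    ∑ i ∈ s, circleAverage (FW ((F.coeff i).map (Int.castRingHom ℂ)) c) 0 1 :=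
  circleAverage_fun_sum fun i _ => FW_int ((F.coeff i).map (Int.castRingHom ℂ)) c

/-- the mean of `log⁺` of the resultant -/
lemma dR_mp (k : ℕ) : ∃ C : ℝ, 0 ≤ C ∧ ∀ K : ℝ, 0 ≤ K → ∀ F : ℤ[X][X], F.Monic →
    F.natDegree = k → (∀ i, mp ((F.coeff i).map (Int.castRingHom ℂ)) ≤ K) →
    mp ((dR F).map (Int.castRingHom ℂ)) ≤ C * (1 + K) := by
  obtain ⟨C, hC, c, h⟩ := dR_bound k
  have hl : 0 ≤ log C := log_nonneg hC
  refine ⟨log C + c * (k + 1), by positivity, ?_⟩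
  intro K hK0 F hF hFk hK
  have key : mp ((dR F).map (Int.castRingHom ℂ)) ≤ circleAverage ((fun _ => log C) +
      (c:ℝ) • (fun x => ∑ i ∈ Finset.range (F.natDegree + 1),
        log⁺ ‖((F.coeff i).map (Int.castRingHom ℂ)).eval x‖)) 0 1 := by
    unfold mp
    apply circleAverage_mono (posLog_int _)
      ((circleIntegrable_const _ _ _).add ((sum_int F _).const_smul))
    intro x _
    simp only [Pi.add_apply, Pi.smul_apply, smul_eq_mul]
    obtain ⟨w, hw⟩ : ∃ w, w = ∑ i ∈ Finset.range (F.natDegree + 1),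
        log⁺ ‖((F.coeff i).map (Int.castRingHom ℂ)).eval x‖ := ⟨_, rfl⟩
    have hw0 : 0 ≤ w := by
      rw [hw]
      exact Finset.sum_nonneg fun _ _ => posLog_nonneg
    have h1 := h F hF hFk x (exp w) (one_le_exp hw0) (fun i => by rw [hw]; exact coef_W F x i)
    rw [ev_eq] at h1
    rw [← hw]
    have h2 : 1 ≤ C * exp w ^ c := o1 hC (one_le_pow₀ (one_le_exp hw0))
    refine (posLog_le_posLog (norm_nonneg _) h1).trans (le_of_eq ?_)
    rw [posLog_eq_log (by rw [abs_of_pos (by linarith)]; exact h2), log_mul (by positivity)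
      (by positivity), ← exp_nat_mul, log_exp]
  rw [circleAverage_add (circleIntegrable_const _ _ _) ((sum_int F _).const_smul),
    circleAverage_const, circleAverage_smul, sum_avg, smul_eq_mul] at key
  refine key.trans ?_
  have h3 : ∑ i ∈ Finset.range (F.natDegree + 1), mp ((F.coeff i).map (Int.castRingHom ℂ)) ≤
      (k + 1) * K := by
    refine (Finset.sum_le_sum fun i _ => hK i).trans (le_of_eq ?_)
    rw [Finset.sum_const, Finset.card_range, nsmul_eq_mul, hFk]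
    push_cast
    ring
  have h4 : (c:ℝ) * ∑ i ∈ Finset.range (F.natDegree + 1), mp ((F.coeff i).map (Int.castRingHom ℂ)) ≤
      c * ((k + 1) * K) := mul_le_mul_of_nonneg_left h3 (Nat.cast_nonneg _)
  have h5 : 0 ≤ (c:ℝ) * (k + 1) := by positivity
  have h6 : 0 ≤ log C * K := by positivity
  linarith

/-- the mean of `log⁺ (1 / |r|)` -/
lemma inv_avg {r : ℤ[X]} (hr : r ≠ 0) :
    circleAverage (fun x => log⁺ ‖(1:ℂ[X]).eval x / (r.map (Int.castRingHom ℂ)).eval x‖) 0 1 ≤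
      mp (r.map (Int.castRingHom ℂ)) := by
  have h1 : (fun x => log⁺ ‖(1:ℂ[X]).eval x / (r.map (Int.castRingHom ℂ)).eval x‖) =
      (fun x => log⁺ ‖(r.map (Int.castRingHom ℂ)).eval x‖) -
        (fun x => log ‖(r.map (Int.castRingHom ℂ)).eval x‖) := by
    funext x
    rw [Pi.sub_apply, eval_one, norm_div, norm_one, one_div]
    have := posLog_sub_posLog_inv (x := ‖(r.map (Int.castRingHom ℂ)).eval x‖)
    linarith
  rw [h1, circleAverage_sub (posLog_int _) (log_int _), Un.log_mahler]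
  have h2 : 0 ≤ log (r.map (Int.castRingHom ℂ)).mahlerMeasure := lM_nonneg hr
  have h3 : circleAverage (fun x => log⁺ ‖(r.map (Int.castRingHom ℂ)).eval x‖) 0 1 =
    mp (r.map (Int.castRingHom ℂ)) := rfl
  rw [h3]
  linarith

lemma arith3 {p m T L N lN ln l2c l8 l2 sB sBc sBf a1 a2 a3 a4 q4 V B₃ : ℝ} (hp : 0 ≤ p)
    (hB₃ : B₃ = sB + p * l8 + p * l2 + sBc + p * (6 + q4))
    (hN : p * (lN - l2) ≤ N) (h2c : l2c ≤ l8 + ln) (ha1 : a1 ≤ 2) (ha2 : a2 ≤ 2) (ha3 : a3 ≤ 2)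
    (ha4 : a4 ≤ q4) (hf : sBf ≤ sBc)
    (hpt : N ≤ (sB + p * l2c) + (sBf + (-p * T + (p * V +
      (p * (a1 + a2 + a3 + a4) + m * L))))) :
    p * T ≤ B₃ + p * V + m * L + p * (ln - lN) := by
  have g1 : p * l2c ≤ p * (l8 + ln) := mul_le_mul_of_nonneg_left h2c hp
  have g2 : p * (a1 + a2 + a3 + a4) ≤ p * (6 + q4) := mul_le_mul_of_nonneg_left (by linarith) hp
  rw [hB₃]
  linarith

/-- **the height is bounded by the measure, uniformly** -/
theorem T_boundU {k : ℕ} (hk : 2 ≤ k) : ∃ B : ℝ, 0 ≤ B ∧ ∃ n₁ : ℕ, 1 ≤ n₁ ∧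
      ∀ K : ℝ, 0 ≤ K → ∀ F : ℤ[X][X], F.Monic → F.natDegree = k → ∀ d : ℕ, (∀ i, (F.coeff i).natDegree ≤ d) →
      (∀ i, mp ((F.coeff i).map (Int.castRingHom ℂ)) ≤ K) → dR F ≠ 0 →
      ∀ (u v Y v' v'' : ℤ[X]) (N n : ℕ), u ≠ 0 → v ≠ 0 → v = Y * v' → th v = Y * v'' →
      n₁ * (d + 1) ≤ N →
      (u.natDegree = v.natDegree + N ∨ v.natTrailingDegree = u.natTrailingDegree + N) →
      u.natDegree ≤ n → v.natDegree ≤ n → fv F u v ≠ 0 →
      ((k * (k - 1) : ℕ) : ℝ) * TH u v ≤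
        B * (1 + K) + ((k * (k - 1) : ℕ) : ℝ) * (lM v - lM Y) +
        ((2 * (k - 1) : ℕ) : ℝ) * lM (fv F u v) +
        ((k * (k - 1) : ℕ) : ℝ) * (log n - log N) := by
  obtain ⟨n₁, hn₁, hlow⟩ := NO_lowerU (k := k) (by omega)
  obtain ⟨C₀, hC₀, cg, hgeo⟩ := geoU k
  obtain ⟨Cr, hCr, hdR⟩ := dR_mp k
  have hkR : (2:ℝ) ≤ k := by exact_mod_cast hk
  obtain ⟨kp, hkp⟩ : ∃ kp : ℕ, kp = k * (k - 1) := ⟨_, rfl⟩
  obtain ⟨km, hkm⟩ : ∃ km : ℕ, km = 2 * (k - 1) := ⟨_, rfl⟩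
  rw [← hkp, ← hkm]
  have hkpR : (kp : ℝ) = k * (k - 1) := by
    rw [hkp]
    push_cast [Nat.cast_sub (show 1 ≤ k by omega)]
    ring
  have hkmR : (km : ℝ) = 2 * (k - 1) := by
    rw [hkm]
    push_cast [Nat.cast_sub (show 1 ≤ k by omega)]
    ring
  obtain ⟨Φ₁, hΦ₁⟩ : ∃ Φ₁ : ℝ, Φ₁ = (k + 1) + Cr := ⟨_, rfl⟩
  have hΦ10 : 0 ≤ Φ₁ := by rw [hΦ₁]; positivity
  obtain ⟨s, hs⟩ : ∃ s : ℝ, s = (kp:ℝ) + km := ⟨_, rfl⟩
  have hs0 : 0 ≤ s := by rw [hs]; positivity
  obtain ⟨B₁, hB₁⟩ : ∃ B₁ : ℝ, B₁ = log (5 * 4 ^ k) + (3 + 2 * k) * log C₀ := ⟨_, rfl⟩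
  have hlC : 0 ≤ log C₀ := log_nonneg hC₀
  have hB₁0 : 0 ≤ B₁ := by
    rw [hB₁]
    have : (1:ℝ) ≤ 5 * 4 ^ k := by
      have : (1:ℝ) ≤ 4 ^ k := one_le_pow₀ (by norm_num)
      linarith
    have := log_nonneg this
    positivity
  obtain ⟨B₂, hB₂⟩ : ∃ B₂ : ℝ, B₂ = (3 + 2 * k) * cg := ⟨_, rfl⟩
  have hB₂0 : 0 ≤ B₂ := by rw [hB₂]; positivity
  obtain ⟨B₄, hB₄⟩ : ∃ B₄ : ℝ, B₄ = s * B₁ + (kp:ℝ) * log (4 * (k + 1) * (2 * k + 1)) +
    (kp:ℝ) * log 2 + (kp:ℝ) * (6 + (k + 1) * 2) := ⟨_, rfl⟩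
  have hl8 : 0 ≤ log (4 * ((k:ℝ) + 1) * (2 * k + 1)) := by
    apply log_nonneg
    nlinarith
  have hl2 : 0 ≤ log 2 := log_nonneg (by norm_num)
  have hB₄0 : 0 ≤ B₄ := by
    rw [hB₄]
    positivity
  refine ⟨B₄ + s * B₂ * Φ₁, by positivity, n₁, hn₁, ?_⟩
  intro K hK0 F hF hFk d hd hK hdF u v Y v' v'' N n hu0 hv0 hY hY' hN hcase hun hvn hf0
  obtain ⟨Φ, hΦ⟩ : ∃ Φ : ℝ, Φ = Φ₁ * (1 + K) := ⟨_, rfl⟩
  have hΦ0 : 0 ≤ Φ := by rw [hΦ]; positivity
  obtain ⟨B₃, hB₃⟩ : ∃ B₃ : ℝ, B₃ = s * B₁ + (kp:ℝ) * log (4 * (k + 1) * (2 * k + 1)) +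
    (kp:ℝ) * log 2 + s * B₂ * Φ + (kp:ℝ) * (6 + (k + 1) * 2) := ⟨_, rfl⟩
  have hB₃4 : B₃ ≤ (B₄ + s * B₂ * Φ₁) * (1 + K) := by
    have e1 : B₃ = B₄ + s * B₂ * Φ₁ * (1 + K) := by
      rw [hB₃, hB₄, hΦ]
      ring
    rw [e1, add_mul]
    have e2 : 0 ≤ B₄ * K := by positivity
    linarith
  obtain ⟨hNN, hNNl⟩ := hlow F hF hFk d hd hdF u v Y v' v'' N hu0 hv0 hY hY' hN hcase
  rw [hFk, ← hkp] at hNNl
  obtain ⟨r, hr⟩ : ∃ r, r = dR F := ⟨_, rfl⟩
  have hcrK := hdR K hK0 F hF hFk hK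
  rw [← hr] at hdF hcrK
  set r' := r.map (Int.castRingHom ℂ) with hr'
  obtain ⟨φ, hφ⟩ : ∃ φ : ℂ → ℝ, φ = (fun x => ∑ i ∈ Finset.range (F.natDegree + 1),
      log⁺ ‖((F.coeff i).map (Int.castRingHom ℂ)).eval x‖) +
      (fun x => log⁺ ‖(1:ℂ[X]).eval x / r'.eval x‖) := ⟨_, rfl⟩
  have hφi : CircleIntegrable φ 0 1 := by
    rw [hφ]
    exact (sum_int F _).add (posLog_ratio_int _ _)
  have hφa : circleAverage φ 0 1 ≤ Φ := by
    rw [hφ, circleAverage_add (sum_int F _) (posLog_ratio_int _ _), sum_avg, hΦ, hΦ₁]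
    have e1 : ∑ i ∈ Finset.range (F.natDegree + 1), mp ((F.coeff i).map (Int.castRingHom ℂ)) ≤
        (k + 1) * K := by
      refine (Finset.sum_le_sum fun i _ => hK i).trans (le_of_eq ?_)
      rw [Finset.sum_const, Finset.card_range, nsmul_eq_mul, hFk]
      push_cast
      ring
    have e2 := (inv_avg hdF).trans hcrK
    linarith
  have hY0 : Y ≠ 0 := by
    rintro rfl
    rw [zero_mul] at hY
    exact hv0 hY
  have hNn : N ≤ n := by
    rcases hcase with h1 | h1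
    · omega
    · have := natTrailingDegree_le_natDegree v
      omega
  obtain ⟨f, hf⟩ : ∃ f, f = fv F u v := ⟨_, rfl⟩
  rw [← hf] at hf0 ⊢
  obtain ⟨NP, hNP⟩ : ∃ NP, NP = NO F (th u * v' - u * v'') (u * v') (v * v') := ⟨_, rfl⟩
  rw [← hNP] at hNN hNNl
  have hNd : d + 1 ≤ N := by nlinarith
  have hn0 : 1 ≤ n := by omega
  have hnR : (1:ℝ) ≤ n := by exact_mod_cast hn0
  obtain ⟨D, hD⟩ : ∃ D : ℕ, D = (k + 1) * d := ⟨_, rfl⟩
  have hDn : (D:ℝ) ≤ (k + 1) * n := by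
    have h1 : D ≤ (k + 1) * n := by
      rw [hD]
      exact Nat.mul_le_mul_left _ (by omega)
    exact_mod_cast h1
  have hDR : (0:ℝ) ≤ D := Nat.cast_nonneg _
  obtain ⟨c, hc⟩ : ∃ c : ℝ, c = 4 * ((k:ℝ) * n + D) := ⟨_, rfl⟩
  have hkn2 : (n:ℝ) ≤ k * n := le_mul_of_one_le_left (by linarith) (by linarith)
  have hc1 : 1 ≤ c := by rw [hc]; linarith
  set u₁ := u.map (Int.castRingHom ℂ) with hu₁
  set v₁ := v.map (Int.castRingHom ℂ) with hv₁
  set Y₁ := Y.map (Int.castRingHom ℂ) with hY₁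
  set f' := f.map (Int.castRingHom ℂ) with hf'
  set N' := NP.map (Int.castRingHom ℂ) with hN'
  have hud : (u₁.natDegree : ℝ) ≤ n := by
    have : u₁.natDegree ≤ n := by rw [hu₁, natDeg_map]; exact hun
    exact_mod_cast this
  have hvd : (v₁.natDegree : ℝ) ≤ n := by
    have : v₁.natDegree ≤ n := by rw [hv₁, natDeg_map]; exact hvn
    exact_mod_cast this
  have hfd : f'.natDegree ≤ D + k * n := by
    rw [hf', natDeg_map, hD, hf]
    refine (fv_deg F hun hvn).trans ?_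
    rw [hFk]
    apply Nat.add_le_add_right
    refine (Finset.sum_le_sum fun i _ => hd i).trans ?_
    rw [Finset.sum_const, Finset.card_range, smul_eq_mul]
  have hfdR : (f'.natDegree : ℝ) ≤ D + k * n := by exact_mod_cast hfd
  have avg : ∀ R : ℂ[X], (R.natDegree : ℝ) ≤ D + k * n → circleAverage (FW R c) 0 1 ≤ 2 := by
    intro R hR
    refine (FW_avg (by linarith) ?_).trans ?_
    · rw [hc]
      linarith
    · rw [div_le_iff₀ (by linarith), hc]
      linarith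
  have ha1 := avg u₁ (by linarith)
  have ha2 := avg v₁ (by linarith)
  have ha3 := avg f' hfdR
  obtain ⟨ψ, hψ⟩ : ∃ ψ : ℂ → ℝ, ψ = fun x => ∑ i ∈ Finset.range (F.natDegree + 1),
      FW ((F.coeff i).map (Int.castRingHom ℂ)) c x := ⟨_, rfl⟩
  have hψi : CircleIntegrable ψ 0 1 := by
    rw [hψ]
    exact sumFW_int F c _
  have hψa : circleAverage ψ 0 1 ≤ (k + 1) * 2 := by
    rw [hψ, sumFW_avg]
    refine (Finset.sum_le_sum (g := fun _ => (2:ℝ)) fun i _ => avg _ ?_).trans (le_of_eq ?_)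
    · rw [natDeg_map]
      have h1 : (F.coeff i).natDegree ≤ D + k * n := by
        have h2 := hd i
        rw [hD]
        nlinarith
      exact_mod_cast h1
    · rw [Finset.sum_const, Finset.card_range, nsmul_eq_mul, hFk]
      push_cast
      ring
  -- the pointwise inequality
  have hpt : circleAverage (fun x => log ‖N'.eval x‖) 0 1 ≤ circleAverage
      ((fun _ => s * B₁ + (kp:ℝ) * log ((k + 1) * c)) +
        ((s * B₂) • φ +
        ((-(kp:ℝ)) • ((fun x => log ‖u₁.eval x‖) ⊔ (fun x => log ‖v₁.eval x‖)) +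
        ((kp:ℝ) • ((fun x => log ‖v₁.eval x‖) - (fun x => log ‖Y₁.eval x‖)) +
        ((kp:ℝ) • (FW u₁ c + FW v₁ c + FW f' c + ψ) +
          (km:ℝ) • (fun x => log ‖f'.eval x‖)))))) 0 1 := by
    apply circleAverage_mono_off (log_int _)
      ((circleIntegrable_const _ _ _).add ((hφi.const_smul).add
        (((TH_int u v).const_smul).add ((((log_int _).sub (log_int _)).const_smul).add
          ((((((FW_int _ _).add (FW_int _ _)).add (FW_int _ _)).add hψi).const_smul).add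
          ((log_int _).const_smul))))))
      ((((((roots_countable (map_ne hu0)).union (roots_countable (map_ne hf0))).union
        (roots_countable (map_ne hNN))).union (roots_countable (map_ne hdF))).union
        (roots_countable (map_ne hv0))).union (countable_iUnion fun i : ℕ =>
        (show ({x | F.coeff i ≠ 0 ∧ ((F.coeff i).map (Int.castRingHom ℂ)).eval x = 0} :
          Set ℂ).Countable from by
            by_cases h0 : F.coeff i = 0
            · have : ({x | F.coeff i ≠ 0 ∧ ((F.coeff i).map (Int.castRingHom ℂ)).eval x = 0} :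
                Set ℂ) = ∅ := by
                ext y
                simp [h0]
              rw [this]
              exact countable_empty
            · exact (roots_countable (map_ne h0)).mono fun y hy => hy.2)))
    intro x hx hxZ
    rw [mem_sphere_zero_iff_norm] at hx
    simp only [Set.mem_union, not_or] at hxZ
    obtain ⟨⟨⟨⟨⟨hx1, hx2⟩, hx3⟩, hx4⟩, hx5⟩, hx7⟩ := hxZ
    simp only [Set.mem_iUnion, Set.mem_ofPred_eq, not_exists, not_and] at hx7
    have hx1' : ev x u ≠ 0 := by rw [ev_eq]; exact hx1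
    have hx2' : ev x f ≠ 0 := by rw [ev_eq]; exact hx2
    have hx3' : ev x NP ≠ 0 := by rw [ev_eq]; exact hx3
    have hx4' : ev x r ≠ 0 := by rw [ev_eq]; exact hx4
    have hx5' : ev x v ≠ 0 := by rw [ev_eq]; exact hx5
    have hx6' : ev x Y ≠ 0 := by
      intro h0
      rw [hY, map_mul, h0, zero_mul] at hx5'
      exact hx5' rfl
    obtain ⟨w, hw⟩ : ∃ w, w = φ x := ⟨_, rfl⟩
    obtain ⟨w₁, hw₁⟩ : ∃ w₁, w₁ = ∑ i ∈ Finset.range (F.natDegree + 1),
      log⁺ ‖((F.coeff i).map (Int.castRingHom ℂ)).eval x‖ := ⟨_, rfl⟩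
    obtain ⟨w₂, hw₂⟩ : ∃ w₂, w₂ = log⁺ ‖(1:ℂ[X]).eval x / r'.eval x‖ := ⟨_, rfl⟩
    have hww : w = w₁ + w₂ := by rw [hw, hφ, hw₁, hw₂, Pi.add_apply]
    have hw₁0 : 0 ≤ w₁ := by
      rw [hw₁]
      exact Finset.sum_nonneg fun _ _ => posLog_nonneg
    have hw₂0 : 0 ≤ w₂ := by rw [hw₂]; exact posLog_nonneg
    have hw0 : 0 ≤ w := by rw [hww]; positivity
    have hW1 : 1 ≤ exp w := one_le_exp hw0
    have hWr : 1 ≤ exp w * ‖ev x (dR F)‖ := by
      have h1 := le_exp_posLog (norm_nonneg ((1:ℂ[X]).eval x / r'.eval x))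
      rw [← hw₂, eval_one, norm_div, norm_one, hr', ← ev_eq, div_le_iff₀ (norm_pos_iff.mpr hx4')] at h1
      rw [← hr]
      refine h1.trans (mul_le_mul_of_nonneg_right (exp_le_exp.mpr ?_) (norm_nonneg _))
      linarith
    have hWc : ∀ i, ‖(F.map (ev x)).coeff i‖ ≤ exp w := by
      intro i
      refine (coef_W F x i).trans (exp_le_exp.mpr ?_)
      rw [← hw₁]
      linarith
    obtain ⟨σ, hσ⟩ : ∃ σ, σ = ψ x := ⟨_, rfl⟩
    have hσ' : σ = ∑ i ∈ Finset.range (F.natDegree + 1),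
      FW ((F.coeff i).map (Int.castRingHom ℂ)) c x := by rw [hσ, hψ]
    have hσ0 : 0 ≤ σ := by
      rw [hσ']
      exact Finset.sum_nonneg fun _ _ => FW_nonneg _ _ _
    have hΛ1 : 1 ≤ c * exp σ := o1 hc1 (one_le_exp hσ0)
    have hWd : ∀ i, ‖((FD F).map (ev x)).coeff i‖ ≤ exp w * (c * exp σ) := by
      intro i
      rw [coeff_map, FD_coeff]
      by_cases hi : i ∈ Finset.range (F.natDegree + 1)
      · have h1 := one_step (P := (F.coeff i).map (Int.castRingHom ℂ)) (c := c) (by linarith) (x := x)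
          (fun h0 => hx7 i (fun h2 => h0 (by rw [h2, Polynomial.map_zero])))
        rw [th_map, ← ev_eq, ← ev_eq] at h1
        have h2 := hWc i
        rw [coeff_map] at h2
        have h3 : FW ((F.coeff i).map (Int.castRingHom ℂ)) c x ≤ σ := by
          rw [hσ']
          exact Finset.single_le_sum (f := fun i => FW ((F.coeff i).map (Int.castRingHom ℂ)) c x)
            (fun _ _ => FW_nonneg _ _ _) hi
        refine h1.trans (mul_le_mul h2 ?_ (by positivity) (exp_pos _).le)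
        exact mul_le_mul_of_nonneg_left (exp_le_exp.mpr h3) (by linarith)
      · have h0 : F.coeff i = 0 := by
          apply coeff_eq_zero_of_natDegree_lt
          rw [Finset.mem_range] at hi
          omega
        rw [h0, derivative_zero, mul_zero, map_zero, norm_zero]
        positivity
    obtain ⟨A, b, hg, hA, hb⟩ := hgeo F hF hFk x (exp w) (c * exp σ) hW1 hΛ1 hWc hWd hWr
    have hpt := circle_ptU hF (by omega) (u := u) (v := v) (Y := Y) (v' := v') (v'' := v'') hx hg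
      hx1' hx5' (by rw [← hf]; exact hx2') hY hY' hc1 hσ0 le_rfl
    rw [← hf, ← hNP, hFk, ← hkp, ← hkm, ← hu₁, ← hv₁, ← hf'] at hpt
    obtain ⟨hκ1, hκ2⟩ := log_kappa (k := k) hg.hA hg.hb hA hb
    obtain ⟨κ, hκ⟩ : ∃ κ, κ = 5 * A * b ^ 2 * (4 * A ^ 2) ^ k := ⟨_, rfl⟩
    rw [← hκ] at hpt hκ1 hκ2
    have hκ0 : 0 < κ := by linarith
    have hlE : log (C₀ * exp w ^ cg) = log C₀ + cg * w := by
      rw [log_mul (by positivity) (by positivity), ← exp_nat_mul, log_exp]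
    have hκ3 : log κ ≤ B₁ + B₂ * w := by
      rw [hlE] at hκ2
      refine hκ2.trans (le_of_eq ?_)
      rw [hB₁, hB₂]
      ring
    have hun0 : 0 < ‖ev x u‖ := norm_pos_iff.mpr hx1'
    have hvn0 : 0 < ‖ev x v‖ := norm_pos_iff.mpr hx5'
    have hYn0 : 0 < ‖ev x Y‖ := norm_pos_iff.mpr hx6'
    obtain ⟨m, hm⟩ : ∃ m, m = max ‖ev x u‖ ‖ev x v‖ := ⟨_, rfl⟩
    rw [← hm] at hpt
    have hm0 : 0 < m := by rw [hm]; exact lt_max_of_lt_right hvn0
    obtain ⟨lm, hlmdef⟩ : ∃ lm, lm = log ‖u₁.eval x‖ ⊔ log ‖v₁.eval x‖ := ⟨_, rfl⟩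
    have hlm : log m = lm := by
      rw [hlmdef, hm, ← ev_eq, ← ev_eq]
      rcases le_total ‖ev x u‖ ‖ev x v‖ with h1 | h1
      · rw [max_eq_right h1, sup_eq_right.mpr (log_le_log hun0 h1)]
      · rw [max_eq_left h1, sup_eq_left.mpr (log_le_log hvn0 h1)]
    have hfx : 0 < ‖ev x f‖ := norm_pos_iff.mpr hx2'
    have hlog := log_le_log (norm_pos_iff.mpr hx3') hpt
    have hc0 : 0 < c := by linarith
    have hk1 : (0:ℝ) < k + 1 := by linarith
    rw [log_mul (by positivity) (by positivity), log_pow, log_pow, log_mul hκ0.ne' (by positivity),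
      log_mul (by positivity) (by positivity), log_mul (by positivity) (by positivity), log_exp,
      log_mul hκ0.ne' (by positivity), log_div hfx.ne' (by positivity), log_pow,
      log_div (by positivity) hYn0.ne', log_mul hvn0.ne' hm0.ne'] at hlog
    simp only [Pi.add_apply, Pi.smul_apply, Pi.sub_apply, Pi.sup_apply, smul_eq_mul]
    rw [hlm] at hlog
    have hNe : N'.eval x = ev x NP := (ev_eq x NP).symm
    have hfe : f'.eval x = ev x f := (ev_eq x f).symm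
    have hve : v₁.eval x = ev x v := (ev_eq x v).symm
    have hYe : Y₁.eval x = ev x Y := (ev_eq x Y).symm
    rw [← hw, ← hσ, ← hlmdef, hNe, hfe, hve, hYe]
    have hsk : s * log κ ≤ s * (B₁ + B₂ * w) := mul_le_mul_of_nonneg_left hκ3 hs0
    have hexp : (kp:ℝ) * (log κ + (log ‖ev x v‖ + lm - log ‖ev x Y‖ + (log ((k + 1) * c) +
        (FW u₁ c x + FW v₁ c x + FW f' c x + σ)))) +
        (km:ℝ) * (log κ + (log ‖ev x f‖ - k * lm)) =
        s * log κ + (kp:ℝ) * log ((k + 1) * c) + (-(kp:ℝ)) * lm +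
        (kp:ℝ) * (log ‖ev x v‖ - log ‖ev x Y‖) +
        (kp:ℝ) * (FW u₁ c x + FW v₁ c x + FW f' c x + σ) + (km:ℝ) * log ‖ev x f‖ := by
      rw [hs, hkpR, hkmR]
      ring
    rw [hexp] at hlog
    linarith
  rw [circleAverage_add (circleIntegrable_const _ _ _) ((hφi.const_smul).add
        (((TH_int u v).const_smul).add ((((log_int _).sub (log_int _)).const_smul).add
          ((((((FW_int _ _).add (FW_int _ _)).add (FW_int _ _)).add hψi).const_smul).add
          ((log_int _).const_smul))))),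
    circleAverage_add (hφi.const_smul)
        (((TH_int u v).const_smul).add ((((log_int _).sub (log_int _)).const_smul).add
          ((((((FW_int _ _).add (FW_int _ _)).add (FW_int _ _)).add hψi).const_smul).add
          ((log_int _).const_smul)))),
    circleAverage_add ((TH_int u v).const_smul) ((((log_int _).sub (log_int _)).const_smul).add
          ((((((FW_int _ _).add (FW_int _ _)).add (FW_int _ _)).add hψi).const_smul).add
          ((log_int _).const_smul))),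
    circleAverage_add (((log_int _).sub (log_int _)).const_smul)
      ((((((FW_int _ _).add (FW_int _ _)).add (FW_int _ _)).add hψi).const_smul).add ((log_int _).const_smul)),
    circleAverage_add (((((FW_int _ _).add (FW_int _ _)).add (FW_int _ _)).add hψi).const_smul)
      ((log_int _).const_smul),
    circleAverage_const, circleAverage_smul, circleAverage_smul, circleAverage_smul, circleAverage_smul,
    circleAverage_smul, circleAverage_sub (log_int _) (log_int _),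
    circleAverage_add (((FW_int _ _).add (FW_int _ _)).add (FW_int _ _)) hψi,
    circleAverage_add ((FW_int _ _).add (FW_int _ _)) (FW_int _ _),
    circleAverage_add (FW_int _ _) (FW_int _ _), Un.log_mahler, Un.log_mahler, Un.log_mahler,
    Un.log_mahler] at hpt
  simp only [smul_eq_mul] at hpt
  have hlM1 : lM NP = log N'.mahlerMeasure := rfl
  have hlM2 : lM f = log f'.mahlerMeasure := rfl
  have hlM3 : lM v = log v₁.mahlerMeasure := rfl
  have hlM4 : lM Y = log Y₁.mahlerMeasure := rfl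
  have hTT : circleAverage ((fun x => log ‖u₁.eval x‖) ⊔ (fun x => log ‖v₁.eval x‖)) 0 1 = TH u v := rfl
  rw [← hlM1, ← hlM2, ← hlM3, ← hlM4, hTT] at hpt
  have h2c : log ((k + 1) * c) ≤ log (4 * (k + 1) * (2 * k + 1)) + log n := by
    rw [← log_mul (by positivity) (by positivity)]
    apply log_le_log (by positivity)
    rw [hc]
    have h2 : (k:ℝ) * n + D ≤ (2 * k + 1) * n := by linarith
    calc ((k:ℝ) + 1) * (4 * (k * n + D)) = 4 * (k + 1) * (k * n + D) := by ring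
      _ ≤ 4 * (k + 1) * ((2 * k + 1) * n) := mul_le_mul_of_nonneg_left h2 (by positivity)
      _ = _ := by ring
  have hsb : s * B₂ * circleAverage φ 0 1 ≤ s * B₂ * Φ :=
    mul_le_mul_of_nonneg_left hφa (by positivity)
  have hfin := arith3 (Nat.cast_nonneg _) hB₃ hNNl h2c ha1 ha2 ha3 hψa hsb hpt
  linarith

end Pool.Agent.Zk21.My
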