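import Mathlib
import Pool.Agent.Zk21.MvM
import Pool.Agent.Zk21.MyE

/-!
# Moving targets, uniformly: the reduction to monic separable polynomials
-/

set_option autoImplicit false

open Polynomial Metric Set Filter Topology Real

namespace Pool.Agent.Zk21.My

open Pool.Agent.R328 Pool.Agent.Zk21.Smt Pool.Agent.Zk21.Un Pool.Agent.Zk21.Pt Pool.Agent.Zk21.Ca
open Pool.Agent.Zk21.Mv Pool.Agent.Zk21.Mw Pool.Agent.Zk21.Mx

lemma swap_coeff (P : ℤ[X][X]) (i j : ℕ) :
    ((Bivariate.swap P).coeff i).coeff j = (P.coeff j).coeff i := by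
  induction P using Polynomial.induction_on' with
  | add p q hp hq => rw [map_add, coeff_add, coeff_add, coeff_add, coeff_add, hp, hq]
  | monomial n f =>
    induction f using Polynomial.induction_on' with
    | add p q hp hq =>
      rw [map_add, map_add, coeff_add, coeff_add, coeff_add, coeff_add, hp, hq]
    | monomial m r =>
      rw [Bivariate.swap_monomial_monomial, coeff_monomial, coeff_monomial]
      split_ifs with h1 h2 h2
      · rw [coeff_monomial, coeff_monomial, if_pos h1, if_pos h2]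
      · rw [coeff_monomial, if_neg h2, coeff_zero]
      · rw [coeff_monomial, if_neg h1, coeff_zero]
      · rw [coeff_zero, coeff_zero]

lemma degx_iff (P : ℤ[X][X]) (d : ℕ) :
    (∀ i, (P.coeff i).natDegree ≤ d) ↔ (Bivariate.swap P).natDegree ≤ d := by
  rw [natDegree_le_iff_coeff_eq_zero]
  constructor
  · intro h N hN
    ext j
    rw [swap_coeff, coeff_zero]
    exact coeff_eq_zero_of_natDegree_lt ((h j).trans_lt hN)
  · intro h i
    rw [natDegree_le_iff_coeff_eq_zero]
    intro N hN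
    rw [← swap_coeff, h N hN, coeff_zero]

lemma degx_dvd {G H : ℤ[X][X]} (hHG : H ∣ G) (hG : G ≠ 0) {d : ℕ}
    (hd : ∀ i, (G.coeff i).natDegree ≤ d) (i : ℕ) : (H.coeff i).natDegree ≤ d := by
  obtain ⟨R, hR⟩ := hHG
  revert i
  rw [degx_iff] at hd ⊢
  have hH0 : H ≠ 0 := by
    rintro rfl
    rw [zero_mul] at hR
    exact hG hR
  have hR0 : R ≠ 0 := by
    rintro rfl
    rw [mul_zero] at hR
    exact hG hR
  rw [hR, map_mul, natDegree_mul (by rwa [Ne, EmbeddingLike.map_eq_zero_iff])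
    (by rwa [Ne, EmbeddingLike.map_eq_zero_iff])] at hd
  omega

/-- the coefficients of a monic divisor -/
lemma coef_dvd {G H : ℤ[X][X]} (hG : G.Monic) (hH : H.Monic) (hHG : H ∣ G) (x : ℂ) (i : ℕ) :
    ‖(H.map (ev x)).coeff i‖ ≤ (2 * ((G.natDegree + 1) *
      exp (∑ i ∈ Finset.range (G.natDegree + 1),
      log⁺ ‖((G.coeff i).map (Int.castRingHom ℂ)).eval x‖))) ^ G.natDegree := by
  obtain ⟨w, hw⟩ : ∃ w, w = ∑ i ∈ Finset.range (G.natDegree + 1),
      log⁺ ‖((G.coeff i).map (Int.castRingHom ℂ)).eval x‖ := ⟨_, rfl⟩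
  have hw0 : 0 ≤ w := by
    rw [hw]
    exact Finset.sum_nonneg fun _ _ => posLog_nonneg
  have hW := one_le_exp hw0
  have hk0 : (0:ℝ) ≤ G.natDegree := Nat.cast_nonneg _
  obtain ⟨B, hB⟩ : ∃ B : ℝ, B = (G.natDegree + 1) * exp w := ⟨_, rfl⟩
  rw [← hw, ← hB]
  have hB1 : 1 ≤ B := by
    rw [hB]
    exact o1 (by linarith) hW
  have hle : H.natDegree ≤ G.natDegree := natDegree_le_of_dvd hHG hG.ne_zero
  have hroots : ∀ z ∈ (H.map (ev x)).roots, ‖z‖ ≤ B := by
    intro z hz
    have h1 : (H.map (ev x)).eval z = 0 := (mem_roots'.mp hz).2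
    have h2 : (G.map (ev x)).eval z = 0 := by
      obtain ⟨R, hR⟩ := hHG
      rw [hR, Polynomial.map_mul, eval_mul, h1, zero_mul]
    have h3 := root_bound (hG.map (ev x)) hW (fun i => by rw [hw]; exact coef_W G x i) h2
    rw [natDegree_map_ev hG] at h3
    rw [hB]
    exact h3
  have h4 := coeff_le_of_roots_le (f := ev x) (B := B) i hH (IsAlgClosed.splits _) hroots
  refine h4.trans ?_
  rw [mul_pow, mul_comm (2 ^ G.natDegree : ℝ)]
  have h5 : ((H.natDegree.choose i : ℕ) : ℝ) ≤ 2 ^ G.natDegree := by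
    have h6 : H.natDegree.choose i ≤ 2 ^ G.natDegree :=
      (Nat.choose_le_two_pow _ _).trans (Nat.pow_le_pow_right (by norm_num) hle)
    exact_mod_cast h6
  apply mul_le_mul (pow_le_pow_right₀ hB1 (by omega)) h5 (by positivity) (by positivity)

lemma mp_dvd {G H : ℤ[X][X]} (hG : G.Monic) (hH : H.Monic) (hHG : H ∣ G) {K : ℝ}
    (hK : ∀ i, mp ((G.coeff i).map (Int.castRingHom ℂ)) ≤ K) (i : ℕ) :
    mp ((H.coeff i).map (Int.castRingHom ℂ)) ≤
      G.natDegree * (log (2 * (G.natDegree + 1)) + (G.natDegree + 1) * |K|) := by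
  obtain ⟨k, hk⟩ : ∃ k, k = G.natDegree := ⟨_, rfl⟩
  have hk0 : (0:ℝ) ≤ k := Nat.cast_nonneg _
  have key : mp ((H.coeff i).map (Int.castRingHom ℂ)) ≤ circleAverage
      ((fun _ => k * log (2 * (k + 1))) +
      (k:ℝ) • (fun x => ∑ i ∈ Finset.range (G.natDegree + 1),
        log⁺ ‖((G.coeff i).map (Int.castRingHom ℂ)).eval x‖)) 0 1 := by
    unfold mp
    apply circleAverage_mono (posLog_int _)
      ((circleIntegrable_const _ _ _).add ((sum_int G _).const_smul))
    intro x _
    simp only [Pi.add_apply, Pi.smul_apply, smul_eq_mul]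
    have h1 := coef_dvd hG hH hHG x i
    obtain ⟨w, hw⟩ : ∃ w, w = ∑ i ∈ Finset.range (G.natDegree + 1),
        log⁺ ‖((G.coeff i).map (Int.castRingHom ℂ)).eval x‖ := ⟨_, rfl⟩
    have hw0 : 0 ≤ w := by
      rw [hw]
      exact Finset.sum_nonneg fun _ _ => posLog_nonneg
    rw [← hw] at h1 ⊢
    rw [← hk, coeff_map, ev_eq] at h1
    have h2 : 1 ≤ 2 * (((k:ℝ) + 1) * exp w) := by
      have := o1 (show (1:ℝ) ≤ (k:ℝ) + 1 by linarith) (one_le_exp hw0)
      linarith
    have h3 : 1 ≤ (2 * (((k:ℝ) + 1) * exp w)) ^ k := one_le_pow₀ h2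
    refine (posLog_le_posLog (norm_nonneg _) h1).trans (le_of_eq ?_)
    have h4 : 2 * (((k:ℝ) + 1) * exp w) = (2 * ((k:ℝ) + 1)) * exp w := by ring
    rw [posLog_eq_log (by rw [abs_of_pos (by linarith)]; exact h3), log_pow, h4,
      log_mul (by positivity) (by positivity), log_exp]
    ring
  rw [circleAverage_add (circleIntegrable_const _ _ _) ((sum_int G _).const_smul),
    circleAverage_const, circleAverage_smul, sum_avg, smul_eq_mul] at key
  refine key.trans ?_
  rw [← hk]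
  have h3 : ∑ i ∈ Finset.range (k + 1), mp ((G.coeff i).map (Int.castRingHom ℂ)) ≤
      (k + 1) * |K| := by
    refine (Finset.sum_le_sum fun i _ => (hK i).trans (le_abs_self K)).trans (le_of_eq ?_)
    rw [Finset.sum_const, Finset.card_range, nsmul_eq_mul]
    push_cast
    ring
  have h4 : (k:ℝ) * ∑ i ∈ Finset.range (k + 1), mp ((G.coeff i).map (Int.castRingHom ℂ)) ≤
      k * ((k + 1) * |K|) := mul_le_mul_of_nonneg_left h3 (Nat.cast_nonneg _)
  linarith

/-- the squarefree part -/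
lemma sq_part {F : ℤ[X][X]} (hF0 : F ≠ 0) : ∃ (H R : ℤ[X][X]) (c : ℤ[X]) (m : ℕ), F = H * R ∧
    c ≠ 0 ∧ F ∣ C c * H ^ m ∧ (H.map (algebraMap ℤ[X] (FractionRing ℤ[X]))).Separable := by
  classical
  obtain ⟨c, S, hc, hFe, h1, h2⟩ := factor hF0
  have hTs : S.toFinset.val ≤ S := by
    rw [Multiset.toFinset_val]
    exact Multiset.dedup_le S
  obtain ⟨t, ht⟩ := Multiset.le_iff_exists_add.mp hTs
  have hGm : ∏ p ∈ S.toFinset, p = S.toFinset.val.prod := by
    rw [Finset.prod_eq_multiset_prod, Multiset.map_id']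
  refine ⟨∏ p ∈ S.toFinset, p, C c * t.prod, c, S.card, ?_, hc, ?_, sep_T h1 h2⟩
  · rw [hFe, hGm]
    conv_lhs => rw [ht, Multiset.prod_add]
    ring
  · rw [hFe]
    apply mul_dvd_mul (dvd_refl _)
    have h3 : ∀ p ∈ S, p ∣ ∏ p ∈ S.toFinset, p := fun p hp =>
      Finset.dvd_prod_of_mem (fun p => p) (Multiset.mem_toFinset.mpr hp)
    clear hFe hTs ht hGm h1 h2
    generalize (∏ p ∈ S.toFinset, p) = Q at h3
    induction S using Multiset.induction_on with
    | empty => simp
    | cons p S ih =>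
      rw [Multiset.prod_cons, Multiset.card_cons, pow_succ, mul_comm (Q ^ _)]
      exact mul_dvd_mul (h3 p (Multiset.mem_cons_self p S))
        (ih fun q hq => h3 q (Multiset.mem_cons_of_mem hq))

/-- the squarefree part, with at least two distinct roots -/
lemma sq_two {F : ℤ[X][X]} (hF : ∀ (a b c : ℤ[X]) (m : ℕ), F ≠ C c * (C a * X + C b) ^ m) :
    ∃ G : ℤ[X][X], G ∣ F ∧ 2 ≤ G.natDegree ∧
      (G.map (algebraMap ℤ[X] (FractionRing ℤ[X]))).Separable := by
  classical
  have hF0 : F ≠ 0 := by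
    have := hF 0 0 0 0
    simpa using this
  obtain ⟨c₀, S, hc₀, hFe, h1, h2⟩ := factor hF0
  have hs0 : ∀ p ∈ S, p ≠ 0 := fun p hp => (h1 p hp).1.ne_zero
  obtain ⟨G, hG⟩ : ∃ G : ℤ[X][X], G = ∏ p ∈ S.toFinset, p := ⟨_, rfl⟩
  have hGs := sep_T h1 h2
  rw [← hG] at hGs
  have hGm : G = S.toFinset.val.prod := by
    rw [hG, Finset.prod_eq_multiset_prod, Multiset.map_id']
  have hTs : S.toFinset.val ≤ S := by
    rw [Multiset.toFinset_val]
    exact Multiset.dedup_le S
  refine ⟨G, ?_, ?_, hGs⟩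
  · rw [hGm, hFe]
    obtain ⟨t, ht⟩ := Multiset.le_iff_exists_add.mp hTs
    conv_rhs => rw [ht]
    rw [Multiset.prod_add]
    exact Dvd.dvd.mul_left (Dvd.intro _ rfl) _
  · have e1 : G.natDegree = ∑ p ∈ S.toFinset, p.natDegree := by
      rw [hG]
      exact natDegree_prod _ _ fun p hp => hs0 p (Multiset.mem_toFinset.mp hp)
    have e2 : ∀ p ∈ S.toFinset, 1 ≤ p.natDegree := fun p hp => (h1 p (Multiset.mem_toFinset.mp hp)).2
    by_contra hlt
    rw [e1] at hlt
    have e3 : S.toFinset.card ≤ 1 := by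
      have := Finset.card_nsmul_le_sum S.toFinset (fun p => p.natDegree) 1 e2
      rw [smul_eq_mul, mul_one] at this
      omega
    rcases Nat.eq_zero_or_pos S.toFinset.card with h0 | h0
    · rw [Finset.card_eq_zero, Multiset.toFinset_eq_empty] at h0
      apply hF 0 0 c₀ 0
      rw [hFe, h0, Multiset.prod_zero, pow_zero]
    · obtain ⟨p, hp⟩ := Finset.card_eq_one.mp (by omega : S.toFinset.card = 1)
      have hpd : p.natDegree = 1 := by
        rw [hp, Finset.sum_singleton] at hlt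
        have := e2 p (by rw [hp]; exact Finset.mem_singleton_self p)
        omega
      have hsr : S = Multiset.replicate S.card p := by
        rw [Multiset.eq_replicate]
        refine ⟨rfl, ?_⟩
        intro q hq
        have : q ∈ S.toFinset := Multiset.mem_toFinset.mpr hq
        rw [hp] at this
        exact Finset.mem_singleton.mp this
      have hpe : p = C (p.coeff 1) * X + C (p.coeff 0) := eq_X_add_C_of_natDegree_le_one hpd.le
      apply hF (p.coeff 1) (p.coeff 0) c₀ S.card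
      rw [← hpe, hFe]
      conv_lhs => rw [hsr, Multiset.prod_replicate]

/-- the monic squarefree part of a monic polynomial -/
lemma monic_part {G : ℤ[X][X]} (hG : G.Monic) : ∃ (H R : ℤ[X][X]) (c : ℤ[X]) (m : ℕ), G = H * R ∧
    H.Monic ∧ c ≠ 0 ∧ G ∣ C c * H ^ m ∧
    (H.map (algebraMap ℤ[X] (FractionRing ℤ[X]))).Separable := by
  obtain ⟨H, R, c, m, h1, h2, h3, h4⟩ := sq_part hG.ne_zero
  have hlc : H.leadingCoeff * R.leadingCoeff = 1 := by
    rw [← leadingCoeff_mul, ← h1]
    exact hG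
  have hCC : (C H.leadingCoeff * C R.leadingCoeff : ℤ[X][X]) = 1 := by rw [← C_mul, hlc, C_1]
  refine ⟨C R.leadingCoeff * H, C H.leadingCoeff * R, c * H.leadingCoeff ^ m, m, ?_, ?_, ?_, ?_, ?_⟩
  · calc G = (C H.leadingCoeff * C R.leadingCoeff) * (H * R) := by rw [hCC, one_mul, h1]
      _ = _ := by ring
  · rw [Monic, leadingCoeff_mul, leadingCoeff_C, mul_comm]
    exact hlc
  · apply mul_ne_zero h2
    apply pow_ne_zero
    intro h0
    rw [h0, zero_mul] at hlc
    exact zero_ne_one hlc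
  · have e1 : C (c * H.leadingCoeff ^ m) * (C R.leadingCoeff * H) ^ m = C c * H ^ m := by
      rw [mul_pow, C_mul, C_pow]
      calc C c * C H.leadingCoeff ^ m * (C R.leadingCoeff ^ m * H ^ m) =
          (C H.leadingCoeff * C R.leadingCoeff) ^ m * (C c * H ^ m) := by rw [mul_pow]; ring
        _ = _ := by rw [hCC, one_pow, one_mul]
    rw [e1]
    exact h3
  · apply Separable.of_dvd h4
    apply Polynomial.map_dvd
    refine ⟨C H.leadingCoeff, ?_⟩
    calc H = (C H.leadingCoeff * C R.leadingCoeff) * H := by rw [hCC, one_mul]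
      _ = _ := by ring

/-- the substitution in the monic polynomial -/
lemma norm_comp {F : ℤ[X][X]} (hk : 1 ≤ F.natDegree) :
    (integralNormalization F).comp (C F.leadingCoeff * X) =
      C (F.leadingCoeff ^ (F.natDegree - 1)) * F := by
  ext1 i
  rw [comp_C_mul_X_coeff, coeff_C_mul, mul_comm (F.leadingCoeff ^ (F.natDegree - 1))]
  have h := integralNormalization_coeff_mul_leadingCoeff_pow (p := F) i hk
  rw [h]

/-- two distinct roots -/
lemma two_roots {F : ℤ[X][X]} (hF : ∀ (a b c : ℤ[X]) (m : ℕ), F ≠ C c * (C a * X + C b) ^ m)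
    {H : ℤ[X][X]} {c : ℤ[X]} {m : ℕ} (hc : c ≠ 0)
    (h : integralNormalization F ∣ C c * H ^ m) (hH : H ≠ 0) : 2 ≤ H.natDegree := by
  have hF0 : F ≠ 0 := by
    have := hF 0 0 0 0
    simpa using this
  have hk : 1 ≤ F.natDegree := by
    by_contra h0
    apply hF 0 0 (F.coeff 0) 0
    rw [pow_zero, mul_one]
    exact eq_C_of_natDegree_eq_zero (by omega)
  have ha : F.leadingCoeff ≠ 0 := leadingCoeff_ne_zero.mpr hF0
  by_contra hlt
  obtain ⟨H₀, e1, e2, e4⟩ := sq_two hF
  set φ := algebraMap ℤ[X] (FractionRing ℤ[X]) with hφ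
  have hinj : Function.Injective φ := IsFractionRing.injective ℤ[X] (FractionRing ℤ[X])
  -- the line
  obtain ⟨L, hL⟩ : ∃ L, L = H.comp (C F.leadingCoeff * X) := ⟨_, rfl⟩
  have hLd : L.natDegree ≤ 1 := by
    rw [hL]
    refine natDegree_comp_le.trans ?_
    have h1 : (C F.leadingCoeff * X : ℤ[X][X]).natDegree ≤ 1 := by
      refine natDegree_mul_le.trans ?_
      rw [natDegree_C, natDegree_X]
    have h2 : H.natDegree ≤ 1 := by omega
    calc H.natDegree * (C F.leadingCoeff * X : ℤ[X][X]).natDegree ≤ 1 * 1 := Nat.mul_le_mul h2 h1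
      _ = 1 := by norm_num
  have h1 : C (F.leadingCoeff ^ (F.natDegree - 1)) * F ∣ C c * L ^ m := by
    obtain ⟨Q, hQ⟩ := h
    refine ⟨Q.comp (C F.leadingCoeff * X), ?_⟩
    rw [← norm_comp hk, ← mul_comp, ← hQ, mul_comp, pow_comp, C_comp, hL]
  have h2 : H₀ ∣ C c * L ^ m := by
    exact dvd_trans (e1.mul_left _) h1
  have h3 : H₀.map φ ∣ (L.map φ) ^ m := by
    have h4 := Polynomial.map_dvd φ h2
    rw [Polynomial.map_mul, Polynomial.map_pow, map_C] at h4
    have h5 : IsUnit (C (φ c)) := by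
      rw [isUnit_C, isUnit_iff_ne_zero]
      intro h0
      exact hc (hinj (by rw [h0, map_zero]))
    exact (h5.dvd_mul_left).mp h4
  have hL0 : L ≠ 0 := by
    intro h0
    rw [hL] at h0
    have h5 : ∀ i, H.coeff i * F.leadingCoeff ^ i = 0 := by
      intro i
      rw [← comp_C_mul_X_coeff, h0, coeff_zero]
    apply hH
    ext1 i
    rw [coeff_zero]
    exact (mul_eq_zero.mp (h5 i)).resolve_right (pow_ne_zero _ ha)
  have hLm : L.map φ ≠ 0 := (Polynomial.map_ne_zero_iff hinj).mpr hL0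
  have h6 : (H₀.map φ).natDegree ≤ 1 := by
    have h7 : H₀.map φ ∣ L.map φ := by
      by_cases hm : m = 0
      · rw [hm, pow_zero] at h3
        exact h3.trans (one_dvd _)
      · exact (e4.squarefree.dvd_pow_iff_dvd hm).mp h3
    refine (natDegree_le_of_dvd h7 hLm).trans ?_
    exact natDegree_map_le.trans hLd
  rw [natDegree_map_eq_of_injective hinj] at h6
  omega

end Pool.Agent.Zk21.My
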