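import Mathlib
import Pool.Agent.Zk21.MxD
import Pool.Agent.Zk21.MyF

/-!
# Moving targets, uniformly: the height, general case
-/

set_option autoImplicit false

open Polynomial Metric Set Filter Topology Real

namespace Pool.Agent.Zk21.My

open Pool.Agent.R328 Pool.Agent.Zk21.Smt Pool.Agent.Zk21.Un Pool.Agent.Zk21.Pt Pool.Agent.Zk21.Ca
open Pool.Agent.Zk21.Mv
open Pool.Agent.Zk21.Mw (TH TH_int TH_mul lM_le_TH fv fv_norm fv_mul fv_C fv_prod fv_deg fv_X fv_zero Pole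
  gap_deg_div lM_le_mp)

lemma pole_U {δ : ℝ} {a u v : ℤ[X]} (ha : a ≠ 0) (hu : u ≠ 0) (hp : Pole δ u v)
    {m : ℕ} (h2 : (a.natDegree : ℝ) + m ≤ δ / 2 * (max u.natDegree v.natDegree : ℕ)) :
      ∃ N : ℕ, m ≤ N ∧ ((a * u).natDegree = v.natDegree + N ∨
        v.natTrailingDegree = (a * u).natTrailingDegree + N) ∧
        δ / 2 * (max u.natDegree v.natDegree : ℕ) ≤ N := by
  obtain ⟨n, hndef⟩ : ∃ n, n = max u.natDegree v.natDegree := ⟨_, rfl⟩
  rw [← hndef] at h2 ⊢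
  unfold Pole at hp
  rw [← hndef] at hp
  have hta : (a.natTrailingDegree : ℝ) ≤ a.natDegree := by
    exact_mod_cast natTrailingDegree_le_natDegree a
  have hn1 : (0:ℝ) ≤ m := Nat.cast_nonneg _
  have ha0 : (0:ℝ) ≤ a.natDegree := Nat.cast_nonneg _
  have hta0 : (0:ℝ) ≤ a.natTrailingDegree := Nat.cast_nonneg _
  rcases hp with hp | hp
  · refine ⟨a.natDegree + u.natDegree - v.natDegree, ?_, Or.inl ?_, ?_⟩
    · have h3 : (v.natDegree : ℝ) + m ≤ a.natDegree + u.natDegree := by linarith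
      have h4 : v.natDegree + m ≤ a.natDegree + u.natDegree := by exact_mod_cast h3
      omega
    · rw [natDegree_mul ha hu]
      have h3 : (v.natDegree : ℝ) ≤ a.natDegree + u.natDegree := by linarith
      have h4 : v.natDegree ≤ a.natDegree + u.natDegree := by exact_mod_cast h3
      omega
    · have h3 : (v.natDegree : ℝ) ≤ a.natDegree + u.natDegree := by linarith
      have h4 : v.natDegree ≤ a.natDegree + u.natDegree := by exact_mod_cast h3
      rw [Nat.cast_sub h4]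
      push_cast
      linarith
  · refine ⟨v.natTrailingDegree - (a.natTrailingDegree + u.natTrailingDegree), ?_, Or.inr ?_, ?_⟩
    · have h3 : (a.natTrailingDegree : ℝ) + u.natTrailingDegree + m ≤ v.natTrailingDegree := by
        linarith
      have h4 : a.natTrailingDegree + u.natTrailingDegree + m ≤ v.natTrailingDegree := by
        exact_mod_cast h3
      omega
    · rw [natTrailingDegree_mul ha hu]
      have h3 : (a.natTrailingDegree : ℝ) + u.natTrailingDegree ≤ v.natTrailingDegree := by linarith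
      have h4 : a.natTrailingDegree + u.natTrailingDegree ≤ v.natTrailingDegree := by
        exact_mod_cast h3
      omega
    · have h3 : (a.natTrailingDegree : ℝ) + u.natTrailingDegree ≤ v.natTrailingDegree := by linarith
      have h4 : a.natTrailingDegree + u.natTrailingDegree ≤ v.natTrailingDegree := by
        exact_mod_cast h3
      rw [Nat.cast_sub h4]
      push_cast
      linarith

lemma eta_choice {δ : ℝ} (hδ : 0 < δ) (k ns D : ℕ) : ∃ η : ℝ, 0 < η ∧ ∃ n₂ : ℕ, 1 ≤ n₂ ∧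
    ∀ n d₀ : ℕ, n₂ ≤ n → (d₀ : ℝ) ≤ D + η * n →
      (d₀ : ℝ) + (ns * (k * d₀ + 1) : ℕ) ≤ δ / 2 * n ∧ d₀ ≤ n := by
  obtain ⟨q, hq⟩ : ∃ q : ℝ, q = 1 + ns * k := ⟨_, rfl⟩
  have hq1 : 1 ≤ q := by
    rw [hq]
    have : (0:ℝ) ≤ ns * k := by positivity
    linarith
  have hq0 : 0 < q := by linarith
  refine ⟨min (δ / (4 * q)) (1 / 2), lt_min (by positivity) (by norm_num),
    ⌈4 * (q * D + ns) / δ⌉₊ + 2 * D + 1, by omega, ?_⟩
  intro n d₀ hn hd
  have h1 : 4 * (q * D + ns) / δ ≤ n := by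
    refine (Nat.le_ceil _).trans ?_
    exact_mod_cast (by omega : ⌈4 * (q * D + ns) / δ⌉₊ ≤ n)
  have h2 : 4 * (q * D + ns) ≤ δ * n := by
    rw [div_le_iff₀ hδ] at h1
    linarith
  have hn0 : (0:ℝ) ≤ n := Nat.cast_nonneg _
  have h3 : min (δ / (4 * q)) (1 / 2) * n ≤ δ / (4 * q) * n :=
    mul_le_mul_of_nonneg_right (min_le_left _ _) hn0
  have h4 : min (δ / (4 * q)) (1 / 2) * n ≤ 1 / 2 * n :=
    mul_le_mul_of_nonneg_right (min_le_right _ _) hn0
  constructor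
  · have h5 : (d₀ : ℝ) + (ns * (k * d₀ + 1) : ℕ) = q * d₀ + ns := by
      rw [hq]
      push_cast
      ring
    rw [h5]
    have h6 : q * (d₀:ℝ) ≤ q * (D + δ / (4 * q) * n) :=
      mul_le_mul_of_nonneg_left (by linarith) hq0.le
    have h7 : q * (D + δ / (4 * q) * n) = q * D + δ * n / 4 := by
      field_simp
    linarith
  · have h5 : (2 * D : ℝ) ≤ n := by exact_mod_cast (by omega : 2 * D ≤ n)
    have h6 : (d₀ : ℝ) ≤ n := by linarith
    exact_mod_cast h6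

lemma mp_one' : mp (1 : ℂ[X]) = 0 := by
  unfold mp
  have : (fun x : ℂ => log⁺ ‖(1:ℂ[X]).eval x‖) = fun _ => 0 := by
    funext x
    simp
  rw [this, circleAverage_const]

lemma mp_pow_le (P : ℂ[X]) (n : ℕ) : mp (P ^ n) ≤ n * mp P := by
  induction n with
  | zero =>
    rw [pow_zero, mp_one']
    simp
  | succ n ih =>
    rw [pow_succ]
    refine mp_mul_le.trans ?_
    push_cast
    linarith

/-- the coefficients of the monic polynomial -/
lemma norm_deg {F : ℤ[X][X]} (hk : 1 ≤ F.natDegree) {d : ℕ} (hd : ∀ i, (F.coeff i).natDegree ≤ d)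
    (i : ℕ) : ((integralNormalization F).coeff i).natDegree ≤ F.natDegree * d := by
  by_cases hi : i = F.natDegree
  · have hF0 : F ≠ 0 := by
      rintro rfl
      simp at hk
    rw [hi, integralNormalization_coeff_natDegree hF0]
    simp
  · rw [integralNormalization_coeff_ne_natDegree hi]
    refine natDegree_mul_le.trans ?_
    have h1 := hd i
    have h2 : (F.leadingCoeff ^ (F.natDegree - 1 - i)).natDegree ≤ (F.natDegree - 1) * d := by
      refine natDegree_pow_le.trans ?_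
      exact Nat.mul_le_mul (by omega) (hd F.natDegree)
    obtain ⟨m, hm⟩ : ∃ m, F.natDegree = m + 1 := ⟨F.natDegree - 1, by omega⟩
    rw [hm] at h2 ⊢
    rw [Nat.add_sub_cancel] at h2 ⊢
    rw [add_mul, one_mul]
    omega

lemma norm_mp {F : ℤ[X][X]} (hk : 1 ≤ F.natDegree) {K : ℝ}
    (hK : ∀ i, mp ((F.coeff i).map (Int.castRingHom ℂ)) ≤ K)
    (i : ℕ) : mp (((integralNormalization F).coeff i).map (Int.castRingHom ℂ)) ≤ F.natDegree * K := by
  have hK0 : 0 ≤ K := (mp_nonneg _).trans (hK 0)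
  by_cases hi : i = F.natDegree
  · have hF0 : F ≠ 0 := by
      rintro rfl
      simp at hk
    rw [hi, integralNormalization_coeff_natDegree hF0]
    rw [Polynomial.map_one, mp_one']
    positivity
  · rw [integralNormalization_coeff_ne_natDegree hi, Polynomial.map_mul, Polynomial.map_pow]
    refine mp_mul_le.trans ?_
    have h1 := hK i
    have h2 := mp_pow_le (F.leadingCoeff.map (Int.castRingHom ℂ)) (F.natDegree - 1 - i)
    have h3 : ((F.natDegree - 1 - i : ℕ) : ℝ) * mp (F.leadingCoeff.map (Int.castRingHom ℂ)) ≤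
        ((F.natDegree - 1 : ℕ) : ℝ) * K := by
      apply mul_le_mul _ (hK F.natDegree) (mp_nonneg _) (Nat.cast_nonneg _)
      exact_mod_cast (by omega : F.natDegree - 1 - i ≤ F.natDegree - 1)
    have h4 : ((F.natDegree - 1 : ℕ) : ℝ) = F.natDegree - 1 := by
      rw [Nat.cast_sub hk, Nat.cast_one]
    rw [h4] at h3
    linarith

/-- **the height is bounded by the measure, uniformly in `F`** -/
theorem T_allU (k : ℕ) (K : ℝ) (D : ℕ) {δ w : ℝ} (hδ : 0 < δ) (hw0 : 0 ≤ w) (hw : w < 1) :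
    ∃ η : ℝ, 0 < η ∧ ∃ C₁ : ℝ, 0 ≤ C₁ ∧ ∃ n₂ : ℕ, 1 ≤ n₂ ∧
      ∀ F : ℤ[X][X], F.natDegree = k →
      (∀ (a b c : ℤ[X]) (m : ℕ), F ≠ C c * (C a * X + C b) ^ m) →
      ∀ L : ℝ, 0 ≤ L → (∀ i, mp ((F.coeff i).map (Int.castRingHom ℂ)) ≤ L) →
      ∀ (u v Y W : ℤ[X]), u ≠ 0 → v ≠ 0 → v = Y * W → Y ∣ th v → lM W ≤ K + w * TH u v →
        Pole δ u v → n₂ ≤ max u.natDegree v.natDegree →
        (∀ i, ((F.coeff i).natDegree : ℝ) ≤ D + η * (max u.natDegree v.natDegree : ℕ)) →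
        fv F u v ≠ 0 → TH u v ≤ C₁ * (1 + L + lM (fv F u v)) := by
  obtain ⟨K₁, hK₁⟩ : ∃ K₁ : ℝ, K₁ = (k:ℝ) * (log (2 * ((k:ℝ) + 1)) + ((k:ℝ) + 1) * k) := ⟨_, rfl⟩
  have hlog2k : 0 ≤ log (2 * ((k:ℝ) + 1)) := by
    apply log_nonneg
    have : (0:ℝ) ≤ k := Nat.cast_nonneg _
    linarith
  have hK₁0 : 0 ≤ K₁ := by rw [hK₁]; positivity
  have hTT : ∀ κ : ℕ, ∃ B : ℝ, 0 ≤ B ∧ ∃ n₁ : ℕ, 1 ≤ n₁ ∧ (2 ≤ κ →
      ∀ K : ℝ, 0 ≤ K → ∀ F : ℤ[X][X], F.Monic → F.natDegree = κ →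
      ∀ d : ℕ, (∀ i, (F.coeff i).natDegree ≤ d) →
      (∀ i, mp ((F.coeff i).map (Int.castRingHom ℂ)) ≤ K) → dR F ≠ 0 →
      ∀ (u v Y v' v'' : ℤ[X]) (N n : ℕ), u ≠ 0 → v ≠ 0 → v = Y * v' → th v = Y * v'' →
      n₁ * (d + 1) ≤ N →
      (u.natDegree = v.natDegree + N ∨ v.natTrailingDegree = u.natTrailingDegree + N) →
      u.natDegree ≤ n → v.natDegree ≤ n → fv F u v ≠ 0 →
      ((κ * (κ - 1) : ℕ) : ℝ) * TH u v ≤
        B * (1 + K) + ((κ * (κ - 1) : ℕ) : ℝ) * (lM v - lM Y) +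
        ((2 * (κ - 1) : ℕ) : ℝ) * lM (fv F u v) +
        ((κ * (κ - 1) : ℕ) : ℝ) * (log n - log N)) := by
    intro κ
    by_cases hκ : 2 ≤ κ
    · obtain ⟨B, hB, n₁, hn₁, h⟩ := T_boundU hκ
      exact ⟨B, hB, n₁, hn₁, fun _ => h⟩
    · exact ⟨0, le_rfl, 1, le_rfl, fun h => absurd h hκ⟩
  choose B hB n₁ hn₁ hT using hTT
  obtain ⟨Bs, hBs⟩ : ∃ Bs : ℝ, Bs = ∑ κ ∈ Finset.range (k + 1), B κ := ⟨_, rfl⟩
  obtain ⟨ns, hns⟩ : ∃ ns : ℕ, ns = ∑ κ ∈ Finset.range (k + 1), n₁ κ := ⟨_, rfl⟩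
  have hBs0 : 0 ≤ Bs := by
    rw [hBs]
    exact Finset.sum_nonneg fun κ _ => hB κ
  obtain ⟨η, hη, n₂, hn₂, hch⟩ := eta_choice hδ k ns D
  obtain ⟨C', hC'⟩ : ∃ C' : ℝ, C' = log 2 - log (δ / 2) := ⟨_, rfl⟩
  obtain ⟨E, hE⟩ : ∃ E : ℝ, E = 1 - w := ⟨_, rfl⟩
  have hE0 : 0 < E := by rw [hE]; linarith
  refine ⟨η, hη, (Bs * (1 + K₁) + |K| + k + |C'| + 2) / E + 1, by positivity, n₂, hn₂, ?_⟩
  intro F hFk hF L hL0 hL u v Y W hu hv hvYW hYth hWK hp hcase hdeg hf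
  have hF0 : F ≠ 0 := by
    have := hF 0 0 0 0
    simpa using this
  have hk1 : 1 ≤ F.natDegree := by
    by_contra h0
    apply hF 0 0 (F.coeff 0) 0
    rw [pow_zero, mul_one]
    exact eq_C_of_natDegree_eq_zero (by omega)
  obtain ⟨a, hadef⟩ : ∃ a, a = F.leadingCoeff := ⟨_, rfl⟩
  have ha : a ≠ 0 := by rw [hadef]; exact leadingCoeff_ne_zero.mpr hF0
  obtain ⟨G, hG⟩ : ∃ G, G = integralNormalization F := ⟨_, rfl⟩
  have hGm : G.Monic := by rw [hG]; exact monic_integralNormalization hF0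
  have hGd : G.natDegree = k := by rw [hG, natDegree_integralNormalization, hFk]
  obtain ⟨H, R, c₁, m₁, hGHR, hHm, hc₁, hGH, hHs⟩ := monic_part hGm
  have hHG : H ∣ G := Dvd.intro _ hGHR.symm
  have hκ2 : 2 ≤ H.natDegree := two_roots hF hc₁ (by rw [← hG]; exact hGH) hHm.ne_zero
  have hκk : H.natDegree ≤ k := by
    rw [← hGd]
    exact natDegree_le_of_dvd hHG hGm.ne_zero
  have hR0 : R ≠ 0 := by
    rintro rfl
    rw [mul_zero] at hGHR
    exact hGm.ne_zero hGHR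
  -- the degrees
  obtain ⟨n0, hn0⟩ : ∃ n0, n0 = max u.natDegree v.natDegree := ⟨_, rfl⟩
  rw [← hn0] at hcase hdeg
  obtain ⟨d₀, hd₀, hd₀'⟩ : ∃ d₀ : ℕ, (∀ i, (F.coeff i).natDegree ≤ d₀) ∧ (d₀ : ℝ) ≤ D + η * n0 := by
    obtain ⟨i, hi, hi'⟩ := Finset.exists_mem_eq_sup (Finset.range (F.natDegree + 1))
      ⟨0, Finset.mem_range.mpr (Nat.succ_pos _)⟩ (fun i => (F.coeff i).natDegree)
    refine ⟨(F.coeff i).natDegree, ?_, hdeg i⟩
    intro j
    by_cases hj : j ∈ Finset.range (F.natDegree + 1)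
    · have := Finset.le_sup (f := fun i => (F.coeff i).natDegree) hj
      rw [hi'] at this
      exact this
    · have h0 : F.coeff j = 0 := by
        apply coeff_eq_zero_of_natDegree_lt
        rw [Finset.mem_range] at hj
        omega
      rw [h0, natDegree_zero]
      exact Nat.zero_le _
  obtain ⟨hch1, hch2⟩ := hch n0 d₀ hcase hd₀'
  have had : a.natDegree ≤ d₀ := by rw [hadef]; exact hd₀ _
  have hGdeg : ∀ i, (G.coeff i).natDegree ≤ k * d₀ := by
    intro i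
    rw [hG, ← hFk]
    exact norm_deg hk1 hd₀ i
  have hHdeg := degx_dvd hHG hGm.ne_zero hGdeg
  have hGmp : ∀ i, mp ((G.coeff i).map (Int.castRingHom ℂ)) ≤ k * L := by
    intro i
    rw [hG, ← hFk]
    exact norm_mp hk1 hL i
  have hHmp : ∀ i, mp ((H.coeff i).map (Int.castRingHom ℂ)) ≤ K₁ * (1 + L) := by
    intro i
    have h1 := mp_dvd hGm hHm hHG hGmp i
    rw [hGd, abs_of_nonneg (show 0 ≤ (k:ℝ) * L by positivity)] at h1
    refine h1.trans ?_
    rw [hK₁]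
    have e1 : 0 ≤ (k:ℝ) * log (2 * ((k:ℝ) + 1)) * L := by positivity
    have e2 : 0 ≤ (k:ℝ) * (((k:ℝ) + 1) * k) := by positivity
    linarith
  obtain ⟨κ, hκ⟩ : ∃ κ, κ = H.natDegree := ⟨_, rfl⟩
  rw [← hκ] at hκ2 hκk
  have hκm : κ ∈ Finset.range (k + 1) := Finset.mem_range.mpr (by omega)
  have hBκ : B κ ≤ Bs := by
    rw [hBs]
    exact Finset.single_le_sum (f := B) (fun κ _ => hB κ) hκm
  have hnκ : n₁ κ ≤ ns := by
    rw [hns]
    exact Finset.single_le_sum (f := n₁) (fun κ _ => Nat.zero_le _) hκm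
  obtain ⟨N, hN, hNc, hNn⟩ := pole_U ha hu hp (m := ns * (k * d₀ + 1)) (by
    rw [← hn0]
    refine le_trans ?_ hch1
    have : (a.natDegree : ℝ) ≤ d₀ := by exact_mod_cast had
    linarith)
  rw [← hn0] at hNn
  -- the value
  obtain ⟨f, hfdef⟩ : ∃ f, f = fv F u v := ⟨_, rfl⟩
  rw [← hfdef] at hf ⊢
  have hlf : 0 ≤ lM f := lM_nonneg hf
  obtain ⟨g, hgdef⟩ : ∃ g, g = fv G (a * u) v := ⟨_, rfl⟩
  have hrel : a ^ (k - 1) * f = g := by
    rw [hfdef, hgdef, hadef, ← hFk, ← fv_norm (by omega), ← hG]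
  have hak : a ^ (k - 1) ≠ 0 := pow_ne_zero _ ha
  have hg0 : g ≠ 0 := by
    rw [← hrel]
    exact mul_ne_zero hak hf
  have hgf : g = fv H (a * u) v * fv R (a * u) v := by
    rw [hgdef, hGHR, fv_mul hHm.ne_zero hR0 _ hv]
  have hh0 : fv H (a * u) v ≠ 0 := by
    intro h0
    rw [h0, zero_mul] at hgf
    exact hg0 hgf
  have hr0 : fv R (a * u) v ≠ 0 := by
    intro h0
    rw [h0, mul_zero] at hgf
    exact hg0 hgf
  have hau : a * u ≠ 0 := mul_ne_zero ha hu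
  have hY0 : Y ≠ 0 := by
    rintro rfl
    rw [zero_mul] at hvYW
    exact hv hvYW
  have hW0 : W ≠ 0 := by
    rintro rfl
    rw [mul_zero] at hvYW
    exact hv hvYW
  obtain ⟨v'', hv''⟩ := hYth
  have hlvY : lM v - lM Y = lM W := by
    rw [hvYW, lM_mul hY0 hW0]
    ring
  have hK1L : 0 ≤ K₁ * (1 + L) := by positivity
  have hfd := hT κ hκ2 (K₁ * (1 + L)) hK1L H hHm hκ.symm (k * d₀) hHdeg hHmp (dR_ne hHs) (a * u) v
    Y W v'' N (n0 + d₀)
    hau hv hvYW hv'' ((Nat.mul_le_mul_right _ hnκ).trans hN) hNc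
    (by rw [natDegree_mul ha hu]; omega) (by omega) hh0
  rw [hlvY] at hfd
  have hlMa : lM a ≤ L := by
    refine (lM_le_mp a).trans ?_
    rw [hadef]
    exact hL _
  have hlMa0 : 0 ≤ lM a := lM_nonneg ha
  have hlM : lM (fv H (a * u) v) ≤ k * L + lM f := by
    have h1 : lM g = (k - 1 : ℕ) * lM a + lM f := by
      rw [← hrel, lM_mul hak hf, lM_pow ha]
    have h2 : lM g = lM (fv H (a * u) v) + lM (fv R (a * u) v) := by
      rw [hgf, lM_mul hh0 hr0]
    have h3 := lM_nonneg hr0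
    have h4 : ((k - 1 : ℕ) : ℝ) * lM a ≤ k * L := by
      apply mul_le_mul _ hlMa hlMa0 (Nat.cast_nonneg _)
      exact_mod_cast Nat.sub_le k 1
    linarith
  have hTm := TH_mul ha hu hv
  have hmpa : mp (a.map (Int.castRingHom ℂ)) ≤ L := by
    rw [hadef]
    exact hL _
  obtain ⟨T, hTdef⟩ : ∃ T, T = TH (a * u) v := ⟨_, rfl⟩
  rw [← hTdef] at hfd hTm
  have hn0R : (1:ℝ) ≤ n0 := by exact_mod_cast hn₂.trans hcase
  have hln : log ((n0 + d₀ : ℕ) : ℝ) - log N ≤ |C'| := by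
    refine le_trans ?_ (le_abs_self C')
    rw [hC']
    have h1 : log ((n0 + d₀ : ℕ) : ℝ) ≤ log 2 + log n0 := by
      rw [← log_mul (by positivity) (by positivity)]
      apply log_le_log (by push_cast; positivity)
      push_cast
      have : (d₀ : ℝ) ≤ n0 := by exact_mod_cast hch2
      linarith
    have h2 : log (δ / 2) + log n0 ≤ log N := by
      rw [← log_mul (by positivity) (by positivity)]
      exact log_le_log (by positivity) hNn
    linarith
  obtain ⟨kp, hkp⟩ : ∃ kp : ℕ, kp = κ * (κ - 1) := ⟨_, rfl⟩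
  obtain ⟨km, hkm⟩ : ∃ km : ℕ, km = 2 * (κ - 1) := ⟨_, rfl⟩
  rw [← hkp, ← hkm] at hfd
  have hkmp : (km : ℝ) ≤ kp := by
    have : km ≤ kp := by
      rw [hkm, hkp]
      exact Nat.mul_le_mul_right _ hκ2
    exact_mod_cast this
  have hkp1 : (1:ℝ) ≤ kp := by
    have : 1 ≤ kp := by
      rw [hkp]
      exact Nat.mul_pos (by omega) (by omega)
    exact_mod_cast this
  have hkm0 : (0:ℝ) ≤ km := Nat.cast_nonneg _
  have hkp0 : (0:ℝ) < kp := by linarith
  have hTW : lM W ≤ |K| + (w * T + L) := by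
    have h1 : w * TH u v ≤ w * (T + L) := mul_le_mul_of_nonneg_left (by linarith) hw0
    have h2 := le_abs_self K
    have h3 : w * L ≤ 1 * L := mul_le_mul_of_nonneg_right hw.le hL0
    linarith
  have hTb : T * E ≤ (Bs * (1 + K₁) + |K| + k + |C'| + 2) * (1 + L + lM f) := by
    have g1 : (kp:ℝ) * lM W ≤ (kp:ℝ) * (|K| + (w * T + L)) :=
      mul_le_mul_of_nonneg_left hTW hkp0.le
    have g2 : (kp:ℝ) * (log ((n0 + d₀ : ℕ) : ℝ) - log N) ≤ (kp:ℝ) * |C'| :=
      mul_le_mul_of_nonneg_left hln hkp0.le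
    have g3 : (km:ℝ) * lM (fv H (a * u) v) ≤ kp * (k * L + lM f) :=
      mul_le_mul hkmp hlM (lM_nonneg hh0) hkp0.le
    have g4 : B κ * (1 + K₁ * (1 + L)) ≤ kp * (Bs * (1 + K₁) * (1 + L)) := by
      have e1 : B κ * (1 + K₁ * (1 + L)) ≤ Bs * (1 + K₁ * (1 + L)) :=
        mul_le_mul_of_nonneg_right hBκ (by positivity)
      have e2 : Bs * (1 + K₁ * (1 + L)) ≤ Bs * ((1 + K₁) * (1 + L)) := by
        apply mul_le_mul_of_nonneg_left _ hBs0
        have : 0 ≤ K₁ * (1 + L) := by positivity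
        linarith
      have e3 : 0 ≤ Bs * (1 + K₁) * (1 + L) := by positivity
      have e4 := le_mul_of_one_le_left e3 hkp1
      linarith
    have g5 : (kp:ℝ) * (T * E) ≤ kp * (Bs * (1 + K₁) * (1 + L) + |K| + L + (k * L + lM f) + |C'|) := by
      rw [hE]
      linarith
    have g6 := le_of_mul_le_mul_left g5 hkp0
    have p1 : 0 ≤ Bs * (1 + K₁) * lM f := by positivity
    have p2 : 0 ≤ |K| * (L + lM f) := by positivity
    have p3 : 0 ≤ (k:ℝ) * (1 + lM f) := by positivity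
    have p4 : 0 ≤ |C'| * (L + lM f) := by positivity
    linarith
  have hTc : T ≤ (Bs * (1 + K₁) + |K| + k + |C'| + 2) / E * (1 + L + lM f) := by
    rw [div_mul_eq_mul_div, le_div_iff₀ hE0]
    exact hTb
  rw [add_mul, one_mul]
  linarith

end Pool.Agent.Zk21.My
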