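import Mathlib
import Pool.Agent.Zk21.MyG

/-!
# Moving targets, uniformly: the gap
-/

set_option autoImplicit false

open Polynomial Metric Set Filter Topology Real

namespace Pool.Agent.Zk21.My

open Pool.Agent.R328 Pool.Agent.Zk21.Smt Pool.Agent.Zk21.Un Pool.Agent.Zk21.Pt Pool.Agent.Zk21.Ca
open Pool.Agent.Zk21.Mv
open Pool.Agent.Zk21.Mw (TH TH_int TH_mul lM_le_TH fv fv_norm fv_mul fv_C fv_prod fv_deg fv_X fv_zero Pole
  gap_deg_div lM_le_mp)

/-- the values on the circle -/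
lemma fv_leU (F : ℤ[X][X]) (u v : ℤ[X]) (x : ℂ) :
    ‖ev x (fv F u v)‖ ≤ (((F.natDegree : ℝ) + 1) * exp (∑ i ∈ Finset.range (F.natDegree + 1),
      log⁺ ‖((F.coeff i).map (Int.castRingHom ℂ)).eval x‖)) *
      max ‖ev x u‖ ‖ev x v‖ ^ F.natDegree := by
  obtain ⟨H, hH⟩ : ∃ H, H = max ‖ev x u‖ ‖ev x v‖ := ⟨_, rfl⟩
  have hu : ‖ev x u‖ ≤ H := by rw [hH]; exact le_max_left _ _
  have hv : ‖ev x v‖ ≤ H := by rw [hH]; exact le_max_right _ _
  have hH0 : 0 ≤ H := (norm_nonneg _).trans hu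
  obtain ⟨L, hL⟩ : ∃ L, L = exp (∑ i ∈ Finset.range (F.natDegree + 1),
      log⁺ ‖((F.coeff i).map (Int.castRingHom ℂ)).eval x‖) := ⟨_, rfl⟩
  have hL0 : 0 ≤ L := by rw [hL]; exact (exp_pos _).le
  rw [← hH, ← hL]
  unfold fv
  rw [map_sum]
  refine (norm_sum_le _ _).trans ?_
  have h1 : ∀ i ∈ Finset.range (F.natDegree + 1),
      ‖ev x (F.coeff i * u ^ i * v ^ (F.natDegree - i))‖ ≤ L * H ^ F.natDegree := by
    intro i hi
    rw [Finset.mem_range] at hi
    have h2 : ‖ev x (F.coeff i)‖ ≤ L := by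
      have := coef_W F x i
      rwa [← hL, coeff_map] at this
    rw [map_mul, map_mul, map_pow, map_pow, norm_mul, norm_mul, norm_pow, norm_pow]
    have h3 : H ^ F.natDegree = H ^ i * H ^ (F.natDegree - i) := by
      rw [← pow_add]
      congr 1
      omega
    rw [h3, ← mul_assoc]
    apply mul_le_mul
    · exact mul_le_mul h2 (pow_le_pow_left₀ (norm_nonneg _) hu _) (by positivity) hL0
    · exact pow_le_pow_left₀ (norm_nonneg _) hv _
    · positivity
    · positivity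
  refine (Finset.sum_le_sum h1).trans (le_of_eq ?_)
  rw [Finset.sum_const, Finset.card_range, nsmul_eq_mul]
  push_cast
  ring

/-- the proximity to the companions, for a divisor of a value -/
lemma prox_divU (F : ℤ[X][X]) (u v f R q : ℤ[X]) (j : ℕ) (hu : u ≠ 0) (hv : v ≠ 0) (hf : f ≠ 0)
    (hR : R ≠ 0) (hfR : f * R = X ^ j * fv F u v)
    (hq : q = u ^ F.natDegree ∨ q = v ^ F.natDegree) :
    prox f q ≤ mp (R.map (Int.castRingHom ℂ)) + (log (F.natDegree + 1) +
      ∑ i ∈ Finset.range (F.natDegree + 1), mp ((F.coeff i).map (Int.castRingHom ℂ))) +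
      F.natDegree * TH u v := by
  have hfv := fv_leU F u v
  obtain ⟨k, hkdef⟩ : ∃ k, k = F.natDegree := ⟨_, rfl⟩
  rw [← hkdef] at hq ⊢
  obtain ⟨φ, hφ⟩ : ∃ φ : ℂ → ℝ, φ = (fun x => ∑ i ∈ Finset.range (F.natDegree + 1),
      log⁺ ‖((F.coeff i).map (Int.castRingHom ℂ)).eval x‖) := ⟨_, rfl⟩
  have hφi : CircleIntegrable φ 0 1 := by
    rw [hφ]
    exact sum_int F _
  have hφa : circleAverage φ 0 1 = ∑ i ∈ Finset.range (k + 1),
      mp ((F.coeff i).map (Int.castRingHom ℂ)) := by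
    rw [hφ, sum_avg, hkdef]
  have hk0 : (0:ℝ) ≤ k := Nat.cast_nonneg _
  have hg : fv F u v ≠ 0 := by
    intro h0
    rw [h0, mul_zero] at hfR
    exact mul_ne_zero hf hR hfR
  set R' := R.map (Int.castRingHom ℂ) with hR'
  set f' := f.map (Int.castRingHom ℂ) with hf'
  set u' := u.map (Int.castRingHom ℂ) with hu'
  set v' := v.map (Int.castRingHom ℂ) with hv'
  set q' := q.map (Int.castRingHom ℂ) with hq'
  set g' := (fv F u v).map (Int.castRingHom ℂ) with hg'
  have key : prox f q ≤ circleAverage ((fun x => log⁺ ‖R'.eval x‖) + ((fun _ => log (k + 1)) + (φ +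
      (((k : ℝ) • ((fun x => log ‖u'.eval x‖) ⊔ (fun x => log ‖v'.eval x‖))) -
        fun x => log ‖g'.eval x‖)))) 0 1 := by
    unfold prox
    apply circleAverage_mono_off (posLog_ratio_int _ _)
      ((posLog_int _).add ((circleIntegrable_const _ _ _).add (hφi.add
        (((TH_int u v).const_smul).sub (log_int _)))))
      (((((roots_countable (map_ne hR)).union (roots_countable (map_ne hf))).union
        (roots_countable (map_ne hg))).union (roots_countable (map_ne hu))).union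
        (roots_countable (map_ne hv)))
    intro x hxs hxZ
    rw [mem_sphere_zero_iff_norm] at hxs
    simp only [Set.mem_union, not_or] at hxZ
    obtain ⟨⟨⟨⟨hx1, hx2⟩, hx3⟩, hx4⟩, hx5⟩ := hxZ
    have hx1' : ev x R ≠ 0 := by rw [ev_eq]; exact hx1
    have hx2' : ev x f ≠ 0 := by rw [ev_eq]; exact hx2
    have hx3' : ev x (fv F u v) ≠ 0 := by rw [ev_eq]; exact hx3
    have hx4' : ev x u ≠ 0 := by rw [ev_eq]; exact hx4
    have hx5' : ev x v ≠ 0 := by rw [ev_eq]; exact hx5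
    have ea : R'.eval x = ev x R := (ev_eq x R).symm
    have ef : f'.eval x = ev x f := (ev_eq x f).symm
    have eu : u'.eval x = ev x u := (ev_eq x _).symm
    have ew : v'.eval x = ev x v := (ev_eq x v).symm
    have eg : g'.eval x = ev x (fv F u v) := (ev_eq x _).symm
    have eq' : q'.eval x = ev x q := (ev_eq x _).symm
    simp only [Pi.add_apply, Pi.smul_apply, Pi.sub_apply, Pi.sup_apply, smul_eq_mul]
    rw [← hf', ← hq', ea, eu, ew, eg, ef, eq', norm_div]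
    have h1 : ‖ev x f‖ * ‖ev x R‖ = ‖ev x (fv F u v)‖ := by
      have h3 := congrArg (fun R => ‖ev x R‖) hfR
      simp only [map_mul, map_pow, norm_mul, norm_pow, ev_X, hxs, one_pow, one_mul] at h3
      exact h3
    have h2 := hfv x
    obtain ⟨w, hw⟩ : ∃ w, w = φ x := ⟨_, rfl⟩
    have hw' : w = ∑ i ∈ Finset.range (F.natDegree + 1),
      log⁺ ‖((F.coeff i).map (Int.castRingHom ℂ)).eval x‖ := by rw [hw, hφ]
    have hw0 : 0 ≤ w := by
      rw [hw']
      exact Finset.sum_nonneg fun _ _ => posLog_nonneg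
    rw [← hw', ← hkdef] at h2
    rw [← hw]
    obtain ⟨L, hLdef⟩ : ∃ L : ℝ, L = ((k:ℝ) + 1) * exp w := ⟨_, rfl⟩
    have hL : 1 ≤ L := by
      rw [hLdef]
      exact o1 (by linarith) (one_le_exp hw0)
    rw [← hLdef] at h2
    have hlL : log L = log (k + 1) + w := by
      rw [hLdef, log_mul (by positivity) (by positivity), log_exp]
    have hfp : 0 < ‖ev x f‖ := norm_pos_iff.mpr hx2'
    have hgp : 0 < ‖ev x (fv F u v)‖ := norm_pos_iff.mpr hx3'
    have hRp : 0 < ‖ev x R‖ := norm_pos_iff.mpr hx1'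
    have hup : 0 < ‖ev x u‖ := norm_pos_iff.mpr hx4'
    have hvp : 0 < ‖ev x v‖ := norm_pos_iff.mpr hx5'
    obtain ⟨H, hH⟩ : ∃ H, H = max ‖ev x u‖ ‖ev x v‖ := ⟨_, rfl⟩
    rw [← hH] at h2
    have hH0 : 0 < H := by rw [hH]; exact lt_max_of_lt_right hvp
    obtain ⟨lm, hlmdef⟩ : ∃ lm, lm = log ‖ev x u‖ ⊔ log ‖ev x v‖ := ⟨_, rfl⟩
    have hlm : log H = lm := by
      rw [hlmdef, hH]
      rcases le_total ‖ev x u‖ ‖ev x v‖ with h3 | h3
      · rw [max_eq_right h3, sup_eq_right.mpr (log_le_log hup h3)]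
      · rw [max_eq_left h3, sup_eq_left.mpr (log_le_log hvp h3)]
    rw [← hlmdef, ← hlm]
    have hqH : ‖ev x q‖ ≤ H ^ k := by
      rcases hq with hq | hq
      · rw [hq, map_pow, norm_pow]
        exact pow_le_pow_left₀ hup.le (by rw [hH]; exact le_max_left _ _) k
      · rw [hq, map_pow, norm_pow]
        exact pow_le_pow_left₀ hvp.le (by rw [hH]; exact le_max_right _ _) k
    have hS1 : ‖ev x q‖ / ‖ev x f‖ ≤ ‖ev x R‖ * (L * H ^ k / ‖ev x (fv F u v)‖) := by
      have e1 : ‖ev x q‖ / ‖ev x f‖ = ‖ev x R‖ * (‖ev x q‖ / ‖ev x (fv F u v)‖) := by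
        rw [← h1]
        field_simp
      rw [e1]
      apply mul_le_mul_of_nonneg_left _ hRp.le
      apply div_le_div_of_nonneg_right _ hgp.le
      have e4 : H ^ k ≤ L * H ^ k := le_mul_of_one_le_left (by positivity) hL
      linarith
    have hB1 : 1 ≤ L * H ^ k / ‖ev x (fv F u v)‖ := by
      rw [le_div_iff₀ hgp, one_mul]
      exact h2
    have h5 : log⁺ (‖ev x q‖ / ‖ev x f‖) ≤ log⁺ ‖ev x R‖ +
        log⁺ (L * H ^ k / ‖ev x (fv F u v)‖) :=
      (posLog_le_posLog (by positivity) hS1).trans posLog_mul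
    have h6 : log⁺ (L * H ^ k / ‖ev x (fv F u v)‖) = log L + (k * log H -
        log ‖ev x (fv F u v)‖) := by
      rw [posLog_eq_log (by rw [abs_of_pos (by positivity)]; exact hB1), log_div (by positivity) hgp.ne',
        log_mul (by positivity) (by positivity), log_pow]
      ring
    rw [h6, hlL] at h5
    linarith
  rw [circleAverage_add (posLog_int _) ((circleIntegrable_const _ _ _).add (hφi.add
        (((TH_int u v).const_smul).sub (log_int _)))),
    circleAverage_add (circleIntegrable_const _ _ _) (hφi.add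
        (((TH_int u v).const_smul).sub (log_int _))),
    circleAverage_add hφi (((TH_int u v).const_smul).sub (log_int _)),
    circleAverage_sub ((TH_int u v).const_smul) (log_int _), circleAverage_smul,
    circleAverage_const, Un.log_mahler, smul_eq_mul, hφa] at key
  have h7 : 0 ≤ log g'.mahlerMeasure := lM_nonneg hg
  have h8 : circleAverage (fun x => log⁺ ‖R'.eval x‖) 0 1 = mp R' := rfl
  have h9 : circleAverage ((fun x => log ‖u'.eval x‖) ⊔ (fun x => log ‖v'.eval x‖)) 0 1 =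
    TH u v := rfl
  rw [h8, h9] at key
  linarith

/-- **the height is bounded by the measure: slowly moving targets** -/
theorem T_slow (k : ℕ) (K : ℝ) (D : ℕ) {δ w : ℝ} (hδ : 0 < δ) (hw0 : 0 ≤ w) (hw : w < 1) :
    ∃ η : ℝ, 0 < η ∧ η ≤ 1 ∧ ∃ C₂ : ℝ, 0 ≤ C₂ ∧ ∃ n₂ : ℕ, 1 ≤ n₂ ∧
      ∀ F : ℤ[X][X], F.natDegree = k →
      (∀ (a b c : ℤ[X]) (m : ℕ), F ≠ C c * (C a * X + C b) ^ m) →
      ∀ (u v f R Y W : ℤ[X]) (j : ℕ),
        u ≠ 0 → v ≠ 0 → f ≠ 0 → R ≠ 0 → f * R = X ^ j * fv F u v →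
        (∀ i, mp ((F.coeff i).map (Int.castRingHom ℂ)) ≤ K + η * TH u v) →
        mp (R.map (Int.castRingHom ℂ)) ≤ K + η * TH u v →
        v = Y * W → Y ∣ th v → lM W ≤ K + w * TH u v → Pole δ u v →
        (∀ i, ((F.coeff i).natDegree : ℝ) ≤ D + η * (max u.natDegree v.natDegree : ℕ)) →
        n₂ ≤ max u.natDegree v.natDegree → TH u v ≤ C₂ * (1 + lM f) := by
  obtain ⟨η₁, hη₁, C₁, hC₁, n₂, hn₂, hT⟩ := T_allU k K D hδ hw0 hw
  obtain ⟨ε, hε⟩ : ∃ ε : ℝ, ε = 1 / (4 * (C₁ + 1)) := ⟨_, rfl⟩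
  have hε0 : 0 < ε := by rw [hε]; positivity
  have hε1 : ε ≤ 1 := by
    rw [hε, div_le_one (by positivity)]
    linarith
  have hC₁ε : C₁ * ε ≤ 1 / 4 := by
    rw [hε, mul_one_div, div_le_iff₀ (by positivity)]
    linarith
  refine ⟨min η₁ ε, lt_min hη₁ hε0, (min_le_right _ _).trans hε1, 2 * C₁ * (1 + 2 * |K|),
    by positivity, n₂, hn₂, ?_⟩
  intro F hFk hF u v f R Y W j hu hv hf hR hfR hK hRK hvYW hYth hWK hp hdeg hcase
  have hg : fv F u v ≠ 0 := by
    intro h0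
    rw [h0, mul_zero] at hfR
    exact mul_ne_zero hf hR hfR
  have hT0 : 0 ≤ TH u v := (lM_nonneg hv).trans (lM_le_TH u v)
  have hn0 : (0:ℝ) ≤ (max u.natDegree v.natDegree : ℕ) := Nat.cast_nonneg _
  have hdeg1 : ∀ i, ((F.coeff i).natDegree : ℝ) ≤ D + η₁ * (max u.natDegree v.natDegree : ℕ) := by
    intro i
    have := mul_le_mul_of_nonneg_right (min_le_left η₁ ε) hn0
    linarith [hdeg i]
  obtain ⟨T, hTdef⟩ : ∃ T, T = TH u v := ⟨_, rfl⟩
  have hminT : min η₁ ε * T ≤ ε * T := by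
    rw [hTdef]
    exact mul_le_mul_of_nonneg_right (min_le_right η₁ ε) hT0
  have hT0' : 0 ≤ T := by rw [hTdef]; exact hT0
  obtain ⟨L, hL⟩ : ∃ L : ℝ, L = |K| + ε * T := ⟨_, rfl⟩
  have hL0 : 0 ≤ L := by rw [hL]; positivity
  have hLF : ∀ i, mp ((F.coeff i).map (Int.castRingHom ℂ)) ≤ L := by
    intro i
    have h1 := hK i
    rw [← hTdef] at h1
    have h2 := le_abs_self K
    rw [hL]
    linarith
  have hRL : mp (R.map (Int.castRingHom ℂ)) ≤ L := by
    rw [← hTdef] at hRK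
    have h2 := le_abs_self K
    rw [hL]
    linarith
  have hTuv := hT F hFk hF L hL0 hLF u v Y W hu hv hvYW hYth hWK hp hcase hdeg1 hg
  rw [← hTdef] at hTuv ⊢
  have hlg : lM (fv F u v) ≤ lM f + L := by
    have h1 := congrArg lM hfR
    rw [lM_mul hf hR, lM_mul (pow_ne_zero _ X_ne_zero) hg, lM_X, zero_add] at h1
    have h2 := lM_le_mp R
    linarith
  have hlf : 0 ≤ lM f := lM_nonneg hf
  have h1 : C₁ * (1 + L + lM (fv F u v)) ≤ C₁ * (1 + 2 * |K| + 2 * (ε * T) + lM f) := by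
    apply mul_le_mul_of_nonneg_left _ hC₁
    rw [hL] at hlg ⊢
    linarith
  have h2 : (C₁ * ε) * T ≤ 1 / 4 * T := mul_le_mul_of_nonneg_right hC₁ε hT0'
  have h3 : 0 ≤ C₁ * |K| * lM f := by positivity
  have h4 : T ≤ 2 * C₁ * (1 + 2 * |K| + lM f) := by linarith
  have h5 : 2 * C₁ * (1 + 2 * |K|) * (1 + lM f) =
      2 * C₁ * (1 + 2 * |K| + lM f) + 4 * (C₁ * |K| * lM f) := by ring
  rw [h5]
  linarith

/-- **the gap for divisors of values at rational functions, uniformly in `F`** -/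
theorem gap_divU (k : ℕ) (K : ℝ) (D : ℕ) {δ w : ℝ} (hδ : 0 < δ) (hw0 : 0 ≤ w) (hw : w < 1) :
    ∃ μ : ℝ, 1 < μ ∧ ∃ η : ℝ, 0 < η ∧ ∃ C₂ : ℝ, 0 ≤ C₂ ∧ ∃ n₂ : ℕ, 1 ≤ n₂ ∧
      ∀ F : ℤ[X][X], F.natDegree = k →
      (∀ (a b c : ℤ[X]) (m : ℕ), F ≠ C c * (C a * X + C b) ^ m) →
      ∀ (u v f R Y W : ℤ[X]) (j : ℕ),
        u ≠ 0 → v ≠ 0 → f ≠ 0 → R ≠ 0 → f * R = X ^ j * fv F u v →
        (∀ i, mp ((F.coeff i).map (Int.castRingHom ℂ)) ≤ K + η * TH u v) →
        mp (R.map (Int.castRingHom ℂ)) ≤ K + η * TH u v →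
        v = Y * W → Y ∣ th v → lM W ≤ K + w * TH u v → Pole δ u v →
        (∀ i, ((F.coeff i).natDegree : ℝ) ≤ D + η * (max u.natDegree v.natDegree : ℕ)) →
        (n₂ ≤ max u.natDegree v.natDegree → TH u v ≤ C₂ * (1 + lM f)) ∧
        ((∀ z : ℂ, 1 < ‖z‖ → aeval z f = 0 → aeval z u ≠ 0 ∨ aeval z v ≠ 0) →
        (f.map (Int.castRingHom ℂ)).mahlerMeasure = 1 ∨
          μ ≤ (f.map (Int.castRingHom ℂ)).mahlerMeasure) := by
  obtain ⟨η, hη, hη1, C₂, hC₂, n₂, hn₂, hT⟩ := T_slow k K D hδ hw0 hw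
  obtain ⟨Ts, hTs⟩ : ∃ Ts : ℝ, Ts = C₂ * 2 := ⟨_, rfl⟩
  have hTs0 : 0 ≤ Ts := by rw [hTs]; positivity
  obtain ⟨K₂, hK₂⟩ : ∃ K₂ : ℝ, K₂ = K + Ts := ⟨_, rfl⟩
  obtain ⟨D', hD'⟩ := exists_nat_ge (D + η * n₂)
  obtain ⟨μ₁, hμ₁, hgap1⟩ := gap_deg_div ((k + 1) * D' + k * n₂)
  obtain ⟨μ₂, hμ₂, hgap2⟩ := gap_multi (K₂ + (log (k + 1) + (k + 1) * K₂) + k * Ts)
  have he1 : (1:ℝ) < exp 1 := by
    have := add_one_lt_exp (one_ne_zero (α := ℝ))
    linarith
  refine ⟨min (min μ₁ μ₂) (exp 1), lt_min (lt_min hμ₁ hμ₂) he1, η, hη, C₂, hC₂, n₂, hn₂, ?_⟩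
  intro F hFk hF u v f R Y W j hu hv hf hR hfR hK hRK hvYW hYth hWK hp hdeg
  have hTn := hT F hFk hF u v f R Y W j hu hv hf hR hfR hK hRK hvYW hYth hWK hp hdeg
  refine ⟨hTn, ?_⟩
  intro hz
  have hM : (f.map (Int.castRingHom ℂ)).mahlerMeasure = exp (lM f) := (exp_log (mahler_pos hf)).symm
  by_cases hm : 1 < lM f
  · right
    rw [hM]
    exact (min_le_right _ _).trans (exp_le_exp.mpr hm.le)
  rw [not_lt] at hm
  have hT0 : 0 ≤ TH u v := (lM_nonneg hv).trans (lM_le_TH u v)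
  by_cases hcase : n₂ ≤ max u.natDegree v.natDegree
  · obtain ⟨T, hTdef⟩ : ∃ T, T = TH u v := ⟨_, rfl⟩
    have hTb : T ≤ Ts := by
      rw [hTdef, hTs]
      refine (hTn hcase).trans (mul_le_mul_of_nonneg_left ?_ hC₂)
      linarith
    rw [← hTdef] at hT0 hK hRK
    have hηT : η * T ≤ Ts := by
      have h1 : η * T ≤ 1 * T := mul_le_mul_of_nonneg_right hη1 hT0
      linarith
    have hsum : ∑ i ∈ Finset.range (k + 1), mp ((F.coeff i).map (Int.castRingHom ℂ)) ≤
        (k + 1) * K₂ := by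
      refine (Finset.sum_le_sum (g := fun _ => K₂) fun i _ => (hK i).trans
        (by rw [hK₂]; linarith)).trans (le_of_eq ?_)
      rw [Finset.sum_const, Finset.card_range, nsmul_eq_mul]
      push_cast
      ring
    have hprox' : ∀ q : ℤ[X], (q = u ^ k ∨ q = v ^ k) →
        prox f q ≤ K₂ + (log (k + 1) + (k + 1) * K₂) + k * Ts := by
      intro q hq
      have h1 := prox_divU F u v f R q j hu hv hf hR hfR (by rw [hFk]; exact hq)
      rw [hFk, ← hTdef] at h1
      have h2 : (k:ℝ) * T ≤ k * Ts := mul_le_mul_of_nonneg_left hTb (Nat.cast_nonneg _)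
      have h3 : mp (R.map (Int.castRingHom ℂ)) ≤ K₂ := hRK.trans (by rw [hK₂]; linarith)
      linarith
    rcases hgap2 f 2 ![u ^ k, v ^ k] hf (by
        intro i
        fin_cases i
        · exact hprox' _ (Or.inl rfl)
        · exact hprox' _ (Or.inr rfl)) (by
        intro z hz1 hz2
        rcases hz z hz1 hz2 with h | h
        · refine ⟨0, ?_⟩
          show aeval z (u ^ k) ≠ 0
          rw [map_pow]
          exact pow_ne_zero _ h
        · refine ⟨1, ?_⟩
          show aeval z (v ^ k) ≠ 0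
          rw [map_pow]
          exact pow_ne_zero _ h) with h | h
    · exact Or.inl h
    · right
      exact ((min_le_left _ _).trans (min_le_right _ _)).trans h
  · rw [not_le] at hcase
    have hdeg' : ∀ i, (F.coeff i).natDegree ≤ D' := by
      intro i
      have h1 : ((max u.natDegree v.natDegree : ℕ) : ℝ) ≤ n₂ := by exact_mod_cast hcase.le
      have h2 : η * ((max u.natDegree v.natDegree : ℕ) : ℝ) ≤ η * n₂ :=
        mul_le_mul_of_nonneg_left h1 hη.le
      have h3 : ((F.coeff i).natDegree : ℝ) ≤ D' := (hdeg i).trans (by linarith)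
      exact_mod_cast h3
    have hfd : (fv F u v).natDegree ≤ (k + 1) * D' + k * n₂ := by
      refine (fv_deg F (n := n₂) (by omega) (by omega)).trans ?_
      rw [hFk]
      apply Nat.add_le_add_right
      refine (Finset.sum_le_sum fun i _ => hdeg' i).trans ?_
      rw [Finset.sum_const, Finset.card_range, smul_eq_mul]
    rcases hgap1 f R (fv F u v) j hf hR hfR hfd with h | h
    · exact Or.inl h
    · right
      exact ((min_le_left _ _).trans (min_le_left _ _)).trans h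

/-- **the gap for divisors of values at Laurent polynomials and at rational functions, uniformly** -/
theorem gap_finalU' (k : ℕ) (K : ℝ) (D : ℕ) {δ w : ℝ} (hδ : 0 < δ) (hw0 : 0 ≤ w) (hw : w < 1) :
    ∃ μ : ℝ, 1 < μ ∧ ∃ η : ℝ, 0 < η ∧ ∃ C₂ : ℝ, 0 ≤ C₂ ∧ ∃ n₂ : ℕ, 1 ≤ n₂ ∧
      ∀ F : ℤ[X][X], F.natDegree = k →
      (∀ (a b c : ℤ[X]) (m : ℕ), F ≠ C c * (C a * X + C b) ^ m) →
      ∀ (u v f R : ℤ[X]) (j : ℕ), f ≠ 0 → R ≠ 0 → f * R = X ^ j * fv F u v →
        (∀ i, mp ((F.coeff i).map (Int.castRingHom ℂ)) ≤ K + η * TH u v) →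
        mp (R.map (Int.castRingHom ℂ)) ≤ K + η * TH u v →
        (∀ i, ((F.coeff i).natDegree : ℝ) ≤ D + η * (max u.natDegree v.natDegree : ℕ)) →
        ((∃ e : ℕ, v = X ^ e ∧ (e = 0 ∨ u.coeff 0 ≠ 0)) ∨ (u ≠ 0 ∧ v ≠ 0 ∧ Pole δ u v ∧
          (∃ Y W : ℤ[X], v = Y * W ∧ Y ∣ th v ∧ lM W ≤ K + w * TH u v) ∧
          ∀ z : ℂ, 1 < ‖z‖ → aeval z f = 0 → aeval z u ≠ 0 ∨ aeval z v ≠ 0)) →
        (n₂ ≤ max u.natDegree v.natDegree → TH u v ≤ C₂ * (1 + lM f)) ∧
        ((f.map (Int.castRingHom ℂ)).mahlerMeasure = 1 ∨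
          μ ≤ (f.map (Int.castRingHom ℂ)).mahlerMeasure) := by
  obtain ⟨μ₁, hμ₁, η₁, hη₁, C₁, hC₁, n₁, hn₁, h₁⟩ := gap_divU k K D hδ hw0 hw
  obtain ⟨μ₂, hμ₂, η₂, hη₂, C₂, hC₂, n₂, hn₂, h₂⟩ :=
    gap_divU k |K| D (show (0:ℝ) < 1 / 2 by norm_num) hw0 hw
  obtain ⟨μ₃, hμ₃, h₃⟩ := gap_deg_div D
  refine ⟨min (min μ₁ μ₂) μ₃, lt_min (lt_min hμ₁ hμ₂) hμ₃, min η₁ η₂, lt_min hη₁ hη₂,
    max C₁ C₂, hC₁.trans (le_max_left _ _), max n₁ n₂, hn₁.trans (le_max_left _ _), ?_⟩
  intro F hFk hF u v f R j hf hR hfR hK hRK hdeg hcase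
  have hlf : 0 ≤ 1 + lM f := by
    have := lM_nonneg hf
    linarith
  have hT0 : v ≠ 0 → 0 ≤ TH u v := fun hv => (lM_nonneg hv).trans (lM_le_TH u v)
  have hdeg1 : ∀ i, ((F.coeff i).natDegree : ℝ) ≤ D + η₁ * (max u.natDegree v.natDegree : ℕ) := by
    intro i
    have := mul_le_mul_of_nonneg_right (min_le_left η₁ η₂)
      (Nat.cast_nonneg (α := ℝ) (max u.natDegree v.natDegree))
    linarith [hdeg i]
  have hdeg2 : ∀ i, ((F.coeff i).natDegree : ℝ) ≤ D + η₂ * (max u.natDegree v.natDegree : ℕ) := by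
    intro i
    have := mul_le_mul_of_nonneg_right (min_le_right η₁ η₂)
      (Nat.cast_nonneg (α := ℝ) (max u.natDegree v.natDegree))
    linarith [hdeg i]
  rcases hcase with ⟨e', rfl, hu0⟩ | ⟨hu, hv, hp, ⟨Y, W, hvYW, hYth, hWK⟩, hz⟩
  · by_cases hu1 : u = 0
    · have he1 : e' = 0 := by
        rcases hu0 with h | h
        · exact h
        · rw [hu1] at h
          simp at h
      constructor
      · intro hn
        rw [hu1, he1, pow_zero, natDegree_zero, natDegree_one, max_self] at hn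
        have := hn₁.trans (le_max_left n₁ n₂)
        omega
      rw [hu1, he1, fv_zero, pow_zero, one_pow, mul_one] at hfR
      have hD0 : (F.coeff 0).natDegree ≤ D := by
        have h5 := hdeg 0
        rw [hu1, he1, pow_zero, natDegree_zero, natDegree_one, max_self, Nat.cast_zero, mul_zero,
          add_zero] at h5
        exact_mod_cast h5
      rcases h₃ f R (F.coeff 0) _ hf hR hfR hD0 with h | h
      · exact Or.inl h
      · exact Or.inr ((min_le_right _ _).trans h)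
    · have hT := hT0 (pow_ne_zero e' X_ne_zero)
      have hη := mul_le_mul_of_nonneg_right (min_le_right η₁ η₂) hT
      have hKa := le_abs_self K
      have hpole : Pole (1 / 2) u (X ^ e') := by
        unfold Pole
        rw [natDegree_X_pow, natTrailingDegree_X_pow]
        by_cases h : 2 * e' ≤ u.natDegree
        · left
          have h1 : max u.natDegree e' = u.natDegree := by omega
          rw [h1]
          have h2 : 2 * (e' : ℝ) ≤ u.natDegree := by exact_mod_cast h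
          linarith
        · right
          have h1 : u.natTrailingDegree = 0 := by
            rcases hu0 with h3 | h3
            · omega
            · exact natTrailingDegree_eq_zero.mpr (Or.inr h3)
          have h2 : max u.natDegree e' ≤ 2 * e' := by omega
          have h3 : ((max u.natDegree e' : ℕ) : ℝ) ≤ 2 * e' := by exact_mod_cast h2
          rw [h1]
          push_cast at h3 ⊢
          linarith
      obtain ⟨r1, r2⟩ := h₂ F hFk hF u (X ^ e') f R 1 (X ^ e') _ hu1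
        (pow_ne_zero _ X_ne_zero) hf hR hfR (fun i => (hK i).trans (by linarith))
        (hRK.trans (by linarith)) (one_mul _).symm (one_dvd _) (by
          rw [lM_X]
          have := mul_nonneg hw0 hT
          have := abs_nonneg K
          linarith) hpole hdeg2
      constructor
      · intro hn
        exact (r1 ((le_max_right _ _).trans hn)).trans
          (mul_le_mul_of_nonneg_right (le_max_right _ _) hlf)
      rcases r2 (by
          intro z hz _
          right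
          rw [map_pow, aeval_X]
          apply pow_ne_zero
          rintro rfl
          rw [norm_zero] at hz
          linarith) with h | h
      · exact Or.inl h
      · exact Or.inr (((min_le_left _ _).trans (min_le_right _ _)).trans h)
  · have hT := hT0 hv
    have hη := mul_le_mul_of_nonneg_right (min_le_left η₁ η₂) hT
    obtain ⟨r1, r2⟩ := h₁ F hFk hF u v f R Y W j hu hv hf hR hfR (fun i => (hK i).trans (by linarith))
      (hRK.trans (by linarith)) hvYW hYth hWK hp hdeg1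
    constructor
    · intro hn
      exact (r1 ((le_max_left _ _).trans hn)).trans
        (mul_le_mul_of_nonneg_right (le_max_left _ _) hlf)
    rcases r2 hz with h | h
    · exact Or.inl h
    · exact Or.inr (((min_le_left _ _).trans (min_le_left _ _)).trans h)

/-- **the gap, uniformly for all `F` of degree at most `k`** -/
theorem gap_finalU (k : ℕ) (K : ℝ) (D : ℕ) {δ w : ℝ} (hδ : 0 < δ) (hw0 : 0 ≤ w) (hw : w < 1) :
    ∃ μ : ℝ, 1 < μ ∧ ∃ η : ℝ, 0 < η ∧ ∃ C₂ : ℝ, 0 ≤ C₂ ∧ ∃ n₂ : ℕ, 1 ≤ n₂ ∧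
      ∀ F : ℤ[X][X], F.natDegree ≤ k →
      (∀ (a b c : ℤ[X]) (m : ℕ), F ≠ C c * (C a * X + C b) ^ m) →
      ∀ (u v f R : ℤ[X]) (j : ℕ), f ≠ 0 → R ≠ 0 → f * R = X ^ j * fv F u v →
        (∀ i, mp ((F.coeff i).map (Int.castRingHom ℂ)) ≤ K + η * TH u v) →
        mp (R.map (Int.castRingHom ℂ)) ≤ K + η * TH u v →
        (∀ i, ((F.coeff i).natDegree : ℝ) ≤ D + η * (max u.natDegree v.natDegree : ℕ)) →
        ((∃ e : ℕ, v = X ^ e ∧ (e = 0 ∨ u.coeff 0 ≠ 0)) ∨ (u ≠ 0 ∧ v ≠ 0 ∧ Pole δ u v ∧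
          (∃ Y W : ℤ[X], v = Y * W ∧ Y ∣ th v ∧ lM W ≤ K + w * TH u v) ∧
          ∀ z : ℂ, 1 < ‖z‖ → aeval z f = 0 → aeval z u ≠ 0 ∨ aeval z v ≠ 0)) →
        (n₂ ≤ max u.natDegree v.natDegree → TH u v ≤ C₂ * (1 + lM f)) ∧
        ((f.map (Int.castRingHom ℂ)).mahlerMeasure = 1 ∨
          μ ≤ (f.map (Int.castRingHom ℂ)).mahlerMeasure) := by
  induction k with
  | zero =>
    obtain ⟨μ, hμ, η, hη, C₂, hC₂, n₂, hn₂, h⟩ := gap_finalU' 0 K D hδ hw0 hw
    exact ⟨μ, hμ, η, hη, C₂, hC₂, n₂, hn₂, fun F hF => h F (Nat.le_zero.mp hF)⟩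
  | succ k ih =>
    obtain ⟨μ₁, hμ₁, η₁, hη₁, C₁, hC₁, n₁, hn₁, h₁⟩ := ih
    obtain ⟨μ₂, hμ₂, η₂, hη₂, C₂, hC₂, n₂, hn₂, h₂⟩ := gap_finalU' (k + 1) K D hδ hw0 hw
    refine ⟨min μ₁ μ₂, lt_min hμ₁ hμ₂, min η₁ η₂, lt_min hη₁ hη₂,
      max C₁ C₂, hC₁.trans (le_max_left _ _), max n₁ n₂, hn₁.trans (le_max_left _ _), ?_⟩
    intro F hFk hF u v f R j hf hR hfR hK hRK hdeg hcase
    have hlf : 0 ≤ 1 + lM f := by
      have := lM_nonneg hf
      linarith
    have hv : v ≠ 0 := by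
      rcases hcase with ⟨e', rfl, -⟩ | ⟨-, hv, -⟩
      · exact pow_ne_zero _ X_ne_zero
      · exact hv
    have hT : 0 ≤ TH u v := (lM_nonneg hv).trans (lM_le_TH u v)
    have hn := Nat.cast_nonneg (α := ℝ) (max u.natDegree v.natDegree)
    have a1 := mul_le_mul_of_nonneg_right (min_le_left η₁ η₂) hT
    have a2 := mul_le_mul_of_nonneg_right (min_le_right η₁ η₂) hT
    have a3 := mul_le_mul_of_nonneg_right (min_le_left η₁ η₂) hn
    have a4 := mul_le_mul_of_nonneg_right (min_le_right η₁ η₂) hn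
    rcases Nat.lt_or_ge F.natDegree (k + 1) with hlt | hge
    · obtain ⟨r1, r2⟩ := h₁ F (by omega) hF u v f R j hf hR hfR (fun i => (hK i).trans (by linarith))
        (hRK.trans (by linarith)) (fun i => (hdeg i).trans (by linarith)) hcase
      constructor
      · intro hn
        exact (r1 ((le_max_left _ _).trans hn)).trans
          (mul_le_mul_of_nonneg_right (le_max_left _ _) hlf)
      rcases r2 with h | h
      · exact Or.inl h
      · exact Or.inr ((min_le_left _ _).trans h)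
    · obtain ⟨r1, r2⟩ := h₂ F (by omega) hF u v f R j hf hR hfR (fun i => (hK i).trans (by linarith))
        (hRK.trans (by linarith)) (fun i => (hdeg i).trans (by linarith)) hcase
      constructor
      · intro hn
        exact (r1 ((le_max_right _ _).trans hn)).trans
          (mul_le_mul_of_nonneg_right (le_max_right _ _) hlf)
      rcases r2 with h | h
      · exact Or.inl h
      · exact Or.inr ((min_le_right _ _).trans h)

end Pool.Agent.Zk21.My
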