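import Mathlib
import Pool.Agent.Zk21.CfA
import Pool.Agent.Zk21.CaD

/-!
# The gap theorem for values of decomposable forms
-/

set_option autoImplicit false

open Polynomial Metric Real

namespace Pool.Agent.Zk21.Cf

open Pool.Agent.R328 Pool.Agent.Zk21.Smt Pool.Agent.Zk21.Un Pool.Agent.Zk21.Pt Pool.Agent.Zk21.Ca

variable {N : ℕ}

/-- the error function -/
noncomputable def EE {q : ℕ} (L : Fin q → Fin N → ℂ) (A : Fin N → ℂ[X]) (c : ℝ) : ℂ → ℝ :=
  (∑ l, RG N c (lf (L l) A)) + ∑ j, RG N c (A j)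

lemma EE_int {q : ℕ} (L : Fin q → Fin N → ℂ) (A : Fin N → ℂ[X]) (c : ℝ) :
    CircleIntegrable (EE L A c) 0 1 :=
  (CircleIntegrable.sum _ fun _ _ => RG_int _ _ _).add (CircleIntegrable.sum _ fun _ _ => RG_int _ _ _)

lemma EE_apply {q : ℕ} (L : Fin q → Fin N → ℂ) (A : Fin N → ℂ[X]) (c : ℝ) (x : ℂ) :
    EE L A c x = (∑ l, RG N c (lf (L l) A) x) + ∑ j, RG N c (A j) x := by
  unfold EE
  rw [Pi.add_apply, Finset.sum_apply, Finset.sum_apply]

lemma lf_deg {n : ℕ} {A : Fin N → ℂ[X]} (hA : ∀ j, (A j).natDegree ≤ n) (a : Fin N → ℂ) :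
    (lf a A).natDegree ≤ n := by
  unfold lf
  exact natDegree_sum_le_of_forall_le _ _ fun j _ => (natDegree_C_mul_le _ _).trans (hA j)

lemma EE_avg {q : ℕ} (L : Fin q → Fin N → ℂ) {A : Fin N → ℂ[X]} {n : ℕ} (hn : 0 < n)
    (hA : ∀ j, (A j).natDegree ≤ n) :
    circleAverage (EE L A (4 * n)) 0 1 ≤ 2 * N * (q + N) := by
  unfold EE
  rw [circleAverage_add (CircleIntegrable.sum _ fun _ _ => RG_int _ _ _)
    (CircleIntegrable.sum _ fun _ _ => RG_int _ _ _), circleAverage_sum fun _ _ => RG_int _ _ _,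
    circleAverage_sum fun _ _ => RG_int _ _ _]
  have h2 : ∑ l, circleAverage (RG N (4 * n) (lf (L l) A)) 0 1 ≤ q * (2 * N) := by
    refine (Finset.sum_le_sum fun l _ => RG_avg N hn (lf_deg hA (L l))).trans (le_of_eq ?_)
    rw [Finset.sum_const, Finset.card_univ, Fintype.card_fin, nsmul_eq_mul]
  have h3 : ∑ j, circleAverage (RG N (4 * n) (A j)) 0 1 ≤ N * (2 * N) := by
    refine (Finset.sum_le_sum fun j _ => RG_avg N hn (hA j)).trans (le_of_eq ?_)
    rw [Finset.sum_const, Finset.card_univ, Fintype.card_fin, nsmul_eq_mul]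
  linarith

/-- the constant error -/
noncomputable def BB {q : ℕ} (L : Fin q → Fin N → ℂ) (c : ℝ) : ℝ :=
  (∑ j : Fin N, ((j : ℕ) : ℝ)) * log c + log N.factorial + cD L + ((q : ℝ) - N) * log (cA L)

lemma cD_nonneg {q : ℕ} (L : Fin q → Fin N → ℂ) : 0 ≤ cD L := by
  unfold cD
  exact Finset.sum_nonneg fun _ _ => abs_nonneg _

/-- a nonzero form has a nonzero value -/
lemma lf_ne {q : ℕ} (hq : N ≤ q) (hN : 0 < N) (L : Fin q → Fin N → ℂ)
    (hL : ∀ s : Fin N → Fin q, Function.Injective s → (sel L s).det ≠ 0)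
    {A : Fin N → ℂ[X]} (hW : wr A ≠ 0) (l : Fin q) : lf (L l) A ≠ 0 := by
  set s : Fin N → Fin q := fun i => Equiv.swap (Fin.castLE hq ⟨0, hN⟩) l (Fin.castLE hq i) with hs
  have hinj : Function.Injective s := fun i j hij =>
    Fin.castLE_injective hq ((Equiv.swap (Fin.castLE hq ⟨0, hN⟩) l).injective hij)
  have h0 : s ⟨0, hN⟩ = l := by
    show Equiv.swap (Fin.castLE hq ⟨0, hN⟩) l (Fin.castLE hq ⟨0, hN⟩) = l
    exact Equiv.swap_apply_left _ _
  intro h
  have h1 : wr (fun i => lf (L (s i)) A) = 0 := by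
    apply wr_zero _ (i := ⟨0, hN⟩)
    show lf (L (s ⟨0, hN⟩)) A = 0
    rw [h0]
    exact h
  rw [wr_lf] at h1
  rcases mul_eq_zero.mp h1 with h2 | h2
  · exact hL s hinj (C_eq_zero.mp h2)
  · exact hW h2

/-- the second main theorem for linear forms: the mean of the logarithm of the maximum -/
theorem smt_forms {q : ℕ} (hq : N < q) (hN : 0 < N) [Nonempty (Fin N)] (L : Fin q → Fin N → ℂ)
    (hL : ∀ s : Fin N → Fin q, Function.Injective s → (sel L s).det ≠ 0)
    (A : Fin N → ℂ[X]) {n : ℕ} (hn : 0 < n) (hA : ∀ j, (A j).natDegree ≤ n) (hW : wr A ≠ 0)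
    (f : ℂ[X]) (hf : f = ∏ l, lf (L l) A) :
    ((q : ℝ) - N) * circleAverage (TT A) 0 1 + log (wr A).mahlerMeasure ≤
      log f.mahlerMeasure + (2 * N * (q + N) + BB L (4 * n)) ∧
    ∀ j, circleAverage (fun x => log⁺ ‖(A j ^ q).eval x / f.eval x‖) 0 1 ≤
      N * circleAverage (TT A) 0 1 - log (wr A).mahlerMeasure + (2 * N * (q + N) + BB L (4 * n)) := by
  have hnR : (0:ℝ) < n := by exact_mod_cast hn
  have hc : (0:ℝ) < 4 * n := by positivity
  have hlf0 : ∀ l, lf (L l) A ≠ 0 := fun l => lf_ne hq.le hN L hL hW l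
  have hf0 : f ≠ 0 := by
    rw [hf]
    exact Finset.prod_ne_zero_iff.mpr fun l _ => hlf0 l
  have hA0 : ∀ j, A j ≠ 0 := fun j h => hW (wr_zero A h)
  have hqN : (0:ℝ) < (q : ℝ) - N := by
    rw [sub_pos]
    exact_mod_cast hq
  set Z : Set ℂ := ((⋃ l ∈ (Finset.univ : Finset (Fin q)), bad N (lf (L l) A)) ∪
    ⋃ j ∈ (Finset.univ : Finset (Fin N)), bad N (A j)) ∪ {x | (wr A).eval x = 0} with hZ
  have hZc : Z.Countable :=
    ((Set.Countable.biUnion (Finset.countable_toSet _) fun l _ => bad_countable N (lf (L l) A)).union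
      (Set.Countable.biUnion (Finset.countable_toSet _) fun j _ => bad_countable N (A j))).union
      (roots_countable hW)
  have hlogf : ∀ x, (∀ l, (lf (L l) A).eval x ≠ 0) →
      log ‖f.eval x‖ = ∑ l, log ‖(lf (L l) A).eval x‖ := by
    intro x hx
    rw [hf, eval_prod, norm_prod, log_prod fun l _ => norm_ne_zero_iff.mpr (hx l)]
  -- the two pointwise inequalities
  have hpt : ∀ x, x ∉ Z → (∀ l, (lf (L l) A).eval x ≠ 0) ∧ (∀ j, (A j).eval x ≠ 0) ∧
      ((q : ℝ) - N) * TT A x + log ‖(wr A).eval x‖ ≤ log ‖f.eval x‖ + (EE L A (4 * n) x + BB L (4 * n)) ∧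
      log ‖(wr A).eval x‖ ≤ N * TT A x + (EE L A (4 * n) x + BB L (4 * n)) := by
    intro x hx
    simp only [hZ, Set.mem_union, Set.mem_iUnion, not_exists, not_or] at hx
    obtain ⟨⟨hx1, hx2⟩, hx3⟩ := hx
    have hx1' : ∀ l, x ∉ bad N (lf (L l) A) := fun l => hx1 l (Finset.mem_univ l)
    have hx2' : ∀ j, x ∉ bad N (A j) := fun j => hx2 j (Finset.mem_univ j)
    have e1 : ∀ l, (lf (L l) A).eval x ≠ 0 := fun l => not_bad (l := 0) (hx1' l) (Nat.zero_le _) (hlf0 l)
    have e2 : ∀ j, (A j).eval x ≠ 0 := fun j => not_bad (l := 0) (hx2' j) (Nat.zero_le _) (hA0 j)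
    have e3 : (wr A).eval x ≠ 0 := hx3
    refine ⟨e1, e2, ?_, ?_⟩
    · have h1 := point hq.le L hL hc hx1' e1 e2 e3
      rw [hlogf x e1, EE_apply]
      have h2 : 0 ≤ ∑ j, RG N (4 * n) (A j) x := Finset.sum_nonneg fun j _ => RG_nonneg _ _ _ _
      unfold BB
      linarith
    · have h1 := wr_log hc hx2' e2 e3
      rw [Finset.sum_add_distrib] at h1
      have h2 : 0 ≤ ∑ l, RG N (4 * n) (lf (L l) A) x := Finset.sum_nonneg fun j _ => RG_nonneg _ _ _ _
      have h3 : ∑ j, log ‖(A j).eval x‖ ≤ N * TT A x := by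
        refine (Finset.sum_le_sum fun j _ => le_TT A x j).trans (le_of_eq ?_)
        rw [Finset.sum_const, Finset.card_univ, Fintype.card_fin, nsmul_eq_mul]
      have h4 := cD_nonneg L
      have h5 : 0 ≤ ((q : ℝ) - N) * log (cA L) := mul_nonneg hqN.le (log_nonneg (cA_ge L))
      rw [EE_apply]
      unfold BB
      linarith
  have iT := TT_int A
  have iE := EE_int L A (4 * n)
  have iC : CircleIntegrable (fun _ : ℂ => BB L (4 * n)) 0 1 := circleIntegrable_const _ _ _
  have hE := EE_avg L hn hA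
  constructor
  · have key : circleAverage ((((q : ℝ) - N) • TT A) + fun x => log ‖(wr A).eval x‖) 0 1 ≤
        circleAverage ((fun x => log ‖f.eval x‖) + (EE L A (4 * n) + fun _ => BB L (4 * n))) 0 1 := by
      apply circleAverage_mono_off (iT.const_smul.add (log_int _)) ((log_int _).add (iE.add iC)) (Z := Z)
        hZc
      intro x _ hx
      exact (hpt x hx).2.2.1
    rw [circleAverage_add iT.const_smul (log_int _), circleAverage_add (log_int _) (iE.add iC),
      circleAverage_add iE iC, circleAverage_const, circleAverage_smul, smul_eq_mul, log_mahler,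
      log_mahler] at key
    linarith
  · intro j
    have key : circleAverage (fun x => log⁺ ‖(A j ^ q).eval x / f.eval x‖) 0 1 ≤
        circleAverage ((((N : ℝ) • TT A) - fun x => log ‖(wr A).eval x‖) +
          (EE L A (4 * n) + fun _ => BB L (4 * n))) 0 1 := by
      apply circleAverage_mono_off (posLog_ratio_int _ _) ((iT.const_smul.sub (log_int _)).add (iE.add iC))
        (Z := Z) hZc
      intro x _ hx
      obtain ⟨e1, e2, h1, h2⟩ := hpt x hx
      have p1 : 0 < ‖(A j ^ q).eval x‖ := by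
        rw [eval_pow, norm_pos_iff]
        exact pow_ne_zero _ (e2 j)
      have p2 : 0 < ‖f.eval x‖ := by
        rw [hf, eval_prod, norm_pos_iff]
        exact Finset.prod_ne_zero_iff.mpr fun l _ => e1 l
      show _ ≤ (N : ℝ) * TT A x - log ‖(wr A).eval x‖ + (EE L A (4 * n) x + BB L (4 * n))
      rcases le_total (‖(A j ^ q).eval x‖ / ‖f.eval x‖) 1 with h | h
      · have h5 : log⁺ ‖(A j ^ q).eval x / f.eval x‖ = 0 := by
          rw [norm_div, posLog_eq_zero_iff, abs_of_nonneg (by positivity)]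
          exact h
        rw [h5]
        linarith
      · rw [norm_div, posLog_eq_log (by rwa [abs_of_nonneg (by positivity)]), log_div p1.ne' p2.ne',
          eval_pow, norm_pow, log_pow]
        have h6 := mul_le_mul_of_nonneg_left (le_TT A x j) (Nat.cast_nonneg (α := ℝ) q)
        linarith
    rw [circleAverage_add (iT.const_smul.sub (log_int _)) (iE.add iC),
      circleAverage_sub iT.const_smul (log_int _), circleAverage_add iE iC, circleAverage_const,
      circleAverage_smul, smul_eq_mul, log_mahler] at key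
    linarith

/-- **the gap for values of decomposable forms** -/
theorem gap_forms {N q : ℕ} (hN : 0 < N) (hq : N < q) (L : Fin q → Fin N → ℂ)
    (hL : ∀ s : Fin N → Fin q, Function.Injective s → (Matrix.of fun i j => L (s i) j).det ≠ 0)
    (K : ℝ) : ∃ μ : ℝ, 1 < μ ∧ ∀ (n : ℕ) (A : Fin N → ℤ[X]) (d : Fin N → ℕ) (f : ℤ[X]),
    0 < n → (∀ j, A j ≠ 0) → (∀ j, (A j).natDegree ≤ n) → Function.Injective d →
    ((∀ j, d j = (A j).natDegree) ∨ (∀ j, d j = (A j).natTrailingDegree)) →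
    sep n d ≤ K →
    f.map (Int.castRingHom ℂ) = ∏ l, ∑ j, C (L l j) * (A j).map (Int.castRingHom ℂ) →
    (∀ z : ℂ, 1 < ‖z‖ → aeval z f = 0 → ∃ j, aeval z (A j) ≠ 0) →
    (f.map (Int.castRingHom ℂ)).mahlerMeasure = 1 ∨
      μ ≤ (f.map (Int.castRingHom ℂ)).mahlerMeasure := by
  have : Nonempty (Fin N) := ⟨⟨0, hN⟩⟩
  obtain ⟨C0, hC0⟩ : ∃ C0 : ℝ, C0 = (∑ j : Fin N, ((j : ℕ) : ℝ)) * log 4 + log N.factorial + cD L +
    ((q : ℝ) - N) * log (cA L) + 2 * N * (q + N) := ⟨_, rfl⟩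
  obtain ⟨μ, hμ, h⟩ := gap_multi (N / ((q : ℝ) - N) * (1 + (K + C0)) + (K + C0))
  refine ⟨min μ (exp 1), lt_min hμ (by
    have := add_one_lt_exp (one_ne_zero (α := ℝ))
    linarith), ?_⟩
  intro n A d f hn hA0 hAn hd hd' hK hf hz
  have hqN : (0:ℝ) < (q : ℝ) - N := by
    rw [sub_pos]
    exact_mod_cast hq
  have hnR : (0:ℝ) < n := by exact_mod_cast hn
  obtain ⟨hW0, hWl⟩ := wr_lower' A (fun _ => 1) d hd hd' (fun i k _ => one_dvd _) hA0
  have e1 : ∑ _i : Fin N, lM 1 = 0 := by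
    rw [lM_one, Finset.sum_const_zero]
  rw [e1, zero_add] at hWl
  have hWc : wr (fun j => (A j).map (Int.castRingHom ℂ)) ≠ 0 := by
    rw [wr_map]
    exact map_ne hW0
  have hf' : f.map (Int.castRingHom ℂ) =
      ∏ l, lf (L l) (fun j => (A j).map (Int.castRingHom ℂ)) := hf
  obtain ⟨h1, h2⟩ := smt_forms hq hN L hL (fun j => (A j).map (Int.castRingHom ℂ)) hn (by
    intro j
    rw [natDeg_map]
    exact hAn j) hWc (f.map (Int.castRingHom ℂ)) hf'
  have hfc : f.map (Int.castRingHom ℂ) ≠ 0 := by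
    rw [hf']
    exact Finset.prod_ne_zero_iff.mpr fun l _ => lf_ne hq.le hN L hL hWc l
  have hf0 : f ≠ 0 := by
    rintro rfl
    exact hfc (Polynomial.map_zero _)
  rw [wr_map] at h1 h2
  have hsep := sep_eq hn hd
  have hB : BB L (4 * n) = (∑ j : Fin N, ((j : ℕ) : ℝ)) * (log 4 + log n) + log N.factorial + cD L +
      ((q : ℝ) - N) * log (cA L) := by
    unfold BB
    rw [log_mul (by norm_num) hnR.ne']
  have hV : 2 * N * (q + N) + BB L (4 * n) -
      log ((wr A).map (Int.castRingHom ℂ)).mahlerMeasure ≤ K + C0 := by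
    rw [hB, hC0]
    unfold lM at hWl
    linarith
  have hpos := mahler_pos hf0
  rcases le_or_gt 1 (log (f.map (Int.castRingHom ℂ)).mahlerMeasure) with h7 | h7
  · right
    refine (min_le_right _ _).trans ?_
    rwa [← le_log_iff_exp_le hpos]
  have h8 : ∀ j, prox f (A j ^ q) ≤ N / ((q : ℝ) - N) * (1 + (K + C0)) + (K + C0) := by
    intro j
    have g1 := h2 j
    have g2 : circleAverage (TT fun j => (A j).map (Int.castRingHom ℂ)) 0 1 ≤
        (1 + (K + C0)) / ((q : ℝ) - N) := by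
      rw [le_div_iff₀ hqN]
      linarith
    have g3 := mul_le_mul_of_nonneg_left g2 (Nat.cast_nonneg (α := ℝ) N)
    have g4 : (N : ℝ) * ((1 + (K + C0)) / ((q : ℝ) - N)) = N / ((q : ℝ) - N) * (1 + (K + C0)) := by
      ring
    have g5 : prox f (A j ^ q) =
        circleAverage (fun x => log⁺ ‖(((A j).map (Int.castRingHom ℂ)) ^ q).eval x /
          (f.map (Int.castRingHom ℂ)).eval x‖) 0 1 := by
      unfold prox
      rw [Polynomial.map_pow]
    rw [g5]
    rw [g4] at g3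
    linarith
  have h9 : ∀ z : ℂ, 1 < ‖z‖ → aeval z f = 0 → ∃ j, aeval z (A j ^ q) ≠ 0 := by
    intro z hz1 hz2
    obtain ⟨j, hj⟩ := hz z hz1 hz2
    refine ⟨j, ?_⟩
    rw [map_pow]
    exact pow_ne_zero _ hj
  rcases h f N (fun j => A j ^ q) hf0 h8 h9 with h10 | h10
  · exact Or.inl h10
  · exact Or.inr ((min_le_left _ _).trans h10)

end Pool.Agent.Zk21.Cf
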