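import Mathlib
import Pool.Agent.Zk21.CfB

/-!
# Values of forms at powers: the second main theorem with truncated counting
-/

set_option autoImplicit false

open Polynomial Metric Real

namespace Pool.Agent.Zk21.Cg

open Pool.Agent.R328 Pool.Agent.Zk21.Smt Pool.Agent.Zk21.Un Pool.Agent.Zk21.Pt Pool.Agent.Zk21.Ca
open Pool.Agent.Zk21.Cf

variable {N : ℕ}

lemma lf_single (i : Fin N) (A : Fin N → ℂ[X]) : lf (Pi.single i 1) A = A i := by
  unfold lf
  rw [Finset.sum_eq_single i]
  · rw [Pi.single_eq_same, C_1, one_mul]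
  · intro j _ hj
    rw [Pi.single_eq_of_ne hj, C_0, zero_mul]
  · intro h
    exact absurd (Finset.mem_univ i) h

lemma lM_le_TT [Nonempty (Fin N)] {A : Fin N → ℂ[X]} (j : Fin N) :
    log (A j).mahlerMeasure ≤ circleAverage (TT A) 0 1 := by
  rw [← log_mahler]
  exact circleAverage_mono (log_int _) (TT_int A) fun x _ => le_TT A x j

/-- the second main theorem: some of the forms are coordinates -/
theorem smt_trunc {q : ℕ} (hq : N < q) (hN : 0 < N) [Nonempty (Fin N)] (L : Fin q → Fin N → ℂ)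
    (hL : ∀ s : Fin N → Fin q, Function.Injective s → (sel L s).det ≠ 0)
    (A : Fin N → ℂ[X]) {n : ℕ} (hn : 0 < n) (hA : ∀ j, (A j).natDegree ≤ n) (hW : wr A ≠ 0)
    (J : Finset (Fin q)) (ρ : Fin q → Fin N) (hJ : ∀ l ∈ J, L l = Pi.single (ρ l) 1)
    (f : ℂ[X]) (hf : f = ∏ l ∈ Jᶜ, lf (L l) A) :
    ((q : ℝ) - N) * circleAverage (TT A) 0 1 + log (wr A).mahlerMeasure ≤
      log f.mahlerMeasure + ∑ l ∈ J, log (A (ρ l)).mahlerMeasure +
        (2 * N * (q + N) + BB L (4 * n)) ∧
    ∀ j, circleAverage (fun x => log⁺ ‖(A j ^ (Jᶜ).card).eval x / f.eval x‖) 0 1 ≤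
      N * circleAverage (TT A) 0 1 - log (wr A).mahlerMeasure + (2 * N * (q + N) + BB L (4 * n)) := by
  have hnR : (0:ℝ) < n := by exact_mod_cast hn
  have hc : (0:ℝ) < 4 * n := by positivity
  have hlf0 : ∀ l, lf (L l) A ≠ 0 := fun l => lf_ne hq.le hN L hL hW l
  have hf0 : f ≠ 0 := by
    rw [hf]
    exact Finset.prod_ne_zero_iff.mpr fun l _ => hlf0 l
  have hA0 : ∀ j, A j ≠ 0 := fun j h => hW (wr_zero A h)
  have hqN : (0:ℝ) < (q : ℝ) - N := by
    rw [sub_pos]
    exact_mod_cast hq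
  have hJl : ∀ l ∈ J, lf (L l) A = A (ρ l) := fun l hl => by rw [hJ l hl, lf_single]
  have hcard : (((Jᶜ).card : ℕ) : ℝ) = (q : ℝ) - J.card := by
    have h1 := Finset.card_compl_add_card J
    rw [Fintype.card_fin] at h1
    have h2 : (((Jᶜ).card : ℕ) : ℝ) + J.card = q := by exact_mod_cast h1
    linarith
  constructor
  · obtain ⟨h1, -⟩ := smt_forms hq hN L hL A hn hA hW (∏ l, lf (L l) A) rfl
    have h2 : log (∏ l, lf (L l) A).mahlerMeasure =
        log f.mahlerMeasure + ∑ l ∈ J, log (A (ρ l)).mahlerMeasure := by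
      have h3 : ∏ l, lf (L l) A = (∏ l ∈ J, A (ρ l)) * f := by
        rw [hf, ← Finset.prod_mul_prod_compl J, Finset.prod_congr rfl hJl]
      have h4 : ∀ s : Finset (Fin q), log (∏ l ∈ s, A (ρ l)).mahlerMeasure =
          ∑ l ∈ s, log (A (ρ l)).mahlerMeasure := by
        intro s
        classical
        induction s using Finset.induction_on with
        | empty => simp
        | insert a s ha ih =>
          rw [Finset.prod_insert ha, Finset.sum_insert ha, mahlerMeasure_mul,
            log_mul (mahlerMeasure_pos_of_ne_zero (hA0 _)).ne'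
              (mahlerMeasure_pos_of_ne_zero (Finset.prod_ne_zero_iff.mpr fun l _ => hA0 _)).ne', ih]
      rw [h3, mahlerMeasure_mul,
        log_mul (mahlerMeasure_pos_of_ne_zero (Finset.prod_ne_zero_iff.mpr fun l _ => hA0 _)).ne'
          (mahlerMeasure_pos_of_ne_zero hf0).ne', h4]
      ring
    rw [h2] at h1
    linarith
  set Z : Set ℂ := ((⋃ l ∈ (Finset.univ : Finset (Fin q)), bad N (lf (L l) A)) ∪
    ⋃ j ∈ (Finset.univ : Finset (Fin N)), bad N (A j)) ∪ {x | (wr A).eval x = 0} with hZ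
  have hZc : Z.Countable :=
    ((Set.Countable.biUnion (Finset.countable_toSet _) fun l _ => bad_countable N (lf (L l) A)).union
      (Set.Countable.biUnion (Finset.countable_toSet _) fun j _ => bad_countable N (A j))).union
      (roots_countable hW)
  have hlogf : ∀ x, (∀ l, (lf (L l) A).eval x ≠ 0) →
      log ‖f.eval x‖ = ∑ l ∈ Jᶜ, log ‖(lf (L l) A).eval x‖ := by
    intro x hx
    rw [hf, eval_prod, norm_prod, log_prod fun l _ => norm_ne_zero_iff.mpr (hx l)]
  -- the two pointwise inequalities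
  have hpt : ∀ x, x ∉ Z → (∀ l, (lf (L l) A).eval x ≠ 0) ∧ (∀ j, (A j).eval x ≠ 0) ∧
      ((q : ℝ) - N - J.card) * TT A x + log ‖(wr A).eval x‖ ≤
        log ‖f.eval x‖ + (EE L A (4 * n) x + BB L (4 * n)) ∧
      log ‖(wr A).eval x‖ ≤ N * TT A x + (EE L A (4 * n) x + BB L (4 * n)) := by
    intro x hx
    simp only [hZ, Set.mem_union, Set.mem_iUnion, not_exists, not_or] at hx
    obtain ⟨⟨hx1, hx2⟩, hx3⟩ := hx
    have hx1' : ∀ l, x ∉ bad N (lf (L l) A) := fun l => hx1 l (Finset.mem_univ l)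
    have hx2' : ∀ j, x ∉ bad N (A j) := fun j => hx2 j (Finset.mem_univ j)
    have e1 : ∀ l, (lf (L l) A).eval x ≠ 0 := fun l => not_bad (l := 0) (hx1' l) (Nat.zero_le _) (hlf0 l)
    have e2 : ∀ j, (A j).eval x ≠ 0 := fun j => not_bad (l := 0) (hx2' j) (Nat.zero_le _) (hA0 j)
    have e3 : (wr A).eval x ≠ 0 := hx3
    refine ⟨e1, e2, ?_, ?_⟩
    · have h1 := point hq.le L hL hc hx1' e1 e2 e3
      have h3 : ∑ l ∈ J, log ‖(lf (L l) A).eval x‖ ≤ J.card * TT A x := by
        have h4 : ∀ l ∈ J, log ‖(lf (L l) A).eval x‖ ≤ TT A x := by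
          intro l hl
          rw [hJl l hl]
          exact le_TT A x _
        refine (Finset.sum_le_sum h4).trans (le_of_eq ?_)
        rw [Finset.sum_const, nsmul_eq_mul]
      have h5 := Finset.sum_add_sum_compl J fun l => log ‖(lf (L l) A).eval x‖
      rw [hlogf x e1, EE_apply]
      have h2 : 0 ≤ ∑ j, RG N (4 * n) (A j) x := Finset.sum_nonneg fun j _ => RG_nonneg _ _ _ _
      unfold BB
      linarith
    · have h1 := wr_log hc hx2' e2 e3
      rw [Finset.sum_add_distrib] at h1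
      have h2 : 0 ≤ ∑ l, RG N (4 * n) (lf (L l) A) x := Finset.sum_nonneg fun j _ => RG_nonneg _ _ _ _
      have h3 : ∑ j, log ‖(A j).eval x‖ ≤ N * TT A x := by
        refine (Finset.sum_le_sum fun j _ => le_TT A x j).trans (le_of_eq ?_)
        rw [Finset.sum_const, Finset.card_univ, Fintype.card_fin, nsmul_eq_mul]
      have h4 := cD_nonneg L
      have h5 : 0 ≤ ((q : ℝ) - N) * log (cA L) := mul_nonneg hqN.le (log_nonneg (cA_ge L))
      rw [EE_apply]
      unfold BB
      linarith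
  have iT := TT_int A
  have iE := EE_int L A (4 * n)
  have iC : CircleIntegrable (fun _ : ℂ => BB L (4 * n)) 0 1 := circleIntegrable_const _ _ _
  have hE := EE_avg L hn hA
  intro j
  have key : circleAverage (fun x => log⁺ ‖(A j ^ (Jᶜ).card).eval x / f.eval x‖) 0 1 ≤
      circleAverage ((((N : ℝ) • TT A) - fun x => log ‖(wr A).eval x‖) +
        (EE L A (4 * n) + fun _ => BB L (4 * n))) 0 1 := by
    apply circleAverage_mono_off (posLog_ratio_int _ _) ((iT.const_smul.sub (log_int _)).add (iE.add iC))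
      (Z := Z) hZc
    intro x _ hx
    obtain ⟨e1, e2, h1, h2⟩ := hpt x hx
    have p1 : 0 < ‖(A j ^ (Jᶜ).card).eval x‖ := by
      rw [eval_pow, norm_pos_iff]
      exact pow_ne_zero _ (e2 j)
    have p2 : 0 < ‖f.eval x‖ := by
      rw [hf, eval_prod, norm_pos_iff]
      exact Finset.prod_ne_zero_iff.mpr fun l _ => e1 l
    show _ ≤ (N : ℝ) * TT A x - log ‖(wr A).eval x‖ + (EE L A (4 * n) x + BB L (4 * n))
    rcases le_total (‖(A j ^ (Jᶜ).card).eval x‖ / ‖f.eval x‖) 1 with h | h
    · have h5 : log⁺ ‖(A j ^ (Jᶜ).card).eval x / f.eval x‖ = 0 := by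
        rw [norm_div, posLog_eq_zero_iff, abs_of_nonneg (by positivity)]
        exact h
      rw [h5]
      linarith
    · rw [norm_div, posLog_eq_log (by rwa [abs_of_nonneg (by positivity)]), log_div p1.ne' p2.ne',
        eval_pow, norm_pow, log_pow]
      have h6 := mul_le_mul_of_nonneg_left (le_TT A x j) (Nat.cast_nonneg (α := ℝ) (Jᶜ).card)
      rw [hcard] at h6 ⊢
      linarith
  rw [circleAverage_add (iT.const_smul.sub (log_int _)) (iE.add iC),
    circleAverage_sub iT.const_smul (log_int _), circleAverage_add iE iC, circleAverage_const,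
    circleAverage_smul, smul_eq_mul, log_mahler] at key
  linarith

end Pool.Agent.Zk21.Cg
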