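import Mathlib
import Pool.Agent.Zk21.CgA

/-!
# The gap for values of forms at powers
-/

set_option autoImplicit false

open Polynomial Metric Real

namespace Pool.Agent.Zk21.Cg

open Pool.Agent.R328 Pool.Agent.Zk21.Smt Pool.Agent.Zk21.Un Pool.Agent.Zk21.Pt Pool.Agent.Zk21.Ca
open Pool.Agent.Zk21.Cf

/-- **the gap for values of forms, some of which are almost powers** -/
theorem gap_trunc {N q : ℕ} (hN : 0 < N) (hq : N < q) (L : Fin q → Fin N → ℂ)
    (hL : ∀ s : Fin N → Fin q, Function.Injective s → (Matrix.of fun i j => L (s i) j).det ≠ 0)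
    (K : ℝ) : ∃ μ : ℝ, 1 < μ ∧ ∀ (J : Finset (Fin q)) (ρ : Fin q → Fin N) (n : ℕ)
    (A : Fin N → ℤ[X]) (d : Fin N → ℕ) (f : ℤ[X]) (c : Fin q → ℤ) (P : Fin q → ℤ[X])
    (s : Fin q → Finset ℕ) (u : Fin q → ℕ → ℤ[X]) (e : Fin q → ℕ → ℕ) (w : Fin q → ℝ),
    (∀ l ∈ J, L l = Pi.single (ρ l) 1) → Set.InjOn ρ J →
    0 < n → (∀ j, A j ≠ 0) → (∀ j, (A j).natDegree ≤ n) → Function.Injective d →
    ((∀ j, d j = (A j).natDegree) ∨ (∀ j, d j = (A j).natTrailingDegree)) →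
    (∀ l ∈ J, A (ρ l) = C (c l) * P l * ∏ m ∈ s l, u l m ^ e l m) →
    (∀ l ∈ J, 0 ≤ w l) → (∀ l ∈ J, ∀ m ∈ s l, ((N - 1 : ℕ) : ℝ) ≤ w l * e l m) →
    ∑ l ∈ J, w l < (q : ℝ) - N →
    f.map (Int.castRingHom ℂ) = ∏ l ∈ Jᶜ, ∑ j, C (L l j) * (A j).map (Int.castRingHom ℂ) →
    (∀ z : ℂ, 1 < ‖z‖ → aeval z f = 0 → ∃ j, aeval z (A j) ≠ 0) →
    1 + ∑ l ∈ J, lM (P l) + sep n d ≤ K * ((q : ℝ) - N - ∑ l ∈ J, w l) →
    (f.map (Int.castRingHom ℂ)).mahlerMeasure = 1 ∨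
      μ ≤ (f.map (Int.castRingHom ℂ)).mahlerMeasure := by
  have : Nonempty (Fin N) := ⟨⟨0, hN⟩⟩
  obtain ⟨C0, hC0⟩ : ∃ C0 : ℝ, C0 = (∑ j : Fin N, ((j : ℕ) : ℝ)) * log 4 + log N.factorial + cD L +
    ((q : ℝ) - N) * log (cA L) + 2 * N * (q + N) := ⟨_, rfl⟩
  have hqN : (0:ℝ) < (q : ℝ) - N := by
    rw [sub_pos]
    exact_mod_cast hq
  have hC00 : 0 ≤ C0 := by
    rw [hC0]
    have h1 : 0 ≤ log 4 := log_nonneg (by norm_num)
    have h2 : 0 ≤ log (N.factorial : ℝ) := log_nonneg (by exact_mod_cast Nat.factorial_pos N)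
    have h3 := cD_nonneg L
    have h4 : 0 ≤ ((q : ℝ) - N) * log (cA L) := mul_nonneg hqN.le (log_nonneg (cA_ge L))
    positivity
  obtain ⟨μ, hμ, h⟩ := gap_multi (N * ((1 + C0) * K) + (((q : ℝ) - N) * K + C0))
  refine ⟨min μ (exp 1), lt_min hμ (by
    have := add_one_lt_exp (one_ne_zero (α := ℝ))
    linarith), ?_⟩
  intro J ρ n A d f c P s u e w hJ hρ hn hA0 hAn hd hd' hA hw0 hw hw1 hf hz hK
  have hnR : (0:ℝ) < n := by exact_mod_cast hn
  -- the parts with multiplicities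
  obtain ⟨Y', hY'⟩ : ∃ Y' : Fin q → ℤ[X], Y' = fun l => C (c l) * ∏ m ∈ s l, u l m ^ (e l m - (N - 1)) :=
    ⟨_, rfl⟩
  have hYd : ∀ l ∈ J, ∀ k < N, Y' l ∣ th^[k] (A (ρ l)) := by
    intro l hl k hk
    rw [hY', hA l hl]
    exact thi_dvd' (s l) (c l) (P l) (u l) (e l) (by omega)
  have hY0 : ∀ l ∈ J, Y' l ≠ 0 := by
    intro l hl h0
    have h1 := hYd l hl 0 hN
    rw [h0, zero_dvd_iff] at h1
    exact hA0 _ h1
  have hYdvd : ∀ i, ∀ k < N, (∏ l ∈ J with ρ l = i, Y' l) ∣ th^[k] (A i) := by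
    intro i k hk
    by_cases hi : ∃ l ∈ J, ρ l = i
    · obtain ⟨l, hl, hli⟩ := hi
      have h1 : (J.filter fun l => ρ l = i) = {l} := by
        ext m
        rw [Finset.mem_filter, Finset.mem_singleton]
        constructor
        · rintro ⟨h2, h3⟩
          exact hρ h2 hl (h3.trans hli.symm)
        · rintro rfl
          exact ⟨hl, hli⟩
      rw [h1, Finset.prod_singleton, ← hli]
      exact hYd l hl k hk
    · have h1 : (J.filter fun l => ρ l = i) = ∅ := by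
        rw [Finset.filter_eq_empty_iff]
        intro l hl h2
        exact hi ⟨l, hl, h2⟩
      rw [h1, Finset.prod_empty]
      exact one_dvd _
  obtain ⟨hW0, hWl⟩ := wr_lower' A (fun i => ∏ l ∈ J with ρ l = i, Y' l) d hd hd' hYdvd hA0
  have e1 : ∑ i, lM (∏ l ∈ J with ρ l = i, Y' l) = ∑ l ∈ J, lM (Y' l) := by
    rw [← Finset.sum_fiberwise J ρ]
    refine Finset.sum_congr rfl fun i _ => ?_
    exact lM_prod _ _ fun l hl => hY0 l (Finset.mem_filter.mp hl).1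
  rw [e1] at hWl
  have hWc : wr (fun j => (A j).map (Int.castRingHom ℂ)) ≠ 0 := by
    rw [wr_map]
    exact map_ne hW0
  have hf' : f.map (Int.castRingHom ℂ) =
      ∏ l ∈ Jᶜ, lf (L l) (fun j => (A j).map (Int.castRingHom ℂ)) := hf
  obtain ⟨h1, h2⟩ := smt_trunc hq hN L hL (fun j => (A j).map (Int.castRingHom ℂ)) hn (by
    intro j
    rw [natDeg_map]
    exact hAn j) hWc J ρ hJ (f.map (Int.castRingHom ℂ)) hf'
  have hfc : f.map (Int.castRingHom ℂ) ≠ 0 := by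
    rw [hf']
    exact Finset.prod_ne_zero_iff.mpr fun l _ => lf_ne hq.le hN L hL hWc l
  have hf0 : f ≠ 0 := by
    rintro rfl
    exact hfc (Polynomial.map_zero _)
  rw [wr_map] at h1 h2
  have hsep := sep_eq hn hd
  have hB : BB L (4 * n) = (∑ j : Fin N, ((j : ℕ) : ℝ)) * (log 4 + log n) + log N.factorial + cD L +
      ((q : ℝ) - N) * log (cA L) := by
    unfold BB
    rw [log_mul (by norm_num) hnR.ne']
  obtain ⟨T, hT⟩ : ∃ T, T = circleAverage (TT fun j => (A j).map (Int.castRingHom ℂ)) 0 1 := ⟨_, rfl⟩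
  have hTj : ∀ j, lM (A j) ≤ T := by
    intro j
    rw [hT]
    exact lM_le_TT (A := fun j => (A j).map (Int.castRingHom ℂ)) j
  -- the truncated counting
  have h3 : ∀ l ∈ J, lM (A (ρ l)) - lM (Y' l) ≤ lM (P l) + w l * T := by
    intro l hl
    have hAl := hA l hl
    have hAl0 := hA0 (ρ l)
    have hc : c l ≠ 0 := by
      intro h
      apply hAl0
      rw [hAl, h, C_0, zero_mul, zero_mul]
    have hP : P l ≠ 0 := by
      intro h
      apply hAl0
      rw [hAl, h, mul_zero, zero_mul]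
    have hu : ∀ m ∈ s l, u l m ^ e l m ≠ 0 := by
      have h := hAl0
      rw [hAl] at h
      exact Finset.prod_ne_zero_iff.mp (right_ne_zero_of_mul h)
    have hwT : w l * lM (A (ρ l)) ≤ w l * T := mul_le_mul_of_nonneg_left (hTj _) (hw0 l hl)
    rcases Nat.lt_or_ge 1 N with h | h
    · have hu'' : ∀ m ∈ s l, u l m ≠ 0 := by
        intro m hm h0
        have h3 := hw l hl m hm
        have h5 : e l m ≠ 0 := by
          intro h6
          rw [h6, Nat.cast_zero, mul_zero] at h3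
          have h4 : (1:ℝ) ≤ ((N - 1 : ℕ) : ℝ) := by exact_mod_cast (by omega : 1 ≤ N - 1)
          linarith
        have := hu m hm
        rw [h0, zero_pow h5] at this
        exact this rfl
      have h4 := trunc hc hP (s l) (u l) hu'' (e l) (N - 1) (hw0 l hl) (hw l hl)
      rw [← hAl] at h4
      rw [hY']
      linarith
    · have hN1 : N - 1 = 0 := by omega
      have h5 : A (ρ l) = P l * Y' l := by
        rw [hAl, hY']
        simp only [hN1, Nat.sub_zero]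
        ring
      have h7 := lM_mul hP (hY0 l hl)
      rw [← h5] at h7
      have h8 : 0 ≤ w l * lM (A (ρ l)) := mul_nonneg (hw0 l hl) (lM_nonneg hAl0)
      linarith
  have h4 : ∑ l ∈ J, lM (A (ρ l)) ≤ ∑ l ∈ J, lM (Y' l) + ∑ l ∈ J, lM (P l) + (∑ l ∈ J, w l) * T := by
    have h5 := Finset.sum_le_sum h3
    rw [Finset.sum_sub_distrib, Finset.sum_add_distrib, ← Finset.sum_mul] at h5
    linarith
  have hYn : 0 ≤ ∑ l ∈ J, lM (Y' l) := Finset.sum_nonneg fun l hl => lM_nonneg (hY0 l hl)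
  have hPn : 0 ≤ ∑ l ∈ J, lM (P l) := by
    apply Finset.sum_nonneg
    intro l hl
    apply lM_nonneg
    intro h
    apply hA0 (ρ l)
    rw [hA l hl, h, mul_zero, zero_mul]
  have hsn : 0 ≤ sep n d := by
    apply sep_nonneg hd
    intro i
    rcases hd' with h5 | h5
    · rw [h5 i]
      exact hAn i
    · rw [h5 i]
      exact (natTrailingDegree_le_natDegree _).trans (hAn i)
  have hwn : 0 ≤ ∑ l ∈ J, w l := Finset.sum_nonneg hw0
  have hpos := mahler_pos hf0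
  rcases le_or_gt 1 (log (f.map (Int.castRingHom ℂ)).mahlerMeasure) with h7 | h7
  · right
    refine (min_le_right _ _).trans ?_
    rwa [← le_log_iff_exp_le hpos]
  have hV : 2 * N * (q + N) + BB L (4 * n) - lM (wr A) ≤ sep n d + C0 - ∑ l ∈ J, lM (Y' l) := by
    rw [hB, hC0]
    linarith
  have hg0 : 0 < (q : ℝ) - N - ∑ l ∈ J, w l := by linarith
  -- the characteristic function
  have hT1 : T ≤ (1 + C0) * K := by
    have g1 : ((q : ℝ) - N - ∑ l ∈ J, w l) * T ≤ 1 + ∑ l ∈ J, lM (P l) + sep n d + C0 := by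
      rw [← hT] at h1
      have g2 : ∑ l ∈ J, log ((A (ρ l)).map (Int.castRingHom ℂ)).mahlerMeasure =
          ∑ l ∈ J, lM (A (ρ l)) := rfl
      have g3 : log ((wr A).map (Int.castRingHom ℂ)).mahlerMeasure = lM (wr A) := rfl
      rw [g2, g3] at h1
      linarith
    have g2 : 1 + ∑ l ∈ J, lM (P l) + sep n d + C0 ≤
        (1 + C0) * (1 + ∑ l ∈ J, lM (P l) + sep n d) := by
      have : 0 ≤ C0 * (∑ l ∈ J, lM (P l) + sep n d) := mul_nonneg hC00 (by linarith)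
      linarith
    have g3 : (1 + C0) * (1 + ∑ l ∈ J, lM (P l) + sep n d) ≤
        (1 + C0) * (K * ((q : ℝ) - N - ∑ l ∈ J, w l)) :=
      mul_le_mul_of_nonneg_left hK (by linarith)
    have g4 : ((q : ℝ) - N - ∑ l ∈ J, w l) * T ≤
        ((q : ℝ) - N - ∑ l ∈ J, w l) * ((1 + C0) * K) := by linarith
    exact le_of_mul_le_mul_left g4 hg0
  have hK0 : 0 ≤ K := by
    by_contra hneg
    push Not at hneg
    have := mul_neg_of_neg_of_pos hneg hg0
    linarith
  have hsK : sep n d ≤ ((q : ℝ) - N) * K := by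
    have g1 : K * ((q : ℝ) - N - ∑ l ∈ J, w l) ≤ K * ((q : ℝ) - N) :=
      mul_le_mul_of_nonneg_left (by linarith) hK0
    linarith
  have h8 : ∀ j, prox f (A j ^ (Jᶜ).card) ≤
      N * ((1 + C0) * K) + (((q : ℝ) - N) * K + C0) := by
    intro j
    have g1 := h2 j
    have g3 := mul_le_mul_of_nonneg_left hT1 (Nat.cast_nonneg (α := ℝ) N)
    have g5 : prox f (A j ^ (Jᶜ).card) =
        circleAverage (fun x => log⁺ ‖(((A j).map (Int.castRingHom ℂ)) ^ (Jᶜ).card).eval x /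
          (f.map (Int.castRingHom ℂ)).eval x‖) 0 1 := by
      unfold prox
      rw [Polynomial.map_pow]
    have g6 : log ((wr A).map (Int.castRingHom ℂ)).mahlerMeasure = lM (wr A) := rfl
    rw [← hT, g6] at g1
    rw [g5]
    linarith
  have h9 : ∀ z : ℂ, 1 < ‖z‖ → aeval z f = 0 → ∃ j, aeval z (A j ^ (Jᶜ).card) ≠ 0 := by
    intro z hz1 hz2
    obtain ⟨j, hj⟩ := hz z hz1 hz2
    refine ⟨j, ?_⟩
    rw [map_pow]
    exact pow_ne_zero _ hj
  rcases h f N (fun j => A j ^ (Jᶜ).card) hf0 h8 h9 with h10 | h10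
  · exact Or.inl h10
  · exact Or.inr ((min_le_left _ _).trans h10)

end Pool.Agent.Zk21.Cg
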