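import Mathlib
import Pool.Agent.Zk21.CgB

/-!
# The gap for values of forms at powers: the final form
-/

set_option autoImplicit false

open Polynomial Metric Real

namespace Pool.Agent.Zk21.Cg

open Pool.Agent.R328 Pool.Agent.Zk21.Smt Pool.Agent.Zk21.Un Pool.Agent.Zk21.Pt Pool.Agent.Zk21.Ca
open Pool.Agent.Zk21.Cf

/-- the forms: coordinates and others -/
noncomputable def forms {N q : ℕ} (L : Fin q → Fin N → ℂ) : Fin N ⊕ Fin q → Fin N → ℂ :=
  Sum.elim (fun j => Pi.single j 1) L

theorem gap_values {N q : ℕ} (hN : 0 < N) (S : Finset (Fin N)) (hq : N < S.card + q)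
    (L : Fin q → Fin N → ℂ)
    (hL : ∀ s : Fin N → Fin N ⊕ Fin q, Function.Injective s → (∀ i j, s i = Sum.inl j → j ∈ S) →
      (Matrix.of fun i j => forms L (s i) j).det ≠ 0)
    (K : ℝ) : ∃ μ : ℝ, 1 < μ ∧ ∀ (n : ℕ) (A : Fin N → ℤ[X]) (d : Fin N → ℕ) (f : ℤ[X])
    (c : Fin N → ℤ) (P : Fin N → ℤ[X]) (t : Fin N → Finset ℕ) (u : Fin N → ℕ → ℤ[X])
    (e : Fin N → ℕ → ℕ) (w : Fin N → ℝ),
    0 < n → (∀ j, A j ≠ 0) → (∀ j, (A j).natDegree ≤ n) → Function.Injective d →
    ((∀ j, d j = (A j).natDegree) ∨ (∀ j, d j = (A j).natTrailingDegree)) →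
    (∀ i ∈ S, A i = C (c i) * P i * ∏ m ∈ t i, u i m ^ e i m) →
    (∀ i ∈ S, 0 ≤ w i) → (∀ i ∈ S, ∀ m ∈ t i, ((N - 1 : ℕ) : ℝ) ≤ w i * e i m) →
    ∑ i ∈ S, w i < (S.card : ℝ) + q - N →
    f.map (Int.castRingHom ℂ) = ∏ l, ∑ j, C (L l j) * (A j).map (Int.castRingHom ℂ) →
    (∀ z : ℂ, 1 < ‖z‖ → aeval z f = 0 → ∃ j, aeval z (A j) ≠ 0) →
    1 + ∑ i ∈ S, lM (P i) + sep n d ≤ K * ((S.card : ℝ) + q - N - ∑ i ∈ S, w i) →
    (f.map (Int.castRingHom ℂ)).mahlerMeasure = 1 ∨
      μ ≤ (f.map (Int.castRingHom ℂ)).mahlerMeasure := by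
  classical
  set τ : Fin (S.card + q) → Fin N ⊕ Fin q :=
    Fin.addCases (fun i => Sum.inl (S.orderEmbOfFin rfl i)) Sum.inr with hτ
  have τ1 : ∀ i, τ (Fin.castAdd q i) = Sum.inl (S.orderEmbOfFin rfl i) := fun i => by
    rw [hτ]
    exact Fin.addCases_left i
  have τ2 : ∀ i, τ (Fin.natAdd S.card i) = Sum.inr i := fun i => by
    rw [hτ]
    exact Fin.addCases_right i
  have τinj : Function.Injective τ := by
    intro a b
    induction a using Fin.addCases with
    | left i =>
      induction b using Fin.addCases with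
      | left j =>
        rw [τ1, τ1]
        intro h
        rw [(S.orderEmbOfFin rfl).injective (Sum.inl.inj h)]
      | right j =>
        rw [τ1, τ2]
        intro h
        exact absurd h (by simp)
    | right i =>
      induction b using Fin.addCases with
      | left j =>
        rw [τ1, τ2]
        intro h
        exact absurd h (by simp)
      | right j =>
        rw [τ2, τ2]
        intro h
        rw [Sum.inr.inj h]
  have τS : ∀ l j, τ l = Sum.inl j → j ∈ S := by
    intro l j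
    induction l using Fin.addCases with
    | left i =>
      rw [τ1]
      intro h
      rw [← Sum.inl.inj h]
      exact S.orderEmbOfFin_mem rfl i
    | right i =>
      rw [τ2]
      intro h
      exact absurd h (by simp)
  set L' : Fin (S.card + q) → Fin N → ℂ := fun l => forms L (τ l) with hL'
  set ρ : Fin (S.card + q) → Fin N := fun l => Sum.elim id (fun _ => ⟨0, hN⟩) (τ l) with hρ
  set J : Finset (Fin (S.card + q)) := Finset.univ.image (Fin.castAdd q) with hJ
  have memJ : ∀ l, l ∈ J ↔ ∃ i : Fin S.card, Fin.castAdd q i = l := by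
    intro l
    rw [hJ, Finset.mem_image]
    simp
  have ρ1 : ∀ i, ρ (Fin.castAdd q i) = S.orderEmbOfFin rfl i := fun i => by
    rw [hρ]
    simp only [τ1, Sum.elim_inl, id_eq]
  have ρJ : Set.InjOn ρ J := by
    intro a ha b hb hab
    obtain ⟨i, rfl⟩ := (memJ a).mp ha
    obtain ⟨j, rfl⟩ := (memJ b).mp hb
    rw [ρ1, ρ1] at hab
    rw [(S.orderEmbOfFin rfl).injective hab]
  have hρS : J.image ρ = S := by
    ext j
    rw [Finset.mem_image]
    constructor
    · rintro ⟨l, hl, rfl⟩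
      obtain ⟨i, rfl⟩ := (memJ l).mp hl
      rw [ρ1]
      exact S.orderEmbOfFin_mem rfl i
    · intro hj
      have h1 : j ∈ Set.range (S.orderEmbOfFin rfl) := by
        rw [Finset.range_orderEmbOfFin]
        exact hj
      obtain ⟨i, hi⟩ := h1
      exact ⟨Fin.castAdd q i, (memJ _).mpr ⟨i, rfl⟩, by rw [ρ1, hi]⟩
  have hsum : ∀ φ : Fin N → ℝ, ∑ l ∈ J, φ (ρ l) = ∑ i ∈ S, φ i := by
    intro φ
    have h1 := Finset.sum_image (f := φ) ρJ
    rw [hρS] at h1
    exact h1.symm
  have hρmem : ∀ l ∈ J, ρ l ∈ S := by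
    intro l hl
    rw [← hρS]
    exact Finset.mem_image_of_mem ρ hl
  have hLJ : ∀ l ∈ J, L' l = Pi.single (ρ l) 1 := by
    intro l hl
    obtain ⟨i, rfl⟩ := (memJ l).mp hl
    rw [hL', ρ1]
    simp only [τ1]
    rfl
  have hJc : ∀ φ : Fin (S.card + q) → ℂ[X], ∏ l ∈ Jᶜ, φ l = ∏ l, φ (Fin.natAdd S.card l) := by
    intro φ
    have h1 : Jᶜ = Finset.univ.image (Fin.natAdd S.card : Fin q → Fin (S.card + q)) := by
      ext l
      rw [Finset.mem_compl, memJ, Finset.mem_image]
      induction l using Fin.addCases with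
      | left i =>
        constructor
        · intro h
          exact absurd ⟨i, rfl⟩ h
        · rintro ⟨j, -, hj⟩
          have := congrArg Fin.val hj
          rw [Fin.val_natAdd, Fin.val_castAdd] at this
          have := i.2
          omega
      | right i =>
        constructor
        · intro _
          exact ⟨i, Finset.mem_univ _, rfl⟩
        · rintro _ ⟨j, hj⟩
          have := congrArg Fin.val hj
          rw [Fin.val_natAdd, Fin.val_castAdd] at this
          have := j.2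
          omega
    rw [h1, Finset.prod_image fun a _ b _ h => Fin.natAdd_injective _ _ h]
  have hcast : ((S.card + q : ℕ) : ℝ) = (S.card : ℝ) + q := by push_cast; ring
  obtain ⟨μ, hμ, h⟩ := gap_trunc hN hq L' (by
    intro s hs
    refine hL (fun i => τ (s i)) (τinj.comp hs) ?_
    intro i j hij
    exact τS _ _ hij) K
  refine ⟨μ, hμ, ?_⟩
  intro n A d f c P t u e w hn hA0 hAn hd hd' hA hw0 hw hw1 hf hz hK
  refine h J ρ n A d f (fun l => c (ρ l)) (fun l => P (ρ l)) (fun l => t (ρ l)) (fun l => u (ρ l))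
    (fun l => e (ρ l)) (fun l => w (ρ l)) hLJ ρJ hn hA0 hAn hd hd' (fun l hl => hA _ (hρmem l hl))
    (fun l hl => hw0 _ (hρmem l hl)) (fun l hl => hw _ (hρmem l hl)) ?_ ?_ hz ?_
  · rw [hsum, hcast]
    exact hw1
  · rw [hf, hJc]
    refine Finset.prod_congr rfl fun l _ => ?_
    rw [hL']
    simp only [τ2]
    rfl
  · rw [hsum, hsum fun i => lM (P i), hcast]
    exact hK

end Pool.Agent.Zk21.Cg
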