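import Mathlib
import Pool.Agent.Zk21.ChA

/-!
# The gap for divisors of values of forms: truncated counting compared with the height
-/

set_option autoImplicit false

open Polynomial Metric Real

namespace Pool.Agent.Zk21.Ch

open Pool.Agent.R328 Pool.Agent.Zk21.Smt Pool.Agent.Zk21.Un Pool.Agent.Zk21.Pt Pool.Agent.Zk21.Ca
open Pool.Agent.Zk21.Cf Pool.Agent.Zk21.Cg

/-- the proximity for a divisor -/
lemma prox_cof {f R g : ℤ[X]} (F : ℤ[X]) (hg : g = f * R) (hg0 : g ≠ 0) :
    prox f F ≤ mp (R.map (Int.castRingHom ℂ)) + prox g F := by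
  have hf : f ≠ 0 := by
    rintro rfl
    exact hg0 (by rw [hg, zero_mul])
  have hR : R ≠ 0 := by
    rintro rfl
    exact hg0 (by rw [hg, mul_zero])
  unfold prox mp
  rw [← circleAverage_add (posLog_int _) (posLog_ratio_int _ _)]
  apply circleAverage_mono_off (posLog_ratio_int _ _) ((posLog_int _).add (posLog_ratio_int _ _))
    ((roots_countable (map_ne hR)).union (roots_countable (map_ne hf)))
  intro x _ hxZ
  simp only [Set.mem_union, not_or] at hxZ
  obtain ⟨hx1, hx2⟩ := hxZ
  have hx1' : (R.map (Int.castRingHom ℂ)).eval x ≠ 0 := hx1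
  have hx2' : (f.map (Int.castRingHom ℂ)).eval x ≠ 0 := hx2
  simp only [Pi.add_apply]
  have h1 : (F.map (Int.castRingHom ℂ)).eval x / (f.map (Int.castRingHom ℂ)).eval x =
      (R.map (Int.castRingHom ℂ)).eval x *
        ((F.map (Int.castRingHom ℂ)).eval x / (g.map (Int.castRingHom ℂ)).eval x) := by
    rw [hg, Polynomial.map_mul, eval_mul]
    field_simp
  rw [h1, norm_mul]
  exact posLog_mul

/-- the Wronskian of another basis -/
lemma wr_basis {N : ℕ} (A B : Fin N → ℤ[X]) (U : Matrix (Fin N) (Fin N) ℤ)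
    (hU : U.det = 1 ∨ U.det = -1) (hB : ∀ i, B i = ∑ j, C (U i j) * A j) (hW : wr B ≠ 0) :
    wr A ≠ 0 ∧ lM (wr B) = lM (wr A) := by
  have h1 := wr_lf (N := N) (q := N) (fun i j => ((U i j : ℤ) : ℂ)) id
    (fun j => (A j).map (Int.castRingHom ℂ))
  have h2 : (fun i : Fin N => lf (fun j => ((U (id i) j : ℤ) : ℂ))
      (fun j => (A j).map (Int.castRingHom ℂ))) = fun i => (B i).map (Int.castRingHom ℂ) := by
    funext i
    rw [hB i]
    unfold lf
    rw [Polynomial.map_sum]
    refine Finset.sum_congr rfl fun j _ => ?_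
    rw [Polynomial.map_mul, Polynomial.map_C]
    rfl
  have h3 : (sel (N := N) (q := N) (fun i j => ((U i j : ℤ) : ℂ)) id).det = ((U.det : ℤ) : ℂ) := by
    have h4 := (Int.castRingHom ℂ).map_det U
    rw [eq_intCast] at h4
    rw [h4]
    rfl
  rw [h2, h3, wr_map, wr_map] at h1
  refine ⟨?_, ?_⟩
  · intro h0
    rw [h0, Polynomial.map_zero, mul_zero] at h1
    exact map_ne hW h1
  unfold lM
  rw [h1, mahlerMeasure_mul, mahlerMeasure_const]
  have h5 : ‖((U.det : ℤ) : ℂ)‖ = 1 := by
    rcases hU with h | h <;> rw [h] <;> simp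
  rw [h5, one_mul]

end Pool.Agent.Zk21.Ch
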