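import Mathlib
import Pool.Agent.Zk21.CaD

/-!
# Sparse perturbations of products of powers
-/

set_option autoImplicit false

open Polynomial Metric Real

namespace Pool.Agent.Zk21.Pu

open Pool.Agent.R328 Pool.Agent.Zk21.Smt Pool.Agent.Zk21.Un Pool.Agent.Zk21.Pt Pool.Agent.Zk21.Ca

section ring

variable {R : Type*} [CommRing R]

/-- `Y` divides the first derivatives -/
def DD (n : ℕ) (Y w : R[X]) : Prop := ∀ j ≤ n, Y ∣ th^[j] w

lemma DD.th {n : ℕ} {Y w : R[X]} (h : DD (n + 1) Y w) : DD n Y (th w) := by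
  intro j hj
  have := h (j + 1) (by omega)
  rwa [Function.iterate_succ, Function.comp_apply] at this

lemma DD.mono {n m : ℕ} {Y w : R[X]} (h : DD n Y w) (hm : m ≤ n) : DD m Y w :=
  fun j hj => h j (by omega)

lemma thi_add (P Q : R[X]) (k : ℕ) : th^[k] (P + Q) = th^[k] P + th^[k] Q := by
  induction k with
  | zero => rfl
  | succ k ih => rw [Function.iterate_succ_apply', ih, th_add, Function.iterate_succ_apply',
      Function.iterate_succ_apply']

lemma DD.add {n : ℕ} {Y w v : R[X]} (h : DD n Y w) (h' : DD n Y v) : DD n Y (w + v) := by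
  intro j hj
  rw [thi_add]
  exact dvd_add (h j hj) (h' j hj)

lemma DD.mul {n : ℕ} : ∀ {Y w : R[X]} (A : R[X]), DD n Y w → DD n Y (A * w) := by
  induction n with
  | zero =>
    intro Y w A h j hj
    have hj0 : j = 0 := by omega
    subst hj0
    exact (h 0 le_rfl).mul_left A
  | succ n ih =>
    intro Y w A h j hj
    rcases Nat.eq_zero_or_pos j with hj0 | hj0
    · subst hj0
      exact (h 0 (Nat.zero_le _)).mul_left A
    · obtain ⟨i, rfl⟩ : ∃ i, j = i + 1 := ⟨j - 1, by omega⟩
      rw [Function.iterate_succ, Function.comp_apply, th_mul]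
      exact ((ih (Ca.th A) (h.mono (Nat.le_succ n))).add (ih A h.th)) i (by omega)

lemma DD.sub {n : ℕ} {Y w v : R[X]} (h : DD n Y w) (h' : DD n Y v) : DD n Y (w - v) := by
  have := h.add (DD.mul (-1) h')
  have e : w + -1 * v = w - v := by ring
  rwa [e] at this

end ring

lemma stp_DD {n : ℕ} {Y B w : ℂ[X]} {k e : ℕ} (h : DD (n + 1) Y w) : DD n Y (stp B k e w) := by
  unfold stp
  have e1 : X * derivative w = Ca.th w := rfl
  rw [e1]
  exact (DD.mul B h.th).sub (DD.mul _ (h.mono (Nat.le_succ n)))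

lemma itr_DD {Y B : ℂ[X]} (l : List ℕ) : ∀ {n : ℕ} (k : ℕ) {w : ℂ[X]}, DD (n + l.length) Y w →
    DD n Y (itr B l k w) := by
  induction l with
  | nil => intro n k w h; exact h
  | cons e l ih =>
    intro n k w h
    show DD n Y (itr B l (k + 1) (stp B k e w))
    apply ih
    apply stp_DD
    rw [List.length_cons] at h
    exact h.mono (by omega)

/-- **the height of the pair** -/
theorem pert_complex' {P Q B s Y Z : ℂ[X]} {d : ℕ} (hPd : P.natDegree = d) (hQ : Q = P + B * s)
    (hB : B ≠ 0) (hs : s ≠ 0) (hl : ∀ e ∈ s.support, B.natDegree + e < d)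
    (hY : DD s.support.card Y Q) (hYZ : Q = Y * Z) (hZ : 1 ≤ ‖Z.leadingCoeff‖) :
    circleAverage (fun x => log⁺ ‖Q.eval x / P.eval x‖) 0 1 ≤
      (log Q.mahlerMeasure - log Y.mahlerMeasure) +
      s.support.card * (log B.mahlerMeasure - log ‖B.leadingCoeff‖) +
      ∑ e ∈ s.support, log (((d : ℝ) + s.support.card * B.natDegree) / ((d : ℝ) - B.natDegree - e)) +
      6 * s.support.card := by
  set m := s.support.card with hm
  set b := B.natDegree with hb
  set l := s.support.toList with hldef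
  have hlen : l.length = m := by rw [hldef, Finset.length_toList]
  have hl' : ∀ e ∈ l, b + e < d := fun e he => hl e (by rwa [hldef, Finset.mem_toList] at he)
  have hd0 : 0 < d := by
    obtain ⟨e, he⟩ := Finset.nonempty_of_ne_empty (support_nonempty.mpr hs).ne_empty
    have := hl e he
    omega
  have hP : P ≠ 0 := by
    rintro rfl
    rw [natDegree_zero] at hPd
    omega
  have hBs : (B * s).degree < P.degree := by
    have hBs0 : B * s ≠ 0 := mul_ne_zero hB hs
    rw [degree_eq_natDegree hBs0, degree_eq_natDegree hP, natDegree_mul hB hs, hPd]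
    have := hl s.natDegree (natDegree_mem_support_of_nonzero hs)
    exact_mod_cast this
  have hQdeg : Q.natDegree = d := by
    rw [hQ, ← hPd]
    exact natDegree_add_eq_left_of_degree_lt hBs
  have hQlc : Q.leadingCoeff = P.leadingCoeff := by
    rw [hQ]
    exact leadingCoeff_add_of_degree_lt' hBs
  have hQ0 : Q ≠ 0 := by
    rintro rfl
    rw [natDegree_zero] at hQdeg
    omega
  have hY0 : Y ≠ 0 := by
    rintro rfl
    rw [zero_mul] at hYZ
    exact hQ0 hYZ
  have hW : itr B l (0 + 1) Q = itr B l (0 + 1) P := by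
    have h1 := itr_sub B l (0 + 1) Q P
    have h2 : Q - P = B ^ (0 + 1) * s := by rw [hQ]; ring
    rw [h2, itr_pow, thts_zero (fun j hj => by rw [hldef, Finset.mem_toList]; exact hj), mul_zero] at h1
    exact (sub_eq_zero.mp h1.symm)
  set W := itr B l (0 + 1) P with hWdef
  obtain ⟨hW0, hWl⟩ := itr_lead hB l 0 P hP (by rw [hPd]; ring) hl'
  rw [← hWdef] at hW0 hWl
  -- the common factor
  have hYW : Y ∣ W := by
    rw [← hW]
    have := itr_DD (B := B) l (n := 0) (0 + 1) (w := Q) (Y := Y) (by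
      rw [hlen, Nat.zero_add]
      exact hY)
    exact this 0 le_rfl
  obtain ⟨V, hV⟩ := hYW
  have hV0 : V ≠ 0 := by
    rintro rfl
    rw [mul_zero] at hV
    exact hW0 hV
  have hWle : log Y.mahlerMeasure + log ‖W.leadingCoeff‖ - log ‖P.leadingCoeff‖ ≤
      log W.mahlerMeasure := by
    have e1 : log W.mahlerMeasure = log Y.mahlerMeasure + log V.mahlerMeasure := by
      rw [hV, mahlerMeasure_mul, log_mul (mahlerMeasure_pos_of_ne_zero hY0).ne'
        (mahlerMeasure_pos_of_ne_zero hV0).ne']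
    have e2 : log ‖W.leadingCoeff‖ = log ‖Y.leadingCoeff‖ + log ‖V.leadingCoeff‖ := by
      rw [hV, leadingCoeff_mul, norm_mul, log_mul (norm_ne_zero_iff.mpr (leadingCoeff_ne_zero.mpr hY0))
        (norm_ne_zero_iff.mpr (leadingCoeff_ne_zero.mpr hV0))]
    have hZ0 : Z ≠ 0 := by
      rintro rfl
      rw [leadingCoeff_zero, norm_zero] at hZ
      linarith
    have e3 : log ‖P.leadingCoeff‖ = log ‖Y.leadingCoeff‖ + log ‖Z.leadingCoeff‖ := by
      rw [← hQlc, hYZ, leadingCoeff_mul, norm_mul,
        log_mul (norm_ne_zero_iff.mpr (leadingCoeff_ne_zero.mpr hY0))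
        (norm_ne_zero_iff.mpr (leadingCoeff_ne_zero.mpr hZ0))]
    have e4 := log_lead_le hV0
    have e5 := log_nonneg hZ
    linarith
  set D : ℝ := 2 * ((d : ℝ) + m * b) with hD
  have hdR : (0:ℝ) < d := by exact_mod_cast hd0
  have hD0 : 0 < D := by positivity
  obtain ⟨R1, hR1, hR1n, hR1a, Z1, hZ1, hZ1b⟩ := itr_log hB (Λ := 64) (by norm_num) hD0 m le_rfl l 0 P hP
    (by rw [hPd]; ring) hl' (by omega)
  obtain ⟨R2, hR2, hR2n, hR2a, Z2, hZ2, hZ2b⟩ := itr_log hB (Λ := 64) (by norm_num) hD0 m le_rfl l 0 Q hQ0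
    (by rw [hQdeg]; ring) hl' (by omega)
  rw [hW] at hZ2b
  rw [← hWdef] at hZ1b
  have key : circleAverage (fun x => log⁺ ‖Q.eval x / P.eval x‖) 0 1 ≤
      circleAverage ((fun x => log ‖Q.eval x‖) - (fun x => log ‖W.eval x‖) +
        ((m : ℝ) • ((fun x => log ‖B.eval x‖) + fun _ => log (64 * D)) + (R1 + R2))) 0 1 := by
    apply circleAverage_mono_off (posLog_ratio_int _ _)
      (((log_int Q).sub (log_int W)).add
        ((((log_int B).add (circleIntegrable_const _ _ _)).const_smul).add (hR1.add hR2)))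
      (((hZ1.union hZ2).union (roots_countable hP)).union (roots_countable hQ0))
    intro x _ hx2
    simp only [Set.mem_union, not_or] at hx2
    obtain ⟨⟨⟨hx1, hx2⟩, hx3⟩, hx4⟩ := hx2
    have g1 := hZ1b x hx1
    have g2 := hZ2b x hx2
    have g3 := hR1n x
    have g4 := hR2n x
    rw [hlen] at g1 g2
    simp only [Pi.add_apply, Pi.sub_apply, Pi.smul_apply, smul_eq_mul]
    have hx3' : P.eval x ≠ 0 := hx3
    have hx4' : Q.eval x ≠ 0 := hx4
    rw [norm_div]
    rcases le_total (‖Q.eval x‖ / ‖P.eval x‖) 1 with h | h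
    · have h5 : log⁺ (‖Q.eval x‖ / ‖P.eval x‖) = 0 := by
        rw [posLog_eq_zero_iff, abs_of_nonneg (by positivity)]
        exact h
      rw [h5]
      linarith
    · rw [posLog_eq_log (by rwa [abs_of_nonneg (by positivity)]),
        log_div (norm_ne_zero_iff.mpr hx4') (norm_ne_zero_iff.mpr hx3')]
      linarith
  refine key.trans ?_
  rw [circleAverage_add ((log_int Q).sub (log_int W))
      ((((log_int B).add (circleIntegrable_const _ _ _)).const_smul).add (hR1.add hR2)),
    circleAverage_sub (log_int Q) (log_int W),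
    circleAverage_add (((log_int B).add (circleIntegrable_const _ _ _)).const_smul) (hR1.add hR2),
    circleAverage_smul, circleAverage_add (log_int B) (circleIntegrable_const _ _ _),
    circleAverage_const, circleAverage_add hR1 hR2, log_mahler, log_mahler, log_mahler, smul_eq_mul]
  rw [hlen] at hR1a hR2a hWl
  have hsum : (l.map (fun e : ℕ => log ((d : ℝ) - b - e))).sum = ∑ e ∈ s.support, log ((d : ℝ) - b - e) := by
    rw [hldef, Finset.sum_map_toList]
  rw [hsum] at hWl
  have hsum2 : ∑ e ∈ s.support, log (((d : ℝ) + m * b) / ((d : ℝ) - b - e)) =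
      m * log ((d : ℝ) + m * b) - ∑ e ∈ s.support, log ((d : ℝ) - b - e) := by
    have h1 : ∀ e ∈ s.support, log (((d : ℝ) + m * b) / ((d : ℝ) - b - e)) =
        log ((d : ℝ) + m * b) - log ((d : ℝ) - b - e) := by
      intro e he
      have h2 : ((b + e : ℕ) : ℝ) < d := by exact_mod_cast hl e he
      push_cast at h2
      rw [log_div (by positivity) (by linarith)]
    rw [Finset.sum_congr rfl h1, Finset.sum_sub_distrib, Finset.sum_const, nsmul_eq_mul, ← hm]
  rw [hsum2]
  have h64 : log (64 * D) = 7 * log 2 + log ((d : ℝ) + m * b) := by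
    rw [hD, ← mul_assoc, log_mul (by norm_num) (by positivity)]
    congr 1
    have : (64 * 2 : ℝ) = 2 ^ 7 := by norm_num
    rw [this, log_pow]
    norm_num
  rw [h64]
  have hl2 : log 2 < 0.6931471808 := log_two_lt_d9
  have hm0 : (0:ℝ) ≤ m := Nat.cast_nonneg _
  nlinarith

end Pool.Agent.Zk21.Pu
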