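import Mathlib
import Pool.Agent.Zk21.PuA

/-!
# Integer polynomials: sparse perturbations of products of powers
-/

set_option autoImplicit false

open Polynomial Metric Real

namespace Pool.Agent.Zk21.Pu

open Pool.Agent.R328 Pool.Agent.Zk21.Smt Pool.Agent.Zk21.Un Pool.Agent.Zk21.Pt Pool.Agent.Zk21.Ca

lemma DD_map {n : ℕ} {Y F : ℤ[X]} (h : DD n Y F) :
    DD n (Y.map (Int.castRingHom ℂ)) (F.map (Int.castRingHom ℂ)) := by
  intro j hj
  rw [thi_map]
  exact Polynomial.map_dvd _ (h j hj)

/-- unchanged leading coefficient -/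
theorem pert_top' {f B s Y : ℤ[X]} (hB : B ≠ 0) (hs : s ≠ 0)
    (hl : B.natDegree + s.natDegree < f.natDegree) (hF : f + B * s ≠ 0)
    (hY : DD s.support.card Y (f + B * s)) :
    prox f (f + B * s) ≤ (lM (f + B * s) - lM Y) + s.support.card * (6 + lM B) +
      ∑ e ∈ s.support, log (((f.natDegree : ℝ) + s.support.card * B.natDegree) /
        ((f.natDegree : ℝ) - B.natDegree - e)) := by
  have hf : f ≠ 0 := by
    rintro rfl
    rw [natDegree_zero] at hl
    omega
  obtain ⟨Z, hZ⟩ := hY 0 (Nat.zero_le _)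
  rw [Function.iterate_zero, id_eq] at hZ
  have hZ0 : Z ≠ 0 := by
    rintro rfl
    rw [mul_zero] at hZ
    exact hF hZ
  have h1 := pert_complex' (P := f.map (Int.castRingHom ℂ)) (Q := (f + B * s).map (Int.castRingHom ℂ))
    (B := B.map (Int.castRingHom ℂ)) (s := s.map (Int.castRingHom ℂ))
    (Y := Y.map (Int.castRingHom ℂ)) (Z := Z.map (Int.castRingHom ℂ)) (d := f.natDegree)
    (natDeg_map f) (by rw [Polynomial.map_add, Polynomial.map_mul]) (map_ne hB) (map_ne hs) (by
      intro e he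
      rw [supp_map] at he
      rw [natDeg_map]
      have := le_natDegree_of_mem_supp e he
      omega) (by rw [supp_map]; exact DD_map hY) (by rw [hZ, Polynomial.map_mul]) (by
      rw [lc_map]
      exact_mod_cast Int.one_le_abs (leadingCoeff_ne_zero.mpr hZ0))
  rw [supp_map, natDeg_map] at h1
  have h3 := log_lc hB
  have h4 : (0:ℝ) ≤ (s.support.card : ℝ) := Nat.cast_nonneg _
  unfold prox lM
  nlinarith

lemma th_reflect {F : ℤ[X]} {D : ℕ} (hF : F.natDegree ≤ D) :
    Ca.th (reflect D F) = C (D : ℤ) * reflect D F - reflect D (Ca.th F) := by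
  ext j
  rw [th_coeff, coeff_sub, coeff_C_mul, coeff_reflect, coeff_reflect, th_coeff]
  rcases Nat.lt_or_ge D j with h | h
  · rw [revAt_eq_self_of_lt h, coeff_eq_zero_of_natDegree_lt (by omega)]
    ring
  · rw [revAt_le h, Nat.cast_sub h]
    push_cast
    ring

lemma reflect_dvd {Y G : ℤ[X]} {D : ℕ} (hG : G.natDegree ≤ D) (h : Y ∣ G) :
    reflect Y.natDegree Y ∣ reflect D G := by
  by_cases hG0 : G = 0
  · rw [hG0, reflect_zero]
    exact dvd_zero _
  obtain ⟨Q, hQ⟩ := h
  have hY0 : Y ≠ 0 := by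
    rintro rfl
    rw [zero_mul] at hQ
    exact hG0 hQ
  have hQ0 : Q ≠ 0 := by
    rintro rfl
    rw [mul_zero] at hQ
    exact hG0 hQ
  have h1 : G.natDegree = Y.natDegree + Q.natDegree := by rw [hQ, natDegree_mul hY0 hQ0]
  have h2 : Y.natDegree + (D - Y.natDegree) = D := by omega
  have h3 := reflect_mul Y Q (le_refl Y.natDegree) (show Q.natDegree ≤ D - Y.natDegree by omega)
  rw [h2, ← hQ] at h3
  rw [h3]
  exact dvd_mul_right _ _

lemma DD_reflect {Y : ℤ[X]} {D : ℕ} : ∀ {n : ℕ} {F : ℤ[X]}, F.natDegree ≤ D → DD n Y F →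
    DD n (reflect Y.natDegree Y) (reflect D F) := by
  intro n
  induction n with
  | zero =>
    intro F hF h j hj
    have hj0 : j = 0 := by omega
    subst hj0
    exact reflect_dvd hF (h 0 le_rfl)
  | succ n ih =>
    intro F hF h j hj
    rcases Nat.eq_zero_or_pos j with hj0 | hj0
    · subst hj0
      exact reflect_dvd hF (h 0 (Nat.zero_le _))
    · obtain ⟨i, rfl⟩ : ∃ i, j = i + 1 := ⟨j - 1, by omega⟩
      rw [Function.iterate_succ, Function.comp_apply, th_reflect hF]
      exact ((DD.mul _ (ih hF (h.mono (Nat.le_succ n)))).sub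
        (ih ((th_deg F).trans hF) h.th)) i (by omega)

/-- unchanged constant term -/
theorem pert_bot' {f B s Y : ℤ[X]} {D : ℕ} (hs : s ≠ 0)
    (hD : f.natDegree ≤ D) (hD' : B.natDegree + s.natDegree ≤ D) (hf0 : f.coeff 0 ≠ 0)
    (hB0 : B.coeff 0 ≠ 0) (hs0 : s.coeff 0 = 0) (hF0 : f + B * s ≠ 0)
    (hY : DD s.support.card Y (f + B * s)) :
    prox f (f + B * s) ≤ (lM (f + B * s) - lM Y) + s.support.card * (6 + lM B) +
      ∑ e ∈ s.support, log (((D : ℝ) + s.support.card * B.natDegree) / e) := by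
  have hB : B ≠ 0 := by
    rintro rfl
    simp at hB0
  set b := B.natDegree with hb
  have hsD : s.natDegree ≤ D - b := by omega
  have hDb : b + (D - b) = D := by omega
  set f' := reflect D f with hf'
  set B' := reflect b B with hB'
  set s' := reflect (D - b) s with hs'
  have hBs : (B * s).natDegree ≤ D := natDegree_mul_le.trans hD'
  have hF : (f + B * s).natDegree ≤ D := (natDegree_add_le _ _).trans (max_le hD hBs)
  have e1 : reflect D (f + B * s) = f' + B' * s' := by
    rw [reflect_add, hf', hB', hs', ← reflect_mul B s le_rfl hsD, hDb]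
  have hf'd : f'.natDegree = D := natDegree_reflect' hD hf0
  have hB'd : B'.natDegree = b := natDegree_reflect' le_rfl hB0
  have hB'0 : B' ≠ 0 := by
    rw [hB', Ne, reflect_eq_zero_iff]
    exact hB
  have hs'0 : s' ≠ 0 := by
    rw [hs', Ne, reflect_eq_zero_iff]
    exact hs
  have hinj : Set.InjOn (revAt (D - b)) s.support := by
    intro i hi j hj hij
    exact (revAt (D - b)).injective hij
  have hsupp : s'.support = s.support.image (revAt (D - b)) := reflect_support _ _
  have hcard : s'.support.card = s.support.card := by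
    rw [hsupp, Finset.card_image_of_injOn hinj]
  have hpos : ∀ e ∈ s.support, 0 < e ∧ e ≤ D - b := by
    intro e he
    refine ⟨Nat.pos_of_ne_zero ?_, (le_natDegree_of_mem_supp e he).trans hsD⟩
    rintro rfl
    exact (mem_support_iff.mp he) hs0
  have hdeg : B'.natDegree + s'.natDegree < f'.natDegree := by
    have h1 := natDegree_mem_support_of_nonzero hs'0
    rw [hsupp, Finset.mem_image] at h1
    obtain ⟨e, he, he2⟩ := h1
    obtain ⟨h2, h3⟩ := hpos e he
    rw [revAt_le h3] at he2
    rw [hf'd, hB'd, ← he2]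
    omega
  have h1 := pert_top' (Y := reflect Y.natDegree Y) hB'0 hs'0 hdeg (by
      rw [← e1, Ne, reflect_eq_zero_iff]
      exact hF0) (by
      rw [← e1, hcard]
      exact DD_reflect hF hY)
  rw [← e1, hf', prox_reflect hD hF, lM_reflect hF, lM_reflect (le_refl Y.natDegree), ← hf', hB',
    lM_reflect le_rfl, ← hB', hcard, hf'd, hB'd, hsupp, Finset.sum_image hinj] at h1
  refine h1.trans (le_of_eq ?_)
  congr 1
  apply Finset.sum_congr rfl
  intro e he
  obtain ⟨h2, h3⟩ := hpos e he
  rw [revAt_le h3]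
  congr 2
  have : ((D - b - e : ℕ) : ℝ) = (D : ℝ) - b - e := by
    rw [Nat.cast_sub h3, Nat.cast_sub (by omega)]
  rw [this]
  ring

/-- the two kinds of perturbations -/
def Kind (f B s : ℤ[X]) (η : ℝ) : Prop :=
  (B ≠ 0 ∧ B.natDegree + s.natDegree < f.natDegree ∧
    η = ∑ e ∈ s.support, log (((f.natDegree : ℝ) + s.support.card * B.natDegree) /
      ((f.natDegree : ℝ) - B.natDegree - e))) ∨
  (B.coeff 0 ≠ 0 ∧ s.coeff 0 = 0 ∧ f.coeff 0 ≠ 0 ∧
    η = ∑ e ∈ s.support, log (((max f.natDegree (B.natDegree + s.natDegree) : ℕ) +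
      s.support.card * B.natDegree : ℝ) / e))

lemma Kind.basic {f B s : ℤ[X]} {η : ℝ} (h : Kind f B s η) : f ≠ 0 ∧ B ≠ 0 ∧ 0 ≤ η := by
  rcases h with ⟨hB, hl, hη⟩ | ⟨hB0, hs0, hf0, hη⟩
  · have hf : f ≠ 0 := by
      rintro rfl
      rw [natDegree_zero] at hl
      omega
    refine ⟨hf, hB, ?_⟩
    rw [hη]
    apply Finset.sum_nonneg
    intro e he
    have h1 := le_natDegree_of_mem_supp e he
    have h2 : ((B.natDegree + e : ℕ) : ℝ) < f.natDegree := by exact_mod_cast (by omega)
    push_cast at h2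
    apply log_nonneg
    rw [le_div_iff₀ (by linarith)]
    have : (0:ℝ) ≤ (s.support.card : ℝ) * B.natDegree := by positivity
    have : (0:ℝ) ≤ (B.natDegree : ℝ) := by positivity
    have : (0:ℝ) ≤ (e : ℝ) := by positivity
    linarith
  · have hf : f ≠ 0 := by
      rintro rfl
      simp at hf0
    have hB : B ≠ 0 := by
      rintro rfl
      simp at hB0
    refine ⟨hf, hB, ?_⟩
    rw [hη]
    apply Finset.sum_nonneg
    intro e he
    have h1 := le_natDegree_of_mem_supp e he
    have he0 : 0 < e := by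
      apply Nat.pos_of_ne_zero
      rintro rfl
      exact (mem_support_iff.mp he) hs0
    have h2 : (e : ℝ) ≤ (max f.natDegree (B.natDegree + s.natDegree) : ℕ) := by
      have : e ≤ max f.natDegree (B.natDegree + s.natDegree) := by omega
      exact_mod_cast this
    apply log_nonneg
    rw [le_div_iff₀ (by exact_mod_cast he0)]
    have : (0:ℝ) ≤ (s.support.card : ℝ) * B.natDegree := by positivity
    linarith

lemma Kind.prox_le {f B s Y : ℤ[X]} {η : ℝ} (h : Kind f B s η) (hs : s ≠ 0) (hF : f + B * s ≠ 0)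
    (hY : DD s.support.card Y (f + B * s)) :
    prox f (f + B * s) ≤ (lM (f + B * s) - lM Y) + s.support.card * (6 + lM B) + η := by
  rcases h with ⟨hB, hl, hη⟩ | ⟨hB0, hs0, hf0, hη⟩
  · rw [hη]
    exact pert_top' hB hs hl hF hY
  · rw [hη]
    exact pert_bot' hs (le_max_left _ _) (le_max_right _ _) hf0 hB0 hs0 hF hY

/-- the bound for the proximity -/
theorem prox_bound {f B s P : ℤ[X]} {η w : ℝ} {c : ℤ} {S : Finset ℕ} {u : ℕ → ℤ[X]} {e : ℕ → ℕ}
    (hk : Kind f B s η) (hs : s ≠ 0) (hFe : f + B * s = C c * P * ∏ l ∈ S, u l ^ e l)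
    (hF : f + B * s ≠ 0) (hw0 : 0 ≤ w) (hw1 : w < 1)
    (hw : ∀ l ∈ S, (s.support.card : ℝ) ≤ w * e l) :
    P ≠ 0 ∧ (1 - w) * prox f (f + B * s) ≤
      lM P + s.support.card * (6 + lM B) + η + w * lM f := by
  obtain ⟨hf0, hB, hη⟩ := hk.basic
  have hc : c ≠ 0 := by
    intro h
    apply hF
    rw [hFe, h, C_0, zero_mul, zero_mul]
  have hP : P ≠ 0 := by
    intro h
    apply hF
    rw [hFe, h, mul_zero, zero_mul]
  have hcard : (1:ℝ) ≤ (s.support.card : ℝ) := by
    have : 0 < s.support.card := Finset.card_pos.mpr (support_nonempty.mpr hs)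
    exact_mod_cast this
  have hu : ∀ l ∈ S, u l ≠ 0 := by
    intro l hl h0
    have h1 := hF
    rw [hFe] at h1
    have h2 := Finset.prod_ne_zero_iff.mp (right_ne_zero_of_mul h1) l hl
    rw [h0] at h2
    have h3 : e l ≠ 0 := by
      intro h4
      have h5 := hw l hl
      rw [h4, Nat.cast_zero, mul_zero] at h5
      linarith
    rw [zero_pow h3] at h2
    exact h2 rfl
  have hY : DD s.support.card (C c * ∏ l ∈ S, u l ^ (e l - s.support.card)) (f + B * s) := by
    intro j hj
    rw [hFe]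
    exact thi_dvd' S c P u e hj
  have h1 := hk.prox_le hs hF hY
  have h2 := trunc hc hP S u hu e s.support.card hw0 hw
  rw [← hFe] at h2
  have h3 := lM_le_prox hf0 hF
  have h4 : w * lM (f + B * s) ≤ w * (lM f + prox f (f + B * s)) := mul_le_mul_of_nonneg_left h3 hw0
  refine ⟨hP, ?_⟩
  linarith

/-- **the gap, with an explicit bound for irreducible polynomials** -/
theorem gap_powers : ∃ c₀ : ℝ, 0 < c₀ ∧ ∀ K : ℝ, ∃ μ : ℝ, 1 < μ ∧
    ∀ (f B s P : ℤ[X]) (c : ℤ) (S : Finset ℕ) (u : ℕ → ℤ[X]) (e : ℕ → ℕ) (w η : ℝ), s ≠ 0 →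
    f + B * s = C c * P * ∏ l ∈ S, u l ^ e l → f + B * s ≠ 0 → 0 ≤ w → w < 1 →
    (∀ l ∈ S, (s.support.card : ℝ) ≤ w * e l) → Kind f B s η →
    (∀ z : ℂ, 1 < ‖z‖ → aeval z f = 0 → aeval z (f + B * s) ≠ 0) →
    lM P + s.support.card * (1 + lM B) + η ≤ K * (1 - w) →
    ((f.map (Int.castRingHom ℂ)).mahlerMeasure = 1 ∨
      μ ≤ (f.map (Int.castRingHom ℂ)).mahlerMeasure) ∧
    (Irreducible f → (f + B * s).natDegree ≤ f.natDegree →
      (f.map (Int.castRingHom ℂ)).mahlerMeasure = 1 ∨
      exp (c₀ / (1 + K) ^ 3) ≤ (f.map (Int.castRingHom ℂ)).mahlerMeasure) := by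
  obtain ⟨c1, hc1, hirr⟩ := irr_prox
  have hlog2 : 0 < log 2 := log_pos (by norm_num)
  refine ⟨min (log 2) (min 1 (c1 / 343)), by positivity, ?_⟩
  intro K
  obtain ⟨μ, hμ, hgap⟩ := gap_prox (7 * K)
  refine ⟨min μ (exp 1), lt_min hμ (by
    have := add_one_lt_exp (one_ne_zero (α := ℝ))
    linarith), ?_⟩
  intro f B s P c S u e w η hs hFe hF hw0 hw1 hw hk hz hK
  obtain ⟨hf0, hB, hη⟩ := hk.basic
  obtain ⟨hP, hprox⟩ := prox_bound hk hs hFe hF hw0 hw1 hw
  have hcard : (1:ℝ) ≤ (s.support.card : ℝ) := by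
    have : 0 < s.support.card := Finset.card_pos.mpr (support_nonempty.mpr hs)
    exact_mod_cast this
  have g1 := lM_nonneg hP
  have g2 := lM_nonneg hB
  have g3 := lM_nonneg hf0
  have g4 : 0 < 1 - w := by linarith
  have g5 : 1 ≤ K * (1 - w) := by nlinarith
  have g6 : 0 ≤ K := by
    by_contra h
    push Not at h
    nlinarith
  have hpos := mahler_pos hf0
  have hsmall : lM f < 1 → prox f (f + B * s) ≤ 7 * K := by
    intro h1
    have h2 : (1 - w) * prox f (f + B * s) ≤ (1 - w) * (7 * K) := by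
      have h3 : w * lM f ≤ 1 := by nlinarith
      have h4 : lM P + s.support.card * (6 + lM B) + η ≤
          6 * (lM P + s.support.card * (1 + lM B) + η) := by nlinarith
      nlinarith
    exact le_of_mul_le_mul_left h2 g4
  constructor
  · rcases le_or_gt 1 (lM f) with h1 | h1
    · right
      refine (min_le_right _ _).trans ?_
      rw [← le_log_iff_exp_le hpos]
      exact h1
    · rcases hgap f (f + B * s) hf0 (hsmall h1) hz with h2 | h2
      · exact Or.inl h2
      · exact Or.inr ((min_le_left _ _).trans h2)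
  · intro hirrf hdeg
    have hp1 : (1:ℝ) ≤ (1 + K) ^ 3 := one_le_pow₀ (by linarith)
    have hle : ∀ y : ℝ, y ≤ lM f → min (log 2) (min 1 (c1 / 343)) / (1 + K) ^ 3 ≤ y →
        exp (min (log 2) (min 1 (c1 / 343)) / (1 + K) ^ 3) ≤
          (f.map (Int.castRingHom ℂ)).mahlerMeasure := by
      intro y hy1 hy2
      rw [← le_log_iff_exp_le hpos]
      exact hy2.trans hy1
    have hc0 : 0 < min (log 2) (min 1 (c1 / 343)) := by positivity
    rcases le_or_gt 1 (lM f) with h1 | h1
    · right
      apply hle 1 h1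
      refine (div_le_self hc0.le hp1).trans ?_
      exact (min_le_right _ _).trans (min_le_left _ _)
    by_cases hM : (f.map (Int.castRingHom ℂ)).mahlerMeasure = 1
    · exact Or.inl hM
    right
    have hM1 : 1 < (f.map (Int.castRingHom ℂ)).mahlerMeasure := by
      rcases lt_or_eq_of_le g3 with h2 | h2
      · unfold lM at h2
        by_contra h3
        push Not at h3
        have := log_nonpos hpos.le h3
        linarith
      · exfalso
        apply hM
        unfold lM at h2
        have h3 := exp_log hpos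
        rw [← h2, exp_zero] at h3
        exact h3.symm
    rcases Pool.Agent.Y820.LB.m1_cases f hf0 hM with h2 | ⟨z, hz0, hz1⟩
    · apply hle (log 2)
      · exact log_le_log (by norm_num) h2
      · exact (div_le_self hc0.le hp1).trans (min_le_left _ _)
    · have hnd : ¬ f ∣ f + B * s := by
        intro hd
        have h3 : aeval z f = 0 := by
          rw [aeval_map']
          exact hz0
        apply hz z hz1 h3
        obtain ⟨g, hg⟩ := hd
        rw [hg, map_mul, h3, zero_mul]
      have h4 := hirr f (f + B * s) hirrf hM1 hnd hdeg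
      have h5 := hsmall h1
      have h6 := prox_nonneg f (f + B * s)
      have h7 : (1 + prox f (f + B * s)) ^ 3 ≤ (7 * (1 + K)) ^ 3 :=
        pow_le_pow_left₀ (by linarith) (by linarith) 3
      have h8 : c1 ≤ lM f * (7 * (1 + K)) ^ 3 := h4.trans (mul_le_mul_of_nonneg_left h7 g3)
      apply hle (lM f) le_rfl
      have hp0 : (0:ℝ) < (1 + K) ^ 3 := by positivity
      rw [div_le_iff₀ hp0]
      have h9 : min (log 2) (min 1 (c1 / 343)) ≤ c1 / 343 := (min_le_right _ _).trans (min_le_right _ _)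
      refine h9.trans ?_
      rw [div_le_iff₀ (by norm_num)]
      refine h8.trans (le_of_eq (by ring))

end Pool.Agent.Zk21.Pu
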