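import Mathlib
import Pool.Agent.Zk21.ChB
import Pool.Agent.Zk21.PuB

/-!
# Sparse perturbations: truncated counting compared with the height
-/

set_option autoImplicit false

open Polynomial Metric Real

namespace Pool.Agent.Zk21.Ch

open Pool.Agent.R328 Pool.Agent.Zk21.Smt Pool.Agent.Zk21.Un Pool.Agent.Zk21.Pt Pool.Agent.Zk21.Ca
open Pool.Agent.Zk21.Pu Pool.Agent.Zk21.Cf

/-- the mean of `max (log |u|, log |v|)` over the unit circle -/
noncomputable def ht2 (u v : ℤ[X]) : ℝ :=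
  circleAverage (fun x => max (log ‖(u.map (Int.castRingHom ℂ)).eval x‖)
    (log ‖(v.map (Int.castRingHom ℂ)).eval x‖)) 0 1

lemma ht2_int (u v : ℤ[X]) : CircleIntegrable (fun x => max (log ‖(u.map (Int.castRingHom ℂ)).eval x‖)
    (log ‖(v.map (Int.castRingHom ℂ)).eval x‖)) 0 1 :=
  ci_sup (log_int _) (log_int _)

lemma lM_le_ht2 (u v : ℤ[X]) : lM u ≤ ht2 u v := by
  unfold lM ht2
  rw [← log_mahler]
  exact circleAverage_mono (log_int _) (ht2_int u v) fun x _ => le_max_left _ _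

lemma ht2_le {g F : ℤ[X]} (hg : g ≠ 0) (hF : F ≠ 0) : ht2 g F ≤ lM g + prox g F := by
  unfold lM ht2 prox
  rw [← log_mahler, ← circleAverage_add (log_int _) (posLog_ratio_int _ _)]
  apply circleAverage_mono_off (ht2_int g F) ((log_int _).add (posLog_ratio_int _ _))
    ((roots_countable (map_ne hg)).union (roots_countable (map_ne hF)))
  intro x _ hxZ
  simp only [Set.mem_union, not_or] at hxZ
  obtain ⟨hx1, hx2⟩ := hxZ
  have h1 : 0 < ‖(g.map (Int.castRingHom ℂ)).eval x‖ := norm_pos_iff.mpr hx1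
  have h2 : 0 < ‖(F.map (Int.castRingHom ℂ)).eval x‖ := norm_pos_iff.mpr hx2
  simp only [Pi.add_apply]
  have h3 : log (‖(F.map (Int.castRingHom ℂ)).eval x‖ / ‖(g.map (Int.castRingHom ℂ)).eval x‖) =
      log ‖(F.map (Int.castRingHom ℂ)).eval x‖ - log ‖(g.map (Int.castRingHom ℂ)).eval x‖ :=
    log_div h2.ne' h1.ne'
  rw [norm_div, posLog, h3]
  rcases le_total (log ‖(F.map (Int.castRingHom ℂ)).eval x‖) (log ‖(g.map (Int.castRingHom ℂ)).eval x‖)
    with h | h
  · rw [max_eq_left h]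
    have := le_max_left (0:ℝ)
      (log ‖(F.map (Int.castRingHom ℂ)).eval x‖ - log ‖(g.map (Int.castRingHom ℂ)).eval x‖)
    linarith
  · rw [max_eq_right h]
    have := le_max_right (0:ℝ)
      (log ‖(F.map (Int.castRingHom ℂ)).eval x‖ - log ‖(g.map (Int.castRingHom ℂ)).eval x‖)
    linarith

/-- **the gap for sparse perturbations** -/
theorem gap_sparse : ∃ c₀ : ℝ, 0 < c₀ ∧ ∀ K ε : ℝ, 0 ≤ K → 0 < ε → ε ≤ 1 → ∃ μ : ℝ, 1 < μ ∧
    ∀ (f R B s Y Z : ℤ[X]) (η : ℝ), s ≠ 0 → f * R + B * s = Y * Z → f * R + B * s ≠ 0 →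
    (∀ j ≤ s.support.card, Y ∣ th^[j] (f * R + B * s)) → Kind (f * R) B s η →
    (∀ z : ℂ, 1 < ‖z‖ → aeval z f = 0 → aeval z (f * R + B * s) ≠ 0) →
    mp (R.map (Int.castRingHom ℂ)) ≤ ht2 (f * R) (f * R + B * s) + K →
    lM R + lM Z + s.support.card * (6 + lM B) + η ≤ (1 - ε) * ht2 (f * R) (f * R + B * s) + K →
    ((f.map (Int.castRingHom ℂ)).mahlerMeasure = 1 ∨
      μ ≤ (f.map (Int.castRingHom ℂ)).mahlerMeasure) ∧
    ε * ht2 (f * R) (f * R + B * s) ≤ lM f + K ∧
    (Irreducible f → (f * R + B * s).natDegree ≤ f.natDegree →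
      (f.map (Int.castRingHom ℂ)).mahlerMeasure = 1 ∨
      exp (c₀ * (ε / (1 + K)) ^ 3) ≤ (f.map (Int.castRingHom ℂ)).mahlerMeasure) := by
  obtain ⟨c1, hc1, hirr⟩ := irr_prox
  have hlog2 : 0 < log 2 := log_pos (by norm_num)
  refine ⟨min (log 2) (min 1 (c1 / 125)), by positivity, ?_⟩
  intro K ε hK0 hε hε1
  obtain ⟨μ, hμ, hgap⟩ := gap_prox (4 * (1 + K) / ε)
  refine ⟨min μ (exp 1), lt_min hμ (by
    have := add_one_lt_exp (one_ne_zero (α := ℝ))
    linarith), ?_⟩
  intro f R B s Y Z η hs hYZ hF hY hk hz hR hK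
  obtain ⟨hg0, hB, hη⟩ := hk.basic
  have hf0 : f ≠ 0 := left_ne_zero_of_mul hg0
  have hR0 : R ≠ 0 := right_ne_zero_of_mul hg0
  obtain ⟨T, hT⟩ : ∃ T, T = ht2 (f * R) (f * R + B * s) := ⟨_, rfl⟩
  have hT0 : 0 ≤ T := by
    rw [hT]
    exact (lM_nonneg hg0).trans (lM_le_ht2 _ _)
  have hT1 : T ≤ lM (f * R) + prox (f * R) (f * R + B * s) := by
    rw [hT]
    exact ht2_le hg0 hF
  rw [← hT] at hR hK ⊢
  have hY0 : Y ≠ 0 := by
    rintro rfl
    rw [zero_mul] at hYZ
    exact hF hYZ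
  have hZ0 : Z ≠ 0 := by
    rintro rfl
    rw [mul_zero] at hYZ
    exact hF hYZ
  have hprox := hk.prox_le hs hF (Y := Y) hY
  have hYZ' : lM (f * R + B * s) = lM Y + lM Z := by
    rw [hYZ]
    exact lM_mul hY0 hZ0
  have hg' : lM (f * R) = lM f + lM R := lM_mul hf0 hR0
  have hRn := lM_nonneg hR0
  have g3 := lM_nonneg hf0
  have hT2 : ε * T ≤ lM f + K := by linarith
  have hpf : prox f (f * R + B * s) ≤ 2 * K + 2 * T := by
    have h1 := prox_cof (f * R + B * s) (rfl : f * R = f * R) hg0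
    have h2 : (1 - ε) * T ≤ T := by nlinarith
    linarith
  have hsmall : lM f < 1 → prox f (f * R + B * s) ≤ 4 * (1 + K) / ε := by
    intro h1
    rw [le_div_iff₀ hε]
    have h2 : ε * T ≤ 1 + K := by linarith
    have h3 : K * ε ≤ K * 1 := mul_le_mul_of_nonneg_left hε1 hK0
    have h4 : prox f (f * R + B * s) * ε ≤ (2 * K + 2 * T) * ε :=
      mul_le_mul_of_nonneg_right hpf hε.le
    linarith
  have hpos := mahler_pos hf0
  refine ⟨?_, hT2, ?_⟩
  · rcases le_or_gt 1 (lM f) with h1 | h1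
    · right
      refine (min_le_right _ _).trans ?_
      rw [← le_log_iff_exp_le hpos]
      exact h1
    · rcases hgap f (f * R + B * s) hf0 (hsmall h1) hz with h2 | h2
      · exact Or.inl h2
      · exact Or.inr ((min_le_left _ _).trans h2)
  · intro hirrf hdeg
    have hr0 : 0 < ε / (1 + K) := by positivity
    have hr1 : ε / (1 + K) ≤ 1 := by
      rw [div_le_one (by positivity)]
      linarith
    have hp1 : (ε / (1 + K)) ^ 3 ≤ 1 := pow_le_one₀ hr0.le hr1
    have hp0 : 0 < (ε / (1 + K)) ^ 3 := by positivity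
    have hle : ∀ y : ℝ, y ≤ lM f → min (log 2) (min 1 (c1 / 125)) * (ε / (1 + K)) ^ 3 ≤ y →
        exp (min (log 2) (min 1 (c1 / 125)) * (ε / (1 + K)) ^ 3) ≤
          (f.map (Int.castRingHom ℂ)).mahlerMeasure := by
      intro y hy1 hy2
      rw [← le_log_iff_exp_le hpos]
      exact hy2.trans hy1
    have hc0 : 0 < min (log 2) (min 1 (c1 / 125)) := by positivity
    have hcm : min (log 2) (min 1 (c1 / 125)) * (ε / (1 + K)) ^ 3 ≤
        min (log 2) (min 1 (c1 / 125)) := mul_le_of_le_one_right hc0.le hp1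
    rcases le_or_gt 1 (lM f) with h1 | h1
    · right
      apply hle 1 h1
      exact hcm.trans ((min_le_right _ _).trans (min_le_left _ _))
    by_cases hM : (f.map (Int.castRingHom ℂ)).mahlerMeasure = 1
    · exact Or.inl hM
    right
    have hM1 : 1 < (f.map (Int.castRingHom ℂ)).mahlerMeasure := by
      rcases lt_or_eq_of_le g3 with h2 | h2
      · unfold lM at h2
        by_contra h3
        push Not at h3
        have := log_nonpos hpos.le h3
        linarith
      · exfalso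
        apply hM
        unfold lM at h2
        have h3 := exp_log hpos
        rw [← h2, exp_zero] at h3
        exact h3.symm
    rcases Pool.Agent.Y820.LB.m1_cases f hf0 hM with h2 | ⟨z, hz0, hz1⟩
    · apply hle (log 2)
      · exact log_le_log (by norm_num) h2
      · exact hcm.trans (min_le_left _ _)
    · have hnd : ¬ f ∣ f * R + B * s := by
        intro hd
        have h3 : aeval z f = 0 := by
          rw [aeval_map']
          exact hz0
        apply hz z hz1 h3
        obtain ⟨g, hg⟩ := hd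
        rw [hg, map_mul, h3, zero_mul]
      have h4 := hirr f (f * R + B * s) hirrf hM1 hnd hdeg
      have h5 := hsmall h1
      have h6 := prox_nonneg f (f * R + B * s)
      have h50 : 1 + prox f (f * R + B * s) ≤ 5 * ((1 + K) / ε) := by
        have h51 : 1 ≤ (1 + K) / ε := by
          rw [le_div_iff₀ hε]
          linarith
        have h52 : 4 * (1 + K) / ε = 4 * ((1 + K) / ε) := by ring
        linarith
      have h7 : (1 + prox f (f * R + B * s)) ^ 3 ≤ (5 * ((1 + K) / ε)) ^ 3 :=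
        pow_le_pow_left₀ (by linarith) h50 3
      have h8 : c1 ≤ lM f * (5 * ((1 + K) / ε)) ^ 3 := h4.trans (mul_le_mul_of_nonneg_left h7 g3)
      apply hle (lM f) le_rfl
      have h9 : min (log 2) (min 1 (c1 / 125)) ≤ c1 / 125 := (min_le_right _ _).trans (min_le_right _ _)
      have h10 : min (log 2) (min 1 (c1 / 125)) * (ε / (1 + K)) ^ 3 ≤
          c1 / 125 * (ε / (1 + K)) ^ 3 := mul_le_mul_of_nonneg_right h9 hp0.le
      refine h10.trans ?_
      have h11 : c1 / 125 * (ε / (1 + K)) ^ 3 ≤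
          lM f * (5 * ((1 + K) / ε)) ^ 3 / 125 * (ε / (1 + K)) ^ 3 := by
        apply mul_le_mul_of_nonneg_right _ hp0.le
        apply div_le_div_of_nonneg_right h8 (by norm_num)
      refine h11.trans (le_of_eq ?_)
      have h12 : (1 + K) ≠ 0 := by positivity
      field_simp
      ring

end Pool.Agent.Zk21.Ch
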