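import Mathlib
import Pool.Agent.Zk21.ChC

/-!
# The Wronskian of another basis: lower bound
-/

set_option autoImplicit false

open Polynomial Metric Real

namespace Pool.Agent.Zk21.Ch

open Pool.Agent.R328 Pool.Agent.Zk21.Smt Pool.Agent.Zk21.Un Pool.Agent.Zk21.Pt Pool.Agent.Zk21.Ca
open Pool.Agent.Zk21.Cf Pool.Agent.Zk21.Cg

/-- the Wronskian of another basis, up to the sign -/
lemma wr_basis' {N : ℕ} (A B : Fin N → ℤ[X]) (U : Matrix (Fin N) (Fin N) ℤ)
    (hU : U.det = 1 ∨ U.det = -1) (hB : ∀ i, B i = ∑ j, C (U i j) * A j) :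
    wr B = wr A ∨ wr B = - wr A := by
  have h1 := wr_lf (N := N) (q := N) (fun i j => ((U i j : ℤ) : ℂ)) id
    (fun j => (A j).map (Int.castRingHom ℂ))
  have h2 : (fun i : Fin N => lf (fun j => ((U (id i) j : ℤ) : ℂ))
      (fun j => (A j).map (Int.castRingHom ℂ))) = fun i => (B i).map (Int.castRingHom ℂ) := by
    funext i
    rw [hB i]
    unfold lf
    rw [Polynomial.map_sum]
    refine Finset.sum_congr rfl fun j _ => ?_
    rw [Polynomial.map_mul, Polynomial.map_C]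
    rfl
  have h3 : (sel (N := N) (q := N) (fun i j => ((U i j : ℤ) : ℂ)) id).det = ((U.det : ℤ) : ℂ) := by
    have h4 := (Int.castRingHom ℂ).map_det U
    rw [eq_intCast] at h4
    rw [h4]
    rfl
  have hinj : Function.Injective (Polynomial.map (Int.castRingHom ℂ)) :=
    Polynomial.map_injective _ (Int.castRingHom ℂ).injective_int
  rw [h2, h3, wr_map, wr_map] at h1
  rcases hU with h | h
  · left
    apply hinj
    rw [h1, h]
    simp
  · right
    apply hinj
    rw [h1, h]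
    simp

/-- the lower bound for the Wronskian -/
lemma wr_lower2 {N : ℕ} (A B Y : Fin N → ℤ[X]) (U : Matrix (Fin N) (Fin N) ℤ)
    (hU : U.det = 1 ∨ U.det = -1) (hB : ∀ i, B i = ∑ j, C (U i j) * A j)
    (q : Fin N → ℕ) (lam : ℤ[X] → ℤ) (hN : 0 < N)
    (hmul : ∀ A B, lam (A * B) = lam A * lam B) (hneg : ∀ P : ℤ[X], |lam (-P)| = |lam P|)
    (hlam : ∀ P : ℤ[X], P ≠ 0 → lam P ≠ 0)
    (hlog : ∀ P : ℤ[X], P ≠ 0 → log |(lam P : ℝ)| ≤ lM P)
    (hw : lam (wr B) = (∏ i, lam (B i)) * ∏ i, ∏ j ∈ Finset.Ioi i, ((q j : ℤ) - q i))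
    (hY : ∀ i, ∀ k < N, Y i ∣ th^[k] (A i)) (hq : Function.Injective q) (hB0 : ∀ i, B i ≠ 0)
    (hW : wr A ≠ 0) :
    (∑ i, lM (Y i)) - (∑ i, log |(lam (Y i) : ℝ)|) + (∑ i, log |(lam (B i) : ℝ)|) +
      ∑ i, ∑ j ∈ Finset.Ioi i, log |(q j : ℝ) - q i| ≤ lM (wr A) := by
  obtain ⟨w, hw2⟩ := wr_dvd A Y hY
  have hw0 : w ≠ 0 := by
    rintro rfl
    rw [mul_zero] at hw2
    exact hW hw2
  have hP0 : (∏ i, Y i) ≠ 0 := by
    intro h
    rw [h, zero_mul] at hw2
    exact hW hw2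
  have hY0 : ∀ i, Y i ≠ 0 := fun i => Finset.prod_ne_zero_iff.mp hP0 i (Finset.mem_univ i)
  have h1 : lam 1 = 1 := by
    have := hmul 1 1
    rw [mul_one] at this
    have h2 := hlam 1 one_ne_zero
    have h3 : lam 1 * 1 = lam 1 * lam 1 := by rw [mul_one]; exact this
    exact (mul_left_cancel₀ h2 h3).symm
  have hlamprod : ∀ (A : Fin N → ℤ[X]), lam (∏ i, A i) = ∏ i, lam (A i) := by
    intro A
    classical
    have h4 : ∀ s : Finset (Fin N), lam (∏ i ∈ s, A i) = ∏ i ∈ s, lam (A i) := by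
      intro s
      induction s using Finset.induction_on with
      | empty => simpa using h1
      | insert a s ha ih => rw [Finset.prod_insert ha, Finset.prod_insert ha, hmul, ih]
    exact h4 _
  have hlw : log |(lam w : ℝ)| ≤ lM w := hlog w hw0
  have hV0 : ∀ i, ∀ j ∈ Finset.Ioi i, |(q j : ℝ) - q i| ≠ 0 := by
    intro i j hj h
    rw [Finset.mem_Ioi] at hj
    rw [abs_eq_zero, sub_eq_zero] at h
    have h2 : q j = q i := by exact_mod_cast h
    exact hj.ne' (hq h2)
  have hYn : ∀ i, |(lam (Y i) : ℝ)| ≠ 0 := fun i h => by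
    rw [abs_eq_zero] at h
    exact hlam _ (hY0 i) (by exact_mod_cast h)
  have hBn : ∀ i, |(lam (B i) : ℝ)| ≠ 0 := fun i h => by
    rw [abs_eq_zero] at h
    exact hlam _ (hB0 i) (by exact_mod_cast h)
  have hwn : |(lam w : ℝ)| ≠ 0 := fun h => by
    rw [abs_eq_zero] at h
    exact hlam _ hw0 (by exact_mod_cast h)
  have e0 : |lam (wr A)| = |lam (wr B)| := by
    rcases wr_basis' A B U hU hB with h | h
    · rw [h]
    · rw [h, hneg]
  have e1 : (∏ i, |(lam (Y i) : ℝ)|) * |(lam w : ℝ)| =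
      (∏ i, |(lam (B i) : ℝ)|) * ∏ i, ∏ j ∈ Finset.Ioi i, |(q j : ℝ) - q i| := by
    rw [hw2, hmul, hlamprod, hw] at e0
    have e2 : (|(∏ i, lam (Y i)) * lam w| : ℤ) =
        |(∏ i, lam (B i)) * ∏ i, ∏ j ∈ Finset.Ioi i, ((q j : ℤ) - q i)| := e0
    have e3 := congrArg (fun z : ℤ => (z : ℝ)) e2
    simp only [Int.cast_abs, Int.cast_mul, Int.cast_prod, Int.cast_sub, Int.cast_natCast] at e3
    rw [abs_mul, abs_mul, Finset.abs_prod, Finset.abs_prod,
      Finset.abs_prod (f := fun i => ∏ j ∈ Finset.Ioi i, ((q j : ℝ) - q i))] at e3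
    rw [e3]
    congr 1
    exact Finset.prod_congr rfl fun i _ => Finset.abs_prod _ _
  have e4 := congrArg log e1
  rw [log_mul (Finset.prod_ne_zero_iff.mpr fun i _ => hYn i) hwn,
    log_mul (Finset.prod_ne_zero_iff.mpr fun i _ => hBn i)
      (Finset.prod_ne_zero_iff.mpr fun i _ => Finset.prod_ne_zero_iff.mpr fun j hj => hV0 i j hj),
    log_prod fun i _ => hYn i, log_prod fun i _ => hBn i,
    log_prod fun i _ => Finset.prod_ne_zero_iff.mpr fun j hj => hV0 i j hj] at e4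
  have e5 : ∑ i, log (∏ j ∈ Finset.Ioi i, |(q j : ℝ) - q i|) =
      ∑ i, ∑ j ∈ Finset.Ioi i, log |(q j : ℝ) - q i| :=
    Finset.sum_congr rfl fun i _ => log_prod fun j hj => hV0 i j hj
  rw [e5] at e4
  have e6 : lM (wr A) = (∑ i, lM (Y i)) + lM w := by
    rw [hw2, lM_mul hP0 hw0, lM_prod _ _ fun i _ => hY0 i]
  rw [e6]
  linarith

/-- the leading or the lowest coefficient -/
noncomputable def edge (low : Bool) (P : ℤ[X]) : ℤ := if low then P.trailingCoeff else P.leadingCoeff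

/-- the degree or the order at `0` -/
noncomputable def edeg (low : Bool) (P : ℤ[X]) : ℕ := if low then P.natTrailingDegree else P.natDegree

lemma edge_ne {low : Bool} {P : ℤ[X]} (hP : P ≠ 0) : edge low P ≠ 0 := by
  unfold edge
  split_ifs
  · exact mt trailingCoeff_eq_zero.mp hP
  · exact leadingCoeff_ne_zero.mpr hP

lemma edge_log {low : Bool} {P : ℤ[X]} (hP : P ≠ 0) : log |(edge low P : ℝ)| ≤ lM P := by
  unfold edge
  split_ifs
  · exact lM_tc hP
  · exact lM_lc hP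

lemma edge_pos {low : Bool} {P : ℤ[X]} (hP : P ≠ 0) : 0 ≤ log |(edge low P : ℝ)| := by
  apply log_nonneg
  exact_mod_cast Int.one_le_abs (edge_ne hP)

/-- the lower bound for the Wronskian, two cases -/
lemma wr_lower3 {N : ℕ} (A B Y : Fin N → ℤ[X]) (U : Matrix (Fin N) (Fin N) ℤ) (hN : 0 < N)
    (hU : U.det = 1 ∨ U.det = -1) (hB : ∀ i, B i = ∑ j, C (U i j) * A j) (low : Bool)
    (hq : Function.Injective fun i => edeg low (B i))
    (hY : ∀ i, ∀ k < N, Y i ∣ th^[k] (A i)) (hB0 : ∀ i, B i ≠ 0) :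
    wr A ≠ 0 ∧
    (∑ i, lM (Y i)) - (∑ i, log |(edge low (Y i) : ℝ)|) + (∑ i, log |(edge low (B i) : ℝ)|) +
      ∑ i, ∑ j ∈ Finset.Ioi i, log |(edeg low (B j) : ℝ) - edeg low (B i)| ≤ lM (wr A) := by
  have hbas := wr_basis' A B U hU hB
  have hWB : wr B ≠ 0 := by
    refine (wr_lower' B (fun _ => 1) (fun i => edeg low (B i)) hq ?_ (fun i k _ => one_dvd _) hB0).1
    cases low
    · left
      intro i
      rfl
    · right
      intro i
      rfl
  have hWA : wr A ≠ 0 := by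
    intro h
    rcases hbas with h1 | h1
    · exact hWB (h1.trans h)
    · exact hWB (by rw [h1, h, neg_zero])
  refine ⟨hWA, ?_⟩
  cases low with
  | false =>
    refine wr_lower2 A B Y U hU hB (fun i => (B i).natDegree) leadingCoeff hN leadingCoeff_mul
      (fun P => by rw [leadingCoeff_neg, abs_neg]) (fun P hP => leadingCoeff_ne_zero.mpr hP)
      (fun P hP => lM_lc hP) ?_ hY hq hB0 hWA
    obtain ⟨h1, h2⟩ := wr_top B
    have h4 : (wr B).coeff (∑ i, (B i).natDegree) ≠ 0 := by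
      rw [h2]
      exact mul_ne_zero (Finset.prod_ne_zero_iff.mpr fun i _ => leadingCoeff_ne_zero.mpr (hB0 i))
        (vand_ne (q := fun i => (B i).natDegree) hq)
    have h5 : (wr B).natDegree = ∑ i, (B i).natDegree := le_antisymm h1 (le_natDegree_of_ne_zero h4)
    rw [← h2, leadingCoeff, h5]
  | true =>
    refine wr_lower2 A B Y U hU hB (fun i => (B i).natTrailingDegree) trailingCoeff hN
      trailingCoeff_mul
      (fun P => by rw [trailingCoeff, trailingCoeff, natTrailingDegree_neg, coeff_neg, abs_neg])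
      (fun P hP => mt trailingCoeff_eq_zero.mp hP)
      (fun P hP => lM_tc hP) ?_ hY hq hB0 hWA
    obtain ⟨h1, h2⟩ := wr_low B
    have h4 : (wr B).coeff (∑ i, (B i).natTrailingDegree) ≠ 0 := by
      rw [h2]
      exact mul_ne_zero (Finset.prod_ne_zero_iff.mpr fun i _ => mt trailingCoeff_eq_zero.mp (hB0 i))
        (vand_ne (q := fun i => (B i).natTrailingDegree) hq)
    have h5 : (wr B).natTrailingDegree = ∑ i, (B i).natTrailingDegree := by
      apply le_antisymm (natTrailingDegree_le_of_ne_zero h4)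
      apply le_natTrailingDegree hWB
      exact X_pow_dvd_iff.mp h1
    rw [← h2, trailingCoeff, h5]

end Pool.Agent.Zk21.Ch
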