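import Mathlib
import Pool.Agent.Zk21.ChF

/-!
# The gap for divisors of values of forms, with another basis
-/

set_option autoImplicit false

open Polynomial Metric Real

namespace Pool.Agent.Zk21.Ch

open Pool.Agent.R328 Pool.Agent.Zk21.Smt Pool.Agent.Zk21.Un Pool.Agent.Zk21.Pt Pool.Agent.Zk21.Ca
open Pool.Agent.Zk21.Cf Pool.Agent.Zk21.Cg

/-- **the gap for divisors of values of forms** -/
theorem gap_div2 {N q : ℕ} (hN : 0 < N) [Nonempty (Fin N)] (hq : N < q) (L : Fin q → Fin N → ℂ)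
    (hL : ∀ s : Fin N → Fin q, Function.Injective s → (Matrix.of fun i j => L (s i) j).det ≠ 0)
    (K ε : ℝ) (hε : 0 < ε) : ∃ μ C1 : ℝ, 1 < μ ∧ ∀ (J : Finset (Fin q)) (ρ : Fin q → Fin N) (n : ℕ)
    (A B : Fin N → ℤ[X]) (U : Matrix (Fin N) (Fin N) ℤ) (low : Bool) (f R : ℤ[X])
    (Y Z : Fin N → ℤ[X]),
    (∀ l ∈ J, L l = Pi.single (ρ l) 1) → Set.InjOn ρ J →
    0 < n → (∀ j, (A j).natDegree ≤ n) → (U.det = 1 ∨ U.det = -1) →
    (∀ i, B i = ∑ j, C (U i j) * A j) → (∀ i, B i ≠ 0) →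
    Function.Injective (fun i => edeg low (B i)) →
    (∀ l ∈ J, A (ρ l) = Y (ρ l) * Z (ρ l)) →
    (∀ l ∈ J, ∀ k < N, Y (ρ l) ∣ th^[k] (A (ρ l))) →
    (f * R).map (Int.castRingHom ℂ) =
      ∏ l ∈ Jᶜ, ∑ j, C (L l j) * (A j).map (Int.castRingHom ℂ) →
    (∀ z : ℂ, 1 < ‖z‖ → aeval z f = 0 → ∃ j, aeval z (A j) ≠ 0) →
    mp (R.map (Int.castRingHom ℂ)) ≤
      K * (1 + circleAverage (TT fun j => (A j).map (Int.castRingHom ℂ)) 0 1) →
    lM R + ∑ l ∈ J, (lM (Z (ρ l)) + log |(edge low (Y (ρ l)) : ℝ)|) +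
        sep n (fun i => edeg low (B i)) ≤
      (∑ i, log |(edge low (B i) : ℝ)|) +
        ((q : ℝ) - N - ε) * circleAverage (TT fun j => (A j).map (Int.castRingHom ℂ)) 0 1 + K →
    ((f.map (Int.castRingHom ℂ)).mahlerMeasure = 1 ∨
      μ ≤ (f.map (Int.castRingHom ℂ)).mahlerMeasure) ∧
    circleAverage (TT fun j => (A j).map (Int.castRingHom ℂ)) 0 1 ≤ C1 * (1 + lM f) := by
  classical
  obtain ⟨C0, hC0⟩ : ∃ C0 : ℝ, C0 = (∑ j : Fin N, ((j : ℕ) : ℝ)) * log 4 + log N.factorial + cD L +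
    ((q : ℝ) - N) * log (cA L) + 2 * N * (q + N) := ⟨_, rfl⟩
  have hqN : (0:ℝ) < (q : ℝ) - N := by
    rw [sub_pos]
    exact_mod_cast hq
  have hC00 : 0 ≤ C0 := by
    rw [hC0]
    have h1 : 0 ≤ log 4 := log_nonneg (by norm_num)
    have h2 : 0 ≤ log (N.factorial : ℝ) := log_nonneg (by exact_mod_cast Nat.factorial_pos N)
    have h3 := cD_nonneg L
    have h4 : 0 ≤ ((q : ℝ) - N) * log (cA L) := mul_nonneg hqN.le (log_nonneg (cA_ge L))
    positivity
  have hK0 := abs_nonneg K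
  have hK1 := le_abs_self K
  obtain ⟨T1, hT1⟩ : ∃ T1 : ℝ, T1 = (|K| + C0 + 1) / ε := ⟨_, rfl⟩
  have hT1' : ε * T1 = |K| + C0 + 1 := by
    rw [hT1]
    field_simp
  have hT10 : 0 ≤ T1 := by
    rw [hT1]
    positivity
  obtain ⟨μ, hμ, h⟩ := gap_multi (|K| * (1 + T1 * 2) +
    (N * (T1 * 2) + (q * (T1 * 2) + |K| + C0)))
  refine ⟨min μ (exp 1), T1, lt_min hμ (by
    have := add_one_lt_exp (one_ne_zero (α := ℝ))
    linarith), ?_⟩
  intro J ρ n A B U low f R Y Z hJ hρ hn hAn hU hBU hB0 hd hA hY hf hz hR hK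
  have hnR : (0:ℝ) < n := by exact_mod_cast hn
  -- the parts with multiplicities
  obtain ⟨Y', hY'⟩ : ∃ Y' : Fin N → ℤ[X], Y' = fun i => if i ∈ J.image ρ then Y i else 1 := ⟨_, rfl⟩
  have hYdvd : ∀ i, ∀ k < N, Y' i ∣ th^[k] (A i) := by
    intro i k hk
    rw [hY']
    by_cases hi : i ∈ J.image ρ
    · simp only [hi, if_true]
      obtain ⟨l, hl, rfl⟩ := Finset.mem_image.mp hi
      exact hY l hl k hk
    · simp only [hi, if_false]
      exact one_dvd _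
  obtain ⟨hW0, hWl⟩ := wr_lower3 A B Y' U hN hU hBU low hd hYdvd hB0
  have e1 : ∑ i, lM (Y' i) = ∑ l ∈ J, lM (Y (ρ l)) := by
    rw [← Finset.sum_image (f := fun i => lM (Y i)) hρ]
    rw [← Finset.sum_subset (Finset.subset_univ (J.image ρ))]
    · refine Finset.sum_congr rfl fun i hi => ?_
      rw [hY']
      simp only [hi, if_true]
    · intro i _ hi
      rw [hY']
      simp only [hi, if_false]
      exact lM_one
  have e2 : ∑ i, log |(edge low (Y' i) : ℝ)| = ∑ l ∈ J, log |(edge low (Y (ρ l)) : ℝ)| := by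
    rw [← Finset.sum_image (f := fun i => log |(edge low (Y i) : ℝ)|) hρ]
    rw [← Finset.sum_subset (Finset.subset_univ (J.image ρ))]
    · refine Finset.sum_congr rfl fun i hi => ?_
      rw [hY']
      simp only [hi, if_true]
    · intro i _ hi
      rw [hY']
      simp only [hi, if_false]
      unfold edge
      cases low <;> simp [trailingCoeff]
  rw [e1, e2] at hWl
  have hA0 : ∀ j, A j ≠ 0 := fun j h => hW0 (wr_zero A h)
  have hWc : wr (fun j => (A j).map (Int.castRingHom ℂ)) ≠ 0 := by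
    rw [wr_map]
    exact map_ne hW0
  obtain ⟨g, hg⟩ : ∃ g, g = f * R := ⟨_, rfl⟩
  rw [← hg] at hf
  have hf' : g.map (Int.castRingHom ℂ) =
      ∏ l ∈ Jᶜ, lf (L l) (fun j => (A j).map (Int.castRingHom ℂ)) := hf
  obtain ⟨h1, h2⟩ := smt_trunc hq hN L hL (fun j => (A j).map (Int.castRingHom ℂ)) hn (by
    intro j
    rw [natDeg_map]
    exact hAn j) hWc J ρ hJ (g.map (Int.castRingHom ℂ)) hf'
  have hfc : g.map (Int.castRingHom ℂ) ≠ 0 := by
    rw [hf']
    exact Finset.prod_ne_zero_iff.mpr fun l _ => lf_ne hq.le hN L hL hWc l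
  have hg0 : g ≠ 0 := by
    rintro rfl
    exact hfc (Polynomial.map_zero _)
  have hf0 : f ≠ 0 := by
    rintro rfl
    exact hg0 (by rw [hg, zero_mul])
  have hR0 : R ≠ 0 := by
    rintro rfl
    exact hg0 (by rw [hg, mul_zero])
  have hgM : lM g = lM f + lM R := by
    rw [hg]
    exact lM_mul hf0 hR0
  have hRM : 0 ≤ lM R := lM_nonneg hR0
  rw [wr_map] at h1 h2
  have hsep := sep_eq hn hd
  have hB : BB L (4 * n) = (∑ j : Fin N, ((j : ℕ) : ℝ)) * (log 4 + log n) + log N.factorial + cD L +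
      ((q : ℝ) - N) * log (cA L) := by
    unfold BB
    rw [log_mul (by norm_num) hnR.ne']
  obtain ⟨T, hT⟩ : ∃ T, T = circleAverage (TT fun j => (A j).map (Int.castRingHom ℂ)) 0 1 := ⟨_, rfl⟩
  have hTj : ∀ j, lM (A j) ≤ T := by
    intro j
    rw [hT]
    exact lM_le_TT (A := fun j => (A j).map (Int.castRingHom ℂ)) j
  have hT0 : 0 ≤ T := (lM_nonneg (hA0 ⟨0, hN⟩)).trans (hTj ⟨0, hN⟩)
  rw [← hT] at hK hR h1 ⊢
  have hYZ : ∀ l ∈ J, lM (A (ρ l)) = lM (Y (ρ l)) + lM (Z (ρ l)) := by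
    intro l hl
    have g1 := hA0 (ρ l)
    rw [hA l hl] at g1 ⊢
    exact lM_mul (left_ne_zero_of_mul g1) (right_ne_zero_of_mul g1)
  have h4 : ∑ l ∈ J, lM (A (ρ l)) = ∑ l ∈ J, lM (Y (ρ l)) + ∑ l ∈ J, lM (Z (ρ l)) := by
    rw [← Finset.sum_add_distrib]
    exact Finset.sum_congr rfl hYZ
  have hYn : 0 ≤ ∑ l ∈ J, lM (Y (ρ l)) := Finset.sum_nonneg fun l hl => by
    apply lM_nonneg
    have g1 := hA0 (ρ l)
    rw [hA l hl] at g1
    exact left_ne_zero_of_mul g1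
  have hZn : 0 ≤ ∑ l ∈ J, lM (Z (ρ l)) := Finset.sum_nonneg fun l hl => by
    apply lM_nonneg
    have g1 := hA0 (ρ l)
    rw [hA l hl] at g1
    exact right_ne_zero_of_mul g1
  have hfn : 0 ≤ lM f := lM_nonneg hf0
  rw [Finset.sum_add_distrib] at hK
  have hYe0 : 0 ≤ ∑ l ∈ J, log |(edge low (Y (ρ l)) : ℝ)| := Finset.sum_nonneg fun l hl => by
    apply edge_pos
    have g1 := hA0 (ρ l)
    rw [hA l hl] at g1
    exact left_ne_zero_of_mul g1
  have hYe : ∑ l ∈ J, log |(edge low (Y (ρ l)) : ℝ)| ≤ ∑ l ∈ J, lM (Y (ρ l)) :=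
    Finset.sum_le_sum fun l hl => by
      apply edge_log
      have g1 := hA0 (ρ l)
      rw [hA l hl] at g1
      exact left_ne_zero_of_mul g1
  have hV : 2 * N * (q + N) + BB L (4 * n) - lM (wr A) ≤
      sep n (fun i => edeg low (B i)) + C0 - ∑ l ∈ J, lM (Y (ρ l)) +
        ∑ l ∈ J, log |(edge low (Y (ρ l)) : ℝ)| - ∑ i, log |(edge low (B i) : ℝ)| := by
    rw [hB, hC0]
    linarith
  have hT2 : ε * T ≤ lM f + |K| + C0 := by
    have g2 : ∑ l ∈ J, log ((A (ρ l)).map (Int.castRingHom ℂ)).mahlerMeasure =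
        ∑ l ∈ J, lM (A (ρ l)) := rfl
    have g3 : log ((wr A).map (Int.castRingHom ℂ)).mahlerMeasure = lM (wr A) := rfl
    have g4 : log (g.map (Int.castRingHom ℂ)).mahlerMeasure = lM g := rfl
    rw [g2, g3, g4] at h1
    linarith
  have hT3 : T ≤ T1 * (1 + lM f) := by
    have g1 : ε * T ≤ ε * (T1 * (1 + lM f)) := by
      rw [← mul_assoc, hT1']
      have g2 : 0 ≤ (|K| + C0) * lM f := mul_nonneg (by linarith) hfn
      linarith
    exact le_of_mul_le_mul_left g1 hε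
  refine ⟨?_, hT3⟩
  have hpos := mahler_pos hf0
  rcases le_or_gt 1 (log (f.map (Int.castRingHom ℂ)).mahlerMeasure) with h7 | h7
  · right
    refine (min_le_right _ _).trans ?_
    rwa [← le_log_iff_exp_le hpos]
  have h7' : lM f ≤ 1 := h7.le
  have hT4 : T ≤ T1 * 2 := by
    have : T1 * (1 + lM f) ≤ T1 * 2 := mul_le_mul_of_nonneg_left (by linarith) hT10
    linarith
  have hsK : sep n (fun i => edeg low (B i)) - ∑ i, log |(edge low (B i) : ℝ)| ≤
      q * (T1 * 2) + |K| := by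
    have g1 : ((q : ℝ) - N - ε) * T ≤ q * T :=
      mul_le_mul_of_nonneg_right (by
        have : (0:ℝ) ≤ N := Nat.cast_nonneg N
        linarith) hT0
    have g2 : (q : ℝ) * T ≤ q * (T1 * 2) := mul_le_mul_of_nonneg_left hT4 (Nat.cast_nonneg q)
    linarith
  have hR' : mp (R.map (Int.castRingHom ℂ)) ≤ |K| * (1 + T1 * 2) := by
    refine hR.trans ((mul_le_mul_of_nonneg_right hK1 (by linarith)).trans ?_)
    exact mul_le_mul_of_nonneg_left (by linarith) hK0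
  have h8 : ∀ j, prox f (A j ^ (Jᶜ).card) ≤
      |K| * (1 + T1 * 2) + (N * (T1 * 2) + (q * (T1 * 2) + |K| + C0)) := by
    intro j
    have g1 := h2 j
    have g0 := prox_cof (A j ^ (Jᶜ).card) hg hg0
    have g3 := mul_le_mul_of_nonneg_left hT4 (Nat.cast_nonneg (α := ℝ) N)
    have g5 : prox g (A j ^ (Jᶜ).card) =
        circleAverage (fun x => log⁺ ‖(((A j).map (Int.castRingHom ℂ)) ^ (Jᶜ).card).eval x /
          (g.map (Int.castRingHom ℂ)).eval x‖) 0 1 := by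
      unfold prox
      rw [Polynomial.map_pow]
    have g6 : log ((wr A).map (Int.castRingHom ℂ)).mahlerMeasure = lM (wr A) := rfl
    rw [← hT, g6] at g1
    rw [g5] at g0
    linarith
  have h9 : ∀ z : ℂ, 1 < ‖z‖ → aeval z f = 0 → ∃ j, aeval z (A j ^ (Jᶜ).card) ≠ 0 := by
    intro z hz1 hz2
    obtain ⟨j, hj⟩ := hz z hz1 hz2
    refine ⟨j, ?_⟩
    rw [map_pow]
    exact pow_ne_zero _ hj
  rcases h f N (fun j => A j ^ (Jᶜ).card) hf0 h8 h9 with h10 | h10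
  · exact Or.inl h10
  · exact Or.inr ((min_le_left _ _).trans h10)

end Pool.Agent.Zk21.Ch
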