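import Mathlib
import Pool.Agent.Zk21.ChD
import Pool.Agent.Zk21.ChG

/-!
# The gap for divisors of values of forms, with another basis: the final form
-/

set_option autoImplicit false

open Polynomial Metric Real

namespace Pool.Agent.Zk21.Ch

open Pool.Agent.R328 Pool.Agent.Zk21.Smt Pool.Agent.Zk21.Un Pool.Agent.Zk21.Pt Pool.Agent.Zk21.Ca
open Pool.Agent.Zk21.Cf Pool.Agent.Zk21.Cg

theorem gap_values2 {N q : ℕ} (hN : 0 < N) (S : Finset (Fin N)) (hq : N < S.card + q)
    (L : Fin q → Fin N → ℂ)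
    (hL : ∀ s : Fin N → Fin N ⊕ Fin q, Function.Injective s → (∀ i j, s i = Sum.inl j → j ∈ S) →
      (Matrix.of fun i j => forms L (s i) j).det ≠ 0)
    (K ε : ℝ) (hε : 0 < ε) : ∃ μ C1 : ℝ, 1 < μ ∧ ∀ (n : ℕ) (A B : Fin N → ℤ[X])
    (U : Matrix (Fin N) (Fin N) ℤ) (low : Bool) (f R : ℤ[X]) (Y Z : Fin N → ℤ[X]),
    0 < n → (∀ j, (A j).natDegree ≤ n) → (U.det = 1 ∨ U.det = -1) →
    (∀ i, B i = ∑ j, C (U i j) * A j) → (∀ i, B i ≠ 0) →
    Function.Injective (fun i => edeg low (B i)) →
    (∀ i ∈ S, A i = Y i * Z i) → (∀ i ∈ S, ∀ k < N, Y i ∣ th^[k] (A i)) →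
    (f * R).map (Int.castRingHom ℂ) = ∏ l, ∑ j, C (L l j) * (A j).map (Int.castRingHom ℂ) →
    (∀ z : ℂ, 1 < ‖z‖ → aeval z f = 0 → ∃ j, aeval z (A j) ≠ 0) →
    mp (R.map (Int.castRingHom ℂ)) ≤ K * (1 + ht A) →
    lM R + ∑ i ∈ S, (lM (Z i) + log |(edge low (Y i) : ℝ)|) + sep n (fun i => edeg low (B i)) ≤
      (∑ i, log |(edge low (B i) : ℝ)|) + ((S.card : ℝ) + q - N - ε) * ht A + K →
    ((f.map (Int.castRingHom ℂ)).mahlerMeasure = 1 ∨
      μ ≤ (f.map (Int.castRingHom ℂ)).mahlerMeasure) ∧ ht A ≤ C1 * (1 + lM f) := by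
  have : Nonempty (Fin N) := ⟨⟨0, hN⟩⟩
  classical
  set τ : Fin (S.card + q) → Fin N ⊕ Fin q :=
    Fin.addCases (fun i => Sum.inl (S.orderEmbOfFin rfl i)) Sum.inr with hτ
  have τ1 : ∀ i, τ (Fin.castAdd q i) = Sum.inl (S.orderEmbOfFin rfl i) := fun i => by
    rw [hτ]
    exact Fin.addCases_left i
  have τ2 : ∀ i, τ (Fin.natAdd S.card i) = Sum.inr i := fun i => by
    rw [hτ]
    exact Fin.addCases_right i
  have τinj : Function.Injective τ := by
    intro a b
    induction a using Fin.addCases with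
    | left i =>
      induction b using Fin.addCases with
      | left j =>
        rw [τ1, τ1]
        intro h
        rw [(S.orderEmbOfFin rfl).injective (Sum.inl.inj h)]
      | right j =>
        rw [τ1, τ2]
        intro h
        exact absurd h (by simp)
    | right i =>
      induction b using Fin.addCases with
      | left j =>
        rw [τ1, τ2]
        intro h
        exact absurd h (by simp)
      | right j =>
        rw [τ2, τ2]
        intro h
        rw [Sum.inr.inj h]
  have τS : ∀ l j, τ l = Sum.inl j → j ∈ S := by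
    intro l j
    induction l using Fin.addCases with
    | left i =>
      rw [τ1]
      intro h
      rw [← Sum.inl.inj h]
      exact S.orderEmbOfFin_mem rfl i
    | right i =>
      rw [τ2]
      intro h
      exact absurd h (by simp)
  set L' : Fin (S.card + q) → Fin N → ℂ := fun l => forms L (τ l) with hL'
  set ρ : Fin (S.card + q) → Fin N := fun l => Sum.elim id (fun _ => ⟨0, hN⟩) (τ l) with hρ
  set J : Finset (Fin (S.card + q)) := Finset.univ.image (Fin.castAdd q) with hJ
  have memJ : ∀ l, l ∈ J ↔ ∃ i : Fin S.card, Fin.castAdd q i = l := by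
    intro l
    rw [hJ, Finset.mem_image]
    simp
  have ρ1 : ∀ i, ρ (Fin.castAdd q i) = S.orderEmbOfFin rfl i := fun i => by
    rw [hρ]
    simp only [τ1, Sum.elim_inl, id_eq]
  have ρJ : Set.InjOn ρ J := by
    intro a ha b hb hab
    obtain ⟨i, rfl⟩ := (memJ a).mp ha
    obtain ⟨j, rfl⟩ := (memJ b).mp hb
    rw [ρ1, ρ1] at hab
    rw [(S.orderEmbOfFin rfl).injective hab]
  have hρS : J.image ρ = S := by
    ext j
    rw [Finset.mem_image]
    constructor
    · rintro ⟨l, hl, rfl⟩
      obtain ⟨i, rfl⟩ := (memJ l).mp hl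
      rw [ρ1]
      exact S.orderEmbOfFin_mem rfl i
    · intro hj
      have h1 : j ∈ Set.range (S.orderEmbOfFin rfl) := by
        rw [Finset.range_orderEmbOfFin]
        exact hj
      obtain ⟨i, hi⟩ := h1
      exact ⟨Fin.castAdd q i, (memJ _).mpr ⟨i, rfl⟩, by rw [ρ1, hi]⟩
  have hsum : ∀ φ : Fin N → ℝ, ∑ l ∈ J, φ (ρ l) = ∑ i ∈ S, φ i := by
    intro φ
    have h1 := Finset.sum_image (f := φ) ρJ
    rw [hρS] at h1
    exact h1.symm
  have hρmem : ∀ l ∈ J, ρ l ∈ S := by
    intro l hl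
    rw [← hρS]
    exact Finset.mem_image_of_mem ρ hl
  have hLJ : ∀ l ∈ J, L' l = Pi.single (ρ l) 1 := by
    intro l hl
    obtain ⟨i, rfl⟩ := (memJ l).mp hl
    rw [hL', ρ1]
    simp only [τ1]
    rfl
  have hJc : ∀ φ : Fin (S.card + q) → ℂ[X], ∏ l ∈ Jᶜ, φ l = ∏ l, φ (Fin.natAdd S.card l) := by
    intro φ
    have h1 : Jᶜ = Finset.univ.image (Fin.natAdd S.card : Fin q → Fin (S.card + q)) := by
      ext l
      rw [Finset.mem_compl, memJ, Finset.mem_image]
      induction l using Fin.addCases with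
      | left i =>
        constructor
        · intro h
          exact absurd ⟨i, rfl⟩ h
        · rintro ⟨j, -, hj⟩
          have := congrArg Fin.val hj
          rw [Fin.val_natAdd, Fin.val_castAdd] at this
          have := i.2
          omega
      | right i =>
        constructor
        · intro _
          exact ⟨i, Finset.mem_univ _, rfl⟩
        · rintro _ ⟨j, hj⟩
          have := congrArg Fin.val hj
          rw [Fin.val_natAdd, Fin.val_castAdd] at this
          have := j.2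
          omega
    rw [h1, Finset.prod_image fun a _ b _ h => Fin.natAdd_injective _ _ h]
  have hcast : ((S.card + q : ℕ) : ℝ) = (S.card : ℝ) + q := by push_cast; ring
  obtain ⟨μ, C1, hμ, h⟩ := gap_div2 hN hq L' (by
    intro s hs
    refine hL (fun i => τ (s i)) (τinj.comp hs) ?_
    intro i j hij
    exact τS _ _ hij) K ε hε
  refine ⟨μ, C1, hμ, ?_⟩
  intro n A B U low f R Y Z hn hAn hU hBU hB0 hd hA hY hf hz hR hK
  rw [ht_eq] at hR hK ⊢
  refine h J ρ n A B U low f R Y Z hLJ ρJ hn hAn hU hBU hB0 hd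
    (fun l hl => hA _ (hρmem l hl)) (fun l hl => hY _ (hρmem l hl)) ?_ hz hR ?_
  · rw [hf, hJc]
    refine Finset.prod_congr rfl fun l _ => ?_
    rw [hL']
    simp only [τ2]
    rfl
  · rw [hsum fun i => lM (Z i) + log |(edge low (Y i) : ℝ)|, hcast]
    exact hK

end Pool.Agent.Zk21.Ch
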