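import Mathlib
import Pool.Agent.R328.PH

/-!
# The root squaring transform of an integer polynomial
-/

set_option autoImplicit false

open Finset Polynomial Pool.Agent.H388SL Pool.Agent.Y947.DL

namespace Pool.Agent.Zk21

/-- the even part -/
noncomputable def ev (P : ℤ[X]) : ℤ[X] := contract 2 P

/-- the odd part -/
noncomputable def od (P : ℤ[X]) : ℤ[X] := contract 2 (divX P)

lemma split_eo (P : ℤ[X]) : expand ℤ 2 (ev P) + X * expand ℤ 2 (od P) = P := by
  ext n
  rw [coeff_add, coeff_expand (by norm_num : 0 < 2)]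
  rcases n with _ | m
  · rw [coeff_zero_eq_eval_zero (X * _), eval_mul, eval_X, zero_mul, add_zero]
    simp [ev, coeff_contract]
  · rw [coeff_X_mul, coeff_expand (by norm_num : 0 < 2)]
    unfold ev od
    rw [coeff_contract (by norm_num), coeff_contract (by norm_num), coeff_divX]
    by_cases h : 2 ∣ m + 1
    · have h2 : ¬ 2 ∣ m := by omega
      rw [if_pos h, if_neg h2, add_zero, Nat.div_mul_cancel h]
    · have h2 : 2 ∣ m := by omega
      rw [if_neg h, if_pos h2, zero_add, Nat.div_mul_cancel h2]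

/-- the polynomial `P(-X)` -/
noncomputable def ng (P : ℤ[X]) : ℤ[X] := P.comp (-X)

/-- the root squaring transform -/
noncomputable def gr (P : ℤ[X]) : ℤ[X] := ev P ^ 2 - X * od P ^ 2

lemma ng_mul (P Q : ℤ[X]) : ng (P * Q) = ng P * ng Q := by
  unfold ng; rw [mul_comp]

lemma ng_pow (P : ℤ[X]) (k : ℕ) : ng (P ^ k) = ng P ^ k := by
  unfold ng; rw [pow_comp]

lemma ng_ng (P : ℤ[X]) : ng (ng P) = P := by
  unfold ng
  rw [comp_assoc, neg_comp, X_comp, neg_neg, comp_X]

lemma ng_expand (P : ℤ[X]) : ng (expand ℤ 2 P) = expand ℤ 2 P := by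
  unfold ng
  rw [expand_eq_comp_X_pow, comp_assoc, X_pow_comp]
  congr 1
  ring

lemma aeval_ng (P : ℤ[X]) (z : ℂ) : aeval z (ng P) = aeval (-z) P := by
  unfold ng
  rw [aeval_comp]
  simp

lemma expand_gr (P : ℤ[X]) : expand ℤ 2 (gr P) = P * ng P := by
  have h1 := split_eo P
  set A := expand ℤ 2 (ev P) with hA
  set B := expand ℤ 2 (od P) with hB
  have h2 : ng P = A - X * B := by
    rw [← h1]
    have e : ng (A + X * B) = ng A + ng X * ng B := by
      unfold ng; rw [add_comp, mul_comp]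
    have e2 : ng X = -X := by unfold ng; rw [X_comp]
    rw [e, hA, hB, ng_expand, ng_expand, e2]
    ring
  have h3 : expand ℤ 2 (gr P) = A ^ 2 - X ^ 2 * B ^ 2 := by
    unfold gr
    rw [map_sub, map_mul, map_pow, map_pow, expand_X]
  have h4 : P * (A - X * B) = (A + X * B) * (A - X * B) := by rw [h1]
  rw [h3, h2, h4]
  ring

lemma gr_eq_of {P Q : ℤ[X]} (h : expand ℤ 2 Q = P * ng P) : gr P = Q :=
  expand_injective (by norm_num : 0 < 2) ((expand_gr P).trans h.symm)

lemma gr_mul (P Q : ℤ[X]) : gr (P * Q) = gr P * gr Q := by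
  apply gr_eq_of
  rw [map_mul, expand_gr, expand_gr, ng_mul]
  ring

lemma gr_one : gr 1 = 1 := by
  apply gr_eq_of
  unfold ng
  simp

lemma gr_pow (P : ℤ[X]) (k : ℕ) : gr (P ^ k) = gr P ^ k := by
  induction k with
  | zero => rw [pow_zero, pow_zero, gr_one]
  | succ k ih => rw [pow_succ, gr_mul, ih, pow_succ]

lemma gr_expand (P : ℤ[X]) : gr (expand ℤ 2 P) = P ^ 2 := by
  apply gr_eq_of
  rw [ng_expand, map_pow, sq]

lemma ng_ne_zero {P : ℤ[X]} (hP : P ≠ 0) : ng P ≠ 0 := by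
  intro h
  apply hP
  rw [← ng_ng P, h]
  unfold ng
  simp

lemma gr_ne_zero {P : ℤ[X]} (hP : P ≠ 0) : gr P ≠ 0 := by
  intro h
  have h1 := expand_gr P
  rw [h, map_zero] at h1
  exact (mul_ne_zero hP (ng_ne_zero hP)) h1.symm

lemma natDegree_ng (P : ℤ[X]) : (ng P).natDegree = P.natDegree := by
  unfold ng
  rw [natDegree_comp]
  simp

lemma natDegree_gr (P : ℤ[X]) : (gr P).natDegree = P.natDegree := by
  by_cases hP : P = 0
  · subst hP
    have : gr 0 = 0 := by
      apply gr_eq_of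
      simp
    rw [this]
  have h1 := congrArg natDegree (expand_gr P)
  rw [natDegree_expand, natDegree_mul hP (ng_ne_zero hP), natDegree_ng] at h1
  omega

lemma aeval_gr_sq (P : ℤ[X]) (w : ℂ) : aeval (w ^ 2) (gr P) = aeval w P * aeval (-w) P := by
  rw [← expand_aeval, expand_gr, map_mul, aeval_ng]

/-- Mahler measures -/
lemma log_MM_eq (P : ℤ[X]) :
    Real.circleAverage (fun z : ℂ => Real.log ‖aeval z P‖) 0 1 = Real.log (MM P) := by
  have h1 : ∀ z : ℂ, aeval z P = (P.map (Int.castRingHom ℂ)).eval z := fun z => by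
    rw [Polynomial.aeval_def, Polynomial.eval_map]; rfl
  rw [MM, ← logMahlerMeasure_eq_log_MahlerMeasure, logMahlerMeasure_def]
  simp only [h1]

lemma MM_ng (P : ℤ[X]) : MM (ng P) = MM P := by
  by_cases hP : P = 0
  · subst hP
    unfold ng; simp
  have h1 : Real.log (MM (ng P)) = Real.log (MM P) := by
    rw [← log_MM_eq, ← log_MM_eq]
    have h2 := Pool.Agent.R328.circleAverage_rot (φ := fun z : ℂ => Real.log ‖aeval z P‖)
      (ζ := -1) (by simp)
    rw [← h2]
    congr 1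
    ext z
    rw [aeval_ng, neg_one_mul]
  have h2 := MM_pos hP
  have h3 := MM_pos (ng_ne_zero hP)
  rw [← Real.exp_log h2, ← Real.exp_log h3, h1]

lemma MM_gr (P : ℤ[X]) : MM (gr P) = MM P ^ 2 := by
  rw [← MM_expand (by norm_num : 0 < 2), expand_gr, MM_mul, MM_ng, sq]

lemma MM_pow (P : ℤ[X]) (k : ℕ) : MM (P ^ k) = MM P ^ k := by
  induction k with
  | zero =>
    rw [pow_zero, pow_zero]
    unfold MM
    simp
  | succ k ih => rw [pow_succ, MM_mul, ih, pow_succ]

lemma MM_le_of_dvd {P Q : ℤ[X]} (h : P ∣ Q) (hQ : Q ≠ 0) : MM P ≤ MM Q := by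
  obtain ⟨R, rfl⟩ := h
  rw [MM_mul]
  exact le_mul_of_one_le_right (zero_le_one.trans (one_le_MM (left_ne_zero_of_mul hQ)))
    (one_le_MM (right_ne_zero_of_mul hQ))

/-- the operator used for the companions -/
noncomputable def TT (P : ℤ[X]) : ℤ[X] := gr P * ng (gr P) * ng P

lemma TT_mul (P Q : ℤ[X]) : TT (P * Q) = TT P * TT Q := by
  unfold TT
  rw [gr_mul, ng_mul, ng_mul]
  ring

lemma TT_pow (P : ℤ[X]) (k : ℕ) : TT (P ^ k) = TT P ^ k := by
  unfold TT
  rw [gr_pow, ng_pow, ng_pow]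
  ring

lemma TT_ne_zero {P : ℤ[X]} (hP : P ≠ 0) : TT P ≠ 0 :=
  mul_ne_zero (mul_ne_zero (gr_ne_zero hP) (ng_ne_zero (gr_ne_zero hP))) (ng_ne_zero hP)

lemma natDegree_TT {P : ℤ[X]} (hP : P ≠ 0) : (TT P).natDegree = 3 * P.natDegree := by
  unfold TT
  rw [natDegree_mul (mul_ne_zero (gr_ne_zero hP) (ng_ne_zero (gr_ne_zero hP))) (ng_ne_zero hP),
    natDegree_mul (gr_ne_zero hP) (ng_ne_zero (gr_ne_zero hP)), natDegree_ng, natDegree_ng, natDegree_gr]
  omega

lemma MM_TT (P : ℤ[X]) : MM (TT P) = MM P ^ 5 := by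
  unfold TT
  rw [MM_mul, MM_mul, MM_ng, MM_ng, MM_gr]
  ring

lemma aeval_TT (P : ℤ[X]) (z : ℂ) :
    aeval z (TT P) = aeval z (gr P) * aeval (-z) (gr P) * aeval (-z) P := by
  unfold TT
  rw [map_mul, map_mul, aeval_ng, aeval_ng]

end Pool.Agent.Zk21
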