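import Mathlib
import Pool.Agent.Zk21.GrA

/-!
# Integer polynomials of Mahler measure one divide their image
-/

set_option autoImplicit false

open Finset Polynomial Pool.Agent.H388SL Pool.Agent.Y947.DL

namespace Pool.Agent.Zk21

/-- a square root of a root of unity of odd order -/
lemma exists_sqrt {v : ℂ} {m : ℕ} (hv : IsPrimitiveRoot v m) (hm : Odd m) :
    ∃ w : ℂ, w ^ 2 = v ∧ IsPrimitiveRoot w m := by
  obtain ⟨k, hk⟩ := hm
  refine ⟨v ^ (k + 1), ?_, ?_⟩
  · rw [← pow_mul]
    have e : (k + 1) * 2 = m + 1 := by omega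
    rw [e, pow_succ, hv.pow_eq_one, one_mul]
  · apply hv.pow_of_coprime
    have h1 : Nat.Coprime (k + 1) (2 * k + 1) := by
      rw [← Nat.isCoprime_iff_coprime]
      exact ⟨2, -1, by push_cast; ring⟩
    rw [hk]
    exact h1

lemma prim_neg_four {z : ℂ} {m : ℕ} (hz : IsPrimitiveRoot z m) (hm : 4 ∣ m) :
    IsPrimitiveRoot (-z) m := by
  obtain ⟨k, hk⟩ := hm
  refine IsPrimitiveRoot.mk ?_ ?_
  · rw [Even.neg_pow ⟨2 * k, by omega⟩]
    exact hz.pow_eq_one
  · intro l hl
    rcases Nat.even_or_odd l with h | h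
    · rw [h.neg_pow] at hl
      exact hz.dvd_of_pow_eq_one l hl
    · exfalso
      rw [h.neg_pow] at hl
      have h1 : z ^ (2 * l) = 1 := by
        rw [mul_comm, pow_mul]
        have : z ^ l = -1 := by linear_combination -hl
        rw [this]; norm_num
      have h2 := hz.dvd_of_pow_eq_one _ h1
      have h3 : 4 ∣ 2 * l := dvd_trans ⟨k, hk⟩ h2
      obtain ⟨j, hj⟩ := h
      omega

lemma prim_neg_two {z : ℂ} {m : ℕ} (hm : Odd m) (hz : IsPrimitiveRoot z (2 * m)) :
    IsPrimitiveRoot (-z) m := by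
  have hm0 : 0 < m := hm.pos
  refine IsPrimitiveRoot.mk ?_ ?_
  · rw [hm.neg_pow]
    have h1 : z ^ m * z ^ m = 1 := by
      rw [← pow_add]
      have : m + m = 2 * m := by ring
      rw [this]; exact hz.pow_eq_one
    rcases mul_self_eq_one_iff.mp h1 with h | h
    · exfalso
      have := hz.dvd_of_pow_eq_one _ h
      have := Nat.le_of_dvd hm0 this
      omega
    · rw [h, neg_neg]
  · intro l hl
    have h1 : z ^ (2 * l) = 1 := by
      have h2 : (-z) ^ (2 * l) = 1 := by rw [mul_comm, pow_mul, hl, one_pow]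
      rwa [Even.neg_pow ⟨l, by ring⟩] at h2
    have h2 := hz.dvd_of_pow_eq_one _ h1
    exact Nat.dvd_of_mul_dvd_mul_left (by norm_num) h2

lemma prim_neg_odd {v : ℂ} {m : ℕ} (hm : Odd m) (hv : IsPrimitiveRoot v m) :
    IsPrimitiveRoot (-v) (2 * m) := by
  refine IsPrimitiveRoot.mk ?_ ?_
  · rw [Even.neg_pow ⟨m, by ring⟩, mul_comm, pow_mul, hv.pow_eq_one, one_pow]
  · intro l hl
    have h1 : v ^ (2 * l) = 1 := by
      have h2 : (-v) ^ (2 * l) = 1 := by rw [mul_comm, pow_mul, hl, one_pow]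
      rwa [Even.neg_pow ⟨l, by ring⟩] at h2
    have h2 : m ∣ l := (Nat.Coprime.dvd_of_dvd_mul_left (hm.coprime_two_right)
      (hv.dvd_of_pow_eq_one _ h1))
    rcases Nat.even_or_odd l with h | h
    · exact Nat.Coprime.mul_dvd_of_dvd_of_dvd (Nat.coprime_two_left.mpr hm) h.two_dvd h2
    · exfalso
      rw [h.neg_pow] at hl
      obtain ⟨j, hj⟩ := h2
      rw [hj, pow_mul, hv.pow_eq_one, one_pow] at hl
      norm_num at hl

lemma cyclotomic_dvd {m : ℕ} (hm : 0 < m) {z : ℂ} (hz : IsPrimitiveRoot z m) {P : ℤ[X]}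
    (h : aeval z P = 0) : cyclotomic m ℤ ∣ P := by
  rw [cyclotomic_eq_minpoly hz hm]
  exact minpoly.isIntegrallyClosed_dvd (hz.isIntegral hm) h

lemma cyclotomic_root {m : ℕ} (hm : 0 < m) {z : ℂ} (hz : IsPrimitiveRoot z m) :
    aeval z (cyclotomic m ℤ) = 0 := by
  rw [cyclotomic_eq_minpoly hz hm]
  exact minpoly.aeval _ _

lemma cyclotomic_dvd_TT {m : ℕ} (hm : 0 < m) : cyclotomic m ℤ ∣ TT (cyclotomic m ℤ) := by
  have : NeZero m := ⟨hm.ne'⟩
  have hz : IsPrimitiveRoot (Complex.exp (2 * Real.pi * Complex.I / m)) m :=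
    Complex.isPrimitiveRoot_exp m hm.ne'
  set z := Complex.exp (2 * Real.pi * Complex.I / m)
  apply cyclotomic_dvd hm hz
  rw [aeval_TT]
  rcases Nat.even_or_odd m with h | h
  · obtain ⟨k, hk⟩ := h
    rcases Nat.even_or_odd k with h' | h'
    · have h4 : 4 ∣ m := by
        obtain ⟨j, hj⟩ := h'
        exact ⟨j, by omega⟩
      rw [cyclotomic_root hm (prim_neg_four hz h4), mul_zero]
    · have hm2 : m = 2 * k := by omega
      have hz2 : IsPrimitiveRoot z (2 * k) := by rw [← hm2]; exact hz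
      obtain ⟨w, hw, hwp⟩ := exists_sqrt (prim_neg_two h' hz2) h'
      have h1 : aeval (-z) (gr (cyclotomic m ℤ)) = 0 := by
        rw [← hw, aeval_gr_sq]
        have h2 := prim_neg_odd h' hwp
        rw [← hm2] at h2
        rw [cyclotomic_root hm h2, mul_zero]
      rw [h1, mul_zero, zero_mul]
  · obtain ⟨w, hw, hwp⟩ := exists_sqrt hz h
    have h1 : aeval z (gr (cyclotomic m ℤ)) = 0 := by
      rw [← hw, aeval_gr_sq, cyclotomic_root hm hwp, zero_mul]
    rw [h1, zero_mul, zero_mul]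

lemma prime_dvd_TT {P : ℤ[X]} (hP : Prime P) (hM : MM P = 1) : P ∣ TT P := by
  have hirr := hP.irreducible
  by_cases hX : X ∣ P
  · obtain ⟨Q, hQ⟩ := hX
    have hQu : IsUnit Q := by
      rcases hirr.isUnit_or_isUnit hQ with h | h
      · exact absurd h not_isUnit_X
      · exact h
    have h1 : (X : ℤ[X]) ∣ TT P := by
      rw [X_dvd_iff, coeff_zero_eq_aeval_zero]
      have h2 : aeval (0:ℂ) (TT P) = 0 := by
        rw [aeval_TT, neg_zero, hQ]
        simp
      rw [Polynomial.aeval_def, Polynomial.eval₂_at_zero] at h2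
      rw [← coeff_zero_eq_aeval_zero]
      simpa using h2
    rw [hQ]
    rw [hQ] at h1
    exact (hQu.mul_right_dvd).mpr h1
  · by_cases hd : P.degree = 0
    · -- constants
      obtain ⟨a, ha⟩ : ∃ a : ℤ, P = C a := ⟨P.coeff 0, eq_C_of_degree_eq_zero hd⟩
      exfalso
      have h1 : MM P = |(a:ℝ)| := by
        rw [ha, MM, Polynomial.map_C, mahlerMeasure_const, eq_intCast, Complex.norm_intCast]
      rw [hM] at h1
      have h2 : |a| = 1 := by exact_mod_cast h1.symm
      apply hP.not_isUnit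
      rw [ha, isUnit_C]
      exact Int.isUnit_iff_abs_eq.mpr h2
    · obtain ⟨m, hm, hdvd⟩ := cyclotomic_dvd_of_mahlerMeasure_eq_one hM hX hd
      have h1 : Associated (cyclotomic m ℤ) P :=
        (cyclotomic.irreducible hm).associated_of_dvd hirr hdvd
      obtain ⟨u, hu⟩ := h1
      rw [← hu, TT_mul]
      exact mul_dvd_mul (cyclotomic_dvd_TT hm) (u.isUnit.dvd)

/-- integer polynomials of Mahler measure one divide their image -/
lemma dvd_TT {P : ℤ[X]} (hM : MM P = 1) : P ∣ TT P := by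
  have hP0 : P ≠ 0 := by
    rintro rfl
    unfold MM at hM
    simp at hM
  revert hM
  induction P using UniqueFactorizationMonoid.induction_on_prime with
  | h₁ => exact absurd rfl hP0
  | h₂ x hx => intro _; exact hx.dvd
  | h₃ a p ha hp ih =>
    intro hM
    rw [MM_mul] at hM
    have h1 := one_le_MM ha
    have h2 := one_le_MM hp.ne_zero
    have h3 : MM a = 1 := by nlinarith
    have h4 : MM p = 1 := by rw [h3, mul_one] at hM; exact hM
    rw [TT_mul]
    exact mul_dvd_mul (prime_dvd_TT hp h4) (ih ha h3)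

end Pool.Agent.Zk21
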