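import Mathlib
import Pool.Agent.Zk21.GrB

/-!
# Lower bounds from the size of a multiple by a polynomial of Mahler measure one
-/

set_option autoImplicit false

open Finset Polynomial Metric Pool.Agent.H388SL Pool.Agent.Y947.DL Pool.Agent.R328

namespace Pool.Agent.Zk21

/-- mean of the positive part of the logarithm -/
noncomputable def lp (P : ℤ[X]) : ℝ :=
  Real.circleAverage (fun z : ℂ => Real.posLog ‖aeval z P‖) 0 1

lemma plog_cont (P : ℤ[X]) : Continuous (fun z : ℂ => Real.posLog ‖aeval z P‖) :=
  Real.continuous_posLog.comp (aeval_cont P).norm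

lemma plog_int (P : ℤ[X]) : CircleIntegrable (fun z : ℂ => Real.posLog ‖aeval z P‖) 0 1 :=
  ContinuousOn.circleIntegrable' (plog_cont P).continuousOn

lemma lp_nonneg (P : ℤ[X]) : 0 ≤ lp P :=
  Real.circleAverage_nonneg_of_nonneg fun _ _ => Real.posLog_nonneg

lemma plog_neg_int (P : ℤ[X]) : CircleIntegrable (fun z : ℂ => Real.posLog ‖aeval (-z) P‖) 0 1 :=
  ContinuousOn.circleIntegrable' ((plog_cont P).comp continuous_neg).continuousOn

lemma lp_neg (P : ℤ[X]) :
    Real.circleAverage (fun z : ℂ => Real.posLog ‖aeval (-z) P‖) 0 1 = lp P := by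
  have h := circleAverage_rot (φ := fun z : ℂ => Real.posLog ‖aeval z P‖) (ζ := -1) (by simp)
  unfold lp
  rw [← h]
  congr 1
  ext z
  rw [neg_one_mul]

lemma lp_gr_le (P : ℤ[X]) : lp (gr P) ≤ 2 * lp P := by
  have h1 := circleAverage_pow' (plog_cont (gr P)).continuousOn (by norm_num : 0 < 2)
  have h2 : lp (gr P) = Real.circleAverage (fun z : ℂ => Real.posLog ‖aeval (z ^ 2) (gr P)‖) 0 1 := h1.symm
  rw [h2]
  have h3 : Real.circleAverage (fun z : ℂ => Real.posLog ‖aeval (z ^ 2) (gr P)‖) 0 1 ≤
      Real.circleAverage (fun z : ℂ => Real.posLog ‖aeval z P‖ + Real.posLog ‖aeval (-z) P‖) 0 1 := by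
    apply Real.circleAverage_mono
    · apply ContinuousOn.circleIntegrable'
      exact ((plog_cont (gr P)).comp (continuous_pow 2)).continuousOn
    · exact (plog_int P).add (plog_neg_int P)
    · intro z _
      rw [aeval_gr_sq, norm_mul]
      exact Real.posLog_mul
  refine h3.trans (le_of_eq ?_)
  rw [Real.circleAverage_fun_add (plog_int P) (plog_neg_int P), lp_neg]
  unfold lp
  ring

/-- the mean of the companion pair -/
lemma PM_le {f Φ H : ℤ[X]} {e : ℕ} (hf : f ≠ 0) (hΦ0 : Φ ≠ 0) (hΦ : MM Φ = 1)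
    (hH : H * Φ = TT (f ^ e * Φ)) :
    Real.circleAverage (PM f H e) 0 1 ≤ 6 * lp (f ^ e * Φ) := by
  set F := f ^ e * Φ with hF
  have hlp0 := lp_nonneg F
  by_cases hI : CircleIntegrable (PM f H e) 0 1
  · have hinj : Function.Injective (Int.castRingHom ℂ) := (Int.castRingHom ℂ).injective_int
    have hev : ∀ (P : ℤ[X]) (z : ℂ), aeval z P = (P.map (Int.castRingHom ℂ)).eval z := fun P z => by
      rw [Polynomial.aeval_def, Polynomial.eval_map]; rfl
    -- integrability
    have hiΦ : CircleIntegrable (fun z : ℂ => Real.log ‖aeval z Φ‖) 0 1 := by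
      apply MeromorphicOn.circleIntegrable_log_norm
      intro z _
      have hd : Differentiable ℂ (fun z : ℂ => aeval z Φ) := by
        have : (fun z : ℂ => aeval z Φ) = fun z => (Φ.map (Int.castRingHom ℂ)).eval z := by
          ext z; exact hev Φ z
        rw [this]
        exact Polynomial.differentiable _
      exact (hd.analyticAt z).meromorphicAt
    have hi1 := plog_int F
    have hi2 := plog_neg_int F
    have hi3 := plog_int (gr F)
    have hi4 := plog_neg_int (gr F)
    have hle : Real.circleAverage (PM f H e + fun z : ℂ => Real.log ‖aeval z Φ‖) 0 1 ≤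
        Real.circleAverage ((fun z : ℂ => Real.posLog ‖aeval z F‖) +
          ((fun z : ℂ => Real.posLog ‖aeval z (gr F)‖) +
          ((fun z : ℂ => Real.posLog ‖aeval (-z) (gr F)‖) +
          fun z : ℂ => Real.posLog ‖aeval (-z) F‖))) 0 1 := by
      set Z : Set ℂ := {z | (Φ.map (Int.castRingHom ℂ)).IsRoot z} ∪ {z | (f.map (Int.castRingHom ℂ)).IsRoot z}
        with hZ
      have hZc : Z.Countable := by
        apply Set.Countable.union
        · exact (Polynomial.finite_setOfPred_isRoot ((Polynomial.map_ne_zero_iff hinj).mpr hΦ0)).countable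
        · exact (Polynomial.finite_setOfPred_isRoot ((Polynomial.map_ne_zero_iff hinj).mpr hf)).countable
      apply circleAverage_mono_off (Z := Z) (hI.add hiΦ) (hi1.add (hi3.add (hi4.add hi2))) hZc
      intro z _ hz
      rw [hZ, Set.mem_union, not_or] at hz
      have hz1 : aeval z Φ ≠ 0 := by
        rw [hev]; exact hz.1
      have hz2 : aeval z f ≠ 0 := by
        rw [hev]; exact hz.2
      have hn1 : 0 < ‖aeval z Φ‖ := norm_pos_iff.mpr hz1
      have hn2 : 0 < ‖aeval z f‖ := norm_pos_iff.mpr hz2
      have hmax : 0 < max (‖aeval z f‖ ^ e) ‖aeval z H‖ := lt_of_lt_of_le (by positivity) (le_max_left _ _)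
      simp only [Pi.add_apply]
      unfold PM
      rw [← Real.log_mul hmax.ne' hn1.ne', max_mul_of_nonneg _ _ hn1.le]
      have e1 : ‖aeval z f‖ ^ e * ‖aeval z Φ‖ = ‖aeval z F‖ := by
        rw [hF, map_mul, map_pow, norm_mul, norm_pow]
      have e2 : ‖aeval z H‖ * ‖aeval z Φ‖ = ‖aeval z (gr F)‖ * ‖aeval (-z) (gr F)‖ * ‖aeval (-z) F‖ := by
        rw [← norm_mul, ← map_mul, hH, aeval_TT, norm_mul, norm_mul]
      rw [e1, e2]
      have hF0 : 0 < ‖aeval z F‖ := by rw [← e1]; positivity
      have p1 : Real.log ‖aeval z F‖ ≤ Real.posLog ‖aeval z F‖ := le_max_right _ _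
      have p2 : Real.posLog (‖aeval z (gr F)‖ * ‖aeval (-z) (gr F)‖ * ‖aeval (-z) F‖) ≤
          Real.posLog ‖aeval z (gr F)‖ + (Real.posLog ‖aeval (-z) (gr F)‖ +
            Real.posLog ‖aeval (-z) F‖) := by
        refine Real.posLog_mul.trans ?_
        have := Real.posLog_mul (x := ‖aeval z (gr F)‖) (y := ‖aeval (-z) (gr F)‖)
        linarith
      have q1 : 0 ≤ Real.posLog ‖aeval z F‖ := Real.posLog_nonneg
      have q2 : 0 ≤ Real.posLog ‖aeval z (gr F)‖ := Real.posLog_nonneg
      have q3 : 0 ≤ Real.posLog ‖aeval (-z) (gr F)‖ := Real.posLog_nonneg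
      have q4 : 0 ≤ Real.posLog ‖aeval (-z) F‖ := Real.posLog_nonneg
      rcases le_total ‖aeval z F‖ (‖aeval z (gr F)‖ * ‖aeval (-z) (gr F)‖ * ‖aeval (-z) F‖) with h | h
      · rw [max_eq_right h]
        have p3 : Real.log (‖aeval z (gr F)‖ * ‖aeval (-z) (gr F)‖ * ‖aeval (-z) F‖) ≤
            Real.posLog (‖aeval z (gr F)‖ * ‖aeval (-z) (gr F)‖ * ‖aeval (-z) F‖) := le_max_right _ _
        linarith
      · rw [max_eq_left h]
        linarith
    rw [Real.circleAverage_add hI hiΦ, Real.circleAverage_add hi1 (hi3.add (hi4.add hi2)),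
      Real.circleAverage_add hi3 (hi4.add hi2), Real.circleAverage_add hi4 hi2, log_MM_eq, hΦ,
      Real.log_one, lp_neg, lp_neg] at hle
    have h1 := lp_gr_le F
    have e1 : Real.circleAverage (fun z : ℂ => Real.posLog ‖aeval z F‖) 0 1 = lp F := rfl
    have e2 : Real.circleAverage (fun z : ℂ => Real.posLog ‖aeval z (gr F)‖) 0 1 = lp (gr F) := rfl
    rw [e1, e2] at hle
    linarith
  · unfold Real.circleAverage
    rw [intervalIntegral.integral_undef hI, smul_zero]
    positivity

lemma MM_eq_one_of_dvd {f P : ℤ[X]} (h : f ∣ P) (hP : MM P = 1) : MM f = 1 := by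
  have hP0 : P ≠ 0 := by
    rintro rfl
    unfold MM at hP
    simp at hP
  have hf0 : f ≠ 0 := by
    rintro rfl
    exact hP0 (zero_dvd_iff.mp h)
  apply le_antisymm _ (one_le_MM hf0)
  rw [← hP]
  exact MM_le_of_dvd h hP0

/-- the leading coefficient and the constant coefficient of a polynomial of small measure -/
lemma abs_lead_eq {f : ℤ[X]} (hf : f ≠ 0) (hM : MM f < 2) : |f.leadingCoeff| = 1 := by
  have h1 : 1 ≤ |f.leadingCoeff| := Int.one_le_abs (leadingCoeff_ne_zero.mpr hf)
  have h3 := leadingCoeff_le_MM f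
  by_contra hne
  have h2 : 2 ≤ |f.leadingCoeff| := by omega
  have h4 : (2:ℝ) ≤ |(f.leadingCoeff : ℝ)| := by exact_mod_cast h2
  linarith

lemma abs_lead_ng (f : ℤ[X]) : |(ng f).leadingCoeff| = |f.leadingCoeff| := by
  unfold ng
  rw [leadingCoeff_comp (by simp)]
  rw [abs_mul, leadingCoeff_neg, leadingCoeff_X, abs_pow, abs_neg, abs_one, one_pow, mul_one]

lemma lead_expand_gr (f : ℤ[X]) : |(gr f).leadingCoeff| = |f.leadingCoeff| ^ 2 := by
  have h := congrArg leadingCoeff (expand_gr f)
  rw [leadingCoeff_expand (by norm_num : 0 < 2), leadingCoeff_mul] at h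
  rw [h, abs_mul, abs_lead_ng, sq]

/-- a divisor of the same degree and with leading coefficients of absolute value one -/
lemma MM_eq_of_dvd {f P : ℤ[X]} (h : f ∣ P) (hd : P.natDegree = f.natDegree)
    (hl : |P.leadingCoeff| = 1) : MM P = MM f := by
  obtain ⟨R, hR⟩ := h
  have hP0 : P ≠ 0 := by
    rintro rfl
    simp at hl
  rw [hR] at hP0
  have hf0 := left_ne_zero_of_mul hP0
  have hR0 := right_ne_zero_of_mul hP0
  have h1 : R.natDegree = 0 := by
    have := natDegree_mul hf0 hR0
    rw [← hR] at this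
    omega
  obtain ⟨a, ha⟩ : ∃ a : ℤ, R = C a := ⟨R.coeff 0, eq_C_of_natDegree_eq_zero h1⟩
  have h2 : |a| = 1 := by
    have h3 := congrArg leadingCoeff hR
    rw [leadingCoeff_mul, ha, leadingCoeff_C] at h3
    rw [h3, abs_mul] at hl
    exact Int.eq_one_of_dvd_one (abs_nonneg a) (Dvd.intro_left _ hl)
  rw [hR, MM_mul, ha]
  have h3 : MM (C a) = 1 := by
    rw [MM, Polynomial.map_C, mahlerMeasure_const, eq_intCast, Complex.norm_intCast]
    exact_mod_cast h2
  rw [h3, mul_one]

lemma expand_of_ng {f : ℤ[X]} (h : ng f = f) : ∃ g : ℤ[X], f = expand ℤ 2 g := by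
  refine ⟨ev f, ?_⟩
  have h1 := split_eo f
  have h2 : ng f = expand ℤ 2 (ev f) - X * expand ℤ 2 (od f) := by
    conv_lhs => rw [← h1]
    have e : ng (expand ℤ 2 (ev f) + X * expand ℤ 2 (od f)) =
        ng (expand ℤ 2 (ev f)) + ng X * ng (expand ℤ 2 (od f)) := by
      unfold ng; rw [add_comp, mul_comp]
    have e2 : ng X = -X := by unfold ng; rw [X_comp]
    rw [e, ng_expand, ng_expand, e2]
    ring
  rw [h] at h2
  have h3 : (2 : ℤ[X]) * (X * expand ℤ 2 (od f)) = 0 := by
    linear_combination h1 + h2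
  have h4 : X * expand ℤ 2 (od f) = 0 := by
    rcases mul_eq_zero.mp h3 with h5 | h5
    · exact absurd h5 two_ne_zero
    · exact h5
  rw [h4, add_zero] at h1
  exact h1.symm

/-- the possible common factors of `f` and its image -/
lemma not_dvd_TT {f : ℤ[X]} (hf : Irreducible f) (hM : 1 < MM f) (hM2 : MM f < 2)
    (hev : ∀ g : ℤ[X], f ≠ expand ℤ 2 g) : ¬ f ∣ TT f := by
  have hf0 := hf.ne_zero
  have hp : Prime f := hf.prime
  have hl := abs_lead_eq hf0 hM2
  intro h
  unfold TT at h
  have hsq : MM f ^ 2 ≠ MM f := by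
    intro h1
    nlinarith
  rcases hp.dvd_or_dvd h with h | h
  · rcases hp.dvd_or_dvd h with h | h
    · have h1 := MM_eq_of_dvd h (natDegree_gr f) (by rw [lead_expand_gr, hl]; norm_num)
      rw [MM_gr] at h1
      exact hsq h1
    · have h1 := MM_eq_of_dvd h (by rw [natDegree_ng, natDegree_gr])
        (by rw [abs_lead_ng, lead_expand_gr, hl]; norm_num)
      rw [MM_ng, MM_gr] at h1
      exact hsq h1
  · obtain ⟨R, hR⟩ := h
    have hng0 := ng_ne_zero hf0
    have hR0 : R ≠ 0 := by
      rintro rfl
      rw [mul_zero] at hR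
      exact hng0 hR
    have h1 : R.natDegree = 0 := by
      have := natDegree_mul hf0 hR0
      rw [← hR, natDegree_ng] at this
      omega
    obtain ⟨a, ha⟩ : ∃ a : ℤ, R = C a := ⟨R.coeff 0, eq_C_of_natDegree_eq_zero h1⟩
    have h2 : |f.leadingCoeff| = |f.leadingCoeff| * |a| := by
      have h3 := congrArg leadingCoeff hR
      rw [leadingCoeff_mul, ha, leadingCoeff_C] at h3
      rw [← abs_mul, ← h3, abs_lead_ng]
    rw [hl, one_mul] at h2
    rcases (abs_eq (by norm_num : (0:ℤ) ≤ 1)).mp h2.symm with h3 | h3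
    · rw [ha, h3] at hR
      obtain ⟨g, hg⟩ := expand_of_ng (f := f) (by rw [hR]; simp)
      exact hev g hg
    · have h4 : ng f = -f := by rw [hR, ha, h3]; simp
      have h5 : X ∣ f := by
        rw [X_dvd_iff]
        have h6 : (ng f).coeff 0 = f.coeff 0 := by
          unfold ng
          rw [coeff_zero_eq_eval_zero, eval_comp, coeff_zero_eq_eval_zero]
          simp
        rw [h4, coeff_neg] at h6
        omega
      obtain ⟨g, hg⟩ := h5
      have h6 : IsUnit g := by
        rcases hf.isUnit_or_isUnit hg with h | h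
        · exact absurd h not_isUnit_X
        · exact h
      obtain ⟨r, hr, hrg⟩ := Polynomial.isUnit_iff.mp h6
      have h7 : MM f = 1 := by
        rw [hg, MM_mul]
        have h3 : MM (X : ℤ[X]) = 1 := by
          rw [MM, Polynomial.map_X]
          have := mahlerMeasure_X_sub_C 0
          simpa using this
        have h4 : MM g = 1 := by
          rw [← hrg, MM, Polynomial.map_C, mahlerMeasure_const, eq_intCast, Complex.norm_intCast]
          rcases Int.isUnit_iff.mp hr with h5 | h5 <;> simp [h5]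
        rw [h3, h4, one_mul]
      linarith

/-- multiples by polynomials of Mahler measure one -/
theorem main_cyc : ∃ c : ℝ, 0 < c ∧ ∀ (f Φ : ℤ[X]) (e : ℕ), 0 < e → Irreducible f → 1 < MM f →
    MM Φ = 1 → c / ((1 + Φ.natDegree / (e * f.natDegree)) * (1 + lp (f ^ e * Φ) / e)) ^ 3 ≤
      Real.log (MM f) := by
  obtain ⟨c1, hc1, hc⟩ := pair_main
  have hlog2 : 0 < Real.log 2 := Real.log_pos (by norm_num)
  set c := min (c1 / 24 ^ 3) (Real.log 2) with hcdef
  have hc0 : 0 < c := lt_min (by positivity) hlog2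
  refine ⟨c, hc0, ?_⟩
  have ind : ∀ n : ℕ, ∀ (f Φ : ℤ[X]) (e : ℕ), f.natDegree = n → 0 < e → Irreducible f → 1 < MM f →
      MM Φ = 1 → c / ((1 + Φ.natDegree / (e * f.natDegree)) * (1 + lp (f ^ e * Φ) / e)) ^ 3 ≤
        Real.log (MM f) := by
    intro n
    induction n using Nat.strong_induction_on with
    | _ n ih =>
      intro f Φ e hfn he hf hM hΦ
      have he0 : (0:ℝ) < e := by exact_mod_cast he
      have hlp := lp_nonneg (f ^ e * Φ)
      set W : ℝ := (1 + Φ.natDegree / (e * f.natDegree)) * (1 + lp (f ^ e * Φ) / e) with hW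
      have hW1 : 1 ≤ W := by
        rw [hW]
        apply one_le_mul_of_one_le_of_one_le
        · have : (0:ℝ) ≤ (Φ.natDegree : ℝ) / (e * f.natDegree) := by positivity
          linarith
        · have : 0 ≤ lp (f ^ e * Φ) / e := by positivity
          linarith
      by_cases hbig : 2 ≤ MM f
      · have h1 : c ≤ Real.log 2 := min_le_right _ _
        have h2 : Real.log 2 ≤ Real.log (MM f) := Real.log_le_log (by norm_num) hbig
        have h3 : c / W ^ 3 ≤ c := by
          apply div_le_self hc0.le
          exact one_le_pow₀ hW1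
        linarith
      push Not at hbig
      have hf0 : f ≠ 0 := hf.ne_zero
      have hΦ0 : Φ ≠ 0 := by
        rintro rfl
        unfold MM at hΦ
        simp at hΦ
      have hfd : f.natDegree ≠ 0 := by
        intro h
        obtain ⟨a, ha⟩ : ∃ a : ℤ, f = C a := ⟨f.coeff 0, eq_C_of_natDegree_eq_zero h⟩
        have h1 := abs_lead_eq hf0 hbig
        rw [ha, leadingCoeff_C] at h1
        have h3 : MM (C a) = 1 := by
          rw [MM, Polynomial.map_C, mahlerMeasure_const, eq_intCast, Complex.norm_intCast]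
          exact_mod_cast h1
        rw [ha, h3] at hM
        exact lt_irrefl _ hM
      by_cases hev : ∃ g : ℤ[X], f = expand ℤ 2 g
      · obtain ⟨g, hg⟩ := hev
        have hgirr : Irreducible g := of_irreducible_expand (by norm_num : 2 ≠ 0) (by rw [← hg]; exact hf)
        have hMg : MM f = MM g := by rw [hg, MM_expand (by norm_num : 0 < 2)]
        have hdg : f.natDegree = g.natDegree * 2 := by rw [hg, natDegree_expand]
        have h1 := ih g.natDegree (by omega) g (gr Φ) (2 * e) rfl (by omega) hgirr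
          (by rw [← hMg]; exact hM) (by rw [MM_gr, hΦ]; norm_num)
        rw [hMg]
        refine le_trans ?_ h1
        have hlp2 := lp_nonneg (g ^ (2 * e) * gr Φ)
        apply div_le_div_of_nonneg_left hc0.le (by positivity)
        apply pow_le_pow_left₀ (by positivity)
        rw [natDegree_gr, hW]
        have e1 : (((2 * e : ℕ) : ℝ) * (g.natDegree : ℝ)) = (e : ℝ) * (f.natDegree : ℝ) := by
          rw [hdg]; push_cast; ring
        rw [e1]
        apply mul_le_mul_of_nonneg_left _ (by positivity)
        have e2 : g ^ (2 * e) * gr Φ = gr (f ^ e * Φ) := by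
          rw [gr_mul, gr_pow, hg, gr_expand, ← pow_mul]
        rw [e2]
        have h2 := lp_gr_le (f ^ e * Φ)
        push_cast
        have h3 : lp (gr (f ^ e * Φ)) / (2 * e) ≤ lp (f ^ e * Φ) / e := by
          rw [div_le_div_iff₀ (by positivity) he0]
          nlinarith
        linarith
      · push Not at hev
        obtain ⟨Ψ, hΨ⟩ := dvd_TT hΦ
        have hTΦ0 : TT Φ ≠ 0 := TT_ne_zero hΦ0
        have hΨ0 : Ψ ≠ 0 := by
          rintro rfl
          rw [mul_zero] at hΨ
          exact hTΦ0 hΨ
        set H := TT f ^ e * Ψ with hH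
        have hH0 : H ≠ 0 := mul_ne_zero (pow_ne_zero _ (TT_ne_zero hf0)) hΨ0
        have hHΦ : H * Φ = TT (f ^ e * Φ) := by
          rw [TT_mul, TT_pow, hΨ, hH]; ring
        have hp : Prime f := hf.prime
        have hndvd : ¬ f ∣ H := by
          intro h
          rcases hp.dvd_or_dvd h with h | h
          · exact not_dvd_TT hf hM hbig hev (hp.dvd_of_dvd_pow h)
          · have h1 : f ∣ TT Φ := by rw [hΨ]; exact h.mul_left Φ
            have h2 := MM_eq_one_of_dvd h1 (by rw [MM_TT, hΦ]; norm_num)
            linarith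
        have h1 := hc f H e he hf hndvd hM
        have hPM := PM_le (e := e) hf0 hΦ0 hΦ hHΦ
        have hdeg : H.natDegree + Φ.natDegree = 3 * (e * f.natDegree + Φ.natDegree) := by
          rw [← natDegree_mul hH0 hΦ0, hHΦ, natDegree_TT (mul_ne_zero (pow_ne_zero _ hf0) hΦ0),
            natDegree_mul (pow_ne_zero _ hf0) hΦ0, natDegree_pow]
        have hfd1 : (0:ℝ) < f.natDegree := by exact_mod_cast Nat.pos_of_ne_zero hfd
        have hdegR : (H.natDegree : ℝ) = 3 * (e * f.natDegree) + 2 * Φ.natDegree := by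
          have : (H.natDegree : ℝ) + Φ.natDegree = 3 * (e * f.natDegree + Φ.natDegree) := by exact_mod_cast hdeg
          linarith
        have hPM0 := PM_nonneg hf0 hM.le H e
        have hcmp : (1 + (H.natDegree : ℝ) / (e * f.natDegree)) *
            (1 + Real.circleAverage (PM f H e) 0 1 / e) ≤ 24 * W := by
          have a1 : 1 + (H.natDegree : ℝ) / (e * f.natDegree) ≤
              4 * (1 + Φ.natDegree / (e * f.natDegree)) := by
            rw [hdegR, add_div, mul_div_assoc, div_self (by positivity)]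
            have : (0:ℝ) ≤ (Φ.natDegree : ℝ) / (e * f.natDegree) := by positivity
            rw [mul_div_assoc]
            linarith
          have a2 : 1 + Real.circleAverage (PM f H e) 0 1 / e ≤ 6 * (1 + lp (f ^ e * Φ) / e) := by
            have : Real.circleAverage (PM f H e) 0 1 / e ≤ 6 * lp (f ^ e * Φ) / e :=
              div_le_div_of_nonneg_right hPM he0.le
            rw [mul_div_assoc] at this
            linarith
          calc (1 + (H.natDegree : ℝ) / (e * f.natDegree)) *
              (1 + Real.circleAverage (PM f H e) 0 1 / e) ≤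
              (4 * (1 + Φ.natDegree / (e * f.natDegree))) * (6 * (1 + lp (f ^ e * Φ) / e)) := by
                apply mul_le_mul a1 a2 (by positivity) (by positivity)
            _ = 24 * W := by rw [hW]; ring
        refine le_trans ?_ h1
        have h2 : c / W ^ 3 ≤ (c1 / 24 ^ 3) / W ^ 3 :=
          div_le_div_of_nonneg_right (min_le_left _ _) (by positivity)
        refine h2.trans ?_
        rw [div_div, ← mul_pow]
        apply div_le_div_of_nonneg_left hc1.le (by positivity)
        apply pow_le_pow_left₀ (by positivity)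
        exact hcmp
  intro f Φ e he hf hM hΦ
  exact ind _ f Φ e rfl he hf hM hΦ

end Pool.Agent.Zk21
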