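import Mathlib
import Pool.Agent.Zk21.GrC

/-!
# Powers of the zeros of polynomials of Mahler measure one
-/

set_option autoImplicit false

open Finset Polynomial Pool.Agent.H388SL Pool.Agent.Y947.DL

namespace Pool.Agent.Zk21

/-- the complex zeros -/
noncomputable def rts (P : ℤ[X]) : Multiset ℂ := (P.map (Int.castRingHom ℂ)).roots

lemma rts_mul {P Q : ℤ[X]} (h : P * Q ≠ 0) : rts (P * Q) = rts P + rts Q := by
  unfold rts
  rw [Polynomial.map_mul, roots_mul]
  rw [← Polynomial.map_mul]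
  exact (Polynomial.map_ne_zero_iff (Int.castRingHom ℂ).injective_int).mpr h

lemma mem_rts {P : ℤ[X]} (hP : P ≠ 0) {z : ℂ} : z ∈ rts P ↔ aeval z P = 0 := by
  unfold rts
  rw [mem_roots ((Polynomial.map_ne_zero_iff (Int.castRingHom ℂ).injective_int).mpr hP), IsRoot.def,
    Polynomial.eval_map, Polynomial.aeval_def]
  rfl

lemma prim_map_pow {m a : ℕ} (hm : 0 < m) (ha : a.Coprime m) :
    (primitiveRoots m ℂ).val.map (fun x => x ^ a) = (primitiveRoots m ℂ).val := by
  classical
  have hinj : Set.InjOn (fun x : ℂ => x ^ a) (primitiveRoots m ℂ : Finset ℂ) := by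
    intro x hx y hy hxy
    rw [Finset.mem_coe, mem_primitiveRoots hm] at hx hy
    simp only at hxy
    have hy0 : y ≠ 0 := hy.ne_zero hm.ne'
    have h1 : (x * y⁻¹) ^ a = 1 := by
      rw [mul_pow, inv_pow, hxy]
      exact mul_inv_cancel₀ (pow_ne_zero _ hy0)
    have h2 : (x * y⁻¹) ^ m = 1 := by
      rw [mul_pow, inv_pow, hx.pow_eq_one, hy.pow_eq_one, inv_one, mul_one]
    have h3 := pow_gcd_eq_one.mpr ⟨h1, h2⟩
    rw [ha.gcd_eq_one, pow_one] at h3
    exact mul_inv_eq_one₀ hy0 |>.mp h3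
  have h1 : (primitiveRoots m ℂ).image (fun x => x ^ a) = primitiveRoots m ℂ := by
    apply Finset.eq_of_subset_of_card_le
    · intro y hy
      rw [Finset.mem_image] at hy
      obtain ⟨x, hx, rfl⟩ := hy
      rw [mem_primitiveRoots hm] at hx ⊢
      exact hx.pow_of_coprime a ha
    · rw [Finset.card_image_of_injOn hinj]
  conv_rhs => rw [← h1]
  rw [Finset.image_val_of_injOn hinj]

lemma exists_exponent {m p j : ℕ} (hm : 0 < m) (hp : p.Prime) (hj : ¬ p ^ (j + 1) ∣ m) :
    ∃ a : ℕ, a.Coprime m ∧ ∀ x : ℂ, x ^ m = 1 → x ^ (p ^ (j + 1)) = (x ^ a) ^ (p ^ j) := by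
  obtain ⟨i, m₁, hpm, hmi⟩ := Nat.exists_eq_pow_mul_and_not_dvd hm.ne' p hp.ne_one
  have hij : i ≤ j := by
    by_contra hc
    push Not at hc
    apply hj
    rw [hmi]
    exact (pow_dvd_pow p hc).mul_right m₁
  have hcop : m₁.Coprime p := (hp.coprime_iff_not_dvd.mpr hpm).symm
  obtain ⟨a, ha1, ha2⟩ := Nat.chineseRemainder hcop p 1
  have hap : a.Coprime p := by
    have h1 : Nat.gcd a p = Nat.gcd 1 p := Nat.ModEq.gcd_eq ha2
    rw [Nat.coprime_iff_gcd_eq_one, h1, Nat.gcd_one_left]
  have ham : a.Coprime m₁ := by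
    have h1 : Nat.gcd a m₁ = Nat.gcd p m₁ := Nat.ModEq.gcd_eq ha1
    rw [Nat.coprime_iff_gcd_eq_one, h1]
    exact hcop.symm
  refine ⟨a, ?_, ?_⟩
  · rw [hmi]
    exact Nat.Coprime.mul_right (Nat.Coprime.pow_right i hap) ham
  · intro x hx
    have h1 : (x ^ p ^ j) ^ m₁ = 1 := by
      rw [← pow_mul]
      have e : p ^ j * m₁ = m * p ^ (j - i) := by
        rw [hmi]
        have : p ^ j = p ^ i * p ^ (j - i) := by rw [← pow_add]; congr 1; omega
        rw [this]; ring
      rw [e, pow_mul, hx, one_pow]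
    have h2 : (x ^ p ^ j) ^ p = (x ^ p ^ j) ^ a := by
      rw [← pow_mod_orderOf, ← pow_mod_orderOf (n := a)]
      congr 1
      have h3 : orderOf (x ^ p ^ j) ∣ m₁ := orderOf_dvd_of_pow_eq_one h1
      exact (Nat.ModEq.of_dvd h3 ha1).symm
    rw [pow_succ, pow_mul, h2, ← pow_mul, ← pow_mul, mul_comm]

lemma stable_cyclotomic {m p j : ℕ} (hm : 0 < m) (hp : p.Prime) (hj : ¬ p ^ (j + 1) ∣ m) :
    (rts (cyclotomic m ℤ)).map (fun x => x ^ (p ^ (j + 1))) =
      (rts (cyclotomic m ℤ)).map (fun x => x ^ (p ^ j)) := by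
  have : NeZero (m : ℂ) := ⟨by exact_mod_cast hm.ne'⟩
  obtain ⟨a, ha, hx⟩ := exists_exponent hm hp hj
  have e : rts (cyclotomic m ℤ) = (primitiveRoots m ℂ).val := by
    unfold rts
    rw [map_cyclotomic]
    exact cyclotomic.roots_eq_primitiveRoots_val
  rw [e]
  conv_rhs => rw [← prim_map_pow hm ha]
  rw [Multiset.map_map]
  apply Multiset.map_congr rfl
  intro x hx'
  rw [Finset.mem_val, mem_primitiveRoots hm] at hx'
  rw [Function.comp_apply]
  exact hx x hx'.pow_eq_one

/-- powers of the zeros of an integer polynomial of Mahler measure one -/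
lemma stable {p j : ℕ} (hp : p.Prime) {P : ℤ[X]} (hM : MM P = 1)
    (hj : ∀ z : ℂ, aeval z P = 0 → ∀ m : ℕ, IsPrimitiveRoot z m → 0 < m → ¬ p ^ (j + 1) ∣ m) :
    (rts P).map (fun x => x ^ (p ^ (j + 1))) = (rts P).map (fun x => x ^ (p ^ j)) := by
  have hP0 : P ≠ 0 := by
    rintro rfl
    unfold MM at hM
    simp at hM
  revert hM hj
  induction P using UniqueFactorizationMonoid.induction_on_prime with
  | h₁ => exact absurd rfl hP0
  | h₂ x hx =>
    intro _ _
    obtain ⟨r, hr, hrg⟩ := Polynomial.isUnit_iff.mp hx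
    unfold rts
    rw [← hrg, Polynomial.map_C, roots_C]
    rfl
  | h₃ a q ha hq ih =>
    intro hM hj
    rw [MM_mul] at hM
    have h1 := one_le_MM ha
    have h2 := one_le_MM hq.ne_zero
    have h3 : MM a = 1 := by nlinarith
    have h4 : MM q = 1 := by rw [h3, mul_one] at hM; exact hM
    rw [rts_mul (mul_ne_zero hq.ne_zero ha), Multiset.map_add, Multiset.map_add]
    have ha' := ih ha h3 (fun z hz => hj z (by rw [map_mul, hz, mul_zero]))
    rw [ha']
    congr 1
    have hirr := hq.irreducible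
    by_cases hX : X ∣ q
    · obtain ⟨Q, hQ⟩ := hX
      have hQu : IsUnit Q := by
        rcases hirr.isUnit_or_isUnit hQ with h | h
        · exact absurd h not_isUnit_X
        · exact h
      obtain ⟨r, hr, hrg⟩ := Polynomial.isUnit_iff.mp hQu
      have e : rts q = {0} := by
        have hX0 : (X : ℤ[X]) * Q ≠ 0 := by rw [← hQ]; exact hq.ne_zero
        rw [hQ, rts_mul hX0]
        unfold rts
        rw [← hrg, Polynomial.map_C, roots_C, Polynomial.map_X, roots_X, add_zero]
      rw [e, Multiset.map_singleton, Multiset.map_singleton, zero_pow (pow_ne_zero _ hp.ne_zero),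
        zero_pow (pow_ne_zero _ hp.ne_zero)]
    · by_cases hd : q.degree = 0
      · obtain ⟨b, hb⟩ : ∃ b : ℤ, q = C b := ⟨q.coeff 0, eq_C_of_degree_eq_zero hd⟩
        unfold rts
        rw [hb, Polynomial.map_C, roots_C]
        rfl
      · obtain ⟨m, hm, hdvd⟩ := cyclotomic_dvd_of_mahlerMeasure_eq_one h4 hX hd
        obtain ⟨u, hu⟩ := (cyclotomic.irreducible hm).associated_of_dvd hirr hdvd
        obtain ⟨r, hr, hrg⟩ := Polynomial.isUnit_iff.mp u.isUnit
        have e : rts q = rts (cyclotomic m ℤ) := by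
          have h5 : cyclotomic m ℤ * ↑u ≠ 0 := by rw [hu]; exact hq.ne_zero
          rw [← hu, rts_mul h5]
          have : rts (u : ℤ[X]) = 0 := by
            unfold rts
            rw [← hrg, Polynomial.map_C, roots_C]
          rw [this, add_zero]
        rw [e]
        apply stable_cyclotomic hm hp
        have hz : IsPrimitiveRoot (Complex.exp (2 * Real.pi * Complex.I / m)) m :=
          Complex.isPrimitiveRoot_exp m hm.ne'
        apply hj _ _ m hz hm
        rw [map_mul, ← hu, map_mul, cyclotomic_root hm hz, zero_mul, zero_mul]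

end Pool.Agent.Zk21
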