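import Mathlib
import Pool.Agent.Zk21.PwA

/-!
# Products over embeddings of towers, and over powers of the zeros
-/

set_option autoImplicit false

open Finset Polynomial Module Metric IntermediateField Pool.Agent.H388SL Pool.Agent.Y947.DL
  Pool.Agent.R328

namespace Pool.Agent.Zk21

/-- products over the embeddings of a number field and of a subfield -/
lemma prod_tower {K : Type} [Field K] [NumberField K] (L : IntermediateField ℚ K) (β : L)
    (h : ℂ → ℝ) : ∏ σ : K →ₐ[ℚ] ℂ, h (σ (β : K)) =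
      (∏ τ : L →ₐ[ℚ] ℂ, h (τ β)) ^ finrank L K := by
  rw [Fintype.prod_equiv algHomEquivSigma (fun σ : K →ₐ[ℚ] ℂ => h (σ (β : K))) (fun σ => h (σ.1 β)),
    ← Finset.univ_sigma_univ, Finset.prod_sigma, ← Finset.prod_pow]
  · refine Finset.prod_congr rfl fun σ _ => ?_
    let : Algebra L ℂ := σ.toRingHom.toAlgebra
    simp_rw [Finset.prod_const]
    congr
    exact AlgHom.card L K ℂ
  · intro σ
    rfl

/-- the product over the `q`-th powers of the conjugates -/
noncomputable def Nf {K : Type} [Field K] [NumberField K] (α : K) (q : ℕ) (x : ℂ) : ℝ :=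
  ∏ σ : K →ₐ[ℚ] ℂ, ‖x - (σ α) ^ q‖

lemma norm_pow_sub (q : ℕ) (hq : 0 < q) (w a : ℂ) :
    ‖w ^ q - a ^ q‖ = ∏ ζ ∈ nthRootsFinset q (1:ℂ), ‖ζ * w - a‖ := by
  have h1 := (Complex.isPrimitiveRoot_exp q hq.ne').pow_sub_pow_eq_prod_sub_mul a w hq
  rw [norm_sub_rev, h1, norm_prod]
  refine Finset.prod_congr rfl fun ζ _ => ?_
  rw [norm_sub_rev]

lemma Nf_pow {K : Type} [Field K] [NumberField K] {α : K} {f : ℤ[X]} (h : Rep f K α) {q : ℕ}
    (hq : 0 < q) (w : ℂ) : Nf α q (w ^ q) = ∏ ζ ∈ nthRootsFinset q (1:ℂ), ‖aeval (ζ * w) f‖ := by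
  unfold Nf
  simp_rw [norm_pow_sub q hq, h.aeval_eq, norm_prod]
  exact Finset.prod_comm

/-- the polynomial whose zeros are the `q`-th powers -/
noncomputable def PQ (s : Multiset ℂ) (q : ℕ) : ℂ[X] := (s.map fun b => X - C (b ^ q)).prod

lemma PQ_eval (s : Multiset ℂ) (q : ℕ) (x : ℂ) : (PQ s q).eval x = (s.map fun b => x - b ^ q).prod := by
  unfold PQ
  rw [eval_multiset_prod, Multiset.map_map]
  congr 1
  apply Multiset.map_congr rfl
  intro b _
  simp

lemma PQ_ne (s : Multiset ℂ) (q : ℕ) : PQ s q ≠ 0 := by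
  unfold PQ
  apply (monic_multiset_prod_of_monic _ _ fun b _ => monic_X_sub_C _).ne_zero

lemma PQ_pow (s : Multiset ℂ) {q : ℕ} (hq : 0 < q) (w : ℂ) :
    ‖(PQ s q).eval (w ^ q)‖ = ∏ ζ ∈ nthRootsFinset q (1:ℂ), ‖(PQ s 1).eval (ζ * w)‖ := by
  simp only [PQ_eval]
  induction s using Multiset.induction_on with
  | empty => simp
  | cons a s ih =>
    simp only [Multiset.map_cons, Multiset.prod_cons, norm_mul, Finset.prod_mul_distrib, ih]
    rw [norm_pow_sub q hq]
    simp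

/-- the Mahler measure is one -/
lemma PQ_mahler {Φ : ℤ[X]} (hM : MM Φ = 1) (q : ℕ) : (PQ (rts Φ) q).mahlerMeasure = 1 := by
  have hΦ0 : Φ ≠ 0 := by
    rintro rfl
    unfold MM at hM
    simp at hM
  unfold PQ
  rw [prod_mahlerMeasure_eq_mahlerMeasure_prod, Multiset.map_map]
  apply Multiset.prod_eq_one
  intro x hx
  rw [Multiset.mem_map] at hx
  obtain ⟨b, hb, rfl⟩ := hx
  rw [Function.comp_apply, mahlerMeasure_X_sub_C, max_eq_left]
  rw [norm_pow]
  apply pow_le_one₀ (norm_nonneg _)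
  have hinj : Function.Injective (Int.castRingHom ℂ) := (Int.castRingHom ℂ).injective_int
  have h1 : 1 ≤ ‖(Φ.map (Int.castRingHom ℂ)).leadingCoeff‖ := by
    rw [leadingCoeff_map_of_injective hinj, eq_intCast, Complex.norm_intCast]
    exact_mod_cast Int.one_le_abs (leadingCoeff_ne_zero.mpr hΦ0)
  have h2 := hM
  unfold MM at h2
  rw [mahlerMeasure_eq_leadingCoeff_mul_prod_roots] at h2
  have h3 : ∀ s : Multiset ℂ, 1 ≤ (s.map (fun a => max 1 ‖a‖)).prod := by
    intro s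
    induction s using Multiset.induction_on with
    | empty => simp
    | cons a s ih =>
      rw [Multiset.map_cons, Multiset.prod_cons]
      exact one_le_mul_of_one_le_of_one_le (le_max_left _ _) ih
  obtain ⟨t, ht⟩ := Multiset.exists_cons_of_mem hb
  unfold rts at ht
  rw [ht, Multiset.map_cons, Multiset.prod_cons] at h2
  have h4 := h3 t
  have h5 : (1:ℝ) ≤ max 1 ‖b‖ := le_max_left _ _
  have h6 : ‖b‖ ≤ max 1 ‖b‖ := le_max_right _ _
  have h7 : max 1 ‖b‖ ≤ 1 := by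
    calc max 1 ‖b‖ = 1 * (max 1 ‖b‖ * 1) := by ring
      _ ≤ ‖(Φ.map (Int.castRingHom ℂ)).leadingCoeff‖ * (max 1 ‖b‖ * (t.map (fun a => max 1 ‖a‖)).prod) := by
        apply mul_le_mul h1 _ (by positivity) (by positivity)
        exact mul_le_mul_of_nonneg_left h4 (by positivity)
      _ = 1 := h2
  linarith

lemma norm_aeval_PQ {Φ : ℤ[X]} (hM : MM Φ = 1) (x : ℂ) : ‖aeval x Φ‖ = ‖(PQ (rts Φ) 1).eval x‖ := by
  have hΦ0 : Φ ≠ 0 := by
    rintro rfl
    unfold MM at hM
    simp at hM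
  have hinj : Function.Injective (Int.castRingHom ℂ) := (Int.castRingHom ℂ).injective_int
  have hl : ‖(Φ.map (Int.castRingHom ℂ)).leadingCoeff‖ = 1 := by
    have h3 := leadingCoeff_le_MM Φ
    rw [leadingCoeff_map_of_injective hinj, eq_intCast, Complex.norm_intCast]
    have h4 : (1:ℝ) ≤ |(Φ.leadingCoeff : ℝ)| := by exact_mod_cast Int.one_le_abs (leadingCoeff_ne_zero.mpr hΦ0)
    rw [hM] at h3
    exact le_antisymm h3 h4
  have h1 : aeval x Φ = (Φ.map (Int.castRingHom ℂ)).eval x := by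
    rw [Polynomial.aeval_def, Polynomial.eval_map]; rfl
  rw [h1, (IsAlgClosed.splits (Φ.map (Int.castRingHom ℂ))).eval_eq_prod_roots, norm_mul, hl, one_mul, PQ_eval]
  simp only [pow_one]
  rfl

end Pool.Agent.Zk21
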