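import Mathlib
import Pool.Agent.Zk21.PwB

/-!
# Lower bounds from the size of a multiple, without the degree of the cyclotomic factor
-/

set_option autoImplicit false

open Finset Polynomial Module Metric IntermediateField Pool.Agent.H388SL Pool.Agent.Y947.DL
  Pool.Agent.R328

namespace Pool.Agent.Zk21

lemma rep_MM {f : ℤ[X]} {K : Type} [Field K] [NumberField K] {α : K} (h : Rep f K α) (hf : f ≠ 0) :
    MM f = ∏ σ : K →ₐ[ℚ] ℂ, max 1 ‖σ α‖ := by
  have h1 := h.log_MM
  have h2 : Real.log (∏ σ : K →ₐ[ℚ] ℂ, max 1 ‖σ α‖) = lam α := by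
    rw [Real.log_prod]
    · rfl
    · intro σ _
      have : (0:ℝ) < max 1 ‖σ α‖ := lt_of_lt_of_le one_pos (le_max_left _ _)
      exact this.ne'
  have h3 : 0 < ∏ σ : K →ₐ[ℚ] ℂ, max 1 ‖σ α‖ :=
    Finset.prod_pos fun σ _ => lt_of_lt_of_le one_pos (le_max_left _ _)
  rw [← Real.exp_log (MM_pos hf), ← Real.exp_log h3, h1, h2]

/-- the powers of a zero of small measure are not conjugate to it -/
lemma aeval_pow_ne {g : ℤ[X]} {L : Type} [Field L] [NumberField L] {γ : L} (h : Rep g L γ)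
    (hM : 1 < MM g) {p : ℕ} (hp : 2 ≤ p) : aeval (γ ^ p) g ≠ 0 := by
  intro h0
  have hg0 : g ≠ 0 := by
    rintro rfl
    unfold MM at hM
    simp at hM
    linarith
  have hdvd : g ∣ expand ℤ p g := by
    have h1 : minpoly ℤ γ ∣ expand ℤ p g := by
      apply minpoly.isIntegrallyClosed_dvd h.isInt
      rw [expand_aeval, h0]
    rwa [h.minp] at h1
  have hroot : ∀ x : ℂ, aeval x g = 0 → aeval (x ^ p) g = 0 := by
    intro x hx
    obtain ⟨r, hr⟩ := hdvd
    have h1 := congrArg (aeval x) hr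
    rw [expand_aeval, map_mul, hx, zero_mul] at h1
    exact h1
  have : Nonempty (L →ₐ[ℚ] ℂ) := ⟨IsAlgClosed.lift⟩
  obtain ⟨τ, -, hτ⟩ := Finset.exists_max_image (Finset.univ : Finset (L →ₐ[ℚ] ℂ))
    (fun τ => ‖τ γ‖) Finset.univ_nonempty
  have h1 : aeval (τ γ) g = 0 := by
    rw [h.aeval_eq]
    exact Finset.prod_eq_zero (Finset.mem_univ τ) (sub_self _)
  have h2 := hroot _ h1
  rw [h.aeval_eq] at h2
  obtain ⟨τ', -, hτ'⟩ := Finset.prod_eq_zero_iff.mp h2
  have h3 : (τ γ) ^ p = τ' γ := sub_eq_zero.mp hτ'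
  have h4 : ‖τ γ‖ ^ p ≤ ‖τ γ‖ := by
    rw [← norm_pow, h3]
    exact hτ τ' (Finset.mem_univ _)
  have h5 : ‖τ γ‖ ≤ 1 := by
    by_contra hc
    push Not at hc
    have h6 : ‖τ γ‖ < ‖τ γ‖ ^ p := lt_self_pow₀ hc (by omega)
    linarith
  rw [rep_MM h hg0] at hM
  have h6 : ∏ σ : L →ₐ[ℚ] ℂ, max 1 ‖σ γ‖ = 1 := by
    apply Finset.prod_eq_one
    intro σ _
    exact max_eq_left ((hτ σ (Finset.mem_univ _)).trans h5)
  rw [h6] at hM
  exact lt_irrefl _ hM

/-- the mean of the positive logarithm of a product over powers -/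
lemma avg_pow_le {F : ℤ[X]} {q : ℕ} (hq : 0 < q) {U : ℂ → ℝ} (hU : Continuous U)
    (h : ∀ w : ℂ, U (w ^ q) = ∏ ζ ∈ nthRootsFinset q (1:ℂ), ‖aeval (ζ * w) F‖) :
    Real.circleAverage (fun z => Real.posLog (U z)) 0 1 ≤ q * lp F := by
  have hcard : (nthRootsFinset q (1:ℂ)).card = q := card_grid hq
  have hc1 : Continuous (fun z => Real.posLog (U z)) := Real.continuous_posLog.comp hU
  rw [← circleAverage_pow' hc1.continuousOn hq]
  have h1 : Real.circleAverage (fun z => Real.posLog (U (z ^ q))) 0 1 ≤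
      Real.circleAverage (fun z => ∑ ζ ∈ nthRootsFinset q (1:ℂ), Real.posLog ‖aeval (ζ * z) F‖) 0 1 := by
    apply Real.circleAverage_mono
    · apply ContinuousOn.circleIntegrable'
      exact (hc1.comp (continuous_pow q)).continuousOn
    · apply ContinuousOn.circleIntegrable'
      apply Continuous.continuousOn
      apply continuous_finsetSum
      intro ζ _
      exact (plog_cont F).comp (continuous_const.mul continuous_id)
    · intro z _
      rw [h z]
      exact Real.posLog_prod _ _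
  refine h1.trans (le_of_eq ?_)
  rw [Real.circleAverage_fun_sum]
  · have h2 : ∀ ζ ∈ nthRootsFinset q (1:ℂ),
        Real.circleAverage (fun z => Real.posLog ‖aeval (ζ * z) F‖) 0 1 = lp F := fun ζ hζ =>
      circleAverage_rot (φ := fun z : ℂ => Real.posLog ‖aeval z F‖) (norm_of_mem_grid hq hζ)
    rw [Finset.sum_congr rfl h2, Finset.sum_const, hcard, nsmul_eq_mul]
  · intro ζ _
    apply ContinuousOn.circleIntegrable'
    exact ((plog_cont F).comp (continuous_const.mul continuous_id)).continuousOn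

lemma Nf_cont {K : Type} [Field K] [NumberField K] (α : K) (q : ℕ) : Continuous (Nf α q) := by
  unfold Nf
  fun_prop

/-- the monic unit case -/
lemma main_pw_monic {c : ℝ} (hc0 : 0 < c) (hc : ∀ f : ℤ[X], Irreducible f → f.Monic → |f.coeff 0| = 1 →
    1 < MM f → ∀ (m t : ℕ), 0 < t → ∀ (c0 : ℂ) (γ : Fin m → ℂ), 1 ≤ ‖c0‖ * ∏ k, max 1 ‖γ k‖ →
    NC f c0 γ → ∀ B : ℝ, 0 ≤ B → Real.circleAverage (LM f t c0 γ) 0 1 ≤ t * B →
    c / ((1 + m / (t * f.natDegree)) * (1 + B)) ^ 3 ≤ Real.log (MM f))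
    {f Φ : ℤ[X]} {e p j : ℕ} (he : 0 < e) (hp : p.Prime) (hf : Irreducible f) (hm : f.Monic)
    (hf0 : |f.coeff 0| = 1) (hM : 1 < MM f) (hΦ : MM Φ = 1)
    (hj : ∀ z : ℂ, aeval z Φ = 0 → ∀ m : ℕ, IsPrimitiveRoot z m → 0 < m → ¬ p ^ (j + 1) ∣ m) :
    c / 64 / (p ^ j * (1 + p ^ (j + 1) * (lp (f ^ e * Φ) / e)) ^ 3) ≤ Real.log (MM f) := by
  obtain ⟨z, hz⟩ := exists_zero hM hm
  obtain ⟨hNF, hrep⟩ := exists_rep f hf hm z hz
  set K := IntermediateField.adjoin ℚ {z} with hK
  set α : K := AdjoinSimple.gen ℚ z with hα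
  set q := p ^ j with hq
  have hq0 : 0 < q := pow_pos hp.pos j
  set β : K := α ^ q with hβ
  have hβi : IsIntegral ℤ β := hrep.isInt.pow q
  set g := minpoly ℤ β with hg
  have hgirr : Irreducible g := minpoly.irreducible hβi
  have hgm : g.Monic := minpoly.monic hβi
  obtain ⟨hNF2, hrep2⟩ := exists_rep (E := K) g hgirr hgm β (minpoly.aeval ℤ β)
  set L := IntermediateField.adjoin ℚ {β} with hL
  set b : L := AdjoinSimple.gen ℚ β with hb
  have hbβ : (b : K) = β := AdjoinSimple.coe_gen ℚ β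
  have hfd : FiniteDimensional L K := FiniteDimensional.right ℚ L K
  set k := finrank L K with hk
  have hk0 : 0 < k := finrank_pos
  have hk1 : (1:ℝ) ≤ k := by exact_mod_cast hk0
  have tow : ∀ h : ℂ → ℝ, ∏ σ : K →ₐ[ℚ] ℂ, h (σ β) = (∏ τ : L →ₐ[ℚ] ℂ, h (τ b)) ^ k := by
    intro h
    have := prod_tower L b h
    rw [hbβ] at this
    exact this
  have he0 : (0:ℝ) < e := by exact_mod_cast he
  have hk0' : (0:ℝ) < k := by linarith
  -- constant term
  have hg0 : |g.coeff 0| = 1 := by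
    have h1 : ∏ τ : L →ₐ[ℚ] ℂ, ‖τ b‖ = |(g.coeff 0 : ℝ)| := by
      have h2 := hrep2.aeval_eq 0
      have h3 : aeval (0:ℂ) g = ((g.coeff 0 : ℤ) : ℂ) := by
        rw [Polynomial.aeval_def, Polynomial.eval₂_at_zero]
        simp
      rw [h3] at h2
      have h4 := congrArg norm h2
      rw [Complex.norm_intCast, norm_prod] at h4
      rw [h4]
      refine Finset.prod_congr rfl fun τ _ => ?_
      rw [zero_sub, norm_neg]
    have h2 := tow (fun x => ‖x‖)
    rw [h1] at h2
    have h3 : ∏ σ : K →ₐ[ℚ] ℂ, ‖σ β‖ = 1 := by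
      have h4 := hrep.prod_norm hf0
      simp only [hβ, map_pow, norm_pow]
      rw [Finset.prod_pow, h4, one_pow]
    rw [h3] at h2
    have h5 : |(g.coeff 0 : ℝ)| = 1 := (pow_eq_one_iff_of_nonneg (abs_nonneg _) hk0.ne').mp h2.symm
    exact_mod_cast h5
  -- measures
  have hMMk : (MM g) ^ k = (MM f) ^ q := by
    rw [rep_MM hrep2 hgirr.ne_zero, rep_MM hrep hf.ne_zero, ← tow (fun x => max 1 ‖x‖), ← Finset.prod_pow]
    refine Finset.prod_congr rfl fun σ _ => ?_
    rw [hβ, map_pow, norm_pow, max_one_pow (norm_nonneg _)]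
  have hlogk : (k : ℝ) * Real.log (MM g) = q * Real.log (MM f) := by
    rw [← Real.log_pow, ← Real.log_pow, hMMk]
  have hMg : 1 < MM g := by
    by_contra hcon
    push Not at hcon
    have h1 : MM g = 1 := le_antisymm hcon (one_le_MM hgirr.ne_zero)
    rw [h1, one_pow] at hMMk
    have h2 : 1 < MM f ^ q := one_lt_pow₀ hM hq0.ne'
    linarith
  have hdeg : finrank ℚ K = k * g.natDegree := by
    rw [← hrep2.fin, mul_comm]
    exact (Module.finrank_mul_finrank ℚ L K).symm
  -- the companion family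
  let ι := Fin e × (K →ₐ[ℚ] ℂ)
  set N := Fintype.card ι with hN
  have hNe : N = e * (k * g.natDegree) := by
    rw [hN, Fintype.card_prod, Fintype.card_fin, AlgHom.card ℚ K ℂ, hdeg]
  let eqv : ι ≃ Fin N := Fintype.equivFin ι
  set γ : Fin N → ℂ := fun i => ((eqv.symm i).2 β) ^ p with hγ
  have hidx : ∀ h : ℂ → ℝ, ∏ i, h (γ i) = (∏ σ : K →ₐ[ℚ] ℂ, h ((σ β) ^ p)) ^ e := by
    intro h
    have h1 : ∏ i, h (γ i) = ∏ x : ι, h ((x.2 β) ^ p) := by
      rw [← Equiv.prod_comp eqv.symm]
    rw [h1, Fintype.prod_prod_type]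
    simp only [Finset.prod_const, Finset.card_univ, Fintype.card_fin]
  have hMG : 1 ≤ ‖(1:ℂ)‖ * ∏ i, max 1 ‖γ i‖ := by
    rw [norm_one, one_mul]
    calc (1:ℝ) = ∏ i : Fin N, (1:ℝ) := by simp
      _ ≤ ∏ i, max 1 ‖γ i‖ :=
        Finset.prod_le_prod (fun _ _ => zero_le_one) (fun σ _ => le_max_left _ _)
  have hNC : NC g 1 γ := by
    unfold NC
    rw [norm_one, one_pow, one_mul, hidx (fun x => ‖aeval x g‖)]
    apply one_le_pow₀
    have h1 : ∀ σ : K →ₐ[ℚ] ℂ, ‖aeval ((σ β) ^ p) g‖ = ‖σ (aeval (β ^ p) g)‖ := by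
      intro σ
      rw [map_aevalZ, map_pow σ β p]
    simp only [h1]
    apply one_le_prod_norm (isIntegral_aevalZ (hβi.pow p) _)
    intro h0
    apply aeval_pow_ne hrep2 hMg hp.two_le
    have h2 : (algebraMap L K) (aeval (b ^ p) g) = aeval (β ^ p) g := by
      rw [← Polynomial.aeval_algebraMap_apply, map_pow]
      congr 2
    have h3 : (algebraMap L K) (aeval (b ^ p) g) = 0 := by rw [h2, h0]
    exact (map_eq_zero_iff _ (algebraMap L K).injective).mp h3
  -- the mean
  set Lq := lp (f ^ e * Φ) / e with hLq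
  have hlp := lp_nonneg (f ^ e * Φ)
  have hLq0 : 0 ≤ Lq := by rw [hLq]; positivity
  have hmean : Real.circleAverage (LM g (e * k) 1 γ) 0 1 ≤ (q + q * p : ℕ) * lp (f ^ e * Φ) := by
    set s := rts Φ with hs
    have hst : PQ s (q * p) = PQ s q := by
      have h1 := stable hp hΦ hj
      unfold PQ
      have e1 : (s.map fun b => X - C (b ^ (q * p))) = (s.map fun x => x ^ (p ^ (j + 1))).map (fun x => X - C x) := by
        rw [Multiset.map_map]
        rfl
      have e2 : (s.map fun b => X - C (b ^ q)) = (s.map fun x => x ^ (p ^ j)).map (fun x => X - C x) := by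
        rw [Multiset.map_map]
        rfl
      rw [e1, e2, h1]
    set U1 : ℂ → ℝ := fun z => (Nf α q z) ^ e * ‖(PQ s q).eval z‖ with hU1
    set U2 : ℂ → ℝ := fun z => (Nf α (q * p) z) ^ e * ‖(PQ s (q * p)).eval z‖ with hU2
    have hU1c : Continuous U1 := ((Nf_cont α q).pow e).mul (PQ s q).continuous.norm
    have hU2c : Continuous U2 := ((Nf_cont α (q * p)).pow e).mul (PQ s (q * p)).continuous.norm
    have hprodU : ∀ r : ℕ, 0 < r → ∀ w : ℂ, (Nf α r (w ^ r)) ^ e * ‖(PQ s r).eval (w ^ r)‖ =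
        ∏ ζ ∈ nthRootsFinset r (1:ℂ), ‖aeval (ζ * w) (f ^ e * Φ)‖ := by
      intro r hr w
      rw [Nf_pow hrep hr, PQ_pow s hr, ← Finset.prod_pow, ← Finset.prod_mul_distrib]
      refine Finset.prod_congr rfl fun ζ _ => ?_
      rw [map_mul, map_pow, norm_mul, norm_pow, norm_aeval_PQ hΦ]
    have a1 := avg_pow_le (F := f ^ e * Φ) hq0 hU1c (hprodU q hq0)
    have hqp : 0 < q * p := Nat.mul_pos hq0 hp.pos
    have a2 := avg_pow_le (F := f ^ e * Φ) hqp hU2c (hprodU (q * p) hqp)
    have hiLM : CircleIntegrable (LM g (e * k) 1 γ) 0 1 :=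
      ContinuousOn.circleIntegrable' (LM_cont hNC hMG (e * k)).continuousOn
    have hiP : CircleIntegrable (fun z => Real.log ‖(PQ s q).eval z‖) 0 1 := by
      apply MeromorphicOn.circleIntegrable_log_norm
      intro z _
      exact ((PQ s q).differentiable.analyticAt z).meromorphicAt
    have hi1 : CircleIntegrable (fun z => Real.posLog (U1 z)) 0 1 :=
      ContinuousOn.circleIntegrable' (Real.continuous_posLog.comp hU1c).continuousOn
    have hi2 : CircleIntegrable (fun z => Real.posLog (U2 z)) 0 1 :=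
      ContinuousOn.circleIntegrable' (Real.continuous_posLog.comp hU2c).continuousOn
    have hPm : Real.circleAverage (fun z => Real.log ‖(PQ s q).eval z‖) 0 1 = 0 := by
      have h1 := PQ_mahler hΦ q
      have h2 : Real.log (PQ s q).mahlerMeasure = 0 := by rw [h1, Real.log_one]
      rw [← logMahlerMeasure_eq_log_MahlerMeasure, logMahlerMeasure_def] at h2
      exact h2
    have hle : Real.circleAverage (LM g (e * k) 1 γ + fun z => Real.log ‖(PQ s q).eval z‖) 0 1 ≤
        Real.circleAverage ((fun z => Real.posLog (U1 z)) + fun z => Real.posLog (U2 z)) 0 1 := by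
      set Z : Set ℂ := {z | (PQ s q).IsRoot z} ∪ {z | (g.map (Int.castRingHom ℂ)).IsRoot z} with hZ
      have hinj : Function.Injective (Int.castRingHom ℂ) := (Int.castRingHom ℂ).injective_int
      have hZc : Z.Countable := by
        apply Set.Countable.union
        · exact (Polynomial.finite_setOfPred_isRoot (PQ_ne s q)).countable
        · exact (Polynomial.finite_setOfPred_isRoot
            ((Polynomial.map_ne_zero_iff hinj).mpr hgirr.ne_zero)).countable
      apply circleAverage_mono_off (Z := Z) (hiLM.add hiP) (hi1.add hi2) hZc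
      intro x _ hx
      rw [hZ, Set.mem_union, not_or] at hx
      have hx1 : 0 < ‖(PQ s q).eval x‖ := norm_pos_iff.mpr hx.1
      have hx2 : 0 < ‖aeval x g‖ := by
        rw [norm_pos_iff, Polynomial.aeval_def]
        have := hx.2
        rw [Set.mem_ofPred_eq, IsRoot.def, Polynomial.eval_map] at this
        exact this
      have e1 : ‖aeval x g‖ ^ (e * k) = (Nf α q x) ^ e := by
        rw [hrep2.aeval_eq, norm_prod, mul_comm, pow_mul, ← tow (fun y => ‖x - y‖)]
        unfold Nf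
        simp only [hβ, map_pow]
      have e2 : ‖GV 1 γ x‖ = (Nf α (q * p) x) ^ e := by
        unfold GV
        rw [one_mul, norm_prod, hidx (fun y => ‖x - y‖)]
        unfold Nf
        simp only [hβ, map_pow, ← pow_mul]
      simp only [Pi.add_apply]
      unfold LM
      rw [e1, e2]
      have hpos : 0 < (Nf α q x) ^ e := by rw [← e1]; positivity
      have hmax : 0 < max ((Nf α q x) ^ e) ((Nf α (q * p) x) ^ e) := lt_of_lt_of_le hpos (le_max_left _ _)
      rw [← Real.log_mul hmax.ne' hx1.ne', max_mul_of_nonneg _ _ hx1.le]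
      have e3 : (Nf α q x) ^ e * ‖(PQ s q).eval x‖ = U1 x := rfl
      have e4 : (Nf α (q * p) x) ^ e * ‖(PQ s q).eval x‖ = U2 x := by
        rw [← hst]
      rw [e3, e4]
      have hU1x : 0 < U1 x := mul_pos hpos hx1
      have q1 : 0 ≤ Real.posLog (U1 x) := Real.posLog_nonneg
      have q2 : 0 ≤ Real.posLog (U2 x) := Real.posLog_nonneg
      rcases le_total (U1 x) (U2 x) with h | h
      · rw [max_eq_right h]
        have p3 : Real.log (U2 x) ≤ Real.posLog (U2 x) := le_max_right _ _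
        linarith
      · rw [max_eq_left h]
        have p3 : Real.log (U1 x) ≤ Real.posLog (U1 x) := le_max_right _ _
        linarith
    rw [Real.circleAverage_add hiLM hiP, Real.circleAverage_add hi1 hi2, hPm, add_zero] at hle
    refine hle.trans ?_
    push_cast at a1 a2 ⊢
    linarith
  -- application
  set B : ℝ := (q + q * p : ℕ) * Lq / k with hB
  have hB0 : 0 ≤ B := by rw [hB]; positivity
  have hmain := hc g hgirr hgm hg0 hMg N (e * k) (Nat.mul_pos he hk0) 1 γ hMG hNC B hB0 (by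
    refine hmean.trans (le_of_eq ?_)
    rw [hB, hLq]
    push_cast
    field_simp)
  have hgd : (0:ℝ) < g.natDegree := by
    have : g.natDegree ≠ 0 := natDegree_ne hMg hgm
    exact_mod_cast Nat.pos_of_ne_zero this
  have hratio : (N : ℝ) / ((e * k : ℕ) * g.natDegree) = 1 := by
    rw [hNe]
    push_cast
    rw [mul_assoc]
    exact div_self (by positivity)
  rw [hratio] at hmain
  have hBle : 1 + B ≤ 2 * (1 + p ^ (j + 1) * Lq) := by
    have h1 : B ≤ (q + q * p : ℕ) * Lq := div_le_self (by positivity) hk1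
    have hp1 : (1:ℝ) ≤ p := by exact_mod_cast hp.one_lt.le
    have hqr : (0:ℝ) ≤ q := Nat.cast_nonneg _
    have h2 : ((q + q * p : ℕ) : ℝ) ≤ 2 * (q * p) := by
      push_cast
      nlinarith
    have h3 : ((q : ℝ) * p) = (p:ℝ) ^ (j + 1) := by
      rw [hq, pow_succ]; push_cast; ring
    rw [← h3]
    have h4 := mul_le_mul_of_nonneg_right h2 hLq0
    nlinarith
  set D : ℝ := 1 + p ^ (j + 1) * Lq with hD
  have hD0 : 0 < D := by rw [hD]; positivity
  have h1 : c / (4 * D) ^ 3 ≤ Real.log (MM g) := by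
    refine le_trans ?_ hmain
    apply div_le_div_of_nonneg_left hc0.le (by positivity)
    apply pow_le_pow_left₀ (by positivity)
    linarith
  have hq0' : (0:ℝ) < q := by exact_mod_cast hq0
  have h2 : Real.log (MM g) ≤ q * Real.log (MM f) := by
    rw [← hlogk]
    exact le_mul_of_one_le_left (Real.log_nonneg hMg.le) hk1
  have e1 : c / 64 / ((p:ℝ) ^ j * D ^ 3) = c / (4 * D) ^ 3 / q := by
    rw [hq]
    push_cast
    field_simp
    ring
  rw [e1, div_le_iff₀ hq0']
  linarith

/-- multiples by polynomials of Mahler measure one without zeros of order divisible by a prime power -/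
theorem main_pw : ∃ c : ℝ, 0 < c ∧ ∀ (f Φ : ℤ[X]) (e p j : ℕ), 0 < e → p.Prime → Irreducible f →
    1 < MM f → MM Φ = 1 →
    (∀ z : ℂ, aeval z Φ = 0 → ∀ m : ℕ, IsPrimitiveRoot z m → 0 < m → ¬ p ^ (j + 1) ∣ m) →
    c / (p ^ j * (1 + p ^ (j + 1) * (lp (f ^ e * Φ) / e)) ^ 3) ≤ Real.log (MM f) := by
  obtain ⟨c1, hc1, hc⟩ := pair_monic
  have hlog2 : 0 < Real.log 2 := Real.log_pos (by norm_num)
  set c := min (c1 / 64) (Real.log 2) with hcdef
  have hc0 : 0 < c := lt_min (by positivity) hlog2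
  refine ⟨c, hc0, ?_⟩
  intro f Φ e p j he hp hf hM hΦ hj
  have he0 : (0:ℝ) < e := by exact_mod_cast he
  have hp1 : (1:ℝ) ≤ p := by exact_mod_cast hp.one_lt.le
  have hlp := lp_nonneg (f ^ e * Φ)
  set W : ℝ := p ^ j * (1 + p ^ (j + 1) * (lp (f ^ e * Φ) / e)) ^ 3 with hW
  have hW1 : 1 ≤ W := by
    rw [hW]
    apply one_le_mul_of_one_le_of_one_le (one_le_pow₀ hp1)
    apply one_le_pow₀
    have : 0 ≤ (p:ℝ) ^ (j + 1) * (lp (f ^ e * Φ) / e) := by positivity
    linarith
  by_cases hbig : 2 ≤ MM f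
  · have h1 : c ≤ Real.log 2 := min_le_right _ _
    have h2 : Real.log 2 ≤ Real.log (MM f) := Real.log_le_log (by norm_num) hbig
    have h3 : c / W ≤ c := div_le_self hc0.le hW1
    linarith
  push Not at hbig
  have hcmp : c / W ≤ c1 / 64 / W := div_le_div_of_nonneg_right (min_le_left _ _) (by positivity)
  have hlc := abs_lead_eq hf.ne_zero hbig
  have hcc : |f.coeff 0| = 1 := by
    have h0 : f.coeff 0 ≠ 0 := by
      intro h
      have hdvd : (X : ℤ[X]) ∣ f := X_dvd_iff.mpr h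
      obtain ⟨g, hg⟩ := hdvd
      rcases hf.isUnit_or_isUnit hg with h1 | h1
      · exact Polynomial.not_isUnit_X h1
      · have h2 : MM f = 1 := by
          rw [hg, MM_mul]
          obtain ⟨r, hr, hrg⟩ := Polynomial.isUnit_iff.mp h1
          have h3 : MM (X : ℤ[X]) = 1 := by
            rw [MM, Polynomial.map_X]
            have := mahlerMeasure_X_sub_C 0
            simpa using this
          have h4 : MM g = 1 := by
            rw [← hrg, MM, Polynomial.map_C, mahlerMeasure_const, eq_intCast, Complex.norm_intCast]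
            rcases Int.isUnit_iff.mp hr with h5 | h5 <;> simp [h5]
          rw [h3, h4, one_mul]
        linarith
    have h1 : 1 ≤ |f.coeff 0| := Int.one_le_abs h0
    have h3 := coeff_zero_le_MM f
    by_contra hne
    have h2 : 2 ≤ |f.coeff 0| := by omega
    have h4 : (2:ℝ) ≤ |(f.coeff 0 : ℝ)| := by exact_mod_cast h2
    linarith
  refine hcmp.trans ?_
  rcases (abs_eq (by norm_num : (0:ℤ) ≤ 1)).mp hlc with h | h
  · exact main_pw_monic hc1 hc he hp hf h hcc hM hΦ hj
  · have h1 := main_pw_monic hc1 hc (f := -f) (Φ := Φ) he hp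
      (by simpa using (irreducible_units_mul (-1 : ℤ[X]ˣ)).mpr hf)
      (by rw [Monic, leadingCoeff_neg, h]; norm_num) (by rw [coeff_neg, abs_neg]; exact hcc)
      (by rw [MM_neg]; exact hM) hΦ hj
    have e1 : lp ((-f) ^ e * Φ) = lp (f ^ e * Φ) := by
      unfold lp
      congr 1
      ext z
      rw [map_mul, map_mul, map_pow, map_pow, map_neg, norm_mul, norm_mul, norm_pow, norm_pow, norm_neg]
    rw [MM_neg, e1] at h1
    exact h1

end Pool.Agent.Zk21
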