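import Mathlib
import Pool.Agent.Zk21.UnE

/-!
# The kernel of the disc and the fibres of a rational function
-/

set_option autoImplicit false

open Polynomial Metric Real

namespace Pool.Agent.Zk21.Rd

open Pool.Agent.R328 Pool.Agent.Zk21.Smt Pool.Agent.Zk21.Un Pool.Agent.H388SL

/-- the kernel of the disc -/
noncomputable def kern (r : ℝ) (z w : ℂ) : ℝ :=
  - log ‖1 - (r : ℂ) * (z * starRingEnd ℂ w)‖

lemma kern_le {r : ℝ} (hr0 : 0 ≤ r) (hr1 : r < 1) {z w : ℂ} (hz : ‖z‖ ≤ 1) (hw : ‖w‖ ≤ 1) :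
    kern r z w ≤ 2 * log (1 / (1 - r)) := by
  unfold kern
  have h1 := log_le_log (by linarith) (one_sub_pos hr0 hr1 (mul_conj_le1 hz hw))
  have h2 : 0 ≤ log (1 / (1 - r)) := by
    apply log_nonneg
    rw [le_div_iff₀ (by linarith)]
    linarith
  rw [one_div, log_inv] at *
  linarith

/-- the basic inequality -/
lemma pair_bound' {r : ℝ} (hr0 : 0 ≤ r) (hr1 : r < 1) {z w : ℂ} (hne : z ≠ w) :
    log ‖z - w‖ ≤ - kern r (refl z) (refl w) + log (2 / (1 + r)) + log⁺ ‖z‖ + log⁺ ‖w‖ := by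
  have hzw : 0 < ‖z - w‖ := norm_pos_iff.mpr (sub_ne_zero.mpr hne)
  have h1 := pair_le z w
  have hu : ‖refl z * starRingEnd ℂ (refl w)‖ ≤ 1 := mul_conj_le1 (norm_refl_le z) (norm_refl_le w)
  have h2 := one_sub_le hr0 hr1 _ hu
  have hr2 : 0 < 2 / (1 + r) := by positivity
  have h3 : 0 < ‖1 - (r : ℂ) * (refl z * starRingEnd ℂ (refl w))‖ := by
    have := one_sub_pos hr0 hr1 hu
    linarith
  have hm1 : 0 < max 1 ‖z‖ := lt_of_lt_of_le one_pos (le_max_left _ _)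
  have hm2 : 0 < max 1 ‖w‖ := lt_of_lt_of_le one_pos (le_max_left _ _)
  have h4 : ‖z - w‖ ≤ max 1 ‖z‖ * max 1 ‖w‖ *
      (2 / (1 + r) * ‖1 - (r : ℂ) * (refl z * starRingEnd ℂ (refl w))‖) :=
    h1.trans (mul_le_mul_of_nonneg_left h2 (by positivity))
  have h5 := log_le_log hzw h4
  rw [log_mul (by positivity) (by positivity), log_mul hm1.ne' hm2.ne',
    log_mul hr2.ne' h3.ne'] at h5
  have e : ∀ y : ℂ, log (max 1 ‖y‖) = log⁺ ‖y‖ := fun y => (posLog_eq_log_max_one (norm_nonneg y)).symm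
  rw [e, e] at h5
  unfold kern
  linarith

lemma refl_pow (z : ℂ) {p : ℕ} (hp : 0 < p) :
    Pool.Agent.H388SL.refl (z ^ p) = Pool.Agent.H388SL.refl z ^ p := by
  unfold Pool.Agent.H388SL.refl
  by_cases h : ‖z‖ ≤ 1
  · rw [if_pos h, if_pos (by rw [norm_pow]; exact pow_le_one₀ (norm_nonneg _) h)]
  · rw [if_neg h, if_neg, map_pow, inv_pow]
    rw [norm_pow, not_le]
    exact one_lt_pow₀ (not_le.mp h) hp.ne'

lemma kern_hasSum {r : ℝ} (hr0 : 0 ≤ r) (hr1 : r < 1) {z w : ℂ} (hz : ‖z‖ ≤ 1) (hw : ‖w‖ ≤ 1) :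
    HasSum (fun m : ℕ => r ^ m / m * (z ^ m * starRingEnd ℂ (w ^ m)).re) (kern r z w) := by
  have hu := mul_conj_le1 hz hw
  have hlt : ‖(r : ℂ) * (z * starRingEnd ℂ w)‖ < 1 := by
    rw [norm_mul, Complex.norm_real, Real.norm_of_nonneg hr0]
    nlinarith [norm_nonneg (z * starRingEnd ℂ w)]
  have h := Complex.hasSum_re (Complex.hasSum_taylorSeries_neg_log hlt)
  rw [Complex.neg_re, Complex.log_re] at h
  unfold kern
  convert h using 1
  ext m
  have : ((r : ℂ) * (z * starRingEnd ℂ w)) ^ m / m =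
      ((r ^ m / m : ℝ) : ℂ) * (z ^ m * starRingEnd ℂ (w ^ m)) := by
    rw [map_pow]
    push_cast
    ring
  rw [this, Complex.re_ofReal_mul]

/-- the Cauchy-Schwarz inequality for the kernel and its pull back under the `p`-th power -/
lemma energy_cs' {ι κ : Type*} (s : Finset ι) (t : Finset κ) (z : ι → ℂ) (w : κ → ℂ)
    (hz : ∀ i ∈ s, ‖z i‖ ≤ 1) (hw : ∀ l ∈ t, ‖w l‖ ≤ 1) {ρ : ℝ} (h0 : 0 < ρ) (h1 : ρ < 1)
    {p : ℕ} (hp : 0 < p) {σ : ℝ} (hσ : 0 < σ) :
    - 2 * ∑ i ∈ s, ∑ l ∈ t, kern (ρ ^ p) (z i ^ p) (w l) ≤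
      p / σ * ∑ i ∈ s, ∑ j ∈ s, kern ρ (z i) (z j) +
        σ * ∑ l ∈ t, ∑ m ∈ t, kern (ρ ^ p) (w l) (w m) := by
  have hp0 : (0:ℝ) ≤ ρ ^ p := by positivity
  have hp1 : ρ ^ p < 1 := pow_lt_one₀ h0.le h1 hp.ne'
  have hpR : (p : ℝ) ≠ 0 := by exact_mod_cast hp.ne'
  set A : ℕ → ℂ := fun n => ∑ i ∈ s, z i ^ n with hA
  set B : ℕ → ℂ := fun n => ∑ l ∈ t, w l ^ n with hB
  have hzp : ∀ i ∈ s, ‖z i ^ p‖ ≤ 1 := by
    intro i hi
    rw [norm_pow]
    exact pow_le_one₀ (norm_nonneg _) (hz i hi)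
  have hsq : ∀ a : ℂ, (a * starRingEnd ℂ a).re = ‖a‖ ^ 2 := by
    intro a
    rw [Complex.mul_conj, Complex.ofReal_re, Complex.normSq_eq_norm_sq]
  have F1 : HasSum (fun m : ℕ => (ρ ^ p) ^ m / m * (A (p * m) * starRingEnd ℂ (B m)).re)
      (∑ i ∈ s, ∑ l ∈ t, kern (ρ ^ p) (z i ^ p) (w l)) := by
    have h := hasSum_sum (s := s) fun i hi => hasSum_sum (s := t) fun l hl =>
      kern_hasSum hp0 hp1 (hzp i hi) (hw l hl)
    convert h using 1
    ext m
    rw [hA, hB]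
    simp only
    rw [map_sum, Finset.sum_mul_sum, Complex.re_sum, Finset.mul_sum]
    refine Finset.sum_congr rfl fun i _ => ?_
    rw [Complex.re_sum, Finset.mul_sum]
    refine Finset.sum_congr rfl fun l _ => ?_
    rw [pow_mul (z i)]
  have F2 : HasSum (fun m : ℕ => ρ ^ m / m * ‖A m‖ ^ 2)
      (∑ i ∈ s, ∑ j ∈ s, kern ρ (z i) (z j)) := by
    have h := hasSum_sum (s := s) fun i hi => hasSum_sum (s := s) fun j hj =>
      kern_hasSum h0.le h1 (hz i hi) (hz j hj)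
    convert h using 1
    ext m
    rw [← hsq, hA]
    simp only
    rw [map_sum, Finset.sum_mul_sum, Complex.re_sum, Finset.mul_sum]
    refine Finset.sum_congr rfl fun i _ => ?_
    rw [Complex.re_sum, Finset.mul_sum]
  have F3 : HasSum (fun m : ℕ => (ρ ^ p) ^ m / m * ‖B m‖ ^ 2)
      (∑ l ∈ t, ∑ m ∈ t, kern (ρ ^ p) (w l) (w m)) := by
    have h := hasSum_sum (s := t) fun i hi => hasSum_sum (s := t) fun j hj =>
      kern_hasSum hp0 hp1 (hw i hi) (hw j hj)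
    convert h using 1
    ext m
    rw [← hsq, hB]
    simp only
    rw [map_sum, Finset.sum_mul_sum, Complex.re_sum, Finset.mul_sum]
    refine Finset.sum_congr rfl fun i _ => ?_
    rw [Complex.re_sum, Finset.mul_sum]
  -- the subseries
  have hnn : ∀ m : ℕ, 0 ≤ ρ ^ m / m * ‖A m‖ ^ 2 := by
    intro m
    positivity
  have hinj : Function.Injective (fun m : ℕ => p * m) := by
    intro a b hab
    exact Nat.eq_of_mul_eq_mul_left hp hab
  have hsum : Summable (fun m : ℕ => ρ ^ (p * m) / ((p * m : ℕ) : ℝ) * ‖A (p * m)‖ ^ 2) :=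
    F2.summable.comp_injective hinj
  have hle : (∑' m : ℕ, ρ ^ (p * m) / ((p * m : ℕ) : ℝ) * ‖A (p * m)‖ ^ 2) ≤
      ∑ i ∈ s, ∑ j ∈ s, kern ρ (z i) (z j) := by
    have h := tsum_comp_le_tsum_of_inj F2.summable hnn hinj
    rw [F2.tsum_eq] at h
    exact h
  have F4 : HasSum (fun m : ℕ => p / σ * (ρ ^ (p * m) / ((p * m : ℕ) : ℝ) * ‖A (p * m)‖ ^ 2) +
      σ * ((ρ ^ p) ^ m / m * ‖B m‖ ^ 2))
      (p / σ * (∑' m : ℕ, ρ ^ (p * m) / ((p * m : ℕ) : ℝ) * ‖A (p * m)‖ ^ 2) +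
        σ * ∑ l ∈ t, ∑ m ∈ t, kern (ρ ^ p) (w l) (w m)) :=
    (hsum.hasSum.mul_left _).add (F3.mul_left _)
  have F5 := F1.mul_left (-2 : ℝ)
  have h6 : - 2 * ∑ i ∈ s, ∑ l ∈ t, kern (ρ ^ p) (z i ^ p) (w l) ≤
      p / σ * (∑' m : ℕ, ρ ^ (p * m) / ((p * m : ℕ) : ℝ) * ‖A (p * m)‖ ^ 2) +
        σ * ∑ l ∈ t, ∑ m ∈ t, kern (ρ ^ p) (w l) (w m) := by
    refine hasSum_le ?_ F5 F4
    intro m
    rcases Nat.eq_zero_or_pos m with hm | hm
    · subst hm
      simp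
    have hmR : (0:ℝ) < m := by exact_mod_cast hm
    have e1 : p / σ * (ρ ^ (p * m) / ((p * m : ℕ) : ℝ) * ‖A (p * m)‖ ^ 2) =
        (ρ ^ p) ^ m / m * (‖A (p * m)‖ ^ 2 / σ) := by
      rw [← pow_mul]
      push_cast
      field_simp
    rw [e1]
    have e2 : -2 * ((ρ ^ p) ^ m / m * (A (p * m) * starRingEnd ℂ (B m)).re) =
        (ρ ^ p) ^ m / m * (-2 * (A (p * m) * starRingEnd ℂ (B m)).re) := by ring
    have e3 : σ * ((ρ ^ p) ^ m / m * ‖B m‖ ^ 2) = (ρ ^ p) ^ m / m * (σ * ‖B m‖ ^ 2) := by ring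
    rw [e2, e3, ← mul_add]
    apply mul_le_mul_of_nonneg_left _ (by positivity)
    have h7 : |(A (p * m) * starRingEnd ℂ (B m)).re| ≤ ‖A (p * m)‖ * ‖B m‖ := by
      refine (Complex.abs_re_le_norm _).trans (le_of_eq ?_)
      rw [norm_mul, RCLike.norm_conj]
    have h8 := neg_abs_le (A (p * m) * starRingEnd ℂ (B m)).re
    have h9 : 0 ≤ (‖A (p * m)‖ - σ * ‖B m‖) ^ 2 / σ := by positivity
    have e4 : (‖A (p * m)‖ - σ * ‖B m‖) ^ 2 / σ =
        ‖A (p * m)‖ ^ 2 / σ - 2 * (‖A (p * m)‖ * ‖B m‖) + σ * ‖B m‖ ^ 2 := by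
      field_simp
      ring
    rw [e4] at h9
    linarith
  have hpσ : 0 ≤ (p : ℝ) / σ := by positivity
  have h8 := mul_le_mul_of_nonneg_left hle hpσ
  linarith

section fibre

variable (u v : ℂ[X])

/-- the polynomial of the fibre over `t` -/
noncomputable def Pt (t : ℂ) : ℂ[X] := u - C t * v

variable {u v}

lemma Pt_deg (hv : v.natDegree < u.natDegree) (t : ℂ) :
    (Pt u v t).natDegree = u.natDegree ∧ (Pt u v t).leadingCoeff = u.leadingCoeff := by
  have h1 : (C t * v).degree < u.degree := by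
    apply degree_lt_degree
    exact (natDegree_C_mul_le _ _).trans_lt hv
  unfold Pt
  exact ⟨natDegree_sub_eq_left_of_natDegree_lt ((natDegree_C_mul_le _ _).trans_lt hv),
    leadingCoeff_sub_of_degree_lt h1⟩

lemma Pt_eval (t x : ℂ) : (Pt u v t).eval x = u.eval x - t * v.eval x := by
  unfold Pt
  rw [eval_sub, eval_mul, eval_C]

lemma exists_fibr (hv : v.natDegree < u.natDegree) (t : ℂ) :
    ∃ z : Fin u.natDegree → ℂ, Finset.univ.val.map z = (Pt u v t).roots := by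
  apply exists_enum
  rw [← (IsAlgClosed.splits (Pt u v t)).natDegree_eq_card_roots, (Pt_deg hv t).1]

variable (u v)

/-- the points of the fibre -/
noncomputable def fibr (t : ℂ) : Fin u.natDegree → ℂ :=
  Classical.epsilon fun z : Fin u.natDegree → ℂ => Finset.univ.val.map z = (Pt u v t).roots

/-- the height of the fibre -/
noncomputable def VR (t : ℂ) : ℝ := ∑ l, log⁺ ‖fibr u v t l‖

variable {u v}

lemma fibr_spec (hv : v.natDegree < u.natDegree) (t : ℂ) :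
    Finset.univ.val.map (fibr u v t) = (Pt u v t).roots :=
  Classical.epsilon_spec (exists_fibr hv t)

lemma Pt_ne (hv : v.natDegree < u.natDegree) (t : ℂ) : Pt u v t ≠ 0 := by
  intro h
  have := (Pt_deg hv t).1
  rw [h, natDegree_zero] at this
  omega

lemma fibr_eval (hv : v.natDegree < u.natDegree) (t : ℂ) (l : Fin u.natDegree) :
    (Pt u v t).eval (fibr u v t l) = 0 := by
  have h1 : fibr u v t l ∈ (Pt u v t).roots := by
    rw [← fibr_spec hv t]
    exact Multiset.mem_map_of_mem _ (Finset.mem_univ l)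
  exact ((mem_roots (Pt_ne hv t)).mp h1)

lemma Pt_norm (hu : ‖u.leadingCoeff‖ = 1) (hv : v.natDegree < u.natDegree) (t x : ℂ) :
    ‖(Pt u v t).eval x‖ = ∏ l, ‖x - fibr u v t l‖ := by
  rw [(IsAlgClosed.splits (Pt u v t)).eval_eq_prod_roots x, norm_mul, (Pt_deg hv t).2, hu, one_mul,
    ← fibr_spec hv t, Multiset.map_map]
  have : (Multiset.map ((fun a => x - a) ∘ fibr u v t) Finset.univ.val).prod =
      ∏ l, (x - fibr u v t l) := rfl
  rw [this, norm_prod]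

lemma VR_nonneg (t : ℂ) : 0 ≤ VR u v t := Finset.sum_nonneg fun _ _ => posLog_nonneg

lemma VR_eq (hu : ‖u.leadingCoeff‖ = 1) (hv : v.natDegree < u.natDegree) (t : ℂ) :
    VR u v t = log (Pt u v t).mahlerMeasure := by
  rw [← logMahlerMeasure_eq_log_MahlerMeasure, logMahlerMeasure_eq_log_leadingCoeff_add_sum_log_roots,
    (Pt_deg hv t).2, hu, log_one, zero_add, ← fibr_spec hv t, Multiset.map_map]
  rfl

lemma log_Pt (hu : ‖u.leadingCoeff‖ = 1) (hv : v.natDegree < u.natDegree) {t x : ℂ}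
    (hx : (Pt u v t).eval x ≠ 0) :
    log ‖(Pt u v t).eval x‖ = ∑ l, log ‖x - fibr u v t l‖ := by
  have h1 := Pt_norm hu hv t x
  have h2 : ‖(Pt u v t).eval x‖ ≠ 0 := norm_ne_zero_iff.mpr hx
  rw [h1] at h2
  rw [h1, log_prod]
  intro l _
  exact (Finset.prod_ne_zero_iff.mp h2) l (Finset.mem_univ l)

/-- the resultant of `u` and `v` -/
noncomputable def rs (u v : ℂ[X]) : ℝ :=
  ‖v.leadingCoeff‖ ^ u.natDegree * (v.roots.map fun y => ‖u.eval y‖).prod

/-- the product of the values of `v` on a fibre does not depend on the fibre -/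
lemma prod_v (hu : ‖u.leadingCoeff‖ = 1) (hv : v.natDegree < u.natDegree) (t : ℂ) :
    ∏ l, ‖v.eval (fibr u v t l)‖ = rs u v := by
  have h1 : ∀ l, ‖v.eval (fibr u v t l)‖ =
      ‖v.leadingCoeff‖ * (v.roots.map fun y => ‖y - fibr u v t l‖).prod := by
    intro l
    rw [(IsAlgClosed.splits v).eval_eq_prod_roots, norm_mul]
    congr 1
    have h2 := (Multiset.prod_hom (v.roots.map fun a => fibr u v t l - a) (normHom : ℂ →*₀ ℝ)).symm
    show (normHom : ℂ →*₀ ℝ) _ = _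
    rw [h2, Multiset.map_map]
    congr 1
    apply Multiset.map_congr rfl
    intro y _
    show ‖fibr u v t l - y‖ = _
    rw [norm_sub_rev]
  simp_rw [h1]
  rw [Finset.prod_mul_distrib, Finset.prod_const, Finset.card_univ, Fintype.card_fin]
  unfold rs
  congr 1
  have h3 : ∏ l, (v.roots.map fun y => ‖y - fibr u v t l‖).prod =
      (v.roots.map fun y => ∏ l, ‖y - fibr u v t l‖).prod := by
    exact Multiset.prod_map_prod_map _ _
  rw [h3]
  congr 1
  apply Multiset.map_congr rfl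
  intro y hy
  rw [← Pt_norm hu hv t y, Pt_eval]
  have h4 : v.eval y = 0 := by
    have : v ≠ 0 := by
      rintro rfl
      simp at hy
    exact (mem_roots this).mp hy
  rw [h4, mul_zero, sub_zero]

end fibre

end Pool.Agent.Zk21.Rd
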