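import Mathlib
import Pool.Agent.Zk21.RdA
import Pool.Agent.Zk21.UnF

/-!
# The energy inequality for the pull back of a rational function under the `p`-th power
-/

set_option autoImplicit false

open Polynomial Metric Real

namespace Pool.Agent.Zk21.Rd

open Pool.Agent.R328 Pool.Agent.Zk21.Smt Pool.Agent.Zk21.Un Pool.Agent.H388SL

section

variable {u v : ℂ[X]}

lemma v_ne (hv : v.natDegree < u.natDegree) (hres : 1 ≤ rs u v) : v ≠ 0 := by
  rintro rfl
  unfold rs at hres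
  rw [leadingCoeff_zero, norm_zero, zero_pow (by omega), zero_mul] at hres
  linarith

lemma u_ne (hv : v.natDegree < u.natDegree) (hres : 1 ≤ rs u v) {y : ℂ} (hy : v.eval y = 0) :
    u.eval y ≠ 0 := by
  intro h0
  have hv0 := v_ne hv hres
  have h1 : (v.roots.map fun y => ‖u.eval y‖).prod = 0 := by
    apply Multiset.prod_eq_zero
    rw [Multiset.mem_map]
    exact ⟨y, (mem_roots hv0).mpr hy, by rw [h0, norm_zero]⟩
  unfold rs at hres
  rw [h1, mul_zero] at hres
  linarith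

lemma v_fibr (hu : ‖u.leadingCoeff‖ = 1) (hv : v.natDegree < u.natDegree) (hres : 1 ≤ rs u v)
    (t : ℂ) (l : Fin u.natDegree) : v.eval (fibr u v t l) ≠ 0 := by
  have h1 := prod_v hu hv t
  rw [← h1] at hres
  intro h0
  have : ∏ l, ‖v.eval (fibr u v t l)‖ = 0 := Finset.prod_eq_zero (Finset.mem_univ l) (by rw [h0, norm_zero])
  rw [this] at hres
  linarith

lemma sum_log_v (hu : ‖u.leadingCoeff‖ = 1) (hv : v.natDegree < u.natDegree) (hres : 1 ≤ rs u v)
    (t : ℂ) : 0 ≤ ∑ l, log ‖v.eval (fibr u v t l)‖ := by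
  rw [← log_prod fun l _ => norm_ne_zero_iff.mpr (v_fibr hu hv hres t l), prod_v hu hv t]
  exact log_nonneg hres

/-- the estimate for a block -/
lemma block' (hu : ‖u.leadingCoeff‖ = 1) (hv : v.natDegree < u.natDegree) {p : ℕ} (hp : 0 < p)
    {r : ℝ} (hr0 : 0 ≤ r) (hr1 : r < 1) (t τ : ℂ)
    (hne : ∀ l, (Pt u v τ).eval (fibr u v t l ^ p) ≠ 0) :
    ∑ l, log ‖(Pt u v τ).eval (fibr u v t l ^ p)‖ ≤
      - (∑ l, ∑ m, kern r (Pool.Agent.H388SL.refl (fibr u v t l) ^ p)
          (Pool.Agent.H388SL.refl (fibr u v τ m))) +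
        2 * (u.natDegree : ℝ) ^ 2 * log (2 / (1 + r)) + p * u.natDegree * VR u v t +
        u.natDegree * VR u v τ := by
  have hlog : 0 ≤ log (2 / (1 + r)) := by
    apply log_nonneg
    rw [le_div_iff₀ (by linarith)]
    linarith
  have key : ∀ l m, log ‖fibr u v t l ^ p - fibr u v τ m‖ ≤
      - kern r (Pool.Agent.H388SL.refl (fibr u v t l) ^ p) (Pool.Agent.H388SL.refl (fibr u v τ m)) +
        2 * log (2 / (1 + r)) + p * log⁺ ‖fibr u v t l‖ + log⁺ ‖fibr u v τ m‖ := by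
    intro l m
    have h6 : fibr u v t l ^ p ≠ fibr u v τ m := by
      intro h7
      apply hne l
      rw [h7]
      exact fibr_eval hv τ m
    have h7 := pair_bound' hr0 hr1 h6
    rw [refl_pow _ hp] at h7
    have h8 : log⁺ ‖fibr u v t l ^ p‖ = p * log⁺ ‖fibr u v t l‖ := by
      rw [norm_pow, posLog_pow]
    rw [h8] at h7
    linarith
  have h1 : ∑ l, log ‖(Pt u v τ).eval (fibr u v t l ^ p)‖ =
      ∑ l, ∑ m, log ‖fibr u v t l ^ p - fibr u v τ m‖ :=
    Finset.sum_congr rfl fun l _ => log_Pt hu hv (hne l)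
  rw [h1]
  refine (Finset.sum_le_sum fun l _ => Finset.sum_le_sum fun m _ => key l m).trans (le_of_eq ?_)
  simp only [Finset.sum_add_distrib, Finset.sum_neg_distrib, Finset.sum_const, Finset.card_univ,
    Fintype.card_fin, nsmul_eq_mul, VR, ← Finset.mul_sum]
  ring

lemma block_one' (hu : ‖u.leadingCoeff‖ = 1) (hv : v.natDegree < u.natDegree) (hres : 1 ≤ rs u v)
    {r : ℝ} (hr0 : 0 ≤ r) (hr1 : r < 1) {t τ : ℂ} (hne : t ≠ τ) :
    ∑ l, ∑ m, kern r (Pool.Agent.H388SL.refl (fibr u v t l)) (Pool.Agent.H388SL.refl (fibr u v τ m)) ≤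
      - (u.natDegree * log ‖t - τ‖) +
        2 * (u.natDegree : ℝ) ^ 2 * log (2 / (1 + r)) + u.natDegree * VR u v t +
        u.natDegree * VR u v τ := by
  have h0 : ∀ l, (Pt u v τ).eval (fibr u v t l ^ 1) = (t - τ) * v.eval (fibr u v t l) := by
    intro l
    rw [pow_one]
    have := fibr_eval hv t l
    rw [Pt_eval] at this ⊢
    linear_combination this
  have h1 := block' hu hv one_pos hr0 hr1 t τ (by
    intro l
    rw [h0]
    exact mul_ne_zero (sub_ne_zero.mpr hne) (v_fibr hu hv hres t l))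
  have h2 : ∑ l, log ‖(Pt u v τ).eval (fibr u v t l ^ 1)‖ =
      u.natDegree * log ‖t - τ‖ + ∑ l, log ‖v.eval (fibr u v t l)‖ := by
    have h3 : ∀ l, log ‖(Pt u v τ).eval (fibr u v t l ^ 1)‖ =
        log ‖t - τ‖ + log ‖v.eval (fibr u v t l)‖ := by
      intro l
      rw [h0, norm_mul, log_mul (norm_ne_zero_iff.mpr (sub_ne_zero.mpr hne))
        (norm_ne_zero_iff.mpr (v_fibr hu hv hres t l))]
    rw [Finset.sum_congr rfl fun l _ => h3 l, Finset.sum_add_distrib, Finset.sum_const,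
      Finset.card_univ, Fintype.card_fin, nsmul_eq_mul]
  rw [h2] at h1
  have h4 := sum_log_v hu hv hres t
  simp only [pow_one, Nat.cast_one, one_mul] at h1
  linarith

lemma block_diag' {r : ℝ} (hr0 : 0 ≤ r) (hr1 : r < 1) (t τ : ℂ) :
    ∑ l, ∑ m, kern r (Pool.Agent.H388SL.refl (fibr u v t l)) (Pool.Agent.H388SL.refl (fibr u v τ m)) ≤
        2 * (u.natDegree : ℝ) ^ 2 * log (1 / (1 - r)) := by
  refine (Finset.sum_le_sum fun l _ => Finset.sum_le_sum fun m _ =>
    kern_le hr0 hr1 (norm_refl_le _) (norm_refl_le _)).trans (le_of_eq ?_)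
  simp only [Finset.sum_const, Finset.card_univ, Fintype.card_fin, nsmul_eq_mul]
  ring

/-- the self energy of a union of fibres -/
lemma self_energy' (hu : ‖u.leadingCoeff‖ = 1) (hv : v.natDegree < u.natDegree) (hres : 1 ≤ rs u v)
    {r : ℝ} (hr0 : 0 ≤ r)
    (hr1 : r < 1) {ι : Type*} [DecidableEq ι] (T : Finset ι) (t : ι → ℂ)
    (ht : ∀ a ∈ T, ∀ b ∈ T, a ≠ b → t a ≠ t b) :
    ∑ a ∈ T, ∑ b ∈ T, ∑ l, ∑ m, kern r (Pool.Agent.H388SL.refl (fibr u v (t a) l))
        (Pool.Agent.H388SL.refl (fibr u v (t b) m)) ≤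
      - (u.natDegree * ∑ a ∈ T, ∑ b ∈ T.erase a, log ‖t a - t b‖) +
        2 * (u.natDegree : ℝ) ^ 2 * log (2 / (1 + r)) * (T.card : ℝ) ^ 2 +
        2 * u.natDegree * T.card * (∑ a ∈ T, VR u v (t a)) +
        T.card * (2 * (u.natDegree : ℝ) ^ 2 * log (1 / (1 - r))) := by
  have hlog : 0 ≤ log (2 / (1 + r)) := by
    apply log_nonneg
    rw [le_div_iff₀ (by linarith)]
    linarith
  have h1 : ∀ a ∈ T, ∑ b ∈ T, ∑ l, ∑ m, kern r (Pool.Agent.H388SL.refl (fibr u v (t a) l))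
        (Pool.Agent.H388SL.refl (fibr u v (t b) m)) ≤
      - (u.natDegree * ∑ b ∈ T.erase a, log ‖t a - t b‖) +
      T.card * (2 * (u.natDegree : ℝ) ^ 2 * log (2 / (1 + r)) + u.natDegree * VR u v (t a)) +
      u.natDegree * (∑ b ∈ T, VR u v (t b)) + 2 * (u.natDegree : ℝ) ^ 2 * log (1 / (1 - r)) := by
    intro a ha
    rw [← Finset.add_sum_erase T _ ha]
    have g1 := block_diag' (u := u) (v := v) hr0 hr1 (t a) (t a)
    have g2 : ∑ b ∈ T.erase a, ∑ l, ∑ m, kern r (Pool.Agent.H388SL.refl (fibr u v (t a) l))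
        (Pool.Agent.H388SL.refl (fibr u v (t b) m)) ≤
        ∑ b ∈ T.erase a, (- (u.natDegree * log ‖t a - t b‖) +
        2 * (u.natDegree : ℝ) ^ 2 * log (2 / (1 + r)) + u.natDegree * VR u v (t a) +
        u.natDegree * VR u v (t b)) := by
      apply Finset.sum_le_sum
      intro b hb
      exact block_one' hu hv hres hr0 hr1 (ht a ha b (Finset.mem_of_mem_erase hb)
        (Finset.ne_of_mem_erase hb).symm)
    have g3 : ∑ b ∈ T.erase a, (- (u.natDegree * log ‖t a - t b‖) +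
        2 * (u.natDegree : ℝ) ^ 2 * log (2 / (1 + r)) + u.natDegree * VR u v (t a) +
        u.natDegree * VR u v (t b)) =
        - (u.natDegree * ∑ b ∈ T.erase a, log ‖t a - t b‖) +
        ((T.erase a).card : ℝ) * (2 * (u.natDegree : ℝ) ^ 2 * log (2 / (1 + r)) +
          u.natDegree * VR u v (t a)) + u.natDegree * (∑ b ∈ T.erase a, VR u v (t b)) := by
      simp only [Finset.sum_add_distrib, Finset.sum_neg_distrib, Finset.sum_const, nsmul_eq_mul,
        ← Finset.mul_sum]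
      ring
    have g4 : ((T.erase a).card : ℝ) ≤ T.card := by
      exact_mod_cast Finset.card_le_card (Finset.erase_subset a T)
    have g5 : 0 ≤ 2 * (u.natDegree : ℝ) ^ 2 * log (2 / (1 + r)) + u.natDegree * VR u v (t a) := by
      have := VR_nonneg (u := u) (v := v) (t a)
      positivity
    have g6 : ∑ b ∈ T.erase a, VR u v (t b) ≤ ∑ b ∈ T, VR u v (t b) :=
      Finset.sum_le_sum_of_subset_of_nonneg (Finset.erase_subset a T)
        fun b _ _ => VR_nonneg (t b)
    have g7 := mul_le_mul_of_nonneg_right g4 g5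
    have g8 := mul_le_mul_of_nonneg_left g6 (Nat.cast_nonneg (α := ℝ) u.natDegree)
    linarith
  refine (Finset.sum_le_sum h1).trans (le_of_eq ?_)
  simp only [Finset.sum_add_distrib, Finset.sum_neg_distrib, Finset.sum_const, nsmul_eq_mul,
    ← Finset.mul_sum]
  ring

variable (u v)

/-- the mean of `log max (|u - β v|, c |v|)` -/
noncomputable def LR (β : ℂ) (c : ℝ) : ℝ :=
  circleAverage (fun x => log (max ‖(Pt u v β).eval x‖ (c * ‖v.eval x‖))) 0 1

variable {u v}

lemma max_pos (hv : v.natDegree < u.natDegree) (hres : 1 ≤ rs u v) (β : ℂ) {c : ℝ} (hc : 0 < c)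
    (x : ℂ) : 0 < max ‖(Pt u v β).eval x‖ (c * ‖v.eval x‖) := by
  by_cases h : v.eval x = 0
  · apply lt_max_of_lt_left
    rw [Pt_eval, h, mul_zero, sub_zero]
    exact norm_pos_iff.mpr (u_ne hv hres h)
  · apply lt_max_of_lt_right
    exact mul_pos hc (norm_pos_iff.mpr h)

lemma LR_int (hv : v.natDegree < u.natDegree) (hres : 1 ≤ rs u v) (β : ℂ) {c : ℝ} (hc : 0 < c) :
    CircleIntegrable (fun x => log (max ‖(Pt u v β).eval x‖ (c * ‖v.eval x‖))) 0 1 := by
  apply ContinuousOn.circleIntegrable'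
  intro x _
  have h1 : ContinuousAt (fun x => max ‖(Pt u v β).eval x‖ (c * ‖v.eval x‖)) x := by
    fun_prop
  exact (h1.log (max_pos hv hres β hc x).ne').continuousWithinAt

lemma VR_poly (hu : ‖u.leadingCoeff‖ = 1) (hv : v.natDegree < u.natDegree) (hres : 1 ≤ rs u v)
    {N : ℕ} (hN : 0 < N) (β : ℂ) {c : ℂ} (hc : c ≠ 0) :
    ∑ ζ ∈ ZN N, VR u v (β + ζ * c) ≤ N * LR u v β ‖c‖ + log 2 := by
  have hc' : 0 < ‖c‖ := norm_pos_iff.mpr hc
  have h1 : ∑ ζ ∈ ZN N, VR u v (β + ζ * c) =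
      circleAverage (∑ ζ ∈ ZN N, fun x => log ‖(Pt u v (β + ζ * c)).eval x‖) 0 1 := by
    rw [circleAverage_sum fun ζ _ => log_int _]
    refine Finset.sum_congr rfl fun ζ _ => ?_
    rw [VR_eq hu hv, ← log_mahler]
  have h2 : circleAverage (∑ ζ ∈ ZN N, fun x => log ‖(Pt u v (β + ζ * c)).eval x‖) 0 1 ≤
      circleAverage (((N : ℝ) • fun x => log (max ‖(Pt u v β).eval x‖ (‖c‖ * ‖v.eval x‖))) +
        fun _ => log 2) 0 1 := by
    apply circleAverage_mono_off (CircleIntegrable.sum _ fun ζ _ => log_int _)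
      (((LR_int hv hres β hc').const_smul).add (circleIntegrable_const _ _ _))
      (Z := (⋃ ζ ∈ ZN N, {x | (Pt u v (β + ζ * c)).eval x = 0}) ∪ {x | v.eval x = 0})
      ((Set.Countable.biUnion (Finset.countable_toSet _) fun ζ _ => roots_countable (Pt_ne hv _)).union
        (roots_countable (v_ne hv hres)))
    intro x _ hx2
    simp only [Set.mem_union, Set.mem_iUnion, Set.mem_ofPred_eq, not_exists, not_or] at hx2
    obtain ⟨hx2, hx3⟩ := hx2
    rw [Finset.sum_apply]
    simp only [Pi.add_apply, Pi.smul_apply, smul_eq_mul]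
    have e1 : ∀ ζ : ℂ, (Pt u v (β + ζ * c)).eval x = (Pt u v β).eval x - ζ * (c * v.eval x) := by
      intro ζ
      rw [Pt_eval, Pt_eval]
      ring
    have h3 := log_pow_sub_pow hN (w := (Pt u v β).eval x) (c := c * v.eval x)
      (mul_ne_zero hc hx3) (by
      intro ζ hζ h0
      apply hx2 ζ hζ
      rw [e1]
      exact h0)
    rw [norm_mul] at h3
    refine le_trans (le_of_eq ?_) h3
    refine Finset.sum_congr rfl fun ζ _ => ?_
    rw [e1]
  rw [h1]
  refine h2.trans (le_of_eq ?_)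
  rw [circleAverage_add ((LR_int hv hres β hc').const_smul) (circleIntegrable_const _ _ _),
    circleAverage_smul, circleAverage_const, smul_eq_mul]
  rfl

/-- the polynomial in `t` whose value is the product of the values at the `p`-th powers -/
lemma exists_R' (hu : ‖u.leadingCoeff‖ = 1) (hv : v.natDegree < u.natDegree) (hres : 1 ≤ rs u v)
    {p : ℕ} (hp : 0 < p) (τ : ℂ) :
    ∃ R : ℂ[X], R ≠ 0 ∧ ∀ t, ‖R.eval t‖ = ∏ l, ‖(Pt u v τ).eval (fibr u v t l ^ p)‖ := by
  have h3 : ‖((Pt u v τ).comp (X ^ p)).leadingCoeff‖ = 1 := by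
    rw [leadingCoeff_comp (by rw [natDegree_X_pow]; omega), (Pt_deg hv τ).2, leadingCoeff_X_pow,
      one_pow, mul_one, hu]
  obtain ⟨y, hy⟩ := norm_eval_enum _ h3
  refine ⟨∏ j, (C (u.eval (y j)) - C (v.eval (y j)) * X), ?_, ?_⟩
  · rw [Finset.prod_ne_zero_iff]
    intro j _ h
    have h4 := congrArg (fun P : ℂ[X] => P.coeff 1) h
    have h5 := congrArg (fun P : ℂ[X] => P.coeff 0) h
    simp at h4 h5
    exact u_ne hv hres h4 h5
  · intro t
    rw [eval_prod, norm_prod]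
    have h4 : ∀ j, ‖(C (u.eval (y j)) - C (v.eval (y j)) * X).eval t‖ =
        ∏ l, ‖y j - fibr u v t l‖ := by
      intro j
      rw [← Pt_norm hu hv t (y j), Pt_eval, eval_sub, eval_mul, eval_C, eval_C, eval_X, mul_comm t]
    simp_rw [h4]
    rw [Finset.prod_comm]
    refine Finset.prod_congr rfl fun l _ => ?_
    have h5 := hy (fibr u v t l)
    rw [eval_comp, eval_pow, eval_X] at h5
    rw [h5]
    refine Finset.prod_congr rfl fun j _ => ?_
    rw [norm_sub_rev]

end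

end Pool.Agent.Zk21.Rd
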